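import Pool.Agent.H698NC.J0

set_option autoImplicit false

namespace Pool.Agent.H698NC

open Finset

namespace MJA

variable {n : ℕ}

theorem ja_E_lower (m n d t : ℕ) (A : Finset (Sym2 (Fin n))) (hd : m + 1 ≤ d)
    (hn : (4 * ((m : ℝ) + 2)) * ((d : ℝ) + (1 + t) ^ 6) ≤ n) (hA : Cls d m t A) :
    (n : ℝ) * d / (m + 2) ≤ EE d A := by
  have h1 : (2 * (A.card : ℝ)) ≤ m * n + 2 * t := by exact_mod_cast hA.card
  have hd' : (m : ℝ) + 1 ≤ d := by exact_mod_cast hd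
  have hm : (0 : ℝ) ≤ m := Nat.cast_nonneg m
  have ht : (0 : ℝ) ≤ t := Nat.cast_nonneg t
  have hn0 : (0 : ℝ) ≤ n := Nat.cast_nonneg n
  have h2 : (t : ℝ) ≤ (1 + t) ^ 6 := by
    have h3 : (1 + (t : ℝ)) ^ 1 ≤ (1 + t) ^ 6 := pow_le_pow_right₀ (by linarith) (by norm_num)
    linarith
  have h4 : (2 * ((m : ℝ) + 2)) * t ≤ n := by
    have h5 : (2 * ((m : ℝ) + 2)) * t ≤ (4 * ((m : ℝ) + 2)) * ((d : ℝ) + (1 + t) ^ 6) := by
      apply mul_le_mul
      · linarith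
      · linarith [(Nat.cast_nonneg d : (0 : ℝ) ≤ d)]
      · exact ht
      · linarith
    linarith
  unfold EE
  rw [div_le_iff₀ (by linarith)]
  have h6 : (n : ℝ) * d - (m * n + 2 * t) ≤ (n : ℝ) * d - 2 * A.card := by linarith
  have h7 : (n : ℝ) * d ≤ ((n : ℝ) * d - (m * n + 2 * t)) * (m + 2) := by
    have h8 : (n : ℝ) * 1 ≤ n * (d * (m + 1) - m * (m + 2)) := by
      apply mul_le_mul_of_nonneg_left _ hn0
      nlinarith
    nlinarith
  exact h7.trans (mul_le_mul_of_nonneg_right h6 (by linarith))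

theorem ja_n_ge (m n d t : ℕ) (hn : (4 * ((m : ℝ) + 2)) * ((d : ℝ) + (1 + t) ^ 6) ≤ n) :
    4 * ((m : ℝ) + 2) ≤ n := by
  have hm : (0 : ℝ) ≤ m := Nat.cast_nonneg m
  have ht : (0 : ℝ) ≤ t := Nat.cast_nonneg t
  have hd : (0 : ℝ) ≤ d := Nat.cast_nonneg d
  have h3 : (1 : ℝ) ≤ (1 + t) ^ 6 := one_le_pow₀ (by linarith)
  have h4 : (4 * ((m : ℝ) + 2)) * 1 ≤ (4 * ((m : ℝ) + 2)) * ((d : ℝ) + (1 + t) ^ 6) := by
    apply mul_le_mul_of_nonneg_left _ (by linarith)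
    linarith
  linarith

theorem ja_E_four (m n d t : ℕ) (A : Finset (Sym2 (Fin n))) (hd : m + 1 ≤ d)
    (hn : (4 * ((m : ℝ) + 2)) * ((d : ℝ) + (1 + t) ^ 6) ≤ n) (hA : Cls d m t A) : 4 ≤ EE d A := by
  have h1 := ja_E_lower m n d t A hd hn hA
  have h2 := ja_n_ge m n d t hn
  have hm : (0 : ℝ) ≤ m := Nat.cast_nonneg m
  have hd' : (1 : ℝ) ≤ d := by
    have : 1 ≤ d := by omega
    exact_mod_cast this
  have h3 : (4 : ℝ) ≤ (n : ℝ) * d / (m + 2) := by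
    rw [le_div_iff₀ (by linarith)]
    nlinarith
  linarith

theorem ja_rd {m d t : ℕ} {A : Finset (Sym2 (Fin n))} (hA : Cls d m t A) (v : Fin n) :
    0 ≤ rd d A v ∧ rd d A v ≤ d ∧ (d : ℝ) - (m + t) ≤ rd d A v ∧ 0 ≤ rd d A v * (rd d A v - 1) := by
  have h1 : (dg A v : ℝ) ≤ d := by exact_mod_cast hA.led v
  have h2 : (dg A v : ℝ) ≤ m + t := by exact_mod_cast hA.lem v
  have h3 : (0 : ℝ) ≤ dg A v := Nat.cast_nonneg _
  refine ⟨by unfold rd; linarith, by unfold rd; linarith, by unfold rd; linarith, ?_⟩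
  have h4 : rd d A v = ((d - dg A v : ℕ) : ℝ) := by
    unfold rd; rw [Nat.cast_sub (hA.led v)]
  rw [h4]
  rcases Nat.eq_zero_or_pos (d - dg A v) with h5 | h5
  · rw [h5]; simp
  · have h6 : (1 : ℝ) ≤ ((d - dg A v : ℕ) : ℝ) := by exact_mod_cast h5
    exact mul_nonneg (by linarith) (by linarith)

theorem ja_nbr (A B : Finset (Sym2 (Fin n))) (v : Fin n) : (nbr (A ∪ B) v).card ≤ dg A v + dg B v := by
  have h1 : nbr (A ∪ B) v = nbr A v ∪ nbr B v := by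
    ext w; simp [nbr]
  rw [h1]
  exact Finset.card_union_le _ _

theorem ja_stat (m n d t : ℕ) (A B : Finset (Sym2 (Fin n))) (hd : m + 1 ≤ d)
    (hn : (4 * ((m : ℝ) + 2)) * ((d : ℝ) + (1 + t) ^ 6) ≤ n) (hA : Cls d m t A) (hB : BCls m B) :
    0 ≤ D2 d A / EE d A ∧ D2 d A / EE d A ≤ d ∧ (∀ v, 0 ≤ rd d A v ∧ rd d A v ≤ d ∧ |rd d A v - 1 - D2 d A / EE d A| ≤ m + t) ∧
      (∀ v, 0 ≤ TT d A B v ∧ TT d A B v ≤ (2 * m + t) * d) ∧ 0 ≤ QQ d A B / EE d A ∧ QQ d A B / EE d A ≤ (2 * m + t) * d := by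
  have hE4 := ja_E_four m n d t A hd hn hA
  have hE : 0 < EE d A := by linarith
  have hsum := sum_rd d A hA.nd
  have hD2a : 0 ≤ D2 d A := Finset.sum_nonneg fun v _ => (ja_rd hA v).2.2.2
  have hD2b : D2 d A ≤ (d - 1) * EE d A := by
    rw [← hsum, Finset.mul_sum]
    refine Finset.sum_le_sum fun v _ => ?_
    obtain ⟨h1, h2, h3, h4⟩ := ja_rd hA v
    nlinarith
  have hD2c : ((d : ℝ) - 1 - (m + t)) * EE d A ≤ D2 d A := by
    rw [← hsum, Finset.mul_sum]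
    refine Finset.sum_le_sum fun v _ => ?_
    obtain ⟨h1, h2, h3, h4⟩ := ja_rd hA v
    nlinarith
  have hΔa : 0 ≤ D2 d A / EE d A := div_nonneg hD2a hE.le
  have hΔb : D2 d A / EE d A ≤ d - 1 := by rw [div_le_iff₀ hE]; exact hD2b
  have hΔc : (d : ℝ) - 1 - (m + t) ≤ D2 d A / EE d A := by rw [le_div_iff₀ hE]; exact hD2c
  have hTT : ∀ v, 0 ≤ TT d A B v ∧ TT d A B v ≤ (2 * m + t) * d := by
    intro v
    refine ⟨Finset.sum_nonneg fun w _ => (ja_rd hA w).1, ?_⟩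
    have h1 : TT d A B v ≤ ∑ w ∈ nbr (A ∪ B) v, (d : ℝ) := Finset.sum_le_sum fun w _ => (ja_rd hA w).2.1
    rw [Finset.sum_const, nsmul_eq_mul] at h1
    have h2 : ((nbr (A ∪ B) v).card : ℝ) ≤ 2 * m + t := by
      have h3 : (nbr (A ∪ B) v).card ≤ 2 * m + t := by
        have h4 := ja_nbr A B v
        have h5 := hA.lem v
        have h6 := hB.lem v
        omega
      exact_mod_cast h3
    exact h1.trans (mul_le_mul_of_nonneg_right h2 (Nat.cast_nonneg d))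
  refine ⟨hΔa, by linarith, fun v => ?_, hTT, ?_, ?_⟩
  · obtain ⟨h1, h2, h3, h4⟩ := ja_rd hA v
    refine ⟨h1, h2, ?_⟩
    rw [abs_le]
    constructor <;> linarith
  · exact div_nonneg (Finset.sum_nonneg fun v _ => mul_nonneg (ja_rd hA v).1 (hTT v).1) hE.le
  · rw [div_le_iff₀ hE, ← hsum, Finset.mul_sum]
    refine Finset.sum_le_sum fun v _ => ?_
    have := mul_le_mul_of_nonneg_left (hTT v).2 (ja_rd hA v).1
    linarith

theorem ja_e1 {m t : ℝ} (hm : 0 ≤ m) (ht : 0 ≤ t) : m + t ≤ (m + 1) * (1 + t) := by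
  nlinarith [mul_nonneg hm ht]

theorem ja_e3 {m t : ℝ} (hm : 0 ≤ m) (ht : 0 ≤ t) : 2 * m + t ≤ (2 * m + 1) * (1 + t) ^ 2 := by
  have h1 : (2 * m + 1) * (1 + t) ^ 2 = 2 * m + t + (1 + t + t ^ 2 + 4 * (m * t) + 2 * (m * t ^ 2)) := by ring
  rw [h1]
  have h2 := mul_nonneg hm ht
  have h3 := mul_nonneg hm (sq_nonneg t)
  have h4 := sq_nonneg t
  linarith

theorem ja_log {u : ℝ} (h0 : 0 < u) (h1 : u ≤ 1 / 2) : |(-Real.log (1 - u) - u)| ≤ 2 * u ^ 2 := by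
  have h2 : 0 < 1 - u := by linarith
  have h3 : Real.log (1 - u) ≤ -u := by
    have := Real.log_le_sub_one_of_pos h2
    linarith
  have h4 : -Real.log (1 - u) ≤ u / (1 - u) := by
    rw [← Real.log_inv]
    have h5 := Real.log_le_sub_one_of_pos (inv_pos.2 h2)
    have h6 : (1 - u)⁻¹ - 1 = u / (1 - u) := by field_simp; ring
    linarith
  have h5 : u / (1 - u) - u ≤ 2 * u ^ 2 := by
    have h6 : u / (1 - u) - u = u ^ 2 / (1 - u) := by field_simp; ring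
    rw [h6, div_le_iff₀ h2]
    nlinarith [sq_nonneg u]
  rw [abs_le]
  constructor <;> nlinarith [sq_nonneg u]

/-- TARGET 1 -/
theorem EE_lower (m : ℕ) : ∃ C : ℝ, 1 ≤ C ∧ ∀ (n d t : ℕ) (A : Finset (Sym2 (Fin n))),
    m + 1 ≤ d → C * ((d : ℝ) + (1 + t) ^ 6) ≤ n → Cls d m t A → (n : ℝ) * d / (m + 2) ≤ EE d A := by
  have hm : (0 : ℝ) ≤ m := Nat.cast_nonneg m
  refine ⟨4 * ((m : ℝ) + 2), by linarith, ?_⟩
  intro n d t A hd hn hA
  exact ja_E_lower m n d t A hd hn hA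

/-- TARGET 2 -/
theorem stat_bounds (m : ℕ) : ∃ C : ℝ, 1 ≤ C ∧ ∀ (n d t : ℕ) (A B : Finset (Sym2 (Fin n))),
    m + 1 ≤ d → C * ((d : ℝ) + (1 + t) ^ 6) ≤ n → Cls d m t A → BCls m B →
    0 ≤ D2 d A / EE d A ∧ D2 d A / EE d A ≤ d ∧ (∀ v, 0 ≤ rd d A v ∧ rd d A v ≤ d ∧ |rd d A v - 1 - D2 d A / EE d A| ≤ m + t) ∧
      (∀ v, 0 ≤ TT d A B v ∧ TT d A B v ≤ (2 * m + t) * d) ∧ 0 ≤ QQ d A B / EE d A ∧ QQ d A B / EE d A ≤ (2 * m + t) * d := by
  have hm : (0 : ℝ) ≤ m := Nat.cast_nonneg m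
  refine ⟨4 * ((m : ℝ) + 2), by linarith, ?_⟩
  intro n d t A B hd hn hA hB
  exact ja_stat m n d t A B hd hn hA hB

/-- TARGET 3 -/
theorem gg_bound (m : ℕ) : ∃ C : ℝ, 1 ≤ C ∧ ∀ (n d t : ℕ) (A B : Finset (Sym2 (Fin n))) (x y : Fin n),
    Even (n * d) → m + 1 ≤ d → C * ((d : ℝ) + (1 + t) ^ 6) ≤ n → Cls d m t A → BCls m B → Val d A B x y →
    |gL (ell d) d A B x y - bet d A B x y / EE d A| ≤ C * (1 + t) ^ 2 / n ^ 2 ∧
      |bet d A B x y| ≤ C * (1 + t) ^ 2 * d ∧ (n : ℝ) * d / (m + 2) ≤ EE d A ∧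
      |gL (ell d) d A B x y| ≤ C * (1 + t) ^ 2 / n := by
  have hm : (0 : ℝ) ≤ m := Nat.cast_nonneg m
  set K : ℝ := 4 + ((m : ℝ) + 1) ^ 2 + 3 * (2 * m + 1) with hK
  have hK0 : 0 < K := by positivity
  set C3 : ℝ := (42 + 4 * K) * ((m : ℝ) + 2) ^ 2 with hC3
  have hC30 : 0 < C3 := by positivity
  set C : ℝ := K * (m + 2) + C3 + 4 * (m + 2) with hC
  have hKC : K ≤ C := by
    have h1 : K * 1 ≤ K * (m + 2) := mul_le_mul_of_nonneg_left (by linarith) hK0.le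
    linarith
  have hC3C : C3 ≤ C := by
    have h1 : 0 ≤ K * (m + 2) := by positivity
    linarith
  refine ⟨C, ?_, ?_⟩
  · have h1 : 0 ≤ K * (m + 2) := by positivity
    linarith
  intro n d t A B x y hev hd hn hA hB hV
  have ht : (0 : ℝ) ≤ t := Nat.cast_nonneg t
  have hd1 : (1 : ℝ) ≤ d := by
    have : 1 ≤ d := by omega
    exact_mod_cast this
  have hn' : (4 * ((m : ℝ) + 2)) * ((d : ℝ) + (1 + t) ^ 6) ≤ n := by
    refine le_trans (mul_le_mul_of_nonneg_right ?_ (by positivity)) hn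
    have h1 : 0 ≤ K * (m + 2) := by positivity
    linarith
  have hn4 := ja_n_ge m n d t hn'
  have hn1 : (1 : ℝ) ≤ n := by linarith
  have hE4 := ja_E_four m n d t A hd hn' hA
  have hElow := ja_E_lower m n d t A hd hn' hA
  obtain ⟨hΔa, hΔb, hr, hTT, hQa, hQb⟩ := ja_stat m n d t A B hd hn' hA hB
  have hgg := gg_exact d A B x y hev hA.nd hB.nd (by linarith) hV
  set E := EE d A with hE
  set Δ := D2 d A / E with hΔ
  set rx := rd d A x with hrx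
  set ry := rd d A y with hry
  set β := bet d A B x y with hβ
  obtain ⟨hx1, hx2, hx3⟩ := hr x
  obtain ⟨hy1, hy2, hy3⟩ := hr y
  rw [← hrx] at hx1 hx2 hx3
  rw [← hry] at hy1 hy2 hy3
  -- the bound for beta
  have ht1 : (1 : ℝ) ≤ 1 + t := by linarith
  have hprod : |(rx - 1 - Δ) * (ry - 1 - Δ)| ≤ (m + t) ^ 2 := by
    rw [abs_mul, sq]
    exact mul_le_mul hx3 hy3 (abs_nonneg _) (by positivity)
  have hβ1 : |β| ≤ 1 + 3 * d + (m + t) ^ 2 + 3 * ((2 * m + t) * d) := by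
    have h1 : β = 1 + (rx - 1) + (ry - 1) - Δ - (rx - 1 - Δ) * (ry - 1 - Δ) + TT d A B x + TT d A B y
        - QQ d A B / E := rfl
    have h2 := abs_le.1 hprod
    have h3 := hTT x
    have h4 := hTT y
    rw [abs_le, h1]
    constructor <;> linarith [h2.1, h2.2, h3.1, h3.2, h4.1, h4.2]
  have hβ2 : |β| ≤ K * (1 + t) ^ 2 * d := by
    refine hβ1.trans ?_
    have e1 : ((m : ℝ) + t) ≤ (m + 1) * (1 + t) := ja_e1 hm ht
    have e2 : ((m : ℝ) + t) ^ 2 ≤ ((m + 1) * (1 + t)) ^ 2 := pow_le_pow_left₀ (by positivity) e1 2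
    have e3 : (2 * (m : ℝ) + t) ≤ (2 * m + 1) * (1 + t) ^ 2 := ja_e3 hm ht
    have e4 : (2 * (m : ℝ) + t) * d ≤ ((2 * m + 1) * (1 + t) ^ 2) * d := mul_le_mul_of_nonneg_right e3 (by linarith)
    have e5 : (1 : ℝ) ≤ (1 + t) ^ 2 := one_le_pow₀ ht1
    have e6 : (d : ℝ) ≤ (1 + t) ^ 2 * d := le_mul_of_one_le_left (by linarith) e5
    have e7 : (1 : ℝ) ≤ (1 + t) ^ 2 * d := by linarith
    have e8 : ((m + 1 : ℝ) * (1 + t)) ^ 2 ≤ (m + 1) ^ 2 * ((1 + t) ^ 2 * d) := by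
      rw [mul_pow]
      apply mul_le_mul_of_nonneg_left _ (by positivity)
      exact le_mul_of_one_le_right (by positivity) hd1
    have e9 : K * (1 + t) ^ 2 * d = 4 * ((1 + t) ^ 2 * d) + (m + 1) ^ 2 * ((1 + t) ^ 2 * d) +
        3 * (((2 * m + 1) * (1 + t) ^ 2) * d) := by rw [hK]; ring
    rw [e9]
    linarith
  -- the main estimate
  have hE2 : E / 2 ≤ E - 2 := by linarith
  have hE0 : 0 < E := by linarith
  have hE20 : 0 < E - 2 := by linarith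
  have hu : 1 / E ≤ 1 / 2 := by
    apply one_div_le_one_div_of_le (by norm_num); linarith
  have hlog := ja_log (u := 1 / E) (by positivity) hu
  have hdiff : (β - 1) / (E - 2) - (β - 1) / E = (β - 1) * (2 / (E * (E - 2))) := by
    field_simp; ring
  have hfrac : 2 / (E * (E - 2)) ≤ 4 / E ^ 2 := by
    rw [div_le_div_iff₀ (by positivity) (by positivity)]
    have h1 : E * (E / 2) ≤ E * (E - 2) := mul_le_mul_of_nonneg_left hE2 hE0.le
    have h2 : 2 * E ^ 2 = 4 * (E * (E / 2)) := by ring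
    rw [h2]
    exact mul_le_mul_of_nonneg_left h1 (by norm_num)
  have hfrac0 : 0 ≤ 2 / (E * (E - 2)) := by positivity
  have hS : |rx - 1 + (ry - 1) - Δ| ≤ 3 * d := by
    rw [abs_le]; constructor <;> linarith
  have hS2 : (rx - 1 + (ry - 1) - Δ) ^ 2 / (E - 2) ^ 2 ≤ 36 * d ^ 2 / E ^ 2 := by
    have h1 : (rx - 1 + (ry - 1) - Δ) ^ 2 ≤ (3 * d) ^ 2 := by
      rw [← sq_abs]; exact pow_le_pow_left₀ (abs_nonneg _) hS 2
    have h2 : (E / 2) ^ 2 ≤ (E - 2) ^ 2 := pow_le_pow_left₀ (by linarith) hE2 2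
    calc (rx - 1 + (ry - 1) - Δ) ^ 2 / (E - 2) ^ 2 ≤ (3 * d) ^ 2 / (E / 2) ^ 2 := by
          apply div_le_div₀ (by positivity) h1 (by positivity) h2
      _ = 36 * d ^ 2 / E ^ 2 := by field_simp; ring
  have hS0 : 0 ≤ (rx - 1 + (ry - 1) - Δ) ^ 2 / (E - 2) ^ 2 := by positivity
  have hb1 : |(β - 1) * (2 / (E * (E - 2)))| ≤ (K * (1 + t) ^ 2 * d + 1) * (4 / E ^ 2) := by
    rw [abs_mul, abs_of_nonneg hfrac0]
    apply mul_le_mul _ hfrac hfrac0 (by positivity)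
    calc |β - 1| ≤ |β| + |(1 : ℝ)| := abs_sub _ _
      _ ≤ K * (1 + t) ^ 2 * d + 1 := by rw [abs_one]; linarith
  have hmain : |gL (ell d) d A B x y - β / E| ≤ C3 * (1 + t) ^ 2 / n ^ 2 := by
    have h1 : gL (ell d) d A B x y - β / E = (-Real.log (1 - 1 / E) - 1 / E) +
        (β - 1) * (2 / (E * (E - 2))) - (rx - 1 + (ry - 1) - Δ) ^ 2 / (E - 2) ^ 2 := by
      rw [hgg, ← hdiff]; ring
    have h2 : |gL (ell d) d A B x y - β / E| ≤ 2 * (1 / E) ^ 2 + (K * (1 + t) ^ 2 * d + 1) * (4 / E ^ 2) +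
        36 * d ^ 2 / E ^ 2 := by
      rw [h1, abs_le]
      have h3 := abs_le.1 hlog
      have h4 := abs_le.1 hb1
      constructor <;> linarith [h3.1, h3.2, h4.1, h4.2]
    have h5 : 2 * (1 / E) ^ 2 + (K * (1 + t) ^ 2 * d + 1) * (4 / E ^ 2) + 36 * d ^ 2 / E ^ 2 =
        (2 + 4 * (K * (1 + t) ^ 2 * d + 1) + 36 * d ^ 2) / E ^ 2 := by
      field_simp
    have h6 : 2 + 4 * (K * (1 + t) ^ 2 * d + 1) + 36 * (d : ℝ) ^ 2 ≤ (42 + 4 * K) * ((1 + t) ^ 2 * d ^ 2) := by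
      have e5 : (1 : ℝ) ≤ (1 + t) ^ 2 := one_le_pow₀ ht1
      have e6 : (1 : ℝ) ≤ (d : ℝ) ^ 2 := one_le_pow₀ hd1
      have e7 : (d : ℝ) ≤ (d : ℝ) ^ 2 := le_self_pow₀ hd1 (by norm_num)
      have e8 : (d : ℝ) ^ 2 ≤ (1 + t) ^ 2 * d ^ 2 := le_mul_of_one_le_left (by positivity) e5
      have e9 : (1 + (t : ℝ)) ^ 2 * d ≤ (1 + t) ^ 2 * d ^ 2 := mul_le_mul_of_nonneg_left e7 (by positivity)
      have e10 : K * ((1 + (t : ℝ)) ^ 2 * d) ≤ K * ((1 + t) ^ 2 * d ^ 2) := mul_le_mul_of_nonneg_left e9 hK0.le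
      have e11 : K * (1 + t) ^ 2 * d = K * ((1 + (t : ℝ)) ^ 2 * d) := by ring
      have e12 : (42 + 4 * K) * ((1 + t) ^ 2 * d ^ 2) = 42 * ((1 + t) ^ 2 * (d : ℝ) ^ 2) +
        4 * (K * ((1 + t) ^ 2 * d ^ 2)) := by ring
      rw [e11, e12]
      linarith
    have h7 : (d : ℝ) / E ≤ (m + 2) / n := by
      rw [div_le_div_iff₀ hE0 (by linarith)]
      rw [div_le_iff₀ (by linarith)] at hElow
      linarith
    have h8 : (d : ℝ) ^ 2 / E ^ 2 ≤ (m + 2) ^ 2 / n ^ 2 := by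
      rw [← div_pow, ← div_pow]; exact pow_le_pow_left₀ (by positivity) h7 2
    calc |gL (ell d) d A B x y - β / E| ≤ (2 + 4 * (K * (1 + t) ^ 2 * d + 1) + 36 * d ^ 2) / E ^ 2 := by
          rw [← h5]; exact h2
      _ ≤ ((42 + 4 * K) * ((1 + t) ^ 2 * d ^ 2)) / E ^ 2 := by
          apply div_le_div_of_nonneg_right h6 (by positivity)
      _ = ((42 + 4 * K) * (1 + t) ^ 2) * (d ^ 2 / E ^ 2) := by ring
      _ ≤ ((42 + 4 * K) * (1 + t) ^ 2) * ((m + 2) ^ 2 / n ^ 2) := by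
          apply mul_le_mul_of_nonneg_left h8 (by positivity)
      _ = C3 * (1 + t) ^ 2 / n ^ 2 := by rw [hC3]; ring
  refine ⟨?_, ?_, hElow, ?_⟩
  · refine hmain.trans ?_
    apply div_le_div_of_nonneg_right _ (by positivity)
    exact mul_le_mul_of_nonneg_right hC3C (by positivity)
  · refine hβ2.trans ?_
    apply mul_le_mul_of_nonneg_right _ (by linarith)
    exact mul_le_mul_of_nonneg_right hKC (by positivity)
  · have h1 : |gL (ell d) d A B x y| ≤ |gL (ell d) d A B x y - β / E| + |β / E| := by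
      have := abs_add_le (gL (ell d) d A B x y - β / E) (β / E)
      rwa [sub_add_cancel] at this
    have h2 : |β / E| ≤ K * (m + 2) * (1 + t) ^ 2 / n := by
      rw [abs_div, abs_of_pos hE0]
      have h7 : (d : ℝ) / E ≤ (m + 2) / n := by
        rw [div_le_div_iff₀ hE0 (by linarith)]
        rw [div_le_iff₀ (by linarith)] at hElow
        linarith
      calc |β| / E ≤ (K * (1 + t) ^ 2 * d) / E := div_le_div_of_nonneg_right hβ2 hE0.le
        _ = (K * (1 + t) ^ 2) * (d / E) := by ring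
        _ ≤ (K * (1 + t) ^ 2) * ((m + 2) / n) := mul_le_mul_of_nonneg_left h7 (by positivity)
        _ = K * (m + 2) * (1 + t) ^ 2 / n := by ring
    have h3 : C3 * (1 + t) ^ 2 / n ^ 2 ≤ C3 * (1 + t) ^ 2 / n := by
      apply div_le_div_of_nonneg_left (by positivity) (by linarith)
      exact le_self_pow₀ hn1 (by norm_num)
    calc |gL (ell d) d A B x y| ≤ C3 * (1 + t) ^ 2 / n + K * (m + 2) * (1 + t) ^ 2 / n := by linarith
      _ = (K * (m + 2) + C3) * (1 + t) ^ 2 / n := by ring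
      _ ≤ C * (1 + t) ^ 2 / n := by
          apply div_le_div_of_nonneg_right _ (by linarith)
          apply mul_le_mul_of_nonneg_right _ (by positivity)
          linarith

end MJA

export MJA (EE_lower stat_bounds gg_bound)

end Pool.Agent.H698NC
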