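import Pool.Agent.H698NC.S
import Pool.Agent.H698NC.JA

set_option autoImplicit false

namespace Pool.Agent.H698NC

open Finset

namespace MD1

variable {n : ℕ}

open scoped Classical in
/-- the ordered pairs outside `A ∪ B` -/
noncomputable def FF (A B : Finset (Sym2 (Fin n))) : Finset (Fin n × Fin n) :=
  univ.filter (fun p => p.2 ≠ p.1 ∧ s(p.1, p.2) ∉ A ∧ s(p.1, p.2) ∉ B)

open scoped Classical in
/-- the pairs `(x, y)` to be switched with `u v` -/
noncomputable def PP (A B : Finset (Sym2 (Fin n))) (u v : Fin n) : Finset (Fin n × Fin n) :=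
  univ.filter (fun p => (p.1 ≠ u ∧ p.1 ≠ v ∧ p.2 ≠ u ∧ p.2 ≠ v ∧ p.1 ≠ p.2) ∧
    (s(p.1, p.2) ∉ A ∧ s(p.1, p.2) ∉ B) ∧ (s(u, p.1) ∉ A ∧ s(u, p.1) ∉ B) ∧ (s(v, p.2) ∉ A ∧ s(v, p.2) ∉ B))

theorem sum_left_le (S : Finset (Fin n × Fin n)) (X : Finset (Fin n)) (Y : Fin n → Finset (Fin n))
    (f : Fin n → Fin n → ℝ) (hf : ∀ x y, 0 ≤ f x y) (h : ∀ p ∈ S, p.1 ∈ X ∧ p.2 ∈ Y p.1) :
    ∑ p ∈ S, f p.1 p.2 ≤ ∑ x ∈ X, ∑ y ∈ Y x, f x y := by
  classical
  have h1 := Finset.sum_finset_product (univ.filter (fun p : Fin n × Fin n => p.1 ∈ X ∧ p.2 ∈ Y p.1)) X Y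
    (by intro p; simp) (f := fun p => f p.1 p.2)
  rw [← h1]
  refine Finset.sum_le_sum_of_subset_of_nonneg ?_ (fun _ _ _ => hf _ _)
  intro p hp
  simpa using h p hp

theorem sum_right_le (S : Finset (Fin n × Fin n)) (X : Finset (Fin n)) (Y : Fin n → Finset (Fin n))
    (f : Fin n → Fin n → ℝ) (hf : ∀ x y, 0 ≤ f x y) (h : ∀ p ∈ S, p.2 ∈ X ∧ p.1 ∈ Y p.2) :
    ∑ p ∈ S, f p.1 p.2 ≤ ∑ y ∈ X, ∑ x ∈ Y y, f x y := by
  classical
  have h1 := Finset.sum_finset_product_right (univ.filter (fun p : Fin n × Fin n => p.2 ∈ X ∧ p.1 ∈ Y p.2)) X Y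
    (by intro p; simp) (f := fun p => f p.1 p.2)
  rw [← h1]
  refine Finset.sum_le_sum_of_subset_of_nonneg ?_ (fun _ _ _ => hf _ _)
  intro p hp
  simpa using h p hp

theorem rd_le (d : ℕ) (A : Finset (Sym2 (Fin n))) (x : Fin n) : rd d A x ≤ d := by
  unfold rd
  have : (0 : ℝ) ≤ (dg A x : ℝ) := Nat.cast_nonneg _
  linarith

theorem val_rd_nonneg {d : ℕ} {A B : Finset (Sym2 (Fin n))} {x y : Fin n} (h : Val d A B x y) :
    0 ≤ rd d A x ∧ 0 ≤ rd d A y := by
  have h1 : (dg A x : ℝ) ≤ d := by exact_mod_cast h.hx.le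
  have h2 : (dg A y : ℝ) ≤ d := by exact_mod_cast h.hy.le
  unfold rd
  constructor <;> linarith

open scoped Classical in
theorem sum_rule_le (d : ℕ) (A B : Finset (Sym2 (Fin n))) (x : Fin n) :
    ∑ z ∈ univ.filter (fun z => z ≠ x ∧ s(x, z) ∉ A ∧ s(x, z) ∉ B), (cnt d (insert s(x, z) A) B : ℝ)
      ≤ d * cnt d A B := by
  rw [sum_rule]
  exact mul_le_mul_of_nonneg_right (rd_le d A x) (Nat.cast_nonneg _)

open scoped Classical in
/-- step (1) -/
theorem step1 (d : ℕ) (A B : Finset (Sym2 (Fin n))) (u v : Fin n) (huv : u ≠ v) (hv : 0 ≤ rd d A v) :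
    ∑ p ∈ PP A B u v, (cnt d (insert s(v, p.2) (insert s(u, p.1) A)) B : ℝ)
      ≤ rd d A u * rd d A v * cnt d A B := by
  have h1 := sum_left_le (PP A B u v) (univ.filter (fun x => (x ≠ u ∧ s(u, x) ∉ A ∧ s(u, x) ∉ B) ∧ x ≠ v))
    (fun x => univ.filter (fun y => y ≠ v ∧ s(v, y) ∉ insert s(u, x) A ∧ s(v, y) ∉ B))
    (fun x y => (cnt d (insert s(v, y) (insert s(u, x) A)) B : ℝ)) (fun _ _ => Nat.cast_nonneg _)
    (by
      rintro ⟨x, y⟩ hp
      simp only [PP, mem_filter, mem_univ, true_and] at hp ⊢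
      obtain ⟨⟨h1, h2, h3, h4, h5⟩, ⟨h6, h7⟩, ⟨h8, h9⟩, h10, h11⟩ := hp
      refine ⟨⟨⟨h1, h8, h9⟩, h2⟩, h4, ?_, h11⟩
      rw [mem_insert]
      rintro (h | h)
      · rw [Sym2.eq_iff] at h
        rcases h with ⟨h, _⟩ | ⟨h, _⟩
        · exact huv h.symm
        · exact h2 h.symm
      · exact h10 h)
  refine h1.trans ?_
  have h2 : ∀ x ∈ univ.filter (fun x => (x ≠ u ∧ s(u, x) ∉ A ∧ s(u, x) ∉ B) ∧ x ≠ v),
      ∑ y ∈ univ.filter (fun y => y ≠ v ∧ s(v, y) ∉ insert s(u, x) A ∧ s(v, y) ∉ B),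
        (cnt d (insert s(v, y) (insert s(u, x) A)) B : ℝ) = rd d A v * cnt d (insert s(u, x) A) B := by
    intro x hx
    simp only [mem_filter, mem_univ, true_and] at hx
    rw [sum_rule, rd_insert d A u x v (Ne.symm hx.1.1) hx.1.2.1]
    have : ¬ (v = u ∨ v = x) := by
      rintro (h | h)
      · exact huv h.symm
      · exact hx.2 h.symm
    rw [if_neg this, sub_zero]
  rw [Finset.sum_congr rfl h2, ← Finset.mul_sum]
  have h3 : ∑ x ∈ univ.filter (fun x => (x ≠ u ∧ s(u, x) ∉ A ∧ s(u, x) ∉ B) ∧ x ≠ v), (cnt d (insert s(u, x) A) B : ℝ)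
      ≤ rd d A u * cnt d A B := by
    rw [← sum_rule d A B u]
    refine Finset.sum_le_sum_of_subset_of_nonneg ?_ (fun _ _ _ => Nat.cast_nonneg _)
    intro x hx
    simp only [mem_filter, mem_univ, true_and] at hx ⊢
    exact hx.1
  calc rd d A v * ∑ x ∈ univ.filter (fun x => (x ≠ u ∧ s(u, x) ∉ A ∧ s(u, x) ∉ B) ∧ x ≠ v), (cnt d (insert s(u, x) A) B : ℝ)
      ≤ rd d A v * (rd d A u * cnt d A B) := mul_le_mul_of_nonneg_left h3 hv
    _ = rd d A u * rd d A v * cnt d A B := by ring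

open scoped Classical in
/-- step (2), first sum -/
theorem step2 (d : ℕ) (A B : Finset (Sym2 (Fin n))) (u v : Fin n) (huv : u ≠ v) :
    ∑ p ∈ PP A B u v, (cnt d (insert s(u, p.1) (insert s(p.1, p.2) (insert s(u, v) A))) B : ℝ)
      ≤ d * (d * cnt d (insert s(u, v) A) B) := by
  have h1 := sum_left_le (PP A B u v) (univ.filter (fun x => x ≠ u ∧ s(u, x) ∉ insert s(u, v) A ∧ s(u, x) ∉ B))
    (fun x => univ.filter (fun y => y ≠ x ∧ s(x, y) ∉ insert s(u, x) (insert s(u, v) A) ∧ s(x, y) ∉ B))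
    (fun x y => (cnt d (insert s(u, x) (insert s(x, y) (insert s(u, v) A))) B : ℝ)) (fun _ _ => Nat.cast_nonneg _)
    (by
      rintro ⟨x, y⟩ hp
      simp only [PP, mem_filter, mem_univ, true_and] at hp ⊢
      obtain ⟨⟨h1, h2, h3, h4, h5⟩, ⟨h6, h7⟩, ⟨h8, h9⟩, h10, h11⟩ := hp
      refine ⟨⟨h1, ?_, h9⟩, h5.symm, ?_, h7⟩
      · rw [mem_insert]
        rintro (h | h)
        · rw [Sym2.eq_iff] at h
          rcases h with ⟨_, h⟩ | ⟨h, _⟩
          · exact h2 h
          · exact huv h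
        · exact h8 h
      · rw [mem_insert, mem_insert]
        rintro (h | h | h)
        · rw [Sym2.eq_iff] at h
          rcases h with ⟨h, _⟩ | ⟨_, h⟩
          · exact h1 h
          · exact h3 h
        · rw [Sym2.eq_iff] at h
          rcases h with ⟨h, _⟩ | ⟨h, _⟩
          · exact h1 h
          · exact h2 h
        · exact h6 h)
  refine h1.trans ?_
  have h2 : ∀ x ∈ univ.filter (fun x => x ≠ u ∧ s(u, x) ∉ insert s(u, v) A ∧ s(u, x) ∉ B),
      ∑ y ∈ univ.filter (fun y => y ≠ x ∧ s(x, y) ∉ insert s(u, x) (insert s(u, v) A) ∧ s(x, y) ∉ B),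
        (cnt d (insert s(u, x) (insert s(x, y) (insert s(u, v) A))) B : ℝ)
        ≤ d * cnt d (insert s(u, x) (insert s(u, v) A)) B := by
    intro x hx
    refine le_trans (le_of_eq ?_) (sum_rule_le d (insert s(u, x) (insert s(u, v) A)) B x)
    refine Finset.sum_congr rfl fun y _ => ?_
    rw [Finset.insert_comm]
  refine (Finset.sum_le_sum h2).trans ?_
  rw [← Finset.mul_sum]
  exact mul_le_mul_of_nonneg_left (sum_rule_le d (insert s(u, v) A) B u) (Nat.cast_nonneg _)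

open scoped Classical in
/-- step (2), second sum -/
theorem step3 (d : ℕ) (A B : Finset (Sym2 (Fin n))) (u v : Fin n) (huv : u ≠ v) :
    ∑ p ∈ PP A B u v, (cnt d (insert s(v, p.2) (insert s(p.1, p.2) (insert s(u, v) A))) B : ℝ)
      ≤ d * (d * cnt d (insert s(u, v) A) B) := by
  have h1 := sum_right_le (PP A B u v) (univ.filter (fun y => y ≠ v ∧ s(v, y) ∉ insert s(u, v) A ∧ s(v, y) ∉ B))
    (fun y => univ.filter (fun x => x ≠ y ∧ s(y, x) ∉ insert s(v, y) (insert s(u, v) A) ∧ s(y, x) ∉ B))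
    (fun x y => (cnt d (insert s(v, y) (insert s(x, y) (insert s(u, v) A))) B : ℝ)) (fun _ _ => Nat.cast_nonneg _)
    (by
      rintro ⟨x, y⟩ hp
      simp only [PP, mem_filter, mem_univ, true_and] at hp ⊢
      obtain ⟨⟨h1, h2, h3, h4, h5⟩, ⟨h6, h7⟩, ⟨h8, h9⟩, h10, h11⟩ := hp
      refine ⟨⟨h4, ?_, h11⟩, h5, ?_, ?_⟩
      · rw [mem_insert]
        rintro (h | h)
        · rw [Sym2.eq_iff] at h
          rcases h with ⟨h, _⟩ | ⟨_, h⟩
          · exact huv h.symm
          · exact h3 h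
        · exact h10 h
      · rw [mem_insert, mem_insert]
        rintro (h | h | h)
        · rw [Sym2.eq_iff] at h
          rcases h with ⟨h, _⟩ | ⟨_, h⟩
          · exact h4 h
          · exact h2 h
        · rw [Sym2.eq_iff] at h
          rcases h with ⟨h, _⟩ | ⟨h, _⟩
          · exact h3 h
          · exact h4 h
        · rw [Sym2.eq_swap] at h
          exact h6 h
      · rw [Sym2.eq_swap]
        exact h7)
  refine h1.trans ?_
  have h2 : ∀ y ∈ univ.filter (fun y => y ≠ v ∧ s(v, y) ∉ insert s(u, v) A ∧ s(v, y) ∉ B),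
      ∑ x ∈ univ.filter (fun x => x ≠ y ∧ s(y, x) ∉ insert s(v, y) (insert s(u, v) A) ∧ s(y, x) ∉ B),
        (cnt d (insert s(v, y) (insert s(x, y) (insert s(u, v) A))) B : ℝ)
        ≤ d * cnt d (insert s(v, y) (insert s(u, v) A)) B := by
    intro y hy
    refine le_trans (le_of_eq ?_) (sum_rule_le d (insert s(v, y) (insert s(u, v) A)) B y)
    refine Finset.sum_congr rfl fun x _ => ?_
    rw [Finset.insert_comm, Sym2.eq_swap (a := x)]
  refine (Finset.sum_le_sum h2).trans ?_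
  rw [← Finset.mul_sum]
  exact mul_le_mul_of_nonneg_left (sum_rule_le d (insert s(u, v) A) B v) (Nat.cast_nonneg _)

open scoped Classical in
/-- the full sum -/
theorem full_sum (d : ℕ) (A B : Finset (Sym2 (Fin n))) (hA : ND A) :
    ∑ p ∈ FF A B, (cnt d (insert s(p.1, p.2) A) B : ℝ) = EE d A * cnt d A B := by
  have h1 := Finset.sum_finset_product (FF A B) univ
    (fun x => univ.filter (fun y => y ≠ x ∧ s(x, y) ∉ A ∧ s(x, y) ∉ B))
    (by intro p; simp [FF]) (f := fun p => (cnt d (insert s(p.1, p.2) A) B : ℝ))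
  rw [h1]
  simp only
  rw [Finset.sum_congr rfl (fun x _ => sum_rule d A B x), ← Finset.sum_mul, sum_rd d A hA]

open scoped Classical in
/-- pairs with restricted first entry -/
theorem left_part (d : ℕ) (A B : Finset (Sym2 (Fin n))) (X : Finset (Fin n)) :
    ∑ p ∈ (FF A B).filter (fun p => p.1 ∈ X), (cnt d (insert s(p.1, p.2) A) B : ℝ)
      ≤ X.card * (d * cnt d A B) := by
  have h1 := sum_left_le ((FF A B).filter (fun p => p.1 ∈ X)) X
    (fun x => univ.filter (fun y => y ≠ x ∧ s(x, y) ∉ A ∧ s(x, y) ∉ B))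
    (fun x y => (cnt d (insert s(x, y) A) B : ℝ)) (fun _ _ => Nat.cast_nonneg _)
    (by
      rintro ⟨x, y⟩ hp
      simp only [FF, mem_filter, mem_univ, true_and] at hp ⊢
      exact ⟨hp.2, hp.1⟩)
  refine h1.trans ?_
  refine (Finset.sum_le_sum (fun x _ => sum_rule_le d A B x)).trans ?_
  rw [Finset.sum_const, nsmul_eq_mul]

open scoped Classical in
/-- pairs with restricted second entry -/
theorem right_part (d : ℕ) (A B : Finset (Sym2 (Fin n))) (X : Finset (Fin n)) :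
    ∑ p ∈ (FF A B).filter (fun p => p.2 ∈ X), (cnt d (insert s(p.1, p.2) A) B : ℝ)
      ≤ X.card * (d * cnt d A B) := by
  have h1 := sum_right_le ((FF A B).filter (fun p => p.2 ∈ X)) X
    (fun y => univ.filter (fun x => x ≠ y ∧ s(y, x) ∉ A ∧ s(y, x) ∉ B))
    (fun x y => (cnt d (insert s(x, y) A) B : ℝ)) (fun _ _ => Nat.cast_nonneg _)
    (by
      rintro ⟨x, y⟩ hp
      simp only [FF, mem_filter, mem_univ, true_and] at hp ⊢
      refine ⟨hp.2, hp.1.1.symm, ?_, ?_⟩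
      · rw [Sym2.eq_swap]; exact hp.1.2.1
      · rw [Sym2.eq_swap]; exact hp.1.2.2)
  refine h1.trans ?_
  have h2 : ∀ y ∈ X, ∑ x ∈ univ.filter (fun x => x ≠ y ∧ s(y, x) ∉ A ∧ s(y, x) ∉ B), (cnt d (insert s(x, y) A) B : ℝ)
      ≤ d * cnt d A B := by
    intro y _
    refine le_trans (le_of_eq ?_) (sum_rule_le d A B y)
    refine Finset.sum_congr rfl fun x _ => ?_
    rw [Sym2.eq_swap (a := x)]
  refine (Finset.sum_le_sum h2).trans ?_
  rw [Finset.sum_const, nsmul_eq_mul]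

theorem dg_union_le (A B : Finset (Sym2 (Fin n))) (v : Fin n) : dg (A ∪ B) v ≤ dg A v + dg B v := by
  classical
  unfold dg
  refine le_trans (Finset.card_le_card (t := nbr A v ∪ nbr B v) ?_) (Finset.card_union_le _ _)
  intro w hw
  simp only [nbr, mem_filter, mem_univ, true_and, mem_union] at hw ⊢
  exact hw

/-- vertices excluded because of `u` -/
def exc (A B : Finset (Sym2 (Fin n))) (u v w : Fin n) : Finset (Fin n) := {u, v} ∪ nbr (A ∪ B) w

theorem exc_card (A B : Finset (Sym2 (Fin n))) (u v w : Fin n) : (exc A B u v w).card ≤ 2 + (dg A w + dg B w) := by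
  unfold exc
  refine (Finset.card_union_le _ _).trans ?_
  have h1 : ({u, v} : Finset (Fin n)).card ≤ 2 := Finset.card_le_two
  have h2 : (nbr (A ∪ B) w).card ≤ dg A w + dg B w := dg_union_le A B w
  omega

open scoped Classical in
/-- step (3) -/
theorem step4 (d : ℕ) (A B : Finset (Sym2 (Fin n))) (u v : Fin n) (huv : u ≠ v) (hA : ND A)
    (hA2 : s(u, v) ∉ A) :
    (EE d A - 2) * cnt d (insert s(u, v) A) B ≤
      ∑ p ∈ PP A B u v, (cnt d (insert s(p.1, p.2) (insert s(u, v) A)) B : ℝ)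
        + (4 + (dg A u + dg B u) + (dg A v + dg B v) : ℕ) * (d * cnt d (insert s(u, v) A) B) := by
  have hA' : ND (insert s(u, v) A) := by
    intro e he
    rw [mem_insert] at he
    rcases he with rfl | he
    · simpa using huv
    · exact hA e he
  have h0 := full_sum d (insert s(u, v) A) B hA'
  rw [EE_insert d A u v hA2] at h0
  rw [← h0]
  set f : Fin n × Fin n → ℝ := fun p => (cnt d (insert s(p.1, p.2) (insert s(u, v) A)) B : ℝ) with hf
  have hf0 : ∀ p, 0 ≤ f p := fun p => Nat.cast_nonneg _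
  have hsub : FF (insert s(u, v) A) B ⊆ (PP A B u v ∪ (FF (insert s(u, v) A) B).filter (fun p => p.1 ∈ exc A B u v u))
      ∪ (FF (insert s(u, v) A) B).filter (fun p => p.2 ∈ exc A B u v v) := by
    rintro ⟨x, y⟩ hp
    by_cases hx : x ∈ exc A B u v u
    · refine mem_union_left _ (mem_union_right _ ?_)
      exact mem_filter.mpr ⟨hp, hx⟩
    by_cases hy : y ∈ exc A B u v v
    · refine mem_union_right _ ?_
      exact mem_filter.mpr ⟨hp, hy⟩
    refine mem_union_left _ (mem_union_left _ ?_)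
    simp only [FF, mem_filter, mem_univ, true_and, mem_insert, not_or] at hp
    simp only [exc, mem_union, mem_insert, mem_singleton, nbr, mem_filter, mem_univ, true_and, not_or] at hx hy
    simp only [PP, mem_filter, mem_univ, true_and]
    exact ⟨⟨hx.1.1, hx.1.2, hy.1.1, hy.1.2, Ne.symm hp.1⟩, ⟨hp.2.1.2, hp.2.2⟩, hx.2, hy.2⟩
  have h1 : ∑ p ∈ FF (insert s(u, v) A) B, f p ≤ ∑ p ∈ PP A B u v, f p
      + ∑ p ∈ (FF (insert s(u, v) A) B).filter (fun p => p.1 ∈ exc A B u v u), f p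
      + ∑ p ∈ (FF (insert s(u, v) A) B).filter (fun p => p.2 ∈ exc A B u v v), f p := by
    refine (Finset.sum_le_sum_of_subset_of_nonneg hsub (fun _ _ _ => hf0 _)).trans ?_
    have e1 := Finset.sum_union_inter (s₁ := PP A B u v ∪ (FF (insert s(u, v) A) B).filter (fun p => p.1 ∈ exc A B u v u))
      (s₂ := (FF (insert s(u, v) A) B).filter (fun p => p.2 ∈ exc A B u v v)) (f := f)
    have e2 := Finset.sum_union_inter (s₁ := PP A B u v)
      (s₂ := (FF (insert s(u, v) A) B).filter (fun p => p.1 ∈ exc A B u v u)) (f := f)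
    have e3 := Finset.sum_nonneg (s := (PP A B u v ∪ (FF (insert s(u, v) A) B).filter (fun p => p.1 ∈ exc A B u v u)) ∩
      (FF (insert s(u, v) A) B).filter (fun p => p.2 ∈ exc A B u v v)) (f := f) (fun _ _ => hf0 _)
    have e4 := Finset.sum_nonneg (s := PP A B u v ∩
      (FF (insert s(u, v) A) B).filter (fun p => p.1 ∈ exc A B u v u)) (f := f) (fun _ _ => hf0 _)
    linarith
  have h2 := left_part d (insert s(u, v) A) B (exc A B u v u)
  have h3 := right_part d (insert s(u, v) A) B (exc A B u v v)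
  have h4 : (0 : ℝ) ≤ d * cnt d (insert s(u, v) A) B := by positivity
  have h5 : ((exc A B u v u).card : ℝ) + ((exc A B u v v).card : ℝ)
      ≤ ((4 + (dg A u + dg B u) + (dg A v + dg B v) : ℕ) : ℝ) := by
    have := exc_card A B u v u
    have := exc_card A B u v v
    exact_mod_cast (by omega : (exc A B u v u).card + (exc A B u v v).card ≤ 4 + (dg A u + dg B u) + (dg A v + dg B v))
  have h6 := mul_le_mul_of_nonneg_right h5 h4
  rw [add_mul] at h6
  linarith

open scoped Classical in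
theorem key (d : ℕ) (A B : Finset (Sym2 (Fin n))) (u v : Fin n) (hA : ND A) (hV : Val d A B u v) :
    cnt d (insert s(u, v) A) B * (EE d A - 2 - (4 + (dg A u + dg B u) + (dg A v + dg B v) : ℕ) * d - 2 * d ^ 2)
      ≤ rd d A u * rd d A v * cnt d A B := by
  have huv := hV.ne
  have h1 := step1 d A B u v huv (val_rd_nonneg hV).2
  have h2 := step2 d A B u v huv
  have h3 := step3 d A B u v huv
  have h4 := step4 d A B u v huv hA hV.nA
  have h5 : ∑ p ∈ PP A B u v, (cnt d (insert s(p.1, p.2) (insert s(u, v) A)) B : ℝ)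
      ≤ ∑ p ∈ PP A B u v, ((cnt d (insert s(v, p.2) (insert s(u, p.1) A)) B : ℝ)
        + (cnt d (insert s(u, p.1) (insert s(p.1, p.2) (insert s(u, v) A))) B : ℝ)
        + (cnt d (insert s(v, p.2) (insert s(p.1, p.2) (insert s(u, v) A))) B : ℝ)) := by
    refine Finset.sum_le_sum ?_
    rintro ⟨x, y⟩ hp
    simp only [PP, mem_filter, mem_univ, true_and] at hp
    obtain ⟨⟨h1, h2, h3, h4, h5⟩, ⟨h6, h7⟩, ⟨h8, h9⟩, h10, h11⟩ := hp
    have := four_point d A B u v x y huv (Ne.symm h1) (Ne.symm h3) (Ne.symm h2) (Ne.symm h4) h5 hV.nA h6 h8 h10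
      hV.nB h7 h9 h11
    simp only
    exact_mod_cast (by omega : cnt d (insert s(x, y) (insert s(u, v) A)) B ≤ cnt d (insert s(v, y) (insert s(u, x) A)) B
      + cnt d (insert s(u, x) (insert s(x, y) (insert s(u, v) A))) B
      + cnt d (insert s(v, y) (insert s(x, y) (insert s(u, v) A))) B)
  rw [Finset.sum_add_distrib, Finset.sum_add_distrib] at h5
  nlinarith [h1, h2, h3, h4, h5]

/-- TARGET -/
theorem ap_upper (m : ℕ) : ∃ C : ℝ, 1 ≤ C ∧ ∀ (n d t : ℕ) (A B : Finset (Sym2 (Fin n))) (u v : Fin n),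
    m + 1 ≤ d → C * ((d : ℝ) + (1 + t) ^ 6) ≤ n → Cls d m t A → BCls m B → Disjoint A B → Val d A B u v →
    (cnt d (insert s(u, v) A) B : ℝ) ≤ rd d A u * rd d A v / EE d A * cnt d A B * (1 + C * (d + t + 1) / n) := by
  obtain ⟨C0, hC0, hE⟩ := EE_lower m
  set κ : ℝ := (4 * m + 6) * (m + 2) with hκ
  have hκpos : 0 < κ := by positivity
  refine ⟨max C0 (2 * κ), le_max_of_le_left hC0, ?_⟩
  intro n d t A B u v hmd hn hA hB _ hV
  have hd1 : (1 : ℝ) ≤ d := by
    have : 1 ≤ d := by omega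
    exact_mod_cast this
  have ht0 : (0 : ℝ) ≤ t := Nat.cast_nonneg _
  have ht : (1 : ℝ) + t ≤ (1 + t) ^ 6 := by
    have : (1 : ℝ) ≤ 1 + t := by linarith
    exact le_self_pow₀ this (by norm_num)
  have hS : (0 : ℝ) < (d : ℝ) + (1 + t) ^ 6 := by positivity
  have hn0 : C0 * ((d : ℝ) + (1 + t) ^ 6) ≤ n :=
    le_trans (mul_le_mul_of_nonneg_right (le_max_left _ _) hS.le) hn
  have hn1 : 2 * κ * ((d : ℝ) + t + 1) ≤ n := by
    refine le_trans ?_ (le_trans (mul_le_mul_of_nonneg_right (le_max_right C0 (2 * κ)) hS.le) hn)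
    refine mul_le_mul_of_nonneg_left ?_ (by positivity)
    linarith
  have hnpos : (0 : ℝ) < n := by
    have : (0 : ℝ) < 2 * κ * ((d : ℝ) + t + 1) := by positivity
    linarith
  have hEl := hE n d t A hmd hn0 hA
  have hEpos : 0 < EE d A := lt_of_lt_of_le (by positivity) hEl
  have hk := key d A B u v hA.nd hV
  set c : ℝ := (cnt d A B : ℝ)
  set c' : ℝ := (cnt d (insert s(u, v) A) B : ℝ)
  set K : ℝ := 2 + (4 + (dg A u + dg B u) + (dg A v + dg B v) : ℕ) * (d : ℝ) + 2 * (d : ℝ) ^ 2 with hK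
  have hc' : 0 ≤ c' := Nat.cast_nonneg _
  have hc : 0 ≤ c := Nat.cast_nonneg _
  have hR : 0 ≤ rd d A u * rd d A v := mul_nonneg (val_rd_nonneg hV).1 (val_rd_nonneg hV).2
  have hK1 : K ≤ d * ((4 * m + 6) * ((d : ℝ) + t + 1)) := by
    have h1 : ((4 + (dg A u + dg B u) + (dg A v + dg B v) : ℕ) : ℝ) ≤ 4 + 4 * m + 2 * t := by
      have h1 := hA.lem u
      have h2 := hA.lem v
      have h3 := hB.lem u
      have h4 := hB.lem v
      exact_mod_cast (by omega : 4 + (dg A u + dg B u) + (dg A v + dg B v) ≤ 4 + 4 * m + 2 * t)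
    have h2 := mul_le_mul_of_nonneg_right h1 (by linarith : (0 : ℝ) ≤ d)
    have hm : (0 : ℝ) ≤ m := Nat.cast_nonneg _
    have h3 : K ≤ d * (4 * m + 6 + 2 * t + 2 * d) := by
      rw [hK]; nlinarith
    refine h3.trans (mul_le_mul_of_nonneg_left ?_ (by linarith))
    nlinarith [mul_nonneg hm (by linarith : (0 : ℝ) ≤ (d : ℝ) + t)]
  have hK0 : 0 ≤ K := by rw [hK]; positivity
  -- x = K / E
  have hx1 : K / EE d A ≤ κ * ((d : ℝ) + t + 1) / n := by
    rw [div_le_div_iff₀ hEpos hnpos]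
    have hm2 : (0 : ℝ) < (m : ℝ) + 2 := by positivity
    have h1 : (n : ℝ) * d ≤ EE d A * (m + 2) := by
      rw [div_le_iff₀ hm2] at hEl
      exact hEl
    calc K * n ≤ d * ((4 * m + 6) * ((d : ℝ) + t + 1)) * n := mul_le_mul_of_nonneg_right hK1 hnpos.le
      _ = (4 * m + 6) * ((d : ℝ) + t + 1) * (n * d) := by ring
      _ ≤ (4 * m + 6) * ((d : ℝ) + t + 1) * (EE d A * (m + 2)) := mul_le_mul_of_nonneg_left h1 (by positivity)
      _ = κ * ((d : ℝ) + t + 1) * EE d A := by rw [hκ]; ring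
  have hx2 : κ * ((d : ℝ) + t + 1) / n ≤ 1 / 2 := by
    rw [div_le_iff₀ hnpos]
    linarith
  have hx0 : 0 ≤ K / EE d A := div_nonneg hK0 hEpos.le
  set x : ℝ := K / EE d A with hx
  have hKx : K = x * EE d A := by rw [hx]; field_simp
  have h1 : c' * (1 - x) ≤ rd d A u * rd d A v / EE d A * c := by
    have h2 : c' * (EE d A * (1 - x)) ≤ rd d A u * rd d A v * c := by
      have h3 : EE d A * (1 - x) = EE d A - 2 - (4 + (dg A u + dg B u) + (dg A v + dg B v) : ℕ) * (d : ℝ) - 2 * (d : ℝ) ^ 2 := by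
        have : EE d A * (1 - x) = EE d A - K := by rw [hKx]; ring
        rw [this, hK]; ring
      rw [h3]; exact hk
    rw [div_mul_eq_mul_div, le_div_iff₀ hEpos]
    calc c' * (1 - x) * EE d A = c' * (EE d A * (1 - x)) := by ring
      _ ≤ _ := h2
  have hQ : 0 ≤ rd d A u * rd d A v / EE d A * c := mul_nonneg (div_nonneg hR hEpos.le) hc
  set Q : ℝ := rd d A u * rd d A v / EE d A * c
  have h3 : c' ≤ Q * (1 + 2 * x) := by
    have h4 : c' ≤ c' * ((1 - x) * (1 + 2 * x)) := by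
      have : 1 ≤ (1 - x) * (1 + 2 * x) := by nlinarith
      nlinarith
    have h5 : c' * (1 - x) * (1 + 2 * x) ≤ Q * (1 + 2 * x) := mul_le_mul_of_nonneg_right h1 (by linarith)
    linarith [h4, h5, mul_assoc c' (1 - x) (1 + 2 * x)]
  refine h3.trans (mul_le_mul_of_nonneg_left ?_ hQ)
  have h6 : 2 * κ * ((d : ℝ) + t + 1) / n ≤ max C0 (2 * κ) * ((d : ℝ) + t + 1) / n := by
    gcongr
    exact le_max_right _ _
  have h7 : 2 * κ * ((d : ℝ) + t + 1) / n = 2 * (κ * ((d : ℝ) + t + 1) / n) := by ring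
  linarith

end MD1

export MD1 (ap_upper)

end Pool.Agent.H698NC
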