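import Pool.Agent.H698NC.D1

set_option autoImplicit false

namespace Pool.Agent.H698NC

open Finset

namespace MD2

variable {n : ℕ}

theorem cnt_mono (d : ℕ) (A B : Finset (Sym2 (Fin n))) (e : Sym2 (Fin n)) :
    cnt d (insert e A) B ≤ cnt d A B := by
  have := cnt_forbid d A B e
  omega

theorem cnt_eq_zero_or (d : ℕ) (A B : Finset (Sym2 (Fin n))) :
    cnt d A B = 0 ∨ ∀ v, dg A v ≤ d := by
  by_cases h : ∀ v, dg A v ≤ d
  · exact Or.inr h
  · left
    push Not at h
    obtain ⟨v, hv⟩ := h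
    exact cnt_zero d A B v hv

theorem rd_le (d : ℕ) (A : Finset (Sym2 (Fin n))) (v : Fin n) : rd d A v ≤ d := by
  unfold rd
  have : (0 : ℝ) ≤ dg A v := Nat.cast_nonneg _
  linarith

theorem rd_nonneg (d : ℕ) (A : Finset (Sym2 (Fin n))) (v : Fin n) (h : dg A v ≤ d) : 0 ≤ rd d A v := by
  unfold rd
  have : (dg A v : ℝ) ≤ d := by exact_mod_cast h
  linarith

/-- upper bound without case distinctions -/
theorem up1 (m : ℕ) : ∃ C : ℝ, 1 ≤ C ∧ ∀ (n d t : ℕ) (A B : Finset (Sym2 (Fin n))) (u v : Fin n),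
    m + 1 ≤ d → C * ((d : ℝ) + (1 + t) ^ 6) ≤ n → ND A → (∀ v, dg A v ≤ m + t) →
    2 * A.card ≤ m * n + 2 * t → BCls m B → Disjoint A B → u ≠ v → s(u, v) ∉ A → s(u, v) ∉ B →
    (cnt d (insert s(u, v) A) B : ℝ) * (n * d) ≤ 2 * (m + 2) * (rd d A u * rd d A v * cnt d A B) := by
  obtain ⟨C0, hC0, h0⟩ := ap_upper m
  obtain ⟨C1, hC1, h1⟩ := EE_lower m
  refine ⟨C0 + C1, by linarith, ?_⟩
  intro n d t A B u v hmd hn hND hlem hcard hB hdis huv hA hBu
  have hX : (0 : ℝ) ≤ (d : ℝ) + (1 + t) ^ 6 := by positivity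
  have hn0 : C0 * ((d : ℝ) + (1 + t) ^ 6) ≤ n := by nlinarith
  have hn1 : C1 * ((d : ℝ) + (1 + t) ^ 6) ≤ n := by nlinarith
  have hd1 : (1 : ℝ) ≤ d := by
    have : 1 ≤ d := by omega
    exact_mod_cast this
  have ht1 : (1 : ℝ) ≤ (1 + t) ^ 6 := by
    have : (0 : ℝ) ≤ t := Nat.cast_nonneg _
    exact one_le_pow₀ (by linarith)
  have hnpos : (0 : ℝ) < n := by nlinarith
  rcases cnt_eq_zero_or d A B with h | h
  · have h2 : cnt d (insert s(u, v) A) B = 0 := by
      have := cnt_mono d A B s(u, v)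
      omega
    rw [h, h2]; simp
  have hru := rd_nonneg d A u (h u)
  have hrv := rd_nonneg d A v (h v)
  have hc : (0 : ℝ) ≤ cnt d A B := Nat.cast_nonneg _
  have hRHS : 0 ≤ 2 * ((m : ℝ) + 2) * (rd d A u * rd d A v * cnt d A B) := by positivity
  by_cases hu : dg A u < d
  · by_cases hv : dg A v < d
    · have hcls : Cls d m t A := ⟨hND, h, hlem, hcard⟩
      have hval : Val d A B u v := ⟨huv, hA, hBu, hu, hv⟩
      have key := h0 n d t A B u v hmd hn0 hcls hB hdis hval
      have hE := h1 n d t A hmd hn1 hcls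
      have hndpos : 0 < (n : ℝ) * d := by positivity
      have hm2 : (0 : ℝ) < (m : ℝ) + 2 := by positivity
      have hEpos : 0 < EE d A := lt_of_lt_of_le (by positivity) hE
      have hfac : 1 + C0 * (d + t + 1) / n ≤ 2 := by
        have : C0 * (d + t + 1) / n ≤ 1 := by
          rw [div_le_one hnpos]
          have ht2 : (1 : ℝ) + t ≤ (1 + t) ^ 6 := by
            have : (0 : ℝ) ≤ t := Nat.cast_nonneg _
            exact le_self_pow₀ (by linarith) (by norm_num)
          nlinarith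
        linarith
      have hprod : 0 ≤ rd d A u * rd d A v / EE d A * cnt d A B := by positivity
      have h3 : (cnt d (insert s(u, v) A) B : ℝ) ≤ rd d A u * rd d A v / EE d A * cnt d A B * 2 :=
        le_trans key (by nlinarith)
      have h4 : (n : ℝ) * d ≤ (m + 2) * EE d A := by
        rw [div_le_iff₀ hm2] at hE
        linarith
      have hc' : (0 : ℝ) ≤ cnt d (insert s(u, v) A) B := Nat.cast_nonneg _
      calc (cnt d (insert s(u, v) A) B : ℝ) * (n * d)
          ≤ (cnt d (insert s(u, v) A) B : ℝ) * ((m + 2) * EE d A) := by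
            exact mul_le_mul_of_nonneg_left h4 hc'
        _ ≤ (rd d A u * rd d A v / EE d A * cnt d A B * 2) * ((m + 2) * EE d A) := by
            exact mul_le_mul_of_nonneg_right h3 (by positivity)
        _ = 2 * (m + 2) * (rd d A u * rd d A v * cnt d A B) := by
            field_simp
    · have h2 : cnt d (insert s(u, v) A) B = 0 := by
        apply cnt_zero d _ B v
        rw [dg_insert A u v v huv hA]
        simp; omega
      rw [h2]; simpa using hRHS
  · have h2 : cnt d (insert s(u, v) A) B = 0 := by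
      apply cnt_zero d _ B u
      rw [dg_insert A u v u huv hA]
      simp; omega
    rw [h2]; simpa using hRHS

theorem ND_insert {A : Finset (Sym2 (Fin n))} (h : ND A) {x y : Fin n} (hxy : x ≠ y) :
    ND (insert s(x, y) A) := by
  intro e he
  rw [Finset.mem_insert] at he
  rcases he with rfl | he
  · simpa using hxy
  · exact h e he

theorem dg_insert_le (A : Finset (Sym2 (Fin n))) {x y : Fin n} (v : Fin n) (hxy : x ≠ y) (h : s(x, y) ∉ A) :
    dg (insert s(x, y) A) v ≤ dg A v + 1 := by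
  rw [dg_insert A x y v hxy h]
  split_ifs <;> omega

theorem disj_insert {A B : Finset (Sym2 (Fin n))} (h : Disjoint A B) {e : Sym2 (Fin n)} (he : e ∉ B) :
    Disjoint (insert e A) B := by
  rw [Finset.disjoint_insert_left]
  exact ⟨he, h⟩

theorem arith {n d m t E c c' S R C C0 C1 ru rv T1 T2 T3 : ℝ}
    (hSle : S ≤ T1 + T2 + T3) (hS1 : T1 ≤ (E - 2) * c') (hS2 : T2 ≤ d * (d * c'))
    (hS3 : T3 * n ≤ 2 * (m + 2) * d * S)
    (hlow : rv * (ru * c - c') * n ≤ S * n + d * c' * n +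
      (1 + 2 * m + t) * (2 * (m + 2) * rv * (ru * c - c')))
    (hnpos : 0 < n) (hc'0 : 0 ≤ c') (hc0 : 0 ≤ c) (hm0 : 0 ≤ m) (ht0 : 0 ≤ t) (hd1 : 1 ≤ d)
    (hrv : 0 ≤ rv) (hru : 0 ≤ ru) (hrvd : rv ≤ d) (hR : R = ru * rv * c)
    (hc'up : c' * (n * d) ≤ 2 * (m + 2) * R)
    (hCdef : C = 729 * C0 + C1 + 8 * (m + 2) + 2 * (m + 2) * (2 * m + 1))
    (hn : C * (d + (1 + t) ^ 6) ≤ n) (hX : 1 ≤ (1 + t) ^ 6) (hC0 : 0 ≤ C0) (hC1 : 0 ≤ C1) :
    R * (n - C * (d + t + 1)) ≤ E * c' * n := by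
  have hR0 : 0 ≤ R := by rw [hR]; positivity
  have hdX : 0 ≤ d + (1 + t) ^ 6 := by linarith
  have hC' : 8 * (m + 2) + 2 * (m + 2) * (2 * m + 1) ≤ C := by linarith
  have hCpos : 0 ≤ C := le_trans (by positivity) hC'
  -- `α = 2 (m + 2) d / n`, all multiplied by `n`
  have hmul1 : S * n ≤ (E - 2) * c' * n + d * (d * c') * n + 2 * (m + 2) * d * S := by
    have h5 := mul_le_mul_of_nonneg_right hSle hnpos.le
    have h6 := mul_le_mul_of_nonneg_right hS1 hnpos.le
    have h7 := mul_le_mul_of_nonneg_right hS2 hnpos.le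
    linarith
  -- lower bound for `S`
  have hlow2 : R * n ≤ S * n + 2 * d * c' * n + (1 + 2 * m + t) * (2 * (m + 2)) * R := by
    have h5 : rv * c' ≤ d * c' := mul_le_mul_of_nonneg_right hrvd hc'0
    have h6 := mul_le_mul_of_nonneg_right h5 hnpos.le
    have h7 : 0 ≤ (1 + 2 * m + t) * (2 * (m + 2)) * (rv * c') := by positivity
    have h8 : rv * (ru * c - c') * n = R * n - rv * c' * n := by rw [hR]; ring
    have h9 : (1 + 2 * m + t) * (2 * (m + 2) * rv * (ru * c - c')) =
        (1 + 2 * m + t) * (2 * (m + 2)) * R - (1 + 2 * m + t) * (2 * (m + 2)) * (rv * c') := by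
      rw [hR]; ring
    rw [h8, h9] at hlow
    linarith
  -- size of `α`
  have hα : 2 * (m + 2) * d ≤ n := by
    have h5 : 2 * (m + 2) ≤ C := by
      rw [hCdef]
      nlinarith [mul_nonneg hm0 hm0]
    have h6 : d ≤ d + (1 + t) ^ 6 := by linarith
    calc 2 * (m + 2) * d ≤ C * d := mul_le_mul_of_nonneg_right h5 (by linarith)
      _ ≤ C * (d + (1 + t) ^ 6) := mul_le_mul_of_nonneg_left h6 hCpos
      _ ≤ n := hn
  -- combine
  have hcomb : R * n * (n - 2 * (m + 2) * d) ≤
      ((E - 2) * c' * n + d * (d * c') * n) * n + (2 * d * c' * n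
        + (1 + 2 * m + t) * (2 * (m + 2)) * R) * (n - 2 * (m + 2) * d) := by
    have h5 : S * (n - 2 * (m + 2) * d) ≤ (E - 2) * c' * n + d * (d * c') * n := by linarith
    have h6 := mul_le_mul_of_nonneg_right h5 hnpos.le
    have h7 := mul_le_mul_of_nonneg_right hlow2 (sub_nonneg.2 hα)
    linarith
  have hcomb2 : R * n * (n - 2 * (m + 2) * d) ≤
      E * c' * n * n + (d * d + 2 * d) * c' * n * n + (1 + 2 * m + t) * (2 * (m + 2)) * R * n := by
    have h5 : (2 * d * c' * n + (1 + 2 * m + t) * (2 * (m + 2)) * R) * (n - 2 * (m + 2) * d) ≤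
        (2 * d * c' * n + (1 + 2 * m + t) * (2 * (m + 2)) * R) * n := by
      apply mul_le_mul_of_nonneg_left
      · have : 0 ≤ 2 * (m + 2) * d := by positivity
        linarith
      · positivity
    have h6 : 0 ≤ c' * n * n := by positivity
    linarith
  -- divide by `n`
  have hcomb3 : R * (n - 2 * (m + 2) * d) ≤
      E * c' * n + (d * d + 2 * d) * c' * n + (1 + 2 * m + t) * (2 * (m + 2)) * R := by
    have h5 : R * (n - 2 * (m + 2) * d) * n ≤
      (E * c' * n + (d * d + 2 * d) * c' * n + (1 + 2 * m + t) * (2 * (m + 2)) * R) * n := by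
      linarith
    exact le_of_mul_le_mul_right h5 hnpos
  have hsq : (d * d + 2 * d) * c' * n ≤ 6 * (m + 2) * d * R := by
    have h5 : (d * d + 2 * d ) ≤ 3 * d * d := by nlinarith
    have h6 : (d * d + 2 * d) * c' * n ≤ 3 * d * d * c' * n :=
      mul_le_mul_of_nonneg_right (mul_le_mul_of_nonneg_right h5 hc'0) hnpos.le
    have h7 : 3 * d * (c' * (n * d)) ≤ 3 * d * (2 * (m + 2) * R) :=
      mul_le_mul_of_nonneg_left hc'up (by linarith)
    linarith
  have hfin : R * (n - C * (d + t + 1)) ≤ E * c' * n := by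
    have h5 : 8 * (m + 2) * d + (1 + 2 * m + t) * (2 * (m + 2)) ≤ C * (d + t + 1) := by
      have h6 : 8 * (m + 2) * d + (1 + 2 * m + t) * (2 * (m + 2)) ≤
          (8 * (m + 2) + 2 * (m + 2) * (2 * m + 1)) * (d + t + 1) := by
        have : 0 ≤ 2 * (m + 2) * (2 * m + 1) * d := by positivity
        have : 0 ≤ 2 * (m + 2) * (2 * m) * t := by positivity
        have : 0 ≤ 8 * (m + 2) * (t + 1) := by positivity
        linarith
      have h7 : (8 * (m + 2) + 2 * (m + 2) * (2 * m + 1)) ≤ C := by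
        rw [hCdef]; linarith
      exact le_trans h6 (mul_le_mul_of_nonneg_right h7 (by positivity))
    have h8 := mul_le_mul_of_nonneg_left h5 hR0
    linarith
  exact hfin

open scoped Classical in
/-- the number of `y` with `y = x` or `xy ∈ A ∪ B` -/
theorem bad_card (A B : Finset (Sym2 (Fin n))) (x : Fin n) :
    (univ.filter (fun y => y = x ∨ s(x, y) ∈ A ∨ s(x, y) ∈ B)).card ≤ 1 + dg A x + dg B x := by
  have h : univ.filter (fun y => y = x ∨ s(x, y) ∈ A ∨ s(x, y) ∈ B)
      ⊆ ({x} ∪ nbr A x) ∪ nbr B x := by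
    intro y hy
    simp only [mem_filter, mem_univ, true_and] at hy
    simp only [mem_union, mem_singleton, nbr, mem_filter, mem_univ, true_and]
    tauto
  refine le_trans (card_le_card h) ?_
  refine le_trans (card_union_le _ _) ?_
  have := card_union_le {x} (nbr A x)
  simp only [card_singleton] at this
  unfold dg
  omega

open scoped Classical in
/-- TARGET -/
theorem ap_lower (m : ℕ) : ∃ C : ℝ, 1 ≤ C ∧ ∀ (n d t : ℕ) (A B : Finset (Sym2 (Fin n))) (u v : Fin n),
    m + 1 ≤ d → C * ((d : ℝ) + (1 + t) ^ 6) ≤ n → Cls d m t A → BCls m B → Disjoint A B → Val d A B u v →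
    rd d A u * rd d A v / EE d A * cnt d A B * (1 - C * (d + t + 1) / n) ≤ (cnt d (insert s(u, v) A) B : ℝ) := by
  obtain ⟨C0, hC0, h0⟩ := up1 m
  obtain ⟨C1, hC1, h1⟩ := EE_lower m
  have hm0 : (0 : ℝ) ≤ m := Nat.cast_nonneg _
  refine ⟨729 * C0 + C1 + 8 * (m + 2) + 2 * (m + 2) * (2 * m + 1), by
    have : 0 ≤ 8 * ((m : ℝ) + 2) + 2 * (m + 2) * (2 * m + 1) := by positivity
    linarith, ?_⟩
  intro n d t A B u v hmd hn hcls hB hdis hval
  set C : ℝ := 729 * C0 + C1 + 8 * (m + 2) + 2 * (m + 2) * (2 * m + 1) with hCdef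
  have ht0 : (0 : ℝ) ≤ t := Nat.cast_nonneg _
  have hd1 : (1 : ℝ) ≤ d := by
    have : 1 ≤ d := by omega
    exact_mod_cast this
  have hX : (1 : ℝ) ≤ (1 + (t : ℝ)) ^ 6 := one_le_pow₀ (by linarith)
  have hmm : 0 ≤ 8 * ((m : ℝ) + 2) + 2 * (m + 2) * (2 * m + 1) := by positivity
  have hC0C : 729 * C0 ≤ C := by rw [hCdef]; linarith
  have hC1C : C1 ≤ C := by rw [hCdef]; linarith
  have hdX : (0 : ℝ) ≤ (d : ℝ) + (1 + (t : ℝ)) ^ 6 := by linarith
  -- the conditions for `t`, `t + 1`, `t + 2`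
  have hpow2 : (1 + ((t + 2 : ℕ) : ℝ)) ^ 6 ≤ 729 * (1 + (t : ℝ)) ^ 6 := by
    have : (1 + ((t + 2 : ℕ) : ℝ)) ≤ 3 * (1 + t) := by push_cast; linarith
    calc (1 + ((t + 2 : ℕ) : ℝ)) ^ 6 ≤ (3 * (1 + (t : ℝ))) ^ 6 :=
          pow_le_pow_left₀ (by positivity) this 6
      _ = 729 * (1 + (t : ℝ)) ^ 6 := by ring
  have hn2 : C0 * ((d : ℝ) + (1 + ((t + 2 : ℕ) : ℝ)) ^ 6) ≤ n := by
    have : C0 * ((d : ℝ) + (1 + ((t + 2 : ℕ) : ℝ)) ^ 6) ≤ 729 * C0 * ((d : ℝ) + (1 + (t : ℝ)) ^ 6) := by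
      nlinarith
    nlinarith
  have hn1 : C0 * ((d : ℝ) + (1 + ((t + 1 : ℕ) : ℝ)) ^ 6) ≤ n := by
    have h3 : (1 + ((t + 1 : ℕ) : ℝ)) ^ 6 ≤ (1 + ((t + 2 : ℕ) : ℝ)) ^ 6 := by
      refine pow_le_pow_left₀ (by positivity) ?_ 6
      push_cast; linarith
    nlinarith
  have hn0 : C1 * ((d : ℝ) + (1 + (t : ℝ)) ^ 6) ≤ n :=
    le_trans (mul_le_mul_of_nonneg_right hC1C hdX) hn
  have hnpos : (0 : ℝ) < n := by nlinarith
  have hE := h1 n d t A hmd hn0 hcls
  obtain ⟨huv, hA, hBu, hu, hv⟩ := hval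
  have hvu : v ≠ u := fun h => huv h.symm
  have hNDA := hcls.nd
  have hru : 0 ≤ rd d A u := rd_nonneg d A u hu.le
  have hrv : 0 ≤ rd d A v := rd_nonneg d A v hv.le
  have hm2 : (0 : ℝ) < (m : ℝ) + 2 := by positivity
  have hndpos : 0 < (n : ℝ) * d := by positivity
  have hEpos : 0 < EE d A := lt_of_lt_of_le (by positivity) hE
  have h4 : (n : ℝ) * d ≤ (m + 2) * EE d A := by
    rw [div_le_iff₀ hm2] at hE
    linarith
  set c : ℝ := ((cnt d A B : ℕ) : ℝ) with hc
  set c' : ℝ := ((cnt d (insert s(u, v) A) B : ℕ) : ℝ) with hc'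
  have hc0 : 0 ≤ c := Nat.cast_nonneg _
  have hc'0 : 0 ≤ c' := Nat.cast_nonneg _
  -- abbreviations
  set X : Finset (Fin n) := univ.filter (fun x => (x ≠ u ∧ s(u, x) ∉ A ∧ s(u, x) ∉ B) ∧ x ≠ v) with hXdef
  set Y : Fin n → Finset (Fin n) := fun x =>
    univ.filter (fun y => y ≠ v ∧ s(v, y) ∉ insert s(u, x) A ∧ s(v, y) ∉ B) with hYdef
  set G : Fin n → Finset (Fin n) := fun x =>
    (Y x).filter (fun y => y ≠ u ∧ ¬ (y = x ∨ s(x, y) ∈ A ∨ s(x, y) ∈ B)) with hGdef
  set f : Fin n → Fin n → ℝ := fun x y => (cnt d (insert s(v, y) (insert s(u, x) A)) B : ℝ) with hfdef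
  have hf0 : ∀ x y, 0 ≤ f x y := fun x y => Nat.cast_nonneg _
  have hXmem : ∀ x ∈ X, x ≠ u ∧ s(u, x) ∉ A ∧ s(u, x) ∉ B ∧ x ≠ v := by
    intro x hx
    simp only [hXdef, mem_filter, mem_univ, true_and] at hx
    tauto
  have hYmem : ∀ x y, y ∈ Y x → y ≠ v ∧ s(v, y) ∉ insert s(u, x) A ∧ s(v, y) ∉ B := by
    intro x y hy
    simpa only [hYdef, mem_filter, mem_univ, true_and] using hy
  -- sum of cnt(A + ux)
  have hsumX : ∑ x ∈ X, (cnt d (insert s(u, x) A) B : ℝ) = rd d A u * c - c' := by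
    have h := sum_rule d A B u
    have hsplit : univ.filter (fun z => z ≠ u ∧ s(u, z) ∉ A ∧ s(u, z) ∉ B) = insert v X := by
      ext z
      simp only [hXdef, mem_filter, mem_univ, true_and, mem_insert]
      constructor
      · intro hz
        by_cases hzv : z = v
        · exact Or.inl hzv
        · exact Or.inr ⟨hz, hzv⟩
      · rintro (rfl | hz)
        · exact ⟨hvu, hA, hBu⟩
        · exact hz.1
    have hvX : v ∉ X := by simp [hXdef]
    rw [hsplit, sum_insert hvX] at h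
    linarith
  -- the full sum
  have hrdv : ∀ x ∈ X, rd d (insert s(u, x) A) v = rd d A v := by
    intro x hx
    obtain ⟨h1, h2, h3, h4⟩ := hXmem x hx
    rw [rd_insert d A u x v (Ne.symm h1) h2]
    have : ¬ (v = u ∨ v = x) := by
      rintro (h | h)
      · exact hvu h
      · exact h4 h.symm
    simp [this]
  have hfull : ∑ x ∈ X, ∑ y ∈ Y x, f x y = rd d A v * (rd d A u * c - c') := by
    rw [← hsumX, mul_sum]
    apply sum_congr rfl
    intro x hx
    rw [← hrdv x hx]
    exact sum_rule d (insert s(u, x) A) B v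
  -- classes of A1 = A + ux
  have hA1 : ∀ x ∈ X, ND (insert s(u, x) A) ∧ (∀ w, dg (insert s(u, x) A) w ≤ m + (t + 1)) ∧
      2 * (insert s(u, x) A).card ≤ m * n + 2 * (t + 1) ∧ Disjoint (insert s(u, x) A) B := by
    intro x hx
    obtain ⟨h1, h2, h3, h4⟩ := hXmem x hx
    refine ⟨ND_insert hNDA (Ne.symm h1), ?_, ?_, disj_insert hdis h3⟩
    · intro w
      have := dg_insert_le A w (Ne.symm h1) h2
      have := hcls.lem w
      omega
    · have := card_insert_le s(u, x) A
      have := hcls.card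
      omega
  -- single term bound
  have hsingle : ∀ x ∈ X, ∀ y ∈ Y x, f x y * n ≤ 2 * (m + 2) * rd d A v * (cnt d (insert s(u, x) A) B : ℝ) := by
    intro x hx y hy
    obtain ⟨h1, h2, h3, h4⟩ := hXmem x hx
    obtain ⟨g1, g2, g3⟩ := hYmem x y hy
    obtain ⟨a1, a2, a3, a4⟩ := hA1 x hx
    have key := h0 n d (t + 1) (insert s(u, x) A) B v y hmd hn1 a1 a2 a3 hB a4 (Ne.symm g1) g2 g3
    rw [hrdv x hx] at key
    have hcA1 : (0 : ℝ) ≤ cnt d (insert s(u, x) A) B := Nat.cast_nonneg _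
    have hle : rd d A v * rd d (insert s(u, x) A) y * (cnt d (insert s(u, x) A) B : ℝ) ≤
        rd d A v * d * (cnt d (insert s(u, x) A) B : ℝ) := by
      apply mul_le_mul_of_nonneg_right _ hcA1
      exact mul_le_mul_of_nonneg_left (rd_le d _ y) hrv
    have h5 : f x y * n * d ≤ 2 * (m + 2) * rd d A v * (cnt d (insert s(u, x) A) B : ℝ) * d := by
      calc f x y * n * d = f x y * (n * d) := by ring
        _ ≤ 2 * (m + 2) * (rd d A v * rd d (insert s(u, x) A) y * (cnt d (insert s(u, x) A) B : ℝ)) := key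
        _ ≤ 2 * (m + 2) * (rd d A v * d * (cnt d (insert s(u, x) A) B : ℝ)) :=
            mul_le_mul_of_nonneg_left hle (by positivity)
        _ = _ := by ring
    exact le_of_mul_le_mul_right h5 (by linarith)
  -- inner sum split
  have hinner : ∀ x ∈ X, (∑ y ∈ Y x, f x y) * n ≤ (∑ y ∈ G x, f x y) * n + f x u * n +
      (1 + 2 * m + t) * (2 * (m + 2) * rd d A v * (cnt d (insert s(u, x) A) B : ℝ)) := by
    intro x hx
    have hsplit : ∑ y ∈ Y x, f x y = ∑ y ∈ G x, f x y +
        ∑ y ∈ (Y x).filter (fun y => ¬ (y ≠ u ∧ ¬ (y = x ∨ s(x, y) ∈ A ∨ s(x, y) ∈ B))), f x y := by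
      rw [hGdef]
      exact (sum_filter_add_sum_filter_not _ _ _).symm
    have hsub : (Y x).filter (fun y => ¬ (y ≠ u ∧ ¬ (y = x ∨ s(x, y) ∈ A ∨ s(x, y) ∈ B)))
        ⊆ insert u ((Y x).filter (fun y => y = x ∨ s(x, y) ∈ A ∨ s(x, y) ∈ B)) := by
      intro y hy
      simp only [mem_filter, mem_insert] at hy ⊢
      tauto
    have h1 : ∑ y ∈ (Y x).filter (fun y => ¬ (y ≠ u ∧ ¬ (y = x ∨ s(x, y) ∈ A ∨ s(x, y) ∈ B))), f x y
        ≤ f x u + ∑ y ∈ (Y x).filter (fun y => y = x ∨ s(x, y) ∈ A ∨ s(x, y) ∈ B), f x y := by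
      refine le_trans (sum_le_sum_of_subset_of_nonneg hsub (fun y _ _ => hf0 x y)) ?_
      by_cases hmem : u ∈ (Y x).filter (fun y => y = x ∨ s(x, y) ∈ A ∨ s(x, y) ∈ B)
      · rw [insert_eq_of_mem hmem]
        have := hf0 x u
        linarith
      · rw [sum_insert hmem]
    have h2 : (∑ y ∈ (Y x).filter (fun y => y = x ∨ s(x, y) ∈ A ∨ s(x, y) ∈ B), f x y) * n
        ≤ (1 + 2 * m + t) * (2 * (m + 2) * rd d A v * (cnt d (insert s(u, x) A) B : ℝ)) := by
      rw [sum_mul]
      have h3 : ∑ y ∈ (Y x).filter (fun y => y = x ∨ s(x, y) ∈ A ∨ s(x, y) ∈ B), f x y * n ≤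
          ∑ y ∈ (Y x).filter (fun y => y = x ∨ s(x, y) ∈ A ∨ s(x, y) ∈ B),
            (2 * (m + 2) * rd d A v * (cnt d (insert s(u, x) A) B : ℝ)) := by
        apply sum_le_sum
        intro y hy
        exact hsingle x hx y (mem_filter.1 hy).1
      refine le_trans h3 ?_
      rw [sum_const, nsmul_eq_mul]
      apply mul_le_mul_of_nonneg_right _ (by positivity)
      have hcard : ((Y x).filter (fun y => y = x ∨ s(x, y) ∈ A ∨ s(x, y) ∈ B)).card ≤ 1 + 2 * m + t := by
        have hs : (Y x).filter (fun y => y = x ∨ s(x, y) ∈ A ∨ s(x, y) ∈ B) ⊆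
            univ.filter (fun y => y = x ∨ s(x, y) ∈ A ∨ s(x, y) ∈ B) :=
          filter_subset_filter _ (subset_univ _)
        have := card_le_card hs
        have := bad_card A B x
        have := hcls.lem x
        have := hB.lem x
        omega
      exact_mod_cast hcard
    rw [hsplit]
    have h5 := mul_le_mul_of_nonneg_right h1 hnpos.le
    rw [add_mul] at h5 ⊢
    linarith
  -- the terms with y = u
  have hE2 := EE_insert d A u v hA
  have hND2 : ND (insert s(u, v) A) := ND_insert hNDA huv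
  have hXn : ∀ x ∈ X, s(u, x) ∉ insert s(u, v) A := by
    intro x hx
    obtain ⟨h1, h2, h3, h4⟩ := hXmem x hx
    rw [mem_insert, not_or]
    refine ⟨?_, h2⟩
    intro h
    rw [Sym2.eq_iff] at h
    rcases h with h | h
    · exact h4 h.2
    · exact huv h.1
  have hsumU : ∑ x ∈ X, (cnt d (insert s(u, x) (insert s(u, v) A)) B : ℝ) ≤ d * c' := by
    have h := sum_rule d (insert s(u, v) A) B u
    have hsub : X ⊆ univ.filter (fun z => z ≠ u ∧ s(u, z) ∉ insert s(u, v) A ∧ s(u, z) ∉ B) := by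
      intro x hx
      obtain ⟨h1, h2, h3, h4⟩ := hXmem x hx
      simp only [mem_filter, mem_univ, true_and]
      exact ⟨h1, hXn x hx, h3⟩
    calc ∑ x ∈ X, (cnt d (insert s(u, x) (insert s(u, v) A)) B : ℝ)
        ≤ ∑ x ∈ univ.filter (fun z => z ≠ u ∧ s(u, z) ∉ insert s(u, v) A ∧ s(u, z) ∉ B),
          (cnt d (insert s(u, x) (insert s(u, v) A)) B : ℝ) :=
          sum_le_sum_of_subset_of_nonneg hsub (fun _ _ _ => Nat.cast_nonneg _)
      _ = rd d (insert s(u, v) A) u * c' := h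
      _ ≤ d * c' := mul_le_mul_of_nonneg_right (rd_le d _ u) hc'0
  have hfu : ∀ x, f x u = (cnt d (insert s(u, x) (insert s(u, v) A)) B : ℝ) := by
    intro x
    simp only [hfdef]
    rw [Sym2.eq_swap, Finset.insert_comm]
  -- lower bound for the good sum
  set S : ℝ := ∑ x ∈ X, ∑ y ∈ G x, f x y with hS
  have hS0 : 0 ≤ S := sum_nonneg (fun x _ => sum_nonneg (fun y _ => hf0 x y))
  have hlow : rd d A v * (rd d A u * c - c') * n ≤ S * n + d * c' * n +
      (1 + 2 * m + t) * (2 * (m + 2) * rd d A v * (rd d A u * c - c')) := by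
    rw [← hfull, sum_mul]
    calc ∑ x ∈ X, (∑ y ∈ Y x, f x y) * n ≤ ∑ x ∈ X, ((∑ y ∈ G x, f x y) * n + f x u * n +
          (1 + 2 * m + t) * (2 * (m + 2) * rd d A v * (cnt d (insert s(u, x) A) B : ℝ))) :=
          sum_le_sum hinner
      _ = S * n + (∑ x ∈ X, f x u) * n +
          (1 + 2 * m + t) * (2 * (m + 2) * rd d A v * (rd d A u * c - c')) := by
          rw [sum_add_distrib, sum_add_distrib, hS, sum_mul, sum_mul, ← hsumX, mul_sum, mul_sum]
      _ ≤ _ := by
          have : ∑ x ∈ X, f x u ≤ d * c' := by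
            calc ∑ x ∈ X, f x u = ∑ x ∈ X, (cnt d (insert s(u, x) (insert s(u, v) A)) B : ℝ) :=
                  sum_congr rfl (fun x _ => hfu x)
              _ ≤ _ := hsumU
          have h5 := mul_le_mul_of_nonneg_right this hnpos.le
          linarith
  -- membership in G
  have hGmem : ∀ x y, y ∈ G x → y ∈ Y x ∧ y ≠ u ∧ y ≠ x ∧ s(x, y) ∉ A ∧ s(x, y) ∉ B := by
    intro x y hy
    simp only [hGdef, mem_filter] at hy
    tauto
  -- the three sums
  set g1 : Fin n → Fin n → ℝ := fun x y => (cnt d (insert s(x, y) (insert s(u, v) A)) B : ℝ) with hg1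
  set g2 : Fin n → Fin n → ℝ := fun x y =>
    (cnt d (insert s(u, v) (insert s(v, y) (insert s(u, x) A))) B : ℝ) with hg2
  set g3 : Fin n → Fin n → ℝ := fun x y =>
    (cnt d (insert s(x, y) (insert s(v, y) (insert s(u, x) A))) B : ℝ) with hg3
  have hfour : ∀ x ∈ X, ∀ y ∈ G x, f x y ≤ g1 x y + g2 x y + g3 x y := by
    intro x hx y hy
    obtain ⟨h1, h2, h3, h4⟩ := hXmem x hx
    obtain ⟨k1, k2, k3, k4, k5⟩ := hGmem x y hy
    obtain ⟨l1, l2, l3⟩ := hYmem x y k1
    have l2' : s(v, y) ∉ A := fun h => l2 (mem_insert_of_mem h)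
    have key := four_point d A B u v x y huv (Ne.symm h1) (Ne.symm k2) (Ne.symm h4) (Ne.symm l1)
      (Ne.symm k3) hA k4 h2 l2' hBu k5 h3 l3
    have : cnt d (insert s(v, y) (insert s(u, x) A)) B ≤
        cnt d (insert s(x, y) (insert s(u, v) A)) B
        + cnt d (insert s(u, v) (insert s(v, y) (insert s(u, x) A))) B
        + cnt d (insert s(x, y) (insert s(v, y) (insert s(u, x) A))) B := by
      omega
    simp only [hfdef, hg1, hg2, hg3]
    exact_mod_cast this
  have hXE : ∀ x ∈ X, ∀ y ∈ G x, s(x, y) ∉ insert s(u, v) A := by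
    intro x hx y hy
    obtain ⟨h1, h2, h3, h4⟩ := hXmem x hx
    obtain ⟨k1, k2, k3, k4, k5⟩ := hGmem x y hy
    rw [mem_insert, not_or]
    refine ⟨?_, k4⟩
    intro h
    rw [Sym2.eq_iff] at h
    rcases h with h | h
    · exact h1 h.1
    · exact h4 h.1
  have hS1 : ∑ x ∈ X, ∑ y ∈ G x, g1 x y ≤ (EE d A - 2) * c' := by
    have hb : ∀ x ∈ X, ∑ y ∈ G x, g1 x y ≤ rd d (insert s(u, v) A) x * c' := by
      intro x hx
      rw [← sum_rule d (insert s(u, v) A) B x]
      apply sum_le_sum_of_subset_of_nonneg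
      · intro y hy
        obtain ⟨k1, k2, k3, k4, k5⟩ := hGmem x y hy
        simp only [mem_filter, mem_univ, true_and]
        exact ⟨k3, hXE x hx y hy, k5⟩
      · intro _ _ _
        exact Nat.cast_nonneg _
    by_cases hz : cnt d (insert s(u, v) A) B = 0
    · have hc'z : c' = 0 := by rw [hc', hz]; simp
      rw [hc'z] at hb ⊢
      calc ∑ x ∈ X, ∑ y ∈ G x, g1 x y ≤ ∑ x ∈ X, rd d (insert s(u, v) A) x * 0 := sum_le_sum hb
        _ = (EE d A - 2) * 0 := by simp
    · have hdg : ∀ w, dg (insert s(u, v) A) w ≤ d := by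
        rcases cnt_eq_zero_or d (insert s(u, v) A) B with h | h
        · exact absurd h hz
        · exact h
      calc ∑ x ∈ X, ∑ y ∈ G x, g1 x y ≤ ∑ x ∈ X, rd d (insert s(u, v) A) x * c' := sum_le_sum hb
        _ ≤ ∑ x, rd d (insert s(u, v) A) x * c' := by
            apply sum_le_sum_of_subset_of_nonneg (subset_univ _)
            intro x _ _
            exact mul_nonneg (rd_nonneg d _ x (hdg x)) hc'0
        _ = (EE d A - 2) * c' := by
            rw [← sum_mul, sum_rd d _ hND2, hE2]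
  have hS2 : ∑ x ∈ X, ∑ y ∈ G x, g2 x y ≤ d * (d * c') := by
    have hb : ∀ x ∈ X, ∑ y ∈ G x, g2 x y ≤ d * (cnt d (insert s(u, x) (insert s(u, v) A)) B : ℝ) := by
      intro x hx
      obtain ⟨h1, h2, h3, h4⟩ := hXmem x hx
      have h5 := sum_rule d (insert s(u, x) (insert s(u, v) A)) B v
      calc ∑ y ∈ G x, g2 x y = ∑ y ∈ G x, (cnt d (insert s(v, y) (insert s(u, x) (insert s(u, v) A))) B : ℝ) := by
            apply sum_congr rfl
            intro y _
            simp only [hg2]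
            rw [Finset.insert_comm s(u, v) s(v, y), Finset.insert_comm s(u, v) s(u, x)]
        _ ≤ ∑ y ∈ univ.filter (fun z => z ≠ v ∧ s(v, z) ∉ insert s(u, x) (insert s(u, v) A) ∧ s(v, z) ∉ B),
            (cnt d (insert s(v, y) (insert s(u, x) (insert s(u, v) A))) B : ℝ) := by
            apply sum_le_sum_of_subset_of_nonneg
            · intro y hy
              obtain ⟨k1, k2, k3, k4, k5⟩ := hGmem x y hy
              obtain ⟨l1, l2, l3⟩ := hYmem x y k1
              simp only [mem_filter, mem_univ, true_and]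
              refine ⟨l1, ?_, l3⟩
              intro hmem
              rw [Finset.insert_comm, mem_insert] at hmem
              rcases hmem with h | h
              · rw [Sym2.eq_iff] at h
                rcases h with h | h
                · exact huv h.1.symm
                · exact k2 h.2
              · exact l2 h
            · intro _ _ _
              exact Nat.cast_nonneg _
        _ = rd d (insert s(u, x) (insert s(u, v) A)) v * (cnt d (insert s(u, x) (insert s(u, v) A)) B : ℝ) := h5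
        _ ≤ _ := mul_le_mul_of_nonneg_right (rd_le d _ v) (Nat.cast_nonneg _)
    calc ∑ x ∈ X, ∑ y ∈ G x, g2 x y ≤ ∑ x ∈ X, d * (cnt d (insert s(u, x) (insert s(u, v) A)) B : ℝ) := sum_le_sum hb
      _ = d * ∑ x ∈ X, (cnt d (insert s(u, x) (insert s(u, v) A)) B : ℝ) := by rw [mul_sum]
      _ ≤ d * (d * c') := mul_le_mul_of_nonneg_left hsumU (by linarith)
  have hS3 : (∑ x ∈ X, ∑ y ∈ G x, g3 x y) * n ≤ 2 * (m + 2) * d * S := by
    have hb : ∀ x ∈ X, ∀ y ∈ G x, g3 x y * n ≤ 2 * (m + 2) * d * f x y := by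
      intro x hx y hy
      obtain ⟨h1, h2, h3, h4⟩ := hXmem x hx
      obtain ⟨k1, k2, k3, k4, k5⟩ := hGmem x y hy
      obtain ⟨l1, l2, l3⟩ := hYmem x y k1
      obtain ⟨a1, a2, a3, a4⟩ := hA1 x hx
      have hn : s(x, y) ∉ insert s(v, y) (insert s(u, x) A) := by
        rw [mem_insert, mem_insert, not_or, not_or]
        refine ⟨?_, ?_, k4⟩
        · intro h
          rw [Sym2.eq_iff] at h
          rcases h with h | h
          · exact h4 h.1
          · exact l1 h.2
        · intro h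
          rw [Sym2.eq_iff] at h
          rcases h with h | h
          · exact h1 h.1
          · exact k2 h.2
      have key := h0 n d (t + 2) (insert s(v, y) (insert s(u, x) A)) B x y hmd hn2
        (ND_insert a1 (Ne.symm l1)) (by
          intro w
          have := dg_insert_le (insert s(u, x) A) w (Ne.symm l1) l2
          have := a2 w
          omega) (by
          have := card_insert_le s(v, y) (insert s(u, x) A)
          omega) hB (disj_insert a4 l3) (Ne.symm k3) hn k5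
      have hff : (0 : ℝ) ≤ cnt d (insert s(v, y) (insert s(u, x) A)) B := Nat.cast_nonneg _
      rcases cnt_eq_zero_or d (insert s(v, y) (insert s(u, x) A)) B with hz | hdg
      · have hz2 : cnt d (insert s(x, y) (insert s(v, y) (insert s(u, x) A))) B = 0 := by
          have := cnt_mono d (insert s(v, y) (insert s(u, x) A)) B s(x, y)
          omega
        simp only [hg3, hfdef, hz, hz2]
        simp
      · have hle : rd d (insert s(v, y) (insert s(u, x) A)) x * rd d (insert s(v, y) (insert s(u, x) A)) y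
            * (cnt d (insert s(v, y) (insert s(u, x) A)) B : ℝ) ≤ d * d * (cnt d (insert s(v, y) (insert s(u, x) A)) B : ℝ) := by
          apply mul_le_mul_of_nonneg_right _ hff
          exact mul_le_mul (rd_le d _ x) (rd_le d _ y) (rd_nonneg d _ y (hdg y)) (by linarith)
        have h5 : g3 x y * n * d ≤ 2 * (m + 2) * d * f x y * d := by
          calc g3 x y * n * d = g3 x y * (n * d) := by ring
            _ ≤ 2 * (m + 2) * (rd d (insert s(v, y) (insert s(u, x) A)) x * rd d (insert s(v, y) (insert s(u, x) A)) y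
                * (cnt d (insert s(v, y) (insert s(u, x) A)) B : ℝ)) := key
            _ ≤ 2 * (m + 2) * (d * d * (cnt d (insert s(v, y) (insert s(u, x) A)) B : ℝ)) :=
                mul_le_mul_of_nonneg_left hle (by positivity)
            _ = _ := by simp only [hfdef]; ring
        exact le_of_mul_le_mul_right h5 (by linarith)
    rw [hS, sum_mul, mul_sum]
    apply sum_le_sum
    intro x hx
    rw [sum_mul, mul_sum]
    exact sum_le_sum (hb x hx)
  have hSle : S ≤ ∑ x ∈ X, ∑ y ∈ G x, g1 x y + ∑ x ∈ X, ∑ y ∈ G x, g2 x y + ∑ x ∈ X, ∑ y ∈ G x, g3 x y := by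
    rw [hS, ← sum_add_distrib, ← sum_add_distrib]
    apply sum_le_sum
    intro x hx
    rw [← sum_add_distrib, ← sum_add_distrib]
    exact sum_le_sum (hfour x hx)
  -- upper bound for c'
  have hc'up : c' * (n * d) ≤ 2 * (m + 2) * (rd d A u * rd d A v * c) := by
    apply h0 n d t A B u v hmd _ hNDA hcls.lem hcls.card hB hdis huv hA hBu
    exact le_trans (mul_le_mul_of_nonneg_right (by linarith) hdX) hn
  -- conclusion
  set R : ℝ := rd d A u * rd d A v * c with hR
  have hR0 : 0 ≤ R := by positivity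
  have hlow' : rd d A v * (rd d A u * c - c') * n ≤ S * n + d * c' * n +
      (1 + 2 * m + t) * (2 * (m + 2) * rd d A v * (rd d A u * c - c')) := hlow
  have hfin : R * (n - C * (d + t + 1)) ≤ EE d A * c' * n :=
    arith hSle hS1 hS2 hS3 hlow' hnpos hc'0 hc0 hm0 ht0 hd1 hrv hru (rd_le d A v) rfl hc'up hCdef hn hX
      (by linarith) (by linarith)
  have hgoal : rd d A u * rd d A v / EE d A * c * (1 - C * (d + t + 1) / n) =
      R * (n - C * (d + t + 1)) / (EE d A * n) := by
    rw [hR]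
    field_simp
  rw [hgoal, div_le_iff₀ (by positivity)]
  calc R * (n - C * (d + t + 1)) ≤ EE d A * c' * n := hfin
    _ = c' * (EE d A * n) := by ring

end MD2

export MD2 (ap_lower)

end Pool.Agent.H698NC
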