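import Pool.Agent.H698NC.Defs
import Pool.Agent.H336R3.Exist

set_option autoImplicit false

/-! Regular graphs exist. -/

namespace Pool.Agent.H698NC

open Finset

theorem RG_nonempty {n d : ℕ} (h : d + 1 < n) (hp : Even (n * d)) : (RG n d).Nonempty := by
  obtain ⟨G, hG⟩ := Pool.Agent.H336R3.Shot.exists_reg h hp
  exact ⟨G, by
    simp only [RG, mem_filter, mem_univ, true_and]
    exact hG⟩

end Pool.Agent.H698NC
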