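import Pool.Agent.H698NC.D2
import Pool.Agent.H698NC.Exist0

set_option autoImplicit false

namespace Pool.Agent.H698NC

open Finset

namespace MD3

variable {n : ℕ}

lemma dg_mono {A A' : Finset (Sym2 (Fin n))} (h : A ⊆ A') (v : Fin n) : dg A v ≤ dg A' v := by
  unfold dg nbr
  apply Finset.card_le_card
  intro w hw
  simp only [mem_filter, mem_univ, true_and] at hw ⊢
  exact h hw

lemma dg_empty (v : Fin n) : dg (∅ : Finset (Sym2 (Fin n))) v = 0 := by
  simp [dg, nbr]

lemma Cls.mono {d m t : ℕ} {A A' : Finset (Sym2 (Fin n))} (h : A ⊆ A') (hA : Cls d m t A') :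
    Cls d m t A where
  nd := fun e he => hA.nd e (h he)
  led := fun v => (dg_mono h v).trans (hA.led v)
  lem := fun v => (dg_mono h v).trans (hA.lem v)
  card := (Nat.mul_le_mul_left 2 (Finset.card_le_card h)).trans hA.card

lemma BCls.mono {m : ℕ} {A A' : Finset (Sym2 (Fin n))} (h : A ⊆ A') (hA : BCls m A') :
    BCls m A where
  nd := fun e he => hA.nd e (h he)
  lem := fun v => (dg_mono h v).trans (hA.lem v)

lemma Cls_empty (d m t : ℕ) : Cls d m t (∅ : Finset (Sym2 (Fin n))) where
  nd := fun e he => absurd he (Finset.notMem_empty e)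
  led := fun v => by rw [dg_empty]; exact Nat.zero_le _
  lem := fun v => by rw [dg_empty]; exact Nat.zero_le _
  card := by simp

lemma cnt_empty_pos {d : ℕ} (h : d + 1 < n) (hp : Even (n * d)) :
    0 < cnt d (∅ : Finset (Sym2 (Fin n))) ∅ := by
  classical
  unfold cnt
  rw [Finset.card_pos]
  obtain ⟨G, hG⟩ := RG_nonempty h hp
  refine ⟨G, ?_⟩
  simp only [mem_filter]
  exact ⟨hG, fun e he => absurd he (Finset.notMem_empty e),
    fun e he => absurd he (Finset.notMem_empty e)⟩

/-- TARGET -/
theorem cnt_pos (m : ℕ) : ∃ C : ℝ, 1 ≤ C ∧ ∀ (n d t : ℕ) (A B : Finset (Sym2 (Fin n))),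
    Even (n * d) → m + 1 ≤ d → C * ((d : ℝ) + (1 + t) ^ 6) ≤ n → Cls d m t A → BCls m B → Disjoint A B → 0 < cnt d A B := by
  classical
  obtain ⟨Cu, hCu1, hCu⟩ := ap_upper m
  obtain ⟨Cl, hCl1, hCl⟩ := ap_lower m
  obtain ⟨Ce, hCe1, hCe⟩ := EE_lower m
  refine ⟨4 * (Cu + Cl + Ce), by linarith, ?_⟩
  intro n d t A B hp hmd hn hA hB hAB
  have hd1 : (1 : ℝ) ≤ d := by
    have : 1 ≤ d := by omega
    exact_mod_cast this
  have ht0 : (0 : ℝ) ≤ t := Nat.cast_nonneg t
  have ht1 : (1 : ℝ) + t ≤ (1 + t) ^ 6 := by
    have h1 : (1 : ℝ) ≤ 1 + t := by linarith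
    calc (1 : ℝ) + t = (1 + t) ^ 1 := (pow_one _).symm
      _ ≤ (1 + t) ^ 6 := pow_le_pow_right₀ h1 (by norm_num)
  set S : ℝ := (d : ℝ) + (1 + t) ^ 6 with hS
  have hS1 : (d : ℝ) + t + 1 ≤ S := by linarith
  have hS0 : 0 < S := by linarith
  have hSd : (d : ℝ) + 1 ≤ S := by linarith
  have hCuS : 0 ≤ Cu * S := by positivity
  have hClS : 0 ≤ Cl * S := by positivity
  have hCeS : 0 ≤ Ce * S := by positivity
  have hnu : 4 * (Cu * S) ≤ n := by nlinarith
  have hnl : 4 * (Cl * S) ≤ n := by nlinarith
  have hne : 4 * (Ce * S) ≤ n := by nlinarith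
  have hn4 : 4 * S ≤ n := by nlinarith
  have hn0 : (0 : ℝ) < n := by linarith
  have hdn : d + 1 < n := by
    have : ((d + 1 : ℕ) : ℝ) < n := by push_cast; linarith
    exact_mod_cast this
  -- step (b)
  have hb : ∀ B : Finset (Sym2 (Fin n)), BCls m B → 0 < cnt d ∅ B := by
    intro B
    induction B using Finset.induction_on with
    | empty => intro _; exact cnt_empty_pos hdn hp
    | insert e B he ih =>
      intro hB'
      have hB := BCls.mono (Finset.subset_insert e B) hB'
      have ih := ih hB
      induction e using Sym2.ind with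
      | _ x y =>
        have hxy : x ≠ y := by
          have := hB'.nd s(x, y) (Finset.mem_insert_self _ _)
          simpa using this
        have hval : Val d ∅ B x y :=
          ⟨hxy, Finset.notMem_empty _, he, by rw [dg_empty]; omega, by rw [dg_empty]; omega⟩
        have hn' : Cu * ((d : ℝ) + (1 + (0 : ℕ)) ^ 6) ≤ n := by
          have : (d : ℝ) + (1 + (0 : ℕ)) ^ 6 = d + 1 := by push_cast; ring
          rw [this]
          nlinarith
        have h1 := hCu n d 0 ∅ B x y hmd hn' (Cls_empty d m 0) hB (Finset.disjoint_empty_left _) hval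
        have hrd : ∀ v, rd d (∅ : Finset (Sym2 (Fin n))) v = d := by
          intro v; simp [rd, dg_empty]
        have hEE : EE d (∅ : Finset (Sym2 (Fin n))) = n * d := by simp [EE]
        rw [hrd, hrd, hEE] at h1
        have h2 := cnt_forbid d (∅ : Finset (Sym2 (Fin n))) B s(x, y)
        have hc0 : (0 : ℝ) < cnt d (∅ : Finset (Sym2 (Fin n))) B := by exact_mod_cast ih
        have h3 : (d : ℝ) * d / (n * d) = d / n := by field_simp
        rw [h3] at h1
        have h4 : 1 + Cu * ((d : ℝ) + (0 : ℕ) + 1) / n ≤ 2 := by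
          have : Cu * ((d : ℝ) + (0 : ℕ) + 1) / n ≤ 1 := by
            rw [div_le_one hn0]
            push_cast
            nlinarith
          linarith
        have h5 : (d : ℝ) / n ≤ 1 / 4 := by
          rw [div_le_iff₀ hn0]; linarith
        have h6 : (0 : ℝ) ≤ d / n := by positivity
        have h7 : (cnt d (insert s(x, y) (∅ : Finset (Sym2 (Fin n)))) B : ℝ) ≤
            (1 / 2) * cnt d (∅ : Finset (Sym2 (Fin n))) B := by
          refine h1.trans ?_
          have h8 : (d : ℝ) / n * cnt d (∅ : Finset (Sym2 (Fin n))) B *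
              (1 + Cu * ((d : ℝ) + (0 : ℕ) + 1) / n) ≤
              (d : ℝ) / n * cnt d (∅ : Finset (Sym2 (Fin n))) B * 2 :=
            mul_le_mul_of_nonneg_left h4 (by positivity)
          have h9 : (d : ℝ) / n * cnt d (∅ : Finset (Sym2 (Fin n))) B ≤
              1 / 4 * cnt d (∅ : Finset (Sym2 (Fin n))) B :=
            mul_le_mul_of_nonneg_right h5 hc0.le
          linarith
        have h2' : (cnt d (∅ : Finset (Sym2 (Fin n))) (insert s(x, y) B) : ℝ) +
            cnt d (insert s(x, y) (∅ : Finset (Sym2 (Fin n)))) B =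
            cnt d (∅ : Finset (Sym2 (Fin n))) B := by exact_mod_cast h2
        have h10 : (0 : ℝ) < cnt d (∅ : Finset (Sym2 (Fin n))) (insert s(x, y) B) := by
          linarith
        exact_mod_cast h10
  -- step (c)
  have hc : ∀ A : Finset (Sym2 (Fin n)), Cls d m t A → Disjoint A B → 0 < cnt d A B := by
    intro A
    induction A using Finset.induction_on with
    | empty => intro _ _; exact hb B hB
    | insert e A he ih =>
      intro hA' hdis
      have hA := Cls.mono (Finset.subset_insert e A) hA'
      have hAB := Finset.disjoint_of_subset_left (Finset.subset_insert e A) hdis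
      have ih := ih hA hAB
      induction e using Sym2.ind with
      | _ x y =>
        have hxy : x ≠ y := by
          have := hA'.nd s(x, y) (Finset.mem_insert_self _ _)
          simpa using this
        have hxB : s(x, y) ∉ B := Finset.disjoint_left.1 hdis (Finset.mem_insert_self _ _)
        have hx : dg A x < d := by
          have h1 := hA'.led x
          rw [dg_insert A x y x hxy he] at h1
          simp at h1
          omega
        have hy : dg A y < d := by
          have h1 := hA'.led y
          rw [dg_insert A x y y hxy he] at h1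
          simp at h1
          omega
        have hval : Val d A B x y := ⟨hxy, he, hxB, hx, hy⟩
        have hn' : Cl * ((d : ℝ) + (1 + t) ^ 6) ≤ n := by linarith
        have hn'' : Ce * ((d : ℝ) + (1 + t) ^ 6) ≤ n := by linarith
        have h1 := hCl n d t A B x y hmd hn' hA hB hAB hval
        have h2 := hCe n d t A hmd hn'' hA
        have hEE : 0 < EE d A := lt_of_lt_of_le (by positivity) h2
        have hrx : 0 < rd d A x := by
          unfold rd
          have : (dg A x : ℝ) < d := by exact_mod_cast hx
          linarith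
        have hry : 0 < rd d A y := by
          unfold rd
          have : (dg A y : ℝ) < d := by exact_mod_cast hy
          linarith
        have hc0 : (0 : ℝ) < cnt d A B := by exact_mod_cast ih
        have h3 : 0 < 1 - Cl * ((d : ℝ) + t + 1) / n := by
          have : Cl * ((d : ℝ) + t + 1) / n < 1 := by
            rw [div_lt_one hn0]
            have : Cl * ((d : ℝ) + t + 1) ≤ Cl * S := mul_le_mul_of_nonneg_left hS1 (by linarith)
            have h5 : 0 < Cl * S := by positivity
            linarith
          linarith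
        have h4 : (0 : ℝ) < cnt d (insert s(x, y) A) B := lt_of_lt_of_le (by positivity) h1
        exact_mod_cast h4
  exact hc A hA hAB

end MD3

export MD3 (cnt_pos)

end Pool.Agent.H698NC
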