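import Mathlib

set_option autoImplicit false

/-! Definitions for the count of `d`-regular graphs on `Fin n` with prescribed edges and non-edges. -/

namespace Pool.Agent.H698NC

open Finset

variable {n : ℕ}

/-- `G` is `d`-regular. -/
def Reg (G : SimpleGraph (Fin n)) (d : ℕ) : Prop := ∀ v, (G.neighborSet v).ncard = d

open scoped Classical in
/-- the `d`-regular graphs on `Fin n` -/
noncomputable def RG (n d : ℕ) : Finset (SimpleGraph (Fin n)) := univ.filter (fun G => Reg G d)

open scoped Classical in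
/-- the number of `d`-regular graphs which contain all edges in `A` and no edge in `B` -/
noncomputable def cnt (d : ℕ) (A B : Finset (Sym2 (Fin n))) : ℕ :=
  ((RG n d).filter (fun G => (∀ e ∈ A, e ∈ G.edgeSet) ∧ (∀ e ∈ B, e ∉ G.edgeSet))).card

/-- the neighbours of `v` in the edge set `A` -/
def nbr (A : Finset (Sym2 (Fin n))) (v : Fin n) : Finset (Fin n) := univ.filter (fun w => s(v, w) ∈ A)

/-- the degree of `v` in the edge set `A` -/
def dg (A : Finset (Sym2 (Fin n))) (v : Fin n) : ℕ := (nbr A v).card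

/-- no loops -/
def ND (A : Finset (Sym2 (Fin n))) : Prop := ∀ e ∈ A, ¬ e.IsDiag

/-- remaining degree -/
noncomputable def rd (d : ℕ) (A : Finset (Sym2 (Fin n))) (v : Fin n) : ℝ := (d : ℝ) - dg A v

/-- twice the number of remaining edges -/
noncomputable def EE (d : ℕ) (A : Finset (Sym2 (Fin n))) : ℝ := (n : ℝ) * d - 2 * A.card

/-- `∑ r (r - 1)` -/
noncomputable def D2 (d : ℕ) (A : Finset (Sym2 (Fin n))) : ℝ := ∑ v, rd d A v * (rd d A v - 1)

/-- `∑ r_w` over the neighbours `w` of `v` in `A ∪ B` -/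
noncomputable def TT (d : ℕ) (A B : Finset (Sym2 (Fin n))) (v : Fin n) : ℝ :=
  ∑ w ∈ nbr (A ∪ B) v, rd d A w

/-- the sum of `r_v r_w` over the ordered pairs joined in `A ∪ B` -/
noncomputable def QQ (d : ℕ) (A B : Finset (Sym2 (Fin n))) : ℝ := ∑ v, rd d A v * TT d A B v

/-- `log ((2 k - 1)!!)` -/
noncomputable def LF (k : ℕ) : ℝ := ∑ i ∈ range k, Real.log (2 * i + 1)

/-- the approximate value of `log cnt` up to a constant -/
noncomputable def ell (d : ℕ) (A B : Finset (Sym2 (Fin n))) : ℝ :=
  LF (n * d / 2 - A.card) - ∑ v, Real.log ((d - dg A v).factorial)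
    - D2 d A / (2 * EE d A) - D2 d A ^ 2 / (4 * EE d A ^ 2) - QQ d A B / (2 * EE d A)

/-- the class of admissible sets of prescribed edges -/
structure Cls (d m t : ℕ) (A : Finset (Sym2 (Fin n))) : Prop where
  nd : ND A
  led : ∀ v, dg A v ≤ d
  lem : ∀ v, dg A v ≤ m + t
  card : 2 * A.card ≤ m * n + 2 * t

/-- the class of admissible sets of forbidden edges -/
structure BCls (m : ℕ) (B : Finset (Sym2 (Fin n))) : Prop where
  nd : ND B
  lem : ∀ v, dg B v ≤ m

/-- the pair `x, y` can be added -/
structure Val (d : ℕ) (A B : Finset (Sym2 (Fin n))) (x y : Fin n) : Prop where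
  ne : x ≠ y
  nA : s(x, y) ∉ A
  nB : s(x, y) ∉ B
  hx : dg A x < d
  hy : dg A y < d

/-- the increment of `L` when `xy` is added, without the leading term -/
noncomputable def gL (L : Finset (Sym2 (Fin n)) → Finset (Sym2 (Fin n)) → ℝ) (d : ℕ)
    (A B : Finset (Sym2 (Fin n))) (x y : Fin n) : ℝ :=
  L (insert s(x, y) A) B - L A B - Real.log (rd d A x * rd d A y / EE d A)

/-- the approximate conditional probability of the edge `xy` -/
noncomputable def fL (L : Finset (Sym2 (Fin n)) → Finset (Sym2 (Fin n)) → ℝ) (d : ℕ)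
    (A B : Finset (Sym2 (Fin n))) (x y : Fin n) : ℝ :=
  rd d A x * rd d A y / EE d A * Real.exp (gL L d A B x y)

/-- the deviation of the increment of `log cnt` from the increment of `L` -/
noncomputable def DL (L : Finset (Sym2 (Fin n)) → Finset (Sym2 (Fin n)) → ℝ) (d : ℕ)
    (A B : Finset (Sym2 (Fin n))) (x y : Fin n) : ℝ :=
  Real.log (cnt d (insert s(x, y) A) B) - Real.log (cnt d A B) - (L (insert s(x, y) A) B - L A B)

/-- the second order term -/
noncomputable def bet (d : ℕ) (A B : Finset (Sym2 (Fin n))) (x y : Fin n) : ℝ :=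
  1 + (rd d A x - 1) + (rd d A y - 1) - D2 d A / EE d A
    - (rd d A x - 1 - D2 d A / EE d A) * (rd d A y - 1 - D2 d A / EE d A)
    + TT d A B x + TT d A B y - QQ d A B / EE d A

end Pool.Agent.H698NC
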