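import Pool.Agent.H698NC.Defs

set_option autoImplicit false

namespace Pool.Agent.H698NC

open Finset

variable {n : ℕ}

open scoped Classical in
/-- the edge set as a finset -/
noncomputable def es (G : SimpleGraph (Fin n)) : Finset (Sym2 (Fin n)) := univ.filter (fun e => e ∈ G.edgeSet)

/-- `Dn k` is the number of perfect matchings of `K_{2k}` which avoid a given perfect matching -/
def Dn (k : ℕ) : ℤ := ∑ i ∈ range (k + 1), (-1) ^ i * ((k.choose i : ℤ) * ((2 * (k - i) - 1).doubleFactorial : ℤ))

/-- the weights of the negative binomial distribution -/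
noncomputable def W (a q : ℝ) (J : ℕ) : ℝ := (∏ t ∈ range J, (a + t)) / (J.factorial : ℝ) * q ^ J

/-- the exponent -/
noncomputable def Lam (d θ : ℝ) : ℝ := 3 / 4 - (1 + (d - 1) * θ / (d - 2 + θ)) ^ 2 / 4

/-- the exponent of the pair term -/
noncomputable def phi (n d J : ℕ) : ℝ :=
  (n : ℝ) * Real.log (((d : ℝ) - 1) / d) - 2 * J * Real.log ((d : ℝ) - 1)
    + LF (n * d / 2) + LF (n * d / 2 - (n - J)) - 2 * LF (n * d / 2 - n / 2) + Lam d (2 * J / n)

end Pool.Agent.H698NC
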