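import Pool.Agent.H698NC.DefsE

set_option autoImplicit false

namespace Pool.Agent.H698NC

open Finset

variable {n : ℕ}

/-- degree sums of an edge set -/
noncomputable def W0 (C : Finset (Sym2 (Fin n))) : ℝ := ∑ v, (dg C v : ℝ)

/-- sum of the squares of the degrees -/
noncomputable def W1 (C : Finset (Sym2 (Fin n))) : ℝ := ∑ v, (dg C v : ℝ) ^ 2

/-- sum of the products of the degrees over the edges -/
noncomputable def W2 (C : Finset (Sym2 (Fin n))) : ℝ := (∑ v, (dg C v : ℝ) * ∑ w ∈ nbr C v, (dg C w : ℝ)) / 2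

/-- sum of the cubes of the degrees -/
noncomputable def W3 (C : Finset (Sym2 (Fin n))) : ℝ := ∑ v, (dg C v : ℝ) ^ 3

/-- the second order correction, depending on all exposed pairs -/
noncomputable def WW (C : Finset (Sym2 (Fin n))) : ℝ :=
  W2 C + W3 C / 6 + W1 C / 4 - W0 C * W1 C / n - W0 C / 6 - W0 C ^ 2 / (4 * n) + 5 / 12 * W0 C ^ 3 / n ^ 2

/-- the centred degree -/
noncomputable def bt (B : Finset (Sym2 (Fin n))) (v : Fin n) : ℝ := (dg B v : ℝ) - W0 B / n

/-- sum over the edges of `A` of the products of the centred degrees in `B` -/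
noncomputable def SB (A B : Finset (Sym2 (Fin n))) : ℝ := (∑ v, bt B v * ∑ w ∈ nbr A v, bt B w) / 2

/-- the correction term -/
noncomputable def Gam (d : ℕ) (A B : Finset (Sym2 (Fin n))) : ℝ := WW (A ∪ B) - SB A B / (1 - (d : ℝ) / n)

/-- the refined approximation of `log cnt` -/
noncomputable def ellp (d : ℕ) (A B : Finset (Sym2 (Fin n))) : ℝ := ell d A B + Gam d A B / (n : ℝ) ^ 2

/-- the main part of the increment of `WW` -/
noncomputable def gam (C : Finset (Sym2 (Fin n))) (x y : Fin n) : ℝ :=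
  ((1 + (dg C x : ℝ)) ^ 2 + (1 + (dg C y : ℝ)) ^ 2 - (1 + W0 C / n) ^ 2) / 2
    + ∑ w ∈ nbr C x, ((dg C w : ℝ) - W0 C / n) + ∑ w ∈ nbr C y, ((dg C w : ℝ) - W0 C / n)
    - 2 / n * (W1 C - W0 C / n * W0 C) + (1 + (dg C x : ℝ) - W0 C / n) * (1 + (dg C y : ℝ) - W0 C / n)

/-- the first order increment -/
noncomputable def sg (C : Finset (Sym2 (Fin n))) (x y : Fin n) : ℝ := 1 + (dg C x : ℝ) + dg C y - W0 C / n

/-- the correction polynomial -/
noncomputable def gp (θ : ℝ) : ℝ :=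
  4 - 7 * θ / 2 + (8 - 7 * θ) / 6 + (4 - 3 * θ) / 4 - (2 - θ) * (4 - 3 * θ) - (2 - θ) / 6 - (2 - θ) ^ 2 / 4
    + 5 / 12 * (2 - θ) ^ 3 + 1 / 6

end Pool.Agent.H698NC
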