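import Pool.Agent.H698NC.Defs

set_option autoImplicit false

namespace Pool.Agent.H698NC

open Finset

namespace MJ0

variable {n : ℕ}

theorem j0_union (A B : Finset (Sym2 (Fin n))) (x y : Fin n) :
    insert s(x, y) A ∪ B = insert s(x, y) (A ∪ B) := Finset.insert_union _ _ _

theorem j0_mem_nbr (A : Finset (Sym2 (Fin n))) (v w : Fin n) : w ∈ nbr A v ↔ s(v, w) ∈ A := by
  simp [nbr]

theorem j0_nbr_left (A : Finset (Sym2 (Fin n))) (x y : Fin n) :
    nbr (insert s(x, y) A) x = insert y (nbr A x) := by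
  ext w
  rw [j0_mem_nbr, Finset.mem_insert, Finset.mem_insert, j0_mem_nbr, Sym2.eq_iff]
  constructor
  · rintro ((⟨-, h⟩ | ⟨h1, h2⟩) | h)
    · exact Or.inl h
    · exact Or.inl (h2.trans h1)
    · exact Or.inr h
  · rintro (h | h)
    · exact Or.inl (Or.inl ⟨rfl, h⟩)
    · exact Or.inr h

theorem j0_nbr_right (A : Finset (Sym2 (Fin n))) (x y : Fin n) :
    nbr (insert s(x, y) A) y = insert x (nbr A y) := by
  rw [Sym2.eq_swap]
  exact j0_nbr_left A y x

theorem j0_nbr_other (A : Finset (Sym2 (Fin n))) (x y v : Fin n) (hx : v ≠ x) (hy : v ≠ y) :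
    nbr (insert s(x, y) A) v = nbr A v := by
  ext w
  rw [j0_mem_nbr, Finset.mem_insert, j0_mem_nbr, Sym2.eq_iff]
  constructor
  · rintro ((⟨h, -⟩ | ⟨h, -⟩) | h)
    · exact absurd h hx
    · exact absurd h hy
    · exact h
  · exact Or.inr

theorem j0_sum_pair (x y : Fin n) (hxy : x ≠ y) (f : Fin n → ℝ) :
    ∑ v, (if v = x ∨ v = y then f v else 0) = f x + f y := by
  have h : ∀ v, (if v = x ∨ v = y then f v else 0) =
      (if v = x then f x else 0) + (if v = y then f y else 0) := by
    intro v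
    by_cases h1 : v = x
    · subst h1
      simp [hxy]
    · by_cases h2 : v = y
      · subst h2
        simp [h1]
      · simp [h1, h2]
  rw [Finset.sum_congr rfl fun v _ => h v, Finset.sum_add_distrib, Finset.sum_ite_eq',
    Finset.sum_ite_eq']
  simp

theorem dg_insert (A : Finset (Sym2 (Fin n))) (x y v : Fin n) (hxy : x ≠ y) (h : s(x, y) ∉ A) :
    dg (insert s(x, y) A) v = dg A v + (if v = x ∨ v = y then 1 else 0) := by
  unfold dg
  by_cases h1 : v = x
  · subst h1
    rw [j0_nbr_left, Finset.card_insert_of_notMem (by rwa [j0_mem_nbr])]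
    simp
  · by_cases h2 : v = y
    · subst h2
      rw [j0_nbr_right, Finset.card_insert_of_notMem (by rwa [j0_mem_nbr, Sym2.eq_swap])]
      simp
    · rw [j0_nbr_other A x y v h1 h2]
      simp [h1, h2]

theorem rd_insert (d : ℕ) (A : Finset (Sym2 (Fin n))) (x y v : Fin n) (hxy : x ≠ y) (h : s(x, y) ∉ A) :
    rd d (insert s(x, y) A) v = rd d A v - (if v = x ∨ v = y then 1 else 0) := by
  unfold rd
  rw [dg_insert A x y v hxy h]
  split_ifs <;> push_cast <;> ring

theorem EE_insert (d : ℕ) (A : Finset (Sym2 (Fin n))) (x y : Fin n) (h : s(x, y) ∉ A) :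
    EE d (insert s(x, y) A) = EE d A - 2 := by
  unfold EE
  rw [Finset.card_insert_of_notMem h]
  push_cast
  ring

theorem j0_hand (A : Finset (Sym2 (Fin n))) (hA : ND A) : ∑ v, (dg A v : ℝ) = 2 * A.card := by
  induction A using Finset.induction_on with
  | empty => simp [dg, nbr]
  | insert e A he ih =>
    have hA' : ND A := fun f hf => hA f (Finset.mem_insert_of_mem hf)
    have hd := hA e (Finset.mem_insert_self e A)
    induction e using Sym2.ind with
    | _ x y =>
      have hxy : x ≠ y := fun h => hd (by rw [h]; exact rfl)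
      have h1 : ∀ v, (dg (insert s(x, y) A) v : ℝ) = dg A v + (if v = x ∨ v = y then 1 else 0) := by
        intro v
        rw [dg_insert A x y v hxy he]
        split_ifs <;> simp
      rw [Finset.sum_congr rfl fun v _ => h1 v, Finset.sum_add_distrib, ih hA',
        j0_sum_pair x y hxy (fun _ => 1), Finset.card_insert_of_notMem he]
      push_cast
      ring

theorem sum_rd (d : ℕ) (A : Finset (Sym2 (Fin n))) (hA : ND A) : ∑ v, rd d A v = EE d A := by
  unfold rd EE
  rw [Finset.sum_sub_distrib, j0_hand A hA]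
  simp

theorem D2_insert (d : ℕ) (A : Finset (Sym2 (Fin n))) (x y : Fin n) (hxy : x ≠ y) (h : s(x, y) ∉ A) :
    D2 d (insert s(x, y) A) = D2 d A - 2 * (rd d A x - 1) - 2 * (rd d A y - 1) := by
  unfold D2
  have h1 : ∀ v, rd d (insert s(x, y) A) v * (rd d (insert s(x, y) A) v - 1) =
      rd d A v * (rd d A v - 1) - (if v = x ∨ v = y then 2 * (rd d A v - 1) else 0) := by
    intro v
    rw [rd_insert d A x y v hxy h]
    split_ifs <;> ring
  rw [Finset.sum_congr rfl fun v _ => h1 v, Finset.sum_sub_distrib,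
    j0_sum_pair x y hxy (fun v => 2 * (rd d A v - 1))]
  ring

theorem TT_insert_left (d : ℕ) (A B : Finset (Sym2 (Fin n))) (x y : Fin n) (hA : ND A) (hB : ND B) (hxy : x ≠ y)
    (h : s(x, y) ∉ A) (h' : s(x, y) ∉ B) :
    TT d (insert s(x, y) A) B x = TT d A B x + rd d A y - 1 := by
  unfold TT
  have hn : s(x, y) ∉ A ∪ B := by
    rw [Finset.mem_union, not_or]
    exact ⟨h, h'⟩
  rw [j0_union, j0_nbr_left, Finset.sum_insert (by rwa [j0_mem_nbr]),
    rd_insert d A x y y hxy h, if_pos (Or.inr rfl)]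
  have h1 : ∀ w ∈ nbr (A ∪ B) x, rd d (insert s(x, y) A) w = rd d A w := by
    intro w hw
    rw [j0_mem_nbr] at hw
    have hwx : w ≠ x := by
      rintro rfl
      rw [Finset.mem_union] at hw
      rcases hw with hw | hw
      · exact hA _ hw rfl
      · exact hB _ hw rfl
    have hwy : w ≠ y := by
      rintro rfl
      exact hn hw
    rw [rd_insert d A x y w hxy h, if_neg (not_or.2 ⟨hwx, hwy⟩), sub_zero]
  rw [Finset.sum_congr rfl h1]
  ring

theorem TT_insert_right (d : ℕ) (A B : Finset (Sym2 (Fin n))) (x y : Fin n) (hA : ND A) (hB : ND B) (hxy : x ≠ y)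
    (h : s(x, y) ∉ A) (h' : s(x, y) ∉ B) :
    TT d (insert s(x, y) A) B y = TT d A B y + rd d A x - 1 := by
  rw [Sym2.eq_swap] at h h' ⊢
  exact TT_insert_left d A B y x hA hB hxy.symm h h'

theorem TT_insert_other (d : ℕ) (A B : Finset (Sym2 (Fin n))) (x y v : Fin n) (hxy : x ≠ y)
    (h : s(x, y) ∉ A) (h' : s(x, y) ∉ B) (hx : v ≠ x) (hy : v ≠ y) :
    TT d (insert s(x, y) A) B v = TT d A B v - (if s(v, x) ∈ A ∪ B then 1 else 0) - (if s(v, y) ∈ A ∪ B then 1 else 0) := by
  unfold TT
  rw [j0_union, j0_nbr_other (A ∪ B) x y v hx hy]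
  have h1 : ∀ w ∈ nbr (A ∪ B) v, rd d (insert s(x, y) A) w =
      rd d A w - (if w = x then 1 else 0) - (if w = y then 1 else 0) := by
    intro w _
    rw [rd_insert d A x y w hxy h]
    by_cases h1 : w = x
    · subst h1
      simp [hxy]
    · by_cases h2 : w = y
      · subst h2
        simp [h1]
      · simp [h1, h2]
  rw [Finset.sum_congr rfl h1, Finset.sum_sub_distrib, Finset.sum_sub_distrib,
    Finset.sum_ite_eq', Finset.sum_ite_eq']
  simp only [j0_mem_nbr]

theorem j0_sum_ind (d : ℕ) (A C : Finset (Sym2 (Fin n))) (x : Fin n) :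
    ∑ v, rd d A v * (if s(v, x) ∈ C then 1 else 0) = ∑ w ∈ nbr C x, rd d A w := by
  unfold nbr
  rw [Finset.sum_filter]
  refine Finset.sum_congr rfl fun v _ => ?_
  rw [Sym2.eq_swap, mul_ite, mul_one, mul_zero]

theorem QQ_insert (d : ℕ) (A B : Finset (Sym2 (Fin n))) (x y : Fin n) (hA : ND A) (hB : ND B) (hxy : x ≠ y)
    (h : s(x, y) ∉ A) (h' : s(x, y) ∉ B) :
    QQ d (insert s(x, y) A) B = QQ d A B - 2 * TT d A B x - 2 * TT d A B y
      + 2 * (rd d A x - 1) * (rd d A y - 1) := by
  unfold QQ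
  have hn : s(x, y) ∉ A ∪ B := by
    rw [Finset.mem_union, not_or]
    exact ⟨h, h'⟩
  have hn' : s(y, x) ∉ A ∪ B := by rwa [Sym2.eq_swap]
  have hl : ∀ z : Fin n, s(z, z) ∉ A ∪ B := by
    intro z hz
    rw [Finset.mem_union] at hz
    rcases hz with hz | hz
    · exact hA _ hz rfl
    · exact hB _ hz rfl
  have h1 : ∀ v, rd d (insert s(x, y) A) v * TT d (insert s(x, y) A) B v =
      rd d A v * TT d A B v - rd d A v * (if s(v, x) ∈ A ∪ B then 1 else 0)
        - rd d A v * (if s(v, y) ∈ A ∪ B then 1 else 0)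
        + (if v = x then -TT d A B x + (rd d A x - 1) * (rd d A y - 1) else 0)
        + (if v = y then -TT d A B y + (rd d A x - 1) * (rd d A y - 1) else 0) := by
    intro v
    rw [rd_insert d A x y v hxy h]
    by_cases h1 : v = x
    · subst h1
      rw [TT_insert_left d A B v y hA hB hxy h h', if_pos (Or.inl rfl), if_neg (hl v), if_neg hn,
        if_pos rfl, if_neg hxy]
      ring
    · by_cases h2 : v = y
      · subst h2
        rw [TT_insert_right d A B x v hA hB hxy h h', if_pos (Or.inr rfl), if_neg hn',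
          if_neg (hl v), if_neg h1, if_pos rfl]
        ring
      · rw [TT_insert_other d A B x y v hxy h h' h1 h2, if_neg (not_or.2 ⟨h1, h2⟩), if_neg h1,
          if_neg h2]
        ring
  rw [Finset.sum_congr rfl fun v _ => h1 v, Finset.sum_add_distrib, Finset.sum_add_distrib,
    Finset.sum_sub_distrib, Finset.sum_sub_distrib, j0_sum_ind, j0_sum_ind, Finset.sum_ite_eq',
    Finset.sum_ite_eq', if_pos (Finset.mem_univ _), if_pos (Finset.mem_univ _)]
  have e1 : TT d A B x = ∑ w ∈ nbr (A ∪ B) x, rd d A w := rfl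
  have e2 : TT d A B y = ∑ w ∈ nbr (A ∪ B) y, rd d A w := rfl
  rw [← e1, ← e2]
  ring

theorem j0_fact (d : ℕ) (A : Finset (Sym2 (Fin n))) (x y v : Fin n) (hxy : x ≠ y)
    (h : s(x, y) ∉ A) (hx : dg A x < d) (hy : dg A y < d) :
    Real.log ((d - dg (insert s(x, y) A) v).factorial) =
      Real.log ((d - dg A v).factorial) - (if v = x then Real.log (rd d A x) else 0)
        - (if v = y then Real.log (rd d A y) else 0) := by
  have key : ∀ z, dg A z < d → Real.log ((d - (dg A z + 1)).factorial) =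
      Real.log ((d - dg A z).factorial) - Real.log (rd d A z) := by
    intro z hz
    obtain ⟨k, hk⟩ : ∃ k, d - dg A z = k + 1 := ⟨d - dg A z - 1, by omega⟩
    have hk2 : d - (dg A z + 1) = k := by omega
    have hr : rd d A z = (k : ℝ) + 1 := by
      unfold rd
      have h1 : d = k + 1 + dg A z := by omega
      have h2 : (d : ℝ) = (k : ℝ) + 1 + dg A z := by exact_mod_cast h1
      rw [h2]
      ring
    have hk0 : (0 : ℝ) < (k : ℝ) + 1 := by positivity
    have hf0 : (0 : ℝ) < (k.factorial : ℝ) := by exact_mod_cast Nat.factorial_pos k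
    rw [hk, hk2, hr, Nat.factorial_succ]
    push_cast
    rw [Real.log_mul hk0.ne' hf0.ne']
    ring
  rw [dg_insert A x y v hxy h]
  by_cases h1 : v = x
  · subst h1
    rw [if_pos (Or.inl rfl), if_pos rfl, if_neg hxy, key v hx, sub_zero]
  · by_cases h2 : v = y
    · subst h2
      rw [if_pos (Or.inr rfl), if_neg h1, if_pos rfl, key v hy, sub_zero]
    · rw [if_neg (not_or.2 ⟨h1, h2⟩), if_neg h1, if_neg h2, sub_zero, sub_zero, add_zero]

theorem gg_exact (d : ℕ) (A B : Finset (Sym2 (Fin n))) (x y : Fin n) (hn : Even (n * d)) (hA : ND A) (hB : ND B)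
    (hE : 2 < EE d A) (hV : Val d A B x y) :
    gL (ell d) d A B x y = - Real.log (1 - 1 / EE d A) + (bet d A B x y - 1) / (EE d A - 2)
      - (rd d A x - 1 + (rd d A y - 1) - D2 d A / EE d A) ^ 2 / (EE d A - 2) ^ 2 := by
  obtain ⟨hxy, h, h', hx, hy⟩ := hV
  have hLF : LF (n * d / 2 - (insert s(x, y) A).card) =
      LF (n * d / 2 - A.card) - Real.log (EE d A - 1) := by
    obtain ⟨m, hm⟩ := hn
    have hm2 : n * d / 2 = m := by omega
    have hmE : EE d A = 2 * (m : ℝ) - 2 * A.card := by
      unfold EE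
      have : (n : ℝ) * d = m + m := by exact_mod_cast hm
      rw [this]
      ring
    have hlt : A.card + 1 < m := by
      rw [hmE] at hE
      have : (A.card : ℝ) + 1 < m := by linarith
      exact_mod_cast this
    obtain ⟨j, hj⟩ : ∃ j, m - A.card = j + 1 := ⟨m - A.card - 1, by omega⟩
    have hj2 : m - (A.card + 1) = j := by omega
    have hjE : EE d A - 1 = 2 * (j : ℝ) + 1 := by
      rw [hmE]
      have h1 : m = j + 1 + A.card := by omega
      have h2 : (m : ℝ) = j + 1 + A.card := by exact_mod_cast h1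
      rw [h2]
      ring
    rw [Finset.card_insert_of_notMem h, hm2, hj, hj2, hjE]
    unfold LF
    rw [Finset.sum_range_succ]
    ring
  have hsum : ∑ v, Real.log ((d - dg (insert s(x, y) A) v).factorial) =
      ∑ v, Real.log ((d - dg A v).factorial) - Real.log (rd d A x) - Real.log (rd d A y) := by
    rw [Finset.sum_congr rfl fun v _ => j0_fact d A x y v hxy h hx hy, Finset.sum_sub_distrib,
      Finset.sum_sub_distrib, Finset.sum_ite_eq', Finset.sum_ite_eq', if_pos (Finset.mem_univ _),
      if_pos (Finset.mem_univ _)]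
  have hrx : 0 < rd d A x := by
    unfold rd
    have : (dg A x : ℝ) < d := by exact_mod_cast hx
    linarith
  have hry : 0 < rd d A y := by
    unfold rd
    have : (dg A y : ℝ) < d := by exact_mod_cast hy
    linarith
  have hE0 : 0 < EE d A := by linarith
  have hE1 : 0 < EE d A - 1 := by linarith
  have hE2 : EE d A - 2 ≠ 0 := by linarith
  have hlog1 : Real.log (rd d A x * rd d A y / EE d A) =
      Real.log (rd d A x) + Real.log (rd d A y) - Real.log (EE d A) := by
    rw [Real.log_div (by positivity) hE0.ne', Real.log_mul hrx.ne' hry.ne']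
  have hlog2 : Real.log (1 - 1 / EE d A) = Real.log (EE d A - 1) - Real.log (EE d A) := by
    rw [← Real.log_div hE1.ne' hE0.ne']
    congr 1
    field_simp
  unfold gL ell
  rw [hLF, hsum, EE_insert d A x y h, D2_insert d A x y hxy h,
    QQ_insert d A B x y hA hB hxy h h', hlog1, hlog2]
  unfold bet
  generalize EE d A = E at *
  generalize D2 d A = D at *
  generalize QQ d A B = Q at *
  generalize rd d A x = a at *
  generalize rd d A y = b at *
  generalize TT d A B x = t at *
  generalize TT d A B y = u at *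
  generalize LF (n * d / 2 - A.card) = l at *
  have key : -((D - 2 * (a - 1) - 2 * (b - 1)) / (2 * (E - 2))) -
      (D - 2 * (a - 1) - 2 * (b - 1)) ^ 2 / (4 * (E - 2) ^ 2) -
      (Q - 2 * t - 2 * u + 2 * (a - 1) * (b - 1)) / (2 * (E - 2)) +
      D / (2 * E) + D ^ 2 / (4 * E ^ 2) + Q / (2 * E) =
      (1 + (a - 1) + (b - 1) - D / E - (a - 1 - D / E) * (b - 1 - D / E) + t + u - Q / E - 1) /
        (E - 2) - (a - 1 + (b - 1) - D / E) ^ 2 / (E - 2) ^ 2 := by
    field_simp
    ring
  linear_combination key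

end MJ0

export MJ0 (dg_insert rd_insert EE_insert sum_rd D2_insert TT_insert_left TT_insert_right TT_insert_other QQ_insert gg_exact)

end Pool.Agent.H698NC
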