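import Pool.Agent.H698NC.Defs
import Pool.Agent.H698NC.DefsE
import Pool.Agent.H698NC.J0

set_option autoImplicit false

namespace Pool.Agent.H698NC

open Finset

namespace ME

variable {n : ℕ}

section aux

open scoped Classical

theorem aux_mem_es {G : SimpleGraph (Fin n)} {v w : Fin n} : s(v, w) ∈ es G ↔ G.Adj v w := by
  simp [es]

theorem aux_mem_nbr {A : Finset (Sym2 (Fin n))} {v w : Fin n} : w ∈ nbr A v ↔ s(v, w) ∈ A := by
  simp [nbr]

theorem aux_nd_es (G : SimpleGraph (Fin n)) : ND (es G) := by
  intro e he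
  simp only [es, mem_filter, mem_univ, true_and] at he
  exact G.not_isDiag_of_mem_edgeSet he

theorem aux_sum_dg (A : Finset (Sym2 (Fin n))) (hA : ND A) : ∑ v, dg A v = 2 * A.card := by
  have h := sum_rd 0 A hA
  simp only [rd, EE, Nat.cast_zero, zero_sub, mul_zero, Finset.sum_neg_distrib, neg_inj] at h
  exact_mod_cast h

theorem aux_reg {M : SimpleGraph (Fin n)} (hM : M ∈ RG n 1) (v : Fin n) :
    ∃ w, ∀ u, M.Adj v u ↔ u = w := by
  have h1 : Reg M 1 := (mem_filter.1 hM).2
  obtain ⟨w, hw⟩ := Set.ncard_eq_one.1 (h1 v)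
  refine ⟨w, fun u => ?_⟩
  rw [← SimpleGraph.mem_neighborSet, hw, Set.mem_singleton_iff]

theorem aux_dg_es {M : SimpleGraph (Fin n)} (hM : M ∈ RG n 1) (v : Fin n) : dg (es M) v = 1 := by
  obtain ⟨w, hw⟩ := aux_reg hM v
  unfold dg
  rw [Finset.card_eq_one]
  refine ⟨w, ?_⟩
  ext u
  rw [aux_mem_nbr, aux_mem_es, hw, mem_singleton]

theorem aux_dg_mono {A B : Finset (Sym2 (Fin n))} (h : A ⊆ B) (v : Fin n) : dg A v ≤ dg B v := by
  refine card_le_card fun w hw => ?_
  rw [aux_mem_nbr] at hw ⊢
  exact h hw

theorem aux_zero {A : Finset (Sym2 (Fin n))} (hA : ND A) (h1 : ∀ v, dg A v ≤ 1) :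
    (univ.filter (fun v => dg A v = 0)).card + 2 * A.card = n := by
  have h2 := aux_sum_dg A hA
  have h3 : ∀ v, (if dg A v = 0 then 1 else 0) + dg A v = 1 := by
    intro v
    have := h1 v
    split_ifs with h
    · omega
    · omega
  rw [card_filter, ← h2, ← sum_add_distrib, Finset.sum_congr rfl (fun v _ => h3 v)]
  simp

theorem aux_uniq {A : Finset (Sym2 (Fin n))} (hA : ND A) (h1 : ∀ v, dg A v = 1) :
    ((RG n 1).filter (fun M => A ⊆ es M)).card = 1 := by
  rw [card_eq_one]
  have hp : ∀ v, ∃ w, nbr A v = {w} := fun v => card_eq_one.1 (h1 v)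
  choose p hp using hp
  have hp' : ∀ v w, s(v, w) ∈ A ↔ w = p v := by
    intro v w
    rw [← aux_mem_nbr, hp, mem_singleton]
  refine ⟨SimpleGraph.fromEdgeSet (A : Set (Sym2 (Fin n))), ?_⟩
  have hadj : ∀ v w, (SimpleGraph.fromEdgeSet (A : Set (Sym2 (Fin n)))).Adj v w ↔ s(v, w) ∈ A := by
    intro v w
    rw [SimpleGraph.fromEdgeSet_adj]
    constructor
    · intro h; exact h.1
    · intro h
      refine ⟨h, ?_⟩
      rintro rfl
      exact hA _ h rfl
  ext M
  rw [mem_filter, mem_singleton]
  constructor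
  · rintro ⟨hM, hAM⟩
    ext v w
    rw [hadj]
    obtain ⟨u, hu⟩ := aux_reg hM v
    have h2 : M.Adj v (p v) := aux_mem_es.1 (hAM ((hp' v (p v)).2 rfl))
    have h3 := (hu _).1 h2
    rw [hu, hp', h3]
  · rintro rfl
    refine ⟨?_, ?_⟩
    · unfold RG
      rw [mem_filter]
      refine ⟨mem_univ _, fun v => ?_⟩
      rw [Set.ncard_eq_one]
      refine ⟨p v, ?_⟩
      ext w
      rw [SimpleGraph.mem_neighborSet, hadj, hp', Set.mem_singleton_iff]
    · intro e he
      induction e using Sym2.ind with
      | _ v w => rw [aux_mem_es, hadj]; exact he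

theorem aux_cnt (j : ℕ) : ∀ (A : Finset (Sym2 (Fin n))) (_ : ND A) (_ : ∀ v, dg A v ≤ 1)
    (_ : 2 * A.card + 2 * j = n),
    ((RG n 1).filter (fun M => A ⊆ es M)).card = (2 * j - 1).doubleFactorial := by
  induction j with
  | zero =>
    intro A hA h1 hj
    have h2 := aux_zero hA h1
    have h3 : (univ.filter (fun v => dg A v = 0)).card = 0 := by omega
    rw [card_eq_zero, filter_eq_empty_iff] at h3
    rw [aux_uniq hA (fun v => ?_)]
    · rfl
    · have := h1 v
      have := h3 (mem_univ v)
      omega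
  | succ j ih =>
    intro A hA h1 hj
    have h2 := aux_zero hA h1
    set Z := univ.filter (fun v => dg A v = 0) with hZ
    have hZc : Z.card = 2 * j + 2 := by omega
    obtain ⟨x, hx⟩ : Z.Nonempty := by rw [← card_pos]; omega
    have hx0 : dg A x = 0 := (mem_filter.1 hx).2
    have hno : ∀ v, dg A v = 0 → ∀ w, s(v, w) ∉ A := by
      intro v hv w hw
      rw [dg, card_eq_zero] at hv
      have := aux_mem_nbr.2 hw
      rw [hv] at this
      simp at this
    have hdec : (RG n 1).filter (fun M => A ⊆ es M) =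
        (Z.erase x).biUnion (fun z => (RG n 1).filter (fun M => insert s(x, z) A ⊆ es M)) := by
      ext M
      simp only [mem_filter, mem_biUnion, mem_erase, insert_subset_iff]
      constructor
      · rintro ⟨hM, hAM⟩
        obtain ⟨z, hz⟩ := aux_reg hM x
        have hxz : M.Adj x z := (hz z).2 rfl
        refine ⟨z, ⟨hxz.ne', ?_⟩, hM, aux_mem_es.2 hxz, hAM⟩
        rw [hZ, mem_filter]
        refine ⟨mem_univ _, ?_⟩
        rw [dg, card_eq_zero]
        by_contra hne
        obtain ⟨w, hw⟩ := nonempty_iff_ne_empty.2 hne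
        rw [aux_mem_nbr] at hw
        have hzw : M.Adj z w := aux_mem_es.1 (hAM hw)
        obtain ⟨u, hu⟩ := aux_reg hM z
        have e1 := (hu _).1 hzw
        have e2 := (hu _).1 hxz.symm
        rw [e1, ← e2, Sym2.eq_swap] at hw
        exact hno x hx0 z hw
      · rintro ⟨z, -, hM, -, hAM⟩
        exact ⟨hM, hAM⟩
    rw [hdec, card_biUnion]
    · have hterm : ∀ z ∈ Z.erase x,
          ((RG n 1).filter (fun M => insert s(x, z) A ⊆ es M)).card = (2 * j - 1).doubleFactorial := by
        intro z hz
        rw [mem_erase] at hz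
        have hz0 : dg A z = 0 := (mem_filter.1 hz.2).2
        refine ih _ ?_ ?_ ?_
        · intro e he
          rcases mem_insert.1 he with rfl | he
          · rw [Sym2.mk_isDiag_iff]; exact hz.1.symm
          · exact hA e he
        · intro v
          by_cases hvx : v = x
          · subst hvx
            have : nbr (insert s(v, z) A) v ⊆ {z} := by
              intro w hw
              rw [aux_mem_nbr, mem_insert] at hw
              rcases hw with hw | hw
              · rw [Sym2.congr_right] at hw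
                rw [mem_singleton]; exact hw
              · exact absurd hw (hno _ hx0 _)
            exact card_le_card this
          by_cases hvz : v = z
          · subst hvz
            have : nbr (insert s(x, v) A) v ⊆ {x} := by
              intro w hw
              rw [aux_mem_nbr, mem_insert] at hw
              rcases hw with hw | hw
              · rw [Sym2.eq_swap (a := x), Sym2.congr_right] at hw
                rw [mem_singleton]; exact hw
              · exact absurd hw (hno _ hz0 _)
            exact card_le_card this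
          · refine le_trans ?_ (h1 v)
            refine card_le_card fun w hw => ?_
            rw [aux_mem_nbr, mem_insert] at hw
            rcases hw with hw | hw
            · rw [Sym2.eq_iff] at hw
              rcases hw with ⟨h, -⟩ | ⟨h, -⟩
              · exact absurd h hvx
              · exact absurd h hvz
            · exact aux_mem_nbr.2 hw
        · rw [card_insert_of_notMem (hno x hx0 z)]
          omega
      rw [sum_congr rfl hterm, sum_const, card_erase_of_mem hx, hZc, smul_eq_mul,
        show 2 * (j + 1) - 1 = 2 * j + 1 by omega, Nat.doubleFactorial_add_one]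
      rfl
    · intro z hz z' hz' hne
      rw [Function.onFun, disjoint_left]
      intro M hM hM'
      rw [mem_filter, insert_subset_iff] at hM hM'
      obtain ⟨w, hw⟩ := aux_reg hM.1 x
      have e1 := (hw _).1 (aux_mem_es.1 hM.2.1)
      have e2 := (hw _).1 (aux_mem_es.1 hM'.2.1)
      exact hne (e1.trans e2.symm)

theorem aux_card_es {M : SimpleGraph (Fin n)} (hM : M ∈ RG n 1) : 2 * (es M).card = n := by
  rw [← aux_sum_dg _ (aux_nd_es M), Finset.sum_congr rfl (fun v _ => aux_dg_es hM v)]
  simp

theorem aux_pow {R : Type*} [CommRing R] (T : Finset (Sym2 (Fin n))) (Y : R) :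
    (1 + Y) ^ T.card = ∑ S ∈ T.powerset, Y ^ S.card := by
  rw [← prod_const, prod_one_add]
  simp

theorem aux_gf {R : Type*} [CommRing R] {M : SimpleGraph (Fin n)} (hM : M ∈ RG n 1)
    (Y : R) : ∑ M' ∈ RG n 1, (1 + Y) ^ (es M ∩ es M').card =
      ∑ i ∈ range (n / 2 + 1), ((n / 2).choose i : R) * ((n - 2 * i - 1).doubleFactorial : R) *
        Y ^ i := by
  have hc := aux_card_es hM
  have hc2 : (es M).card = n / 2 := by omega
  have h1 : ∀ M' ∈ RG n 1, (1 + Y) ^ (es M ∩ es M').card =
      ∑ S ∈ (es M).powerset, if S ⊆ es M' then Y ^ S.card else 0 := by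
    intro M' _
    rw [aux_pow, ← sum_filter]
    refine sum_congr ?_ fun _ _ => rfl
    ext S
    rw [mem_powerset, mem_filter, mem_powerset, subset_inter_iff]
  rw [sum_congr rfl h1, sum_comm]
  have h2 : ∀ S ∈ (es M).powerset, (∑ M' ∈ RG n 1, if S ⊆ es M' then Y ^ S.card else 0) =
      (fun k : ℕ => ((n - 2 * k - 1).doubleFactorial : R) * Y ^ k) S.card := by
    intro S hS
    rw [mem_powerset] at hS
    have hcnt := aux_cnt (n := n) (n / 2 - S.card) S (fun e he => aux_nd_es M e (hS he))
      (fun v => (aux_dg_mono hS v).trans (aux_dg_es hM v).le) (by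
        have := card_le_card hS
        omega)
    rw [← sum_filter, sum_const, hcnt, nsmul_eq_mul]
    simp only
    congr 3
    omega
  rw [sum_congr rfl h2, sum_powerset_apply_card
    (fun k : ℕ => ((n - 2 * k - 1).doubleFactorial : R) * Y ^ k), hc2]
  refine sum_congr rfl fun i _ => ?_
  rw [nsmul_eq_mul, mul_assoc]

end aux

open scoped Classical in
/-- TARGET 1 -/
theorem pm_cnt (hn : Even n) (A : Finset (Sym2 (Fin n))) (hA : ND A) (h1 : ∀ v, dg A v ≤ 1) :
    ((RG n 1).filter (fun M => A ⊆ es M)).card = (n - 2 * A.card - 1).doubleFactorial := by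
  have h2 := aux_zero hA h1
  obtain ⟨m, hm⟩ := hn
  have h3 : 2 * A.card + 2 * (m - A.card) = n := by omega
  rw [aux_cnt (m - A.card) A hA h1 h3]
  congr 1
  omega

open scoped Classical in
/-- TARGET 2 -/
theorem pm_inter (hn : Even n) (M : SimpleGraph (Fin n)) (hM : M ∈ RG n 1) (J : ℕ) :
    (((RG n 1).filter (fun M' => (es M ∩ es M').card = J)).card : ℤ) = ((n / 2).choose J : ℤ) * Dn (n / 2 - J) := by
  have hc := aux_card_es hM
  set N := n / 2 with hN
  have hnN : n = 2 * N := by omega
  have h1 := congrArg (fun P : Polynomial ℤ => P.coeff J)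
    (aux_gf (R := Polynomial ℤ) hM (Polynomial.X - 1))
  simp only [Polynomial.finsetSum_coeff, add_sub_cancel, Polynomial.coeff_X_pow] at h1
  rw [card_filter]
  push_cast
  have h2 : ∀ M' ∈ RG n 1, (if (es M ∩ es M').card = J then (1 : ℤ) else 0) =
      if J = (es M ∩ es M').card then (1 : ℤ) else 0 := by
    intro M' _
    exact if_congr eq_comm rfl rfl
  rw [sum_congr rfl h2, h1]
  have h3 : ∀ i ∈ range (n / 2 + 1), ((((n / 2).choose i : ℕ) : Polynomial ℤ) *
      (((n - 2 * i - 1).doubleFactorial : ℕ) : Polynomial ℤ) *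
        (Polynomial.X - 1) ^ i).coeff J = ((n / 2).choose i : ℤ) *
      ((n - 2 * i - 1).doubleFactorial : ℤ) * ((-1) ^ (i - J) * (i.choose J : ℤ)) := by
    intro i _
    rw [← Nat.cast_mul, Polynomial.coeff_natCast_mul,
      show (Polynomial.X - 1 : Polynomial ℤ) = Polynomial.X + Polynomial.C (-1) by
        rw [Polynomial.C_neg, Polynomial.C_1, sub_eq_add_neg],
      Polynomial.coeff_X_add_C_pow]
    push_cast
    ring
  rw [sum_congr rfl h3, ← hN]
  by_cases hJ : J ≤ N
  · have h4 : N + 1 = J + (N - J + 1) := by omega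
    rw [h4, sum_range_add]
    have h5 : ∑ i ∈ range J, ((N.choose i : ℤ) * ((n - 2 * i - 1).doubleFactorial : ℤ) *
        ((-1) ^ (i - J) * (i.choose J : ℤ))) = 0 := by
      refine sum_eq_zero fun i hi => ?_
      rw [Nat.choose_eq_zero_of_lt (mem_range.1 hi)]
      simp
    rw [h5, zero_add, Dn, mul_sum]
    refine sum_congr rfl fun i hi => ?_
    have hi' : i ≤ N - J := by have := mem_range.1 hi; omega
    have h6 := Nat.choose_mul (n := N) (k := J + i) (s := J) (by omega)
    rw [Nat.add_sub_cancel_left] at h6 ⊢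
    have h7 : 2 * (N - J - i) - 1 = n - 2 * (J + i) - 1 := by omega
    rw [h7]
    have h8 : ((N.choose (J + i) : ℤ)) * ((J + i).choose J : ℤ) =
        (N.choose J : ℤ) * ((N - J).choose i : ℤ) := by exact_mod_cast h6
    linear_combination ((-1) ^ i * ((n - 2 * (J + i) - 1).doubleFactorial : ℤ)) * h8
  · rw [Nat.choose_eq_zero_of_lt (by omega : N < J)]
    rw [Nat.cast_zero, zero_mul]
    refine sum_eq_zero fun i hi => ?_
    have := mem_range.1 hi
    rw [Nat.choose_eq_zero_of_lt (by omega : i < J)]
    simp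

open scoped Classical in
/-- TARGET 3: the generating function of the size of the intersection -/
theorem pm_gf (hn : Even n) (M : SimpleGraph (Fin n)) (hM : M ∈ RG n 1) (X : ℝ) :
    ∑ M' ∈ RG n 1, X ^ (es M ∩ es M').card
      = ∑ i ∈ range (n / 2 + 1), ((n / 2).choose i : ℝ) * ((n - 2 * i - 1).doubleFactorial : ℝ) * (X - 1) ^ i := by
  rw [← aux_gf hM (X - 1)]
  refine sum_congr rfl fun M' _ => ?_
  rw [add_sub_cancel]

end ME

export ME (pm_cnt pm_inter pm_gf)

end Pool.Agent.H698NC
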