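import Pool.Agent.H698NC.DefsE

set_option autoImplicit false

namespace Pool.Agent.H698NC

open Finset

namespace MF1



theorem df_odd (m : ℕ) : (2 * (m + 1) - 1).doubleFactorial = (2 * m + 1) * (2 * m - 1).doubleFactorial := by
  cases m with
  | zero => rfl
  | succ m =>
    have h1 : 2 * (m + 1 + 1) - 1 = (2 * (m + 1) - 1) + 2 := by omega
    have h2 : 2 * (m + 1) + 1 = (2 * (m + 1) - 1) + 2 := by omega
    rw [h1, Nat.doubleFactorial_add_two, h2]

/-- `q k i = 2^i i! C(k,i) (2(k-i)-1)!! / (2k-1)!!` -/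
noncomputable def q (k i : ℕ) : ℝ :=
  2 ^ i * (i.factorial : ℝ) * ((k.choose i : ℝ) * ((2 * (k - i) - 1).doubleFactorial : ℝ)) /
    ((2 * k - 1).doubleFactorial : ℝ)

theorem df_pos (m : ℕ) : (0 : ℝ) < (m.doubleFactorial : ℝ) := by
  exact_mod_cast Nat.doubleFactorial_pos m

theorem q_zero (k : ℕ) : q k 0 = 1 := by
  unfold q
  have := df_pos (2 * k - 1)
  simp [this.ne']

theorem q_succ (k i : ℕ) (h : i < k) :
    q k (i + 1) * (2 * (k : ℝ) - 1 - 2 * i) = q k i * (2 * (k : ℝ) - 2 * i) := by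
  unfold q
  obtain ⟨m, rfl⟩ : ∃ m, k = i + (m + 1) := ⟨k - i - 1, by omega⟩
  have e1 : i + (m + 1) - (i + 1) = m := by omega
  have e2 : i + (m + 1) - i = m + 1 := by omega
  rw [e1, e2, df_odd m]
  have hch : (i + (m + 1)).choose (i + 1) * (i + 1) = (i + (m + 1)).choose i * (m + 1) := by
    have := Nat.choose_succ_right_eq (i + (m + 1)) i
    rwa [e2] at this
  have hch' : ((i + (m + 1)).choose (i + 1) : ℝ) * (i + 1) = ((i + (m + 1)).choose i : ℝ) * (m + 1) := by
    exact_mod_cast hch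
  have hp := df_pos (2 * (i + (m + 1)) - 1)
  rw [Nat.factorial_succ]
  push_cast
  field_simp
  rw [pow_succ]
  linear_combination (2 * (2 : ℝ) ^ i * (1 + 2 * m)) * hch'

theorem q_bounds (k i : ℕ) (h : i ≤ k) : 1 ≤ q k i ∧ q k i ≤ 2 ^ i ∧ k * (q k i - 1) ≤ i * 2 ^ i := by
  induction i with
  | zero => rw [q_zero]; simp
  | succ i ih =>
    obtain ⟨h1, h2, h3⟩ := ih (by omega)
    have hs := q_succ k i (by omega)
    have hk : (i : ℝ) + 1 ≤ k := by exact_mod_cast h
    have hi0 : (0 : ℝ) ≤ i := Nat.cast_nonneg i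
    set d : ℝ := 2 * (k : ℝ) - 1 - 2 * i with hd
    have hd1 : 1 ≤ d := by rw [hd]; linarith
    have hd0 : 0 < d := by linarith
    have hq : q k (i + 1) = q k i + q k i / d := by
      field_simp
      rw [hs]
      have : (2 * (k : ℝ) - 2 * i) = d + 1 := by rw [hd]; ring
      rw [this]
    have hdiv : q k i / d ≤ q k i := by
      apply div_le_self (by linarith) hd1
    have hdiv0 : 0 ≤ q k i / d := by positivity
    refine ⟨by linarith, ?_, ?_⟩
    · rw [hq, pow_succ]; linarith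
    · -- k * (q_i - 1) + k * q_i/d ≤ i 2^i + (i+1) 2^i
      have hkd : (k : ℝ) * (q k i / d) ≤ (i + 1) * 2 ^ i := by
        rw [mul_div_assoc', div_le_iff₀ hd0]
        have h4 : (k : ℝ) ≤ (i + 1) * d := by
          rw [hd]
          nlinarith
        calc (k : ℝ) * q k i ≤ ((i + 1) * d) * 2 ^ i := by
              apply mul_le_mul h4 h2 (by linarith) (by positivity)
          _ = (i + 1) * 2 ^ i * d := by ring
      rw [hq]
      push_cast
      rw [pow_succ]
      have h5 : (0 : ℝ) ≤ 2 ^ i := by positivity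
      nlinarith

theorem ratio_eq (k : ℕ) : (Dn k : ℝ) / ((2 * k - 1).doubleFactorial : ℝ) =
    ∑ i ∈ range (k + 1), (-1 / 2 : ℝ) ^ i / (i.factorial : ℝ) * q k i := by
  unfold Dn
  push_cast
  rw [Finset.sum_div]
  refine Finset.sum_congr rfl ?_
  intro i _
  unfold q
  have hp := df_pos (2 * k - 1)
  have hf : (0 : ℝ) < (i.factorial : ℝ) := by exact_mod_cast Nat.factorial_pos i
  rw [div_pow]
  field_simp

/-- TARGET -/
theorem Dn_le : ∃ C : ℝ, 0 ≤ C ∧ ∀ k : ℕ,
    (Dn k : ℝ) ≤ ((2 * k - 1).doubleFactorial : ℝ) * (Real.exp (-1 / 2) + C / (k + 1)) := by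
  refine ⟨100, by norm_num, ?_⟩
  intro k
  have hp := df_pos (2 * k - 1)
  rw [mul_comm, ← div_le_iff₀ hp]
  rcases Nat.eq_zero_or_pos k with rfl | hk
  · rw [ratio_eq]
    simp [q_zero]
    have := Real.exp_pos (-1 / 2)
    linarith
  have hkR : (1 : ℝ) ≤ k := by exact_mod_cast hk
  rw [ratio_eq]
  have hsplit : ∑ i ∈ range (k + 1), (-1 / 2 : ℝ) ^ i / (i.factorial : ℝ) * q k i
      = ∑ i ∈ range (k + 1), (-1 / 2 : ℝ) ^ i / (i.factorial : ℝ) +
        ∑ i ∈ range (k + 1), (-1 / 2 : ℝ) ^ i / (i.factorial : ℝ) * (q k i - 1) := by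
    rw [← Finset.sum_add_distrib]
    refine Finset.sum_congr rfl ?_
    intro i _
    ring
  rw [hsplit]
  have h1 : ∑ i ∈ range (k + 1), (-1 / 2 : ℝ) ^ i / (i.factorial : ℝ) * (q k i - 1) ≤ 3 / k := by
    have hterm : ∀ i ∈ range (k + 1), (-1 / 2 : ℝ) ^ i / (i.factorial : ℝ) * (q k i - 1) ≤
        (i : ℝ) / (i.factorial : ℝ) / k := by
      intro i hi
      obtain ⟨a1, a2, a3⟩ := q_bounds k i (by simpa [Nat.lt_succ_iff] using hi)
      have hf : (0 : ℝ) < (i.factorial : ℝ) := by exact_mod_cast Nat.factorial_pos i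
      have hle : (-1 / 2 : ℝ) ^ i ≤ (1 / 2) ^ i := by
        calc (-1 / 2 : ℝ) ^ i ≤ |(-1 / 2 : ℝ) ^ i| := le_abs_self _
          _ = (1 / 2) ^ i := by rw [abs_pow]; norm_num
      have hq1 : q k i - 1 ≤ i * 2 ^ i / k := by
        rw [le_div_iff₀ (by linarith)]; linarith
      calc (-1 / 2 : ℝ) ^ i / (i.factorial : ℝ) * (q k i - 1)
          ≤ (1 / 2) ^ i / (i.factorial : ℝ) * (i * 2 ^ i / k) := by
            apply mul_le_mul _ hq1 (by linarith) (by positivity)
            gcongr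
        _ = (i : ℝ) / (i.factorial : ℝ) / k := by
            rw [div_pow, one_pow]
            field_simp
    refine (Finset.sum_le_sum hterm).trans ?_
    rw [← Finset.sum_div]
    apply div_le_div_of_nonneg_right _ (by linarith)
    rw [Finset.sum_range_succ']
    have : ∀ i ∈ range k, ((i + 1 : ℕ) : ℝ) / ((i + 1).factorial : ℝ) = 1 ^ i / (i.factorial : ℝ) := by
      intro i _
      rw [Nat.factorial_succ]
      have hf : (0 : ℝ) < (i.factorial : ℝ) := by exact_mod_cast Nat.factorial_pos i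
      push_cast
      have : (0 : ℝ) < (i : ℝ) + 1 := by positivity
      rw [one_pow]
      field_simp
    rw [Finset.sum_congr rfl this]
    have h2 := Real.sum_le_exp_of_nonneg (x := 1) (by norm_num) k
    have h3 := Real.exp_one_lt_d9
    simp only [Nat.cast_zero, zero_div, add_zero]
    linarith
  have h2 : ∑ i ∈ range (k + 1), (-1 / 2 : ℝ) ^ i / (i.factorial : ℝ) ≤
      Real.exp (-1 / 2) + 2 / (k + 1) := by
    have hb := Real.exp_bound (x := -1 / 2) (by rw [abs_le]; constructor <;> norm_num)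
      (n := k + 1) (by omega)
    have hb2 := (abs_le.mp hb).1
    have hab : |(-1 / 2 : ℝ)| = 1 / 2 := by rw [abs_of_neg] <;> norm_num
    rw [hab] at hb2
    have hpow : (1 / 2 : ℝ) ^ (k + 1) ≤ 1 / (k + 1) := by
      rw [div_pow, one_pow]
      apply div_le_div_of_nonneg_left (by norm_num) (by positivity)
      have : k + 1 ≤ 2 ^ (k + 1) := Nat.lt_two_pow_self.le
      exact_mod_cast this
    have hfac : (((k + 1).succ : ℕ) : ℝ) / (((k + 1).factorial : ℝ) * ((k + 1 : ℕ) : ℝ)) ≤ 2 := by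
      have hf1 : (1 : ℝ) ≤ ((k + 1).factorial : ℝ) := by exact_mod_cast Nat.factorial_pos (k + 1)
      rw [div_le_iff₀ (by positivity)]
      push_cast
      nlinarith
    have hprod : (1 / 2 : ℝ) ^ (k + 1) * ((((k + 1).succ : ℕ) : ℝ) / (((k + 1).factorial : ℝ) * ((k + 1 : ℕ) : ℝ)))
        ≤ 1 / (k + 1) * 2 := by
      apply mul_le_mul hpow hfac (by positivity) (by positivity)
    have : (1 : ℝ) / (k + 1) * 2 = 2 / (k + 1) := by ring
    linarith
  have h3 : (3 : ℝ) / k ≤ 6 / (k + 1) := by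
    rw [div_le_div_iff₀ (by linarith) (by linarith)]
    linarith
  have h4 : (2 : ℝ) / (k + 1) + 6 / (k + 1) ≤ 100 / (k + 1) := by
    rw [← add_div]
    apply div_le_div_of_nonneg_right _ (by linarith)
    norm_num
  linarith

end MF1

export MF1 (Dn_le)

end Pool.Agent.H698NC
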