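import Pool.Agent.H698NC.DefsE

set_option autoImplicit false

namespace Pool.Agent.H698NC

open Finset

namespace MF2



/-- primitive of the logarithm -/
noncomputable def P0_le_G (t : ℝ) : ℝ := t * Real.log t - t

/-- auxiliary function, increasing on `(h, ∞)` -/
noncomputable def P0_le_k (h x : ℝ) : ℝ := P0_le_G (x + h) - P0_le_G (x - h) - 2 * h * Real.log x

theorem P0_le_G_deriv {t : ℝ} (ht : 0 < t) : HasDerivAt P0_le_G (Real.log t) t := by
  have h1 := ((hasDerivAt_id t).mul (Real.hasDerivAt_log ht.ne')).sub (hasDerivAt_id t)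
  have h2 : (1 * Real.log t + id t * t⁻¹ - 1) = Real.log t := by
    simp only [id]
    field_simp
    ring
  rw [h2] at h1
  exact h1

theorem P0_le_log {h x : ℝ} (hh : 0 < h) (hx : h < x) :
    2 * h * x⁻¹ ≤ Real.log (x + h) - Real.log (x - h) := by
  have hx0 : 0 < x := hh.trans hx
  set u : ℝ := h / x with hu
  have hu0 : 0 < u := by positivity
  have hu1 : u < 1 := by rw [hu, div_lt_one hx0]; exact hx
  have hs := Real.hasSum_log_sub_log_of_abs_lt_one (x := u) (by rw [abs_of_pos hu0]; exact hu1)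
  have h1 := sum_le_hasSum {0} (fun k _ => by positivity) hs
  simp only [sum_singleton] at h1
  have h2 : Real.log (x + h) = Real.log x + Real.log (1 + u) := by
    rw [← Real.log_mul hx0.ne' (by positivity)]
    congr 1
    rw [hu]
    field_simp
  have h3 : Real.log (x - h) = Real.log x + Real.log (1 - u) := by
    rw [← Real.log_mul hx0.ne' (by linarith)]
    congr 1
    rw [hu]
    field_simp
  rw [h2, h3]
  have h4 : 2 * h * x⁻¹ = 2 * u := by rw [hu]; field_simp
  rw [h4]
  norm_num at h1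
  linarith

theorem P0_le_mono {h : ℝ} (hh : 0 < h) : MonotoneOn (P0_le_k h) (Set.Ioi h) := by
  have hd : ∀ x ∈ Set.Ioi h, HasDerivAt (P0_le_k h)
      (Real.log (x + h) - Real.log (x - h) - 2 * h * x⁻¹) x := by
    intro x hx
    have hx' : h < x := hx
    have hx0 : 0 < x := hh.trans hx'
    have e1 : HasDerivAt (fun y => P0_le_G (y + h)) (Real.log (x + h)) x :=
      (P0_le_G_deriv (by linarith : 0 < x + h)).comp_add_const x h
    have e2 : HasDerivAt (fun y => P0_le_G (y - h)) (Real.log (x - h)) x :=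
      (P0_le_G_deriv (by linarith : 0 < x - h)).comp_sub_const x h
    exact (e1.sub e2).sub ((Real.hasDerivAt_log hx0.ne').const_mul (2 * h))
  apply monotoneOn_of_deriv_nonneg (convex_Ioi h)
  · intro x hx
    exact (hd x hx).continuousAt.continuousWithinAt
  · intro x hx
    rw [interior_Ioi] at hx
    exact (hd x hx).differentiableAt.differentiableWithinAt
  · intro x hx
    rw [interior_Ioi] at hx
    rw [(hd x hx).deriv]
    have := P0_le_log hh hx
    linarith

/-- TARGET -/
theorem P0_le (n d : ℕ) (hn : Even n) (h2 : 2 ≤ n) (hd : 3 ≤ d) :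
    (n : ℝ) * Real.log (((d : ℝ) - 1) / d) + LF (n * d / 2) + LF (n * d / 2 - n) - 2 * LF (n * d / 2 - n / 2)
      - (((n : ℝ) * ((d : ℝ) - 2) + 1) / 2) * Real.log (1 - 1 / ((d : ℝ) - 1) ^ 2)
      ≤ Real.log (((d : ℝ) - 1) / √((d : ℝ) * ((d : ℝ) - 2))) := by
  obtain ⟨m, rfl⟩ := hn
  obtain ⟨e, rfl⟩ : ∃ e, d = e + 2 := ⟨d - 2, by omega⟩
  have hm : 1 ≤ m := by omega
  have he : 1 ≤ e := by omega
  have a1 : (m + m) * (e + 2) / 2 = m * e + m + m := by
    rw [show (m + m) * (e + 2) = (m * e + m + m) * 2 by ring]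
    exact Nat.mul_div_cancel _ (by norm_num)
  have a2 : m * e + m + m - (m + m) = m * e := by omega
  have a3 : m * e + m + m - (m + m) / 2 = m * e + m := by omega
  rw [a1, a2, a3]
  have hLF : ∀ k : ℕ, LF (k + m) = LF k + ∑ i ∈ range m, Real.log (2 * ((k + i : ℕ) : ℝ) + 1) := by
    intro k
    unfold LF
    rw [sum_range_add]
  have hmr : (1 : ℝ) ≤ m := by exact_mod_cast hm
  have her : (1 : ℝ) ≤ e := by exact_mod_cast he
  have hm0 : (0 : ℝ) < m := by linarith
  set h : ℝ := 1 / (2 * m) with hh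
  have hh0 : 0 < h := by positivity
  -- the sum
  have hS : LF (m * e + m + m) + LF (m * e) - 2 * LF (m * e + m) =
      ∑ i ∈ range m, (Real.log (2 * ((m * e + m + i : ℕ) : ℝ) + 1) -
        Real.log (2 * ((m * e + i : ℕ) : ℝ) + 1)) := by
    rw [hLF (m * e + m), hLF (m * e), sum_sub_distrib]
    ring
  have hterm : ∀ i ∈ range m, Real.log (2 * ((m * e + m + i : ℕ) : ℝ) + 1) -
        Real.log (2 * ((m * e + i : ℕ) : ℝ) + 1) ≤
      m * ((P0_le_G ((e : ℝ) + 1 + ((i + 1 : ℕ) : ℝ) / m) - P0_le_G ((e : ℝ) + ((i + 1 : ℕ) : ℝ) / m)) -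
        (P0_le_G ((e : ℝ) + 1 + (i : ℝ) / m) - P0_le_G ((e : ℝ) + (i : ℝ) / m))) := by
    intro i _
    have hi0 : (0 : ℝ) ≤ i := Nat.cast_nonneg i
    set y : ℝ := (e : ℝ) + (2 * i + 1) * h with hy
    have hyh : h < y := by nlinarith
    have hmono := P0_le_mono hh0 (show y ∈ Set.Ioi h from hyh)
      (show y + 1 ∈ Set.Ioi h from lt_trans hyh (by linarith)) (by linarith)
    unfold P0_le_k at hmono
    have e1 : y + h = (e : ℝ) + ((i + 1 : ℕ) : ℝ) / m := by
      rw [hy, hh]; push_cast; field_simp; ring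
    have e2 : y - h = (e : ℝ) + (i : ℝ) / m := by
      rw [hy, hh]; field_simp; ring
    have e3 : y + 1 + h = (e : ℝ) + 1 + ((i + 1 : ℕ) : ℝ) / m := by
      rw [hy, hh]; push_cast; field_simp; ring
    have e4 : y + 1 - h = (e : ℝ) + 1 + (i : ℝ) / m := by
      rw [hy, hh]; field_simp; ring
    rw [e1, e2, e3, e4] at hmono
    have hy0 : 0 < y := hh0.trans hyh
    have f1 : Real.log (2 * ((m * e + m + i : ℕ) : ℝ) + 1) = Real.log (2 * m) + Real.log (y + 1) := by
      rw [← Real.log_mul (by positivity) (by positivity)]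
      congr 1
      rw [hy, hh]; push_cast; field_simp; ring
    have f2 : Real.log (2 * ((m * e + i : ℕ) : ℝ) + 1) = Real.log (2 * m) + Real.log y := by
      rw [← Real.log_mul (by positivity) (by positivity)]
      congr 1
      rw [hy, hh]; push_cast; field_simp; ring
    rw [f1, f2]
    have g1 : 2 * h * Real.log (y + 1) - 2 * h * Real.log y ≤
        (P0_le_G ((e : ℝ) + 1 + ((i + 1 : ℕ) : ℝ) / m) - P0_le_G ((e : ℝ) + ((i + 1 : ℕ) : ℝ) / m)) -
        (P0_le_G ((e : ℝ) + 1 + (i : ℝ) / m) - P0_le_G ((e : ℝ) + (i : ℝ) / m)) := by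
      linarith
    have g2 := mul_le_mul_of_nonneg_left g1 hm0.le
    have g3 : m * (2 * h * Real.log (y + 1) - 2 * h * Real.log y) =
        Real.log (y + 1) - Real.log y := by
      rw [hh]; field_simp
    rw [g3] at g2
    linarith
  have hsum := sum_le_sum hterm
  rw [← hS, ← mul_sum, sum_range_sub (fun i : ℕ => P0_le_G ((e : ℝ) + 1 + (i : ℝ) / m) -
    P0_le_G ((e : ℝ) + (i : ℝ) / m)) m] at hsum
  have hmm : (m : ℝ) / m = 1 := div_self hm0.ne'
  simp only [hmm, Nat.cast_zero, zero_div, add_zero] at hsum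
  unfold P0_le_G at hsum
  have he0 : (0 : ℝ) < e := by linarith
  have k1 : Real.log (((e + 2 : ℕ) : ℝ) - 1) = Real.log (e + 1) := by
    congr 1; push_cast; ring
  have k2 : Real.log ((((e + 2 : ℕ) : ℝ) - 1) / ((e + 2 : ℕ) : ℝ)) =
      Real.log (e + 1) - Real.log (e + 2) := by
    rw [← Real.log_div (by positivity) (by positivity)]
    congr 1
    push_cast
    ring
  have k3 : Real.log (1 - 1 / (((e + 2 : ℕ) : ℝ) - 1) ^ 2) =
      Real.log (e + 2) + Real.log e - 2 * Real.log (e + 1) := by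
    have : (2 : ℝ) * Real.log (e + 1) = Real.log ((e + 1) ^ 2) := by
      rw [Real.log_pow]; norm_num
    rw [this, ← Real.log_mul (by positivity) (by positivity),
      ← Real.log_div (by positivity) (by positivity)]
    congr 1
    push_cast
    have h5 : ((e : ℝ) + 2 - 1) = e + 1 := by ring
    rw [h5]
    field_simp
    ring
  have k4 : Real.log ((((e + 2 : ℕ) : ℝ) - 1) / √(((e + 2 : ℕ) : ℝ) * (((e + 2 : ℕ) : ℝ) - 2))) =
      Real.log (e + 1) - (Real.log (e + 2) + Real.log e) / 2 := by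
    have h5 : (((e + 2 : ℕ) : ℝ) - 1) = e + 1 := by push_cast; ring
    have h6 : (((e + 2 : ℕ) : ℝ) * (((e + 2 : ℕ) : ℝ) - 2)) = (e + 2) * e := by push_cast; ring
    rw [h5, h6, Real.log_div (by positivity) (by positivity), Real.log_sqrt (by positivity),
      Real.log_mul (by positivity) (by positivity)]
  rw [k2, k3, k4]
  have h7 : ((e : ℝ) + 1 + 1) = e + 2 := by ring
  rw [h7] at hsum
  push_cast
  nlinarith [hsum]

end MF2

export MF2 (P0_le)

end Pool.Agent.H698NC
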