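import Pool.Agent.H698NC.DefsE

set_option autoImplicit false

namespace Pool.Agent.H698NC

open Finset

namespace MF3



theorem prod_eq_ascPochhammer (a : ℝ) (J : ℕ) :
    ∏ t ∈ range J, (a + t) = (ascPochhammer ℝ J).eval a := by
  induction J with
  | zero => simp
  | succ J ih => rw [prod_range_succ, ih, ascPochhammer_succ_eval]

theorem W_eq (a q : ℝ) (J : ℕ) : W a q J = Ring.choose (a + J - 1) J * q ^ J := by
  have h1 := Ring.factorial_nsmul_multichoose_eq_ascPochhammer a J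
  rw [Polynomial.ascPochhammer_smeval_eq_eval, ← prod_eq_ascPochhammer, Ring.multichoose_eq,
    nsmul_eq_mul] at h1
  have h2 : (J.factorial : ℝ) ≠ 0 := by exact_mod_cast J.factorial_ne_zero
  rw [W, ← h1, mul_div_cancel_left₀ _ h2]

/-- TARGET 1 -/
theorem nb_sum (a q : ℝ) (ha : 0 < a) (h0 : 0 ≤ q) (h1 : q < 1) : HasSum (W a q) ((1 - q) ^ (-a)) := by
  have h := Real.one_div_one_sub_rpow_hasFPowerSeriesOnBall_zero a
  have hq : q ∈ Metric.eball (0 : ℝ) 1 := by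
    rw [← ENNReal.ofReal_one, Metric.eball_ofReal]
    simpa [abs_of_nonneg h0] using h1
  have h2 := h.hasSum hq
  rw [zero_add] at h2
  have h3 : (1 : ℝ) / (1 - q) ^ a = (1 - q) ^ (-a) := by
    rw [Real.rpow_neg (by linarith), one_div]
  rw [h3] at h2
  have h4 : W a q = fun n => (FormalMultilinearSeries.ofScalars ℝ
      (fun n : ℕ => Ring.choose (a + (n : ℝ) - 1) n) n) fun _ => q := by
    funext n
    rw [FormalMultilinearSeries.ofScalars_apply_eq, W_eq, smul_eq_mul]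
  rw [h4]
  exact h2

theorem W_succ (a q : ℝ) (J : ℕ) : ((J : ℝ) + 1) * W a q (J + 1) = a * q * W (a + 1) q J := by
  have h2 : (J.factorial : ℝ) ≠ 0 := by exact_mod_cast J.factorial_ne_zero
  have h3 : (J : ℝ) + 1 ≠ 0 := by positivity
  have h4 : ∏ t ∈ range (J + 1), (a + t) = a * ∏ t ∈ range J, (a + 1 + t) := by
    rw [prod_range_succ', mul_comm]
    simp only [Nat.cast_add, Nat.cast_one, Nat.cast_zero, add_zero]
    congr 1
    refine prod_congr rfl fun t _ => ?_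
    ring
  rw [W, W, h4, Nat.factorial_succ]
  push_cast
  field_simp
  ring

/-- TARGET 2 -/
theorem nb_one (a q : ℝ) (ha : 0 < a) (h0 : 0 ≤ q) (h1 : q < 1) :
    HasSum (fun J : ℕ => (J : ℝ) * W a q J) (a * q * (1 - q) ^ (-a - 1)) := by
  have h := (nb_sum (a + 1) q (by linarith) h0 h1).mul_left (a * q)
  rw [show -(a + 1) = -a - 1 by ring] at h
  rw [← hasSum_nat_add_iff' 1]
  simp only [Nat.cast_add, Nat.cast_one, W_succ]
  simpa using h

/-- TARGET 3 -/
theorem nb_two (a q : ℝ) (ha : 0 < a) (h0 : 0 ≤ q) (h1 : q < 1) :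
    HasSum (fun J : ℕ => (J : ℝ) * ((J : ℝ) - 1) * W a q J) (a * (a + 1) * q ^ 2 * (1 - q) ^ (-a - 2)) := by
  have h := (nb_one (a + 1) q (by linarith) h0 h1).mul_left (a * q)
  rw [← hasSum_nat_add_iff' 1]
  have e : ∀ J : ℕ, (((J + 1 : ℕ) : ℝ)) * (((J + 1 : ℕ) : ℝ) - 1) * W a q (J + 1)
      = a * q * ((J : ℝ) * W (a + 1) q J) := by
    intro J
    have := W_succ a q J
    push_cast
    linear_combination (J : ℝ) * this
  simp only [e]
  rw [show -(a + 1) - 1 = -a - 2 by ring] at h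
  have e2 : a * (a + 1) * q ^ 2 * (1 - q) ^ (-a - 2)
      - ∑ i ∈ range 1, (i : ℝ) * ((i : ℝ) - 1) * W a q i
      = a * q * ((a + 1) * q * (1 - q) ^ (-a - 2)) := by
    rw [sum_range_one]
    push_cast
    ring
  rw [e2]
  exact h

/-- TARGET 4 -/
theorem nb_tail (a q : ℝ) (ha : 0 < a) (h0 : 0 ≤ q) (h1 : 2 * q < 1) (S : Finset ℕ) (K : ℕ) (hS : ∀ J ∈ S, K ≤ J) :
    ∑ J ∈ S, W a q J ≤ (2 : ℝ) ^ (-(K : ℝ)) * (1 - 2 * q) ^ (-a) := by
  have h := nb_sum a (2 * q) ha (by linarith) h1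
  have hpos : ∀ J, 0 ≤ W a (2 * q) J := by
    intro J
    refine mul_nonneg (div_nonneg (prod_nonneg fun t _ => ?_) (by positivity)) (by positivity)
    positivity
  have h2 : ∑ J ∈ S, W a (2 * q) J ≤ (1 - 2 * q) ^ (-a) :=
    sum_le_hasSum S (fun J _ => hpos J) h
  have h3 : ∀ J ∈ S, W a q J ≤ (2 : ℝ) ^ (-(K : ℝ)) * W a (2 * q) J := by
    intro J hJ
    have hK := hS J hJ
    have e1 : W a (2 * q) J = 2 ^ J * W a q J := by
      rw [W, W, mul_pow]; ring
    have hW : 0 ≤ W a q J := by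
      refine mul_nonneg (div_nonneg (prod_nonneg fun t _ => ?_) (by positivity)) (by positivity)
      positivity
    rw [e1, ← mul_assoc, ← Real.rpow_natCast 2 J, ← Real.rpow_add (by norm_num)]
    have h4 : (1 : ℝ) ≤ 2 ^ (-(K : ℝ) + (J : ℝ)) := by
      refine Real.one_le_rpow (by norm_num) ?_
      have : (K : ℝ) ≤ J := by exact_mod_cast hK
      linarith
    nlinarith
  calc ∑ J ∈ S, W a q J ≤ ∑ J ∈ S, (2 : ℝ) ^ (-(K : ℝ)) * W a (2 * q) J := sum_le_sum h3
    _ = (2 : ℝ) ^ (-(K : ℝ)) * ∑ J ∈ S, W a (2 * q) J := by rw [mul_sum]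
    _ ≤ _ := mul_le_mul_of_nonneg_left h2 (by positivity)

end MF3

export MF3 (nb_sum nb_one nb_two nb_tail)

end Pool.Agent.H698NC
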