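import Pool.Agent.H698NC.DefsE

set_option autoImplicit false

namespace Pool.Agent.H698NC

open Finset

namespace MF4



theorem exp_quad (z : ℝ) (hz : |z| ≤ 5) : Real.exp z ≤ 1 + z + (Real.exp 5 + 1) * z ^ 2 := by
  have h5 : 0 < Real.exp 5 := Real.exp_pos 5
  rcases le_or_gt |z| 1 with h | h
  · have h1 := Real.abs_exp_sub_one_sub_id_le h
    have h2 := (abs_le.mp h1).2
    nlinarith [sq_nonneg z]
  · have h1 : Real.exp z ≤ Real.exp 5 := Real.exp_le_exp.mpr ((le_abs_self z).trans hz)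
    have h2 : 1 ≤ z ^ 2 := by
      have : 1 ≤ |z| ^ 2 := by nlinarith
      rwa [sq_abs] at this
    nlinarith [sq_nonneg (z + 1), sq_nonneg z]

theorem neg_log_le (t : ℝ) (ht : t ≤ 3 / 4) : -Real.log (1 - t) ≤ t + 4 * t ^ 2 := by
  have h1 : 0 < 1 - t := by linarith
  have h2 := Real.one_sub_inv_le_log_of_pos h1
  have h3 : (1 - t)⁻¹ - 1 ≤ t + 4 * t ^ 2 := by
    have h4 : (1 - t)⁻¹ - 1 = t + t ^ 2 / (1 - t) := by
      field_simp
      ring
    rw [h4]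
    have h5 : t ^ 2 / (1 - t) ≤ 4 * t ^ 2 := by
      rw [div_le_iff₀ h1]
      nlinarith [sq_nonneg t]
    linarith
  linarith

theorem lam_bound (d θ : ℝ) (hd : 3 ≤ d) (h0 : 0 ≤ θ) :
    Lam d θ - Lam d (1 / d) ≤
      -((1 / 2) * (1 + 1 / (d - 1)) * ((d - 2) * d ^ 2 / (d - 1) ^ 3)) * (θ - 1 / d) +
        (3 / 2) * (θ - 1 / d) ^ 2 := by
  have hd0 : 0 < d := by linarith
  have hm : 0 < d - 1 := by linarith
  have hD : 0 < d - 2 + θ := by linarith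
  have hDa : 0 < d - 2 + 1 / d := by
    have : 0 < 1 / d := by positivity
    linarith
  set A : ℝ := (d - 2) * d ^ 2 / (d - 1) ^ 3 with hA
  have hA0 : 0 ≤ A := by
    rw [hA]
    have : 0 ≤ d - 2 := by linarith
    positivity
  set B : ℝ := A / (d - 2 + θ) with hB
  have hB0 : 0 ≤ B := by rw [hB]; positivity
  have hB2 : B ≤ 2 := by
    rw [hB, div_le_iff₀ hD, hA, div_le_iff₀ (by positivity)]
    have h1 : d ^ 2 ≤ 2 * (d - 1) ^ 3 := by nlinarith [sq_nonneg (d - 3), sq_nonneg (d - 1)]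
    have h2 : (d - 2) * d ^ 2 ≤ (d - 2) * (2 * (d - 1) ^ 3) :=
      mul_le_mul_of_nonneg_left h1 (by linarith)
    have h3 : (d - 2) * (2 * (d - 1) ^ 3) ≤ (d - 2 + θ) * (2 * (d - 1) ^ 3) :=
      mul_le_mul_of_nonneg_right (by linarith) (by positivity)
    linarith
  have hu : (d - 1) * θ / (d - 2 + θ) =
      1 / (d - 1) + (A * (θ - 1 / d) - B * (θ - 1 / d) ^ 2) := by
    rw [hB, hA]
    field_simp
    ring
  have hua : (d - 1) * (1 / d) / (d - 2 + 1 / d) = 1 / (d - 1) := by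
    have : d - 2 + 1 / d = (d - 1) ^ 2 / d := by
      field_simp
      ring
    rw [this]
    field_simp
  unfold Lam
  rw [hu, hua]
  set x := 1 / (d - 1) with hx
  have hx0 : 0 ≤ x := by rw [hx]; positivity
  have hx1 : x ≤ 1 / 2 := by
    rw [hx, div_le_div_iff₀ hm (by norm_num)]
    linarith
  set Δ := θ - 1 / d with hΔ
  have h4 : (1 + x) * B ≤ 3 := by nlinarith
  have h5 : (1 + x) * B * Δ ^ 2 ≤ 3 * Δ ^ 2 := mul_le_mul_of_nonneg_right h4 (sq_nonneg Δ)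
  nlinarith [sq_nonneg (A * Δ - B * Δ ^ 2)]

theorem exp_step (c Δ y : ℝ) (hc : |c| ≤ 2) (hΔ : |Δ| ≤ 3 / 4) (hy : y ≤ c * Δ + 6 * Δ ^ 2) :
    Real.exp y ≤ 1 + c * Δ + (6 + (Real.exp 5 + 1) * (13 / 2) ^ 2) * Δ ^ 2 := by
  have hz1 : |c * Δ + 6 * Δ ^ 2| ≤ 13 / 2 * |Δ| := by
    have e1 : c * Δ + 6 * Δ ^ 2 = (c + 6 * Δ) * Δ := by ring
    rw [e1, abs_mul]
    apply mul_le_mul_of_nonneg_right _ (abs_nonneg _)
    calc |c + 6 * Δ| ≤ |c| + |6 * Δ| := abs_add_le _ _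
      _ ≤ 2 + 6 * (3 / 4) := by
          rw [abs_mul, abs_of_nonneg (by norm_num : (0 : ℝ) ≤ 6)]
          linarith
      _ = 13 / 2 := by norm_num
  have hz5 : |c * Δ + 6 * Δ ^ 2| ≤ 5 := by linarith
  have hexp := exp_quad _ hz5
  have hz2 : (c * Δ + 6 * Δ ^ 2) ^ 2 ≤ (13 / 2) ^ 2 * Δ ^ 2 := by
    rw [← sq_abs (c * Δ + 6 * Δ ^ 2), ← sq_abs Δ, ← mul_pow]
    exact pow_le_pow_left₀ (abs_nonneg _) (by rwa [sq_abs]) 2
  have e1 : Real.exp y ≤ Real.exp (c * Δ + 6 * Δ ^ 2) := Real.exp_le_exp.mpr hy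
  have e2 : (Real.exp 5 + 1) * (c * Δ + 6 * Δ ^ 2) ^ 2 ≤
      (Real.exp 5 + 1) * ((13 / 2) ^ 2 * Δ ^ 2) :=
    mul_le_mul_of_nonneg_left hz2 (by positivity)
  linarith

theorem log_part (a θ : ℝ) (ha0 : 0 < a) (ha1 : a ≤ 1 / 3) (h1 : θ ≤ 3 / 4) :
    -(1 / 2) * Real.log (1 - θ) + (1 / 2) * Real.log (1 - a) ≤
      (1 / (2 * (1 - a))) * (θ - a) + 9 / 2 * (θ - a) ^ 2 := by
  have h1θ : 0 < 1 - θ := by linarith
  have h1a : 0 < 1 - a := by linarith
  have e1 : 1 - (θ - a) / (1 - a) = (1 - θ) / (1 - a) := by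
    field_simp
    ring
  have e2 : Real.log (1 - (θ - a) / (1 - a)) = Real.log (1 - θ) - Real.log (1 - a) := by
    rw [e1, Real.log_div h1θ.ne' h1a.ne']
  have e3 : (θ - a) / (1 - a) ≤ 3 / 4 := by
    rw [div_le_iff₀ h1a]
    nlinarith
  have e4 := neg_log_le _ e3
  rw [e2] at e4
  have e5 : ((θ - a) / (1 - a)) ^ 2 ≤ 9 / 4 * (θ - a) ^ 2 := by
    rw [div_pow, div_le_iff₀ (by positivity)]
    have : (2 / 3) ^ 2 ≤ (1 - a) ^ 2 := pow_le_pow_left₀ (by norm_num) (by linarith) 2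
    nlinarith [sq_nonneg (θ - a)]
  have e6 : (θ - a) / (1 - a) = 2 * ((1 / (2 * (1 - a))) * (θ - a)) := by
    field_simp
  rw [e6] at e4 e5
  nlinarith

theorem form (d t : ℝ) (ht : 0 < 1 - t) : Real.exp (Lam d t) / √(1 - t) =
    Real.exp (Lam d t - (1 / 2) * Real.log (1 - t)) := by
  rw [Real.exp_sub]
  congr 1
  rw [Real.sqrt_eq_rpow, Real.rpow_def_of_pos ht]
  ring_nf

/-- TARGET 1 -/
theorem smooth_le : ∃ C : ℝ, 0 ≤ C ∧ ∀ d : ℝ, 3 ≤ d → ∃ c₁ : ℝ, |c₁| ≤ C ∧ (∀ x : ℝ, 0 ≤ 1 + c₁ * x + C * x ^ 2) ∧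
    ∀ θ : ℝ, 0 ≤ θ → θ ≤ 3 / 4 → Real.exp (Lam d θ) / √(1 - θ)
      ≤ Real.exp (Lam d (1 / d)) / √(1 - 1 / d) * (1 + c₁ * (θ - 1 / d) + C * (θ - 1 / d) ^ 2) := by
  refine ⟨6 + (Real.exp 5 + 1) * (13 / 2) ^ 2, by positivity, ?_⟩
  intro d hd
  have hd0 : 0 < d := by linarith
  have hm : 0 < d - 1 := by linarith
  set a : ℝ := 1 / d with ha
  have ha0 : 0 < a := by rw [ha]; positivity
  have ha1 : a ≤ 1 / 3 := by
    rw [ha]
    exact one_div_le_one_div_of_le (by norm_num) hd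
  set A : ℝ := (1 / 2) * (1 + 1 / (d - 1)) * ((d - 2) * d ^ 2 / (d - 1) ^ 3) with hA
  have hA0 : 0 ≤ A := by
    rw [hA]
    have : 0 ≤ d - 2 := by linarith
    positivity
  have hA2 : A ≤ 2 := by
    rw [hA]
    have e : (1 / 2) * (1 + 1 / (d - 1)) * ((d - 2) * d ^ 2 / (d - 1) ^ 3) =
        (d - 2) * d ^ 3 / (2 * (d - 1) ^ 4) := by
      field_simp
      ring
    rw [e, div_le_iff₀ (by positivity)]
    have h1 : d ≤ 3 / 2 * (d - 1) := by linarith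
    have h2 : d ^ 3 ≤ (3 / 2 * (d - 1)) ^ 3 := pow_le_pow_left₀ hd0.le h1 3
    have h3 : (d - 2) * d ^ 3 ≤ (d - 1) * (3 / 2 * (d - 1)) ^ 3 :=
      mul_le_mul (by linarith) h2 (by positivity) (by linarith)
    have h4 : 0 ≤ (d - 1) ^ 4 := by positivity
    nlinarith
  set b : ℝ := 1 / (2 * (1 - a)) with hb
  have hb0 : 0 ≤ b := by
    rw [hb]
    have : 0 < 1 - a := by linarith
    positivity
  have hb1 : b ≤ 3 / 4 := by
    rw [hb, div_le_div_iff₀ (by linarith) (by norm_num)]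
    linarith
  have hc1 : |b - A| ≤ 2 := by
    rw [abs_le]
    constructor <;> linarith
  have hE : (1 : ℝ) ≤ Real.exp 5 := Real.one_le_exp (by norm_num)
  refine ⟨b - A, ?_, ?_, ?_⟩
  · refine hc1.trans ?_
    nlinarith
  · intro x
    have h1 : (b - A) ^ 2 ≤ 4 := by
      have := sq_le_sq' (by linarith [(abs_le.mp hc1).1] : -2 ≤ b - A) (abs_le.mp hc1).2
      linarith
    have h2 : 4 ≤ 6 + (Real.exp 5 + 1) * (13 / 2) ^ 2 := by nlinarith
    nlinarith [sq_nonneg (1 + (b - A) * x / 2), sq_nonneg x, mul_le_mul_of_nonneg_right h1 (sq_nonneg x),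
      mul_le_mul_of_nonneg_right h2 (sq_nonneg x)]
  · intro θ h0 h1
    set Δ := θ - a with hΔ
    have hΔ1 : |Δ| ≤ 3 / 4 := by
      rw [abs_le]
      constructor <;> linarith
    have hΔ2 : Δ ^ 2 ≤ 9 / 16 := by
      have := sq_le_sq' (abs_le.mp hΔ1).1 (abs_le.mp hΔ1).2
      linarith
    have hlam := lam_bound d θ hd h0
    rw [← ha, ← hΔ, ← hA] at hlam
    have h1θ : 0 < 1 - θ := by linarith
    have h1a : 0 < 1 - a := by linarith
    have hlog := log_part a θ ha0 ha1 h1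
    rw [← hb, ← hΔ] at hlog
    have hyle : (Lam d θ - (1 / 2) * Real.log (1 - θ)) - (Lam d a - (1 / 2) * Real.log (1 - a)) ≤
        (b - A) * Δ + 6 * Δ ^ 2 := by
      nlinarith
    have hfin := exp_step (b - A) Δ _ hc1 hΔ1 hyle
    rw [form d θ h1θ, form d a h1a]
    have e3 : Lam d θ - (1 / 2) * Real.log (1 - θ) =
        (Lam d a - (1 / 2) * Real.log (1 - a)) +
        ((Lam d θ - (1 / 2) * Real.log (1 - θ)) - (Lam d a - (1 / 2) * Real.log (1 - a))) := by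
      ring
    rw [e3, Real.exp_add]
    exact mul_le_mul_of_nonneg_left hfin (Real.exp_pos _).le

/-- TARGET 2 -/
theorem rho_le : ∃ C : ℝ, 0 ≤ C ∧ ∀ d : ℝ, 3 ≤ d →
    (d - 1) / √(d * (d - 2)) * (Real.exp (Lam d (1 / d) - 1 / 2) / √(1 - 1 / d)) ≤ 1 + C / d ^ 3 := by
  refine ⟨7, by norm_num, ?_⟩
  intro d hd
  have hd0 : 0 < d := by linarith
  have hm : 0 < d - 1 := by linarith
  have hm2 : 0 < d - 2 := by linarith
  set x : ℝ := 1 / (d - 1) with hx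
  have hx0 : 0 < x := by rw [hx]; positivity
  have hx1 : x ≤ 1 / 2 := by
    rw [hx]
    exact one_div_le_one_div_of_le (by norm_num) (by linarith)
  have h1x : 0 < 1 - x := by linarith
  have h1d : 0 < 1 - 1 / d := by
    have : 1 / d < 1 := by
      rw [div_lt_one hd0]
      linarith
    linarith
  have hprod : √(d * (d - 2)) * √(1 - 1 / d) = (d - 1) * √(1 - x) := by
    rw [← Real.sqrt_mul (by positivity)]
    have e1 : d * (d - 2) * (1 - 1 / d) = (d - 1) ^ 2 * (1 - x) := by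
      rw [hx]
      field_simp
      ring
    rw [e1, Real.sqrt_mul (by positivity), Real.sqrt_sq hm.le]
  have hlam : Lam d (1 / d) = 1 / 2 - x / 2 - x ^ 2 / 4 := by
    have hua : (d - 1) * (1 / d) / (d - 2 + 1 / d) = x := by
      have : d - 2 + 1 / d = (d - 1) ^ 2 / d := by
        field_simp
        ring
      rw [this, hx]
      field_simp
    unfold Lam
    rw [hua]
    ring
  have hs1 : 0 < √(1 - x) := Real.sqrt_pos.mpr h1x
  have hs2 : 0 < √(d * (d - 2)) := Real.sqrt_pos.mpr (by positivity)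
  have hs3 : 0 < √(1 - 1 / d) := Real.sqrt_pos.mpr h1d
  have hL : (d - 1) / √(d * (d - 2)) * (Real.exp (Lam d (1 / d) - 1 / 2) / √(1 - 1 / d)) =
      Real.exp (Lam d (1 / d) - 1 / 2) / √(1 - x) := by
    rw [div_mul_div_comm, hprod]
    field_simp
  rw [hL, hlam]
  have hlog := Real.abs_log_sub_add_sum_range_le (x := x) (by rw [abs_of_pos hx0]; linarith) 2
  rw [abs_of_pos hx0] at hlog
  have hlog2 := (abs_le.mp hlog).1
  simp only [Finset.sum_range_succ, Finset.sum_range_zero] at hlog2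
  norm_num at hlog2
  have hq : x ^ 3 / (1 - x) ≤ 2 * x ^ 3 := by
    rw [div_le_iff₀ h1x]
    have : 0 ≤ x ^ 3 := by positivity
    nlinarith
  have hE : Real.exp (1 / 2 - x / 2 - x ^ 2 / 4 - 1 / 2) / √(1 - x) ≤ Real.exp (x ^ 3) := by
    have e1 : √(1 - x) = Real.exp ((1 / 2) * Real.log (1 - x)) := by
      rw [Real.sqrt_eq_rpow, Real.rpow_def_of_pos h1x]
      ring_nf
    rw [e1, ← Real.exp_sub]
    apply Real.exp_le_exp.mpr
    nlinarith
  have hx3 : x ^ 3 ≤ 1 / 8 := by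
    have := pow_le_pow_left₀ hx0.le hx1 3
    norm_num at this ⊢
    linarith
  have hx30 : 0 < x ^ 3 := by positivity
  have hexp : Real.exp (x ^ 3) ≤ 1 + 2 * x ^ 3 := by
    have h1 := Real.abs_exp_sub_one_sub_id_le (x := x ^ 3) (by
      rw [abs_of_pos hx30]
      linarith)
    have h2 := (abs_le.mp h1).2
    nlinarith
  have hfin : 2 * x ^ 3 ≤ 7 / d ^ 3 := by
    have h1 : 2 * x ^ 3 = 2 / (d - 1) ^ 3 := by
      rw [hx]
      field_simp
    rw [h1, div_le_div_iff₀ (by positivity) (by positivity)]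
    have h2 : d ^ 3 ≤ (3 / 2 * (d - 1)) ^ 3 := pow_le_pow_left₀ hd0.le (by linarith) 3
    have h3 : 0 < (d - 1) ^ 3 := by positivity
    nlinarith
  linarith

end MF4

export MF4 (smooth_le rho_le)

end Pool.Agent.H698NC
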