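import Pool.Agent.H698NC.F1
import Pool.Agent.H698NC.F2
import Pool.Agent.H698NC.F3
import Pool.Agent.H698NC.F4

set_option autoImplicit false

namespace Pool.Agent.H698NC

open Finset

namespace MF5



theorem Rstar_le_s1 (D : ℝ) (h : 3 ≤ D) : 4 ≤ (D - 1) ^ 2 := by
  have h1 : 0 ≤ (D - 3) * (D + 1) := mul_nonneg (by linarith) (by linarith)
  have h2 : (D - 1) ^ 2 = (D - 3) * (D + 1) + 4 := by ring
  linarith

theorem Rstar_le_s2 (C m J : ℝ) (hC : 0 ≤ C) (h : 4 * J ≤ 3 * m) :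
    C * (2 * m) ≤ 8 * C * (m - J + 1) := by
  have h1 : 0 ≤ C * (8 * (m - J + 1) - 2 * m) := mul_nonneg hC (by linarith)
  have h2 : 8 * C * (m - J + 1) = C * (8 * (m - J + 1) - 2 * m) + C * (2 * m) := by ring
  linarith

theorem Rstar_le_s3 (a b : ℝ) (ha : 0 < a) (h : a * b = 1) (hb : b ≤ 2) : 1 ≤ 2 * a := by
  have h1 : a * b ≤ a * 2 := mul_le_mul_of_nonneg_left hb ha.le
  linarith

theorem Rstar_le_s4 (a u x : ℝ) (ha : 1 ≤ 2 * a) (h : 0 ≤ 8 * u * x) :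
    8 * u * x ≤ a * (16 * u * x) := by
  have h1 : 1 * (8 * u * x) ≤ 2 * a * (8 * u * x) := mul_le_mul_of_nonneg_right ha h
  have h2 : a * (16 * u * x) = 2 * a * (8 * u * x) := by ring
  rw [h2]
  linarith

theorem Rstar_le_s5 (G a : ℝ) (hG : 1 ≤ G) (ha : 0 < a) (ha2 : 1 ≤ 2 * a) :
    1 ≤ 2 * (G * a) := by
  have h1 : 1 * a ≤ G * a := mul_le_mul_of_nonneg_right hG ha.le
  linarith

theorem Rstar_le_s6 (b u v x : ℝ) (hb : 1 ≤ 2 * b) (h : 0 ≤ 8 * u * v * x) :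
    (4 * u) * (2 * v * x) ≤ b * (16 * u * v * x) := by
  have h1 : 1 * (8 * u * v * x) ≤ 2 * b * (8 * u * v * x) := mul_le_mul_of_nonneg_right hb h
  have h2 : b * (16 * u * v * x) = 2 * b * (8 * u * v * x) := by ring
  have h3 : (4 * u) * (2 * v * x) = 1 * (8 * u * v * x) := by ring
  rw [h2, h3]
  exact h1

theorem Rstar_le_s7 (D : ℝ) (h : 3 ≤ D) : 3 ≤ D * (D - 2) := by
  have h1 : 0 ≤ (D - 3) * (D + 1) := mul_nonneg (by linarith) (by linarith)
  have h2 : D * (D - 2) = (D - 3) * (D + 1) + 3 := by ring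
  linarith

theorem Rstar_le_s8 (e : ℝ) (h0 : 0 < e) (h : e < 2.7182818286) : e * e ≤ (3 / 2) ^ 7 := by
  nlinarith

theorem Rstar_le_s9 (D : ℝ) (h : 4 ≤ D) : 7 ≤ (D - 1) ^ 2 - 2 := by
  have h1 : 0 ≤ (D - 4) * (D + 2) := mul_nonneg (by linarith) (by linarith)
  have h2 : (D - 1) ^ 2 - 2 = (D - 4) * (D + 2) + 7 := by ring
  linarith

theorem Rstar_le_s10 (D : ℝ) (h : 4 ≤ D) : 7 / 2 * (D - 2) ≤ (D - 1) ^ 2 - 2 := by
  have h1 : 0 ≤ (D - 4) * (D - 3 / 2) := mul_nonneg (by linarith) (by linarith)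
  have h2 : (D - 1) ^ 2 - 2 = (D - 4) * (D - 3 / 2) + 7 / 2 * (D - 2) := by ring
  linarith

theorem Rstar_le_s11 (u : ℝ) (m X D : ℝ) (h5 : m * (7 / 2 * (D - 2)) ≤ m * X) (h4 : 7 ≤ X)
    (hu : u = 2 * m * (D - 2) + 1) : u / 2 ≤ 2 / 7 * (m + 1 / 2) * X := by
  have h6 : 2 / 7 * (m + 1 / 2) * X = 2 / 7 * (m * X) + X / 7 := by ring
  have h7 : m * (7 / 2 * (D - 2)) = 7 / 2 * (m * (D - 2)) := by ring
  have h8 : 2 * m * (D - 2) = 2 * (m * (D - 2)) := by ring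
  rw [h6, hu, h8]
  rw [h7] at h5
  linarith

theorem Rstar_le_df (k : ℕ) : ((2 * (k + 1) - 1).doubleFactorial : ℝ) =
    (2 * k + 1) * ((2 * k - 1).doubleFactorial : ℝ) := by
  rcases k with _ | k
  · simp
  · have h1 : 2 * (k + 1 + 1) - 1 = (2 * (k + 1) - 1) + 2 := by omega
    rw [h1, Nat.doubleFactorial_add_two]
    have h2 : 2 * (k + 1) - 1 + 2 = 2 * (k + 1) + 1 := by omega
    rw [h2]
    push_cast
    ring

theorem Rstar_le_dfpos (k : ℕ) : (0 : ℝ) < ((2 * k - 1).doubleFactorial : ℝ) := by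
  exact_mod_cast Nat.doubleFactorial_pos _

/-- `2^k k! / (2k-1)!!` -/
noncomputable def Rstar_le_cc (k : ℕ) : ℝ := 2 ^ k * (k.factorial : ℝ) / ((2 * k - 1).doubleFactorial : ℝ)

theorem Rstar_le_ccpos (k : ℕ) : 0 < Rstar_le_cc k := by
  unfold Rstar_le_cc
  have := Rstar_le_dfpos k
  have h2 : (0 : ℝ) < (k.factorial : ℝ) := by exact_mod_cast Nat.factorial_pos k
  positivity

theorem Rstar_le_cc_succ (k : ℕ) : Rstar_le_cc (k + 1) * (2 * k + 1) = Rstar_le_cc k * (2 * k + 2) := by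
  unfold Rstar_le_cc
  rw [Rstar_le_df, Nat.factorial_succ]
  have h1 := (Rstar_le_dfpos k).ne'
  have h2 : (2 * (k : ℝ) + 1) ≠ 0 := by positivity
  push_cast
  field_simp
  ring

theorem Rstar_le_cc_ratio (k m : ℕ) (hk : 1 ≤ k) (hkm : k ≤ m) :
    Rstar_le_cc m ^ 2 * k ≤ Rstar_le_cc k ^ 2 * m := by
  induction m, hkm using Nat.le_induction with
  | base => exact le_refl _
  | succ m hkm ih =>
    have hm : (1 : ℝ) ≤ m := by exact_mod_cast hk.trans hkm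
    have hk' : (1 : ℝ) ≤ k := by exact_mod_cast hk
    have h1 := Rstar_le_cc_succ m
    have h2 : Rstar_le_cc (m + 1) ^ 2 * (2 * m + 1) ^ 2 = Rstar_le_cc m ^ 2 * (2 * m + 2) ^ 2 := by
      rw [← mul_pow, ← mul_pow, h1]
    have h3 : (0 : ℝ) < (2 * m + 1) ^ 2 := by positivity
    have h4 : (0:ℝ) < m := by linarith
    have h5 : Rstar_le_cc (m + 1) ^ 2 * k * ((2 * m + 1) ^ 2 * m) ≤
        Rstar_le_cc k ^ 2 * (m + 1) * ((2 * m + 1) ^ 2 * m) := by
      calc Rstar_le_cc (m + 1) ^ 2 * k * ((2 * m + 1) ^ 2 * m)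
          = (Rstar_le_cc (m + 1) ^ 2 * (2 * m + 1) ^ 2) * k * m := by ring
        _ = (Rstar_le_cc m ^ 2 * k) * ((2 * m + 2) ^ 2 * m) := by rw [h2]; ring
        _ ≤ (Rstar_le_cc k ^ 2 * m) * ((2 * m + 2) ^ 2 * m) :=
            mul_le_mul_of_nonneg_right ih (by positivity)
        _ ≤ Rstar_le_cc k ^ 2 * (m + 1) * ((2 * m + 1) ^ 2 * m) := by
            have h6 : (m : ℝ) * ((2 * m + 2) ^ 2 * m) ≤ (m + 1) * ((2 * m + 1) ^ 2 * m) := by
              nlinarith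
            have h7 := mul_le_mul_of_nonneg_left h6 (sq_nonneg (Rstar_le_cc k))
            linarith
    have h8 : (0:ℝ) < (2 * m + 1) ^ 2 * m := by positivity
    have h9 := le_of_mul_le_mul_right h5 h8
    push_cast
    exact h9

theorem Rstar_le_cc_one : Rstar_le_cc 1 = 2 := by
  unfold Rstar_le_cc; norm_num [Nat.doubleFactorial]

theorem Rstar_le_cc_zero : Rstar_le_cc 0 = 1 := by
  unfold Rstar_le_cc; norm_num [Nat.doubleFactorial]

theorem Rstar_le_cc_sqrt (k m : ℕ) (hk : 1 ≤ k) (hkm : k ≤ m) :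
    Rstar_le_cc m / Rstar_le_cc k ≤ 1 / √((k : ℝ) / m) := by
  have hk' : (0 : ℝ) < k := by exact_mod_cast hk
  have hm' : (0 : ℝ) < m := by exact_mod_cast lt_of_lt_of_le hk hkm
  have h1 := Rstar_le_cc_ratio k m hk hkm
  have hc := Rstar_le_ccpos k
  have hcm := Rstar_le_ccpos m
  rw [div_le_div_iff₀ hc (Real.sqrt_pos.2 (by positivity)), one_mul]
  have h2 : (Rstar_le_cc m * √((k : ℝ) / m)) ^ 2 ≤ Rstar_le_cc k ^ 2 := by
    rw [mul_pow, Real.sq_sqrt (by positivity)]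
    rw [mul_div_assoc', div_le_iff₀ hm']
    exact h1
  exact le_of_sq_le_sq h2 hc.le

theorem Rstar_le_cc_all (k m : ℕ) (hm : 1 ≤ m) (hkm : k ≤ m) :
    Rstar_le_cc m / Rstar_le_cc k ≤ 2 * √(m : ℝ) := by
  have hm' : (1 : ℝ) ≤ m := by exact_mod_cast hm
  have h0 : Rstar_le_cc m ≤ 2 * √(m : ℝ) := by
    have h1 := Rstar_le_cc_ratio 1 m le_rfl hm
    rw [Rstar_le_cc_one] at h1
    have h2 : Rstar_le_cc m ^ 2 ≤ (2 * √(m : ℝ)) ^ 2 := by
      rw [mul_pow, Real.sq_sqrt (by positivity)]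
      push_cast at h1
      linarith
    exact le_of_sq_le_sq h2 (by positivity)
  rcases Nat.eq_zero_or_pos k with rfl | hk
  · rw [Rstar_le_cc_zero, div_one]; exact h0
  · have h1 : (1 : ℝ) ≤ Rstar_le_cc k := by
      clear h0 hkm hk
      induction k with
      | zero => rw [Rstar_le_cc_zero]
      | succ k ih =>
        have h2 := Rstar_le_cc_succ k
        have h3 := Rstar_le_ccpos (k + 1)
        have h4 : (0:ℝ) ≤ k := Nat.cast_nonneg k
        by_contra hcon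
        have hcon := not_le.1 hcon
        nlinarith
    calc Rstar_le_cc m / Rstar_le_cc k ≤ Rstar_le_cc m / 1 :=
          div_le_div_of_nonneg_left (Rstar_le_ccpos m).le one_pos h1
      _ ≤ 2 * √(m : ℝ) := by rw [div_one]; exact h0

theorem Rstar_le_choose (m J : ℕ) (hJ : J ≤ m) :
    (m.choose J : ℝ) * ((2 * (m - J) - 1).doubleFactorial : ℝ) * (2 ^ J * (J.factorial : ℝ)) =
      ((2 * m - 1).doubleFactorial : ℝ) * (Rstar_le_cc m / Rstar_le_cc (m - J)) := by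
  have h1 : (m.choose J : ℝ) * (J.factorial : ℝ) * ((m - J).factorial : ℝ) = (m.factorial : ℝ) := by
    exact_mod_cast Nat.choose_mul_factorial_mul_factorial hJ
  have h2 : (2 : ℝ) ^ m = 2 ^ J * 2 ^ (m - J) := by
    rw [← pow_add]; congr 1; omega
  unfold Rstar_le_cc
  have e1 := (Rstar_le_dfpos m).ne'
  have e2 := (Rstar_le_dfpos (m - J)).ne'
  have e3 : ((m - J).factorial : ℝ) ≠ 0 := by exact_mod_cast (Nat.factorial_pos _).ne'
  rw [← h1, h2]
  field_simp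

theorem Rstar_le_LF (K J : ℕ) : Real.exp (LF (K + J)) =
    Real.exp (LF K) * ∏ t ∈ range J, (2 * ((K : ℝ) + t) + 1) := by
  induction J with
  | zero => simp
  | succ J ih =>
    have h1 : LF (K + (J + 1)) = LF (K + J) + Real.log (2 * ((K : ℝ) + J) + 1) := by
      unfold LF
      rw [← add_assoc, Finset.sum_range_succ]
      push_cast
      rfl
    rw [h1, Real.exp_add, ih, Finset.prod_range_succ, Real.exp_log (by positivity)]
    ring

theorem Rstar_le_prod (a : ℝ) (J : ℕ) : ∏ t ∈ range J, (2 * (a + t)) = 2 ^ J * ∏ t ∈ range J, (a + t) := by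
  rw [Finset.prod_mul_distrib, Finset.prod_const, Finset.card_range]

/-- the exponential of `phi` -/
theorem Rstar_le_phi (m d J : ℕ) (hJ : J ≤ m) (hd : 3 ≤ d) :
    Real.exp (phi (2 * m) d J) =
      Real.exp (((2 * m : ℕ) : ℝ) * Real.log (((d : ℝ) - 1) / d) + LF (2 * m * d / 2) +
        LF (2 * m * d / 2 - 2 * m) - 2 * LF (2 * m * d / 2 - 2 * m / 2)) *
      ((2 ^ J * (J.factorial : ℝ)) *
        W ((((2 * m : ℕ) : ℝ) * ((d : ℝ) - 2) + 1) / 2) (1 / ((d : ℝ) - 1) ^ 2) J) *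
      Real.exp (Lam d (2 * J / ((2 * m : ℕ) : ℝ))) := by
  have hd' : (3 : ℝ) ≤ d := by exact_mod_cast hd
  obtain ⟨e, rfl⟩ : ∃ e, d = e + 2 := ⟨d - 2, by omega⟩
  have h1 : 2 * m * (e + 2) / 2 = m * e + 2 * m := by
    rw [mul_assoc, Nat.mul_div_cancel_left _ (by norm_num)]
    ring
  have h2 : 2 * m * (e + 2) / 2 - (2 * m - J) = m * e + J := by rw [h1]; omega
  have h3 : 2 * m * (e + 2) / 2 - 2 * m = m * e := by rw [h1]; omega
  unfold phi
  rw [h2, h3]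
  set A := LF (2 * m * (e + 2) / 2) with hA
  set B := LF (2 * m * (e + 2) / 2 - 2 * m / 2) with hB
  set X := ((2 * m : ℕ) : ℝ) * Real.log ((((e + 2 : ℕ) : ℝ) - 1) / ((e + 2 : ℕ) : ℝ)) with hX
  set Y := Lam ((e + 2 : ℕ) : ℝ) (2 * J / ((2 * m : ℕ) : ℝ)) with hY
  have h4 : X - 2 * J * Real.log (((e + 2 : ℕ) : ℝ) - 1) + A + LF (m * e + J) - 2 * B + Y =
      (X + A - 2 * B) + (-(2 * J) * Real.log (((e + 2 : ℕ) : ℝ) - 1)) + LF (m * e + J) + Y := by ring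
  rw [h4, Real.exp_add, Real.exp_add, Real.exp_add, Rstar_le_LF]
  have h5 : X + A + LF (m * e) - 2 * B = (X + A - 2 * B) + LF (m * e) := by ring
  rw [h5, Real.exp_add]
  have hpos : (0 : ℝ) < ((e + 2 : ℕ) : ℝ) - 1 := by linarith
  have h6 : Real.exp (-(2 * J) * Real.log (((e + 2 : ℕ) : ℝ) - 1)) =
      (1 / (((e + 2 : ℕ) : ℝ) - 1) ^ 2) ^ J := by
    have : -(2 * (J : ℝ)) * Real.log (((e + 2 : ℕ) : ℝ) - 1) =
        ((J : ℕ) : ℝ) * Real.log (1 / (((e + 2 : ℕ) : ℝ) - 1) ^ 2) := by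
      rw [one_div, Real.log_inv, Real.log_pow]
      push_cast
      ring
    rw [this, Real.exp_nat_mul, Real.exp_log (by positivity)]
  rw [h6]
  unfold W
  have h7 : ∏ t ∈ range J, (2 * (((m * e : ℕ) : ℝ) + t) + 1) =
      2 ^ J * ∏ t ∈ range J, ((((2 * m : ℕ) : ℝ) * (((e + 2 : ℕ) : ℝ) - 2) + 1) / 2 + t) := by
    rw [← Rstar_le_prod]
    apply Finset.prod_congr rfl
    intro t _
    push_cast
    ring
  rw [h7]
  have hf : (J.factorial : ℝ) ≠ 0 := by exact_mod_cast (Nat.factorial_pos _).ne'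
  field_simp

set_option maxHeartbeats 1000000 in
/-- the moments -/
theorem Rstar_le_mom (m d : ℕ) (hm : 1 ≤ m) (hd : 3 ≤ d) (c₁ C1 : ℝ) (hc : |c₁| ≤ C1)
    (hq : ∀ x : ℝ, 0 ≤ 1 + c₁ * x + C1 * x ^ 2) (S : Finset ℕ) :
    ∑ J ∈ S, W ((((2 * m : ℕ) : ℝ) * ((d : ℝ) - 2) + 1) / 2) (1 / ((d : ℝ) - 1) ^ 2) J *
      (1 + c₁ * (2 * J / ((2 * m : ℕ) : ℝ) - 1 / d) + C1 * (2 * J / ((2 * m : ℕ) : ℝ) - 1 / d) ^ 2) ≤
      (1 - 1 / ((d : ℝ) - 1) ^ 2) ^ (-((((2 * m : ℕ) : ℝ) * ((d : ℝ) - 2) + 1) / 2)) *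
        (1 + 2 * C1 / ((2 * m : ℕ) : ℝ)) := by
  have hd' : (3 : ℝ) ≤ d := by exact_mod_cast hd
  have hn' : (2 : ℝ) ≤ ((2 * m : ℕ) : ℝ) := by
    have : (1 : ℝ) ≤ m := by exact_mod_cast hm
    push_cast
    linarith
  set n : ℝ := ((2 * m : ℕ) : ℝ) with hn
  set D : ℝ := (d : ℝ) with hD
  set q : ℝ := 1 / (D - 1) ^ 2 with hqd
  set a : ℝ := (n * (D - 2) + 1) / 2 with ha
  have hC1 : 0 ≤ C1 := le_trans (abs_nonneg _) hc
  have ha0 : 0 < a := by
    rw [ha]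
    have : 0 ≤ n * (D - 2) := mul_nonneg (by linarith) (by linarith)
    linarith
  have hD1 : (0 : ℝ) < (D - 1) ^ 2 := by
    have : 0 < D - 1 := by linarith
    positivity
  have hq0 : 0 ≤ q := by rw [hqd]; positivity
  have hq1 : q < 1 := by
    rw [hqd, div_lt_one hD1]
    have := Rstar_le_s1 D hd'
    linarith
  have h1q : 0 < 1 - q := by linarith
  set p : ℝ := 1 / (D * (D - 2)) with hp
  have hDD : 0 < D * (D - 2) := mul_pos (by linarith) (by linarith)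
  have hp0 : 0 < p := by rw [hp]; positivity
  have hp1 : p ≤ 1 / 3 := by
    rw [hp]
    exact one_div_le_one_div_of_le (by norm_num) (Rstar_le_s7 D hd')
  have hqp : q / (1 - q) = p := by
    rw [hp, hqd]
    have : D - 1 ≠ 0 := by
      intro h; linarith
    have h2 : D - 2 ≠ 0 := by
      intro h; linarith
    have h3 : D ≠ 0 := by
      intro h; linarith
    have h4 : 1 - 1 / (D - 1) ^ 2 = D * (D - 2) / (D - 1) ^ 2 := by
      field_simp
      ring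
    rw [h4]
    field_simp
  have s0 := nb_sum a q ha0 hq0 hq1
  have s1 := nb_one a q ha0 hq0 hq1
  have s2 := nb_two a q ha0 hq0 hq1
  have hW : ∀ J, 0 ≤ W a q J := by
    intro J
    unfold W
    have : 0 ≤ ∏ t ∈ range J, (a + t) := Finset.prod_nonneg fun t _ => by positivity
    positivity
  set α : ℝ := 1 - c₁ / D + C1 / D ^ 2 with hα
  set β : ℝ := 2 * c₁ / n - 4 * C1 / (n * D) + 4 * C1 / n ^ 2 with hβ
  set γ : ℝ := 4 * C1 / n ^ 2 with hγ
  have hs : HasSum (fun J : ℕ => α * W a q J + β * ((J : ℝ) * W a q J) +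
      γ * ((J : ℝ) * ((J : ℝ) - 1) * W a q J))
      (α * (1 - q) ^ (-a) + β * (a * q * (1 - q) ^ (-a - 1)) +
        γ * (a * (a + 1) * q ^ 2 * (1 - q) ^ (-a - 2))) :=
    ((s0.mul_left α).add (s1.mul_left β)).add (s2.mul_left γ)
  have hn0 : n ≠ 0 := by
    intro h; linarith
  have hD0 : D ≠ 0 := by
    intro h; linarith
  have hf : ∀ J : ℕ, W a q J * (1 + c₁ * (2 * J / n - 1 / D) + C1 * (2 * J / n - 1 / D) ^ 2) =
      α * W a q J + β * ((J : ℝ) * W a q J) + γ * ((J : ℝ) * ((J : ℝ) - 1) * W a q J) := by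
    intro J
    rw [hα, hβ, hγ]
    field_simp
    ring
  have hle : ∑ J ∈ S, W a q J * (1 + c₁ * (2 * J / n - 1 / D) + C1 * (2 * J / n - 1 / D) ^ 2) ≤
      α * (1 - q) ^ (-a) + β * (a * q * (1 - q) ^ (-a - 1)) +
        γ * (a * (a + 1) * q ^ 2 * (1 - q) ^ (-a - 2)) := by
    rw [Finset.sum_congr rfl (fun J _ => hf J)]
    refine sum_le_hasSum S (fun J _ => ?_) hs
    rw [← hf J]
    exact mul_nonneg (hW J) (hq _)
  refine hle.trans ?_
  have e1 : (1 - q) ^ (-a - 1) = (1 - q) ^ (-a) / (1 - q) := by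
    rw [Real.rpow_sub h1q, Real.rpow_one]
  have e2 : (1 - q) ^ (-a - 2) = (1 - q) ^ (-a) / (1 - q) ^ 2 := by
    rw [Real.rpow_sub h1q, Real.rpow_two]
  rw [e1, e2]
  set S0 : ℝ := (1 - q) ^ (-a) with hS0
  have hS0p : 0 < S0 := Real.rpow_pos_of_pos h1q _
  have e3 : α * S0 + β * (a * q * (S0 / (1 - q))) + γ * (a * (a + 1) * q ^ 2 * (S0 / (1 - q) ^ 2)) =
      S0 * (α + β * (a * p) + γ * (a * (a + 1) * p ^ 2)) := by
    rw [← hqp]
    field_simp
  rw [e3]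
  apply mul_le_mul_of_nonneg_left _ hS0p.le
  have e4 : 2 * (a * p) / n = 1 / D + p / n := by
    rw [ha, hp]
    have h2 : D - 2 ≠ 0 := by
      intro h; linarith
    field_simp
  have e5 : α + β * (a * p) + γ * (a * (a + 1) * p ^ 2) =
      1 + c₁ * (2 * (a * p) / n - 1 / D) + C1 * ((2 * (a * p) / n - 1 / D) ^ 2 +
        2 * (2 * (a * p) / n) * (1 + p) / n) := by
    rw [hα, hβ, hγ]
    field_simp
    ring
  rw [e5, e4]
  have e6 : 1 / D + p / n - 1 / D = p / n := by ring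
  rw [e6]
  have h3 : c₁ * (p / n) ≤ C1 * (1 / 3 / n) := by
    have h4 : c₁ ≤ C1 := (le_abs_self _).trans hc
    have h5 : p / n ≤ 1 / 3 / n := by
      apply div_le_div_of_nonneg_right hp1 (by linarith)
    have h6 : 0 ≤ p / n := by positivity
    calc c₁ * (p / n) ≤ C1 * (p / n) := mul_le_mul_of_nonneg_right h4 h6
      _ ≤ C1 * (1 / 3 / n) := mul_le_mul_of_nonneg_left h5 hC1
  have h7 : (p / n) ^ 2 + 2 * (1 / D + p / n) * (1 + p) / n ≤ (5 / 3) / n := by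
    have h8 : 1 / D ≤ 1 / 3 := one_div_le_one_div_of_le (by norm_num) hd'
    have h9 : p / n ≤ 1 / 6 := by
      rw [div_le_iff₀ (by linarith)]
      linarith
    have h10 : 0 ≤ p / n := by positivity
    have h11 : 0 ≤ 1 / D := by positivity
    have h12 : (p / n) ^ 2 + 2 * (1 / D + p / n) * (1 + p) / n =
        (p * (p / n) + 2 * (1 / D + p / n) * (1 + p)) / n := by
      field_simp
    rw [h12]
    apply div_le_div_of_nonneg_right _ (by linarith)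
    have h13 : p * (p / n) ≤ 1 / 3 * (1 / 6) := mul_le_mul hp1 h9 h10 (by norm_num)
    have h14 : (1 / D + p / n) * (1 + p) ≤ (1 / 3 + 1 / 6) * (1 + 1 / 3) :=
      mul_le_mul (by linarith) (by linarith) (by linarith) (by norm_num)
    linarith
  have h15 := mul_le_mul_of_nonneg_left h7 hC1
  have h16 : C1 * (1 / 3 / n) + C1 * (5 / 3 / n) = 2 * C1 / n := by ring
  linarith

theorem Rstar_le_exp27 : Real.exp (2 / 7) ≤ 3 / 2 := by
  have h1 : Real.exp (2 / 7) ^ 7 ≤ (3 / 2 : ℝ) ^ 7 := by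
    rw [← Real.exp_nat_mul]
    have : ((7 : ℕ) : ℝ) * (2 / 7) = 1 + 1 := by norm_num
    rw [this, Real.exp_add]
    exact Rstar_le_s8 _ (Real.exp_pos 1) Real.exp_one_lt_d9
  exact le_of_pow_le_pow_left₀ (by norm_num) (by norm_num) h1

theorem Rstar_le_T (m d : ℕ) (hm : 1 ≤ m) (hd : 3 ≤ d) :
    ((1 - 1 / ((d : ℝ) - 1) ^ 2) / (1 - 2 * (1 / ((d : ℝ) - 1) ^ 2))) ^
      ((((2 * m : ℕ) : ℝ) * ((d : ℝ) - 2) + 1) / 2) ≤ (3 / 2 : ℝ) ^ ((m : ℝ) + 1 / 2) := by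
  have hm' : (1 : ℝ) ≤ m := by exact_mod_cast hm
  rcases eq_or_lt_of_le hd with rfl | hd4
  · have e1 : (1 - 1 / (((3 : ℕ) : ℝ) - 1) ^ 2) / (1 - 2 * (1 / (((3 : ℕ) : ℝ) - 1) ^ 2)) = 3 / 2 := by
      norm_num
    have e2 : (((2 * m : ℕ) : ℝ) * (((3 : ℕ) : ℝ) - 2) + 1) / 2 = (m : ℝ) + 1 / 2 := by
      push_cast
      ring
    rw [e1, e2]
  · have hd' : (4 : ℝ) ≤ d := by exact_mod_cast hd4
    set D : ℝ := (d : ℝ) with hD
    set a : ℝ := (((2 * m : ℕ) : ℝ) * (D - 2) + 1) / 2 with ha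
    have hX : 0 < (D - 1) ^ 2 - 2 := by
      have := Rstar_le_s9 D hd'
      linarith
    have hD1 : D - 1 ≠ 0 := by
      intro h; linarith
    have hY : (1 - 2 * (1 / (D - 1) ^ 2)) ≠ 0 := by
      have : 1 - 2 * (1 / (D - 1) ^ 2) = ((D - 1) ^ 2 - 2) / (D - 1) ^ 2 := by
        field_simp
      rw [this]
      positivity
    have e1 : (1 - 1 / (D - 1) ^ 2) / (1 - 2 * (1 / (D - 1) ^ 2)) = 1 / ((D - 1) ^ 2 - 2) + 1 := by
      have h5 : 1 - 2 * (1 / (D - 1) ^ 2) = ((D - 1) ^ 2 - 2) / (D - 1) ^ 2 := by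
        field_simp
      have h6 : 1 - 1 / (D - 1) ^ 2 = ((D - 1) ^ 2 - 1) / (D - 1) ^ 2 := by
        field_simp
      rw [h5, h6]
      have h7 := hX.ne'
      field_simp
      ring
    rw [e1]
    have ha0 : 0 ≤ a := by
      rw [ha]
      push_cast
      have : 0 ≤ 2 * (m : ℝ) * (D - 2) := mul_nonneg (by linarith) (by linarith)
      linarith
    have h1 : 1 / ((D - 1) ^ 2 - 2) + 1 ≤ Real.exp (1 / ((D - 1) ^ 2 - 2)) := Real.add_one_le_exp _
    have h0 : 0 ≤ 1 / ((D - 1) ^ 2 - 2) + 1 := by positivity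
    have h2 : 1 / ((D - 1) ^ 2 - 2) * a ≤ 2 / 7 * ((m : ℝ) + 1 / 2) := by
      rw [one_div_mul_eq_div, div_le_iff₀ hX, ha]
      push_cast
      have h3 : 7 / 2 * (D - 2) ≤ (D - 1) ^ 2 - 2 := Rstar_le_s10 D hd'
      have h4 : 7 ≤ (D - 1) ^ 2 - 2 := Rstar_le_s9 D hd'
      have h5 : (m : ℝ) * (7 / 2 * (D - 2)) ≤ m * ((D - 1) ^ 2 - 2) :=
        mul_le_mul_of_nonneg_left h3 (by linarith)
      exact Rstar_le_s11 _ m _ D h5 h4 rfl
    calc (1 / ((D - 1) ^ 2 - 2) + 1) ^ a ≤ (Real.exp (1 / ((D - 1) ^ 2 - 2))) ^ a :=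
          Real.rpow_le_rpow h0 h1 ha0
      _ = Real.exp (1 / ((D - 1) ^ 2 - 2) * a) := by rw [← Real.exp_mul]
      _ ≤ Real.exp (2 / 7 * ((m : ℝ) + 1 / 2)) := Real.exp_le_exp.2 h2
      _ = (Real.exp (2 / 7)) ^ ((m : ℝ) + 1 / 2) := by rw [Real.exp_mul]
      _ ≤ (3 / 2 : ℝ) ^ ((m : ℝ) + 1 / 2) :=
          Real.rpow_le_rpow (Real.exp_pos _).le Rstar_le_exp27 (by linarith)

theorem Rstar_le_U : ∃ C : ℝ, 0 ≤ C ∧ ∀ m : ℕ, 1 ≤ m →
    √(m : ℝ) * ((3 / 2 : ℝ) ^ ((m : ℝ) + 1 / 2) * (2 : ℝ) ^ (-((3 * m / 4 : ℕ) : ℝ))) ≤ C / m := by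
  set r : ℝ := 3 / 2 * (2 : ℝ) ^ (-(3 / 4) : ℝ) with hr
  have hr0 : 0 < r := by rw [hr]; positivity
  have hr1 : r < 1 := by
    have h1 : r ^ 4 = 81 / 128 := by
      rw [hr, mul_pow, ← Real.rpow_natCast ((2 : ℝ) ^ (-(3 / 4) : ℝ)), ← Real.rpow_mul (by norm_num)]
      have : (-(3 / 4) : ℝ) * ((4 : ℕ) : ℝ) = -((3 : ℕ) : ℝ) := by norm_num
      rw [this, Real.rpow_neg (by norm_num), Real.rpow_natCast]
      norm_num
    by_contra h
    have h := not_lt.1 h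
    have : (1 : ℝ) ≤ r ^ 4 := one_le_pow₀ h
    rw [h1] at this
    norm_num at this
  have ht := tendsto_pow_const_mul_const_pow_of_lt_one 2 hr0.le hr1
  obtain ⟨B, hB⟩ := ht.bddAbove_range
  set k : ℝ := (3 / 2 : ℝ) ^ (1 / 2 : ℝ) * (2 : ℝ) ^ (3 / 4 : ℝ) with hk
  have hk0 : 0 < k := by rw [hk]; positivity
  have hB' : ∀ m : ℕ, (m : ℝ) ^ 2 * r ^ m ≤ B := fun m => hB ⟨m, rfl⟩
  have hB0 : 0 ≤ B := by
    have := hB' 0
    simpa using this
  refine ⟨B * k, mul_nonneg hB0 hk0.le, ?_⟩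
  intro m hm
  have hm' : (1 : ℝ) ≤ m := by exact_mod_cast hm
  have h1 : √(m : ℝ) ≤ m := by
    rw [Real.sqrt_le_left (by linarith)]
    nlinarith
  have h2 : (2 : ℝ) ^ (-((3 * m / 4 : ℕ) : ℝ)) ≤ (2 : ℝ) ^ (-(3 / 4) * (m : ℝ) + 3 / 4) := by
    apply Real.rpow_le_rpow_of_exponent_le (by norm_num)
    have h3 : 3 * m ≤ 4 * (3 * m / 4) + 3 := by omega
    have h4 : (3 : ℝ) * m ≤ 4 * ((3 * m / 4 : ℕ) : ℝ) + 3 := by exact_mod_cast h3
    linarith
  have h5 : (3 / 2 : ℝ) ^ ((m : ℝ) + 1 / 2) * (2 : ℝ) ^ (-(3 / 4) * (m : ℝ) + 3 / 4) = r ^ m * k := by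
    rw [Real.rpow_add (by norm_num), Real.rpow_add (by norm_num), Real.rpow_mul (by norm_num),
      Real.rpow_natCast, Real.rpow_natCast, hr, hk, mul_pow]
    ring
  rw [le_div_iff₀ (by linarith)]
  calc √(m : ℝ) * ((3 / 2 : ℝ) ^ ((m : ℝ) + 1 / 2) * (2 : ℝ) ^ (-((3 * m / 4 : ℕ) : ℝ))) * m
      ≤ m * ((3 / 2 : ℝ) ^ ((m : ℝ) + 1 / 2) * (2 : ℝ) ^ (-(3 / 4) * (m : ℝ) + 3 / 4)) * m := by
        apply mul_le_mul_of_nonneg_right _ (by linarith)
        apply mul_le_mul h1 _ (by positivity) (by linarith)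
        exact mul_le_mul_of_nonneg_left h2 (by positivity)
    _ = ((m : ℝ) ^ 2 * r ^ m) * k := by rw [h5]; ring
    _ ≤ B * k := mul_le_mul_of_nonneg_right (hB' m) hk0.le

theorem Rstar_le_Lam0 (d : ℕ) (hd : 3 ≤ d) : 0 ≤ Lam d (1 / d) := by
  have hd' : (3 : ℝ) ≤ d := by exact_mod_cast hd
  unfold Lam
  have h1 : ((d : ℝ) - 1) * (1 / d) / (d - 2 + 1 / d) ≤ 1 / 2 := by
    have h2 : (0 : ℝ) < d := by linarith
    have h3 : (0 : ℝ) < d - 2 + 1 / d := by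
      have : (0 : ℝ) < 1 / d := by positivity
      linarith
    rw [div_le_iff₀ h3]
    have h4 : (0 : ℝ) < 1 / d := by positivity
    have h5 : (d : ℝ) * (1 / d) = 1 := by field_simp
    have h6 : (1 : ℝ) / d ≤ 1 / 3 := one_div_le_one_div_of_le (by norm_num) hd'
    nlinarith
  have h0 : 0 ≤ ((d : ℝ) - 1) * (1 / d) / (d - 2 + 1 / d) := by
    have h2 : (0 : ℝ) < 1 / d := by positivity
    have h3 : (0 : ℝ) < d - 2 + 1 / d := by linarith
    have h4 : (0 : ℝ) < (d : ℝ) - 1 := by linarith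
    positivity
  nlinarith

theorem Rstar_le_Lam1 (d : ℕ) (hd : 3 ≤ d) (θ : ℝ) (hθ : 0 ≤ θ) : Lam d θ ≤ 1 / 2 := by
  have hd' : (3 : ℝ) ≤ d := by exact_mod_cast hd
  unfold Lam
  have h0 : 0 ≤ ((d : ℝ) - 1) * θ / (d - 2 + θ) := by
    have h3 : (0 : ℝ) < d - 2 + θ := by linarith
    have h4 : (0 : ℝ) < (d : ℝ) - 1 := by linarith
    positivity
  nlinarith

theorem Rstar_le_half : Real.exp (1 / 2) ≤ 2 := by
  have h1 : Real.exp (1 / 2) ^ 2 ≤ (2 : ℝ) ^ 2 := by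
    rw [← Real.exp_nat_mul]
    have : ((2 : ℕ) : ℝ) * (1 / 2) = 1 := by norm_num
    rw [this]
    have := Real.exp_one_lt_d9
    linarith
  exact le_of_pow_le_pow_left₀ (by norm_num) (by norm_num) h1

set_option maxHeartbeats 2000000 in
/-- TARGET (if you prefer, split it into lemmas of your own) -/
theorem Rstar_le : ∃ C : ℝ, 0 ≤ C ∧ ∀ n d : ℕ, Even n → 2 ≤ n → 3 ≤ d →
    ∑ J ∈ range (n / 2 + 1), ((n / 2).choose J : ℝ) * (Dn (n / 2 - J) : ℝ) * Real.exp (phi n d J)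
      ≤ ((n - 1).doubleFactorial : ℝ) * (((d : ℝ) - 1) / √((d : ℝ) * ((d : ℝ) - 2))
          * (Real.exp (Lam d (1 / d) - 1 / 2) / √(1 - 1 / (d : ℝ)))) * (1 + C / n) := by
  obtain ⟨C0, hC0, hDn⟩ := Dn_le
  obtain ⟨C1, hC1, hsm⟩ := smooth_le
  obtain ⟨C2, hC2, hU⟩ := Rstar_le_U
  refine ⟨16 * C0 + 2 * C1 + 32 * C0 * C1 + 16 * (1 + C0) * C2, by positivity, ?_⟩
  intro n d hn h2 hd
  obtain ⟨m, rfl⟩ := hn.two_dvd
  have hm : 1 ≤ m := by omega
  have hm' : (1 : ℝ) ≤ m := by exact_mod_cast hm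
  have hd' : (3 : ℝ) ≤ d := by exact_mod_cast hd
  have hn2 : 2 * m / 2 = m := by omega
  obtain ⟨c₁, hc₁, hquad, hsm⟩ := hsm d hd'
  have hP := P0_le (2 * m) d hn h2 hd
  have hphi := fun J (hJ : J ≤ m) => Rstar_le_phi m d J hJ hd
  have hmom := Rstar_le_mom m d hm hd c₁ C1 hc₁ hquad
  have hT := Rstar_le_T m d hm hd
  set N : ℝ := ((2 * m : ℕ) : ℝ) with hN
  have hNm : N = 2 * m := by rw [hN]; push_cast; ring
  have hN0 : 0 < N := by rw [hNm]; linarith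
  set a : ℝ := (N * ((d : ℝ) - 2) + 1) / 2 with ha
  set q : ℝ := 1 / ((d : ℝ) - 1) ^ 2 with hq
  have hD1 : (0 : ℝ) < ((d : ℝ) - 1) ^ 2 := by
    have : 0 < (d : ℝ) - 1 := by linarith
    positivity
  have hq0 : 0 ≤ q := by rw [hq]; positivity
  have hq4 : q ≤ 1 / 4 := by
    rw [hq]
    exact one_div_le_one_div_of_le (by norm_num) (Rstar_le_s1 _ hd')
  have ha0 : 0 < a := by
    rw [ha]
    have : 0 ≤ N * ((d : ℝ) - 2) := mul_nonneg hN0.le (by linarith)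
    linarith
  have h1q : 0 < 1 - q := by linarith
  have h2q : 0 < 1 - 2 * q := by linarith
  set E : ℝ := N * Real.log (((d : ℝ) - 1) / d) + LF (2 * m * d / 2) +
        LF (2 * m * d / 2 - 2 * m) - 2 * LF (2 * m * d / 2 - 2 * m / 2) with hE
  set ρ0 : ℝ := ((d : ℝ) - 1) / √((d : ℝ) * ((d : ℝ) - 2)) with hρ0
  have hρ0p : 0 < ρ0 := by
    rw [hρ0]
    have h3 : 0 < (d : ℝ) * ((d : ℝ) - 2) := mul_pos (by linarith) (by linarith)
    have h4 : 0 < (d : ℝ) - 1 := by linarith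
    have := Real.sqrt_pos.2 h3
    positivity
  set S0 : ℝ := (1 - q) ^ (-a) with hS0
  have hPS : Real.exp E * S0 ≤ ρ0 := by
    rw [hS0, Real.rpow_def_of_pos h1q, ← Real.exp_add]
    have : E + Real.log (1 - q) * -a ≤ Real.log ρ0 := by
      have h5 : E - a * Real.log (1 - q) ≤ Real.log ρ0 := hP
      linarith
    calc Real.exp (E + Real.log (1 - q) * -a) ≤ Real.exp (Real.log ρ0) := Real.exp_le_exp.2 this
      _ = ρ0 := Real.exp_log hρ0p
  set Dm : ℝ := ((2 * m - 1).doubleFactorial : ℝ) with hDm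
  have hDmp : 0 < Dm := Rstar_le_dfpos m
  set ei : ℝ := Real.exp (-1 / 2) with hei
  have heip : 0 < ei := Real.exp_pos _
  have hei1 : ei ≤ 1 := by
    rw [hei]
    apply Real.exp_le_one_iff.2
    norm_num
  have hW : ∀ J, 0 ≤ W a q J := by
    intro J
    unfold W
    have : 0 ≤ ∏ t ∈ range J, (a + t) := Finset.prod_nonneg fun t _ => by positivity
    positivity
  have hPp : 0 < Real.exp E := Real.exp_pos _
  -- the bound of a term
  have hterm : ∀ J ≤ m, ((2 * m / 2).choose J : ℝ) * (Dn (2 * m / 2 - J) : ℝ) *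
      Real.exp (phi (2 * m) d J) ≤ Dm * Real.exp E * (W a q J *
        ((Rstar_le_cc m / Rstar_le_cc (m - J)) * Real.exp (Lam d (2 * J / N)) *
          (ei + C0 / (((m - J : ℕ) : ℝ) + 1)))) := by
    intro J hJ
    rw [hn2, hphi J hJ]
    have h5 := hDn (m - J)
    have h6 : (0 : ℝ) ≤ (m.choose J : ℝ) := Nat.cast_nonneg _
    have h7 := Rstar_le_choose m J hJ
    have h8 : 0 ≤ Real.exp E * ((2 ^ J * (J.factorial : ℝ)) * W a q J) * Real.exp (Lam d (2 * J / N)) := by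
      have := hW J
      positivity
    calc (m.choose J : ℝ) * (Dn (m - J) : ℝ) * (Real.exp E * ((2 ^ J * (J.factorial : ℝ)) * W a q J) *
          Real.exp (Lam d (2 * J / N)))
        ≤ (m.choose J : ℝ) * (((2 * (m - J) - 1).doubleFactorial : ℝ) *
          (ei + C0 / (((m - J : ℕ) : ℝ) + 1))) * (Real.exp E * ((2 ^ J * (J.factorial : ℝ)) * W a q J) *
          Real.exp (Lam d (2 * J / N))) := by
          apply mul_le_mul_of_nonneg_right _ h8
          exact mul_le_mul_of_nonneg_left h5 h6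
      _ = ((m.choose J : ℝ) * ((2 * (m - J) - 1).doubleFactorial : ℝ) * (2 ^ J * (J.factorial : ℝ))) *
          Real.exp E * (W a q J * (Real.exp (Lam d (2 * J / N)) *
          (ei + C0 / (((m - J : ℕ) : ℝ) + 1)))) := by ring
      _ = _ := by rw [h7]; ring
  set G : ℝ := Real.exp (Lam d (1 / d)) / √(1 - 1 / (d : ℝ)) with hG
  have h1d : 0 < 1 - 1 / (d : ℝ) := by
    have : (1 : ℝ) / d ≤ 1 / 3 := one_div_le_one_div_of_le (by norm_num) hd'
    linarith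
  have hGp : 0 < G := by
    rw [hG]
    have := Real.sqrt_pos.2 h1d
    positivity
  have hG1 : 1 ≤ G := by
    rw [hG, le_div_iff₀ (Real.sqrt_pos.2 h1d), one_mul]
    have h5 : √(1 - 1 / (d : ℝ)) ≤ 1 := by
      rw [Real.sqrt_le_one]
      have : (0 : ℝ) < 1 / d := by positivity
      linarith
    exact h5.trans (Real.one_le_exp (Rstar_le_Lam0 d hd))
  have hrho : Real.exp (Lam d (1 / d) - 1 / 2) / √(1 - 1 / (d : ℝ)) = G * ei := by
    rw [hG, hei, sub_eq_add_neg, Real.exp_add]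
    have : (-(1 / 2) : ℝ) = -1 / 2 := by ring
    rw [this]
    ring
  -- main part
  have hmain : ∑ J ∈ (range (m + 1)).filter (fun J => 4 * J ≤ 3 * m),
      ((2 * m / 2).choose J : ℝ) * (Dn (2 * m / 2 - J) : ℝ) * Real.exp (phi (2 * m) d J) ≤
      Dm * ρ0 * G * (ei + 8 * C0 / N) * (1 + 2 * C1 / N) := by
    have hb : ∀ J ∈ (range (m + 1)).filter (fun J => 4 * J ≤ 3 * m),
        ((2 * m / 2).choose J : ℝ) * (Dn (2 * m / 2 - J) : ℝ) * Real.exp (phi (2 * m) d J) ≤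
        (Dm * Real.exp E * G * (ei + 8 * C0 / N)) * (W a q J *
          (1 + c₁ * (2 * J / N - 1 / d) + C1 * (2 * J / N - 1 / d) ^ 2)) := by
      intro J hJ
      rw [Finset.mem_filter, Finset.mem_range] at hJ
      obtain ⟨hJ1, hJ2⟩ := hJ
      have hJm : J ≤ m := by omega
      have hk1 : 1 ≤ m - J := by omega
      have hkc : ((m - J : ℕ) : ℝ) = m - J := by push_cast [hJm]; ring
      have hJ2' : 4 * (J : ℝ) ≤ 3 * m := by exact_mod_cast hJ2
      refine (hterm J hJm).trans ?_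
      have hθ : 1 - 2 * (J : ℝ) / N = ((m - J : ℕ) : ℝ) / m := by
        rw [hNm, hkc]
        field_simp
      have hθ0 : 0 ≤ 2 * (J : ℝ) / N := by positivity
      have hθ1 : 2 * (J : ℝ) / N ≤ 3 / 4 := by
        rw [div_le_iff₀ hN0, hNm]
        linarith
      have h5 := Rstar_le_cc_sqrt (m - J) m hk1 (Nat.sub_le _ _)
      rw [← hθ] at h5
      have h6 := hsm (2 * J / N) hθ0 hθ1
      have h7 : (Rstar_le_cc m / Rstar_le_cc (m - J)) * Real.exp (Lam d (2 * J / N)) ≤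
          G * (1 + c₁ * (2 * J / N - 1 / d) + C1 * (2 * J / N - 1 / d) ^ 2) := by
        refine le_trans ?_ h6
        rw [div_eq_mul_one_div (Real.exp (Lam d (2 * J / N))), mul_comm]
        exact mul_le_mul_of_nonneg_left h5 (Real.exp_pos _).le
      have h8 : ei + C0 / (((m - J : ℕ) : ℝ) + 1) ≤ ei + 8 * C0 / N := by
        have h9 : C0 / (((m - J : ℕ) : ℝ) + 1) ≤ 8 * C0 / N := by
          rw [hkc, hNm, div_le_div_iff₀ (by linarith) (by linarith)]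
          exact Rstar_le_s2 C0 m J hC0 hJ2'
        linarith
      have h10 : 0 ≤ ei + C0 / (((m - J : ℕ) : ℝ) + 1) := by positivity
      have h11 : (Rstar_le_cc m / Rstar_le_cc (m - J)) * Real.exp (Lam d (2 * J / N)) *
          (ei + C0 / (((m - J : ℕ) : ℝ) + 1)) ≤
          (G * (1 + c₁ * (2 * J / N - 1 / d) + C1 * (2 * J / N - 1 / d) ^ 2)) * (ei + 8 * C0 / N) :=
        mul_le_mul h7 h8 h10 (mul_nonneg hGp.le (hquad _))
      have h12 := mul_le_mul_of_nonneg_left (mul_le_mul_of_nonneg_left h11 (hW J))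
        (mul_pos hDmp hPp).le
      refine h12.trans (le_of_eq ?_)
      ring
    refine (Finset.sum_le_sum hb).trans ?_
    rw [← Finset.mul_sum]
    have h5 := hmom ((range (m + 1)).filter (fun J => 4 * J ≤ 3 * m))
    have h6 : 0 ≤ Dm * Real.exp E * G * (ei + 8 * C0 / N) := by positivity
    refine (mul_le_mul_of_nonneg_left h5 h6).trans ?_
    have h7 : Dm * Real.exp E * G * (ei + 8 * C0 / N) * (S0 * (1 + 2 * C1 / N)) =
        (Dm * G * (ei + 8 * C0 / N) * (1 + 2 * C1 / N)) * (Real.exp E * S0) := by ring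
    have h8 : Dm * ρ0 * G * (ei + 8 * C0 / N) * (1 + 2 * C1 / N) =
        (Dm * G * (ei + 8 * C0 / N) * (1 + 2 * C1 / N)) * ρ0 := by ring
    rw [h7, h8]
    exact mul_le_mul_of_nonneg_left hPS (by positivity)
  -- tail
  have htail : ∑ J ∈ (range (m + 1)).filter (fun J => ¬ 4 * J ≤ 3 * m),
      ((2 * m / 2).choose J : ℝ) * (Dn (2 * m / 2 - J) : ℝ) * Real.exp (phi (2 * m) d J) ≤
      Dm * ρ0 * (4 * (1 + C0)) * (C2 / m) := by
    have hb : ∀ J ∈ (range (m + 1)).filter (fun J => ¬ 4 * J ≤ 3 * m),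
        ((2 * m / 2).choose J : ℝ) * (Dn (2 * m / 2 - J) : ℝ) * Real.exp (phi (2 * m) d J) ≤
        (Dm * Real.exp E * (2 * √(m : ℝ) * 2 * (1 + C0))) * W a q J := by
      intro J hJ
      rw [Finset.mem_filter, Finset.mem_range] at hJ
      have hJm : J ≤ m := by omega
      refine (hterm J hJm).trans ?_
      have h5 := Rstar_le_cc_all (m - J) m hm (Nat.sub_le _ _)
      have h6 : Real.exp (Lam d (2 * J / N)) ≤ 2 :=
        (Real.exp_le_exp.2 (Rstar_le_Lam1 d hd _ (by positivity))).trans Rstar_le_half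
      have h8 : ei + C0 / (((m - J : ℕ) : ℝ) + 1) ≤ 1 + C0 := by
        have h9 : C0 / (((m - J : ℕ) : ℝ) + 1) ≤ C0 := by
          apply div_le_self hC0
          have : (0 : ℝ) ≤ ((m - J : ℕ) : ℝ) := Nat.cast_nonneg _
          linarith
        linarith
      have h10 : 0 ≤ ei + C0 / (((m - J : ℕ) : ℝ) + 1) := by positivity
      have h9 : 0 ≤ Rstar_le_cc m / Rstar_le_cc (m - J) :=
        (div_pos (Rstar_le_ccpos _) (Rstar_le_ccpos _)).le
      have h11 : (Rstar_le_cc m / Rstar_le_cc (m - J)) * Real.exp (Lam d (2 * J / N)) *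
          (ei + C0 / (((m - J : ℕ) : ℝ) + 1)) ≤ 2 * √(m : ℝ) * 2 * (1 + C0) :=
        mul_le_mul (mul_le_mul h5 h6 (Real.exp_pos _).le (by positivity)) h8 h10 (by positivity)
      have h12 := mul_le_mul_of_nonneg_left (mul_le_mul_of_nonneg_left h11 (hW J))
        (mul_pos hDmp hPp).le
      refine h12.trans (le_of_eq ?_)
      ring
    refine (Finset.sum_le_sum hb).trans ?_
    rw [← Finset.mul_sum]
    have h5 := nb_tail a q ha0 hq0 (by linarith) ((range (m + 1)).filter (fun J => ¬ 4 * J ≤ 3 * m))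
      (3 * m / 4) (by
        intro J hJ
        rw [Finset.mem_filter, Finset.mem_range] at hJ
        omega)
    have h6 : (1 - 2 * q) ^ (-a) = S0 * ((1 - q) / (1 - 2 * q)) ^ a := by
      rw [hS0, Real.div_rpow h1q.le h2q.le, Real.rpow_neg h1q.le, Real.rpow_neg h2q.le]
      have := (Real.rpow_pos_of_pos h1q a).ne'
      field_simp
    have h7 : Real.exp E * (1 - 2 * q) ^ (-a) ≤ ρ0 * (3 / 2 : ℝ) ^ ((m : ℝ) + 1 / 2) := by
      rw [h6, ← mul_assoc]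
      exact mul_le_mul hPS hT (by positivity) hρ0p.le
    have h8 := hU m hm
    calc Dm * Real.exp E * (2 * √(m : ℝ) * 2 * (1 + C0)) *
          ∑ J ∈ (range (m + 1)).filter (fun J => ¬ 4 * J ≤ 3 * m), W a q J
        ≤ Dm * Real.exp E * (2 * √(m : ℝ) * 2 * (1 + C0)) *
          ((2 : ℝ) ^ (-((3 * m / 4 : ℕ) : ℝ)) * (1 - 2 * q) ^ (-a)) :=
          mul_le_mul_of_nonneg_left h5 (by positivity)
      _ = (Dm * (4 * (1 + C0)) * √(m : ℝ) * (2 : ℝ) ^ (-((3 * m / 4 : ℕ) : ℝ))) *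
          (Real.exp E * (1 - 2 * q) ^ (-a)) := by ring
      _ ≤ (Dm * (4 * (1 + C0)) * √(m : ℝ) * (2 : ℝ) ^ (-((3 * m / 4 : ℕ) : ℝ))) *
          (ρ0 * (3 / 2 : ℝ) ^ ((m : ℝ) + 1 / 2)) :=
          mul_le_mul_of_nonneg_left h7 (by positivity)
      _ = (Dm * ρ0 * (4 * (1 + C0))) * (√(m : ℝ) * ((3 / 2 : ℝ) ^ ((m : ℝ) + 1 / 2) *
          (2 : ℝ) ^ (-((3 * m / 4 : ℕ) : ℝ)))) := by ring
      _ ≤ _ := mul_le_mul_of_nonneg_left h8 (by positivity)
  have hr : 2 * m / 2 + 1 = m + 1 := by omega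
  rw [hr, ← Finset.sum_filter_add_sum_filter_not (range (m + 1)) (fun J => 4 * J ≤ 3 * m)]
  refine (add_le_add hmain htail).trans ?_
  rw [hrho]
  -- final comparison
  have hee : 1 ≤ 2 * ei := by
    have h5 : ei * Real.exp (1 / 2) = 1 := by
      rw [hei, ← Real.exp_add]; norm_num
    exact Rstar_le_s3 ei _ heip h5 Rstar_le_half
  have hmN : C2 / (m : ℝ) = 2 * C2 / N := by
    rw [hNm]; field_simp
  rw [hmN]
  have hN1 : 1 ≤ N := by rw [hNm]; linarith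
  have hinv : 1 / N ≤ 1 := by rw [div_le_one hN0]; exact hN1
  have hinv0 : 0 ≤ 1 / N := by positivity
  set x : ℝ := 1 / N with hx
  have e1 : 8 * C0 / N = 8 * C0 * x := by rw [hx]; ring
  have e2 : 2 * C1 / N = 2 * C1 * x := by rw [hx]; ring
  have e3 : 2 * C2 / N = 2 * C2 * x := by rw [hx]; ring
  have e4 : (16 * C0 + 2 * C1 + 32 * C0 * C1 + 16 * (1 + C0) * C2) / N =
      (16 * C0 + 2 * C1 + 32 * C0 * C1 + 16 * (1 + C0) * C2) * x := by rw [hx]; ring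
  rw [e1, e2, e3, e4]
  have k1 : (ei + 8 * C0 * x) * (1 + 2 * C1 * x) ≤
      ei * (1 + (16 * C0 + 2 * C1 + 32 * C0 * C1) * x) := by
    have k2 : 8 * C0 * x ≤ ei * (16 * C0 * x) := by
      have : 0 ≤ 8 * C0 * x := by positivity
      exact Rstar_le_s4 ei C0 x hee this
    have k3 : (ei + 8 * C0 * x) * (1 + 2 * C1 * x) ≤ (ei + ei * (16 * C0 * x)) * (1 + 2 * C1 * x) :=
      mul_le_mul_of_nonneg_right (by linarith) (by positivity)
    have k4 : (ei + ei * (16 * C0 * x)) * (1 + 2 * C1 * x) =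
        ei * (1 + (16 * C0 + 2 * C1) * x + 32 * C0 * C1 * x * x) := by ring
    have k5 : 32 * C0 * C1 * x * x ≤ 32 * C0 * C1 * x * 1 :=
      mul_le_mul_of_nonneg_left hinv (by positivity)
    rw [k4] at k3
    refine k3.trans (mul_le_mul_of_nonneg_left ?_ heip.le)
    linarith
  have k6 : (4 * (1 + C0)) * (2 * C2 * x) ≤ G * ei * (16 * (1 + C0) * C2 * x) := by
    have k7 : 1 ≤ 2 * (G * ei) := Rstar_le_s5 G ei hG1 heip hee
    have k8 : 0 ≤ 8 * (1 + C0) * C2 * x := by positivity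
    exact Rstar_le_s6 (G * ei) (1 + C0) C2 x k7 k8
  have k9 : Dm * ρ0 * G * (ei + 8 * C0 * x) * (1 + 2 * C1 * x) ≤
      Dm * ρ0 * G * (ei * (1 + (16 * C0 + 2 * C1 + 32 * C0 * C1) * x)) := by
    have := mul_le_mul_of_nonneg_left k1 (show 0 ≤ Dm * ρ0 * G by positivity)
    linarith
  have k10 : Dm * ρ0 * (4 * (1 + C0)) * (2 * C2 * x) ≤
      Dm * ρ0 * (G * ei * (16 * (1 + C0) * C2 * x)) := by
    have := mul_le_mul_of_nonneg_left k6 (show 0 ≤ Dm * ρ0 by positivity)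
    linarith
  refine (add_le_add k9 k10).trans (le_of_eq ?_)
  ring

end MF5

export MF5 (Rstar_le)

end Pool.Agent.H698NC
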