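import Mathlib

set_option autoImplicit false

namespace Pool.Agent.H698NC

open Finset

namespace MG



open scoped Classical in
/-- a defective coupling supported on a relation can be completed -/
theorem complete_coupling {α β : Type} [Fintype α] [Fintype β] (S : Finset α) (T : Finset β)
    (hS : S.Nonempty) (hT : T.Nonempty) (R : α → β → Prop) (q : α → β → ℝ)
    (h0 : ∀ x y, 0 ≤ q x y) (hqS : ∀ x, x ∉ S → ∀ y, q x y = 0)
    (hqT : ∀ y, y ∉ T → ∀ x, q x y = 0) (hrow : ∀ x ∈ S, ∑ y, q x y ≤ 1 / (S.card : ℝ))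
    (hcol : ∀ y ∈ T, ∑ x, q x y ≤ 1 / (T.card : ℝ)) (hR : ∀ x y, ¬ R x y → q x y = 0) :
    ∃ μ : PMF (α × β), μ.map Prod.fst = PMF.uniformOfFinset S hS ∧
      μ.map Prod.snd = PMF.uniformOfFinset T hT ∧
      ENNReal.ofReal (∑ x, ∑ y, q x y) ≤ μ.toOuterMeasure {p | R p.1 p.2} := by
  have hn : 0 < (S.card : ℝ) := by exact_mod_cast hS.card_pos
  have hm : 0 < (T.card : ℝ) := by exact_mod_cast hT.card_pos
  obtain ⟨Q, hQ⟩ : ∃ Q : ℝ, Q = ∑ x, ∑ y, q x y := ⟨_, rfl⟩
  obtain ⟨r1, hr1⟩ : ∃ r1 : α → ℝ, r1 = fun x =>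
    if x ∈ S then 1 / (S.card : ℝ) - ∑ y, q x y else 0 := ⟨_, rfl⟩
  obtain ⟨r2, hr2⟩ : ∃ r2 : β → ℝ, r2 = fun y =>
    if y ∈ T then 1 / (T.card : ℝ) - ∑ x, q x y else 0 := ⟨_, rfl⟩
  have r1n : ∀ x, 0 ≤ r1 x := by
    intro x
    rw [hr1]
    simp only
    split_ifs with h
    · exact sub_nonneg.2 (hrow x h)
    · exact le_rfl
  have r2n : ∀ y, 0 ≤ r2 y := by
    intro y
    rw [hr2]
    simp only
    split_ifs with h
    · exact sub_nonneg.2 (hcol y h)
    · exact le_rfl
  have r1s : ∑ x, r1 x = 1 - Q := by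
    have e1 : ∀ x, r1 x = (if x ∈ S then 1 / (S.card : ℝ) else 0) - ∑ y, q x y := by
      intro x
      rw [hr1]
      simp only
      split_ifs with h
      · rfl
      · rw [Finset.sum_eq_zero fun y _ => hqS x h y, sub_zero]
    rw [Finset.sum_congr rfl fun x _ => e1 x, Finset.sum_sub_distrib, ← hQ, Finset.sum_ite_mem,
      Finset.univ_inter, Finset.sum_const, nsmul_eq_mul, mul_one_div_cancel hn.ne']
  have r2s : ∑ y, r2 y = 1 - Q := by
    have e1 : ∀ y, r2 y = (if y ∈ T then 1 / (T.card : ℝ) else 0) - ∑ x, q x y := by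
      intro y
      rw [hr2]
      simp only
      split_ifs with h
      · rfl
      · rw [Finset.sum_eq_zero fun x _ => hqT y h x, sub_zero]
    rw [Finset.sum_congr rfl fun x _ => e1 x, Finset.sum_sub_distrib, Finset.sum_comm, ← hQ,
      Finset.sum_ite_mem,
      Finset.univ_inter, Finset.sum_const, nsmul_eq_mul, mul_one_div_cancel hm.ne']
  have hρ : 0 ≤ 1 - Q := by
    rw [← r1s]
    exact Finset.sum_nonneg fun x _ => r1n x
  obtain ⟨w, hw⟩ : ∃ w : α × β → ℝ, w = fun p => q p.1 p.2 + r1 p.1 * r2 p.2 / (1 - Q) := ⟨_, rfl⟩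
  have w0 : ∀ p, 0 ≤ w p := by
    intro p
    rw [hw]
    exact add_nonneg (h0 _ _) (div_nonneg (mul_nonneg (r1n _) (r2n _)) hρ)
  have row : ∀ x, ∑ y, w (x, y) = if x ∈ S then 1 / (S.card : ℝ) else 0 := by
    intro x
    rw [hw]
    simp only
    rw [Finset.sum_add_distrib, ← Finset.sum_div, ← Finset.mul_sum, r2s]
    have e1 : r1 x * (1 - Q) / (1 - Q) = r1 x := by
      rcases hρ.eq_or_lt with h | h
      · have h1 : ∑ x, r1 x = 0 := by rw [r1s, ← h]
        have h2 := (Finset.sum_eq_zero_iff_of_nonneg fun x _ => r1n x).1 h1 x (Finset.mem_univ _)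
        rw [h2, zero_mul, zero_div]
      · exact mul_div_cancel_right₀ _ h.ne'
    rw [e1, hr1]
    simp only
    split_ifs with h
    · ring
    · rw [Finset.sum_eq_zero fun y _ => hqS x h y, add_zero]
  have col : ∀ y, ∑ x, w (x, y) = if y ∈ T then 1 / (T.card : ℝ) else 0 := by
    intro y
    rw [hw]
    simp only
    rw [Finset.sum_add_distrib, ← Finset.sum_div, ← Finset.sum_mul, r1s]
    have e1 : (1 - Q) * r2 y / (1 - Q) = r2 y := by
      rcases hρ.eq_or_lt with h | h
      · have h1 : ∑ y, r2 y = 0 := by rw [r2s, ← h]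
        have h2 := (Finset.sum_eq_zero_iff_of_nonneg fun x _ => r2n x).1 h1 y (Finset.mem_univ _)
        rw [h2, mul_zero, zero_div]
      · exact mul_div_cancel_left₀ _ h.ne'
    rw [e1, hr2]
    simp only
    split_ifs with h
    · ring
    · rw [Finset.sum_eq_zero fun x _ => hqT y h x, add_zero]
  have tot : ∑ p, w p = 1 := by
    rw [Fintype.sum_prod_type, Finset.sum_congr rfl fun x _ => row x, Finset.sum_ite_mem,
      Finset.univ_inter, Finset.sum_const, nsmul_eq_mul, mul_one_div_cancel hn.ne']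
  have htot : ∑ p, ENNReal.ofReal (w p) = 1 := by
    rw [← ENNReal.ofReal_sum_of_nonneg fun p _ => w0 p, tot, ENNReal.ofReal_one]
  refine ⟨PMF.ofFintype (fun p => ENNReal.ofReal (w p)) htot, ?_, ?_, ?_⟩
  · ext x
    rw [PMF.map_apply, PMF.uniformOfFinset_apply, tsum_fintype, Fintype.sum_prod_type]
    have e1 : ∀ x', ∑ y, (if x = (x', y).1 then
        (PMF.ofFintype (fun p => ENNReal.ofReal (w p)) htot) (x', y) else 0) =
        if x = x' then ∑ y, ENNReal.ofReal (w (x', y)) else 0 := by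
      intro x'
      simp only [PMF.ofFintype_apply]
      split_ifs
      · rfl
      · exact Finset.sum_const_zero
    rw [Finset.sum_congr rfl fun x' _ => e1 x', Finset.sum_ite_eq, if_pos (Finset.mem_univ _),
      ← ENNReal.ofReal_sum_of_nonneg fun y _ => w0 _, row]
    split_ifs
    · rw [one_div, ENNReal.ofReal_inv_of_pos hn, ENNReal.ofReal_natCast]
    · exact ENNReal.ofReal_zero
  · ext y
    rw [PMF.map_apply, PMF.uniformOfFinset_apply, tsum_fintype, Fintype.sum_prod_type,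
      Finset.sum_comm]
    have e1 : ∀ y', ∑ x, (if y = (x, y').2 then
        (PMF.ofFintype (fun p => ENNReal.ofReal (w p)) htot) (x, y') else 0) =
        if y = y' then ∑ x, ENNReal.ofReal (w (x, y')) else 0 := by
      intro y'
      simp only [PMF.ofFintype_apply]
      split_ifs
      · rfl
      · exact Finset.sum_const_zero
    rw [Finset.sum_congr rfl fun y' _ => e1 y', Finset.sum_ite_eq, if_pos (Finset.mem_univ _),
      ← ENNReal.ofReal_sum_of_nonneg fun x _ => w0 _, col]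
    split_ifs
    · rw [one_div, ENNReal.ofReal_inv_of_pos hm, ENNReal.ofReal_natCast]
    · exact ENNReal.ofReal_zero
  · rw [PMF.toOuterMeasure_apply_fintype, ← Fintype.sum_prod_type' (f := q),
      ENNReal.ofReal_sum_of_nonneg fun p _ => h0 _ _]
    refine Finset.sum_le_sum fun p _ => ?_
    by_cases h : R p.1 p.2
    · rw [Set.indicator_of_mem (show p ∈ {p : α × β | R p.1 p.2} from h), PMF.ofFintype_apply]
      refine ENNReal.ofReal_le_ofReal ?_
      rw [hw]
      exact le_add_of_nonneg_right (div_nonneg (mul_nonneg (r1n _) (r2n _)) hρ)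
    · rw [hR _ _ h, ENNReal.ofReal_zero]
      exact zero_le

/-- total variation from the second moment -/
theorem sum_min_ge {α : Type} (S : Finset α) (hS : S.Nonempty) (μ : α → ℝ) (a : ℝ)
    (h1 : ∑ x ∈ S, μ x = 1) (h2 : (S.card : ℝ) * ∑ x ∈ S, μ x ^ 2 ≤ 1 + a) :
    1 - √a / 2 ≤ ∑ x ∈ S, min (μ x) (1 / (S.card : ℝ)) := by
  have hn : 0 < (S.card : ℝ) := by exact_mod_cast hS.card_pos
  have e1 : ∀ x, min (μ x) (1 / (S.card : ℝ)) =
      (μ x + 1 / (S.card : ℝ) - |μ x - 1 / (S.card : ℝ)|) / 2 := by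
    intro x
    rcases le_total (μ x) (1 / (S.card : ℝ)) with h | h
    · rw [min_eq_left h, abs_of_nonpos (sub_nonpos.2 h)]
      ring
    · rw [min_eq_right h, abs_of_nonneg (sub_nonneg.2 h)]
      ring
  have e2 : ∑ x ∈ S, (1 / (S.card : ℝ)) = 1 := by
    rw [Finset.sum_const, nsmul_eq_mul, mul_one_div_cancel hn.ne']
  have h3 : (∑ x ∈ S, |μ x - 1 / (S.card : ℝ)|) ^ 2 ≤ a := by
    refine (sq_sum_le_card_mul_sum_sq (s := S) (f := fun x => |μ x - 1 / (S.card : ℝ)|)).trans ?_
    have e3 : ∀ x, |μ x - 1 / (S.card : ℝ)| ^ 2 =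
        μ x ^ 2 - 2 / (S.card : ℝ) * μ x + 1 / (S.card : ℝ) * (1 / (S.card : ℝ)) := by
      intro x
      rw [sq_abs]
      ring
    rw [Finset.sum_congr rfl fun x _ => e3 x, Finset.sum_add_distrib, Finset.sum_sub_distrib,
      ← Finset.mul_sum, ← Finset.mul_sum, h1, e2]
    have e4 : (S.card : ℝ) * (∑ x ∈ S, μ x ^ 2 - 2 / (S.card : ℝ) * 1 + 1 / (S.card : ℝ) * 1) =
        (S.card : ℝ) * ∑ x ∈ S, μ x ^ 2 - 1 := by
      field_simp
      ring
    rw [e4]
    linarith
  have h4 : ∑ x ∈ S, |μ x - 1 / (S.card : ℝ)| ≤ √a := Real.le_sqrt_of_sq_le h3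
  rw [Finset.sum_congr rfl fun x _ => e1 x, ← Finset.sum_div, Finset.sum_sub_distrib,
    Finset.sum_add_distrib, h1, e2]
  linarith

open scoped Classical in
/-- TARGET -/
theorem coupling_of_moments {α β : Type} [Fintype α] [Fintype β] (S : Finset α) (T : Finset β)
    (hS : S.Nonempty) (hT : T.Nonempty) (R : α → β → Prop) (a b : ℝ) (ha : 0 ≤ a) (hb : 0 ≤ b)
    (hE : 0 < ∑ x ∈ S, (T.filter (fun y => R x y)).card)
    (h1 : (S.card : ℝ) * ∑ x ∈ S, ((T.filter (fun y => R x y)).card : ℝ) ^ 2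
      ≤ (1 + a) * (∑ x ∈ S, ((T.filter (fun y => R x y)).card : ℝ)) ^ 2)
    (h2 : (T.card : ℝ) * ∑ y ∈ T, ((S.filter (fun x => R x y)).card : ℝ) ^ 2
      ≤ (1 + b) * (∑ x ∈ S, ((T.filter (fun y => R x y)).card : ℝ)) ^ 2) :
    ∃ μ : PMF (α × β), μ.map Prod.fst = PMF.uniformOfFinset S hS ∧
      μ.map Prod.snd = PMF.uniformOfFinset T hT ∧
      ENNReal.ofReal (1 - (√a + √b) / 2) ≤ μ.toOuterMeasure {p | R p.1 p.2} := by
  have hn : 0 < (S.card : ℝ) := by exact_mod_cast hS.card_pos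
  have hm : 0 < (T.card : ℝ) := by exact_mod_cast hT.card_pos
  obtain ⟨E, hEd⟩ : ∃ E : ℝ, E = ∑ x ∈ S, ((T.filter (fun y => R x y)).card : ℝ) := ⟨_, rfl⟩
  have hE0 : 0 < E := by
    rw [hEd]
    exact_mod_cast hE
  obtain ⟨m1, hm1⟩ : ∃ m1 : α → ℝ, m1 = fun x => ((T.filter (fun y => R x y)).card : ℝ) / E :=
    ⟨_, rfl⟩
  obtain ⟨m2, hm2⟩ : ∃ m2 : β → ℝ, m2 = fun y => ((S.filter (fun x => R x y)).card : ℝ) / E :=
    ⟨_, rfl⟩
  have hdc : ∑ y ∈ T, ((S.filter (fun x => R x y)).card : ℝ) = E := by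
    rw [hEd]
    have := Finset.sum_card_bipartiteAbove_eq_sum_card_bipartiteBelow (s := S) (t := T) R
    simp only [Finset.bipartiteAbove, Finset.bipartiteBelow] at this
    exact_mod_cast this.symm
  have s1 : ∑ x ∈ S, m1 x = 1 := by
    rw [hm1, ← Finset.sum_div, ← hEd, div_self hE0.ne']
  have s2 : ∑ y ∈ T, m2 y = 1 := by
    rw [hm2, ← Finset.sum_div, hdc, div_self hE0.ne']
  have q1 : (S.card : ℝ) * ∑ x ∈ S, m1 x ^ 2 ≤ 1 + a := by
    rw [hm1]
    simp only [div_pow]
    rw [← Finset.sum_div, ← mul_div_assoc, div_le_iff₀ (by positivity)]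
    rw [← hEd] at h1
    exact h1
  have q2 : (T.card : ℝ) * ∑ y ∈ T, m2 y ^ 2 ≤ 1 + b := by
    rw [hm2]
    simp only [div_pow]
    rw [← Finset.sum_div, ← mul_div_assoc, div_le_iff₀ (by positivity)]
    rw [← hEd] at h2
    exact h2
  have t1 := sum_min_ge S hS m1 a s1 q1
  have t2 := sum_min_ge T hT m2 b s2 q2
  have m1n : ∀ x, 0 ≤ m1 x := fun x => by rw [hm1]; positivity
  have m2n : ∀ x, 0 ≤ m2 x := fun x => by rw [hm2]; positivity
  obtain ⟨f, hf⟩ : ∃ f : α → ℝ, f = fun x => min (m1 x) (1 / (S.card : ℝ)) / m1 x := ⟨_, rfl⟩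
  obtain ⟨g, hg⟩ : ∃ g : β → ℝ, g = fun y => min (m2 y) (1 / (T.card : ℝ)) / m2 y := ⟨_, rfl⟩
  have f0 : ∀ x, 0 ≤ f x := fun x => by
    rw [hf]
    exact div_nonneg (le_min (m1n x) (by positivity)) (m1n x)
  have g0 : ∀ x, 0 ≤ g x := fun x => by
    rw [hg]
    exact div_nonneg (le_min (m2n x) (by positivity)) (m2n x)
  have f1 : ∀ x, f x ≤ 1 := fun x => by
    rw [hf]
    exact div_le_one_of_le₀ (min_le_left _ _) (m1n x)
  have g1 : ∀ x, g x ≤ 1 := fun x => by
    rw [hg]
    exact div_le_one_of_le₀ (min_le_left _ _) (m2n x)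
  have fm : ∀ x, f x * m1 x = min (m1 x) (1 / (S.card : ℝ)) := fun x => by
    rw [hf]
    simp only
    rcases (m1n x).eq_or_lt with h | h
    · rw [← h, mul_zero, min_eq_left (by positivity)]
    · exact div_mul_cancel₀ _ h.ne'
  have gm : ∀ x, g x * m2 x = min (m2 x) (1 / (T.card : ℝ)) := fun x => by
    rw [hg]
    simp only
    rcases (m2n x).eq_or_lt with h | h
    · rw [← h, mul_zero, min_eq_left (by positivity)]
    · exact div_mul_cancel₀ _ h.ne'
  obtain ⟨q, hq⟩ : ∃ q : α → β → ℝ, q = fun x y =>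
    if x ∈ S ∧ y ∈ T ∧ R x y then f x * g y / E else 0 := ⟨_, rfl⟩
  -- sums over rows and columns of functions supported on the relation
  have rowsum : ∀ (c : α → β → ℝ), ∀ x ∈ S, ∑ y, (if x ∈ S ∧ y ∈ T ∧ R x y then c x y else 0) =
      ∑ y ∈ T.filter (fun y => R x y), c x y := by
    intro c x hx
    rw [Finset.sum_filter, ← Finset.sum_subset (Finset.subset_univ T)]
    · refine Finset.sum_congr rfl fun y hy => ?_
      by_cases h : R x y
      · rw [if_pos ⟨hx, hy, h⟩, if_pos h]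
      · rw [if_neg (fun h' => h h'.2.2), if_neg h]
    · intro y _ hy
      rw [if_neg fun h' => hy h'.2.1]
  have colsum : ∀ (c : α → β → ℝ), ∀ y ∈ T, ∑ x, (if x ∈ S ∧ y ∈ T ∧ R x y then c x y else 0) =
      ∑ x ∈ S.filter (fun x => R x y), c x y := by
    intro c y hy
    rw [Finset.sum_filter, ← Finset.sum_subset (Finset.subset_univ S)]
    · refine Finset.sum_congr rfl fun x hx => ?_
      by_cases h : R x y
      · rw [if_pos ⟨hx, hy, h⟩, if_pos h]
      · rw [if_neg (fun h' => h h'.2.2), if_neg h]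
    · intro x _ hx
      rw [if_neg fun h' => hx h'.1]
  obtain ⟨μ, e1, e2, e3⟩ := complete_coupling S T hS hT R q
    (fun x y => by
      rw [hq]
      simp only
      split_ifs
      · exact div_nonneg (mul_nonneg (f0 x) (g0 y)) hE0.le
      · exact le_rfl)
    (fun x hx y => by rw [hq]; exact if_neg fun h => hx h.1)
    (fun y hy x => by rw [hq]; exact if_neg fun h => hy h.2.1)
    (fun x hx => by
      rw [hq]
      simp only
      rw [rowsum (fun x y => f x * g y / E) x hx]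
      have h3 : ∑ y ∈ T.filter (fun y => R x y), f x * g y / E ≤
          ∑ y ∈ T.filter (fun y => R x y), f x / E := by
        refine Finset.sum_le_sum fun y _ => ?_
        exact div_le_div_of_nonneg_right (mul_le_of_le_one_right (f0 x) (g1 y)) hE0.le
      refine h3.trans ?_
      rw [Finset.sum_const, nsmul_eq_mul]
      have h4 : ((T.filter (fun y => R x y)).card : ℝ) * (f x / E) = f x * m1 x := by
        rw [hm1]
        ring
      rw [h4, fm x]
      exact min_le_right _ _)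
    (fun y hy => by
      rw [hq]
      simp only
      rw [colsum (fun x y => f x * g y / E) y hy]
      have h3 : ∑ x ∈ S.filter (fun x => R x y), f x * g y / E ≤
          ∑ x ∈ S.filter (fun x => R x y), g y / E := by
        refine Finset.sum_le_sum fun x _ => ?_
        exact div_le_div_of_nonneg_right (mul_le_of_le_one_left (g0 y) (f1 x)) hE0.le
      refine h3.trans ?_
      rw [Finset.sum_const, nsmul_eq_mul]
      have h4 : ((S.filter (fun x => R x y)).card : ℝ) * (g y / E) = g y * m2 y := by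
        rw [hm2]
        ring
      rw [h4, gm y]
      exact min_le_right _ _)
    (fun x y h => by rw [hq]; exact if_neg fun h' => h h'.2.2)
  refine ⟨μ, e1, e2, (ENNReal.ofReal_le_ofReal ?_).trans e3⟩
  -- the total mass
  have low : ∀ x y, (if x ∈ S ∧ y ∈ T ∧ R x y then f x / E else 0) +
      (if x ∈ S ∧ y ∈ T ∧ R x y then g y / E else 0) -
      (if x ∈ S ∧ y ∈ T ∧ R x y then 1 / E else 0) ≤ q x y := by
    intro x y
    rw [hq]
    simp only
    split_ifs
    · rw [← add_div, ← sub_div]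
      refine div_le_div_of_nonneg_right ?_ hE0.le
      nlinarith [mul_nonneg (sub_nonneg.2 (f1 x)) (sub_nonneg.2 (g1 y))]
    · norm_num
  have A1 : ∑ x, ∑ y, (if x ∈ S ∧ y ∈ T ∧ R x y then f x / E else 0) =
      ∑ x ∈ S, min (m1 x) (1 / (S.card : ℝ)) := by
    rw [← Finset.sum_subset (Finset.subset_univ S)]
    · refine Finset.sum_congr rfl fun x hx => ?_
      rw [rowsum (fun x _ => f x / E) x hx, Finset.sum_const, nsmul_eq_mul, ← fm x, hm1]
      ring
    · intro x _ hx
      exact Finset.sum_eq_zero fun y _ => if_neg fun h => hx h.1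
  have A3 : ∑ x, ∑ y, (if x ∈ S ∧ y ∈ T ∧ R x y then 1 / E else 0) = 1 := by
    rw [← Finset.sum_subset (Finset.subset_univ S)]
    · refine Eq.trans (Finset.sum_congr rfl fun x hx => ?_) s1
      rw [rowsum (fun _ _ => 1 / E) x hx, Finset.sum_const, nsmul_eq_mul, hm1]
      ring
    · intro x _ hx
      exact Finset.sum_eq_zero fun y _ => if_neg fun h => hx h.1
  have A2 : ∑ x, ∑ y, (if x ∈ S ∧ y ∈ T ∧ R x y then g y / E else 0) =
      ∑ y ∈ T, min (m2 y) (1 / (T.card : ℝ)) := by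
    rw [Finset.sum_comm, ← Finset.sum_subset (Finset.subset_univ T)]
    · refine Finset.sum_congr rfl fun y hy => ?_
      rw [colsum (fun _ y => g y / E) y hy, Finset.sum_const, nsmul_eq_mul, ← gm y, hm2]
      ring
    · intro y _ hy
      exact Finset.sum_eq_zero fun x _ => if_neg fun h => hy h.2.1
  have A := Finset.sum_le_sum fun x (_ : x ∈ (Finset.univ : Finset α)) =>
    Finset.sum_le_sum fun y (_ : y ∈ (Finset.univ : Finset β)) => low x y
  simp only [Finset.sum_add_distrib, Finset.sum_sub_distrib] at A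
  rw [A1, A2, A3] at A
  linarith

end MG

export MG (coupling_of_moments)

end Pool.Agent.H698NC
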