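import Mathlib

set_option autoImplicit false

namespace Pool.Agent.H698NC

open Finset

namespace MH



section Aux

variable {α β γ : Type} [Fintype α] [Fintype β] [Fintype γ]

lemma glue_fst_apply (ν : PMF (β × γ)) (y : β) : (ν.map Prod.fst) y = ∑ z, ν (y, z) := by
  classical
  rw [PMF.map_apply, tsum_fintype, Fintype.sum_prod_type]
  rw [Finset.sum_eq_single y]
  · simp
  · intro b _ hb
    apply Finset.sum_eq_zero
    intro z _
    rw [if_neg]
    exact fun h => hb h.symm
  · intro h
    exact absurd (Finset.mem_univ y) h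

omit [Fintype β] [Fintype γ] in
lemma glue_fst_ne_top (ν : PMF (β × γ)) (y : β) : (ν.map Prod.fst) y ≠ ⊤ :=
  PMF.apply_ne_top _ _

/-- the conditional distribution of the second coordinate -/
noncomputable def glueCond (ν : PMF (β × γ)) (y : β) : PMF γ := by
  classical
  exact if h : (ν.map Prod.fst) y = 0 then ν.map Prod.snd else
    PMF.ofFintype (fun z => ν (y, z) / (ν.map Prod.fst) y) (by
      simp only [div_eq_mul_inv]
      rw [← Finset.sum_mul, ← glue_fst_apply, ENNReal.mul_inv_cancel h (glue_fst_ne_top ν y)])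

lemma glueCond_mul (ν : PMF (β × γ)) (y : β) (z : γ) :
    (ν.map Prod.fst) y * glueCond ν y z = ν (y, z) := by
  classical
  by_cases h : (ν.map Prod.fst) y = 0
  · rw [h, zero_mul]
    rw [glue_fst_apply, Finset.sum_eq_zero_iff] at h
    exact (h z (Finset.mem_univ z)).symm
  · rw [glueCond, dif_neg h, PMF.ofFintype_apply]
    exact ENNReal.mul_div_cancel h (glue_fst_ne_top ν y)

/-- the joint distribution -/
noncomputable def glueJoint (μ : PMF (α × β)) (ν : PMF (β × γ)) : PMF (α × β × γ) :=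
  μ.bind fun p => (glueCond ν p.2).map fun z => (p.1, p.2, z)

lemma glueJoint_left (μ : PMF (α × β)) (ν : PMF (β × γ)) :
    (glueJoint μ ν).map (fun t => (t.1, t.2.1)) = μ := by
  rw [glueJoint, PMF.map_bind]
  have : (fun p : α × β => ((glueCond ν p.2).map fun z => (p.1, p.2, z)).map
      (fun t : α × β × γ => (t.1, t.2.1))) = fun p => PMF.pure p := by
    funext p
    rw [PMF.map_comp]
    have hc : ((fun t : α × β × γ => (t.1, t.2.1)) ∘ fun z : γ => (p.1, p.2, z)) =
        Function.const γ p := rfl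
    rw [hc]
    exact PMF.map_const _ _
  rw [this]
  exact PMF.bind_pure μ

lemma glueJoint_right (μ : PMF (α × β)) (ν : PMF (β × γ))
    (h : μ.map Prod.snd = ν.map Prod.fst) : (glueJoint μ ν).map (fun t => t.2) = ν := by
  classical
  rw [glueJoint, PMF.map_bind]
  have h1 : (fun p : α × β => ((glueCond ν p.2).map fun z => (p.1, p.2, z)).map
      (fun t : α × β × γ => t.2)) =
      (fun y => (glueCond ν y).map fun z => (y, z)) ∘ Prod.snd := by
    funext p
    rw [PMF.map_comp]
    rfl
  rw [h1, ← PMF.bind_map, h]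
  ext ⟨y, z⟩
  rw [PMF.bind_apply, tsum_fintype, Finset.sum_eq_single y]
  · rw [← glueCond_mul ν y z]
    congr 1
    rw [PMF.map_apply, tsum_fintype, Finset.sum_eq_single z]
    · simp
    · intro b _ hb
      rw [if_neg]
      intro h
      exact hb (Prod.mk.inj h).2.symm
    · intro h
      exact absurd (Finset.mem_univ z) h
  · intro b _ hb
    have h0 : ((glueCond ν b).map fun z => (b, z)) (y, z) = 0 := by
      rw [PMF.map_apply, tsum_fintype]
      apply Finset.sum_eq_zero
      intro w _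
      rw [if_neg]
      intro h
      exact hb (Prod.mk.inj h).1.symm
    rw [h0, mul_zero]
  · intro h
    exact absurd (Finset.mem_univ y) h

end Aux

/-- TARGET 1 -/
theorem glue {α β γ : Type} [Fintype α] [Fintype β] [Fintype γ] (μ : PMF (α × β)) (ν : PMF (β × γ))
    (h : μ.map Prod.snd = ν.map Prod.fst) (R₁ : α → β → Prop) (R₂ : β → γ → Prop) (R : α → γ → Prop)
    (hR : ∀ x y z, R₁ x y → R₂ y z → R x z) (a b : ℝ)
    (h1 : ENNReal.ofReal (1 - a) ≤ μ.toOuterMeasure {p | R₁ p.1 p.2})
    (h2 : ENNReal.ofReal (1 - b) ≤ ν.toOuterMeasure {p | R₂ p.1 p.2}) :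
    ∃ ρ : PMF (α × γ), ρ.map Prod.fst = μ.map Prod.fst ∧ ρ.map Prod.snd = ν.map Prod.snd ∧
      ENNReal.ofReal (1 - (a + b)) ≤ ρ.toOuterMeasure {p | R p.1 p.2} := by
  classical
  let τ := glueJoint μ ν
  have hl : τ.map (fun t => (t.1, t.2.1)) = μ := glueJoint_left μ ν
  have hr : τ.map (fun t => t.2) = ν := glueJoint_right μ ν h
  refine ⟨τ.map (fun t => (t.1, t.2.2)), ?_, ?_, ?_⟩
  · conv_rhs => rw [← hl]
    rw [PMF.map_comp, PMF.map_comp]
    rfl
  · conv_rhs => rw [← hr]
    rw [PMF.map_comp, PMF.map_comp]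
    rfl
  · have ha : 0 ≤ a := by
      by_contra hc
      push Not at hc
      have h3 : μ.toOuterMeasure {p | R₁ p.1 p.2} ≤ 1 := by
        rw [← μ.toOuterMeasure_apply_eq_one_iff Set.univ |>.2 (Set.subset_univ _)]
        exact μ.toOuterMeasure.mono (Set.subset_univ _)
      have h4 : (1 : ENNReal) < ENNReal.ofReal (1 - a) := by
        rw [← ENNReal.ofReal_one]
        exact (ENNReal.ofReal_lt_ofReal_iff (by linarith)).2 (by linarith)
      exact absurd (h1.trans h3) (not_le.2 h4)
    have hb : 0 ≤ b := by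
      by_contra hc
      push Not at hc
      have h3 : ν.toOuterMeasure {p | R₂ p.1 p.2} ≤ 1 := by
        rw [← ν.toOuterMeasure_apply_eq_one_iff Set.univ |>.2 (Set.subset_univ _)]
        exact ν.toOuterMeasure.mono (Set.subset_univ _)
      have h4 : (1 : ENNReal) < ENNReal.ofReal (1 - b) := by
        rw [← ENNReal.ofReal_one]
        exact (ENNReal.ofReal_lt_ofReal_iff (by linarith)).2 (by linarith)
      exact absurd (h2.trans h3) (not_le.2 h4)
    rw [← hl, PMF.toOuterMeasure_map_apply] at h1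
    rw [← hr, PMF.toOuterMeasure_map_apply] at h2
    rw [PMF.toOuterMeasure_map_apply]
    set A : Set (α × β × γ) := (fun t : α × β × γ => (t.1, t.2.1)) ⁻¹' {p | R₁ p.1 p.2} with hA
    set B : Set (α × β × γ) := (fun t : α × β × γ => t.2) ⁻¹' {p | R₂ p.1 p.2} with hB
    have hsub : A ∩ B ⊆ (fun t : α × β × γ => (t.1, t.2.2)) ⁻¹' {p | R p.1 p.2} := by
      rintro ⟨x, y, z⟩ ⟨h3, h4⟩
      exact hR x y z h3 h4
    refine le_trans ?_ (τ.toOuterMeasure.mono hsub)
    rcases le_or_gt (1 - (a + b)) 0 with hab | hab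
    · rw [ENNReal.ofReal_eq_zero.2 hab]
      exact bot_le
    have h5 : τ.toOuterMeasure A + τ.toOuterMeasure B ≤ 1 + τ.toOuterMeasure (A ∩ B) := by
      have h6 : τ.toOuterMeasure A + τ.toOuterMeasure B =
          τ.toOuterMeasure (A ∪ B) + τ.toOuterMeasure (A ∩ B) := by
        simp only [PMF.toOuterMeasure_apply_fintype]
        rw [← Finset.sum_add_distrib, ← Finset.sum_add_distrib]
        apply Finset.sum_congr rfl
        intro t _
        by_cases h7 : t ∈ A <;> by_cases h8 : t ∈ B <;> simp [Set.indicator, h7, h8]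
      rw [h6]
      gcongr
      rw [← (τ.toOuterMeasure_apply_eq_one_iff Set.univ).2 (Set.subset_univ _)]
      exact τ.toOuterMeasure.mono (Set.subset_univ _)
    have h6 : 1 + ENNReal.ofReal (1 - (a + b)) ≤ 1 + τ.toOuterMeasure (A ∩ B) := by
      refine le_trans ?_ ((add_le_add h1 h2).trans h5)
      rw [← ENNReal.ofReal_one, ← ENNReal.ofReal_add (by norm_num) hab.le,
        ← ENNReal.ofReal_add (by linarith) (by linarith)]
      apply ENNReal.ofReal_le_ofReal
      linarith
    exact (ENNReal.add_le_add_iff_left ENNReal.one_ne_top).1 h6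

/-- TARGET 2: a chain of couplings of distributions `P 0, P 1, ..., P k` -/
theorem chain {α : Type} [Fintype α] (R : α → α → Prop) (hrefl : ∀ x, R x x)
    (htrans : ∀ x y z, R x y → R y z → R x z) (P : ℕ → PMF α) (a : ℕ → ℝ) (k : ℕ) (ha : ∀ i < k, 0 ≤ a i)
    (h : ∀ i < k, ∃ μ : PMF (α × α), μ.map Prod.fst = P i ∧ μ.map Prod.snd = P (i + 1) ∧
      ENNReal.ofReal (1 - a i) ≤ μ.toOuterMeasure {p | R p.1 p.2}) :
    ∃ μ : PMF (α × α), μ.map Prod.fst = P 0 ∧ μ.map Prod.snd = P k ∧
      ENNReal.ofReal (1 - ∑ i ∈ range k, a i) ≤ μ.toOuterMeasure {p | R p.1 p.2} := by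
  classical
  induction k with
  | zero =>
    refine ⟨(P 0).map (fun x => (x, x)), ?_, ?_, ?_⟩
    · rw [PMF.map_comp]
      exact PMF.map_id _
    · rw [PMF.map_comp]
      exact PMF.map_id _
    · rw [PMF.toOuterMeasure_map_apply]
      have h1 : (fun x : α => (x, x)) ⁻¹' {p : α × α | R p.1 p.2} = Set.univ := by
        ext x
        simp [hrefl x]
      rw [h1, ((P 0).toOuterMeasure_apply_eq_one_iff Set.univ).2 (Set.subset_univ _)]
      simp
  | succ k ih =>
    obtain ⟨μ, h1, h2, h3⟩ := ih (fun i hi => ha i (by omega)) (fun i hi => h i (by omega))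
    obtain ⟨ν, h4, h5, h6⟩ := h k (by omega)
    obtain ⟨ρ, h7, h8, h9⟩ := glue μ ν (h2.trans h4.symm) R R R htrans _ _ h3 h6
    refine ⟨ρ, h7.trans h1, h8.trans h5, ?_⟩
    rw [Finset.sum_range_succ]
    exact h9

end MH

export MH (glue chain)

end Pool.Agent.H698NC
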