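import Pool.Agent.H698NC.K5

set_option autoImplicit false

namespace Pool.Agent.H698NC

open Finset

namespace MI1

variable {n : ℕ}

/-! own lemmas -/

lemma dg_empty (v : Fin n) : dg (∅ : Finset (Sym2 (Fin n))) v = 0 := by
  simp [dg, nbr]

lemma rd_empty (d : ℕ) (v : Fin n) : rd d (∅ : Finset (Sym2 (Fin n))) v = d := by
  simp [rd, dg_empty]

lemma EE_empty (d : ℕ) : EE d (∅ : Finset (Sym2 (Fin n))) = n * d := by
  simp [EE]

lemma D2_empty (d : ℕ) : D2 d (∅ : Finset (Sym2 (Fin n))) = n * (d * (d - 1)) := by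
  simp [D2, rd_empty]

lemma sum_dg (B : Finset (Sym2 (Fin n))) (hB : ND B) : ∑ v, (dg B v : ℝ) = 2 * B.card := by
  have h := sum_rd 0 B hB
  simp only [rd, EE, Finset.sum_sub_distrib] at h
  simp at h
  linarith

lemma TT_empty (d : ℕ) (B : Finset (Sym2 (Fin n))) (v : Fin n) : TT d ∅ B v = d * dg B v := by
  unfold TT
  rw [Finset.empty_union]
  simp only [rd_empty, Finset.sum_const, nsmul_eq_mul]
  rw [dg]; ring

lemma QQ_empty (d : ℕ) (B : Finset (Sym2 (Fin n))) (hB : ND B) : QQ d ∅ B = d * d * (2 * B.card) := by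
  unfold QQ
  simp only [rd_empty, TT_empty]
  rw [← sum_dg B hB, Finset.mul_sum]
  apply Finset.sum_congr rfl
  intro v _; ring

lemma bet_empty (d : ℕ) (B : Finset (Sym2 (Fin n))) (x y : Fin n) (hB : ND B) (hn : 0 < n) (hd : 0 < d) :
    bet d ∅ B x y / EE d (∅ : Finset (Sym2 (Fin n))) = (1 + dg B x + dg B y - 2 * (B.card : ℝ) / n) / n := by
  have hn' : (n:ℝ) ≠ 0 := by positivity
  have hd' : (d:ℝ) ≠ 0 := by positivity
  unfold bet
  rw [rd_empty, rd_empty, D2_empty, EE_empty, TT_empty, TT_empty, QQ_empty d B hB]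
  field_simp
  ring

lemma cls_empty (d : ℕ) : Cls d 2 0 (∅ : Finset (Sym2 (Fin n))) where
  nd := by intro e he; simp at he
  led := by intro v; rw [dg_empty]; omega
  lem := by intro v; rw [dg_empty]; omega
  card := by simp

lemma dg_single (x y : Fin n) (hxy : x ≠ y) (v : Fin n) : dg ({s(x, y)} : Finset (Sym2 (Fin n))) v ≤ 1 := by
  unfold dg nbr
  rw [Finset.card_le_one]
  intro a ha b hb
  simp only [Finset.mem_filter, Finset.mem_univ, true_and, Finset.mem_singleton, Sym2.eq_iff] at ha hb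
  rcases ha with ⟨h1, h2⟩ | ⟨h1, h2⟩ <;> rcases hb with ⟨h3, h4⟩ | ⟨h3, h4⟩
  · rw [h2, h4]
  · exact absurd (h1.symm.trans h3) hxy
  · exact absurd (h3.symm.trans h1) hxy
  · rw [h2, h4]

lemma cls_single (d : ℕ) (x y : Fin n) (hxy : x ≠ y) (hd : 3 ≤ d) : Cls d 2 0 ({s(x, y)} : Finset (Sym2 (Fin n))) where
  nd := by
    intro e he
    rw [Finset.mem_singleton] at he
    rw [he]; simpa using hxy
  led := by intro v; have := dg_single x y hxy v; omega
  lem := by intro v; have := dg_single x y hxy v; omega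
  card := by
    have : 0 < n := x.pos
    simp; omega

/-- TARGET 1 -/
theorem f_empty : ∃ C : ℝ, 1 ≤ C ∧ ∀ (n d : ℕ) (B : Finset (Sym2 (Fin n))) (x y : Fin n),
    Even (n * d) → 3 ≤ d → C * d ≤ n → BCls 2 B → x ≠ y → s(x, y) ∉ B →
    0 < cnt d ∅ B ∧ ∃ θ : ℝ, |θ| ≤ C / n ^ 2 ∧
      (cnt d {s(x, y)} B : ℝ) = cnt d ∅ B * ((d : ℝ) / n)
        * Real.exp ((1 + dg B x + dg B y - 2 * (B.card : ℝ) / n) / n + θ) := by
  obtain ⟨C₁, h1, H1⟩ := structure_ell 2
  obtain ⟨C₂, h2, H2⟩ := gg_bound 2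
  refine ⟨C₁ + 2 * C₂, by linarith, ?_⟩
  intro n d B x y hev hd hC hB hxy hnB
  have hn : 0 < n := x.pos
  have hnR : (0:ℝ) < n := by positivity
  have hdR : (3:ℝ) ≤ d := by exact_mod_cast hd
  have hC1 : C₁ * d ≤ n := by nlinarith
  obtain ⟨P1, P2⟩ := H1 n d hev hd hC1
  have hval : Val d ∅ B x y := ⟨hxy, by simp, hnB, by rw [dg_empty]; omega, by rw [dg_empty]; omega⟩
  have G := H2 n d 0 ∅ B x y hev hd (by push_cast; nlinarith) (cls_empty d) hB hval
  obtain ⟨G1, -, -, -⟩ := G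
  rw [bet_empty d B x y hB.nd hn (by omega)] at G1
  have D := P2 ∅ B x y (cls_empty d) hB (Finset.disjoint_empty_left _) hval
  have c0 := P1 ∅ B (cls_empty d) hB (Finset.disjoint_empty_left _)
  have c1 := P1 {s(x, y)} B (cls_single d x y hxy hd) hB (by simpa using hnB)
  refine ⟨c0, ?_⟩
  set S : ℝ := (1 + dg B x + dg B y - 2 * (B.card : ℝ) / n) / n with hS
  refine ⟨DL (ell d) d ∅ B x y + (gL (ell d) d ∅ B x y - S), ?_, ?_⟩
  · calc |DL (ell d) d ∅ B x y + (gL (ell d) d ∅ B x y - S)|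
        ≤ |DL (ell d) d ∅ B x y| + |gL (ell d) d ∅ B x y - S| := abs_add_le _ _
      _ ≤ C₁ * (1 / (n : ℝ) ^ 2) + C₂ * (1 + ((0:ℕ):ℝ)) ^ 2 / n ^ 2 := add_le_add D G1
      _ = (C₁ + C₂) / n^2 := by push_cast; ring
      _ ≤ (C₁ + 2 * C₂) / n^2 := by
          apply div_le_div_of_nonneg_right _ (by positivity)
          linarith
  · have c0R : (0:ℝ) < cnt d ∅ B := by exact_mod_cast c0
    have c1R : (0:ℝ) < cnt d {s(x, y)} B := by exact_mod_cast c1
    have hdn : (0:ℝ) < (d:ℝ) / n := by positivity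
    have e1 : S + (DL (ell d) d ∅ B x y + (gL (ell d) d ∅ B x y - S))
        = Real.log (cnt d {s(x, y)} B) - Real.log (cnt d ∅ B) - Real.log ((d:ℝ)/n) := by
      unfold DL gL
      rw [rd_empty, rd_empty, EE_empty]
      have e2 : (d:ℝ) * d / (n * d) = d / n := by field_simp
      have e3 : (insert s(x, y) (∅ : Finset (Sym2 (Fin n)))) = {s(x, y)} := rfl
      rw [e2, e3]
      ring
    rw [e1, Real.exp_sub, Real.exp_sub, Real.exp_log c1R, Real.exp_log c0R, Real.exp_log hdn]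
    field_simp

lemma abs_log_one_sub (w : ℝ) (hw : |w| ≤ 1/2) : |Real.log (1 - w) + w| ≤ 2 * w ^ 2 := by
  have h := Real.abs_log_sub_add_sum_range_le (x := w) (by linarith) 1
  simp only [Finset.sum_range_one] at h
  norm_num at h
  have h2 : |w| ^ 2 / (1 - |w|) ≤ 2 * w ^ 2 := by
    rw [sq_abs, div_le_iff₀ (by linarith)]
    nlinarith [sq_nonneg w]
  have h3 : |Real.log (1 - w) + w| = |w + Real.log (1 - w)| := by rw [add_comm]
  rw [h3]
  calc _ ≤ _ := h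
    _ ≤ _ := by simpa using h2

/-- the analytic step -/
lemma phi_bound (p u : ℝ) (hp : 0 < p) (hp2 : p ≤ 1/2) (hu : |u| ≤ 1/4) :
    0 < 1 - p * Real.exp u ∧
    |Real.log (1 - p * Real.exp u) - (Real.log (1 - p) - p / (1 - p) * u)| ≤ 34 * p * u ^ 2 := by
  have hq : 0 < 1 - p := by linarith
  set q : ℝ := p / (1 - p) with hqd
  have hq0 : 0 < q := by positivity
  have hq2 : q ≤ 2 * p := by
    rw [hqd, div_le_iff₀ hq]; nlinarith
  have he : |Real.exp u - 1 - u| ≤ u ^ 2 := Real.abs_exp_sub_one_sub_id_le (by linarith)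
  have hu0 : 0 ≤ |u| := abs_nonneg u
  have hu2 : u ^ 2 = |u| * |u| := by rw [← sq, sq_abs]
  have he1 : |Real.exp u - 1| ≤ 2 * |u| := by
    have : Real.exp u - 1 = (Real.exp u - 1 - u) + u := by ring
    rw [this]
    calc |(Real.exp u - 1 - u) + u| ≤ |Real.exp u - 1 - u| + |u| := abs_add_le _ _
      _ ≤ u^2 + |u| := by linarith
      _ ≤ 2 * |u| := by rw [hu2]; nlinarith
  set w : ℝ := q * (Real.exp u - 1) with hw
  have hwabs : |w| ≤ 4 * p * |u| := by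
    rw [hw, abs_mul, abs_of_pos hq0]
    calc q * |Real.exp u - 1| ≤ (2 * p) * (2 * |u|) := by
          apply mul_le_mul hq2 he1 (abs_nonneg _) (by linarith)
      _ = 4 * p * |u| := by ring
  have hw2 : |w| ≤ 1/2 := by nlinarith
  have hfac : 1 - p * Real.exp u = (1 - p) * (1 - w) := by
    rw [hw, hqd]; field_simp; ring
  have h1w : 0 < 1 - w := by
    have := le_abs_self w; linarith
  refine ⟨by rw [hfac]; positivity, ?_⟩
  rw [hfac, Real.log_mul hq.ne' h1w.ne']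
  have hL := abs_log_one_sub w hw2
  have e1 : Real.log (1 - p) + Real.log (1 - w) - (Real.log (1 - p) - q * u)
      = (Real.log (1 - w) + w) - q * (Real.exp u - 1 - u) := by rw [hw]; ring
  rw [e1]
  have h3 : |q * (Real.exp u - 1 - u)| ≤ 2 * p * u ^ 2 := by
    rw [abs_mul, abs_of_pos hq0]
    exact mul_le_mul hq2 he (abs_nonneg _) (by linarith)
  have h4 : w ^ 2 ≤ 16 * p * u ^ 2 := by
    rw [← sq_abs w]
    calc |w|^2 ≤ (4 * p * |u|)^2 := by gcongr
      _ = 16 * p * (p * (|u| * |u|)) := by ring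
      _ = 16 * p * (p * u^2) := by rw [hu2]
      _ ≤ 16 * p * (1 * u^2) := by gcongr; linarith
      _ = 16 * p * u ^ 2 := by ring
  calc |Real.log (1 - w) + w - q * (Real.exp u - 1 - u)|
      ≤ |Real.log (1 - w) + w| + |q * (Real.exp u - 1 - u)| := abs_sub _ _
    _ ≤ 2 * w ^ 2 + 2 * p * u^2 := add_le_add hL h3
    _ ≤ 34 * p * u ^ 2 := by linarith

/-- TARGET 2 -/
theorem forbid_one : ∃ C : ℝ, 1 ≤ C ∧ ∀ (n d : ℕ) (B : Finset (Sym2 (Fin n))) (x y : Fin n),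
    Even (n * d) → 3 ≤ d → C * d ≤ n → BCls 2 B → x ≠ y → s(x, y) ∉ B →
    0 < cnt d ∅ B ∧ 0 < cnt d ∅ (insert s(x, y) B) ∧
      |Real.log (cnt d ∅ (insert s(x, y) B)) - Real.log (cnt d ∅ B)
        - (Real.log (1 - (d : ℝ) / n) - (d : ℝ) / (n - d) * ((1 + dg B x + dg B y - 2 * (B.card : ℝ) / n) / n))|
        ≤ C * d / n ^ 3 := by
  obtain ⟨C, hC1, H⟩ := f_empty
  refine ⟨34 * (5 + C) ^ 2 + 2 * C, by nlinarith, ?_⟩
  intro n d B x y hev hd hC hB hxy hnB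
  have hn : 0 < n := x.pos
  have hnR : (0:ℝ) < n := by positivity
  have hdR : (3:ℝ) ≤ d := by exact_mod_cast hd
  have hCd : C * d ≤ n := by nlinarith [sq_nonneg (5 + C)]
  obtain ⟨c0, θ, hθ, hc⟩ := H n d B x y hev hd hCd hB hxy hnB
  have c0R : (0:ℝ) < cnt d ∅ B := by exact_mod_cast c0
  have hK : 4 * (5 + C) ≤ n := by nlinarith [sq_nonneg (5 + C)]
  have hp2 : (d:ℝ)/n ≤ 1/2 := by
    rw [div_le_div_iff₀ hnR (by norm_num)]; nlinarith [sq_nonneg (5 + C)]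
  have hp : 0 < (d:ℝ)/n := by positivity
  have hsum := sum_dg B hB.nd
  have hs2 : 2 * (B.card : ℝ) ≤ 2 * n := by
    rw [← hsum]
    calc ∑ v, (dg B v : ℝ) ≤ ∑ v : Fin n, (2:ℝ) := by
          apply Finset.sum_le_sum
          intro v _; exact_mod_cast hB.lem v
      _ = 2 * n := by simp; ring
  set s : ℝ := 1 + dg B x + dg B y - 2 * (B.card : ℝ) / n with hs
  have hsabs : |s| ≤ 5 := by
    have b1 : (dg B x : ℝ) ≤ 2 := by exact_mod_cast hB.lem x
    have b2 : (dg B y : ℝ) ≤ 2 := by exact_mod_cast hB.lem y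
    have b3 : (0:ℝ) ≤ dg B x := by positivity
    have b4 : (0:ℝ) ≤ dg B y := by positivity
    have b5 : 2 * (B.card : ℝ) / n ≤ 2 := by rw [div_le_iff₀ hnR]; exact hs2
    have b6 : 0 ≤ 2 * (B.card : ℝ) / n := by positivity
    rw [abs_le]; constructor <;> linarith
  set u : ℝ := s / n + θ with hu
  have huK : |u| ≤ (5 + C) / n := by
    calc |u| ≤ |s / n| + |θ| := abs_add_le _ _
      _ ≤ 5 / n + C / n ^ 2 := by
          apply add_le_add _ hθ
          rw [abs_div, abs_of_pos hnR]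
          gcongr
      _ ≤ 5 / n + C / n := by
          gcongr
          have : (1:ℝ) ≤ n := by exact_mod_cast hn
          nlinarith
      _ = (5 + C) / n := by ring
  have hu4 : |u| ≤ 1/4 := by
    refine huK.trans ?_
    rw [div_le_div_iff₀ hnR (by norm_num)]; linarith
  obtain ⟨hpos, hb⟩ := phi_bound ((d:ℝ)/n) u hp hp2 hu4
  have hcf : (cnt d ∅ (insert s(x, y) B) : ℝ) = cnt d ∅ B * (1 - (d:ℝ)/n * Real.exp u) := by
    have h := cnt_forbid d ∅ B s(x, y)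
    have e3 : (insert s(x, y) (∅ : Finset (Sym2 (Fin n)))) = {s(x, y)} := rfl
    rw [e3] at h
    have h' : (cnt d ∅ (insert s(x, y) B) : ℝ) + cnt d {s(x, y)} B = cnt d ∅ B := by exact_mod_cast h
    rw [hc] at h'
    linear_combination h'
  have hcpos : (0:ℝ) < cnt d ∅ (insert s(x, y) B) := by rw [hcf]; positivity
  refine ⟨c0, by exact_mod_cast hcpos, ?_⟩
  rw [hcf, Real.log_mul c0R.ne' hpos.ne']
  have hnd : (0:ℝ) < n - d := by
    have : (d:ℝ) / n * n ≤ 1/2 * n := by gcongr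
    rw [div_mul_cancel₀ _ hnR.ne'] at this
    linarith
  have e1 : (d:ℝ) / n / (1 - (d:ℝ)/n) = (d:ℝ) / (n - d) := by
    field_simp
  rw [e1] at hb
  have e2 : Real.log (cnt d ∅ B) + Real.log (1 - (d:ℝ)/n * Real.exp u) - Real.log (cnt d ∅ B)
        - (Real.log (1 - (d : ℝ) / n) - (d : ℝ) / (n - d) * (s / n))
      = (Real.log (1 - (d:ℝ)/n * Real.exp u) - (Real.log (1 - (d:ℝ)/n) - (d:ℝ) / (n - d) * u))
        - (d:ℝ) / (n - d) * θ := by rw [hu]; ring
  rw [e2]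
  have hq2 : (d:ℝ) / (n - d) ≤ 2 * ((d:ℝ)/n) := by
    rw [div_le_iff₀ hnd]
    have : 2 * ((d:ℝ)/n) * (n - d) = 2 * d * (1 - (d:ℝ)/n) := by field_simp
    rw [this]; nlinarith
  have hθ2 : |(d:ℝ) / (n - d) * θ| ≤ 2 * ((d:ℝ)/n) * (C / n^2) := by
    rw [abs_mul, abs_of_pos (by positivity)]
    exact mul_le_mul hq2 hθ (abs_nonneg _) (by positivity)
  have hu2 : u ^ 2 ≤ ((5 + C) / n) ^ 2 := by
    rw [← sq_abs u]; gcongr
  calc _ ≤ |(Real.log (1 - (d:ℝ)/n * Real.exp u) - (Real.log (1 - (d:ℝ)/n) - (d:ℝ) / (n - d) * u))|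
        + |(d:ℝ) / (n - d) * θ| := abs_sub _ _
    _ ≤ 34 * ((d:ℝ)/n) * u ^ 2 + 2 * ((d:ℝ)/n) * (C / n^2) := add_le_add hb hθ2
    _ ≤ 34 * ((d:ℝ)/n) * ((5 + C) / n) ^ 2 + 2 * ((d:ℝ)/n) * (C / n^2) := by gcongr
    _ = (34 * (5 + C) ^ 2 + 2 * C) * d / n ^ 3 := by field_simp

end MI1

export MI1 (f_empty forbid_one)

end Pool.Agent.H698NC
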