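import Pool.Agent.H698NC.I1
import Pool.Agent.H698NC.DefsE

set_option autoImplicit false

namespace Pool.Agent.H698NC

open Finset

namespace MI3

variable {n : ℕ}

theorem nbr_union (A B : Finset (Sym2 (Fin n))) (v : Fin n) : nbr (A ∪ B) v = nbr A v ∪ nbr B v := by
  ext w; simp [nbr]

theorem nbr_mono {A B : Finset (Sym2 (Fin n))} (h : A ⊆ B) (v : Fin n) : nbr A v ⊆ nbr B v := by
  intro w hw
  simp only [nbr, mem_filter, mem_univ, true_and] at hw ⊢
  exact h hw

theorem dg_union_le (A B : Finset (Sym2 (Fin n))) (v : Fin n) : dg (A ∪ B) v ≤ dg A v + dg B v := by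
  unfold dg
  rw [nbr_union]
  exact card_union_le _ _

open scoped Classical in
theorem dg_es (G : SimpleGraph (Fin n)) (hG : G ∈ RG n 1) (v : Fin n) : dg (es G) v = 1 := by
  have h : Reg G 1 := by
    simpa [RG] using hG
  have h1 := h v
  have h2 : (G.neighborSet v) = ((nbr (es G) v : Finset (Fin n)) : Set (Fin n)) := by
    ext w
    simp [nbr, es]
  rw [h2, Set.ncard_coe_finset] at h1
  exact h1

open scoped Classical in
theorem es_nd (G : SimpleGraph (Fin n)) : ND (es G) := by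
  intro e he
  simp only [es, mem_filter, mem_univ, true_and] at he
  exact G.not_isDiag_of_mem_edgeSet he

open scoped Classical in
theorem es_card (G : SimpleGraph (Fin n)) (hG : G ∈ RG n 1) : 2 * (es G).card = n := by
  have h1 := G.sum_degrees_eq_twice_card_edges
  have h2 : ∀ v, G.degree v = 1 := by
    intro v
    rw [← dg_es G hG v, ← SimpleGraph.card_neighborFinset_eq_degree]
    unfold dg
    congr 1
    ext w
    simp [nbr, es]
  simp only [h2, sum_const, card_univ, Fintype.card_fin, smul_eq_mul, mul_one] at h1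
  have h3 : es G = G.edgeFinset := by
    ext e
    simp [es]
  rw [h3]
  exact h1.symm

/-- the approximate change -/
noncomputable def app (n d k0 b0 s : ℕ) : ℝ :=
  (s : ℝ) * Real.log (1 - (d : ℝ) / n) - (d : ℝ) / (n - d) *
    ((s : ℝ) * (1 + 2 * k0) / n - 2 * b0 * s / n ^ 2 - s * (s - 1) / n ^ 2)

open scoped Classical in
theorem chain {C : ℝ} (hfo : ∀ (n d : ℕ) (B : Finset (Sym2 (Fin n))) (x y : Fin n),
    Even (n * d) → 3 ≤ d → C * d ≤ n → BCls 2 B → x ≠ y → s(x, y) ∉ B →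
    0 < cnt d ∅ B ∧ 0 < cnt d ∅ (insert s(x, y) B) ∧
      |Real.log (cnt d ∅ (insert s(x, y) B)) - Real.log (cnt d ∅ B)
        - (Real.log (1 - (d : ℝ) / n) - (d : ℝ) / (n - d) * ((1 + dg B x + dg B y - 2 * (B.card : ℝ) / n) / n))|
        ≤ C * d / n ^ 3) (hC : 1 ≤ C) {n d : ℕ} (hev : Even n) (hd : 3 ≤ d) (hn : C * d ≤ n)
    {M : SimpleGraph (Fin n)} (hM : M ∈ RG n 1) {B0 : Finset (Sym2 (Fin n))} {k0 : ℕ} (hk : k0 ≤ 1)
    (hB0 : ND B0) (hdg : ∀ v, dg B0 v = k0) : ∀ S : Finset (Sym2 (Fin n)), S ⊆ es M → Disjoint S B0 →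
    0 < cnt d ∅ B0 → 0 < cnt d ∅ (B0 ∪ S) ∧
      |Real.log (cnt d ∅ (B0 ∪ S)) - Real.log (cnt d ∅ B0) - app n d k0 B0.card S.card|
        ≤ S.card * (C * d / n ^ 3) := by
  intro S
  have hn0 : (0 : ℝ) < n := by
    have : (3 : ℝ) ≤ d := by exact_mod_cast hd
    nlinarith
  induction S using Finset.induction_on with
  | empty =>
    intro _ _ h0
    simp [app, h0]
  | insert e S he ih =>
    intro hS hdis h0
    have hS' : S ⊆ es M := fun x hx => hS (mem_insert_of_mem hx)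
    have hdis' : Disjoint S B0 := hdis.mono_left (subset_insert _ _)
    obtain ⟨h1, h2⟩ := ih hS' hdis' h0
    have heM : e ∈ es M := hS (mem_insert_self _ _)
    have heB : e ∉ B0 := fun h => (disjoint_left.1 hdis) (mem_insert_self _ _) h
    induction e using Sym2.ind with
    | _ x y =>
    have hxy : x ≠ y := by
      intro h
      exact es_nd M _ heM (by simpa using h)
    have hnS : ∀ u v : Fin n, s(u, v) = s(x, y) → nbr S u = ∅ := by
      intro u v huv
      have h3 := dg_es M hM u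
      unfold dg at h3
      rw [card_eq_one] at h3
      obtain ⟨a, ha⟩ := h3
      rw [eq_empty_iff_forall_notMem]
      intro w hw
      have h4 : w ∈ nbr (es M) u := nbr_mono hS' u hw
      have h5 : v ∈ nbr (es M) u := by
        simp only [nbr, mem_filter, mem_univ, true_and]
        rw [huv]; exact heM
      rw [ha, mem_singleton] at h4 h5
      simp only [nbr, mem_filter, mem_univ, true_and] at hw
      rw [h4, ← h5, huv] at hw
      exact he hw
    have hd1 : ∀ u v : Fin n, s(u, v) = s(x, y) → dg (B0 ∪ S) u = k0 := by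
      intro u v huv
      unfold dg
      rw [nbr_union, hnS u v huv, union_empty]
      exact hdg u
    have hnm : s(x, y) ∉ B0 ∪ S := by
      rw [mem_union, not_or]
      exact ⟨heB, he⟩
    have hcls : BCls 2 (B0 ∪ S) := by
      refine ⟨?_, fun v => ?_⟩
      · intro e' he'
        rcases mem_union.1 he' with h | h
        · exact hB0 e' h
        · exact es_nd M e' (hS' h)
      · have h3 := dg_union_le B0 S v
        have h4 : dg S v ≤ dg (es M) v := card_le_card (nbr_mono hS' v)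
        rw [dg_es M hM v] at h4
        rw [hdg v] at h3
        omega
    obtain ⟨h3, h4, h5⟩ := hfo n d (B0 ∪ S) x y (hev.mul_right d) hd hn hcls hxy hnm
    have h6 : B0 ∪ insert s(x, y) S = insert s(x, y) (B0 ∪ S) := by
      rw [union_insert]
    rw [h6]
    refine ⟨h4, ?_⟩
    have hcard : ((B0 ∪ S).card : ℝ) = B0.card + S.card := by
      rw [card_union_of_disjoint hdis'.symm]
      push_cast; rfl
    rw [hd1 x y rfl, hd1 y x Sym2.eq_swap, hcard] at h5
    rw [card_insert_of_notMem he]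
    have h7 : app n d k0 B0.card (S.card + 1) = app n d k0 B0.card S.card +
        (Real.log (1 - (d : ℝ) / n) - (d : ℝ) / (n - d) *
          ((1 + (k0 : ℝ) + k0 - 2 * ((B0.card : ℝ) + S.card) / n) / n)) := by
      unfold app
      push_cast
      field_simp
      ring
    rw [h7]
    rw [abs_le] at h2 h5 ⊢
    push_cast
    constructor <;> linarith [h2.1, h2.2, h5.1, h5.2]

theorem cnt_empty (n d : ℕ) : cnt d (∅ : Finset (Sym2 (Fin n))) ∅ = (RG n d).card := by
  unfold cnt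
  congr 1
  ext G
  simp

theorem small {C : ℝ} (hC : 1 ≤ C) {n d : ℕ} (hd : 3 ≤ d) (hn : (C + 2) * d ≤ n) :
    (0 : ℝ) < n ∧ 2 * (d : ℝ) ≤ n ∧ C * d ≤ n ∧ 0 ≤ (d : ℝ) / (n - d) ∧
      (d : ℝ) / (n - d) ≤ 2 * d / n := by
  have h3 : (3 : ℝ) ≤ d := by exact_mod_cast hd
  have h1 : 2 * (d : ℝ) ≤ n := by nlinarith
  have h2 : C * d ≤ n := by nlinarith
  have h0 : (0 : ℝ) < n := by linarith
  have h4 : (0 : ℝ) < n - d := by linarith
  refine ⟨h0, h1, h2, by positivity, ?_⟩
  rw [div_le_div_iff₀ h4 h0]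
  nlinarith

/-- an edge of a perfect matching -/
theorem exists_edge (hn : 0 < n) (M : SimpleGraph (Fin n)) (hM : M ∈ RG n 1) :
    ∃ x y : Fin n, x ≠ y ∧ s(x, y) ∈ es M := by
  classical
  have h1 := dg_es M hM ⟨0, hn⟩
  unfold dg at h1
  rw [card_eq_one] at h1
  obtain ⟨a, ha⟩ := h1
  have h2 : a ∈ nbr (es M) ⟨0, hn⟩ := by rw [ha]; simp
  simp only [nbr, mem_filter, mem_univ, true_and] at h2
  refine ⟨_, a, ?_, h2⟩
  intro h
  exact es_nd M _ h2 (by simpa using h)

open scoped Classical in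
/-- TARGET 1 -/
theorem es_pm (G : SimpleGraph (Fin n)) (hG : G ∈ RG n 1) : ND (es G) ∧ (∀ v, dg (es G) v = 1) ∧ 2 * (es G).card = n :=
  ⟨es_nd G, dg_es G hG, es_card G hG⟩

/-- TARGET 2 -/
theorem forbid_pm : ∃ C : ℝ, 1 ≤ C ∧ ∀ (n d : ℕ) (M : SimpleGraph (Fin n)),
    Even n → 3 ≤ d → C * d ≤ n → M ∈ RG n 1 →
    0 < cnt d ∅ (es M) ∧ 0 < (RG n d).card ∧
      |Real.log (cnt d ∅ (es M)) - Real.log ((RG n d).card)
        - ((n : ℝ) / 2 * Real.log (1 - (d : ℝ) / n) - (d : ℝ) / (n - d) / 4)| ≤ C * d / n ^ 2 := by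
  obtain ⟨C, hC, hfo⟩ := forbid_one
  refine ⟨C + 2, by linarith, ?_⟩
  intro n d M hev hd hn hM
  obtain ⟨h0, h1, h2, h3, h4⟩ := small hC hd hn
  have hn0 : 0 < n := by exact_mod_cast h0
  obtain ⟨x, y, hxy, hxM⟩ := exists_edge hn0 M hM
  have hB : BCls 2 (∅ : Finset (Sym2 (Fin n))) :=
    ⟨fun e he => absurd he (notMem_empty e), fun v => by simp [dg, nbr]⟩
  obtain ⟨h5, -, -⟩ := hfo n d ∅ x y (hev.mul_right d) hd h2 hB hxy (notMem_empty _)
  obtain ⟨h6, h7⟩ := chain hfo hC hev hd h2 hM (B0 := ∅) (k0 := 0) (by omega) hB.nd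
    (fun v => by simp [dg, nbr]) (es M) Subset.rfl (disjoint_empty_right _) h5
  rw [empty_union] at h6 h7
  refine ⟨h6, by rw [← cnt_empty]; exact h5, ?_⟩
  rw [cnt_empty] at h7
  have hcard : ((es M).card : ℝ) = n / 2 := by
    have := es_card M hM
    have h8 : (2 : ℝ) * (es M).card = n := by exact_mod_cast this
    linarith
  have h8 : app n d 0 (card (∅ : Finset (Sym2 (Fin n)))) (es M).card =
      (n : ℝ) / 2 * Real.log (1 - (d : ℝ) / n) - (d : ℝ) / (n - d) / 4 -
        (d : ℝ) / (n - d) * (1 / (2 * n)) := by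
    unfold app
    rw [hcard, card_empty]
    push_cast
    field_simp
    ring
  rw [h8, hcard] at h7
  have h9 : (d : ℝ) / (n - d) * (1 / (2 * n)) ≤ d / n ^ 2 := by
    calc (d : ℝ) / (n - d) * (1 / (2 * n)) ≤ 2 * d / n * (1 / (2 * n)) :=
          mul_le_mul_of_nonneg_right h4 (by positivity)
      _ = d / n ^ 2 := by field_simp
  have h10 : 0 ≤ (d : ℝ) / (n - d) * (1 / (2 * n)) := by positivity
  have h11 : (n : ℝ) / 2 * (C * d / n ^ 3) = C * d / n ^ 2 / 2 := by field_simp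
  have h12 : (C + 2) * d / n ^ 2 = C * d / n ^ 2 + 2 * (d / n ^ 2) := by ring
  have h13 : 0 ≤ C * d / n ^ 2 := by positivity
  have h14 : (0 : ℝ) ≤ d / n ^ 2 := by positivity
  rw [h11] at h7
  rw [h12]
  rw [abs_le] at h7 ⊢
  constructor <;> linarith [h7.1, h7.2]

/-- TARGET 3 -/
theorem forbid_two : ∃ C : ℝ, 1 ≤ C ∧ ∀ (n d : ℕ) (M M' : SimpleGraph (Fin n)),
    Even n → 3 ≤ d → C * d ≤ n → M ∈ RG n 1 → M' ∈ RG n 1 →
    0 < cnt d ∅ (es M) ∧ 0 < cnt d ∅ (es M ∪ es M') ∧
      |Real.log (cnt d ∅ (es M ∪ es M')) - Real.log (cnt d ∅ (es M))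
        - (((n : ℝ) / 2 - (es M ∩ es M').card) * Real.log (1 - (d : ℝ) / n)
          - (d : ℝ) / (n - d) * (3 / 4 - ((es M ∩ es M').card : ℝ) / n - ((es M ∩ es M').card : ℝ) ^ 2 / n ^ 2))|
        ≤ C * d / n ^ 2 := by
  obtain ⟨C, hC, hfo⟩ := forbid_one
  refine ⟨C + 2, by linarith, ?_⟩
  classical
  intro n d M M' hev hd hn hM hM'
  obtain ⟨h0, h1, h2, h3, h4⟩ := small hC hd hn
  have hn0 : 0 < n := by exact_mod_cast h0
  obtain ⟨x, y, hxy, hxM⟩ := exists_edge hn0 M hM
  have hB : BCls 2 (∅ : Finset (Sym2 (Fin n))) :=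
    ⟨fun e he => absurd he (notMem_empty e), fun v => by simp [dg, nbr]⟩
  obtain ⟨h5, -, -⟩ := hfo n d ∅ x y (hev.mul_right d) hd h2 hB hxy (notMem_empty _)
  obtain ⟨h6, -⟩ := chain hfo hC hev hd h2 hM (B0 := ∅) (k0 := 0) (by omega) hB.nd
    (fun v => by simp [dg, nbr]) (es M) Subset.rfl (disjoint_empty_right _) h5
  rw [empty_union] at h6
  obtain ⟨h7, h8⟩ := chain hfo hC hev hd h2 hM' (B0 := es M) (k0 := 1) le_rfl (es_nd M)
    (dg_es M hM) (es M' \ es M) sdiff_subset sdiff_disjoint h6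
  have h9 : es M ∪ (es M' \ es M) = es M ∪ es M' := by
    ext e; simp only [mem_union, mem_sdiff]; tauto
  rw [h9] at h7 h8
  refine ⟨h6, h7, ?_⟩
  have hcard : ((es M).card : ℝ) = n / 2 := by
    have := es_card M hM
    have h8 : (2 : ℝ) * (es M).card = n := by exact_mod_cast this
    linarith
  have hcard' : ((es M').card : ℝ) = n / 2 := by
    have := es_card M' hM'
    have h8 : (2 : ℝ) * (es M').card = n := by exact_mod_cast this
    linarith
  set J : ℝ := ((es M ∩ es M').card : ℝ) with hJ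
  have hs : ((es M' \ es M).card : ℝ) = n / 2 - J := by
    have h10 := card_sdiff_add_card_inter (es M') (es M)
    rw [inter_comm] at h10
    have h11 : ((es M' \ es M).card : ℝ) + J = (es M').card := by
      rw [hJ]; exact_mod_cast h10
    linarith
  have hJ0 : 0 ≤ J := by positivity
  have hs0 : 0 ≤ (n : ℝ) / 2 - J := by rw [← hs]; positivity
  have h10 : app n d 1 (es M).card (es M' \ es M).card =
      ((n : ℝ) / 2 - J) * Real.log (1 - (d : ℝ) / n) - (d : ℝ) / (n - d) *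
        (3 / 4 - J / n - J ^ 2 / n ^ 2) - (d : ℝ) / (n - d) * ((n / 2 - J) / n ^ 2) := by
    unfold app
    rw [hcard, hs]
    push_cast
    field_simp
    ring
  rw [h10, hs] at h8
  have h15 : ((n : ℝ) / 2 - J) / n ^ 2 ≤ 1 / (2 * n) := by
    have : ((n : ℝ) / 2 - J) / n ^ 2 ≤ (n / 2) / n ^ 2 := by
      apply div_le_div_of_nonneg_right _ (by positivity)
      linarith
    refine this.trans (le_of_eq ?_)
    field_simp
  have h9 : (d : ℝ) / (n - d) * ((n / 2 - J) / n ^ 2) ≤ d / n ^ 2 := by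
    calc (d : ℝ) / (n - d) * ((n / 2 - J) / n ^ 2) ≤ 2 * d / n * (1 / (2 * n)) :=
          mul_le_mul h4 h15 (by positivity) (by positivity)
      _ = d / n ^ 2 := by field_simp
  have h16 : 0 ≤ (d : ℝ) / (n - d) * ((n / 2 - J) / n ^ 2) := by positivity
  have h11 : ((n : ℝ) / 2 - J) * (C * d / n ^ 3) ≤ C * d / n ^ 2 / 2 := by
    have : ((n : ℝ) / 2 - J) * (C * d / n ^ 3) ≤ (n / 2) * (C * d / n ^ 3) :=
      mul_le_mul_of_nonneg_right (by linarith) (by positivity)
    refine this.trans (le_of_eq ?_)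
    field_simp
  have h12 : (C + 2) * d / n ^ 2 = C * d / n ^ 2 + 2 * (d / n ^ 2) := by ring
  have h13 : 0 ≤ C * d / n ^ 2 := by positivity
  have h14 : (0 : ℝ) ≤ d / n ^ 2 := by positivity
  rw [h12]
  rw [abs_le] at h8 ⊢
  constructor <;> linarith [h8.1, h8.2]

end MI3

export MI3 (es_pm forbid_pm forbid_two)

end Pool.Agent.H698NC
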