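import Mathlib

set_option autoImplicit false

namespace Pool.Agent.H698NC

open Finset

namespace MI5



lemma pow_bound (x : ℝ) (h0 : 0 ≤ x) (h1 : x ≤ 1) (i : ℕ) : (1 + x) ^ i ≤ 1 + i * x * 2 ^ i := by
  induction i with
  | zero => simp
  | succ i ih =>
    have h2 : (0:ℝ) ≤ 2 ^ i := by positivity
    have h3 : (0:ℝ) ≤ (i:ℝ) := by positivity
    have h4 : (1:ℝ) ≤ 2 ^ i := one_le_pow₀ (by norm_num)
    have h5 : (0:ℝ) ≤ i * x * 2 ^ i := by positivity
    calc (1 + x) ^ (i+1) = (1+x)^i * (1+x) := pow_succ _ _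
      _ ≤ (1 + i * x * 2 ^ i) * (1 + x) := by
          apply mul_le_mul_of_nonneg_right ih (by linarith)
      _ ≤ 1 + ((i+1 : ℕ):ℝ) * x * 2 ^ (i+1) := by
          push_cast
          rw [pow_succ]
          nlinarith [mul_nonneg h5 h0, mul_nonneg h5 (sub_nonneg.2 h1), mul_nonneg h0 (sub_nonneg.2 h4)]

/-- product of the factors -/
noncomputable def PP (n : ℕ) (i : ℕ) : ℝ := ∏ t ∈ range i, (((n:ℝ) - 2*t) / ((n:ℝ) - 1 - 2*t))

lemma PP_le (n : ℕ) (h2 : 2 ≤ n) (i : ℕ) (hi : 2 * i ≤ n) : PP n i ≤ 1 + 4 * i / n * 2 ^ i := by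
  have hn : (0:ℝ) < n := by positivity
  have hn2 : (2:ℝ) ≤ n := by exact_mod_cast h2
  have hi' : 2 * (i:ℝ) ≤ n := by exact_mod_cast hi
  by_cases h : 4 * i ≤ n
  · have h' : 4 * (i:ℝ) ≤ n := by exact_mod_cast h
    have : PP n i ≤ (1 + 2 / (n:ℝ)) ^ i := by
      unfold PP
      calc ∏ t ∈ range i, (((n:ℝ) - 2*t) / ((n:ℝ) - 1 - 2*t)) ≤ ∏ t ∈ range i, (1 + 2/(n:ℝ)) := by
            apply Finset.prod_le_prod
            · intro t ht
              have ht1 : ((t:ℝ)) + 1 ≤ i := by exact_mod_cast (Finset.mem_range.1 ht)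
              apply div_nonneg <;> linarith
            · intro t ht
              have ht1 : ((t:ℝ)) + 1 ≤ i := by exact_mod_cast (Finset.mem_range.1 ht)
              have hp : (0:ℝ) < (n:ℝ) - 1 - 2*t := by linarith
              rw [div_le_iff₀ hp]
              have : (1 + 2/(n:ℝ)) * ((n:ℝ) - 1 - 2*t) = ((n:ℝ) - 1 - 2*t) + 2/(n:ℝ) * ((n:ℝ) - 1 - 2*t) := by ring
              rw [this]
              have h3 : 1 ≤ 2/(n:ℝ) * ((n:ℝ) - 1 - 2*t) := by
                rw [div_mul_eq_mul_div, le_div_iff₀ hn]; linarith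
              linarith
        _ = (1 + 2 / (n:ℝ)) ^ i := by simp
    refine this.trans ((pow_bound (2/(n:ℝ)) (by positivity) ?_ i).trans ?_)
    · rw [div_le_one hn]; exact hn2
    · have h5 : (i:ℝ) * (2/(n:ℝ)) * 2^i ≤ 4 * i / n * 2^i := by
        apply mul_le_mul_of_nonneg_right _ (by positivity)
        have : (0:ℝ) ≤ i / n := by positivity
        calc (i:ℝ) * (2/(n:ℝ)) = 2 * (i/n) := by ring
          _ ≤ 4 * (i / n) := by linarith
          _ = _ := by ring
      linarith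
  · push Not at h
    have h' : (n:ℝ) < 4 * (i:ℝ) := by exact_mod_cast h
    have : PP n i ≤ 2 ^ i := by
      unfold PP
      calc ∏ t ∈ range i, (((n:ℝ) - 2*t) / ((n:ℝ) - 1 - 2*t)) ≤ ∏ t ∈ range i, (2:ℝ) := by
            apply Finset.prod_le_prod
            · intro t ht
              have ht1 : ((t:ℝ)) + 1 ≤ i := by exact_mod_cast (Finset.mem_range.1 ht)
              apply div_nonneg <;> linarith
            · intro t ht
              have ht1 : ((t:ℝ)) + 1 ≤ i := by exact_mod_cast (Finset.mem_range.1 ht)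
              have hp : (0:ℝ) < (n:ℝ) - 1 - 2*t := by linarith
              rw [div_le_iff₀ hp]
              linarith
        _ = 2 ^ i := by simp
    have h6 : (1:ℝ) ≤ 4 * i / n := by rw [le_div_iff₀ hn]; linarith
    have h7 : (0:ℝ) ≤ 2 ^ i := by positivity
    nlinarith

lemma coef (m i : ℕ) (hm : 1 ≤ m) (hi : i ≤ m) :
    ((m.choose i : ℕ) : ℝ) * ((2 * m - 2 * i - 1).doubleFactorial : ℝ) * (2 ^ i * (i.factorial : ℝ))
      = ((2 * m - 1).doubleFactorial : ℝ) * PP (2 * m) i := by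
  induction i with
  | zero => simp [PP]
  | succ i ih =>
    have hi1 : i ≤ m := by omega
    have ih := ih hi1
    have e1 : ((m.choose (i+1) : ℕ) : ℝ) * ((i:ℝ)+1) = ((m.choose i : ℕ) : ℝ) * ((m:ℝ) - i) := by
      have := Nat.choose_succ_right_eq m i
      have h2 : ((m.choose (i+1) * (i+1) : ℕ) : ℝ) = ((m.choose i * (m - i) : ℕ) : ℝ) := by exact_mod_cast this
      push_cast [Nat.cast_sub hi1] at h2
      exact h2
    -- double factorial step
    have e2 : ((2 * m - 2 * i - 1).doubleFactorial : ℝ) = (2 * (m:ℝ) - 1 - 2 * i) * ((2 * m - 2 * (i+1) - 1).doubleFactorial : ℝ) := by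
      rcases Nat.lt_or_ge (i+1) m with h | h
      · obtain ⟨k, hk⟩ : ∃ k, 2 * m - 2 * i - 1 = k + 2 := ⟨2 * m - 2 * i - 3, by omega⟩
        have hk2 : 2 * m - 2 * (i+1) - 1 = k := by omega
        rw [hk, hk2, Nat.doubleFactorial_add_two]
        push_cast
        have : (k:ℝ) + 2 = 2 * (m:ℝ) - 1 - 2 * i := by
          have h3 : k + 2 + 2 * i + 1 = 2 * m := by omega
          have h4 : ((k + 2 + 2 * i + 1 : ℕ) : ℝ) = ((2 * m : ℕ) : ℝ) := by rw [h3]
          push_cast at h4; linarith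
        rw [this]
      · have h3 : m = i + 1 := by omega
        subst h3
        have h4 : 2 * (i+1) - 2 * i - 1 = 1 := by omega
        have h5 : 2 * (i+1) - 2 * (i+1) - 1 = 0 := by omega
        rw [h4, h5]
        simp [Nat.doubleFactorial]
        ring
    have hpos : (0:ℝ) < 2 * (m:ℝ) - 1 - 2 * i := by
      have : ((i:ℝ)+1) ≤ m := by exact_mod_cast hi
      linarith
    have e3 : PP (2 * m) (i+1) = PP (2*m) i * ((((2*m : ℕ):ℝ) - 2*i) / (((2*m : ℕ):ℝ) - 1 - 2*i)) := by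
      unfold PP; rw [Finset.prod_range_succ]
    have e5 : (((2 * m - 1).doubleFactorial : ℝ)) * PP (2 * m) (i+1)
        = (((2 * m - 1).doubleFactorial : ℝ) * PP (2 * m) i) * ((((2*m : ℕ):ℝ) - 2*i) / (((2*m : ℕ):ℝ) - 1 - 2*i)) := by
      rw [e3]; ring
    rw [e5, ← ih, e2]
    rw [Nat.factorial_succ]
    push_cast
    have hne : 2 * (m:ℝ) - 1 - 2 * i ≠ 0 := hpos.ne'
    rw [mul_div_assoc', eq_div_iff hne, pow_succ]
    linear_combination (2 * 2 ^ i * (i.factorial : ℝ) * ((2 * m - 2 * (i+1) - 1).doubleFactorial : ℝ) * (2 * (m:ℝ) - 1 - 2 * i)) * e1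

/-- TARGET -/
theorem gf_le (n : ℕ) (hn : Even n) (h2 : 2 ≤ n) (X : ℝ) (hX : 1 ≤ X) :
    ∑ i ∈ range (n / 2 + 1), ((n / 2).choose i : ℝ) * ((n - 2 * i - 1).doubleFactorial : ℝ) * (X - 1) ^ i
      ≤ ((n - 1).doubleFactorial : ℝ) * (Real.exp ((X - 1) / 2) + 8 * ((X - 1) / 2) / n * Real.exp (X - 1)) := by
  obtain ⟨m, rfl⟩ := hn
  have hm : 1 ≤ m := by omega
  have e0 : m + m = 2 * m := by ring
  rw [e0] at h2 ⊢
  have e1 : 2 * m / 2 = m := by omega
  rw [e1]
  set y : ℝ := (X - 1) / 2 with hy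
  have hy0 : 0 ≤ y := by rw [hy]; linarith
  have hXy : X - 1 = 2 * y := by rw [hy]; ring
  rw [hXy]
  have hn : (0:ℝ) < ((2 * m : ℕ):ℝ) := by positivity
  have hD : (0:ℝ) ≤ ((2 * m - 1).doubleFactorial : ℝ) := by positivity
  have step : ∀ i ∈ range (m+1), (m.choose i : ℝ) * ((2 * m - 2 * i - 1).doubleFactorial : ℝ) * (2 * y) ^ i
      ≤ ((2 * m - 1).doubleFactorial : ℝ) * (y ^ i / i.factorial + 4 / ((2 * m : ℕ):ℝ) * (i * ((2 * y) ^ i / i.factorial))) := by
    intro i hi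
    have hi : i ≤ m := by have := Finset.mem_range.1 hi; omega
    have c := coef m i hm hi
    have hf : (0:ℝ) < i.factorial := by positivity
    have h2i : (0:ℝ) < 2 ^ i := by positivity
    have c2 : (m.choose i : ℝ) * ((2 * m - 2 * i - 1).doubleFactorial : ℝ) * (2 * y) ^ i
        = ((2 * m - 1).doubleFactorial : ℝ) * (PP (2 * m) i * (y ^ i / i.factorial)) := by
      rw [mul_pow]
      field_simp
      linear_combination (y^i) * c
    rw [c2]
    apply mul_le_mul_of_nonneg_left _ hD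
    have hP := PP_le (2 * m) h2 i (by omega)
    calc PP (2 * m) i * (y ^ i / i.factorial) ≤ (1 + 4 * i / ((2*m : ℕ):ℝ) * 2 ^ i) * (y ^ i / i.factorial) := by
          apply mul_le_mul_of_nonneg_right hP (by positivity)
      _ = _ := by rw [mul_pow]; ring
  refine (Finset.sum_le_sum step).trans ?_
  rw [← Finset.mul_sum]
  apply mul_le_mul_of_nonneg_left _ hD
  rw [Finset.sum_add_distrib, ← Finset.mul_sum]
  have s1 : ∑ i ∈ range (m+1), y ^ i / i.factorial ≤ Real.exp y := Real.sum_le_exp_of_nonneg hy0 _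
  have s2 : ∑ i ∈ range (m+1), (i:ℝ) * ((2 * y) ^ i / i.factorial) ≤ 2 * y * Real.exp (2 * y) := by
    rw [Finset.sum_range_succ']
    simp only [Nat.cast_zero, zero_mul, add_zero]
    have : ∀ i ∈ range m, (((i+1 : ℕ)):ℝ) * ((2 * y) ^ (i+1) / (i+1).factorial) = 2 * y * ((2*y)^i / i.factorial) := by
      intro i _
      rw [Nat.factorial_succ]
      push_cast
      field_simp
      ring
    rw [Finset.sum_congr rfl this, ← Finset.mul_sum]
    apply mul_le_mul_of_nonneg_left _ (by positivity)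
    exact Real.sum_le_exp_of_nonneg (by positivity) _
  have s3 : 4 / ((2 * m : ℕ):ℝ) * ∑ i ∈ range (m+1), (i:ℝ) * ((2 * y) ^ i / i.factorial) ≤ 4 / ((2 * m : ℕ):ℝ) * (2 * y * Real.exp (2 * y)) :=
    mul_le_mul_of_nonneg_left s2 (by positivity)
  have s4 : 4 / ((2 * m : ℕ):ℝ) * (2 * y * Real.exp (2 * y)) = 8 * y / ((2 * m : ℕ):ℝ) * Real.exp (2 * y) := by ring
  linarith

end MI5

export MI5 (gf_le)

end Pool.Agent.H698NC
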