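import Pool.Agent.H698NC.I3
import Pool.Agent.H698NC.I5
import Pool.Agent.H698NC.E

set_option autoImplicit false

namespace Pool.Agent.H698NC

open Finset

namespace MI6

variable {n : ℕ}

theorem i6_exp_le {t : ℝ} (h0 : 0 ≤ t) (h1 : t ≤ 1) : Real.exp t ≤ 1 + 2 * t := by
  have h := Real.abs_exp_sub_one_sub_id_le (x := t) (by rw [abs_of_nonneg h0]; exact h1)
  have h2 := (abs_le.1 h).2
  nlinarith

/-- the numerical estimate -/
theorem i6_fac (K n d : ℝ) (hK : 0 ≤ K) (hd : 3 ≤ d) (hn : 2 * (K + 300) * d ≤ n) (c X : ℝ)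
    (hc : c = d / (n - d)) (hX : X = Real.exp (-Real.log (1 - d / n) + 3 / 2 * c / n)) :
    1 ≤ X ∧ Real.exp (-c / 2 + K * (d / n ^ 2)) *
      (Real.exp ((X - 1) / 2) + 8 * ((X - 1) / 2) / n * Real.exp (X - 1)) ≤
      1 + 2 * (K + 300) * d / n ^ 2 := by
  have hdn : 600 * d ≤ n := by nlinarith
  have hn0 : 0 < n := by linarith
  have hnd : 0 < n - d := by linarith
  have hc0 : 0 ≤ c := by rw [hc]; positivity
  have hp0 : 0 < 1 - d / n := by
    rw [sub_pos, div_lt_one hn0]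
    linarith
  have hXe : X = (1 + c) * Real.exp (3 / 2 * c / n) := by
    rw [hX, Real.exp_add, Real.exp_neg, Real.exp_log hp0]
    congr 1
    rw [hc]
    field_simp
    ring
  -- sizes
  have hcle : c ≤ 2 * (d / n) := by
    rw [hc, div_le_iff₀ hnd]
    have : 2 * (d / n) * (n - d) = 2 * d - 2 * d * (d / n) := by
      field_simp
    rw [this]
    have h2 : d / n ≤ 1 / 2 := by
      rw [div_le_iff₀ hn0]
      linarith
    nlinarith
  have hdn' : d / n ≤ 1 / 600 := by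
    rw [div_le_iff₀ hn0]
    linarith
  have hc1 : c ≤ 1 / 300 := by linarith
  have hcn : c / n ≤ 2 * (d / n ^ 2) := by
    have : 2 * (d / n ^ 2) = 2 * (d / n) / n := by
      field_simp
    rw [this]
    gcongr
  have hcn0 : 0 ≤ c / n := by positivity
  have hn1800 : 1800 ≤ n := by linarith
  have hcnc : c / n ≤ c / 1800 := by gcongr
  have e1 : Real.exp (3 / 2 * c / n) ≤ 1 + 3 * (c / n) := by
    have h1 : 3 / 2 * c / n = 3 / 2 * (c / n) := by ring
    have := i6_exp_le (t := 3 / 2 * (c / n)) (by positivity) (by linarith)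
    rw [h1]
    linarith
  have hX1 : X - 1 ≤ c + 6 * (c / n) := by
    rw [hXe]
    have h2 : (1 + c) * Real.exp (3 / 2 * c / n) ≤ (1 + c) * (1 + 3 * (c / n)) := by gcongr
    nlinarith
  have hX0 : 1 ≤ X := by
    rw [hXe]
    have h2 : 1 ≤ Real.exp (3 / 2 * c / n) := Real.one_le_exp (by positivity)
    nlinarith
  refine ⟨hX0, ?_⟩
  have hy2 : (X - 1) / 2 ≤ c / 2 + 3 * (c / n) := by linarith
  have hy3 : (X - 1) / 2 ≤ c := by linarith
  have hy4 : X - 1 ≤ 1 := by linarith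
  have e2 : Real.exp ((X - 1) / 2) ≤ Real.exp (c / 2) * Real.exp (3 * (c / n)) := by
    rw [← Real.exp_add]
    exact Real.exp_le_exp.2 hy2
  have e3 : Real.exp (X - 1) ≤ 3 := by
    refine (Real.exp_le_exp.2 hy4).trans ?_
    have := Real.exp_one_lt_d9
    linarith
  have e4 : 8 * ((X - 1) / 2) / n * Real.exp (X - 1) ≤ 24 * (c / n) := by
    have h1 : 8 * ((X - 1) / 2) / n ≤ 8 * (c / n) := by
      rw [mul_div_assoc]
      gcongr
    have h2 : 0 ≤ 8 * ((X - 1) / 2) / n := by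
      have : 0 ≤ X - 1 := by linarith
      positivity
    calc 8 * ((X - 1) / 2) / n * Real.exp (X - 1) ≤ 8 * (c / n) * 3 := by gcongr
      _ = _ := by ring
  have e5 : Real.exp ((X - 1) / 2) + 8 * ((X - 1) / 2) / n * Real.exp (X - 1) ≤
      Real.exp (c / 2) * Real.exp (27 * (c / n)) := by
    have h1 : (1 : ℝ) ≤ Real.exp (c / 2) := Real.one_le_exp (by positivity)
    have h2 : (1 : ℝ) ≤ Real.exp (3 * (c / n)) := Real.one_le_exp (by positivity)
    have h3 : 24 * (c / n) + 1 ≤ Real.exp (24 * (c / n)) := Real.add_one_le_exp _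
    have h4 : Real.exp (27 * (c / n)) = Real.exp (3 * (c / n)) * Real.exp (24 * (c / n)) := by
      rw [← Real.exp_add]; ring_nf
    rw [h4]
    have h5 : Real.exp (c / 2) * (Real.exp (3 * (c / n)) * (24 * (c / n) + 1)) ≤
        Real.exp (c / 2) * (Real.exp (3 * (c / n)) * Real.exp (24 * (c / n))) := by gcongr
    have h6 : (24 * (c / n)) ≤ Real.exp (c / 2) * (Real.exp (3 * (c / n)) * (24 * (c / n))) := by
      have : 1 * (1 * (24 * (c / n))) ≤
          Real.exp (c / 2) * (Real.exp (3 * (c / n)) * (24 * (c / n))) := by gcongr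
      linarith
    linarith
  calc Real.exp (-c / 2 + K * (d / n ^ 2)) *
        (Real.exp ((X - 1) / 2) + 8 * ((X - 1) / 2) / n * Real.exp (X - 1))
      ≤ Real.exp (-c / 2 + K * (d / n ^ 2)) * (Real.exp (c / 2) * Real.exp (27 * (c / n))) := by
        gcongr
    _ = Real.exp (K * (d / n ^ 2) + 27 * (c / n)) := by
        rw [← Real.exp_add, ← Real.exp_add]
        ring_nf
    _ ≤ Real.exp ((K + 54) * (d / n ^ 2)) := by
        apply Real.exp_le_exp.2
        linarith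
    _ ≤ 1 + 2 * ((K + 54) * (d / n ^ 2)) := by
        apply i6_exp_le (by positivity)
        have h1 : (K + 54) * (d / n ^ 2) = ((K + 54) * d / n) / n := by
          field_simp
        rw [h1, div_le_iff₀ hn0]
        have h2 : (K + 54) * d / n ≤ 1 := by
          rw [div_le_iff₀ hn0]
          nlinarith
        linarith
    _ ≤ _ := by
        have : 2 * (K + 300) * d / n ^ 2 = 2 * ((K + 300) * (d / n ^ 2)) := by ring
        rw [this]
        have h1 : 0 ≤ d / n ^ 2 := by positivity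
        nlinarith

theorem i6_card (hn : Even n) (hne : (RG n 1).Nonempty) :
    ((RG n 1).card : ℝ) = ((n - 1).doubleFactorial : ℝ) := by
  obtain ⟨M, hM⟩ := hne
  have h := pm_gf hn M hM 1
  simp only [one_pow, Finset.sum_const, nsmul_eq_mul, mul_one, sub_self] at h
  rw [h, Finset.sum_eq_single 0]
  · simp
  · intro i _ hi
    rw [zero_pow hi, mul_zero]
  · intro h0
    exact absurd (Finset.mem_range.2 (Nat.succ_pos _)) h0

/-- TARGET -/
theorem R1_le : ∃ C : ℝ, 1 ≤ C ∧ ∀ n d : ℕ, Even n → 3 ≤ d → C * d ≤ n →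
    ((RG n d).card : ℝ) * ∑ M ∈ RG n 1, ∑ M' ∈ RG n 1, (cnt d ∅ (es M ∪ es M') : ℝ)
      ≤ (1 + C * d / n ^ 2) * (∑ M ∈ RG n 1, (cnt d ∅ (es M) : ℝ)) ^ 2 := by
  classical
  obtain ⟨C1, hC1, h1⟩ := forbid_pm
  obtain ⟨C2, hC2, h2⟩ := forbid_two
  refine ⟨2 * ((3 * C1 + C2) + 300), by linarith, ?_⟩
  intro n d hn hd hCn
  have hd3 : (3 : ℝ) ≤ d := by exact_mod_cast hd
  have hC1n : C1 * d ≤ n := by nlinarith
  have hC2n : C2 * d ≤ n := by nlinarith
  have hnR : (1800 : ℝ) ≤ n := by nlinarith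
  have hn0 : (0 : ℝ) < n := by linarith
  have hn2 : 2 ≤ n := by
    have : (2 : ℝ) ≤ n := by linarith
    exact_mod_cast this
  rcases (RG n 1).eq_empty_or_nonempty with hemp | hne
  · rw [hemp]
    simp
  set c : ℝ := (d : ℝ) / (n - d) with hc
  have hdn : (600 : ℝ) * d ≤ n := by nlinarith
  have hc0 : 0 ≤ c := by
    have : (0 : ℝ) < n - d := by linarith
    rw [hc]
    positivity
  set X : ℝ := Real.exp (-Real.log (1 - (d : ℝ) / n) + 3 / 2 * c / n) with hX
  obtain ⟨hX1, hfac⟩ := i6_fac (3 * C1 + C2) n d (by linarith) hd3 hCn c X hc hX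
  set F : ℝ := Real.exp ((X - 1) / 2) + 8 * ((X - 1) / 2) / n * Real.exp (X - 1) with hF
  have hF0 : 0 ≤ F := by
    have : 0 ≤ X - 1 := by linarith
    positivity
  set R : ℝ := ((RG n d).card : ℝ) with hR
  have hR0 : 0 < R := by
    obtain ⟨M, hM⟩ := hne
    exact Nat.cast_pos.2 (h1 n d M hn hd hC1n hM).2.1
  set e0 : ℝ := (d : ℝ) / n ^ 2 with he0
  have he00 : 0 ≤ e0 := by positivity
  set lam : ℝ := Real.log (1 - (d : ℝ) / n) with hlam
  have ha0 : ∀ M ∈ RG n 1, (0 : ℝ) < cnt d ∅ (es M) := fun M hM => by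
    exact_mod_cast (h1 n d M hn hd hC1n hM).1
  have hlogR : ∀ M ∈ RG n 1, |Real.log (cnt d ∅ (es M)) - Real.log R
      - ((n : ℝ) / 2 * lam - c / 4)| ≤ C1 * e0 := fun M hM => by
    have := (h1 n d M hn hd hC1n hM).2.2
    rw [mul_div_assoc] at this
    exact this
  -- pairs
  have hpair : ∀ M ∈ RG n 1, ∀ M' ∈ RG n 1, R * (cnt d ∅ (es M ∪ es M') : ℝ) ≤
      (cnt d ∅ (es M) : ℝ) ^ 2 * Real.exp (-c / 2 + (C1 + C2) * e0) *
        X ^ (es M ∩ es M').card := by
    intro M hM M' hM'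
    obtain ⟨-, hb0, hb⟩ := h2 n d M M' hn hd hC2n hM hM'
    have hb0' : (0 : ℝ) < cnt d ∅ (es M ∪ es M') := by exact_mod_cast hb0
    have hJ : ((es M ∩ es M').card : ℝ) ≤ n / 2 := by
      have e1 := (es_pm M hM).2.2
      have e2 := Finset.card_le_card (Finset.inter_subset_left (s₁ := es M) (s₂ := es M'))
      have e3 : (2 : ℝ) * ((es M).card : ℝ) = n := by exact_mod_cast e1
      have e4 : ((es M ∩ es M').card : ℝ) ≤ (es M).card := by exact_mod_cast e2
      linarith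
    set J : ℕ := (es M ∩ es M').card with hJd
    have hJ0 : (0 : ℝ) ≤ J := by positivity
    have hJJ : (J : ℝ) ^ 2 / n ^ 2 ≤ J / n / 2 := by
      have : (J : ℝ) ^ 2 / n ^ 2 = (J / n) * (J / n) := by ring
      rw [this]
      have h3 : (J : ℝ) / n ≤ 1 / 2 := by
        rw [div_le_iff₀ hn0]
        linarith
      have h4 : 0 ≤ (J : ℝ) / n := by positivity
      nlinarith
    have e1 := (abs_le.1 (hlogR M hM)).1
    have e2 := (abs_le.1 hb).2
    rw [mul_div_assoc C2] at e2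
    have hlog : Real.log (cnt d ∅ (es M ∪ es M') : ℝ) + Real.log R ≤
        2 * Real.log (cnt d ∅ (es M) : ℝ) + (-c / 2 + (C1 + C2) * e0) +
          J * (-lam + 3 / 2 * c / n) := by
      have e3 : c * ((J : ℝ) ^ 2 / n ^ 2) ≤ c * (J / n / 2) :=
        mul_le_mul_of_nonneg_left hJJ hc0
      have e4 : (J : ℝ) * (-lam + 3 / 2 * c / n) = -(J * lam) + c * (J / n) + c * (J / n / 2) := by
        ring
      rw [e4]
      have e5 : c * (3 / 4 - (J : ℝ) / n - (J : ℝ) ^ 2 / n ^ 2) =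
          3 / 4 * c - c * (J / n) - c * ((J : ℝ) ^ 2 / n ^ 2) := by ring
      rw [e5] at e2
      have e6 : ((n : ℝ) / 2 - J) * lam = n / 2 * lam - J * lam := by ring
      rw [e6] at e2
      linarith
    calc R * (cnt d ∅ (es M ∪ es M') : ℝ)
        = Real.exp (Real.log (cnt d ∅ (es M ∪ es M') : ℝ) + Real.log R) := by
          rw [Real.exp_add, Real.exp_log hb0', Real.exp_log hR0, mul_comm]
      _ ≤ Real.exp (2 * Real.log (cnt d ∅ (es M) : ℝ) + (-c / 2 + (C1 + C2) * e0) +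
          J * (-lam + 3 / 2 * c / n)) := Real.exp_le_exp.2 hlog
      _ = _ := by
          rw [Real.exp_add, Real.exp_add, Real.exp_nat_mul, ← hX, two_mul, Real.exp_add,
            Real.exp_log (ha0 M hM), sq]
  -- comparison
  have hcomp : ∀ M ∈ RG n 1, ∀ M' ∈ RG n 1, (cnt d ∅ (es M) : ℝ) ≤
      Real.exp (2 * C1 * e0) * (cnt d ∅ (es M') : ℝ) := by
    intro M hM M' hM'
    have e1 := (abs_le.1 (hlogR M hM)).2
    have e2 := (abs_le.1 (hlogR M' hM')).1
    have e3 : Real.log (cnt d ∅ (es M) : ℝ) ≤ 2 * C1 * e0 + Real.log (cnt d ∅ (es M') : ℝ) := by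
      linarith
    calc (cnt d ∅ (es M) : ℝ) = Real.exp (Real.log (cnt d ∅ (es M) : ℝ)) :=
          (Real.exp_log (ha0 M hM)).symm
      _ ≤ Real.exp (2 * C1 * e0 + Real.log (cnt d ∅ (es M') : ℝ)) := Real.exp_le_exp.2 e3
      _ = _ := by rw [Real.exp_add, Real.exp_log (ha0 M' hM')]
  set D : ℝ := ((n - 1).doubleFactorial : ℝ) with hD
  have hcard : ((RG n 1).card : ℝ) = D := i6_card hn hne
  set S : ℝ := ∑ M ∈ RG n 1, (cnt d ∅ (es M) : ℝ) with hS
  have hDa : ∀ M ∈ RG n 1, D * (cnt d ∅ (es M) : ℝ) ≤ Real.exp (2 * C1 * e0) * S := by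
    intro M hM
    rw [← hcard, hS, Finset.mul_sum, ← nsmul_eq_mul, ← Finset.sum_const]
    exact Finset.sum_le_sum fun M' hM' => hcomp M hM M' hM'
  have hsumJ : ∀ M ∈ RG n 1, ∑ M' ∈ RG n 1, X ^ (es M ∩ es M').card ≤ D * F := by
    intro M hM
    rw [pm_gf hn M hM X]
    exact gf_le n hn hn2 X hX1
  calc R * ∑ M ∈ RG n 1, ∑ M' ∈ RG n 1, (cnt d ∅ (es M ∪ es M') : ℝ)
      = ∑ M ∈ RG n 1, ∑ M' ∈ RG n 1, R * (cnt d ∅ (es M ∪ es M') : ℝ) := by
        rw [Finset.mul_sum]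
        exact Finset.sum_congr rfl fun M _ => Finset.mul_sum _ _ _
    _ ≤ ∑ M ∈ RG n 1, ∑ M' ∈ RG n 1, (cnt d ∅ (es M) : ℝ) ^ 2 *
          Real.exp (-c / 2 + (C1 + C2) * e0) * X ^ (es M ∩ es M').card :=
        Finset.sum_le_sum fun M hM => Finset.sum_le_sum fun M' hM' => hpair M hM M' hM'
    _ = ∑ M ∈ RG n 1, (cnt d ∅ (es M) : ℝ) ^ 2 *
          Real.exp (-c / 2 + (C1 + C2) * e0) * ∑ M' ∈ RG n 1, X ^ (es M ∩ es M').card :=
        Finset.sum_congr rfl fun M _ => (Finset.mul_sum _ _ _).symm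
    _ ≤ ∑ M ∈ RG n 1, (cnt d ∅ (es M) : ℝ) ^ 2 *
          Real.exp (-c / 2 + (C1 + C2) * e0) * (D * F) :=
        Finset.sum_le_sum fun M hM => mul_le_mul_of_nonneg_left (hsumJ M hM) (by positivity)
    _ = ∑ M ∈ RG n 1, Real.exp (-c / 2 + (C1 + C2) * e0) * F * ((cnt d ∅ (es M) : ℝ) *
          (D * (cnt d ∅ (es M) : ℝ))) := Finset.sum_congr rfl fun M _ => by ring
    _ ≤ ∑ M ∈ RG n 1, Real.exp (-c / 2 + (C1 + C2) * e0) * F * ((cnt d ∅ (es M) : ℝ) *
          (Real.exp (2 * C1 * e0) * S)) := by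
        refine Finset.sum_le_sum fun M hM => mul_le_mul_of_nonneg_left
          (mul_le_mul_of_nonneg_left (hDa M hM) (ha0 M hM).le) (by positivity)
    _ = (Real.exp (-c / 2 + (3 * C1 + C2) * e0) * F) * S ^ 2 := by
        rw [← Finset.mul_sum, ← Finset.sum_mul, ← hS]
        have : Real.exp (-c / 2 + (3 * C1 + C2) * e0) =
            Real.exp (-c / 2 + (C1 + C2) * e0) * Real.exp (2 * C1 * e0) := by
          rw [← Real.exp_add]
          ring_nf
        rw [this]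
        ring
    _ ≤ _ := mul_le_mul_of_nonneg_right hfac (sq_nonneg S)

end MI6

export MI6 (R1_le)

end Pool.Agent.H698NC
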