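import Pool.Agent.H698NC.JA

set_option autoImplicit false

namespace Pool.Agent.H698NC

open Finset

namespace MJB

variable {n : ℕ}

theorem EE_lower (m n d t : ℕ) (A : Finset (Sym2 (Fin n))) (hA : Cls d m t A) (hd : m + 1 ≤ d)
    (hn : 2 * ((m : ℝ) + 2) * t ≤ n) : (n : ℝ) * d / (m + 2) ≤ EE d A := by
  have h1 : (2 : ℝ) * A.card ≤ m * n + 2 * t := by exact_mod_cast hA.card
  have h2 : (m : ℝ) + 1 ≤ d := by exact_mod_cast hd
  have hm : (0 : ℝ) ≤ m := Nat.cast_nonneg m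
  have hn0 : (0 : ℝ) ≤ n := Nat.cast_nonneg n
  rw [div_le_iff₀ (by linarith)]
  unfold EE
  have h3 : 0 ≤ ((m : ℝ) + 1) * n * (d - (m + 1)) :=
    mul_nonneg (mul_nonneg (by linarith) hn0) (by linarith)
  have h4 : ((n : ℝ) * d - 2 * A.card) * (m + 2) =
      (n * d - (m * n + 2 * t)) * (m + 2) + (m * n + 2 * t - 2 * A.card) * (m + 2) := by ring
  have h5 : 0 ≤ ((m : ℝ) * n + 2 * t - 2 * A.card) * (m + 2) :=
    mul_nonneg (by linarith) (by linarith)
  have h6 : ((n : ℝ) * d - (m * n + 2 * t)) * (m + 2) - n * d =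
      ((m : ℝ) + 1) * n * (d - (m + 1)) + (n - 2 * (m + 2) * t) := by ring
  linarith

open scoped Classical in
theorem sum_val (d : ℕ) (A B : Finset (Sym2 (Fin n))) (x : Fin n) (hx : dg A x < d)
    (hA : ∀ v, dg A v ≤ d) (h : Fin n → ℝ) :
    ∑ z ∈ univ.filter (fun z => Val d A B x z), rd d A z * h z =
      ∑ z, rd d A z * h z - ∑ z ∈ insert x (nbr (A ∪ B) x), rd d A z * h z := by
  have h1 : ∑ z ∈ univ.filter (fun z => Val d A B x z), rd d A z * h z =
      ∑ z ∈ univ \ insert x (nbr (A ∪ B) x), rd d A z * h z := by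
    apply Finset.sum_subset
    · intro z hz
      have hv := (mem_filter.1 hz).2
      rw [mem_sdiff]
      refine ⟨mem_univ _, fun hc => ?_⟩
      rcases mem_insert.1 hc with rfl | hc
      · exact hv.ne rfl
      · rcases mem_union.1 (mem_filter.1 hc).2 with hc | hc
        · exact hv.nA hc
        · exact hv.nB hc
    · intro z hz hzv
      have hz' := (mem_sdiff.1 hz).2
      have hr : dg A z = d := by
        by_contra hne
        apply hzv
        refine mem_filter.2 ⟨mem_univ _, ?_, ?_, ?_, hx, lt_of_le_of_ne (hA z) hne⟩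
        · rintro rfl
          exact hz' (mem_insert_self _ _)
        · intro hc
          exact hz' (mem_insert_of_mem (mem_filter.2 ⟨mem_univ _, mem_union_left _ hc⟩))
        · intro hc
          exact hz' (mem_insert_of_mem (mem_filter.2 ⟨mem_univ _, mem_union_right _ hc⟩))
      unfold rd
      rw [hr, sub_self, zero_mul]
  have h2 := Finset.sum_sdiff (f := fun z => rd d A z * h z)
    (Finset.subset_univ (insert x (nbr (A ∪ B) x)))
  rw [h1]
  linarith

theorem sum_bet (d : ℕ) (A B : Finset (Sym2 (Fin n))) (x : Fin n) (hA : ND A) (hE : EE d A ≠ 0) :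
    ∑ z, rd d A z * bet d A B x z = EE d A * (rd d A x + TT d A B x) := by
  have h1 := sum_rd d A hA
  have h2 : ∑ z, rd d A z * (rd d A z - 1) = D2 d A := rfl
  have h3 : ∑ z, rd d A z * TT d A B z = QQ d A B := rfl
  set Δ := D2 d A / EE d A with hΔ
  have e : ∀ z, rd d A z * bet d A B x z =
      rd d A z * (rd d A x + Δ * (rd d A x - 1 - Δ) - Δ + TT d A B x - QQ d A B / EE d A) +
      rd d A z * (rd d A z - 1) * (1 - (rd d A x - 1 - Δ)) + rd d A z * TT d A B z := by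
    intro z
    unfold bet
    rw [← hΔ]
    ring
  simp_rw [e]
  rw [sum_add_distrib, sum_add_distrib, ← sum_mul, ← sum_mul, h1, h2, h3]
  have hD : D2 d A = Δ * EE d A := by rw [hΔ]; field_simp
  have hQ : EE d A * (QQ d A B / EE d A) = QQ d A B := by field_simp
  rw [hD]
  linear_combination (-1 : ℝ) * hQ

theorem bet_le (m n d t : ℕ) (A B : Finset (Sym2 (Fin n))) (hd : m + 1 ≤ d)
    (h3 : ∀ v, 0 ≤ rd d A v ∧ rd d A v ≤ d ∧ |rd d A v - 1 - D2 d A / EE d A| ≤ m + t)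
    (h4 : ∀ v, 0 ≤ TT d A B v ∧ TT d A B v ≤ (2 * m + t) * d)
    (h5 : 0 ≤ QQ d A B / EE d A) (h6 : QQ d A B / EE d A ≤ (2 * m + t) * d) (x z : Fin n) :
    |bet d A B x z| ≤ ((m + 1) + 1 + (m + 1) ^ 2 + (6 * m + 3)) * (1 + (t : ℝ)) ^ 2 * d := by
  have hm : (0 : ℝ) ≤ m := Nat.cast_nonneg m
  have ht : (0 : ℝ) ≤ t := Nat.cast_nonneg t
  have hd1 : (1 : ℝ) ≤ d := by
    have : (m : ℝ) + 1 ≤ d := by exact_mod_cast hd
    linarith
  obtain ⟨hx1, hx2, hx3⟩ := h3 x
  obtain ⟨hz1, hz2, hz3⟩ := h3 z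
  obtain ⟨hTx1, hTx2⟩ := h4 x
  obtain ⟨hTz1, hTz2⟩ := h4 z
  set a := rd d A x - 1 - D2 d A / EE d A with ha
  set b := rd d A z - 1 - D2 d A / EE d A with hb
  set q := QQ d A B / EE d A with hq
  have e : bet d A B x z = a + rd d A z - a * b + TT d A B x + TT d A B z - q := by
    unfold bet
    rw [ha, hb, hq]
    ring
  have hab : |a * b| ≤ (m + t) * (m + t) := by
    rw [abs_mul]
    exact mul_le_mul hx3 hz3 (abs_nonneg _) (by positivity)
  have h7 : |bet d A B x z| ≤ (m + t) + d + (m + t) * (m + t) + 3 * ((2 * m + t) * d) := by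
    rw [e, abs_le]
    obtain ⟨ha1, ha2⟩ := abs_le.1 hx3
    obtain ⟨hab1, hab2⟩ := abs_le.1 hab
    constructor <;> linarith
  set s : ℝ := 1 + t with hs
  have hs1 : 1 ≤ s := by linarith
  have hs2 : s ≤ s ^ 2 := by
    have : s * 1 ≤ s * s := mul_le_mul_of_nonneg_left hs1 (by linarith)
    rw [pow_two]; linarith
  have hs0 : 0 ≤ s ^ 2 := by positivity
  have hsd : s ^ 2 ≤ s ^ 2 * d := by
    have : s ^ 2 * 1 ≤ s ^ 2 * d := mul_le_mul_of_nonneg_left hd1 hs0
    linarith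
  have hmt : (m : ℝ) + t ≤ (m + 1) * s := by
    have : (m + 1) * s = m + 1 + t + m * t := by rw [hs]; ring
    have h : 0 ≤ (m : ℝ) * t := by positivity
    linarith
  have b1 : (m : ℝ) + t ≤ (m + 1) * (s ^ 2 * d) :=
    hmt.trans (mul_le_mul_of_nonneg_left (hs2.trans hsd) (by linarith))
  have b2 : (d : ℝ) ≤ s ^ 2 * d := by
    have : 1 * (d : ℝ) ≤ s ^ 2 * d := mul_le_mul_of_nonneg_right (hs1.trans hs2) (by linarith)
    linarith
  have b3 : ((m : ℝ) + t) * (m + t) ≤ (m + 1) ^ 2 * (s ^ 2 * d) := by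
    calc ((m : ℝ) + t) * (m + t) ≤ ((m + 1) * s) * ((m + 1) * s) :=
          mul_le_mul hmt hmt (by positivity) (by positivity)
      _ = (m + 1) ^ 2 * s ^ 2 := by ring
      _ ≤ _ := mul_le_mul_of_nonneg_left hsd (by positivity)
  have b4 : 3 * ((2 * (m : ℝ) + t) * d) ≤ (6 * m + 3) * (s ^ 2 * d) := by
    have h : 2 * (m : ℝ) + t ≤ (2 * m + 1) * s := by
      have h1 : (2 * (m : ℝ) + 1) * s = 2 * m + 1 + t + 2 * m * t := by rw [hs]; ring
      have h2 : 0 ≤ 2 * (m : ℝ) * t := by positivity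
      linarith
    calc 3 * ((2 * (m : ℝ) + t) * d) ≤ 3 * (((2 * m + 1) * s) * d) := by gcongr
      _ ≤ 3 * (((2 * m + 1) * s ^ 2) * d) := by gcongr
      _ = _ := by ring
  calc |bet d A B x z| ≤ (m + t) + d + (m + t) * (m + t) + 3 * ((2 * m + t) * d) := h7
    _ ≤ (m + 1) * (s ^ 2 * d) + s ^ 2 * d + (m + 1) ^ 2 * (s ^ 2 * d) +
        (6 * m + 3) * (s ^ 2 * d) := by linarith
    _ = _ := by ring

theorem card_nbr (m d t : ℕ) (A B : Finset (Sym2 (Fin n))) (hA : Cls d m t A) (hB : BCls m B)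
    (x : Fin n) : (nbr (A ∪ B) x).card ≤ 2 * m + t := by
  have h : nbr (A ∪ B) x ⊆ nbr A x ∪ nbr B x := by
    intro z hz
    rcases mem_union.1 (mem_filter.1 hz).2 with h | h
    · exact mem_union_left _ (mem_filter.2 ⟨mem_univ _, h⟩)
    · exact mem_union_right _ (mem_filter.2 ⟨mem_univ _, h⟩)
  have h1 := (card_le_card h).trans (card_union_le _ _)
  have h2 : (nbr A x).card ≤ m + t := hA.lem x
  have h3 : (nbr B x).card ≤ m := hB.lem x
  omega

theorem notMem_nbr (A B : Finset (Sym2 (Fin n))) (hA : ND A) (hB : ND B) (x : Fin n) :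
    x ∉ nbr (A ∪ B) x := by
  intro h
  rcases mem_union.1 (mem_filter.1 h).2 with h | h
  · exact hA _ h (Sym2.mk_isDiag_iff.2 rfl)
  · exact hB _ h (Sym2.mk_isDiag_iff.2 rfl)

open scoped Classical in
/-- TARGET -/
theorem gg_sum (m : ℕ) : ∃ C : ℝ, 1 ≤ C ∧ ∀ (n d t : ℕ) (A B : Finset (Sym2 (Fin n))) (x : Fin n),
    Even (n * d) → m + 1 ≤ d → C * ((d : ℝ) + (1 + t) ^ 6) ≤ n → Cls d m t A → BCls m B → dg A x < d →
    |∑ z ∈ univ.filter (fun z => Val d A B x z), rd d A z * Real.exp (gL (ell d) d A B x z) - EE d A|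
      ≤ EE d A * (C * (1 + t) ^ 6 * (1 / (n : ℝ) ^ 2)) := by
  obtain ⟨C1, hC1, h1⟩ := stat_bounds m
  obtain ⟨C2, hC2, h2⟩ := gg_bound m
  have hm : (0 : ℝ) ≤ m := Nat.cast_nonneg m
  set K : ℝ := (m + 1) + 1 + (m + 1) ^ 2 + (6 * m + 3) with hK
  have hK0 : 0 ≤ K := by positivity
  set C3 : ℝ := (2 * m + 1) * K * (m + 2) ^ 2 with hC3
  have hC30 : 0 ≤ C3 := by positivity
  refine ⟨C1 + C2 + 2 * C2 ^ 2 + C3 + 2 * (m + 2), by
    have : 0 ≤ 2 * C2 ^ 2 := by positivity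
    linarith, ?_⟩
  intro n d t A B x hev hd hn hA hB hx
  set s : ℝ := 1 + (t : ℝ) with hs
  have ht : (0 : ℝ) ≤ t := Nat.cast_nonneg t
  have hs1 : 1 ≤ s := by linarith
  have hs0 : 0 ≤ s := by linarith
  have hC2sq : 0 ≤ 2 * C2 ^ 2 := by positivity
  have hd1 : (1 : ℝ) ≤ d := by
    have : (m : ℝ) + 1 ≤ d := by exact_mod_cast hd
    linarith
  have hs6 : 1 ≤ s ^ 6 := one_le_pow₀ hs1
  have hw0 : 0 ≤ (d : ℝ) + s ^ 6 := by positivity
  have key : ∀ c : ℝ, c ≤ C1 + C2 + 2 * C2 ^ 2 + C3 + 2 * (m + 2) →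
      c * ((d : ℝ) + s ^ 6) ≤ n := fun c hc => (mul_le_mul_of_nonneg_right hc hw0).trans hn
  have hn1 := key C1 (by linarith)
  have hn2 := key C2 (by linarith)
  have hn3 := key (2 * (m + 2)) (by linarith)
  have hn0 : (0 : ℝ) < n := by
    have h : 1 ≤ (d : ℝ) + s ^ 6 := by linarith
    have : 1 * 1 ≤ C1 * ((d : ℝ) + s ^ 6) := mul_le_mul hC1 h (by norm_num) (by linarith)
    linarith
  obtain ⟨hD0, hD1, h3, h4, h5, h6⟩ := h1 n d t A B hd hn1 hA hB
  have hEl : (n : ℝ) * d / (m + 2) ≤ EE d A := by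
    apply EE_lower m n d t A hA hd
    have e1 : (t : ℝ) ≤ s ^ 6 := by
      have : s ≤ s ^ 6 := le_self_pow₀ hs1 (by norm_num)
      linarith
    have e2 : (t : ℝ) ≤ (d : ℝ) + s ^ 6 := by linarith
    exact (mul_le_mul_of_nonneg_left e2 (by positivity)).trans hn3
  have hE0 : 0 < EE d A := lt_of_lt_of_le (by positivity) hEl
  have hbet := bet_le m n d t A B hd h3 h4 h5 h6 x
  rw [← hK, ← hs] at hbet
  -- the main part
  set V := univ.filter (fun z => Val d A B x z) with hV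
  have hmain : ∑ z ∈ V, rd d A z * (1 + bet d A B x z / EE d A) =
      EE d A - ∑ z ∈ insert x (nbr (A ∪ B) x), rd d A z * (bet d A B x z / EE d A) := by
    rw [hV, sum_val d A B x hx hA.led]
    have e1 : ∑ z, rd d A z * (1 + bet d A B x z / EE d A) =
        EE d A + (rd d A x + TT d A B x) := by
      have : ∀ z, rd d A z * (1 + bet d A B x z / EE d A) =
          rd d A z + rd d A z * bet d A B x z / EE d A := by intro z; ring
      simp_rw [this]
      rw [sum_add_distrib, ← sum_div, sum_rd d A hA.nd, sum_bet d A B x hA.nd hE0.ne']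
      field_simp
    have e2 : ∑ z ∈ insert x (nbr (A ∪ B) x), rd d A z * (1 + bet d A B x z / EE d A) =
        (rd d A x + TT d A B x) +
          ∑ z ∈ insert x (nbr (A ∪ B) x), rd d A z * (bet d A B x z / EE d A) := by
      have : ∀ z, rd d A z * (1 + bet d A B x z / EE d A) =
          rd d A z + rd d A z * (bet d A B x z / EE d A) := by intro z; ring
      simp_rw [this]
      rw [sum_add_distrib]
      congr 1
      rw [sum_insert (notMem_nbr A B hA.nd hB.nd x)]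
      rfl
    rw [e1, e2]
    ring
  have hdE : (d : ℝ) ≤ (m + 2) * EE d A / n := by
    rw [le_div_iff₀ hn0]
    rw [div_le_iff₀ (by positivity)] at hEl
    linarith
  have hs2 : s ^ 2 ≤ s ^ 6 := pow_le_pow_right₀ hs1 (by norm_num)
  have hs3 : s ^ 3 ≤ s ^ 6 := pow_le_pow_right₀ hs1 (by norm_num)
  have hs4 : s ^ 4 ≤ s ^ 6 := pow_le_pow_right₀ hs1 (by norm_num)
  have herrA : |∑ z ∈ insert x (nbr (A ∪ B) x), rd d A z * (bet d A B x z / EE d A)| ≤
      EE d A * (C3 * s ^ 6 * (1 / (n : ℝ) ^ 2)) := by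
    have b1 : ∀ z ∈ insert x (nbr (A ∪ B) x), |rd d A z * (bet d A B x z / EE d A)| ≤
        d * (K * s ^ 2 * d / EE d A) := by
      intro z _
      rw [abs_mul, abs_div, abs_of_pos hE0, abs_of_nonneg (h3 z).1]
      exact mul_le_mul (h3 z).2.1 (div_le_div_of_nonneg_right (hbet z) hE0.le)
        (by positivity) (by positivity)
    have b2 : ((insert x (nbr (A ∪ B) x)).card : ℝ) ≤ (2 * m + 1) * s := by
      have c1 : (insert x (nbr (A ∪ B) x)).card ≤ 2 * m + t + 1 :=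
        (card_insert_le _ _).trans (Nat.add_le_add_right (card_nbr m d t A B hA hB x) 1)
      have c2 : ((insert x (nbr (A ∪ B) x)).card : ℝ) ≤ 2 * m + t + 1 := by exact_mod_cast c1
      have c3 : (2 * (m : ℝ) + 1) * s = 2 * m + 1 + t + 2 * m * t := by rw [hs]; ring
      have c4 : 0 ≤ 2 * (m : ℝ) * t := by positivity
      linarith
    have b3 : (d : ℝ) * (K * s ^ 2 * d / EE d A) ≤
        K * s ^ 2 * ((m + 2) ^ 2 * EE d A / n ^ 2) := by
      have c1 : (d : ℝ) * d ≤ ((m + 2) * EE d A / n) * ((m + 2) * EE d A / n) :=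
        mul_le_mul hdE hdE (by positivity) (by positivity)
      calc (d : ℝ) * (K * s ^ 2 * d / EE d A) = K * s ^ 2 * (d * d / EE d A) := by ring
        _ ≤ K * s ^ 2 * (((m + 2) * EE d A / n) * ((m + 2) * EE d A / n) / EE d A) := by gcongr
        _ = _ := by field_simp
    calc |∑ z ∈ insert x (nbr (A ∪ B) x), rd d A z * (bet d A B x z / EE d A)|
        ≤ ∑ z ∈ insert x (nbr (A ∪ B) x), |rd d A z * (bet d A B x z / EE d A)| :=
          abs_sum_le_sum_abs _ _
      _ ≤ (insert x (nbr (A ∪ B) x)).card • (d * (K * s ^ 2 * d / EE d A)) :=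
          sum_le_card_nsmul _ _ _ b1
      _ = ((insert x (nbr (A ∪ B) x)).card : ℝ) * (d * (K * s ^ 2 * d / EE d A)) := by
          rw [nsmul_eq_mul]
      _ ≤ ((2 * m + 1) * s) * (K * s ^ 2 * ((m + 2) ^ 2 * EE d A / n ^ 2)) :=
          mul_le_mul b2 b3 (by positivity) (by positivity)
      _ = EE d A * (C3 * s ^ 3 * (1 / (n : ℝ) ^ 2)) := by rw [hC3]; ring
      _ ≤ _ := by gcongr
  have herrB : |∑ z ∈ V, rd d A z * (Real.exp (gL (ell d) d A B x z) -
      (1 + bet d A B x z / EE d A))| ≤ EE d A * (2 * C2 ^ 2 * s ^ 6 * (1 / (n : ℝ) ^ 2)) := by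
    have b1 : ∀ z ∈ V, |rd d A z * (Real.exp (gL (ell d) d A B x z) -
        (1 + bet d A B x z / EE d A))| ≤ rd d A z * (2 * C2 ^ 2 * s ^ 6 * (1 / (n : ℝ) ^ 2)) := by
      intro z hz
      have hv := (mem_filter.1 hz).2
      obtain ⟨g1, -, -, g4⟩ := h2 n d t A B x z hev hd hn2 hA hB hv
      rw [← hs] at g1 g4
      set g := gL (ell d) d A B x z with hg
      have hsn : C2 * s ^ 2 / n ≤ 1 := by
        rw [div_le_one hn0]
        calc (C2 * s ^ 2 : ℝ) ≤ C2 * ((d : ℝ) + s ^ 6) :=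
              mul_le_mul_of_nonneg_left (by linarith) (by linarith)
          _ ≤ (n : ℝ) := hn2
      have hg1 : |g| ≤ 1 := g4.trans hsn
      have e1 := Real.abs_exp_sub_one_sub_id_le hg1
      have e2 : g ^ 2 ≤ (C2 * s ^ 2 / n) ^ 2 := by
        rw [← sq_abs]
        exact pow_le_pow_left₀ (abs_nonneg _) g4 2
      rw [abs_mul, abs_of_nonneg (h3 z).1]
      apply mul_le_mul_of_nonneg_left _ (h3 z).1
      have e3 : Real.exp g - (1 + bet d A B x z / EE d A) =
          (Real.exp g - 1 - g) + (g - bet d A B x z / EE d A) := by ring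
      rw [e3]
      calc |(Real.exp g - 1 - g) + (g - bet d A B x z / EE d A)|
          ≤ |Real.exp g - 1 - g| + |g - bet d A B x z / EE d A| := abs_add_le _ _
        _ ≤ (C2 * s ^ 2 / n) ^ 2 + C2 * s ^ 2 / n ^ 2 := add_le_add (e1.trans e2) g1
        _ = (C2 ^ 2 * s ^ 4 + C2 * s ^ 2) * (1 / (n : ℝ) ^ 2) := by field_simp
        _ ≤ (2 * C2 ^ 2 * s ^ 6) * (1 / (n : ℝ) ^ 2) := by
            apply mul_le_mul_of_nonneg_right _ (by positivity)
            have f1 : C2 ^ 2 * s ^ 4 ≤ C2 ^ 2 * s ^ 6 := by gcongr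
            have f2 : C2 ≤ C2 ^ 2 := le_self_pow₀ hC2 (by norm_num)
            have f3 : C2 * s ^ 2 ≤ C2 ^ 2 * s ^ 6 := mul_le_mul f2 hs2 (by positivity) (by positivity)
            linarith
    have b2 : ∑ z ∈ V, rd d A z ≤ EE d A := by
      rw [← sum_rd d A hA.nd]
      exact sum_le_sum_of_subset_of_nonneg (subset_univ _) fun z _ _ => (h3 z).1
    calc |∑ z ∈ V, rd d A z * (Real.exp (gL (ell d) d A B x z) - (1 + bet d A B x z / EE d A))|
        ≤ ∑ z ∈ V, |rd d A z * (Real.exp (gL (ell d) d A B x z) -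
            (1 + bet d A B x z / EE d A))| := abs_sum_le_sum_abs _ _
      _ ≤ ∑ z ∈ V, rd d A z * (2 * C2 ^ 2 * s ^ 6 * (1 / (n : ℝ) ^ 2)) := sum_le_sum b1
      _ = (∑ z ∈ V, rd d A z) * (2 * C2 ^ 2 * s ^ 6 * (1 / (n : ℝ) ^ 2)) := by rw [sum_mul]
      _ ≤ _ := mul_le_mul_of_nonneg_right b2 (by positivity)
  have hsplit : ∑ z ∈ V, rd d A z * Real.exp (gL (ell d) d A B x z) - EE d A =
      ∑ z ∈ V, rd d A z * (Real.exp (gL (ell d) d A B x z) - (1 + bet d A B x z / EE d A)) -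
        ∑ z ∈ insert x (nbr (A ∪ B) x), rd d A z * (bet d A B x z / EE d A) := by
    have : ∑ z ∈ V, rd d A z * Real.exp (gL (ell d) d A B x z) =
        ∑ z ∈ V, rd d A z * (Real.exp (gL (ell d) d A B x z) - (1 + bet d A B x z / EE d A)) +
          ∑ z ∈ V, rd d A z * (1 + bet d A B x z / EE d A) := by
      rw [← sum_add_distrib]
      exact sum_congr rfl fun z _ => by ring
    rw [this, hmain]
    ring
  rw [hsplit]
  calc |∑ z ∈ V, rd d A z * (Real.exp (gL (ell d) d A B x z) - (1 + bet d A B x z / EE d A)) -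
        ∑ z ∈ insert x (nbr (A ∪ B) x), rd d A z * (bet d A B x z / EE d A)|
      ≤ EE d A * (2 * C2 ^ 2 * s ^ 6 * (1 / (n : ℝ) ^ 2)) +
        EE d A * (C3 * s ^ 6 * (1 / (n : ℝ) ^ 2)) :=
        (abs_sub _ _).trans (add_le_add herrB herrA)
    _ = EE d A * ((2 * C2 ^ 2 + C3) * s ^ 6 * (1 / (n : ℝ) ^ 2)) := by ring
    _ ≤ _ := by
      apply mul_le_mul_of_nonneg_left _ hE0.le
      apply mul_le_mul_of_nonneg_right _ (by positivity)
      apply mul_le_mul_of_nonneg_right _ (by positivity)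
      linarith

end MJB

export MJB (gg_sum)

end Pool.Agent.H698NC
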