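import Pool.Agent.H698NC.JA

set_option autoImplicit false

namespace Pool.Agent.H698NC

open Finset

namespace MJC

variable {n : ℕ}

theorem jc_log (u v : ℝ) (hu0 : 0 ≤ u) (hu : u ≤ 1 / 2) (hv0 : 0 ≤ v) (hv : v ≤ 1 / 2) :
    |Real.log (1 - u) - Real.log (1 - v) + (u - v)| ≤ 2 * (u + v) * |u - v| := by
  have key : ∀ a b : ℝ, 0 ≤ a → a ≤ 1 / 2 → 0 ≤ b → b ≤ 1 / 2 →
      Real.log (1 - a) - Real.log (1 - b) + (a - b) ≤ 2 * (a + b) * |a - b| := by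
    intro a b ha0 ha hb0 hb
    have h1a : 0 < 1 - a := by linarith
    have h1b : 0 < 1 - b := by linarith
    have h1 : Real.log (1 - a) - Real.log (1 - b) ≤ (1 - a) / (1 - b) - 1 := by
      rw [← Real.log_div h1a.ne' h1b.ne']
      exact Real.log_le_sub_one_of_pos (div_pos h1a h1b)
    have h2 : (1 - a) / (1 - b) - 1 + (a - b) = (b - a) * (b / (1 - b)) := by
      field_simp
      ring
    have h3 : b / (1 - b) ≤ 2 * b := by
      rw [div_le_iff₀ h1b]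
      linarith [mul_nonneg hb0 (by linarith : (0 : ℝ) ≤ 1 - 2 * b)]
    have h3' : 0 ≤ b / (1 - b) := by positivity
    have h4 : (b - a) * (b / (1 - b)) ≤ |a - b| * (2 * b) := by
      calc (b - a) * (b / (1 - b)) ≤ |a - b| * (b / (1 - b)) := by
            apply mul_le_mul_of_nonneg_right _ h3'
            rw [abs_sub_comm]
            exact le_abs_self _
        _ ≤ |a - b| * (2 * b) := by
            apply mul_le_mul_of_nonneg_left h3 (abs_nonneg _)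
    have h5 : |a - b| * (2 * b) ≤ 2 * (a + b) * |a - b| := by
      linarith [mul_nonneg ha0 (abs_nonneg (a - b))]
    linarith
  rw [abs_le]
  constructor
  · have := key v u hv0 hv hu0 hu
    rw [abs_sub_comm v u] at this
    linarith
  · exact key u v hu0 hu hv0 hv

theorem jc_abs2 (X W d L : ℝ) (h1 : |X - d| ≤ L) (h2 : |W - d| ≤ L) : |X - W| ≤ 2 * L := by
  have e : X - W = (X - d) - (W - d) := by ring
  rw [e]
  exact (abs_sub _ _).trans (by linarith)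

theorem jc_lin2 (s D A B Q : ℝ) (h1 : s * A ≤ B) (h2 : s * Q ≤ 1 * Q) (h3 : s * D ≤ s * (A + Q)) :
    2 * s * D ≤ 2 * B + 2 * Q := by
  have e : s * (A + Q) = s * A + s * Q := by ring
  rw [e] at h3
  have e2 : 2 * s * D = 2 * (s * D) := by ring
  rw [e2]
  linarith

theorem jc_m1 (m d : ℝ) (hm : 0 ≤ m) (hd : m + 1 ≤ d) : d ≤ (m + 1) * (d - m) := by
  linarith [mul_nonneg hm (by linarith : (0 : ℝ) ≤ d - m - 1)]

theorem jc_m2 (n d m t : ℝ) (ht : 4 * (m + 1) * t ≤ n) (h3 : n * d ≤ n * ((m + 1) * (d - m))) (h4 : n ≤ n * d) :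
    n * d ≤ 2 * (m + 1) * (n * d - m * n - 2 * t) := by
  have e : 2 * (m + 1) * (n * d - m * n - 2 * t) = 2 * (n * ((m + 1) * (d - m))) - 4 * (m + 1) * t := by ring
  rw [e]
  linarith

theorem jc_m3 (a b c : ℝ) (h1 : a ≤ b) (h2 : 90 * b ≤ c) : 81 * b + 9 * a ≤ c := by linarith

theorem jc_N1 (K d n N : ℝ) (hK : 1 ≤ K) (hd : 1 ≤ d) (hn0 : 0 < n) (hn : 729 * K * d ≤ n)
    (hN : n * d ≤ K * N) : 1 ≤ N := by
  have h1 : K * 1 ≤ K * d := mul_le_mul_of_nonneg_left hd (by linarith)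
  have h2 : n * 1 ≤ n * d := mul_le_mul_of_nonneg_left hd hn0.le
  have h3 : 729 * K * d = 729 * (K * d) := by ring
  rw [h3] at hn
  have h4 : K * 1 ≤ K * N := by linarith
  exact le_of_mul_le_mul_left h4 (by linarith)

theorem jc_mt (m t T : ℝ) (hm : 0 ≤ m) (ht : 0 ≤ t) (hT : T = 1 + t) : 2 * m + (t + 2) ≤ (2 * m + 2) * T := by
  rw [hT]
  linarith [mul_nonneg hm ht]

theorem jc_mt' (m t T : ℝ) (hm : 0 ≤ m) (ht : 0 ≤ t) (hT : T = 1 + t) : m + (t + 2) ≤ (m + 2) * T := by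
  rw [hT]
  linarith [mul_nonneg hm ht]

theorem jc_Kdef (m C1 C2 K : ℝ) (hm : 0 ≤ m) (h1 : 1 ≤ C1) (h2 : 1 ≤ C2)
    (hK : K = 2 * m + 4 + 90 * C2 ^ 2 + C1 + C2) :
    1 ≤ K ∧ 2 * m + 4 ≤ K ∧ 90 * C2 ^ 2 ≤ K ∧ C1 ≤ K ∧ C2 ≤ K := by
  have h3 := sq_nonneg C2
  rw [hK]
  refine ⟨?_, ?_, ?_, ?_, ?_⟩ <;> linarith

theorem jc_nn (K d S n : ℝ) (hK : 1 ≤ K) (hd : 1 ≤ d) (hS : 1 ≤ S) (hn : (1000 * K ^ 5 + 729 * K) * (d + S) ≤ n) :
    729 * K * (d + S) ≤ n ∧ 729 * K * S ≤ n ∧ 729 * K * d ≤ n ∧ 0 < n := by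
  have a1 : 0 ≤ K ^ 5 * (d + S) := by positivity
  have a2 : 0 ≤ K * d := by positivity
  have a3 : 0 ≤ K * S := by positivity
  have a4 : 0 < K * d := by positivity
  have e : (1000 * K ^ 5 + 729 * K) * (d + S) = 1000 * (K ^ 5 * (d + S)) + 729 * (K * d) + 729 * (K * S) := by ring
  rw [e] at hn
  have e1 : 729 * K * (d + S) = 729 * (K * d) + 729 * (K * S) := by ring
  have e2 : 729 * K * S = 729 * (K * S) := by ring
  have e3 : 729 * K * d = 729 * (K * d) := by ring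
  rw [e1, e2, e3]
  refine ⟨?_, ?_, ?_, ?_⟩ <;> linarith

theorem jc_KT (K T : ℝ) (hK : 1 ≤ K) (hT : 1 ≤ T) (h : T ≤ T ^ 6) : (2 * K) * (2 * T) ≤ 729 * K * T ^ 6 := by
  have h1 : K * T ≤ K * T ^ 6 := mul_le_mul_of_nonneg_left h (by linarith)
  have h2 : 0 ≤ K * T ^ 6 := by positivity
  have e1 : (2 * K) * (2 * T) = 4 * (K * T) := by ring
  have e2 : 729 * K * T ^ 6 = 729 * (K * T ^ 6) := by ring
  rw [e1, e2]
  linarith

theorem jc_sm (m s K T : ℝ) (hm : 0 ≤ m) (hs : 0 ≤ s) (hK : 1 ≤ K) (hT : 1 ≤ T)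
    (h1 : m + s ≤ K * T / 2) (h2 : 2 * m + s ≤ K * T) :
    2 * (m + s) + (m + s) ^ 2 + 2 * ((2 * m + s) * (m + s)) ≤ 4 * K ^ 2 * T ^ 2 := by
  have h0 : 0 ≤ m + s := by linarith
  have hKT1 : 1 ≤ K * T := by
    calc (1 : ℝ) = 1 * 1 := by norm_num
      _ ≤ K * T := mul_le_mul hK hT (by norm_num) (by linarith)
  have h5 : (m + s) ^ 2 ≤ (K * T / 2) ^ 2 := pow_le_pow_left₀ h0 h1 2
  have h6 : (2 * m + s) * (m + s) ≤ (K * T) * (K * T / 2) := mul_le_mul h2 h1 h0 (by linarith)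
  have h7 : K * T ≤ (K * T) ^ 2 := le_self_pow₀ hKT1 (by norm_num)
  have e : 4 * K ^ 2 * T ^ 2 = 4 * (K * T) ^ 2 := by ring
  have e5 : (K * T / 2) ^ 2 = (K * T) ^ 2 / 4 := by ring
  have e6 : (K * T) * (K * T / 2) = (K * T) ^ 2 / 2 := by ring
  rw [e5] at h5
  rw [e6] at h6
  rw [e]
  have h8 := sq_nonneg (K * T)
  linarith

theorem jc_b0b (K T d m t D q b0 : ℝ) (ht : 0 ≤ t) (hT : T = 1 + t) (hm : 0 ≤ m) (hKm : 2 * m + 4 ≤ K)
    (hd : 1 ≤ d) (hD0 : 0 ≤ D) (hDd : D ≤ d) (hQ0 : 0 ≤ q) (hQd : q ≤ (2 * m + (t + 2)) * d)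
    (hb0 : b0 = 1 + D - q) : |b0| ≤ K * T * d := by
  have hT1 : 1 ≤ T := by linarith
  have h1 : (2 * m + (t + 2)) * d ≤ K * T * d := by
    apply mul_le_mul_of_nonneg_right _ (by linarith)
    have h4 : (2 * m + 2) * T ≤ K * T := mul_le_mul_of_nonneg_right (by linarith) (by linarith)
    exact (jc_mt m t T hm ht hT).trans h4
  have h2 : 1 + d ≤ K * T * d := by
    have h3 : 2 ≤ K * T := by
      calc (2 : ℝ) = 2 * 1 := by norm_num
        _ ≤ K * T := mul_le_mul (by linarith) hT1 (by norm_num) (by linarith)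
    have h4 : 2 * d ≤ K * T * d := mul_le_mul_of_nonneg_right h3 (by linarith)
    linarith
  rw [hb0, abs_le]
  constructor <;> linarith

theorem jc_P2 (a b K T N : ℝ) (ha : |a| ≤ 2 * (K * T)) (hb : |b| ≤ 2 * (K * T)) (hKT : 0 ≤ K * T) (hN : 1 ≤ N) :
    |2 * (a * b) / N| ≤ 8 * K ^ 2 * T ^ 2 := by
  have hN0 : 0 < N := by linarith
  rw [abs_div, abs_of_pos hN0, div_le_iff₀ hN0, abs_mul, abs_mul, abs_two]
  have h1 : |a| * |b| ≤ (2 * (K * T)) * (2 * (K * T)) := mul_le_mul ha hb (abs_nonneg _) (by linarith)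
  have h2 : 0 ≤ (K * T) ^ 2 := sq_nonneg _
  have h3 : (K * T) ^ 2 * 1 ≤ (K * T) ^ 2 * N := mul_le_mul_of_nonneg_left hN h2
  have e1 : (2 * (K * T)) * (2 * (K * T)) = 4 * (K * T) ^ 2 := by ring
  have e2 : 8 * K ^ 2 * T ^ 2 * N = 8 * ((K * T) ^ 2 * N) := by ring
  rw [e1] at h1
  rw [e2]
  linarith

theorem jc_g1 (be b0 E M U : ℝ) (hb : |be - b0 - E| ≤ M) (h1 : M ≤ 4 * U) (hU : 0 ≤ U) : |be - b0 - E| ≤ 12 * U := by
  linarith

theorem jc_g3 (be b0 b0' E M U P : ℝ) (hb : |be - b0' - E| ≤ M) (h1 : M ≤ 4 * U) (hP : |P| ≤ 8 * U)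
    (h0 : b0 = b0' - P) : |be - b0 - E| ≤ 12 * U := by
  have e : be - b0 - E = (be - b0' - E) + P := by rw [h0]; ring
  rw [e]
  refine (abs_add_le _ _).trans ?_
  linarith

theorem jc_core (n d T K N x y z w kx ky kz kw b0 e1 e2 e3 e4 b1 b2 b3 b4 : ℝ)
    (hT : 1 ≤ T) (hd : 1 ≤ d) (hK : 1 ≤ K) (hn : K * d ≤ n) (hN0 : 0 < N) (hN : n * d ≤ K * N)
    (hx0 : 0 ≤ x) (hx : x ≤ d) (hx' : |x - d| ≤ K * T)
    (hy0 : 0 ≤ y) (hy : y ≤ d) (hy' : |y - d| ≤ K * T)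
    (hz0 : 0 ≤ z) (hz : z ≤ d) (hz' : |z - d| ≤ K * T)
    (hw0 : 0 ≤ w) (hw : w ≤ d) (hw' : |w - d| ≤ K * T)
    (hkx0 : 0 ≤ kx) (hkx : kx ≤ K * T) (hky0 : 0 ≤ ky) (hky : ky ≤ K * T)
    (hkz0 : 0 ≤ kz) (hkz : kz ≤ K * T) (hkw0 : 0 ≤ kw) (hkw : kw ≤ K * T)
    (hb0 : |b0| ≤ K * T * d)
    (hb1 : |b1 - b0 - d * (kx + kz)| ≤ 12 * K ^ 2 * T ^ 2)
    (hb2 : |b2 - b0 - d * (ky + kw)| ≤ 12 * K ^ 2 * T ^ 2)
    (hb3 : |b3 - b0 - d * (kx + ky)| ≤ 12 * K ^ 2 * T ^ 2)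
    (hb4 : |b4 - b0 - d * (kz + kw)| ≤ 12 * K ^ 2 * T ^ 2)
    (he1 : |x * z * (e1 - 1 - b1 / N)| ≤ d ^ 2 * (K * T ^ 4 / n ^ 2))
    (he2 : |y * w * (e2 - 1 - b2 / N)| ≤ d ^ 2 * (K * T ^ 4 / n ^ 2))
    (he3 : |x * y * (e3 - 1 - b3 / N)| ≤ d ^ 2 * (K * T ^ 4 / n ^ 2))
    (he4 : |z * w * (e4 - 1 - b4 / N)| ≤ d ^ 2 * (K * T ^ 4 / n ^ 2)) :
    |(x * z / N * e1 + y * w / N * e2) - (x * y / N * e3 + z * w / N * e4) + (x - w) * (y - z) / N|
      ≤ 100 * K ^ 5 * T ^ 4 / n ^ 2 := by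
  have hn0 : 0 < n := lt_of_lt_of_le (by positivity) hn
  have hKT : 0 ≤ K * T := by positivity
  obtain ⟨E1, hE1⟩ : ∃ E1, E1 = b1 - b0 - d * (kx + kz) := ⟨_, rfl⟩
  obtain ⟨E2, hE2⟩ : ∃ E2, E2 = b2 - b0 - d * (ky + kw) := ⟨_, rfl⟩
  obtain ⟨E3, hE3⟩ : ∃ E3, E3 = b3 - b0 - d * (kx + ky) := ⟨_, rfl⟩
  obtain ⟨E4, hE4⟩ : ∃ E4, E4 = b4 - b0 - d * (kz + kw) := ⟨_, rfl⟩
  rw [← hE1] at hb1
  rw [← hE2] at hb2
  rw [← hE3] at hb3
  rw [← hE4] at hb4
  obtain ⟨R1, hR1⟩ : ∃ R1, R1 = x * z * (e1 - 1 - b1 / N) := ⟨_, rfl⟩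
  obtain ⟨R2, hR2⟩ : ∃ R2, R2 = y * w * (e2 - 1 - b2 / N) := ⟨_, rfl⟩
  obtain ⟨R3, hR3⟩ : ∃ R3, R3 = x * y * (e3 - 1 - b3 / N) := ⟨_, rfl⟩
  obtain ⟨R4, hR4⟩ : ∃ R4, R4 = z * w * (e4 - 1 - b4 / N) := ⟨_, rfl⟩
  rw [← hR1] at he1
  rw [← hR2] at he2
  rw [← hR3] at he3
  rw [← hR4] at he4
  obtain ⟨X, hX⟩ : ∃ X, X = (x * z * E1 + y * w * E2 - x * y * E3 - z * w * E4)
      + b0 * (-((x - w) * (y - z)))
      + d * (x * z * (kx + kz) + y * w * (ky + kw) - x * y * (kx + ky) - z * w * (kz + kw)) := ⟨_, rfl⟩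
  have hid : (x * z / N * e1 + y * w / N * e2) - (x * y / N * e3 + z * w / N * e4) + (x - w) * (y - z) / N
      = (R1 + R2 - R3 - R4) / N + X / N ^ 2 := by
    rw [hX, hR1, hR2, hR3, hR4, hE1, hE2, hE3, hE4]
    field_simp
    ring
  rw [hid]
  -- products
  have hprod : ∀ a b : ℝ, 0 ≤ a → a ≤ d → |a - d| ≤ K * T → 0 ≤ b → b ≤ d → |b - d| ≤ K * T →
      0 ≤ a * b ∧ a * b ≤ d ^ 2 ∧ |a * b - d ^ 2| ≤ 2 * d * (K * T) := by
    intro a b ha0 ha ha' hb0 hb hb'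
    refine ⟨mul_nonneg ha0 hb0, by rw [sq]; exact mul_le_mul ha hb hb0 (by linarith), ?_⟩
    have : a * b - d ^ 2 = a * (b - d) + d * (a - d) := by ring
    rw [this]
    calc |a * (b - d) + d * (a - d)| ≤ |a * (b - d)| + |d * (a - d)| := abs_add_le _ _
      _ = a * |b - d| + d * |a - d| := by
          rw [abs_mul, abs_mul, abs_of_nonneg ha0, abs_of_nonneg (by linarith : (0:ℝ) ≤ d)]
      _ ≤ d * (K * T) + d * (K * T) := by
          have h1 : a * |b - d| ≤ d * (K * T) := mul_le_mul ha hb' (abs_nonneg _) (by linarith)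
          have h2 : d * |a - d| ≤ d * (K * T) := mul_le_mul_of_nonneg_left ha' (by linarith)
          linarith
      _ = 2 * d * (K * T) := by ring
  obtain ⟨pxz0, pxz, pxz'⟩ := hprod x z hx0 hx hx' hz0 hz hz'
  obtain ⟨pyw0, pyw, pyw'⟩ := hprod y w hy0 hy hy' hw0 hw hw'
  obtain ⟨pxy0, pxy, pxy'⟩ := hprod x y hx0 hx hx' hy0 hy hy'
  obtain ⟨pzw0, pzw, pzw'⟩ := hprod z w hz0 hz hz' hw0 hw hw'
  have hd2 : 0 ≤ d ^ 2 := by positivity
  -- E part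
  have hEp : ∀ p e : ℝ, 0 ≤ p → p ≤ d ^ 2 → |e| ≤ 12 * K ^ 2 * T ^ 2 → |p * e| ≤ d ^ 2 * (12 * K ^ 2 * T ^ 2) := by
    intro p e hp0 hp he
    rw [abs_mul, abs_of_nonneg hp0]
    exact mul_le_mul hp he (abs_nonneg _) hd2
  have q1 := hEp _ _ pxz0 pxz hb1
  have q2 := hEp _ _ pyw0 pyw hb2
  have q3 := hEp _ _ pxy0 pxy hb3
  have q4 := hEp _ _ pzw0 pzw hb4
  -- S0 part
  have hxw : |x - w| ≤ 2 * (K * T) := by
    calc |x - w| = |(x - d) - (w - d)| := by ring_nf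
      _ ≤ |x - d| + |w - d| := abs_sub _ _
      _ ≤ 2 * (K * T) := by linarith
  have hyz : |y - z| ≤ 2 * (K * T) := by
    calc |y - z| = |(y - d) - (z - d)| := by ring_nf
      _ ≤ |y - d| + |z - d| := abs_sub _ _
      _ ≤ 2 * (K * T) := by linarith
  have hS0 : |b0 * (-((x - w) * (y - z)))| ≤ d ^ 2 * (4 * K ^ 3 * T ^ 3) := by
    rw [abs_mul, abs_neg, abs_mul]
    calc |b0| * (|x - w| * |y - z|) ≤ (K * T * d) * ((2 * (K * T)) * (2 * (K * T))) := by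
          apply mul_le_mul hb0 _ (by positivity) (by positivity)
          exact mul_le_mul hxw hyz (abs_nonneg _) (by positivity)
      _ = d * (4 * K ^ 3 * T ^ 3) := by ring
      _ ≤ d ^ 2 * (4 * K ^ 3 * T ^ 3) := by
          apply mul_le_mul_of_nonneg_right _ (by positivity)
          exact le_self_pow₀ hd (by norm_num)
  -- S1 part
  have hS1id : x * z * (kx + kz) + y * w * (ky + kw) - x * y * (kx + ky) - z * w * (kz + kw)
      = (x * z - d ^ 2) * (kx + kz) + (y * w - d ^ 2) * (ky + kw) - (x * y - d ^ 2) * (kx + ky)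
        - (z * w - d ^ 2) * (kz + kw) := by ring
  have hkp : ∀ p a b : ℝ, |p - d ^ 2| ≤ 2 * d * (K * T) → 0 ≤ a → a ≤ K * T → 0 ≤ b → b ≤ K * T →
      |(p - d ^ 2) * (a + b)| ≤ 4 * d * (K * T) ^ 2 := by
    intro p a b hp ha0 ha hb0 hb
    rw [abs_mul, abs_of_nonneg (by linarith : (0:ℝ) ≤ a + b)]
    calc |p - d ^ 2| * (a + b) ≤ (2 * d * (K * T)) * (2 * (K * T)) := by
          apply mul_le_mul hp (by linarith) (by linarith) (by positivity)
      _ = 4 * d * (K * T) ^ 2 := by ring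
  have s1 := hkp _ _ _ pxz' hkx0 hkx hkz0 hkz
  have s2 := hkp _ _ _ pyw' hky0 hky hkw0 hkw
  have s3 := hkp _ _ _ pxy' hkx0 hkx hky0 hky
  have s4 := hkp _ _ _ pzw' hkz0 hkz hkw0 hkw
  have hS1 : |d * (x * z * (kx + kz) + y * w * (ky + kw) - x * y * (kx + ky) - z * w * (kz + kw))|
      ≤ d ^ 2 * (16 * K ^ 2 * T ^ 2) := by
    rw [abs_mul, abs_of_nonneg (by linarith : (0:ℝ) ≤ d), hS1id]
    have : |(x * z - d ^ 2) * (kx + kz) + (y * w - d ^ 2) * (ky + kw) - (x * y - d ^ 2) * (kx + ky)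
        - (z * w - d ^ 2) * (kz + kw)| ≤ 16 * d * (K * T) ^ 2 := by
      rw [abs_le] at s1 s2 s3 s4 ⊢
      constructor <;> linarith [s1.1, s1.2, s2.1, s2.2, s3.1, s3.2, s4.1, s4.2]
    calc _ ≤ d * (16 * d * (K * T) ^ 2) := mul_le_mul_of_nonneg_left this (by linarith)
      _ = _ := by ring
  have hXb : |X| ≤ d ^ 2 * (68 * K ^ 3 * T ^ 3) := by
    have hKT1 : K ^ 2 * T ^ 2 ≤ K ^ 3 * T ^ 3 :=
      mul_le_mul (pow_le_pow_right₀ hK (by norm_num)) (pow_le_pow_right₀ hT (by norm_num)) (by positivity)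
        (by positivity)
    rw [hX]
    generalize hp1 : x * z * E1 = p1 at q1 ⊢
    generalize hp2 : y * w * E2 = p2 at q2 ⊢
    generalize hp3 : x * y * E3 = p3 at q3 ⊢
    generalize hp4 : z * w * E4 = p4 at q4 ⊢
    generalize hp5 : b0 * (-((x - w) * (y - z))) = p5 at hS0 ⊢
    generalize hp6 : d * (x * z * (kx + kz) + y * w * (ky + kw) - x * y * (kx + ky) - z * w * (kz + kw)) = p6
      at hS1 ⊢
    have t1 : |p1 + p2 - p3 - p4 + p5 + p6| ≤ |p1| + |p2| + |p3| + |p4| + |p5| + |p6| := by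
      calc _ ≤ |p1 + p2 - p3 - p4 + p5| + |p6| := abs_add_le _ _
        _ ≤ |p1 + p2 - p3 - p4| + |p5| + |p6| := by gcongr; exact abs_add_le _ _
        _ ≤ |p1 + p2 - p3| + |p4| + |p5| + |p6| := by gcongr; exact abs_sub _ _
        _ ≤ |p1 + p2| + |p3| + |p4| + |p5| + |p6| := by gcongr; exact abs_sub _ _
        _ ≤ _ := by gcongr; exact abs_add_le _ _
    refine t1.trans ?_
    have e1 : d ^ 2 * (12 * K ^ 2 * T ^ 2) = 12 * (d ^ 2 * (K ^ 2 * T ^ 2)) := by ring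
    have e2 : d ^ 2 * (4 * K ^ 3 * T ^ 3) = 4 * (d ^ 2 * (K ^ 3 * T ^ 3)) := by ring
    have e3 : d ^ 2 * (16 * K ^ 2 * T ^ 2) = 16 * (d ^ 2 * (K ^ 2 * T ^ 2)) := by ring
    have e4 : d ^ 2 * (68 * K ^ 3 * T ^ 3) = 68 * (d ^ 2 * (K ^ 3 * T ^ 3)) := by ring
    have e5 : d ^ 2 * (K ^ 2 * T ^ 2) ≤ d ^ 2 * (K ^ 3 * T ^ 3) := mul_le_mul_of_nonneg_left hKT1 hd2
    rw [e1] at q1 q2 q3 q4
    rw [e2] at hS0
    rw [e3] at hS1
    rw [e4]
    linarith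
  -- final
  have hn2 : 0 < n ^ 2 := by positivity
  have hdN : d ^ 2 ≤ N := by
    have h1 : n * d ^ 2 ≤ n * N := by
      calc n * d ^ 2 = d * (n * d) := by ring
        _ ≤ d * (K * N) := mul_le_mul_of_nonneg_left hN (by linarith)
        _ = (K * d) * N := by ring
        _ ≤ n * N := mul_le_mul_of_nonneg_right hn hN0.le
    exact le_of_mul_le_mul_left h1 hn0
  have hRb : |(R1 + R2 - R3 - R4) / N| ≤ 4 * K * T ^ 4 / n ^ 2 := by
    rw [abs_div, abs_of_pos hN0, div_le_iff₀ hN0]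
    have h1 : |R1 + R2 - R3 - R4| ≤ d ^ 2 * (4 * K * T ^ 4 / n ^ 2) := by
      have e : d ^ 2 * (4 * K * T ^ 4 / n ^ 2) = 4 * (d ^ 2 * (K * T ^ 4 / n ^ 2)) := by ring
      rw [e]
      rw [abs_le] at he1 he2 he3 he4 ⊢
      constructor <;> linarith [he1.1, he1.2, he2.1, he2.2, he3.1, he3.2, he4.1, he4.2]
    calc _ ≤ d ^ 2 * (4 * K * T ^ 4 / n ^ 2) := h1
      _ ≤ N * (4 * K * T ^ 4 / n ^ 2) := mul_le_mul_of_nonneg_right hdN (by positivity)
      _ = _ := by ring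
  have hXb2 : |X / N ^ 2| ≤ 68 * K ^ 5 * T ^ 3 / n ^ 2 := by
    rw [abs_div, abs_of_pos (by positivity : (0:ℝ) < N ^ 2), div_le_div_iff₀ (by positivity) hn2]
    have h2 : (n * d) ^ 2 ≤ (K * N) ^ 2 := by
      apply pow_le_pow_left₀ (by positivity) hN
    calc |X| * n ^ 2 ≤ (d ^ 2 * (68 * K ^ 3 * T ^ 3)) * n ^ 2 := mul_le_mul_of_nonneg_right hXb hn2.le
      _ = (n * d) ^ 2 * (68 * K ^ 3 * T ^ 3) := by ring
      _ ≤ (K * N) ^ 2 * (68 * K ^ 3 * T ^ 3) := mul_le_mul_of_nonneg_right h2 (by positivity)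
      _ = 68 * K ^ 5 * T ^ 3 * N ^ 2 := by ring
  calc |(R1 + R2 - R3 - R4) / N + X / N ^ 2| ≤ |(R1 + R2 - R3 - R4) / N| + |X / N ^ 2| := abs_add_le _ _
    _ ≤ 4 * K * T ^ 4 / n ^ 2 + 68 * K ^ 5 * T ^ 3 / n ^ 2 := add_le_add hRb hXb2
    _ = (4 * (K * T ^ 4) + 68 * (K ^ 5 * T ^ 3)) / n ^ 2 := by ring
    _ ≤ 100 * K ^ 5 * T ^ 4 / n ^ 2 := by
        apply div_le_div_of_nonneg_right _ hn2.le
        have a1 : K ≤ K ^ 5 := by
          calc K = K ^ 1 := (pow_one K).symm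
            _ ≤ K ^ 5 := pow_le_pow_right₀ hK (by norm_num)
        have a2 : T ^ 3 ≤ T ^ 4 := pow_le_pow_right₀ hT (by norm_num)
        have a3 : K * T ^ 4 ≤ K ^ 5 * T ^ 4 := mul_le_mul_of_nonneg_right a1 (by positivity)
        have a4 : K ^ 5 * T ^ 3 ≤ K ^ 5 * T ^ 4 := mul_le_mul_of_nonneg_left a2 (by positivity)
        have a5 : 0 ≤ K ^ 5 * T ^ 4 := by positivity
        linarith

theorem jc_final (n d T K N x y z w a1 a2 f1 f2 : ℝ)
    (hT : 1 ≤ T) (hd : 1 ≤ d) (hK : 1 ≤ K) (hn : 16 * K * d ≤ n) (hN0 : 0 < N) (hN : n * d ≤ K * N)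
    (hxw : |x - w| ≤ 2 * (K * T)) (hyz : |y - z| ≤ 2 * (K * T))
    (hf10 : 0 ≤ f1) (hf20 : 0 ≤ f2) (hf1 : f1 ≤ 4 * K * d / n) (hf2 : f2 ≤ 4 * K * d / n)
    (hF : |f1 - f2 + (x - w) * (y - z) / N| ≤ 100 * K ^ 5 * T ^ 4 / n ^ 2)
    (ha : a1 - a2 = -((x - w) * (y - z) / N)) :
    |a1 - a2 + Real.log (1 - f1) - Real.log (1 - f2)| ≤ 1000 * K ^ 5 * T ^ 6 * (1 / n ^ 2) := by
  have hn0 : 0 < n := lt_of_lt_of_le (by positivity : (0 : ℝ) < 16 * K * d) hn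
  have hn2 : 0 < n ^ 2 := by positivity
  have hq : 4 * K * d / n ≤ 1 / 4 := by
    rw [div_le_div_iff₀ hn0 (by norm_num)]
    linarith
  set P := (x - w) * (y - z) / N with hP
  have hPb : |P| ≤ 4 * K ^ 3 * T ^ 2 / (n * d) := by
    rw [hP, abs_div, abs_of_pos hN0, div_le_div_iff₀ hN0 (by positivity), abs_mul]
    calc |x - w| * |y - z| * (n * d) ≤ ((2 * (K * T)) * (2 * (K * T))) * (K * N) := by
          apply mul_le_mul _ hN (by positivity) (by positivity)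
          exact mul_le_mul hxw hyz (abs_nonneg _) (by positivity)
      _ = _ := by ring
  set Q := 100 * K ^ 5 * T ^ 4 / n ^ 2 with hQ
  have hQ0 : 0 ≤ Q := by positivity
  have hdiff : |f1 - f2| ≤ 4 * K ^ 3 * T ^ 2 / (n * d) + Q := by
    calc |f1 - f2| = |(f1 - f2 + P) - P| := by ring_nf
      _ ≤ |f1 - f2 + P| + |P| := abs_sub _ _
      _ ≤ _ := by linarith
  have hlog := jc_log f1 f2 hf10 (by linarith) hf20 (by linarith)
  have hsum : f1 + f2 ≤ 8 * K * d / n := by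
    have : 8 * K * d / n = 4 * K * d / n + 4 * K * d / n := by ring
    linarith
  have hsum1 : f1 + f2 ≤ 1 := by linarith
  have hmain : 2 * (f1 + f2) * |f1 - f2| ≤ 64 * K ^ 4 * T ^ 2 / n ^ 2 + 2 * Q := by
    have h1 : (f1 + f2) * (4 * K ^ 3 * T ^ 2 / (n * d)) ≤ 32 * K ^ 4 * T ^ 2 / n ^ 2 := by
      calc (f1 + f2) * (4 * K ^ 3 * T ^ 2 / (n * d)) ≤ (8 * K * d / n) * (4 * K ^ 3 * T ^ 2 / (n * d)) :=
            mul_le_mul_of_nonneg_right hsum (by positivity)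
        _ = 32 * K ^ 4 * T ^ 2 / n ^ 2 := by
            field_simp
            ring
    have h2 : (f1 + f2) * Q ≤ 1 * Q := mul_le_mul_of_nonneg_right hsum1 hQ0
    have h3 : (f1 + f2) * |f1 - f2| ≤ (f1 + f2) * (4 * K ^ 3 * T ^ 2 / (n * d) + Q) :=
      mul_le_mul_of_nonneg_left hdiff (by linarith)
    have e : 64 * K ^ 4 * T ^ 2 / n ^ 2 = 2 * (32 * K ^ 4 * T ^ 2 / n ^ 2) := by ring
    rw [e]
    exact jc_lin2 _ _ _ _ _ h1 h2 h3
  have hfin : |a1 - a2 + Real.log (1 - f1) - Real.log (1 - f2)| ≤ 64 * K ^ 4 * T ^ 2 / n ^ 2 + 3 * Q := by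
    have e : a1 - a2 + Real.log (1 - f1) - Real.log (1 - f2)
        = (Real.log (1 - f1) - Real.log (1 - f2) + (f1 - f2)) - (f1 - f2 + P) := by
      rw [ha]; ring
    rw [e]
    calc _ ≤ |Real.log (1 - f1) - Real.log (1 - f2) + (f1 - f2)| + |f1 - f2 + P| := abs_sub _ _
      _ ≤ _ := by linarith
  refine hfin.trans ?_
  have e2 : 64 * K ^ 4 * T ^ 2 / n ^ 2 + 3 * Q = (64 * (K ^ 4 * T ^ 2) + 300 * (K ^ 5 * T ^ 4)) * (1 / n ^ 2) := by
    rw [hQ]; ring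
  rw [e2]
  apply mul_le_mul_of_nonneg_right _ (by positivity)
  have b1 : K ^ 4 ≤ K ^ 5 := pow_le_pow_right₀ hK (by norm_num)
  have b2 : T ^ 2 ≤ T ^ 6 := pow_le_pow_right₀ hT (by norm_num)
  have b3 : T ^ 4 ≤ T ^ 6 := pow_le_pow_right₀ hT (by norm_num)
  have b4 : K ^ 4 * T ^ 2 ≤ K ^ 5 * T ^ 6 := mul_le_mul b1 b2 (by positivity) (by positivity)
  have b5 : K ^ 5 * T ^ 4 ≤ K ^ 5 * T ^ 6 := mul_le_mul_of_nonneg_left b3 (by positivity)
  have b6 : 0 ≤ K ^ 5 * T ^ 6 := by positivity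
  linarith

/-! ### combinatorial lemmas for the target -/

/-- two insertions -/
structure Two (d m t : ℕ) (A B : Finset (Sym2 (Fin n))) (a b c e : Fin n) : Prop where
  h1 : s(a, b) ∉ A
  h1' : s(a, b) ∉ B
  h2 : s(c, e) ∉ insert s(a, b) A
  h2' : s(c, e) ∉ B
  ab : a ≠ b
  ac : a ≠ c
  ae : a ≠ e
  bc : b ≠ c
  be : b ≠ e
  ce : c ≠ e
  h3 : s(c, e) ∉ A

theorem jc_two (d m t : ℕ) (A B : Finset (Sym2 (Fin n))) (a b c e : Fin n)
    (hab : Val d A B a b) (hce : Val d A B c e) (ac : a ≠ c) (ae : a ≠ e) (bc : b ≠ c) (be : b ≠ e) :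
    Two d m t A B a b c e := by
  refine ⟨hab.nA, hab.nB, ?_, hce.nB, hab.ne, ac, ae, bc, be, hce.ne, hce.nA⟩
  rw [Finset.mem_insert]
  rintro (h | h)
  · rw [Sym2.eq_iff] at h
    rcases h with h | h
    · exact ac h.1.symm
    · exact bc h.1.symm
  · exact hce.nA h

theorem jc_dg (A : Finset (Sym2 (Fin n))) (a b c e v : Fin n) (ab : a ≠ b) (ce : c ≠ e)
    (h1 : s(a, b) ∉ A) (h2 : s(c, e) ∉ insert s(a, b) A) :
    dg (insert s(c, e) (insert s(a, b) A)) v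
      = dg A v + (if v = a ∨ v = b then 1 else 0) + (if v = c ∨ v = e then 1 else 0) := by
  rw [dg_insert _ c e v ce h2, dg_insert _ a b v ab h1]

theorem jc_rd (d : ℕ) (A : Finset (Sym2 (Fin n))) (a b c e v : Fin n) (ab : a ≠ b) (ce : c ≠ e)
    (h1 : s(a, b) ∉ A) (h2 : s(c, e) ∉ insert s(a, b) A) :
    rd d (insert s(c, e) (insert s(a, b) A)) v
      = rd d A v - (if v = a ∨ v = b then 1 else 0) - (if v = c ∨ v = e then 1 else 0) := by
  rw [rd_insert d _ c e v ce h2, rd_insert d _ a b v ab h1]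

theorem jc_card (A : Finset (Sym2 (Fin n))) (a b c e : Fin n)
    (h1 : s(a, b) ∉ A) (h2 : s(c, e) ∉ insert s(a, b) A) :
    (insert s(c, e) (insert s(a, b) A)).card = A.card + 2 := by
  rw [Finset.card_insert_of_notMem h2, Finset.card_insert_of_notMem h1]

theorem jc_cls (d m t : ℕ) (A B : Finset (Sym2 (Fin n))) (a b c e : Fin n)
    (hA : Cls d m t A) (hab : Val d A B a b) (hce : Val d A B c e) (T : Two d m t A B a b c e) :
    Cls d m (t + 2) (insert s(c, e) (insert s(a, b) A)) := by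
  have hdg := fun v => jc_dg A a b c e v T.ab T.ce T.h1 T.h2
  refine ⟨?_, ?_, ?_, ?_⟩
  · intro f hf
    rw [Finset.mem_insert, Finset.mem_insert] at hf
    rcases hf with rfl | rfl | hf
    · simpa using T.ce
    · simpa using T.ab
    · exact hA.nd f hf
  · intro v
    rw [hdg v]
    have h0 := hA.led v
    by_cases hv1 : v = a ∨ v = b
    · have hv2 : ¬ (v = c ∨ v = e) := by
        rcases hv1 with rfl | rfl
        · push Not; exact ⟨T.ac, T.ae⟩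
        · push Not; exact ⟨T.bc, T.be⟩
      have h3 : dg A v < d := by
        rcases hv1 with rfl | rfl
        · exact hab.hx
        · exact hab.hy
      simp only [hv1, hv2, if_true, if_false]
      omega
    · by_cases hv2 : v = c ∨ v = e
      · have h3 : dg A v < d := by
          rcases hv2 with rfl | rfl
          · exact hce.hx
          · exact hce.hy
        simp only [hv1, hv2, if_true, if_false]
        omega
      · simp only [hv1, hv2, if_false]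
        omega
  · intro v
    rw [hdg v]
    have h0 := hA.lem v
    split_ifs <;> omega
  · rw [jc_card A a b c e T.h1 T.h2]
    have := hA.card
    omega

theorem jc_EE2 (d : ℕ) (A : Finset (Sym2 (Fin n))) (a b c e : Fin n)
    (h1 : s(a, b) ∉ A) (h2 : s(c, e) ∉ insert s(a, b) A) :
    EE d (insert s(c, e) (insert s(a, b) A)) = EE d A - 4 := by
  rw [EE_insert d _ c e h2, EE_insert d _ a b h1]
  ring

theorem jc_QQ2 (d m t : ℕ) (A B : Finset (Sym2 (Fin n))) (a b c e : Fin n)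
    (hA : ND A) (hB : ND B) (T : Two d m t A B a b c e) :
    QQ d (insert s(c, e) (insert s(a, b) A)) B
      = QQ d A B - 2 * (TT d A B a + TT d A B b + TT d A B c + TT d A B e)
        + 2 * ((if s(c, a) ∈ A ∪ B then 1 else 0) + (if s(c, b) ∈ A ∪ B then 1 else 0)
          + (if s(e, a) ∈ A ∪ B then 1 else 0) + (if s(e, b) ∈ A ∪ B then 1 else 0))
        + 2 * (rd d A a - 1) * (rd d A b - 1) + 2 * (rd d A c - 1) * (rd d A e - 1) := by
  have hA' : ND (insert s(a, b) A) := by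
    intro f hf
    rw [Finset.mem_insert] at hf
    rcases hf with rfl | hf
    · simpa using T.ab
    · exact hA f hf
  have r1 : rd d (insert s(a, b) A) c = rd d A c := by
    rw [rd_insert d A a b c T.ab T.h1, if_neg (by push Not; exact ⟨T.ac.symm, T.bc.symm⟩)]
    ring
  have r2 : rd d (insert s(a, b) A) e = rd d A e := by
    rw [rd_insert d A a b e T.ab T.h1, if_neg (by push Not; exact ⟨T.ae.symm, T.be.symm⟩)]
    ring
  rw [QQ_insert d _ B c e hA' hB T.ce T.h2 T.h2', QQ_insert d A B a b hA hB T.ab T.h1 T.h1', r1, r2,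
    TT_insert_other d A B a b c T.ab T.h1 T.h1' T.ac.symm T.bc.symm,
    TT_insert_other d A B a b e T.ab T.h1 T.h1' T.ae.symm T.be.symm]
  ring

theorem jc_dgu (A B : Finset (Sym2 (Fin n))) (v : Fin n) : dg (A ∪ B) v ≤ dg A v + dg B v := by
  unfold dg
  have : nbr (A ∪ B) v ⊆ nbr A v ∪ nbr B v := by
    intro w hw
    simp only [nbr, Finset.mem_filter, Finset.mem_union, Finset.mem_univ, true_and] at hw ⊢
    exact hw
  exact (Finset.card_le_card this).trans (Finset.card_union_le _ _)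

theorem jc_TT (d m t : ℕ) (A B : Finset (Sym2 (Fin n))) (v : Fin n) (hA : Cls d m t A) (hB : BCls m B) :
    |TT d A B v - d * dg (A ∪ B) v| ≤ (2 * m + t) * (m + t) := by
  have h1 : TT d A B v - d * dg (A ∪ B) v = - ∑ w ∈ nbr (A ∪ B) v, (dg A w : ℝ) := by
    unfold TT rd
    rw [Finset.sum_sub_distrib, Finset.sum_const, nsmul_eq_mul]
    unfold dg
    ring
  rw [h1, abs_neg, abs_of_nonneg (Finset.sum_nonneg (fun w _ => Nat.cast_nonneg _))]
  calc ∑ w ∈ nbr (A ∪ B) v, (dg A w : ℝ) ≤ ∑ w ∈ nbr (A ∪ B) v, ((m : ℝ) + t) := by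
        apply Finset.sum_le_sum
        intro w _
        exact_mod_cast hA.lem w
    _ = (dg (A ∪ B) v : ℝ) * ((m : ℝ) + t) := by
        rw [Finset.sum_const, nsmul_eq_mul]
        rfl
    _ ≤ (2 * m + t) * (m + t) := by
        apply mul_le_mul_of_nonneg_right _ (by positivity)
        have h2 := jc_dgu A B v
        have h3 := hA.lem v
        have h4 := hB.lem v
        have : dg (A ∪ B) v ≤ 2 * m + t := by omega
        exact_mod_cast this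

theorem jc_bet (d m t : ℕ) (A B : Finset (Sym2 (Fin n))) (x z : Fin n) (hA : Cls d m t A) (hB : BCls m B)
    (hx : |rd d A x - 1 - D2 d A / EE d A| ≤ m + t) (hz : |rd d A z - 1 - D2 d A / EE d A| ≤ m + t) :
    |bet d A B x z - (1 + D2 d A / EE d A - QQ d A B / EE d A)
        - d * ((dg (A ∪ B) x : ℝ) + dg (A ∪ B) z)|
      ≤ 2 * (m + t) + (m + t) ^ 2 + 2 * ((2 * m + t) * (m + t)) := by
  have t1 := jc_TT d m t A B x hA hB
  have t2 := jc_TT d m t A B z hA hB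
  unfold bet
  generalize hX : rd d A x - 1 - D2 d A / EE d A = X at hx ⊢
  generalize hZ : rd d A z - 1 - D2 d A / EE d A = Z at hz ⊢
  have e : 1 + (rd d A x - 1) + (rd d A z - 1) - D2 d A / EE d A - X * Z + TT d A B x + TT d A B z
        - QQ d A B / EE d A - (1 + D2 d A / EE d A - QQ d A B / EE d A)
        - d * ((dg (A ∪ B) x : ℝ) + dg (A ∪ B) z)
      = X + Z - X * Z + (TT d A B x - d * dg (A ∪ B) x) + (TT d A B z - d * dg (A ∪ B) z) := by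
    rw [← hX, ← hZ]
    ring
  rw [e]
  have h1 : |X * Z| ≤ (m + t) ^ 2 := by
    rw [abs_mul, sq]
    exact mul_le_mul hx hz (abs_nonneg _) (by positivity)
  calc _ ≤ |X + Z - X * Z + (TT d A B x - d * dg (A ∪ B) x)| + |TT d A B z - d * dg (A ∪ B) z| := abs_add_le _ _
    _ ≤ |X + Z - X * Z| + |TT d A B x - d * dg (A ∪ B) x| + |TT d A B z - d * dg (A ∪ B) z| := by
        gcongr; exact abs_add_le _ _
    _ ≤ |X + Z| + |X * Z| + |TT d A B x - d * dg (A ∪ B) x| + |TT d A B z - d * dg (A ∪ B) z| := by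
        gcongr; exact abs_sub _ _
    _ ≤ |X| + |Z| + |X * Z| + |TT d A B x - d * dg (A ∪ B) x| + |TT d A B z - d * dg (A ∪ B) z| := by
        gcongr; exact abs_add_le _ _
    _ ≤ _ := by linarith

theorem jc_EE (d m t : ℕ) (A : Finset (Sym2 (Fin n))) (hd : m + 1 ≤ d) (hA : Cls d m t A)
    (ht : 4 * ((m : ℝ) + 1) * t ≤ n) : (n : ℝ) * d ≤ 2 * (m + 1) * EE d A := by
  have hc : (2 : ℝ) * A.card ≤ m * n + 2 * t := by exact_mod_cast hA.card
  have hd' : (m : ℝ) + 1 ≤ d := by exact_mod_cast hd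
  have hm : (0 : ℝ) ≤ m := Nat.cast_nonneg _
  have hn : (0 : ℝ) ≤ n := Nat.cast_nonneg _
  have ht0 : (0 : ℝ) ≤ t := Nat.cast_nonneg _
  have h1 : (n : ℝ) * d - m * n - 2 * t ≤ EE d A := by
    unfold EE
    linarith
  have h2 : (d : ℝ) ≤ (m + 1) * (d - m) := jc_m1 m d hm hd'
  have h3 : (n : ℝ) * d ≤ n * ((m + 1) * (d - m)) := mul_le_mul_of_nonneg_left h2 hn
  have h4 : (n : ℝ) ≤ n * d := by
    have : (1 : ℝ) ≤ d := by linarith
    exact le_mul_of_one_le_right hn this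
  calc (n : ℝ) * d ≤ 2 * (m + 1) * ((n : ℝ) * d - m * n - 2 * t) := jc_m2 n d m t ht h3 h4
    _ ≤ 2 * (m + 1) * EE d A := mul_le_mul_of_nonneg_left h1 (by positivity)

theorem jc_exp (g b N C T K n : ℝ) (hC : 1 ≤ C) (hT : 1 ≤ T) (hn0 : 0 < n) (hn : 18 * C * T ^ 2 ≤ n)
    (hK : 90 * C ^ 2 ≤ K)
    (h1 : |g - b / N| ≤ 9 * C * T ^ 2 / n ^ 2) (h2 : |g| ≤ 9 * C * T ^ 2 / n) :
    |Real.exp g - 1 - b / N| ≤ K * T ^ 4 / n ^ 2 ∧ Real.exp g ≤ 2 := by
  have h3 : 9 * C * T ^ 2 / n ≤ 1 / 2 := by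
    rw [div_le_div_iff₀ hn0 (by norm_num)]
    linarith
  have hg : |g| ≤ 1 / 2 := h2.trans h3
  have h4 := Real.abs_exp_sub_one_sub_id_le (x := g) (by linarith)
  have h5 : g ^ 2 ≤ 81 * C ^ 2 * T ^ 4 / n ^ 2 := by
    rw [← sq_abs]
    calc |g| ^ 2 ≤ (9 * C * T ^ 2 / n) ^ 2 := pow_le_pow_left₀ (abs_nonneg _) h2 2
      _ = _ := by ring
  refine ⟨?_, ?_⟩
  · have e : Real.exp g - 1 - b / N = (Real.exp g - 1 - g) + (g - b / N) := by ring
    rw [e]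
    calc _ ≤ |Real.exp g - 1 - g| + |g - b / N| := abs_add_le _ _
      _ ≤ 81 * C ^ 2 * T ^ 4 / n ^ 2 + 9 * C * T ^ 2 / n ^ 2 := by linarith
      _ = (81 * (C ^ 2 * T ^ 4) + 9 * (C * T ^ 2)) / n ^ 2 := by ring
      _ ≤ K * T ^ 4 / n ^ 2 := by
          apply div_le_div_of_nonneg_right _ (by positivity)
          have a1 : C * T ^ 2 ≤ C ^ 2 * T ^ 4 := by
            apply mul_le_mul _ (pow_le_pow_right₀ hT (by norm_num)) (by positivity) (by positivity)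
            exact le_self_pow₀ hC (by norm_num)
          have a2 : 90 * C ^ 2 * T ^ 4 ≤ K * T ^ 4 := mul_le_mul_of_nonneg_right hK (by positivity)
          have a3 : 90 * (C ^ 2 * T ^ 4) = 90 * C ^ 2 * T ^ 4 := by ring
          exact jc_m3 _ _ _ a1 (a3.trans_le a2)
  · have h6 : g ^ 2 ≤ 1 / 4 := by
      rw [← sq_abs]
      calc |g| ^ 2 ≤ (1 / 2) ^ 2 := pow_le_pow_left₀ (abs_nonneg _) hg 2
        _ = 1 / 4 := by norm_num
    have h7 := (abs_le.mp h4).2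
    have h8 := (abs_le.mp hg).2
    linarith

theorem jc_pair (d m t : ℕ) (A B : Finset (Sym2 (Fin n))) (x z : Fin n) (C T K : ℝ)
    (hA : Cls d m t A) (hxz : x ≠ z) (hxA : s(x, z) ∉ A) (hxB : s(x, z) ∉ B)
    (hC : 1 ≤ C) (hT : 1 ≤ T) (hK1 : 1 ≤ K) (hn0 : (0 : ℝ) < n) (hn : 18 * C * T ^ 2 ≤ n) (hK : 90 * C ^ 2 ≤ K)
    (hE0 : 0 < EE d A) (hE : (n : ℝ) * d ≤ K * EE d A)
    (hg : Val d A B x z → |gL (ell d) d A B x z - bet d A B x z / EE d A| ≤ 9 * C * T ^ 2 / n ^ 2 ∧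
      |gL (ell d) d A B x z| ≤ 9 * C * T ^ 2 / n) :
    |rd d A x * rd d A z * (Real.exp (gL (ell d) d A B x z) - 1 - bet d A B x z / EE d A)|
        ≤ (d : ℝ) ^ 2 * (K * T ^ 4 / n ^ 2) ∧
      0 ≤ fL (ell d) d A B x z ∧ fL (ell d) d A B x z ≤ 2 * K * d / n := by
  have hrd : ∀ v, 0 ≤ rd d A v ∧ rd d A v ≤ d := by
    intro v
    have h1 : (dg A v : ℝ) ≤ d := by exact_mod_cast hA.led v
    have h2 : (0 : ℝ) ≤ dg A v := Nat.cast_nonneg _
    unfold rd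
    constructor <;> linarith
  by_cases h0 : rd d A x * rd d A z = 0
  · unfold fL
    rw [h0]
    simp only [zero_mul, abs_zero, zero_div]
    refine ⟨by positivity, le_refl _, by positivity⟩
  · have hx0 : rd d A x ≠ 0 := left_ne_zero_of_mul h0
    have hz0 : rd d A z ≠ 0 := right_ne_zero_of_mul h0
    have hlt : ∀ v, rd d A v ≠ 0 → dg A v < d := by
      intro v hv
      rcases (hA.led v).lt_or_eq with h | h
      · exact h
      · exfalso
        apply hv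
        unfold rd
        rw [h]
        ring
    obtain ⟨g1, g2⟩ := hg ⟨hxz, hxA, hxB, hlt x hx0, hlt z hz0⟩
    obtain ⟨e1, e2⟩ := jc_exp _ _ _ C T K n hC hT hn0 hn hK g1 g2
    have hp0 : 0 ≤ rd d A x * rd d A z := mul_nonneg (hrd x).1 (hrd z).1
    have hp : rd d A x * rd d A z ≤ (d : ℝ) ^ 2 := by
      rw [sq]
      exact mul_le_mul (hrd x).2 (hrd z).2 (hrd z).1 (Nat.cast_nonneg _)
    refine ⟨?_, ?_, ?_⟩
    · rw [abs_mul, abs_of_nonneg hp0]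
      exact mul_le_mul hp e1 (abs_nonneg _) (by positivity)
    · unfold fL
      positivity
    · unfold fL
      have h1 : rd d A x * rd d A z / EE d A ≤ K * d / n := by
        rw [div_le_div_iff₀ hE0 hn0]
        calc rd d A x * rd d A z * n ≤ (d : ℝ) ^ 2 * n := mul_le_mul_of_nonneg_right hp hn0.le
          _ = d * ((n : ℝ) * d) := by ring
          _ ≤ d * (K * EE d A) := mul_le_mul_of_nonneg_left hE (Nat.cast_nonneg _)
          _ = K * d * EE d A := by ring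
      calc _ ≤ (K * d / n) * 2 := mul_le_mul h1 e2 (Real.exp_pos _).le (by positivity)
        _ = 2 * K * d / n := by ring

theorem jc_assemble (n d T K N X Y Z W kX kY kZ kW DD Q1 Q2 be1 be2 be3 be4 ex1 ex2 ex3 ex4 F1 F2 F3 F4 L1 L2
    CC : ℝ) (t m : ℕ) (hTdef : T = 1 + (t : ℝ)) (_hm0 : (0 : ℝ) ≤ m) (hT : 1 ≤ T) (hd : 1 ≤ d) (hK : 1 ≤ K)
    (hKm : 2 * (m : ℝ) + 4 ≤ K)
    (hn : 729 * K * d ≤ n) (hn0 : 0 < n) (hN0 : 0 < N) (hN : n * d ≤ K * N)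
    (hx0 : 0 ≤ X) (hx : X ≤ d) (hx' : |X - d| ≤ K * T)
    (hy0 : 0 ≤ Y) (hy : Y ≤ d) (hy' : |Y - d| ≤ K * T)
    (hz0 : 0 ≤ Z) (hz : Z ≤ d) (hz' : |Z - d| ≤ K * T)
    (hw0 : 0 ≤ W) (hw : W ≤ d) (hw' : |W - d| ≤ K * T)
    (hkx0 : 0 ≤ kX) (hkx : kX ≤ K * T) (hky0 : 0 ≤ kY) (hky : kY ≤ K * T)
    (hkz0 : 0 ≤ kZ) (hkz : kZ ≤ K * T) (hkw0 : 0 ≤ kW) (hkw : kW ≤ K * T)
    (hD0 : 0 ≤ DD / N) (hDd : DD / N ≤ d) (hQ0 : 0 ≤ Q1 / N) (hQd : Q1 / N ≤ (2 * m + ((t + 2 : ℕ) : ℝ)) * d)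
    (hQQ : Q1 - Q2 = 2 * ((X - W) * (Y - Z)))
    (hsm : 2 * ((m : ℝ) + ((t + 2 : ℕ) : ℝ)) + (m + ((t + 2 : ℕ) : ℝ)) ^ 2
      + 2 * ((2 * m + ((t + 2 : ℕ) : ℝ)) * (m + ((t + 2 : ℕ) : ℝ))) ≤ 4 * K ^ 2 * T ^ 2)
    (hb1 : |be1 - (1 + DD / N - Q1 / N) - d * (kX + kZ)| ≤ 2 * ((m : ℝ) + ((t + 2 : ℕ) : ℝ))
      + (m + ((t + 2 : ℕ) : ℝ)) ^ 2 + 2 * ((2 * m + ((t + 2 : ℕ) : ℝ)) * (m + ((t + 2 : ℕ) : ℝ))))
    (hb2 : |be2 - (1 + DD / N - Q1 / N) - d * (kY + kW)| ≤ 2 * ((m : ℝ) + ((t + 2 : ℕ) : ℝ))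
      + (m + ((t + 2 : ℕ) : ℝ)) ^ 2 + 2 * ((2 * m + ((t + 2 : ℕ) : ℝ)) * (m + ((t + 2 : ℕ) : ℝ))))
    (hb3 : |be3 - (1 + DD / N - Q2 / N) - d * (kX + kY)| ≤ 2 * ((m : ℝ) + ((t + 2 : ℕ) : ℝ))
      + (m + ((t + 2 : ℕ) : ℝ)) ^ 2 + 2 * ((2 * m + ((t + 2 : ℕ) : ℝ)) * (m + ((t + 2 : ℕ) : ℝ))))
    (hb4 : |be4 - (1 + DD / N - Q2 / N) - d * (kZ + kW)| ≤ 2 * ((m : ℝ) + ((t + 2 : ℕ) : ℝ))
      + (m + ((t + 2 : ℕ) : ℝ)) ^ 2 + 2 * ((2 * m + ((t + 2 : ℕ) : ℝ)) * (m + ((t + 2 : ℕ) : ℝ))))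
    (he1 : |X * Z * (ex1 - 1 - be1 / N)| ≤ d ^ 2 * (K * T ^ 4 / n ^ 2))
    (he2 : |Y * W * (ex2 - 1 - be2 / N)| ≤ d ^ 2 * (K * T ^ 4 / n ^ 2))
    (he3 : |X * Y * (ex3 - 1 - be3 / N)| ≤ d ^ 2 * (K * T ^ 4 / n ^ 2))
    (he4 : |Z * W * (ex4 - 1 - be4 / N)| ≤ d ^ 2 * (K * T ^ 4 / n ^ 2))
    (f10 : 0 ≤ F1) (f1b : F1 ≤ 2 * K * d / n) (f20 : 0 ≤ F2) (f2b : F2 ≤ 2 * K * d / n)
    (f30 : 0 ≤ F3) (f3b : F3 ≤ 2 * K * d / n) (f40 : 0 ≤ F4) (f4b : F4 ≤ 2 * K * d / n)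
    (fe1 : F1 = X * Z / N * ex1) (fe2 : F2 = Y * W / N * ex2) (fe3 : F3 = X * Y / N * ex3)
    (fe4 : F4 = Z * W / N * ex4)
    (hell : L1 - L2 = -((X - W) * (Y - Z) / N)) (hCC : 1000 * K ^ 5 ≤ CC) :
    |L1 - L2 + Real.log (1 - F1 - F2) - Real.log (1 - F3 - F4)| ≤ CC * (1 + t) ^ 6 * (1 / n ^ 2) := by
  have hKT0 : 0 ≤ K * T := mul_nonneg (zero_le_one.trans hK) (zero_le_one.trans hT)
  have hxw : |X - W| ≤ 2 * (K * T) := jc_abs2 X W d (K * T) hx' hw'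
  have hyz : |Y - Z| ≤ 2 * (K * T) := jc_abs2 Y Z d (K * T) hy' hz'
  have hN1 : 1 ≤ N := jc_N1 K d n N hK hd hn0 hn hN
  have hP2 : |2 * ((X - W) * (Y - Z)) / N| ≤ 8 * K ^ 2 * T ^ 2 := jc_P2 _ _ K T N hxw hyz hKT0 hN1
  obtain ⟨b0, hb0⟩ : ∃ b0, b0 = 1 + DD / N - Q1 / N := ⟨_, rfl⟩
  have hKT2 : 0 ≤ K ^ 2 * T ^ 2 := mul_nonneg (sq_nonneg _) (sq_nonneg _)
  have hb0b : |b0| ≤ K * T * d := by
    refine jc_b0b K T d m t (DD / N) (Q1 / N) b0 (Nat.cast_nonneg _) hTdef _hm0 hKm hd hD0 hDd hQ0 ?_ hb0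
    have e : ((t + 2 : ℕ) : ℝ) = (t : ℝ) + 2 := by push_cast; ring
    rw [e] at hQd
    exact hQd
  have e12 : 12 * K ^ 2 * T ^ 2 = 12 * (K ^ 2 * T ^ 2) := by ring
  have e4' : 4 * K ^ 2 * T ^ 2 = 4 * (K ^ 2 * T ^ 2) := by ring
  have e8 : 8 * K ^ 2 * T ^ 2 = 8 * (K ^ 2 * T ^ 2) := by ring
  rw [e4'] at hsm
  rw [e8] at hP2
  have g1 : |be1 - b0 - d * (kX + kZ)| ≤ 12 * K ^ 2 * T ^ 2 := by
    rw [e12, hb0]
    exact jc_g1 _ _ _ _ _ hb1 hsm hKT2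
  have g2 : |be2 - b0 - d * (kY + kW)| ≤ 12 * K ^ 2 * T ^ 2 := by
    rw [e12, hb0]
    exact jc_g1 _ _ _ _ _ hb2 hsm hKT2
  have hb0' : b0 = (1 + DD / N - Q2 / N) - 2 * ((X - W) * (Y - Z)) / N := by
    rw [hb0, ← hQQ]
    ring
  have g3 : |be3 - b0 - d * (kX + kY)| ≤ 12 * K ^ 2 * T ^ 2 := by
    rw [e12]
    exact jc_g3 _ _ _ _ _ _ _ hb3 hsm hP2 hb0'
  have g4 : |be4 - b0 - d * (kZ + kW)| ≤ 12 * K ^ 2 * T ^ 2 := by
    rw [e12]
    exact jc_g3 _ _ _ _ _ _ _ hb4 hsm hP2 hb0'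
  have hKd0 : 0 ≤ K * d := mul_nonneg (zero_le_one.trans hK) (zero_le_one.trans hd)
  have hKd : K * d ≤ n := by linarith only [hKd0, hn]
  have hF := jc_core n d T K N X Y Z W kX kY kZ kW b0 ex1 ex2 ex3 ex4 be1 be2 be3 be4 hT hd hK hKd hN0 hN
    hx0 hx hx' hy0 hy hy' hz0 hz hz' hw0 hw hw' hkx0 hkx hky0 hky hkz0 hkz hkw0 hkw hb0b g1 g2 g3 g4
    he1 he2 he3 he4
  rw [← fe1, ← fe2, ← fe3, ← fe4] at hF
  have e4 : 4 * K * d / n = 2 * K * d / n + 2 * K * d / n := by ring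
  have hfin := jc_final n d T K N X Y Z W L1 L2 (F1 + F2) (F3 + F4) hT hd hK
    (by linarith only [hKd0, hn]) hN0 hN hxw hyz (add_nonneg f10 f20) (add_nonneg f30 f40)
    (by rw [e4]; exact add_le_add f1b f2b) (by rw [e4]; exact add_le_add f3b f4b) hF hell
  have e1 : 1 - F1 - F2 = 1 - (F1 + F2) := by ring
  have e2 : 1 - F3 - F4 = 1 - (F3 + F4) := by ring
  rw [e1, e2, ← hTdef]
  refine hfin.trans ?_
  have hn2 : 0 ≤ 1 / n ^ 2 := one_div_nonneg.2 (sq_nonneg n)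
  have hT6 : 0 ≤ T ^ 6 := pow_nonneg (zero_le_one.trans hT) 6
  exact mul_le_mul_of_nonneg_right (mul_le_mul_of_nonneg_right hCC hT6) hn2

/-- TARGET -/
theorem ell_four (m : ℕ) : ∃ C : ℝ, 1 ≤ C ∧ ∀ (n d t : ℕ) (A B : Finset (Sym2 (Fin n))) (x y z w : Fin n),
    Even (n * d) → m + 1 ≤ d → C * ((d : ℝ) + (1 + t) ^ 6) ≤ n → Cls d m t A → BCls m B → Disjoint A B →
    Val d A B x y → Val d A B z w → Val d A B x z → Val d A B y w → x ≠ w → y ≠ z →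
    |ell d (insert s(z, w) (insert s(x, y) A)) B - ell d (insert s(y, w) (insert s(x, z) A)) B
      + Real.log (1 - fL (ell d) d (insert s(z, w) (insert s(x, y) A)) B x z
          - fL (ell d) d (insert s(z, w) (insert s(x, y) A)) B y w)
      - Real.log (1 - fL (ell d) d (insert s(y, w) (insert s(x, z) A)) B x y
          - fL (ell d) d (insert s(y, w) (insert s(x, z) A)) B z w)|
      ≤ C * (1 + t) ^ 6 * (1 / (n : ℝ) ^ 2) := by
  obtain ⟨C1, hC1, hs⟩ := stat_bounds m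
  obtain ⟨C2, hC2, hg⟩ := gg_bound m
  obtain ⟨K, hKdef⟩ : ∃ K : ℝ, K = 2 * m + 4 + 90 * C2 ^ 2 + C1 + C2 := ⟨_, rfl⟩
  have hm0 : (0 : ℝ) ≤ m := Nat.cast_nonneg _
  obtain ⟨hK1, hKm, hKC, hKC1, hKC2⟩ := jc_Kdef m C1 C2 K hm0 hC1 hC2 hKdef
  clear hKdef
  have hK5 : 1 ≤ K ^ 5 := one_le_pow₀ hK1
  refine ⟨1000 * K ^ 5 + 729 * K, by linarith, ?_⟩
  intro n d t A B x y z w heven hmd hn hA hB hAB vxy vzw vxz vyw hxw hyz
  obtain ⟨T, hTdef⟩ : ∃ T : ℝ, T = 1 + (t : ℝ) := ⟨_, rfl⟩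
  have ht0 : (0 : ℝ) ≤ t := Nat.cast_nonneg _
  have hT : 1 ≤ T := by linarith
  have hd1 : (1 : ℝ) ≤ d := by
    have : (1 : ℕ) ≤ d := by omega
    exact_mod_cast this
  have hT6 : 1 ≤ T ^ 6 := one_le_pow₀ hT
  have hTT2 : T ^ 2 ≤ T ^ 6 := pow_le_pow_right₀ hT (by norm_num)
  have hTT1 : T ≤ T ^ 6 := le_self_pow₀ hT (by norm_num)
  rw [← hTdef] at hn
  obtain ⟨hn1, hn2, hn3, hn0⟩ := jc_nn K d (T ^ 6) n hK1 hd1 hT6 hn
  -- the two pairs of insertions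
  have T1 : Two d m t A B x y z w := jc_two d m t A B x y z w vxy vzw vxz.ne hxw hyz vyw.ne
  have T2 : Two d m t A B x z y w := jc_two d m t A B x z y w vxz vyw vxy.ne hxw hyz.symm vzw.ne
  have c1 := jc_cls d m t A B x y z w hA vxy vzw T1
  have c2 := jc_cls d m t A B x z y w hA vxz vyw T2
  -- bounds for t + 2
  have ht2 : (1 + ((t + 2 : ℕ) : ℝ)) ≤ 3 * T := by push_cast; linarith
  have ht2' : (0 : ℝ) ≤ 1 + ((t + 2 : ℕ) : ℝ) := by positivity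
  have ht6 : (1 + ((t + 2 : ℕ) : ℝ)) ^ 6 ≤ 729 * T ^ 6 := by
    calc _ ≤ (3 * T) ^ 6 := pow_le_pow_left₀ ht2' ht2 6
      _ = 729 * T ^ 6 := by ring
  have ht22 : (1 + ((t + 2 : ℕ) : ℝ)) ^ 2 ≤ 9 * T ^ 2 := by
    calc _ ≤ (3 * T) ^ 2 := pow_le_pow_left₀ ht2' ht2 2
      _ = 9 * T ^ 2 := by ring
  have hd0 : (0 : ℝ) ≤ d := by linarith
  have hbig : ∀ C : ℝ, 1 ≤ C → C ≤ K → C * ((d : ℝ) + (1 + ((t + 2 : ℕ) : ℝ)) ^ 6) ≤ n := by
    intro C hC hCK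
    calc C * ((d : ℝ) + (1 + ((t + 2 : ℕ) : ℝ)) ^ 6) ≤ K * (729 * d + 729 * T ^ 6) := by
          apply mul_le_mul hCK _ (by positivity) (by linarith)
          linarith
      _ = 729 * K * (d + T ^ 6) := by ring
      _ ≤ n := hn1
  obtain ⟨D0, Dd, hrd1, hTT1', hQ0, hQd⟩ := hs n d (t + 2) _ B hmd (hbig C1 hC1 hKC1) c1 hB
  obtain ⟨-, -, hrd2, -, -, -⟩ := hs n d (t + 2) _ B hmd (hbig C1 hC1 hKC1) c2 hB
  have gg1 := fun p q => hg n d (t + 2) _ B p q heven hmd (hbig C2 hC2 hKC2) c1 hB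
  have gg2 := fun p q => hg n d (t + 2) _ B p q heven hmd (hbig C2 hC2 hKC2) c2 hB
  -- degrees
  have dg1 := fun v => jc_dg A x y z w v T1.ab T1.ce T1.h1 T1.h2
  have dg2 := fun v => jc_dg A x z y w v T2.ab T2.ce T2.h1 T2.h2
  have rd1 := fun v => jc_rd d A x y z w v T1.ab T1.ce T1.h1 T1.h2
  have rd2 := fun v => jc_rd d A x z y w v T2.ab T2.ce T2.h1 T2.h2
  have hdgeq : ∀ v, dg (insert s(y, w) (insert s(x, z) A)) v = dg (insert s(z, w) (insert s(x, y) A)) v := by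
    intro v
    rw [dg1 v, dg2 v]
    have a1 := T1.ab
    have a2 := T1.ac
    have a3 := T1.ae
    have a4 := T1.bc
    have a5 := T1.be
    have a6 := T1.ce
    by_cases h1 : v = x
    · subst h1; simp [a1, a2, a3]
    · by_cases h2 : v = y
      · subst h2; simp [a1.symm, a4, a5]
      · by_cases h3 : v = z
        · subst h3; simp [a2.symm, a4.symm, a6]
        · by_cases h4 : v = w
          · subst h4; simp [a3.symm, a5.symm, a6.symm]
          · simp [h1, h2, h3, h4]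
  have hrdeq : ∀ v, rd d (insert s(y, w) (insert s(x, z) A)) v = rd d (insert s(z, w) (insert s(x, y) A)) v := by
    intro v
    unfold rd
    rw [hdgeq v]
  have hEE1 := jc_EE2 d A x y z w T1.h1 T1.h2
  have hEE2 := jc_EE2 d A x z y w T2.h1 T2.h2
  have hEEeq : EE d (insert s(y, w) (insert s(x, z) A)) = EE d (insert s(z, w) (insert s(x, y) A)) := by
    rw [hEE1, hEE2]
  have hD2eq : D2 d (insert s(y, w) (insert s(x, z) A)) = D2 d (insert s(z, w) (insert s(x, y) A)) := by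
    unfold D2
    exact Finset.sum_congr rfl (fun v _ => by rw [hrdeq v])
  have hQQ1 := jc_QQ2 d m t A B x y z w hA.nd hB.nd T1
  have hQQ2 := jc_QQ2 d m t A B x z y w hA.nd hB.nd T2
  have nxz : s(x, z) ∉ A ∪ B := by
    rw [Finset.mem_union]; push Not; exact ⟨vxz.nA, vxz.nB⟩
  have nxy : s(x, y) ∉ A ∪ B := by
    rw [Finset.mem_union]; push Not; exact ⟨vxy.nA, vxy.nB⟩
  have nyw : s(y, w) ∉ A ∪ B := by
    rw [Finset.mem_union]; push Not; exact ⟨vyw.nA, vyw.nB⟩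
  have nzw : s(z, w) ∉ A ∪ B := by
    rw [Finset.mem_union]; push Not; exact ⟨vzw.nA, vzw.nB⟩
  rw [Sym2.eq_swap (a := z) (b := x), if_neg nxz, Sym2.eq_swap (a := w) (b := y), if_neg nyw] at hQQ1
  rw [Sym2.eq_swap (a := y) (b := x), if_neg nxy, Sym2.eq_swap (a := w) (b := z), if_neg nzw,
    Sym2.eq_swap (a := y) (b := z)] at hQQ2
  -- values at the four vertices
  have rx : rd d (insert s(z, w) (insert s(x, y) A)) x = rd d A x - 1 := by
    rw [rd1 x]; simp [T1.ac, T1.ae]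
  have ry : rd d (insert s(z, w) (insert s(x, y) A)) y = rd d A y - 1 := by
    rw [rd1 y]; simp [T1.bc, T1.be]
  have rz : rd d (insert s(z, w) (insert s(x, y) A)) z = rd d A z - 1 := by
    rw [rd1 z]; simp [T1.ac.symm, T1.bc.symm]
  have rw' : rd d (insert s(z, w) (insert s(x, y) A)) w = rd d A w - 1 := by
    rw [rd1 w]; simp [T1.ae.symm, T1.be.symm]
  have hQQd : QQ d (insert s(z, w) (insert s(x, y) A)) B - QQ d (insert s(y, w) (insert s(x, z) A)) B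
      = 2 * ((rd d (insert s(z, w) (insert s(x, y) A)) x - rd d (insert s(z, w) (insert s(x, y) A)) w)
          * (rd d (insert s(z, w) (insert s(x, y) A)) y - rd d (insert s(z, w) (insert s(x, y) A)) z)) := by
    rw [hQQ1, hQQ2, rx, ry, rz, rw']
    ring
  -- EE
  have htn : 4 * ((m : ℝ) + 1) * ((t + 2 : ℕ) : ℝ) ≤ n := by
    have h1 : ((t + 2 : ℕ) : ℝ) ≤ 2 * T := by push_cast; linarith
    have h2 : 4 * ((m : ℝ) + 1) ≤ 2 * K := by linarith
    calc _ ≤ (2 * K) * (2 * T) := mul_le_mul h2 h1 (by positivity) (by positivity)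
      _ ≤ 729 * K * T ^ 6 := jc_KT K T hK1 hT hTT1
      _ ≤ n := hn2
  have hEm := jc_EE d m (t + 2) _ hmd c1 htn
  have hE0 : 0 < EE d (insert s(z, w) (insert s(x, y) A)) := by
    by_contra hcon
    push Not at hcon
    have h1 : (0 : ℝ) < n * d := by positivity
    have h2 : 2 * ((m : ℝ) + 1) * EE d (insert s(z, w) (insert s(x, y) A)) ≤ 0 :=
      mul_nonpos_of_nonneg_of_nonpos (by positivity) hcon
    linarith
  have hEK : (n : ℝ) * d ≤ K * EE d (insert s(z, w) (insert s(x, y) A)) := by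
    refine hEm.trans (mul_le_mul_of_nonneg_right (by linarith) hE0.le)
  have hn18 : 18 * C2 * T ^ 2 ≤ (n : ℝ) := by
    calc 18 * C2 * T ^ 2 ≤ 729 * K * T ^ 6 := by
          apply mul_le_mul (by linarith) hTT2 (by positivity) (by positivity)
      _ ≤ (n : ℝ) := hn2
  have conv : ∀ g b N : ℝ, (|g - b / N| ≤ C2 * (1 + ((t + 2 : ℕ) : ℝ)) ^ 2 / (n : ℝ) ^ 2) →
      (|g| ≤ C2 * (1 + ((t + 2 : ℕ) : ℝ)) ^ 2 / n) →
      |g - b / N| ≤ 9 * C2 * T ^ 2 / (n : ℝ) ^ 2 ∧ |g| ≤ 9 * C2 * T ^ 2 / n := by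
    intro g b N h1 h2
    have h3 : C2 * (1 + ((t + 2 : ℕ) : ℝ)) ^ 2 ≤ 9 * C2 * T ^ 2 := by
      calc _ ≤ C2 * (9 * T ^ 2) := mul_le_mul_of_nonneg_left ht22 (by linarith)
        _ = _ := by ring
    exact ⟨h1.trans (div_le_div_of_nonneg_right h3 (by positivity)),
      h2.trans (div_le_div_of_nonneg_right h3 hn0.le)⟩
  -- the four pairs
  have ne1 : s(x, z) ∉ insert s(z, w) (insert s(x, y) A) := by
    rw [Finset.mem_insert, Finset.mem_insert]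
    push Not
    refine ⟨?_, ?_, vxz.nA⟩
    · intro h
      rw [Sym2.eq_iff] at h
      rcases h with h | h
      · exact vxz.ne h.1
      · exact hxw h.1
    · intro h
      rw [Sym2.eq_iff] at h
      rcases h with h | h
      · exact hyz h.2.symm
      · exact vxy.ne h.1
  have ne2 : s(y, w) ∉ insert s(z, w) (insert s(x, y) A) := by
    rw [Finset.mem_insert, Finset.mem_insert]
    push Not
    refine ⟨?_, ?_, vyw.nA⟩
    · intro h
      rw [Sym2.eq_iff] at h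
      rcases h with h | h
      · exact hyz h.1
      · exact vyw.ne h.1
    · intro h
      rw [Sym2.eq_iff] at h
      rcases h with h | h
      · exact vyw.ne h.2.symm
      · exact hxw h.2.symm
  have ne3 : s(x, y) ∉ insert s(y, w) (insert s(x, z) A) := by
    rw [Finset.mem_insert, Finset.mem_insert]
    push Not
    refine ⟨?_, ?_, vxy.nA⟩
    · intro h
      rw [Sym2.eq_iff] at h
      rcases h with h | h
      · exact vxy.ne h.1
      · exact hxw h.1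
    · intro h
      rw [Sym2.eq_iff] at h
      rcases h with h | h
      · exact hyz h.2
      · exact vxz.ne h.1
  have ne4 : s(z, w) ∉ insert s(y, w) (insert s(x, z) A) := by
    rw [Finset.mem_insert, Finset.mem_insert]
    push Not
    refine ⟨?_, ?_, vzw.nA⟩
    · intro h
      rw [Sym2.eq_iff] at h
      rcases h with h | h
      · exact hyz h.1.symm
      · exact vzw.ne h.1
    · intro h
      rw [Sym2.eq_iff] at h
      rcases h with h | h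
      · exact vzw.ne h.2.symm
      · exact hxw h.2.symm
  obtain ⟨p1, f10, f1b⟩ := jc_pair d m (t + 2) _ B x z C2 T K c1 vxz.ne ne1 vxz.nB hC2 hT hK1 hn0 hn18 hKC
    hE0 hEK (fun v => by obtain ⟨h1, -, -, h2⟩ := gg1 x z v; exact conv _ _ _ h1 h2)
  obtain ⟨p2, f20, f2b⟩ := jc_pair d m (t + 2) _ B y w C2 T K c1 vyw.ne ne2 vyw.nB hC2 hT hK1 hn0 hn18 hKC
    hE0 hEK (fun v => by obtain ⟨h1, -, -, h2⟩ := gg1 y w v; exact conv _ _ _ h1 h2)
  obtain ⟨p3, f30, f3b⟩ := jc_pair d m (t + 2) _ B x y C2 T K c2 vxy.ne ne3 vxy.nB hC2 hT hK1 hn0 hn18 hKC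
    (by rw [hEEeq]; exact hE0) (by rw [hEEeq]; exact hEK)
    (fun v => by obtain ⟨h1, -, -, h2⟩ := gg2 x y v; exact conv _ _ _ h1 h2)
  obtain ⟨p4, f40, f4b⟩ := jc_pair d m (t + 2) _ B z w C2 T K c2 vzw.ne ne4 vzw.nB hC2 hT hK1 hn0 hn18 hKC
    (by rw [hEEeq]; exact hE0) (by rw [hEEeq]; exact hEK)
    (fun v => by obtain ⟨h1, -, -, h2⟩ := gg2 z w v; exact conv _ _ _ h1 h2)
  -- degrees in the union
  have hu1 : insert s(z, w) (insert s(x, y) A) ∪ B = insert s(z, w) (insert s(x, y) (A ∪ B)) := by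
    rw [Finset.insert_union, Finset.insert_union]
  have hu2 : insert s(y, w) (insert s(x, z) A) ∪ B = insert s(y, w) (insert s(x, z) (A ∪ B)) := by
    rw [Finset.insert_union, Finset.insert_union]
  have hu1' : s(z, w) ∉ insert s(x, y) (A ∪ B) := by
    rw [Finset.mem_insert]
    rintro (h | h)
    · exact T1.h2 (by rw [h]; exact Finset.mem_insert_self _ _)
    · exact nzw h
  have hu2' : s(y, w) ∉ insert s(x, z) (A ∪ B) := by
    rw [Finset.mem_insert]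
    rintro (h | h)
    · exact T2.h2 (by rw [h]; exact Finset.mem_insert_self _ _)
    · exact nyw h
  have hk : ∀ v, dg (insert s(y, w) (insert s(x, z) A) ∪ B) v = dg (insert s(z, w) (insert s(x, y) A) ∪ B) v := by
    intro v
    rw [hu1, hu2, jc_dg (A ∪ B) x y z w v T1.ab T1.ce nxy hu1', jc_dg (A ∪ B) x z y w v T2.ab T2.ce nxz hu2']
    have e1 := dg1 v
    have e2 := dg2 v
    have e3 := hdgeq v
    omega
  have hkb : ∀ v, (dg (insert s(z, w) (insert s(x, y) A) ∪ B) v : ℝ) ≤ K * T := by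
    intro v
    have h1 := jc_dgu (insert s(z, w) (insert s(x, y) A)) B v
    have h2 := c1.lem v
    have h3 := hB.lem v
    have h4 : dg (insert s(z, w) (insert s(x, y) A) ∪ B) v ≤ 2 * m + t + 2 := by omega
    have h5 : (dg (insert s(z, w) (insert s(x, y) A) ∪ B) v : ℝ) ≤ 2 * m + t + 2 := by exact_mod_cast h4
    have h6 : (2 * (m : ℝ) + (t + 2)) ≤ (2 * m + 2) * T := jc_mt m t T hm0 ht0 hTdef
    have h7 : (2 * (m : ℝ) + 2) * T ≤ K * T :=
      mul_le_mul_of_nonneg_right (by linarith only [hKm]) (by linarith only [hT])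
    linarith only [h5, h6, h7]
  -- sizes of the remaining degrees
  have hr0 : ∀ v, 0 ≤ rd d (insert s(z, w) (insert s(x, y) A)) v := fun v => (hrd1 v).1
  have hrd' : ∀ v, rd d (insert s(z, w) (insert s(x, y) A)) v ≤ d := fun v => (hrd1 v).2.1
  have hrK : ∀ v, |rd d (insert s(z, w) (insert s(x, y) A)) v - d| ≤ K * T := by
    intro v
    have h1 : ((dg (insert s(z, w) (insert s(x, y) A)) v : ℕ) : ℝ) ≤ m + t + 2 := by exact_mod_cast c1.lem v
    have h2 : (0 : ℝ) ≤ ((dg (insert s(z, w) (insert s(x, y) A)) v : ℕ) : ℝ) := Nat.cast_nonneg _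
    have h3 : (m : ℝ) + (t + 2) ≤ (m + 2) * T := jc_mt' m t T hm0 ht0 hTdef
    have h4 : ((m : ℝ) + 2) * T ≤ K * T :=
      mul_le_mul_of_nonneg_right (by linarith only [hKm, hm0]) (by linarith only [hT])
    unfold rd
    rw [abs_le]
    constructor <;> linarith only [h1, h2, h3, h4]
  -- the second order terms
  have hsm : 2 * ((m : ℝ) + ((t + 2 : ℕ) : ℝ)) + (m + ((t + 2 : ℕ) : ℝ)) ^ 2
      + 2 * ((2 * m + ((t + 2 : ℕ) : ℝ)) * (m + ((t + 2 : ℕ) : ℝ))) ≤ 4 * K ^ 2 * T ^ 2 := by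
    have e2 : ((t + 2 : ℕ) : ℝ) = (t : ℝ) + 2 := by push_cast; ring
    have hs0 : (0 : ℝ) ≤ ((t + 2 : ℕ) : ℝ) := Nat.cast_nonneg _
    have h1 : (m : ℝ) + ((t + 2 : ℕ) : ℝ) ≤ K * T / 2 := by
      rw [e2]
      have h3 : (m : ℝ) + (t + 2) ≤ (m + 2) * T := jc_mt' m t T hm0 ht0 hTdef
      have h4 : ((m : ℝ) + 2) * T ≤ K / 2 * T :=
        mul_le_mul_of_nonneg_right (by linarith only [hKm]) (by linarith only [hT])
      linarith only [h3, h4]
    have h2 : (2 * m : ℝ) + ((t + 2 : ℕ) : ℝ) ≤ K * T := by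
      rw [e2]
      have h3 : (2 * m : ℝ) + (t + 2) ≤ (2 * m + 2) * T := jc_mt m t T hm0 ht0 hTdef
      have h4 : (2 * (m : ℝ) + 2) * T ≤ K * T :=
        mul_le_mul_of_nonneg_right (by linarith only [hKm]) (by linarith only [hT])
      linarith only [h3, h4]
    exact jc_sm m ((t + 2 : ℕ) : ℝ) K T hm0 hs0 hK1 hT h1 h2
  have b1 := jc_bet d m (t + 2) _ B x z c1 hB (hrd1 x).2.2 (hrd1 z).2.2
  have b2 := jc_bet d m (t + 2) _ B y w c1 hB (hrd1 y).2.2 (hrd1 w).2.2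
  have b3 := jc_bet d m (t + 2) _ B x y c2 hB (hrd2 x).2.2 (hrd2 y).2.2
  have b4 := jc_bet d m (t + 2) _ B z w c2 hB (hrd2 z).2.2 (hrd2 w).2.2
  -- the leading terms
  have hell : ell d (insert s(z, w) (insert s(x, y) A)) B - ell d (insert s(y, w) (insert s(x, z) A)) B
      = -((rd d (insert s(z, w) (insert s(x, y) A)) x - rd d (insert s(z, w) (insert s(x, y) A)) w)
          * (rd d (insert s(z, w) (insert s(x, y) A)) y - rd d (insert s(z, w) (insert s(x, y) A)) z)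
          / EE d (insert s(z, w) (insert s(x, y) A))) := by
    have hcard : (insert s(y, w) (insert s(x, z) A)).card = (insert s(z, w) (insert s(x, y) A)).card := by
      rw [jc_card A x y z w T1.h1 T1.h2, jc_card A x z y w T2.h1 T2.h2]
    have hfac : ∑ v, Real.log ((d - dg (insert s(y, w) (insert s(x, z) A)) v).factorial)
        = ∑ v, Real.log ((d - dg (insert s(z, w) (insert s(x, y) A)) v).factorial) :=
      Finset.sum_congr rfl (fun v _ => by rw [hdgeq v])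
    unfold ell
    rw [hcard, hfac, hD2eq, hEEeq]
    have e : (rd d (insert s(z, w) (insert s(x, y) A)) x - rd d (insert s(z, w) (insert s(x, y) A)) w)
          * (rd d (insert s(z, w) (insert s(x, y) A)) y - rd d (insert s(z, w) (insert s(x, y) A)) z)
        = (QQ d (insert s(z, w) (insert s(x, y) A)) B - QQ d (insert s(y, w) (insert s(x, z) A)) B) / 2 := by
      rw [hQQd]; ring
    rw [e]
    field_simp
    ring
  -- abstract everything
  rw [hEEeq, hrdeq x, hrdeq y] at p3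
  rw [hEEeq, hrdeq z, hrdeq w] at p4
  rw [hD2eq, hEEeq, hk x, hk y] at b3
  rw [hD2eq, hEEeq, hk z, hk w] at b4
  have fe1 : fL (ell d) d (insert s(z, w) (insert s(x, y) A)) B x z
      = rd d (insert s(z, w) (insert s(x, y) A)) x * rd d (insert s(z, w) (insert s(x, y) A)) z
        / EE d (insert s(z, w) (insert s(x, y) A))
        * Real.exp (gL (ell d) d (insert s(z, w) (insert s(x, y) A)) B x z) := rfl
  have fe2 : fL (ell d) d (insert s(z, w) (insert s(x, y) A)) B y w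
      = rd d (insert s(z, w) (insert s(x, y) A)) y * rd d (insert s(z, w) (insert s(x, y) A)) w
        / EE d (insert s(z, w) (insert s(x, y) A))
        * Real.exp (gL (ell d) d (insert s(z, w) (insert s(x, y) A)) B y w) := rfl
  have fe3 : fL (ell d) d (insert s(y, w) (insert s(x, z) A)) B x y
      = rd d (insert s(z, w) (insert s(x, y) A)) x * rd d (insert s(z, w) (insert s(x, y) A)) y
        / EE d (insert s(z, w) (insert s(x, y) A))
        * Real.exp (gL (ell d) d (insert s(y, w) (insert s(x, z) A)) B x y) := by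
    unfold fL
    rw [hEEeq, hrdeq x, hrdeq y]
  have fe4 : fL (ell d) d (insert s(y, w) (insert s(x, z) A)) B z w
      = rd d (insert s(z, w) (insert s(x, y) A)) z * rd d (insert s(z, w) (insert s(x, y) A)) w
        / EE d (insert s(z, w) (insert s(x, y) A))
        * Real.exp (gL (ell d) d (insert s(y, w) (insert s(x, z) A)) B z w) := by
    unfold fL
    rw [hEEeq, hrdeq z, hrdeq w]
  have hx0 := hr0 x
  have hy0 := hr0 y
  have hz0 := hr0 z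
  have hw0 := hr0 w
  have hxd := hrd' x
  have hyd := hrd' y
  have hzd := hrd' z
  have hwd := hrd' w
  have hxK := hrK x
  have hyK := hrK y
  have hzK := hrK z
  have hwK := hrK w
  have kx := hkb x
  have ky := hkb y
  have kz := hkb z
  have kw := hkb w
  have kx0 : (0 : ℝ) ≤ dg (insert s(z, w) (insert s(x, y) A) ∪ B) x := Nat.cast_nonneg _
  have ky0 : (0 : ℝ) ≤ dg (insert s(z, w) (insert s(x, y) A) ∪ B) y := Nat.cast_nonneg _
  have kz0 : (0 : ℝ) ≤ dg (insert s(z, w) (insert s(x, y) A) ∪ B) z := Nat.cast_nonneg _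
  have kw0 : (0 : ℝ) ≤ dg (insert s(z, w) (insert s(x, y) A) ∪ B) w := Nat.cast_nonneg _
  clear hkb hrK hrd' hr0 hk hu1 hu2 hu1' hu2' hrd1 hrd2 gg1 gg2 dg1 dg2 rd1 rd2 rx ry rz rw' hs hg hbig conv
    ne1 ne2 ne3 ne4 hQQ1 hQQ2 hEE1 hEE2 hTT1' hEm
  generalize EE d (insert s(z, w) (insert s(x, y) A)) = N at *
  generalize rd d (insert s(z, w) (insert s(x, y) A)) x = X at *
  generalize rd d (insert s(z, w) (insert s(x, y) A)) y = Y at *
  generalize rd d (insert s(z, w) (insert s(x, y) A)) z = Z at *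
  generalize rd d (insert s(z, w) (insert s(x, y) A)) w = W at *
  generalize (dg (insert s(z, w) (insert s(x, y) A) ∪ B) x : ℝ) = kX at *
  generalize (dg (insert s(z, w) (insert s(x, y) A) ∪ B) y : ℝ) = kY at *
  generalize (dg (insert s(z, w) (insert s(x, y) A) ∪ B) z : ℝ) = kZ at *
  generalize (dg (insert s(z, w) (insert s(x, y) A) ∪ B) w : ℝ) = kW at *
  generalize D2 d (insert s(z, w) (insert s(x, y) A)) = DD at *
  generalize QQ d (insert s(z, w) (insert s(x, y) A)) B = Q1 at *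
  generalize QQ d (insert s(y, w) (insert s(x, z) A)) B = Q2 at *
  generalize bet d (insert s(z, w) (insert s(x, y) A)) B x z = be1 at *
  generalize bet d (insert s(z, w) (insert s(x, y) A)) B y w = be2 at *
  generalize bet d (insert s(y, w) (insert s(x, z) A)) B x y = be3 at *
  generalize bet d (insert s(y, w) (insert s(x, z) A)) B z w = be4 at *
  generalize Real.exp (gL (ell d) d (insert s(z, w) (insert s(x, y) A)) B x z) = ex1 at *
  generalize Real.exp (gL (ell d) d (insert s(z, w) (insert s(x, y) A)) B y w) = ex2 at *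
  generalize Real.exp (gL (ell d) d (insert s(y, w) (insert s(x, z) A)) B x y) = ex3 at *
  generalize Real.exp (gL (ell d) d (insert s(y, w) (insert s(x, z) A)) B z w) = ex4 at *
  generalize fL (ell d) d (insert s(z, w) (insert s(x, y) A)) B x z = F1 at *
  generalize fL (ell d) d (insert s(z, w) (insert s(x, y) A)) B y w = F2 at *
  generalize fL (ell d) d (insert s(y, w) (insert s(x, z) A)) B x y = F3 at *
  generalize fL (ell d) d (insert s(y, w) (insert s(x, z) A)) B z w = F4 at *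
  generalize ell d (insert s(z, w) (insert s(x, y) A)) B = L1 at *
  generalize ell d (insert s(y, w) (insert s(x, z) A)) B = L2 at *
  exact jc_assemble n d T K N X Y Z W kX kY kZ kW DD Q1 Q2 be1 be2 be3 be4 ex1 ex2 ex3 ex4 F1 F2 F3 F4 L1 L2
    (1000 * K ^ 5 + 729 * K) t m hTdef hm0 hT hd1 hK1 hKm hn3 hn0 hE0 hEK hx0 hxd hxK hy0 hyd hyK hz0 hzd hzK
    hw0 hwd hwK kx0 kx ky0 ky kz0 kz kw0 kw D0 Dd hQ0 hQd hQQd hsm b1 b2 b3 b4 p1 p2 p3 p4
    f10 f1b f20 f2b f30 f3b f40 f4b fe1 fe2 fe3 fe4 hell (by linarith)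

end MJC

export MJC (ell_four)

end Pool.Agent.H698NC
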