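import Pool.Agent.H698NC.Defs

set_option autoImplicit false

namespace Pool.Agent.H698NC

open Finset

variable {n : ℕ}

/-- positivity of all counts in the class -/
def PosAll (n d m t : ℕ) : Prop := ∀ A B : Finset (Sym2 (Fin n)), Cls d m t A → BCls m B → Disjoint A B → 0 < cnt d A B

/-- the deviations are at most `δ` -/
def PD (L : Finset (Sym2 (Fin n)) → Finset (Sym2 (Fin n)) → ℝ) (d m t : ℕ) (δ : ℝ) : Prop :=
  ∀ (A B : Finset (Sym2 (Fin n))) (x y : Fin n), Cls d m t A → BCls m B → Disjoint A B → Val d A B x y →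
    |DL L d A B x y| ≤ δ

/-- the increments of `L` are small -/
def HG (L : Finset (Sym2 (Fin n)) → Finset (Sym2 (Fin n)) → ℝ) (d m t : ℕ) (C : ℝ) : Prop :=
  ∀ (A B : Finset (Sym2 (Fin n))) (x y : Fin n), Cls d m t A → BCls m B → Disjoint A B → Val d A B x y →
    |gL L d A B x y| ≤ C * (1 + t) ^ 2 / n

open scoped Classical in
/-- `L` satisfies the sum rule up to a small error -/
def HS (L : Finset (Sym2 (Fin n)) → Finset (Sym2 (Fin n)) → ℝ) (d m t : ℕ) (C τ : ℝ) : Prop :=
  ∀ (A B : Finset (Sym2 (Fin n))) (x : Fin n), Cls d m t A → BCls m B → Disjoint A B → dg A x < d →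
    |∑ z ∈ univ.filter (fun z => Val d A B x z), rd d A z * Real.exp (gL L d A B x z) - EE d A|
      ≤ EE d A * (C * (1 + t) ^ 6 * τ)

/-- `L` satisfies the switching identity up to a small error -/
def HF (L : Finset (Sym2 (Fin n)) → Finset (Sym2 (Fin n)) → ℝ) (d m t : ℕ) (C τ : ℝ) : Prop :=
  ∀ (A B : Finset (Sym2 (Fin n))) (x y z w : Fin n), Cls d m t A → BCls m B → Disjoint A B →
    Val d A B x y → Val d A B z w → Val d A B x z → Val d A B y w → x ≠ w → y ≠ z →
    |L (insert s(z, w) (insert s(x, y) A)) B - L (insert s(y, w) (insert s(x, z) A)) B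
      + Real.log (1 - fL L d (insert s(z, w) (insert s(x, y) A)) B x z
          - fL L d (insert s(z, w) (insert s(x, y) A)) B y w)
      - Real.log (1 - fL L d (insert s(y, w) (insert s(x, z) A)) B x y
          - fL L d (insert s(y, w) (insert s(x, z) A)) B z w)|
      ≤ C * (1 + t) ^ 6 * τ

end Pool.Agent.H698NC
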