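import Pool.Agent.H698NC.S
import Pool.Agent.H698NC.JA
import Pool.Agent.H698NC.Preds

set_option autoImplicit false

namespace Pool.Agent.H698NC

open Finset

namespace MK1

variable {n : ℕ}

theorem cls_insert {d m t : ℕ} {A B : Finset (Sym2 (Fin n))} {x z : Fin n} (hA : Cls d m t A)
    (hv : Val d A B x z) : Cls d m (t + 1) (insert s(x, z) A) := by
  have hdg := fun v => dg_insert A x z v hv.ne hv.nA
  refine ⟨?_, ?_, ?_, ?_⟩
  · intro e he
    rcases Finset.mem_insert.1 he with rfl | he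
    · rw [Sym2.mk_isDiag_iff]
      exact hv.ne
    · exact hA.nd e he
  · intro v
    rw [hdg v]
    split_ifs with h
    · rcases h with rfl | rfl
      · exact hv.hx
      · exact hv.hy
    · exact hA.led v
  · intro v
    rw [hdg v]
    have := hA.lem v
    split_ifs <;> omega
  · rw [Finset.card_insert_of_notMem hv.nA]
    have := hA.card
    omega

theorem pert (g D δ K : ℝ) (hD : |D| ≤ δ) (hδ : δ ≤ 1) (hg : |g| ≤ K) (hK : K ≤ 1) :
    |D - Real.exp g * (Real.exp D - 1)| ≤ δ ^ 2 + 4 * K * δ := by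
  have h1 : |Real.exp D - 1 - D| ≤ D ^ 2 := Real.abs_exp_sub_one_sub_id_le (hD.trans hδ)
  have h2 : |Real.exp D - 1| ≤ 2 * |D| := Real.abs_exp_sub_one_le (hD.trans hδ)
  have h3 : |Real.exp g - 1| ≤ 2 * |g| := Real.abs_exp_sub_one_le (hg.trans hK)
  have e : D - Real.exp g * (Real.exp D - 1) =
      -(Real.exp D - 1 - D) - (Real.exp g - 1) * (Real.exp D - 1) := by ring
  rw [e]
  have hδ0 : 0 ≤ δ := (abs_nonneg D).trans hD
  have hK0 : 0 ≤ K := (abs_nonneg g).trans hg
  calc |-(Real.exp D - 1 - D) - (Real.exp g - 1) * (Real.exp D - 1)|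
      ≤ |-(Real.exp D - 1 - D)| + |(Real.exp g - 1) * (Real.exp D - 1)| := abs_sub _ _
    _ = |Real.exp D - 1 - D| + |Real.exp g - 1| * |Real.exp D - 1| := by rw [abs_neg, abs_mul]
    _ ≤ δ ^ 2 + (2 * K) * (2 * δ) := by
        have h4 : D ^ 2 ≤ δ ^ 2 := by
          rw [← sq_abs D]
          exact pow_le_pow_left₀ (abs_nonneg D) hD 2
        have h5 : |Real.exp g - 1| * |Real.exp D - 1| ≤ (2 * K) * (2 * δ) :=
          mul_le_mul (by linarith) (by linarith) (abs_nonneg _) (by linarith)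
        linarith
    _ = δ ^ 2 + 4 * K * δ := by ring

open scoped Classical in
/-- TARGET -/
theorem avg_D (m : ℕ) (C0 : ℝ) (hC0 : 1 ≤ C0) : ∃ C : ℝ, 1 ≤ C ∧
    ∀ (n d t : ℕ) (L : Finset (Sym2 (Fin n)) → Finset (Sym2 (Fin n)) → ℝ) (τ δ : ℝ)
      (A B : Finset (Sym2 (Fin n))) (x : Fin n),
    m + 1 ≤ d → C * ((d : ℝ) + (1 + t) ^ 6) ≤ n → Cls d m t A → BCls m B → Disjoint A B → dg A x < d →
    0 ≤ τ → τ ≤ 1 → 0 ≤ δ → δ ≤ 1 → PosAll n d m t → PosAll n d m (t + 1) → HG L d m t C0 → HS L d m t C0 τ → PD L d m t δ →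
    |∑ z ∈ univ.filter (fun z => Val d A B x z), rd d A z * DL L d A B x z|
      ≤ EE d A * (C * ((1 + t) ^ 6 * τ + δ ^ 2 + (1 + t) ^ 2 * δ / n)) := by
  obtain ⟨C1, hC1, hlow⟩ := EE_lower m
  refine ⟨C1 + 4 * C0, by linarith, ?_⟩
  intro n d t L τ δ A B x hd hn hA hB hAB hx hτ0 hτ1 hδ0 hδ1 hpos hpos' hHG hHS hPD
  have ht1 : (1 : ℝ) ≤ 1 + t := by
    have := Nat.cast_nonneg (α := ℝ) t
    linarith
  have ht6 : (1 : ℝ) ≤ (1 + t) ^ 6 := one_le_pow₀ ht1
  have hd0 : (1 : ℝ) ≤ d := by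
    have : 1 ≤ d := by omega
    exact_mod_cast this
  have hsum : 0 ≤ (d : ℝ) + (1 + t) ^ 6 := by linarith
  have hn1 : C1 * ((d : ℝ) + (1 + t) ^ 6) ≤ n := by nlinarith
  have hn0 : C0 * ((d : ℝ) + (1 + t) ^ 6) ≤ n := by nlinarith
  have hnpos : (0 : ℝ) < n := by nlinarith
  have hE := hlow n d t A hd hn1 hA
  have hm2 : (0 : ℝ) < m + 2 := by positivity
  have hEpos : 0 < EE d A := by
    refine lt_of_lt_of_le ?_ hE
    positivity
  have hrx : 1 ≤ rd d A x := by
    unfold rd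
    have : (dg A x : ℝ) + 1 ≤ d := by exact_mod_cast hx
    linarith
  have hr0 : ∀ v, 0 ≤ rd d A v := by
    intro v
    unfold rd
    have : (dg A v : ℝ) ≤ d := by exact_mod_cast hA.led v
    linarith
  set V : Finset (Fin n) := univ.filter (fun z => Val d A B x z) with hV
  have hVv : ∀ z ∈ V, Val d A B x z := fun z hz => (Finset.mem_filter.1 hz).2
  have hcpos : (0 : ℝ) < cnt d A B := by exact_mod_cast hpos A B hA hB hAB
  -- the sum rule
  have hcnt : ∀ z ∈ V, (cnt d (insert s(x, z) A) B : ℝ) =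
      rd d A x * cnt d A B / EE d A * (rd d A z * Real.exp (gL L d A B x z) *
        Real.exp (DL L d A B x z)) := by
    intro z hz
    have hv := hVv z hz
    have hrz : 1 ≤ rd d A z := by
      unfold rd
      have : (dg A z : ℝ) + 1 ≤ d := by exact_mod_cast hv.hy
      linarith
    have hdis : Disjoint (insert s(x, z) A) B := by
      rw [Finset.disjoint_insert_left]
      exact ⟨hv.nB, hAB⟩
    have hc' : (0 : ℝ) < cnt d (insert s(x, z) A) B := by
      exact_mod_cast hpos' _ B (cls_insert hA hv) hB hdis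
    have hq : 0 < rd d A x * rd d A z / EE d A := by positivity
    have h1 : Real.log (cnt d (insert s(x, z) A) B) = Real.log (cnt d A B) +
        Real.log (rd d A x * rd d A z / EE d A) + (gL L d A B x z + DL L d A B x z) := by
      unfold gL DL
      ring
    have h2 : (cnt d (insert s(x, z) A) B : ℝ) = cnt d A B *
        (rd d A x * rd d A z / EE d A) *
        (Real.exp (gL L d A B x z) * Real.exp (DL L d A B x z)) := by
      rw [← Real.exp_log hc', h1, Real.exp_add, Real.exp_add, Real.exp_add, Real.exp_log hcpos,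
        Real.exp_log hq]
    rw [h2]
    ring
  have hrule := sum_rule_val d A B x hx
  have hE1 : ∑ z ∈ V, rd d A z * Real.exp (gL L d A B x z) * Real.exp (DL L d A B x z) =
      EE d A := by
    rw [Finset.sum_congr rfl hcnt, ← Finset.mul_sum] at hrule
    have h1 : rd d A x * cnt d A B ≠ 0 := by positivity
    have h2 : rd d A x * cnt d A B / EE d A * (∑ z ∈ V, rd d A z * Real.exp (gL L d A B x z) *
        Real.exp (DL L d A B x z)) = rd d A x * cnt d A B / EE d A * EE d A := by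
      rw [hrule, div_mul_cancel₀ _ hEpos.ne']
    exact mul_left_cancel₀ (div_ne_zero h1 hEpos.ne') h2
  have hHS' := hHS A B x hA hB hAB hx
  have h3 : |∑ z ∈ V, rd d A z * (Real.exp (gL L d A B x z) * (Real.exp (DL L d A B x z) - 1))| ≤
      EE d A * (C0 * (1 + t) ^ 6 * τ) := by
    have e : ∑ z ∈ V, rd d A z * (Real.exp (gL L d A B x z) * (Real.exp (DL L d A B x z) - 1)) =
        -(∑ z ∈ V, rd d A z * Real.exp (gL L d A B x z) - EE d A) := by
      rw [← hE1, ← Finset.sum_sub_distrib, ← Finset.sum_neg_distrib]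
      refine Finset.sum_congr rfl fun z _ => ?_
      ring
    rw [e, abs_neg]
    exact hHS'
  -- the perturbation
  set K : ℝ := C0 * (1 + t) ^ 2 / n with hK
  have hK1 : K ≤ 1 := by
    rw [hK, div_le_one hnpos]
    have h4 : (1 + (t : ℝ)) ^ 2 ≤ (1 + t) ^ 6 := pow_le_pow_right₀ ht1 (by norm_num)
    nlinarith
  have hpert : ∀ z ∈ V, |rd d A z * (DL L d A B x z - Real.exp (gL L d A B x z) *
      (Real.exp (DL L d A B x z) - 1))| ≤ rd d A z * (δ ^ 2 + 4 * K * δ) := by
    intro z hz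
    rw [abs_mul, abs_of_nonneg (hr0 z)]
    exact mul_le_mul_of_nonneg_left (pert _ _ δ K (hPD A B x z hA hB hAB (hVv z hz)) hδ1
      (hHG A B x z hA hB hAB (hVv z hz)) hK1) (hr0 z)
  have hsumV : ∑ z ∈ V, rd d A z ≤ EE d A := by
    rw [← sum_rd d A hA.nd]
    exact Finset.sum_le_sum_of_subset_of_nonneg (Finset.subset_univ _) fun v _ _ => hr0 v
  have hKδ : 0 ≤ δ ^ 2 + 4 * K * δ := by
    have : 0 ≤ K := by positivity
    positivity
  have h5 : |∑ z ∈ V, rd d A z * (DL L d A B x z - Real.exp (gL L d A B x z) *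
      (Real.exp (DL L d A B x z) - 1))| ≤ EE d A * (δ ^ 2 + 4 * K * δ) := by
    refine (Finset.abs_sum_le_sum_abs _ _).trans ((Finset.sum_le_sum hpert).trans ?_)
    rw [← Finset.sum_mul]
    exact mul_le_mul_of_nonneg_right hsumV hKδ
  have e : ∑ z ∈ V, rd d A z * DL L d A B x z =
      (∑ z ∈ V, rd d A z * (Real.exp (gL L d A B x z) * (Real.exp (DL L d A B x z) - 1))) +
      ∑ z ∈ V, rd d A z * (DL L d A B x z - Real.exp (gL L d A B x z) *
        (Real.exp (DL L d A B x z) - 1)) := by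
    rw [← Finset.sum_add_distrib]
    refine Finset.sum_congr rfl fun z _ => ?_
    ring
  rw [e]
  refine (abs_add_le _ _).trans ((add_le_add h3 h5).trans ?_)
  rw [← mul_add]
  refine mul_le_mul_of_nonneg_left ?_ hEpos.le
  have h6 : 0 ≤ (1 + (t : ℝ)) ^ 6 * τ := by positivity
  have h7 : 0 ≤ (1 + (t : ℝ)) ^ 2 * δ / n := by positivity
  have h8 : 4 * K * δ = 4 * C0 * ((1 + t) ^ 2 * δ / n) := by
    rw [hK]
    ring
  rw [h8]
  nlinarith [sq_nonneg δ]

end MK1

export MK1 (avg_D)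

end Pool.Agent.H698NC
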