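import Pool.Agent.H698NC.S
import Pool.Agent.H698NC.JA
import Pool.Agent.H698NC.Preds

set_option autoImplicit false

namespace Pool.Agent.H698NC

open Finset

namespace MK2

variable {n : ℕ}

theorem K2_log {a b : ℝ} (ha : 1 / 2 ≤ a) (hb : 1 / 2 ≤ b) :
    |Real.log a - Real.log b| ≤ 2 * |a - b| := by
  have h : ∀ a b : ℝ, 1 / 2 ≤ a → 1 / 2 ≤ b → Real.log a - Real.log b ≤ 2 * |a - b| := by
    intro a b ha hb
    have ha' : 0 < a := by linarith
    have hb' : 0 < b := by linarith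
    rw [← Real.log_div ha'.ne' hb'.ne']
    have h1 := Real.log_le_sub_one_of_pos (div_pos ha' hb')
    have h2 : a / b - 1 = (a - b) / b := by field_simp
    rw [h2] at h1
    refine h1.trans ?_
    rw [div_le_iff₀ hb']
    nlinarith [le_abs_self (a - b), abs_nonneg (a - b)]
  rw [abs_le]
  constructor
  · have := h b a hb ha
    rw [abs_sub_comm] at this
    linarith
  · exact h a b ha hb

theorem K2_F {κ δ u1 u2 θ1 θ2 : ℝ} (hκ : κ ≤ 1 / 16) (hδ0 : 0 ≤ δ) (hδ : δ ≤ 1)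
    (hu1 : 0 ≤ u1) (hu1' : u1 ≤ κ) (hu2 : 0 ≤ u2) (hu2' : u2 ≤ κ)
    (hθ1 : |θ1| ≤ δ) (hθ2 : |θ2| ≤ δ) :
    1 / 2 ≤ 1 - u1 * Real.exp θ1 - u2 * Real.exp θ2 ∧
    |Real.log (1 - u1 - u2) - Real.log (1 - u1 * Real.exp θ1 - u2 * Real.exp θ2)| ≤ 8 * κ * δ := by
  have he : ∀ θ : ℝ, |θ| ≤ δ → |Real.exp θ - 1| ≤ 2 * δ := by
    intro θ hθ
    exact (Real.abs_exp_sub_one_le (hθ.trans hδ)).trans (by linarith)
  have e1 := he θ1 hθ1
  have e2 := he θ2 hθ2
  have e1' := abs_le.1 e1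
  have e2' := abs_le.1 e2
  have hb : 1 / 2 ≤ 1 - u1 * Real.exp θ1 - u2 * Real.exp θ2 := by
    have h1 : u1 * Real.exp θ1 ≤ 1 / 16 * 3 :=
      mul_le_mul (hu1'.trans hκ) (by linarith) (Real.exp_pos _).le (by norm_num)
    have h2 : u2 * Real.exp θ2 ≤ 1 / 16 * 3 :=
      mul_le_mul (hu2'.trans hκ) (by linarith) (Real.exp_pos _).le (by norm_num)
    linarith
  refine ⟨hb, (K2_log (by linarith) hb).trans ?_⟩
  have h3 : (1 - u1 - u2) - (1 - u1 * Real.exp θ1 - u2 * Real.exp θ2) =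
      u1 * (Real.exp θ1 - 1) + u2 * (Real.exp θ2 - 1) := by ring
  rw [h3]
  have h4 : |u1 * (Real.exp θ1 - 1) + u2 * (Real.exp θ2 - 1)| ≤ κ * (2 * δ) + κ * (2 * δ) := by
    refine (abs_add_le _ _).trans (add_le_add ?_ ?_)
    · rw [abs_mul, abs_of_nonneg hu1]
      exact mul_le_mul hu1' e1 (abs_nonneg _) (hu1.trans hu1')
    · rw [abs_mul, abs_of_nonneg hu2]
      exact mul_le_mul hu2' e2 (abs_nonneg _) (hu1.trans hu1')
  nlinarith

theorem K2_an {a1 a2 κ δ u1 u2 v1 v2 θ1 θ2 φ1 φ2 : ℝ} (ha1 : 0 < a1) (ha2 : 0 < a2)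
    (hκ : κ ≤ 1 / 16) (hδ0 : 0 ≤ δ) (hδ : δ ≤ 1)
    (hu1 : 0 ≤ u1) (hu1' : u1 ≤ κ) (hu2 : 0 ≤ u2) (hu2' : u2 ≤ κ)
    (hv1 : 0 ≤ v1) (hv1' : v1 ≤ κ) (hv2 : 0 ≤ v2) (hv2' : v2 ≤ κ)
    (hθ1 : |θ1| ≤ δ) (hθ2 : |θ2| ≤ δ) (hφ1 : |φ1| ≤ δ) (hφ2 : |φ2| ≤ δ)
    (h : a1 + a2 * (v1 * Real.exp φ1) + a2 * (v2 * Real.exp φ2) =
      a2 + a1 * (u1 * Real.exp θ1) + a1 * (u2 * Real.exp θ2)) (l : ℝ) :
    |Real.log a1 - Real.log a2 - l| ≤
      |l + Real.log (1 - u1 - u2) - Real.log (1 - v1 - v2)| + 16 * κ * δ := by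
  obtain ⟨h1, h2⟩ := K2_F hκ hδ0 hδ hu1 hu1' hu2 hu2' hθ1 hθ2
  obtain ⟨h3, h4⟩ := K2_F hκ hδ0 hδ hv1 hv1' hv2 hv2' hφ1 hφ2
  have h5 : a1 * (1 - u1 * Real.exp θ1 - u2 * Real.exp θ2) =
      a2 * (1 - v1 * Real.exp φ1 - v2 * Real.exp φ2) := by linarith
  have h6 := congrArg Real.log h5
  rw [Real.log_mul ha1.ne' (by linarith), Real.log_mul ha2.ne' (by linarith)] at h6
  have h2' := abs_le.1 h2
  have h4' := abs_le.1 h4
  have h7 := abs_le.1 (le_refl |l + Real.log (1 - u1 - u2) - Real.log (1 - v1 - v2)|)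
  rw [abs_le]
  constructor <;> linarith [h2'.1, h2'.2, h4'.1, h4'.2, h7.1, h7.2]

theorem K2_cls {d m t : ℕ} {A : Finset (Sym2 (Fin n))} {x y : Fin n} (hA : Cls d m t A)
    (hne : x ≠ y) (hxy : s(x, y) ∉ A) (hx : dg A x < d) (hy : dg A y < d) :
    Cls d m (t + 1) (insert s(x, y) A) := by
  refine ⟨?_, ?_, ?_, ?_⟩
  · intro e he
    rcases Finset.mem_insert.1 he with rfl | h
    · simpa using hne
    · exact hA.nd e h
  · intro v
    rw [dg_insert A x y v hne hxy]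
    split_ifs with h
    · rcases h with rfl | rfl <;> omega
    · have := hA.led v
      omega
  · intro v
    rw [dg_insert A x y v hne hxy]
    have := hA.lem v
    split_ifs with h <;> omega
  · rw [Finset.card_insert_of_notMem hxy]
    have := hA.card
    omega

theorem K2_mono {d m t : ℕ} {A : Finset (Sym2 (Fin n))} (hA : Cls d m t A) :
    Cls d m (t + 1) A :=
  ⟨hA.nd, hA.led, fun v => (hA.lem v).trans (by omega), hA.card.trans (by omega)⟩

theorem K2_step {m d t : ℕ} (L : Finset (Sym2 (Fin n)) → Finset (Sym2 (Fin n)) → ℝ)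
    (A B : Finset (Sym2 (Fin n))) (x z : Fin n) {C0 δ : ℝ} (hn : 0 < (n : ℝ))
    (hd : m + 1 ≤ d) (hA : Cls d m (t + 2) A) (hB : BCls m B) (hAB : Disjoint A B)
    (hE : (n : ℝ) * d / (m + 2) ≤ EE d A)
    (hne : x ≠ z) (hxA : s(x, z) ∉ A) (hxB : s(x, z) ∉ B)
    (hPos : PosAll n d m (t + 3)) (hG : HG L d m (t + 2) C0)
    (hsm : C0 * (1 + ((t + 2 : ℕ) : ℝ)) ^ 2 / n ≤ 1)
    (hPD : PD L d m (t + 2) δ) (hδ : 0 ≤ δ) :
    0 ≤ fL L d A B x z ∧ fL L d A B x z ≤ 3 * (m + 2) * (d / n) ∧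
    ∃ θ : ℝ, |θ| ≤ δ ∧
      (cnt d (insert s(x, z) A) B : ℝ) = cnt d A B * (fL L d A B x z * Real.exp θ) := by
  have hd' : (0 : ℝ) < d := by
    have : 0 < d := by omega
    exact_mod_cast this
  have hm : (0 : ℝ) < (m : ℝ) + 2 := by positivity
  have hE0 : 0 < EE d A := lt_of_lt_of_le (by positivity) hE
  have hb0 : (0 : ℝ) ≤ 3 * (m + 2) * (d / n) := by positivity
  by_cases hx : dg A x < d
  · by_cases hz : dg A z < d
    · have V : Val d A B x z := ⟨hne, hxA, hxB, hx, hz⟩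
      have rx : 0 < rd d A x := by
        have : (dg A x : ℝ) < d := by exact_mod_cast hx
        unfold rd; linarith
      have rz : 0 < rd d A z := by
        have : (dg A z : ℝ) < d := by exact_mod_cast hz
        unfold rd; linarith
      have rx' : rd d A x ≤ d := by
        have : (0 : ℝ) ≤ dg A x := by positivity
        unfold rd; linarith
      have rz' : rd d A z ≤ d := by
        have : (0 : ℝ) ≤ dg A z := by positivity
        unfold rd; linarith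
      have hg : |gL L d A B x z| ≤ 1 := (hG A B x z hA hB hAB V).trans hsm
      have hr : 0 < rd d A x * rd d A z / EE d A := by positivity
      have c0 : (0 : ℝ) < cnt d A B := by exact_mod_cast hPos A B (K2_mono hA) hB hAB
      have c1 : (0 : ℝ) < cnt d (insert s(x, z) A) B := by
        have := hPos (insert s(x, z) A) B (K2_cls hA hne hxA hx hz) hB
          (Finset.disjoint_insert_left.2 ⟨hxB, hAB⟩)
        exact_mod_cast this
      refine ⟨?_, ?_, DL L d A B x z, hPD A B x z hA hB hAB V, ?_⟩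
      · unfold fL; positivity
      · have h1 : rd d A x * rd d A z / EE d A ≤ (m + 2) * (d / n) := by
          calc rd d A x * rd d A z / EE d A ≤ (d * d) / ((n : ℝ) * d / (m + 2)) :=
                div_le_div₀ (by positivity) (mul_le_mul rx' rz' rz.le hd'.le) (by positivity) hE
            _ = (m + 2) * (d / n) := by field_simp
        have h2 : Real.exp (gL L d A B x z) ≤ 3 := by
          have := abs_le.1 hg
          exact (Real.exp_le_exp.2 this.2).trans (by linarith [Real.exp_one_lt_d9])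
        calc fL L d A B x z ≤ (m + 2) * (d / n) * 3 :=
              mul_le_mul h1 h2 (Real.exp_pos _).le (by positivity)
          _ = 3 * (m + 2) * (d / n) := by ring
      · have h3 : gL L d A B x z + DL L d A B x z =
            Real.log (cnt d (insert s(x, z) A) B) - Real.log (cnt d A B) -
              Real.log (rd d A x * rd d A z / EE d A) := by
          unfold gL DL; ring
        unfold fL
        rw [mul_assoc, ← Real.exp_add, h3, Real.exp_sub, Real.exp_sub, Real.exp_log c1,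
          Real.exp_log c0, Real.exp_log hr]
        field_simp
    · have h1 : dg A z = d := le_antisymm (hA.led z) (not_lt.1 hz)
      have h2 : fL L d A B x z = 0 := by
        unfold fL rd; rw [h1]; simp
      rw [h2]
      refine ⟨le_rfl, hb0, 0, by simpa using hδ, ?_⟩
      rw [cnt_zero d (insert s(x, z) A) B z (by rw [dg_insert A x z z hne hxA]; simp [h1])]
      simp
  · have h1 : dg A x = d := le_antisymm (hA.led x) (not_lt.1 hx)
    have h2 : fL L d A B x z = 0 := by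
      unfold fL rd; rw [h1]; simp
    rw [h2]
    refine ⟨le_rfl, hb0, 0, by simpa using hδ, ?_⟩
    rw [cnt_zero d (insert s(x, z) A) B x (by rw [dg_insert A x z x hne hxA]; simp [h1])]
    simp

theorem K2_two {d m t : ℕ} {A B : Finset (Sym2 (Fin n))} {x y z w : Fin n} (hA : Cls d m t A)
    (hAB : Disjoint A B) (V1 : Val d A B x y) (V2 : Val d A B z w) (hxz : x ≠ z) (hxw : x ≠ w)
    (hyz : y ≠ z) (hyw : y ≠ w) :
    Cls d m (t + 2) (insert s(z, w) (insert s(x, y) A)) ∧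
      Disjoint (insert s(z, w) (insert s(x, y) A)) B := by
  have h1 := K2_cls hA V1.ne V1.nA V1.hx V1.hy
  have h2 : s(z, w) ∉ insert s(x, y) A := by
    rw [Finset.mem_insert]
    rintro (h | h)
    · rw [Sym2.eq_iff] at h
      rcases h with ⟨rfl, _⟩ | ⟨rfl, _⟩
      · exact hxz rfl
      · exact hyz rfl
    · exact V2.nA h
  refine ⟨K2_cls h1 V2.ne h2 ?_ ?_, ?_⟩
  · rw [dg_insert A x y z V1.ne V1.nA, if_neg]
    · simpa using V2.hx
    · rintro (h | h)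
      · exact hxz h.symm
      · exact hyz h.symm
  · rw [dg_insert A x y w V1.ne V1.nA, if_neg]
    · simpa using V2.hy
    · rintro (h | h)
      · exact hxw h.symm
      · exact hyw h.symm
  · rw [Finset.disjoint_insert_left, Finset.disjoint_insert_left]
    exact ⟨V2.nB, V1.nB, hAB⟩

theorem K2_num {CE C0 M n d t : ℝ} (hCE : 1 ≤ CE) (hC0 : 1 ≤ C0) (hM : 2 ≤ M) (ht : 0 ≤ t)
    (hd : 1 ≤ d) (hn : (9 * C0 + 729 * CE + 48 * M) * (d + (1 + t) ^ 6) ≤ n) :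
    0 < n ∧ CE * (d + (1 + (t + 2)) ^ 6) ≤ n ∧ C0 * (1 + (t + 2)) ^ 2 / n ≤ 1 ∧
      3 * M * (d / n) ≤ 1 / 16 := by
  have h1 : (1 : ℝ) ≤ (1 + t) ^ 6 := one_le_pow₀ (by linarith)
  have h2 : (1 + (t + 2)) ^ 6 ≤ 729 * (1 + t) ^ 6 := by
    calc (1 + (t + 2)) ^ 6 ≤ (3 * (1 + t)) ^ 6 :=
          pow_le_pow_left₀ (by linarith) (by linarith) 6
      _ = 729 * (1 + t) ^ 6 := by ring
  have h3 : (1 + (t + 2)) ^ 2 ≤ 9 * (1 + t) ^ 6 := by
    calc (1 + (t + 2)) ^ 2 ≤ (3 * (1 + t)) ^ 2 :=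
          pow_le_pow_left₀ (by linarith) (by linarith) 2
      _ = 9 * (1 + t) ^ 2 := by ring
      _ ≤ 9 * (1 + t) ^ 6 := by
          have : (1 + t) ^ 2 ≤ (1 + t) ^ 6 := pow_le_pow_right₀ (by linarith) (by norm_num)
          linarith
  set s := (1 + t) ^ 6 with hs
  have p1 : 0 ≤ CE * d := by positivity
  have p2 : 0 ≤ CE * s := by positivity
  have p3 : 0 ≤ C0 * d := by positivity
  have p4 : 0 ≤ C0 * s := by positivity
  have p5 : 0 ≤ M * d := by positivity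
  have p6 : 0 ≤ M * s := by positivity
  have q : (9 * C0 + 729 * CE + 48 * M) * (d + s) =
    9 * (C0 * d) + 9 * (C0 * s) + 729 * (CE * d) + 729 * (CE * s) + 48 * (M * d) + 48 * (M * s) := by
    ring
  rw [q] at hn
  have p7 : 1 ≤ CE * d := by nlinarith
  have hn0 : 0 < n := by linarith
  refine ⟨hn0, ?_, ?_, ?_⟩
  · have : CE * (1 + (t + 2)) ^ 6 ≤ CE * (729 * s) := mul_le_mul_of_nonneg_left h2 (by linarith)
    linarith
  · rw [div_le_one hn0]
    have : C0 * (1 + (t + 2)) ^ 2 ≤ C0 * (9 * s) := mul_le_mul_of_nonneg_left h3 (by linarith)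
    linarith
  · rw [← mul_div_assoc, div_le_iff₀ hn0]
    linarith

/-- TARGET -/
theorem four_D (m : ℕ) (C0 : ℝ) (hC0 : 1 ≤ C0) : ∃ C : ℝ, 1 ≤ C ∧
    ∀ (n d t : ℕ) (L : Finset (Sym2 (Fin n)) → Finset (Sym2 (Fin n)) → ℝ) (τ δ : ℝ)
      (A B : Finset (Sym2 (Fin n))) (x y z w : Fin n),
    m + 1 ≤ d → C * ((d : ℝ) + (1 + t) ^ 6) ≤ n → Cls d m t A → BCls m B → Disjoint A B →
    Val d A B x y → Val d A B z w → Val d A B x z → Val d A B y w → x ≠ w → y ≠ z →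
    0 ≤ τ → τ ≤ 1 → 0 ≤ δ → δ ≤ 1 → PosAll n d m (t + 3) → HG L d m (t + 2) C0 → HF L d m t C0 τ → PD L d m (t + 2) δ →
    |DL L d A B x y + DL L d (insert s(x, y) A) B z w - DL L d A B x z - DL L d (insert s(x, z) A) B y w|
      ≤ C * ((1 + t) ^ 6 * τ + d * δ / n) := by
  obtain ⟨CE, hCE, hE⟩ := EE_lower m
  have hM : (2 : ℝ) ≤ (m : ℝ) + 2 := by
    have : (0 : ℝ) ≤ m := by positivity
    linarith
  refine ⟨9 * C0 + 729 * CE + 48 * (m + 2), by linarith, ?_⟩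
  intro n d t L τ δ A B x y z w hd hn hA hB hAB Vxy Vzw Vxz Vyw hxw hyz hτ0 hτ1 hδ0 hδ1 hPos hG hF hPD
  have ht : (0 : ℝ) ≤ t := by positivity
  have hd1 : (1 : ℝ) ≤ d := by
    have : 1 ≤ d := by omega
    exact_mod_cast this
  obtain ⟨hn0, hn1, hn2, hn3⟩ := K2_num hCE hC0 hM ht hd1 hn
  have hcast : ((t + 2 : ℕ) : ℝ) = (t : ℝ) + 2 := by push_cast; ring
  have hxy := Vxy.ne
  have hzw := Vzw.ne
  have hxz := Vxz.ne
  have hyw := Vyw.ne
  obtain ⟨c1, d1⟩ := K2_two hA hAB Vxy Vzw hxz hxw hyz hyw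
  obtain ⟨c2, d2⟩ := K2_two hA hAB Vxz Vyw hxy hxw hyz.symm hzw
  have E1 := hE n d (t + 2) _ hd (by rw [hcast]; exact hn1) c1
  have E2 := hE n d (t + 2) _ hd (by rw [hcast]; exact hn1) c2
  have hsm : C0 * (1 + ((t + 2 : ℕ) : ℝ)) ^ 2 / n ≤ 1 := by rw [hcast]; exact hn2
  have nm : ∀ {a b c e : Fin n}, (a ≠ c ∨ b ≠ e) → (a ≠ e ∨ b ≠ c) → s(a, b) ≠ s(c, e) := by
    intro a b c e h1 h2 h3
    rw [Sym2.eq_iff] at h3
    rcases h3 with ⟨rfl, rfl⟩ | ⟨rfl, rfl⟩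
    · rcases h1 with h | h <;> exact h rfl
    · rcases h2 with h | h <;> exact h rfl
  have n1 : s(x, z) ∉ insert s(z, w) (insert s(x, y) A) := by
    simp only [Finset.mem_insert, not_or]
    exact ⟨nm (.inl hxz) (.inl hxw), nm (.inr hyz.symm) (.inl hxy), Vxz.nA⟩
  have n2 : s(y, w) ∉ insert s(z, w) (insert s(x, y) A) := by
    simp only [Finset.mem_insert, not_or]
    exact ⟨nm (.inl hyz) (.inl hyw), nm (.inl hxy.symm) (.inr hxw.symm), Vyw.nA⟩
  have n3 : s(x, y) ∉ insert s(y, w) (insert s(x, z) A) := by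
    simp only [Finset.mem_insert, not_or]
    exact ⟨nm (.inl hxy) (.inl hxw), nm (.inr hyz) (.inl hxz), Vxy.nA⟩
  have n4 : s(z, w) ∉ insert s(y, w) (insert s(x, z) A) := by
    simp only [Finset.mem_insert, not_or]
    exact ⟨nm (.inl hyz.symm) (.inl hzw), nm (.inl hxz.symm) (.inr hxw.symm), Vzw.nA⟩
  obtain ⟨u1, u1', θ1, hθ1, e1⟩ := K2_step L _ B x z hn0 hd c1 hB d1 E1 hxz n1 Vxz.nB hPos hG hsm hPD hδ0
  obtain ⟨u2, u2', θ2, hθ2, e2⟩ := K2_step L _ B y w hn0 hd c1 hB d1 E1 hyw n2 Vyw.nB hPos hG hsm hPD hδ0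
  obtain ⟨v1, v1', φ1, hφ1, e3⟩ := K2_step L _ B x y hn0 hd c2 hB d2 E2 hxy n3 Vxy.nB hPos hG hsm hPD hδ0
  obtain ⟨v2, v2', φ2, hφ2, e4⟩ := K2_step L _ B z w hn0 hd c2 hB d2 E2 hzw n4 Vzw.nB hPos hG hsm hPD hδ0
  have a1 : (0 : ℝ) < cnt d (insert s(z, w) (insert s(x, y) A)) B := by
    exact_mod_cast hPos _ B (K2_mono c1) hB d1
  have a2 : (0 : ℝ) < cnt d (insert s(y, w) (insert s(x, z) A)) B := by
    exact_mod_cast hPos _ B (K2_mono c2) hB d2
  have hfp := four_point d A B x y z w hxy hxz hxw hyz hyw hzw Vxy.nA Vzw.nA Vxz.nA Vyw.nA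
    Vxy.nB Vzw.nB Vxz.nB Vyw.nB
  have hfp' := congrArg (fun k : ℕ => (k : ℝ)) hfp
  simp only [Nat.cast_add] at hfp'
  rw [e1, e2, e3, e4] at hfp'
  have key := K2_an a1 a2 hn3 hδ0 hδ1 u1 u1' u2 u2' v1 v1' v2 v2' hθ1 hθ2 hφ1 hφ2 hfp'
    (L (insert s(z, w) (insert s(x, y) A)) B - L (insert s(y, w) (insert s(x, z) A)) B)
  have hFF := hF A B x y z w hA hB hAB Vxy Vzw Vxz Vyw hxw hyz
  have hq : DL L d A B x y + DL L d (insert s(x, y) A) B z w - DL L d A B x z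
      - DL L d (insert s(x, z) A) B y w =
      Real.log (cnt d (insert s(z, w) (insert s(x, y) A)) B)
        - Real.log (cnt d (insert s(y, w) (insert s(x, z) A)) B)
        - (L (insert s(z, w) (insert s(x, y) A)) B - L (insert s(y, w) (insert s(x, z) A)) B) := by
    unfold DL; ring
  rw [hq]
  refine key.trans ((add_le_add hFF le_rfl).trans ?_)
  have k1 : (0 : ℝ) ≤ (1 + (t : ℝ)) ^ 6 * τ := by positivity
  have k2 : (0 : ℝ) ≤ (d : ℝ) * δ / n := by positivity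
  have k3 : C0 * (1 + (t : ℝ)) ^ 6 * τ + 16 * (3 * ((m : ℝ) + 2) * (d / n)) * δ =
      C0 * ((1 + (t : ℝ)) ^ 6 * τ) + (48 * ((m : ℝ) + 2)) * ((d : ℝ) * δ / n) := by ring
  have k4 : C0 * ((1 + (t : ℝ)) ^ 6 * τ) ≤
      (9 * C0 + 729 * CE + 48 * ((m : ℝ) + 2)) * ((1 + (t : ℝ)) ^ 6 * τ) :=
    mul_le_mul_of_nonneg_right (by linarith) k1
  have k5 : (48 * ((m : ℝ) + 2)) * ((d : ℝ) * δ / n) ≤
      (9 * C0 + 729 * CE + 48 * ((m : ℝ) + 2)) * ((d : ℝ) * δ / n) :=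
    mul_le_mul_of_nonneg_right (by linarith) k2
  rw [k3]
  calc _ ≤ (9 * C0 + 729 * CE + 48 * ((m : ℝ) + 2)) * ((1 + (t : ℝ)) ^ 6 * τ) +
        (9 * C0 + 729 * CE + 48 * ((m : ℝ) + 2)) * ((d : ℝ) * δ / n) := add_le_add k4 k5
    _ = _ := by ring

end MK2

export MK2 (four_D)

end Pool.Agent.H698NC
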