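import Pool.Agent.H698NC.K1
import Pool.Agent.H698NC.K2

set_option autoImplicit false

namespace Pool.Agent.H698NC

open Finset

namespace MK3

variable {n : ℕ}

theorem s_rd_nonneg {d m t : ℕ} {A : Finset (Sym2 (Fin n))} (hA : Cls d m t A) (v : Fin n) :
    0 ≤ rd d A v := by
  unfold rd
  have h : ((dg A v : ℕ) : ℝ) ≤ d := by exact_mod_cast hA.led v
  linarith

theorem s_rd_le (d : ℕ) (A : Finset (Sym2 (Fin n))) (v : Fin n) : rd d A v ≤ d := by
  unfold rd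
  have : (0 : ℝ) ≤ dg A v := Nat.cast_nonneg _
  linarith

theorem s_cls_mono {d m t : ℕ} {A : Finset (Sym2 (Fin n))} (hA : Cls d m t A) : Cls d m (t + 1) A :=
  ⟨hA.nd, hA.led, fun v => (hA.lem v).trans (by omega), hA.card.trans (by omega)⟩

theorem s_PD_mono {L : Finset (Sym2 (Fin n)) → Finset (Sym2 (Fin n)) → ℝ} {d m t : ℕ} {δ : ℝ}
    (h : PD L d m (t + 1) δ) : PD L d m t δ :=
  fun A B x y hA hB hD hV => h A B x y (s_cls_mono hA) hB hD hV

theorem s_Pos_mono {d m t : ℕ} (h : PosAll n d m (t + 1)) : PosAll n d m t :=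
  fun A B hA hB hD => h A B (s_cls_mono hA) hB hD

theorem s_cls_insert {d m t : ℕ} {A B : Finset (Sym2 (Fin n))} {x y : Fin n} (hA : Cls d m t A)
    (hV : Val d A B x y) : Cls d m (t + 1) (insert s(x, y) A) := by
  constructor
  · intro e he
    rcases Finset.mem_insert.1 he with rfl | he
    · rw [Sym2.mk_isDiag_iff]
      exact hV.ne
    · exact hA.nd e he
  · intro v
    rw [dg_insert A x y v hV.ne hV.nA]
    split_ifs with h
    · rcases h with rfl | rfl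
      · exact hV.hx
      · exact hV.hy
    · simpa using hA.led v
  · intro v
    rw [dg_insert A x y v hV.ne hV.nA]
    have := hA.lem v
    split_ifs <;> omega
  · rw [Finset.card_insert_of_notMem hV.nA]
    have := hA.card
    omega

theorem s_disj {d : ℕ} {A B : Finset (Sym2 (Fin n))} {x y : Fin n} (hD : Disjoint A B)
    (hV : Val d A B x y) : Disjoint (insert s(x, y) A) B := by
  rw [Finset.disjoint_insert_left]
  exact ⟨hV.nB, hD⟩

theorem s_nbr_card {d m t : ℕ} {A B : Finset (Sym2 (Fin n))} (hA : Cls d m t A) (hB : BCls m B)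
    (v : Fin n) : ((nbr (A ∪ B) v).card : ℝ) ≤ 2 * m + t := by
  have h1 : nbr (A ∪ B) v ⊆ nbr A v ∪ nbr B v := by
    intro w hw
    simp only [nbr, Finset.mem_filter, Finset.mem_univ, true_and, Finset.mem_union] at hw ⊢
    exact hw
  have h2 := (Finset.card_le_card h1).trans (Finset.card_union_le _ _)
  have h3 := hA.lem v
  have h4 := hB.lem v
  unfold dg at h3 h4
  have : (nbr (A ∪ B) v).card ≤ 2 * m + t := by omega
  exact_mod_cast this

theorem s_T_card {d m t : ℕ} {A B : Finset (Sym2 (Fin n))} (hA : Cls d m t A) (hB : BCls m B)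
    (p q v : Fin n) : ((({p, q} : Finset (Fin n)) ∪ nbr (A ∪ B) v).card : ℝ) ≤ 2 + 2 * m + t := by
  have h1 := Finset.card_union_le ({p, q} : Finset (Fin n)) (nbr (A ∪ B) v)
  have h2 : ({p, q} : Finset (Fin n)).card ≤ 2 := Finset.card_le_two
  have h3 := s_nbr_card hA hB v
  have h4 : (((({p, q} : Finset (Fin n)) ∪ nbr (A ∪ B) v).card : ℕ) : ℝ)
      ≤ 2 + (nbr (A ∪ B) v).card := by
    exact_mod_cast h1.trans (by omega)
  linarith

theorem s_sum_lower {d m t : ℕ} {A : Finset (Sym2 (Fin n))} (hA : Cls d m t A)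
    (U T : Finset (Fin n)) (h : ∀ w, w ∉ U → w ∈ T ∨ d ≤ dg A w) :
    EE d A - d * T.card ≤ ∑ w ∈ U, rd d A w := by
  classical
  rw [← sum_rd d A hA.nd]
  have h1 : ∑ w ∈ U, rd d A w + ∑ w ∈ Uᶜ, rd d A w = ∑ w, rd d A w := Finset.sum_add_sum_compl U _
  have h2 : ∑ w ∈ Uᶜ, rd d A w ≤ ∑ w ∈ T, (d : ℝ) := by
    calc ∑ w ∈ Uᶜ, rd d A w ≤ ∑ w ∈ Uᶜ, (if w ∈ T then (d : ℝ) else 0) := by
          apply Finset.sum_le_sum
          intro w hw
          rw [Finset.mem_compl] at hw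
          split_ifs with hT
          · exact s_rd_le d A w
          · rcases h w hw with h | h
            · exact absurd h hT
            · unfold rd
              have : (d : ℝ) ≤ dg A w := by exact_mod_cast h
              linarith
      _ ≤ ∑ w, (if w ∈ T then (d : ℝ) else 0) := by
          apply Finset.sum_le_sum_of_subset_of_nonneg (Finset.subset_univ _)
          intros
          split_ifs <;> positivity
      _ = ∑ w ∈ T, (d : ℝ) := by
          rw [← Finset.sum_filter]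
          congr 1
          ext
          simp
  rw [Finset.sum_const, nsmul_eq_mul] at h2
  have h3 := mul_comm (d : ℝ) T.card
  linarith

theorem s_sum_upper {d m t : ℕ} {A : Finset (Sym2 (Fin n))} (hA : Cls d m t A)
    (U : Finset (Fin n)) : ∑ w ∈ U, rd d A w ≤ EE d A := by
  rw [← sum_rd d A hA.nd]
  exact Finset.sum_le_sum_of_subset_of_nonneg (Finset.subset_univ _)
    (fun w _ _ => s_rd_nonneg hA w)

theorem s_diff (U V T : Finset (Fin n)) (F : Fin n → ℝ) (K : ℝ) (hK : 0 ≤ K) (hUV : U ⊆ V)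
    (hT : ∀ w ∈ V, w ∉ U → w ∈ T) (hF : ∀ w ∈ V, |F w| ≤ K) :
    |∑ w ∈ U, F w| ≤ |∑ w ∈ V, F w| + T.card * K := by
  classical
  have h1 : ∑ w ∈ V \ U, F w + ∑ w ∈ U, F w = ∑ w ∈ V, F w := Finset.sum_sdiff hUV
  have h2 : |∑ w ∈ V \ U, F w| ≤ T.card * K := by
    calc |∑ w ∈ V \ U, F w| ≤ ∑ w ∈ V \ U, |F w| := Finset.abs_sum_le_sum_abs _ _
      _ ≤ ∑ w ∈ V \ U, K := Finset.sum_le_sum (fun w hw => hF w (Finset.mem_sdiff.1 hw).1)
      _ = (V \ U).card * K := by rw [Finset.sum_const, nsmul_eq_mul]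
      _ ≤ T.card * K := by
        apply mul_le_mul_of_nonneg_right _ hK
        exact_mod_cast Finset.card_le_card
          (fun w hw => hT w (Finset.mem_sdiff.1 hw).1 (Finset.mem_sdiff.1 hw).2)
  have h3 : ∑ w ∈ U, F w = ∑ w ∈ V, F w + -∑ w ∈ V \ U, F w := by linarith
  rw [h3]
  refine (abs_add_le _ _).trans ?_
  rw [abs_neg]
  linarith

open scoped Classical in
/-- the allowed fourth vertices -/
noncomputable def s_W (d : ℕ) (A B : Finset (Sym2 (Fin n))) (x v q : Fin n) : Finset (Fin n) :=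
  univ.filter (fun w => w ≠ x ∧ w ≠ v ∧ w ≠ q ∧ s(v, w) ∉ A ∪ B ∧ s(q, w) ∉ A ∪ B ∧ dg A w < d)

theorem s_W_mem {d : ℕ} {A B : Finset (Sym2 (Fin n))} {x v q w : Fin n} :
    w ∈ s_W d A B x v q ↔ w ≠ x ∧ w ≠ v ∧ w ≠ q ∧ s(v, w) ∉ A ∪ B ∧ s(q, w) ∉ A ∪ B ∧ dg A w < d := by
  simp [s_W]

theorem s_W_symm (d : ℕ) (A B : Finset (Sym2 (Fin n))) (x v q : Fin n) :
    s_W d A B x v q = s_W d A B x q v := by
  ext w
  rw [s_W_mem, s_W_mem]
  tauto

open scoped Classical in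
theorem s_part {d m t : ℕ} {L : Finset (Sym2 (Fin n)) → Finset (Sym2 (Fin n)) → ℝ} {δ Y : ℝ}
    {A B : Finset (Sym2 (Fin n))} {x q v : Fin n} (hA : Cls d m t A) (hB : BCls m B)
    (hD : Disjoint A B) (hV : Val d A B x q) (hvx : v ≠ x) (hvq : v ≠ q) (hv : dg A v < d)
    (hδ : 0 ≤ δ) (hP : PD L d m (t + 1) δ)
    (hY : |∑ w ∈ univ.filter (fun w => Val d (insert s(x, q) A) B v w),
      rd d (insert s(x, q) A) w * DL L d (insert s(x, q) A) B v w| ≤ Y) :
    |∑ w ∈ s_W d A B x v q, rd d A w * DL L d (insert s(x, q) A) B v w|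
      ≤ Y + (2 + 2 * m + t) * (d * δ) := by
  have hA' := s_cls_insert hA hV
  have hD' := s_disj hD hV
  have hdv : dg (insert s(x, q) A) v = dg A v := by
    rw [dg_insert A x q v hV.ne hV.nA]
    simp [hvx, hvq]
  have hsum : ∑ w ∈ s_W d A B x v q, rd d A w * DL L d (insert s(x, q) A) B v w
      = ∑ w ∈ s_W d A B x v q, rd d (insert s(x, q) A) w * DL L d (insert s(x, q) A) B v w := by
    apply Finset.sum_congr rfl
    intro w hw
    rw [s_W_mem] at hw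
    rw [rd_insert d A x q w hV.ne hV.nA]
    simp [hw.1, hw.2.2.1]
  rw [hsum]
  have hK : 0 ≤ (d : ℝ) * δ := by positivity
  have key := s_diff (s_W d A B x v q) (univ.filter (fun w => Val d (insert s(x, q) A) B v w))
    (({x, q} : Finset (Fin n)) ∪ nbr (A ∪ B) q)
    (fun w => rd d (insert s(x, q) A) w * DL L d (insert s(x, q) A) B v w) (d * δ) hK ?_ ?_ ?_
  · have h2 := mul_le_mul_of_nonneg_right (s_T_card hA hB x q q) hK
    linarith
  · intro w hw
    rw [s_W_mem] at hw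
    obtain ⟨h1, h2, h3, h4, h5, h6⟩ := hw
    rw [Finset.mem_filter]
    refine ⟨Finset.mem_univ _, ⟨h2.symm, ?_, ?_, ?_, ?_⟩⟩
    · rw [Finset.mem_insert, not_or]
      refine ⟨?_, fun h => h4 (Finset.mem_union_left _ h)⟩
      intro h
      rw [Sym2.eq_iff] at h
      rcases h with ⟨h, _⟩ | ⟨h, _⟩
      · exact hvx h
      · exact hvq h
    · exact fun h => h4 (Finset.mem_union_right _ h)
    · rw [hdv]
      exact hv
    · rw [dg_insert A x q w hV.ne hV.nA]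
      simpa [h1, h3] using h6
  · intro w hw hw'
    rw [Finset.mem_filter] at hw
    have hw := hw.2
    by_contra hT
    rw [Finset.mem_union, not_or, Finset.mem_insert, Finset.mem_singleton, not_or] at hT
    apply hw'
    rw [s_W_mem]
    refine ⟨hT.1.1, hw.ne.symm, hT.1.2, ?_, ?_, ?_⟩
    · rw [Finset.mem_union, not_or]
      exact ⟨fun h => hw.nA (Finset.mem_insert_of_mem h), hw.nB⟩
    · intro h
      apply hT.2
      simp only [nbr, Finset.mem_filter, Finset.mem_univ, true_and]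
      exact h
    · have := hw.hy
      rw [dg_insert A x q w hV.ne hV.nA] at this
      omega
  · intro w hw
    rw [Finset.mem_filter] at hw
    have h1 := hP _ _ _ _ hA' hB hD' hw.2
    rw [abs_mul, abs_of_nonneg (s_rd_nonneg hA' w)]
    exact mul_le_mul (s_rd_le _ _ _) h1 (abs_nonneg _) (Nat.cast_nonneg _)

open scoped Classical in
/-- the weighted sum of the four point relations -/
theorem s_core {d m t : ℕ} {L : Finset (Sym2 (Fin n)) → Finset (Sym2 (Fin n)) → ℝ} {δ E Y0 Y1 ε : ℝ}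
    {A B : Finset (Sym2 (Fin n))} {x y : Fin n} (hA : Cls d m t A) (hB : BCls m B)
    (hD : Disjoint A B) (hV : Val d A B x y) (hδ : 0 ≤ δ) (hP : PD L d m (t + 1) δ)
    (hE : E = EE d A) (hEs : (d : ℝ) * (12 * (m + 1) * (1 + t)) ≤ E)
    (hY0 : |∑ z ∈ univ.filter (fun z => Val d A B x z), rd d A z * DL L d A B x z| ≤ Y0)
    (hY1 : ∀ (q v : Fin n), Val d A B x q → v ≠ x → v ≠ q → dg A v < d →
      |∑ w ∈ univ.filter (fun w => Val d (insert s(x, q) A) B v w),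
        rd d (insert s(x, q) A) w * DL L d (insert s(x, q) A) B v w| ≤ Y1)
    (hε : ∀ z w : Fin n, Val d A B z w → Val d A B x z → Val d A B y w → x ≠ w → y ≠ z →
      |DL L d A B x y + DL L d (insert s(x, y) A) B z w - DL L d A B x z
        - DL L d (insert s(x, z) A) B y w| ≤ ε) (hd : 1 ≤ d) :
    E ^ 2 / 2 * (|DL L d A B x y| - ε) ≤ 2 * (E * Y1) + E * Y0 + E * ((8 + 8 * m + 4 * t) * (d * δ)) := by
  have hP0 := s_PD_mono hP
  have hE0 : 0 ≤ E := le_trans (by positivity) hEs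
  set Z : Finset (Fin n) := univ.filter (fun z => Val d A B x z ∧ z ≠ y) with hZ
  have hZm : ∀ z, z ∈ Z ↔ (Val d A B x z ∧ z ≠ y) := fun z => by simp [hZ]
  set r : Fin n → ℝ := fun v => rd d A v with hr
  have hr0 : ∀ v, 0 ≤ r v := fun v => s_rd_nonneg hA v
  set P1 : Fin n → ℝ := fun z => ∑ w ∈ s_W d A B x y z, r w with hP1
  set P2 : Fin n → ℝ := fun z => ∑ w ∈ s_W d A B x y z, r w * DL L d (insert s(x, z) A) B y w with hP2
  set P3 : Fin n → ℝ := fun z => ∑ w ∈ s_W d A B x y z, r w * DL L d (insert s(x, y) A) B z w with hP3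
  set D0 : ℝ := DL L d A B x y with hD0
  have hdδ : 0 ≤ (d : ℝ) * δ := by positivity
  -- bounds for each z
  have b1u : ∀ z, P1 z ≤ E := fun z => by
    rw [hE]
    exact s_sum_upper hA _
  have b1l : ∀ z, E - d * (3 + 4 * m + 2 * t) ≤ P1 z := by
    intro z
    have h1 := s_sum_lower hA (s_W d A B x y z)
      (({x} : Finset (Fin n)) ∪ ((({y} : Finset (Fin n)) ∪ nbr (A ∪ B) y) ∪
        (({z} : Finset (Fin n)) ∪ nbr (A ∪ B) z))) ?_
    · have c1 := Finset.card_union_le ({x} : Finset (Fin n)) ((({y} : Finset (Fin n)) ∪ nbr (A ∪ B) y) ∪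
        (({z} : Finset (Fin n)) ∪ nbr (A ∪ B) z))
      have c2 := Finset.card_union_le (({y} : Finset (Fin n)) ∪ nbr (A ∪ B) y)
        (({z} : Finset (Fin n)) ∪ nbr (A ∪ B) z)
      have c3 := Finset.card_union_le ({y} : Finset (Fin n)) (nbr (A ∪ B) y)
      have c4 := Finset.card_union_le ({z} : Finset (Fin n)) (nbr (A ∪ B) z)
      rw [Finset.card_singleton] at c1 c3 c4
      have c5 := s_nbr_card hA hB y
      have c6 := s_nbr_card hA hB z
      have c7 : (((({x} : Finset (Fin n)) ∪ ((({y} : Finset (Fin n)) ∪ nbr (A ∪ B) y) ∪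
        (({z} : Finset (Fin n)) ∪ nbr (A ∪ B) z))).card : ℕ) : ℝ)
          ≤ 3 + (nbr (A ∪ B) y).card + (nbr (A ∪ B) z).card := by
        exact_mod_cast (by omega)
      have c8 : (((({x} : Finset (Fin n)) ∪ ((({y} : Finset (Fin n)) ∪ nbr (A ∪ B) y) ∪
        (({z} : Finset (Fin n)) ∪ nbr (A ∪ B) z))).card : ℕ) : ℝ) ≤ 3 + 4 * m + 2 * t := by
        linarith
      have c9 := mul_le_mul_of_nonneg_left c8 (Nat.cast_nonneg d : (0 : ℝ) ≤ d)
      rw [hE]
      linarith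
    · intro w hw
      by_contra hc
      rw [not_or] at hc
      obtain ⟨hc, hc'⟩ := hc
      simp only [Finset.mem_union, Finset.mem_singleton, not_or, nbr, Finset.mem_filter,
        Finset.mem_univ, true_and] at hc
      apply hw
      rw [s_W_mem]
      refine ⟨hc.1, hc.2.1.1, hc.2.2.1, ?_, ?_, by omega⟩
      · rw [Finset.mem_union, not_or]
        exact hc.2.1.2
      · rw [Finset.mem_union, not_or]
        exact hc.2.2.2
  have b2 : ∀ z ∈ Z, |P2 z| ≤ Y1 + (2 + 2 * m + t) * (d * δ) := by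
    intro z hz
    rw [hZm] at hz
    exact s_part hA hB hD hz.1 hV.ne.symm hz.2.symm hV.hy hδ hP
      (hY1 z y hz.1 hV.ne.symm hz.2.symm hV.hy)
  have b3 : ∀ z ∈ Z, |P3 z| ≤ Y1 + (2 + 2 * m + t) * (d * δ) := by
    intro z hz
    rw [hZm] at hz
    have h := s_part hA hB hD hV hz.1.ne.symm hz.2 hz.1.hy hδ hP
      (hY1 y z hV hz.1.ne.symm hz.2 hz.1.hy)
    rw [s_W_symm] at h
    exact h
  -- the relation for each z
  have rel : ∀ z ∈ Z, |D0 * P1 z + P3 z - DL L d A B x z * P1 z - P2 z| ≤ ε * P1 z := by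
    intro z hz
    rw [hZm] at hz
    have e1 : D0 * P1 z + P3 z - DL L d A B x z * P1 z - P2 z
        = ∑ w ∈ s_W d A B x y z, r w * (D0 + DL L d (insert s(x, y) A) B z w - DL L d A B x z
          - DL L d (insert s(x, z) A) B y w) := by
      simp only [hP1, hP2, hP3]
      rw [Finset.mul_sum, Finset.mul_sum, ← Finset.sum_add_distrib, ← Finset.sum_sub_distrib,
        ← Finset.sum_sub_distrib]
      apply Finset.sum_congr rfl
      intro w _
      ring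
    rw [e1, hP1, Finset.mul_sum]
    refine (Finset.abs_sum_le_sum_abs _ _).trans (Finset.sum_le_sum ?_)
    intro w hw
    rw [s_W_mem] at hw
    obtain ⟨h1, h2, h3, h4, h5, h6⟩ := hw
    rw [Finset.mem_union, not_or] at h4 h5
    rw [abs_mul, abs_of_nonneg (hr0 w), mul_comm]
    apply mul_le_mul_of_nonneg_right _ (hr0 w)
    exact hε z w ⟨h3.symm, h5.1, h5.2, hz.1.hy, h6⟩ hz.1 ⟨h2.symm, h4.1, h4.2, hV.hy, h6⟩
      h1.symm hz.2.symm
  -- sums over z
  set S0 : ℝ := ∑ z ∈ Z, r z with hS0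
  set W : ℝ := ∑ z ∈ Z, r z * P1 z with hW
  have hS0u : S0 ≤ E := by
    rw [hE]
    exact s_sum_upper hA _
  have hS00 : 0 ≤ S0 := Finset.sum_nonneg (fun z _ => hr0 z)
  have hS0l : E - d * (2 + 2 * m + t) ≤ S0 := by
    have h1 := s_sum_lower hA Z (({x, y} : Finset (Fin n)) ∪ nbr (A ∪ B) x) ?_
    · have h2 := mul_le_mul_of_nonneg_left (s_T_card hA hB x y x) (Nat.cast_nonneg d : (0 : ℝ) ≤ d)
      rw [hE]
      linarith
    · intro w hw
      by_contra hc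
      rw [not_or] at hc
      obtain ⟨hc, hc'⟩ := hc
      simp only [Finset.mem_union, Finset.mem_insert, Finset.mem_singleton, not_or, nbr,
        Finset.mem_filter, Finset.mem_univ, true_and] at hc
      apply hw
      rw [hZm]
      exact ⟨⟨Ne.symm hc.1.1, hc.2.1, hc.2.2, hV.hx, by omega⟩, hc.1.2⟩
  have hκ : 0 ≤ E - d * (3 + 4 * m + 2 * t) := by
    have : (d : ℝ) * (3 + 4 * m + 2 * t) ≤ d * (12 * (m + 1) * (1 + t)) := by
      apply mul_le_mul_of_nonneg_left _ (Nat.cast_nonneg d)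
      have : (0 : ℝ) ≤ m * t := by positivity
      nlinarith [(Nat.cast_nonneg m : (0 : ℝ) ≤ m), (Nat.cast_nonneg t : (0 : ℝ) ≤ t)]
    linarith
  have hWl : E ^ 2 / 2 ≤ W := by
    have h1 : S0 * (E - d * (3 + 4 * m + 2 * t)) ≤ W := by
      rw [hS0, hW, Finset.sum_mul]
      exact Finset.sum_le_sum (fun z _ => mul_le_mul_of_nonneg_left (b1l z) (hr0 z))
    have h2 : (E - d * (2 + 2 * m + t)) * (E - d * (3 + 4 * m + 2 * t))
        ≤ S0 * (E - d * (3 + 4 * m + 2 * t)) := mul_le_mul_of_nonneg_right hS0l hκ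
    have h3 : (d : ℝ) * (5 + 6 * m + 3 * t) ≤ E / 2 := by
      have : (d : ℝ) * (5 + 6 * m + 3 * t) ≤ d * (6 * (m + 1) * (1 + t)) := by
        apply mul_le_mul_of_nonneg_left _ (Nat.cast_nonneg d)
        have : (0 : ℝ) ≤ m * t := by positivity
        nlinarith [(Nat.cast_nonneg m : (0 : ℝ) ≤ m), (Nat.cast_nonneg t : (0 : ℝ) ≤ t)]
      linarith
    have h4 : 0 ≤ (d : ℝ) * (2 + 2 * m + t) * (d * (3 + 4 * m + 2 * t)) := by positivity
    have h5 := mul_le_mul_of_nonneg_right h3 hE0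
    nlinarith
  have hW0 : 0 ≤ W := le_trans (by positivity) hWl
  set R1 : ℝ := ∑ z ∈ Z, r z * (DL L d A B x z * P1 z) with hR1
  set R2 : ℝ := ∑ z ∈ Z, r z * P2 z with hR2
  set R3 : ℝ := ∑ z ∈ Z, r z * P3 z with hR3
  have main : |D0 * W + R3 - R1 - R2| ≤ ε * W := by
    have e1 : D0 * W + R3 - R1 - R2
        = ∑ z ∈ Z, r z * (D0 * P1 z + P3 z - DL L d A B x z * P1 z - P2 z) := by
      rw [hW, hR1, hR2, hR3, Finset.mul_sum, ← Finset.sum_add_distrib, ← Finset.sum_sub_distrib,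
        ← Finset.sum_sub_distrib]
      apply Finset.sum_congr rfl
      intro z _
      ring
    rw [e1, hW, Finset.mul_sum]
    refine (Finset.abs_sum_le_sum_abs _ _).trans (Finset.sum_le_sum ?_)
    intro z hz
    rw [abs_mul, abs_of_nonneg (hr0 z)]
    have := mul_le_mul_of_nonneg_left (rel z hz) (hr0 z)
    linarith
  have bR : ∀ (P : Fin n → ℝ) (β : ℝ), (∀ z ∈ Z, |P z| ≤ β) → |∑ z ∈ Z, r z * P z| ≤ S0 * β := by
    intro P β hβ
    rw [hS0, Finset.sum_mul]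
    refine (Finset.abs_sum_le_sum_abs _ _).trans (Finset.sum_le_sum ?_)
    intro z hz
    rw [abs_mul, abs_of_nonneg (hr0 z)]
    exact mul_le_mul_of_nonneg_left (hβ z hz) (hr0 z)
  have hY1n : Z.Nonempty → 0 ≤ Y1 + (2 + 2 * m + t) * (d * δ) := by
    rintro ⟨z, hz⟩
    exact (abs_nonneg _).trans (b2 z hz)
  have bR' : ∀ (P : Fin n → ℝ), (∀ z ∈ Z, |P z| ≤ Y1 + (2 + 2 * m + t) * (d * δ)) →
      |∑ z ∈ Z, r z * P z| ≤ E * (Y1 + (2 + 2 * m + t) * (d * δ)) := by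
    intro P hβ
    rcases Z.eq_empty_or_nonempty with h | h
    · exfalso
      have : W = 0 := by rw [hW, h]; rfl
      have hE2 : E ^ 2 / 2 ≤ 0 := by rw [← this]; exact hWl
      have hE3 : 0 < E := by
        refine lt_of_lt_of_le ?_ hEs
        have : (1 : ℝ) ≤ d := by exact_mod_cast hd
        positivity
      have : 0 < E ^ 2 / 2 := by positivity
      linarith
    · exact (bR P _ hβ).trans (mul_le_mul_of_nonneg_right hS0u (hY1n h))
  have bR2 := bR' P2 b2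
  have bR3 := bR' P3 b3
  have bR1 : |R1| ≤ E * (d * (3 + 4 * m + 2 * t) * δ) + E * (Y0 + d * δ) := by
    have e1 : R1 = E * (∑ z ∈ Z, r z * DL L d A B x z)
        + ∑ z ∈ Z, r z * (DL L d A B x z * (P1 z - E)) := by
      rw [hR1, Finset.mul_sum, ← Finset.sum_add_distrib]
      apply Finset.sum_congr rfl
      intro z _
      ring
    have e2 : |∑ z ∈ Z, r z * (DL L d A B x z * (P1 z - E))|
        ≤ S0 * (δ * (d * (3 + 4 * m + 2 * t))) := by
      apply bR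
      intro z hz
      rw [hZm] at hz
      rw [abs_mul]
      apply mul_le_mul (hP0 _ _ _ _ hA hB hD hz.1) _ (abs_nonneg _) hδ
      rw [abs_le]
      constructor
      · linarith [b1l z]
      · have : 0 ≤ (d : ℝ) * (3 + 4 * m + 2 * t) := by positivity
        linarith [b1u z]
    have e3 : |∑ z ∈ Z, r z * DL L d A B x z| ≤ Y0 + d * δ := by
      have h := s_diff Z (univ.filter (fun z => Val d A B x z)) {y}
        (fun z => rd d A z * DL L d A B x z) (d * δ) hdδ ?_ ?_ ?_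
      · rw [Finset.card_singleton, Nat.cast_one, one_mul] at h
        linarith
      · intro z hz
        rw [hZm] at hz
        rw [Finset.mem_filter]
        exact ⟨Finset.mem_univ _, hz.1⟩
      · intro z hz hz'
        rw [Finset.mem_filter] at hz
        rw [hZm, not_and, not_not] at hz'
        rw [Finset.mem_singleton]
        exact hz' hz.2
      · intro z hz
        rw [Finset.mem_filter] at hz
        rw [abs_mul, abs_of_nonneg (s_rd_nonneg hA z)]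
        exact mul_le_mul (s_rd_le _ _ _) (hP0 _ _ _ _ hA hB hD hz.2) (abs_nonneg _)
          (Nat.cast_nonneg _)
    rw [e1]
    refine (abs_add_le _ _).trans ?_
    rw [abs_mul, abs_of_nonneg hE0]
    have h1 := mul_le_mul_of_nonneg_left e3 hE0
    have h2 : S0 * (δ * (d * (3 + 4 * m + 2 * t))) ≤ E * (δ * (d * (3 + 4 * m + 2 * t))) :=
      mul_le_mul_of_nonneg_right hS0u (by positivity)
    have h3 : E * (δ * (d * (3 + 4 * m + 2 * t))) = E * (d * (3 + 4 * m + 2 * t) * δ) := by ring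
    linarith
  -- conclusion
  have f1 : |D0| * W ≤ ε * W + |R1| + |R2| + |R3| := by
    have h1 : |D0| * W = |D0 * W| := by rw [abs_mul, abs_of_nonneg hW0]
    rw [h1]
    have h2 : D0 * W = (D0 * W + R3 - R1 - R2) + (-R3 + R1 + R2) := by ring
    rw [h2]
    refine (abs_add_le _ _).trans ?_
    have h3 : |-R3 + R1 + R2| ≤ |R3| + |R1| + |R2| := by
      refine (abs_add_le _ _).trans ?_
      have := abs_add_le (-R3) R1
      rw [abs_neg] at this
      linarith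
    linarith
  have f2 : (|D0| - ε) * W ≤ 2 * (E * Y1) + E * Y0 + E * ((8 + 8 * m + 4 * t) * (d * δ)) := by
    have h4 : E * (Y1 + (2 + 2 * m + t) * (d * δ)) + E * (Y1 + (2 + 2 * m + t) * (d * δ))
        + (E * (d * (3 + 4 * m + 2 * t) * δ) + E * (Y0 + d * δ))
        = 2 * (E * Y1) + E * Y0 + E * ((8 + 8 * m + 4 * t) * (d * δ)) := by ring
    have h5 : (|D0| - ε) * W = |D0| * W - ε * W := by ring
    linarith
  rcases le_or_gt (|D0| - ε) 0 with h | h
  · have g1 : E ^ 2 / 2 * (|D0| - ε) ≤ 0 := by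
      have : 0 ≤ E ^ 2 / 2 := by positivity
      exact mul_nonpos_of_nonneg_of_nonpos this h
    have hY0n : 0 ≤ Y0 := (abs_nonneg _).trans hY0
    have hEp : 0 < E := by
      refine lt_of_lt_of_le ?_ hEs
      have : (1 : ℝ) ≤ d := by exact_mod_cast hd
      positivity
    have hZn : Z.Nonempty := by
      by_contra hcon
      rw [Finset.not_nonempty_iff_eq_empty] at hcon
      have : W = 0 := by rw [hW, hcon]; rfl
      have h9 : 0 < E ^ 2 / 2 := by positivity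
      linarith
    have g2 := hY1n hZn
    have g3 : 0 ≤ E * (Y1 + (2 + 2 * m + t) * (d * δ)) := mul_nonneg hE0 g2
    have g4 : 0 ≤ E * Y0 := mul_nonneg hE0 hY0n
    have g5 : 0 ≤ E * ((4 + 4 * m + 2 * t) * (d * δ)) := by positivity
    have g6 : 2 * (E * Y1) + E * Y0 + E * ((8 + 8 * m + 4 * t) * (d * δ))
        = 2 * (E * (Y1 + (2 + 2 * m + t) * (d * δ))) + E * Y0 + E * ((4 + 4 * m + 2 * t) * (d * δ)) := by
      ring
    linarith
  · have := mul_le_mul_of_nonneg_right hWl h.le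
    linarith [mul_comm W (|D0| - ε)]

theorem s_num1 (m t : ℕ) : (8 + 8 * (m : ℝ) + 4 * t) ≤ 8 * (m + 1) * (1 + t) ^ 2 := by
  have h : 8 * ((m : ℝ) + 1) * (1 + t) ^ 2 - (8 + 8 * (m : ℝ) + 4 * t)
      = 16 * (m * t) + 12 * t + 8 * (m * t ^ 2) + 8 * t ^ 2 := by ring
  have h2 : (0 : ℝ) ≤ 16 * (m * t) + 12 * t + 8 * (m * t ^ 2) + 8 * t ^ 2 := by positivity
  linarith

theorem s_num2 {a b τ δ n : ℝ} {t : ℕ} (hτ : 0 ≤ τ) (hδ : 0 ≤ δ) (hn : 0 < n)
    (h6 : a ≤ 64 * (1 + t) ^ 6) (h2 : b ≤ 4 * (1 + t) ^ 2) :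
    a * τ + δ ^ 2 + b * δ / n ≤ 64 * ((1 + t) ^ 6 * τ + δ ^ 2 + (1 + t) ^ 2 * δ / n) := by
  have g1 := mul_le_mul_of_nonneg_right h6 hτ
  have g2 : b * δ / n ≤ 4 * (1 + t) ^ 2 * δ / n :=
    div_le_div_of_nonneg_right (mul_le_mul_of_nonneg_right h2 hδ) hn.le
  have g3 : 0 ≤ (1 + (t : ℝ)) ^ 2 * δ / n := by positivity
  have g4 : 4 * (1 + (t : ℝ)) ^ 2 * δ / n = 4 * ((1 + t) ^ 2 * δ / n) := by ring
  have g5 := sq_nonneg δ
  linarith

theorem s_num3 {m t d : ℕ} {n C E : ℝ} (hd : 1 ≤ d) (hC : 12 * ((m : ℝ) + 1) * (m + 2) ≤ C)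
    (hn : C * ((d : ℝ) + (1 + t) ^ 6) ≤ n) (hE : n * d / (m + 2) ≤ E) :
    (d : ℝ) * (12 * (m + 1) * (1 + t)) ≤ E := by
  refine le_trans ?_ hE
  rw [le_div_iff₀ (by positivity)]
  have hd1 : (1 : ℝ) ≤ d := by exact_mod_cast hd
  have h2 : (1 + (t : ℝ)) ≤ (d : ℝ) + (1 + t) ^ 6 := by
    have h3 : (1 + (t : ℝ)) ^ 1 ≤ (1 + t) ^ 6 :=
      pow_le_pow_right₀ (by linarith [(Nat.cast_nonneg t : (0 : ℝ) ≤ t)]) (by norm_num)
    rw [pow_one] at h3
    linarith
  have h1 : (12 * ((m : ℝ) + 1) * (m + 2)) * (1 + t) ≤ n :=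
    (mul_le_mul hC h2 (by positivity) (le_trans (by positivity) hC)).trans hn
  have h5 := mul_le_mul_of_nonneg_left h1 (Nat.cast_nonneg d : (0 : ℝ) ≤ d)
  calc (d : ℝ) * (12 * (m + 1) * (1 + t)) * (m + 2)
      = d * (12 * ((m : ℝ) + 1) * (m + 2) * (1 + t)) := by ring
    _ ≤ d * n := h5
    _ = n * d := by ring

theorem s_num4 {m t d : ℕ} {n E X τ δ : ℝ} (hn0 : 0 < n) (hE0 : 0 ≤ E) (hτ : 0 ≤ τ) (hδ : 0 ≤ δ)
    (hX : X = (1 + t) ^ 6 * τ + δ ^ 2 + (1 + t) ^ 2 * δ / n) (hE : n * d / (m + 2) ≤ E) :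
    (8 + 8 * (m : ℝ) + 4 * t) * (d * δ) ≤ E * (8 * (m + 1) * (m + 2) * X) := by
  have hdE : (d : ℝ) ≤ (m + 2) * E / n := by
    rw [le_div_iff₀ hn0]
    have := (div_le_iff₀ (by positivity : (0 : ℝ) < m + 2)).1 hE
    linarith
  have a2 : (d : ℝ) * δ ≤ (m + 2) * E / n * δ := mul_le_mul_of_nonneg_right hdE hδ
  have a3 : (8 + 8 * (m : ℝ) + 4 * t) * (d * δ)
      ≤ 8 * (m + 1) * (1 + t) ^ 2 * ((m + 2) * E / n * δ) :=
    mul_le_mul (s_num1 m t) a2 (by positivity) (by positivity)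
  have a4 : 8 * ((m : ℝ) + 1) * (1 + t) ^ 2 * ((m + 2) * E / n * δ)
      = E * (8 * (m + 1) * (m + 2) * ((1 + t) ^ 2 * δ / n)) := by
    ring
  have a5 : (1 + (t : ℝ)) ^ 2 * δ / n ≤ X := by
    rw [hX]
    have : 0 ≤ (1 + (t : ℝ)) ^ 6 * τ := by positivity
    linarith [sq_nonneg δ]
  rw [a4] at a3
  refine a3.trans ?_
  apply mul_le_mul_of_nonneg_left _ hE0
  exact mul_le_mul_of_nonneg_left a5 (by positivity)

theorem s_num5 {m t d : ℕ} {n E X τ δ C1 C2 C3 D : ℝ} (hC1 : 1 ≤ C1) (hC2 : 1 ≤ C2) (hC3 : 1 ≤ C3)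
    (hn0 : 0 < n) (hE0 : 0 < E) (hτ : 0 ≤ τ) (hδ : 0 ≤ δ)
    (hX : X = (1 + t) ^ 6 * τ + δ ^ 2 + (1 + t) ^ 2 * δ / n) (hE : n * d / (m + 2) ≤ E)
    (h : E ^ 2 / 2 * (D - C2 * ((1 + t) ^ 6 * τ + d * δ / n))
      ≤ 2 * (E * (E * (C1 * (64 * X)))) + E * (E * (C1 * X)) + E * ((8 + 8 * m + 4 * t) * (d * δ))) :
    D ≤ (258 * C1 + 16 * (m + 1) * (m + 2) + C2 + C3) *
      ((1 + t) ^ 6 * τ + δ ^ 2 + ((1 + t) ^ 2 + d) * δ / n) := by
  have h2 := mul_le_mul_of_nonneg_left (s_num4 (d := d) (m := m) hn0 hE0.le hτ hδ hX hE) hE0.le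
  have h3 : E ^ 2 / 2 * (D - C2 * ((1 + t) ^ 6 * τ + d * δ / n))
      ≤ E ^ 2 / 2 * ((258 * C1 + 16 * (m + 1) * (m + 2)) * X) := by
    have : E ^ 2 / 2 * ((258 * C1 + 16 * (m + 1) * (m + 2)) * X)
        = 2 * (E * (E * (C1 * (64 * X)))) + E * (E * (C1 * X))
          + E * (E * (8 * (m + 1) * (m + 2) * X)) := by ring
    rw [this]
    linarith
  have h4 := le_of_mul_le_mul_left h3 (by positivity)
  have b2 : 0 ≤ (d : ℝ) * δ / n := by positivity
  have b3 : 0 ≤ (1 + (t : ℝ)) ^ 2 * δ / n := by positivity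
  have b4 : 0 ≤ (1 + (t : ℝ)) ^ 6 * τ := by positivity
  have bs := sq_nonneg δ
  have b5 : X + d * δ / n = (1 + t) ^ 6 * τ + δ ^ 2 + ((1 + t) ^ 2 + d) * δ / n := by
    rw [hX]
    ring
  have hX0 : 0 ≤ X := by
    rw [hX]
    linarith
  have b6 : (1 + (t : ℝ)) ^ 6 * τ + d * δ / n ≤ X + d * δ / n := by
    rw [hX]
    linarith
  rw [← b5]
  have b7 : C2 * ((1 + (t : ℝ)) ^ 6 * τ + d * δ / n) ≤ C2 * (X + d * δ / n) :=
    mul_le_mul_of_nonneg_left b6 (by linarith)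
  have hmm : (0 : ℝ) ≤ 16 * (m + 1) * (m + 2) := by positivity
  have b8 : (258 * C1 + 16 * (m + 1) * (m + 2)) * X
      ≤ (258 * C1 + 16 * (m + 1) * (m + 2)) * (X + d * δ / n) :=
    mul_le_mul_of_nonneg_left (by linarith) (by linarith)
  have b9 : 0 ≤ C3 * (X + d * δ / n) := mul_nonneg (by linarith) (by linarith)
  have b10 : (258 * C1 + 16 * (m + 1) * (m + 2) + C2 + C3) * (X + d * δ / n)
      = (258 * C1 + 16 * (m + 1) * (m + 2)) * (X + d * δ / n)
      + C2 * (X + d * δ / n) + C3 * (X + d * δ / n) := by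
    ring
  linarith

/-- TARGET -/
theorem step_D (m : ℕ) (C0 : ℝ) (hC0 : 1 ≤ C0) : ∃ C : ℝ, 1 ≤ C ∧
    ∀ (n d t : ℕ) (L : Finset (Sym2 (Fin n)) → Finset (Sym2 (Fin n)) → ℝ) (τ δ : ℝ),
    m + 1 ≤ d → C * ((d : ℝ) + (1 + t) ^ 6) ≤ n →
    0 ≤ τ → τ ≤ 1 → 0 ≤ δ → δ ≤ 1 → PosAll n d m (t + 3) →
    HG L d m t C0 → HG L d m (t + 1) C0 → HG L d m (t + 2) C0 →
    HS L d m t C0 τ → HS L d m (t + 1) C0 τ → HF L d m t C0 τ → PD L d m (t + 2) δ →
    PD L d m t (C * ((1 + t) ^ 6 * τ + δ ^ 2 + ((1 + t) ^ 2 + d) * δ / n)) := by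
  obtain ⟨C1, hC1, avg⟩ := avg_D m C0 hC0
  obtain ⟨C2, hC2, four⟩ := four_D m C0 hC0
  obtain ⟨C3, hC3, low⟩ := EE_lower m
  have hm : (0 : ℝ) ≤ 16 * (m + 1) * (m + 2) := by positivity
  refine ⟨258 * C1 + 16 * (m + 1) * (m + 2) + C2 + C3, by linarith, ?_⟩
  intro n d t L τ δ hmd hn hτ hτ1 hδ hδ1 hpos hg0 hg1 hg2 hs0 hs1 hf hPD A B x y hA hB hD hV
  have hq0 : (0 : ℝ) ≤ (d : ℝ) + (1 + t) ^ 6 := by positivity
  have hd1 : 1 ≤ d := by omega
  have hq1 : ∀ c : ℝ, c ≤ 258 * C1 + 16 * (m + 1) * (m + 2) + C2 + C3 →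
      c * ((d : ℝ) + (1 + t) ^ 6) ≤ n := fun c hc =>
    (mul_le_mul_of_nonneg_right hc hq0).trans hn
  have hn0 : (0 : ℝ) < n := by
    have h1 := hq1 1 (by linarith)
    have : (0 : ℝ) < (d : ℝ) + (1 + t) ^ 6 := by positivity
    linarith
  have hlow := low n d t A hmd (hq1 C3 (by linarith)) hA
  have hPD1 : PD L d m (t + 1) δ := s_PD_mono hPD
  have hPD0 : PD L d m t δ := s_PD_mono hPD1
  have hpos2 := s_Pos_mono hpos
  have hpos1 := s_Pos_mono hpos2
  have hpos0 := s_Pos_mono hpos1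
  have ht2 : (1 + ((t + 1 : ℕ) : ℝ)) ≤ 2 * (1 + t) := by
    push_cast
    linarith [(Nat.cast_nonneg t : (0 : ℝ) ≤ t)]
  have ht0 : (0 : ℝ) ≤ 1 + ((t + 1 : ℕ) : ℝ) := by positivity
  have hp6 : (1 + ((t + 1 : ℕ) : ℝ)) ^ 6 ≤ 64 * (1 + t) ^ 6 := by
    refine (pow_le_pow_left₀ ht0 ht2 6).trans (le_of_eq ?_)
    ring
  have hp2 : (1 + ((t + 1 : ℕ) : ℝ)) ^ 2 ≤ 4 * (1 + t) ^ 2 := by
    refine (pow_le_pow_left₀ ht0 ht2 2).trans (le_of_eq ?_)
    ring
  have hE0 : 0 ≤ EE d A := le_trans (by positivity) hlow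
  have hC12 : 12 * ((m : ℝ) + 1) * (m + 2) ≤ 258 * C1 + 16 * (m + 1) * (m + 2) + C2 + C3 := by
    have h0 : (0 : ℝ) ≤ ((m : ℝ) + 1) * (m + 2) := by positivity
    have h1 : 16 * ((m : ℝ) + 1) * (m + 2) = 12 * ((m : ℝ) + 1) * (m + 2) + 4 * (((m : ℝ) + 1) * (m + 2)) := by
      ring
    linarith
  have hEs : (d : ℝ) * (12 * (m + 1) * (1 + t)) ≤ EE d A := s_num3 hd1 hC12 hn hlow
  have core := s_core (Y0 := EE d A * (C1 * ((1 + t) ^ 6 * τ + δ ^ 2 + (1 + t) ^ 2 * δ / n)))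
    (Y1 := EE d A * (C1 * (64 * ((1 + t) ^ 6 * τ + δ ^ 2 + (1 + t) ^ 2 * δ / n))))
    (ε := C2 * ((1 + t) ^ 6 * τ + d * δ / n)) hA hB hD hV hδ hPD1 rfl hEs ?_ ?_ ?_ hd1
  · have hEp : 0 < EE d A := by
      have : (1 : ℝ) ≤ d := by exact_mod_cast hd1
      exact lt_of_lt_of_le (by positivity) hEs
    exact s_num5 hC1 hC2 hC3 hn0 hEp hτ hδ rfl hlow core
  · exact avg n d t L τ δ A B x hmd (hq1 C1 (by linarith)) hA hB hD hV.hx hτ hτ1 hδ hδ1
      hpos0 hpos1 hg0 hs0 hPD0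
  · intro q v hVq hvx hvq hv
    have hA' := s_cls_insert hA hVq
    have hD' := s_disj hD hVq
    have hdv : dg (insert s(x, q) A) v < d := by
      rw [dg_insert A x q v hVq.ne hVq.nA]
      simpa [hvx, hvq] using hv
    have h1 : C1 * ((d : ℝ) + (1 + ((t + 1 : ℕ) : ℝ)) ^ 6) ≤ n := by
      refine le_trans ?_ (hq1 (64 * C1) (by linarith))
      have h0 : (0 : ℝ) ≤ d := Nat.cast_nonneg d
      have : (d : ℝ) + (1 + ((t + 1 : ℕ) : ℝ)) ^ 6 ≤ 64 * ((d : ℝ) + (1 + t) ^ 6) := by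
        linarith
      calc C1 * ((d : ℝ) + (1 + ((t + 1 : ℕ) : ℝ)) ^ 6) ≤ C1 * (64 * ((d : ℝ) + (1 + t) ^ 6)) :=
            mul_le_mul_of_nonneg_left this (by linarith)
        _ = 64 * C1 * ((d : ℝ) + (1 + t) ^ 6) := by ring
    have h2 := avg n d (t + 1) L τ δ (insert s(x, q) A) B v hmd h1 hA' hB hD' hdv hτ hτ1 hδ hδ1
      hpos1 hpos2 hg1 hs1 hPD1
    refine h2.trans ?_
    have h3 : EE d (insert s(x, q) A) ≤ EE d A := by
      rw [EE_insert d A x q hVq.nA]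
      linarith
    have h4 := mul_le_mul_of_nonneg_left (s_num2 hτ hδ hn0 hp6 hp2) (by linarith : 0 ≤ C1)
    exact mul_le_mul h3 h4 (mul_nonneg (by linarith) (by positivity)) hE0
  · intro z w h1 h2 h3 h4 h5
    exact four n d t L τ δ A B x y z w hmd (hq1 C2 (by linarith)) hA hB hD hV h1 h2 h3 h4 h5
      hτ hτ1 hδ hδ1 hpos hg2 hf hPD

end MK3

export MK3 (step_D)

end Pool.Agent.H698NC
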