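import Mathlib

set_option autoImplicit false

namespace Pool.Agent.H698NC

open Finset

namespace MK4



theorem iterate_pow : ∃ M : ℝ, 1 ≤ M ∧ ∀ t : ℕ, (1 + (t : ℝ)) ^ 48 ≤ M * 2 ^ t := by
  have h1 := tendsto_pow_const_div_const_pow_of_one_lt 48 (show (1 : ℝ) < 2 by norm_num)
  obtain ⟨B, hB⟩ := h1.bddAbove_range
  refine ⟨max 1 (2 * B), le_max_left _ _, fun t => ?_⟩
  have h2 : ((t + 1 : ℕ) : ℝ) ^ 48 / 2 ^ (t + 1) ≤ B := hB ⟨t + 1, rfl⟩
  rw [div_le_iff₀ (by positivity)] at h2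
  have h3 : (1 + (t : ℝ)) ^ 48 ≤ 2 * B * 2 ^ t := by
    have h4 : (1 + (t : ℝ)) = ((t + 1 : ℕ) : ℝ) := by push_cast; ring
    rw [h4]
    refine h2.trans (le_of_eq ?_)
    ring
  refine h3.trans ?_
  gcongr
  exact le_max_right _ _

/-- TARGET -/
theorem iterate (C : ℝ) (hC : 1 ≤ C) : ∃ C' : ℝ, 1 ≤ C' ∧ ∀ (n d : ℕ) (τ : ℝ) (P : ℕ → ℝ → Prop), 1 ≤ d → C' * d ≤ n →
    1 / (n : ℝ) ^ 4 ≤ τ → τ ≤ 1 / (n : ℝ) ^ 2 →
    (∀ t δ δ', P t δ → δ ≤ δ' → P t δ') →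
    (∀ t : ℕ, C * ((d : ℝ) + (1 + t) ^ 6) ≤ n → P t (C * (d + (1 + t) ^ 2) / n)) →
    (∀ (t : ℕ) (δ : ℝ), C * ((d : ℝ) + (1 + t) ^ 6) ≤ n → 0 ≤ δ → δ ≤ 1 → P (t + 2) δ →
      P t (C * ((1 + t) ^ 6 * τ + δ ^ 2 + ((1 + t) ^ 2 + d) * δ / n))) →
    P 0 (C' * τ) := by
  obtain ⟨M, hM, hM2⟩ := iterate_pow
  have hC0 : 0 < C := by linarith
  have hM0 : 0 < M := by linarith
  obtain ⟨A, hA⟩ : ∃ A : ℝ, A = 4 * C * M := ⟨_, rfl⟩
  have hA0 : 0 < A := by rw [hA]; positivity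
  obtain ⟨L, hL⟩ : ∃ L : ℝ, L = 128 * C ^ 2 := ⟨_, rfl⟩
  have hL0 : 0 < L := by rw [hL]; positivity
  have hLC : 64 * C ≤ L := by rw [hL]; nlinarith
  refine ⟨L ^ 2 * M + A * (16 * C) + L, ?_, ?_⟩
  · have : 1 ≤ L := by linarith
    have h1 := mul_pos (pow_pos hL0 2) hM0
    have h2 := mul_pos hA0 hC0
    linarith
  intro n d τ P hd hn hτ1 hτ2 hmono hinit hstep
  have hd1 : (1 : ℝ) ≤ d := by exact_mod_cast hd
  have hC'0 : 0 < L ^ 2 * M + A * (16 * C) + L := by positivity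
  have hC'n : L ^ 2 * M + A * (16 * C) + L ≤ n :=
    (le_mul_of_one_le_right hC'0.le hd1).trans hn
  have hn0 : (0 : ℝ) < n := by linarith
  have hn1 : (1 : ℝ) ≤ n := by
    have : 1 ≤ L := by linarith
    have := mul_pos (pow_pos hL0 2) hM0
    have := mul_pos hA0 hC0
    linarith
  have hLM : L ^ 2 * M ≤ n := by
    have := mul_pos hA0 hC0
    linarith
  have hAC : A * (16 * C) ≤ n := by
    have := mul_pos (pow_pos hL0 2) hM0
    linarith
  have hLd : L * d ≤ n := by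
    have h1 := mul_pos (pow_pos hL0 2) hM0
    have h2 := mul_pos hA0 hC0
    have h3 : L * d ≤ (L ^ 2 * M + A * (16 * C) + L) * d := by
      gcongr
      linarith
    linarith
  have hτ0 : 0 < τ := lt_of_lt_of_le (by positivity) hτ1
  -- powers
  have hpow : ∀ t : ℕ, (2 : ℝ) ^ t ≤ n ^ 4 → L * (1 + (t : ℝ)) ^ 6 ≤ n := by
    intro t ht
    have h1 : ((1 + (t : ℝ)) ^ 12) ^ 4 ≤ (M * n) ^ 4 := by
      calc ((1 + (t : ℝ)) ^ 12) ^ 4 = (1 + (t : ℝ)) ^ 48 := by ring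
        _ ≤ M * 2 ^ t := hM2 t
        _ ≤ M * n ^ 4 := by gcongr
        _ ≤ M ^ 4 * n ^ 4 := by
          gcongr
          exact le_self_pow₀ hM (by norm_num)
        _ = (M * n) ^ 4 := by ring
    have h2 : (1 + (t : ℝ)) ^ 12 ≤ M * n :=
      le_of_pow_le_pow_left₀ (by norm_num) (by positivity) h1
    have h3 : (L * (1 + (t : ℝ)) ^ 6) ^ 2 ≤ (n : ℝ) ^ 2 := by
      calc (L * (1 + (t : ℝ)) ^ 6) ^ 2 = L ^ 2 * (1 + (t : ℝ)) ^ 12 := by ring
        _ ≤ L ^ 2 * (M * n) := by gcongr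
        _ = (L ^ 2 * M) * n := by ring
        _ ≤ n * n := by gcongr
        _ = (n : ℝ) ^ 2 := by ring
    exact le_of_pow_le_pow_left₀ (by norm_num) hn0.le h3
  have hcond : ∀ t : ℕ, (2 : ℝ) ^ t ≤ n ^ 4 → 64 * C ^ 2 * ((d : ℝ) + (1 + (t : ℝ)) ^ 6) ≤ n := by
    intro t ht
    have h1 := hpow t ht
    have h2 : 64 * C ^ 2 * ((d : ℝ) + (1 + (t : ℝ)) ^ 6) =
        (L * d + L * (1 + (t : ℝ)) ^ 6) / 2 := by rw [hL]; ring
    rw [h2]
    linarith
  have hcond1 : ∀ t : ℕ, (2 : ℝ) ^ t ≤ n ^ 4 → C * ((d : ℝ) + (1 + (t : ℝ)) ^ 6) ≤ n := by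
    intro t ht
    refine le_trans ?_ (hcond t ht)
    gcongr
    nlinarith
  have h26 : ∀ t : ℕ, (1 + (t : ℝ)) ^ 2 ≤ (1 + (t : ℝ)) ^ 6 := fun t =>
    pow_le_pow_right₀ (by have := Nat.cast_nonneg (α := ℝ) t; linarith) (by norm_num)
  -- the level
  have hQ : ∃ k : ℕ, 1 / (16 * C) < A * 4 ^ k * τ := by
    obtain ⟨k, hk⟩ := pow_unbounded_of_one_lt (1 / (16 * C) / (A * τ)) (show (1 : ℝ) < 4 by norm_num)
    refine ⟨k, ?_⟩
    rw [div_lt_iff₀ (by positivity)] at hk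
    linarith
  classical
  obtain ⟨k, hk1, hk2⟩ : ∃ k : ℕ, 1 / (16 * C) < A * 4 ^ (k + 1) * τ ∧
      A * 4 ^ k * τ ≤ 1 / (16 * C) := by
    have h1 := Nat.find_spec hQ
    have h0 : Nat.find hQ ≠ 0 := by
      intro h0
      rw [h0, pow_zero, mul_one] at h1
      have h2 : A * τ ≤ 1 / (16 * C) := by
        rw [le_div_iff₀ (by positivity)]
        have h3 : τ ≤ 1 / n := by
          refine hτ2.trans ?_
          exact one_div_le_one_div_of_le hn0 (le_self_pow₀ hn1 (by norm_num))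
        calc A * τ * (16 * C) = A * (16 * C) * τ := by ring
          _ ≤ n * (1 / n) := by gcongr
          _ = 1 := by field_simp
      linarith
    obtain ⟨k, hk⟩ := Nat.exists_eq_succ_of_ne_zero h0
    refine ⟨k, ?_, ?_⟩
    · rw [← Nat.succ_eq_add_one, ← hk]; exact h1
    · exact not_lt.1 (Nat.find_min hQ (by omega))
  have hlow : ∀ j ≤ k, (2 : ℝ) ^ (2 * j) ≤ n ^ 4 := by
    intro j hj
    have h1 : (2 : ℝ) ^ (2 * j) ≤ 4 ^ k := by
      rw [pow_mul]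
      norm_num
      exact pow_le_pow_right₀ (by norm_num) hj
    have h2 : A * 4 ^ k * (1 / (n : ℝ) ^ 4) ≤ 1 / (16 * C) :=
      le_trans (by gcongr) hk2
    have h3 : (4 : ℝ) ^ k * (1 / (n : ℝ) ^ 4) ≤ 1 := by
      have h4 : 1 ≤ A := by
        have h7 : 1 * 1 ≤ C * M := by gcongr
        rw [hA]
        linarith
      have h5 : 1 / (16 * C) ≤ 1 := by
        rw [div_le_one (by positivity)]; linarith
      have h6 : (0 : ℝ) ≤ 4 ^ k * (1 / (n : ℝ) ^ 4) := by positivity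
      calc (4 : ℝ) ^ k * (1 / (n : ℝ) ^ 4) = 1 * (4 ^ k * (1 / (n : ℝ) ^ 4)) := (one_mul _).symm
        _ ≤ A * (4 ^ k * (1 / (n : ℝ) ^ 4)) := by gcongr
        _ = A * 4 ^ k * (1 / (n : ℝ) ^ 4) := by ring
        _ ≤ 1 := h2.trans h5
    rw [mul_one_div, div_le_one (by positivity)] at h3
    exact h1.trans h3
  have hmain : ∀ i : ℕ, i ≤ k → P (2 * (k - i)) (A * 4 ^ (k - i) * τ) := by
    intro i
    induction i with
    | zero =>
      intro _
      rw [Nat.sub_zero]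
      refine hmono _ _ _ (hinit (2 * k) (by simpa using hcond1 (2 * k) (hlow k le_rfl))) ?_
      have h1 := hcond (2 * k) (hlow k le_rfl)
      have h2 : C * (d + (1 + ((2 * k : ℕ) : ℝ)) ^ 2) / n ≤ 1 / (64 * C) := by
        rw [div_le_div_iff₀ hn0 (by positivity)]
        have h3 := h26 (2 * k)
        have h4 : C * (d + (1 + ((2 * k : ℕ) : ℝ)) ^ 2) * (64 * C) ≤
            64 * C ^ 2 * ((d : ℝ) + (1 + ((2 * k : ℕ) : ℝ)) ^ 6) := by
          have h5 : 64 * C ^ 2 * ((d : ℝ) + (1 + ((2 * k : ℕ) : ℝ)) ^ 2) ≤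
            64 * C ^ 2 * ((d : ℝ) + (1 + ((2 * k : ℕ) : ℝ)) ^ 6) := by gcongr
          linarith
        linarith
      refine h2.trans ?_
      have h3 : A * 4 ^ (k + 1) * τ = 4 * (A * 4 ^ k * τ) := by ring
      rw [h3] at hk1
      have h4 : 1 / (16 * C) = 4 * (1 / (64 * C)) := by field_simp; norm_num
      rw [h4] at hk1
      linarith
    | succ i ih =>
      intro hi
      obtain ⟨j, hj⟩ : ∃ j, k - i = j + 1 := ⟨k - i - 1, by omega⟩
      have hj2 : k - (i + 1) = j := by omega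
      have h0 := ih (by omega)
      rw [hj] at h0
      rw [hj2]
      have hjk : j + 1 ≤ k := by omega
      set X := A * 4 ^ j * τ with hX
      have hX0 : 0 < X := by rw [hX]; positivity
      have hX4 : A * 4 ^ (j + 1) * τ = 4 * X := by rw [hX]; ring
      rw [hX4] at h0
      have hXs : 4 * X ≤ 1 / (16 * C) := by
        rw [← hX4]
        refine le_trans ?_ hk2
        gcongr
        norm_num
      have hXs' : 64 * C * X ≤ 1 := by
        rw [le_div_iff₀ (by positivity)] at hXs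
        linarith
      have h2j := hlow j (by omega)
      have hc1 := hcond1 (2 * j) h2j
      have hc2 := hcond (2 * j) h2j
      have hδ1 : 4 * X ≤ 1 := hXs.trans (by
        rw [div_le_one (by positivity)]; linarith)
      have h1 := hstep (2 * j) (4 * X) hc1 (by positivity) hδ1 h0
      refine hmono _ _ _ h1 ?_
      -- the estimate
      have e1 : C * ((1 + ((2 * j : ℕ) : ℝ)) ^ 6 * τ) ≤ X / 4 := by
        have h3 : (1 + ((2 * j : ℕ) : ℝ)) ^ 6 ≤ M * 4 ^ j := by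
          have h4 : (1 + ((2 * j : ℕ) : ℝ)) ^ 6 ≤ (1 + ((2 * j : ℕ) : ℝ)) ^ 48 :=
            pow_le_pow_right₀ (by
              have := Nat.cast_nonneg (α := ℝ) (2 * j); linarith) (by norm_num)
          have h5 := hM2 (2 * j)
          rw [pow_mul] at h5
          norm_num at h5
          norm_num at h4 ⊢
          linarith
        calc C * ((1 + ((2 * j : ℕ) : ℝ)) ^ 6 * τ) ≤ C * ((M * 4 ^ j) * τ) := by gcongr
          _ = X / 4 := by rw [hX, hA]; ring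
      have e2 : C * (4 * X) ^ 2 ≤ X / 4 := by
        calc C * (4 * X) ^ 2 = 64 * C * X * (X / 4) := by ring
          _ ≤ 1 * (X / 4) := by gcongr
          _ = X / 4 := one_mul _
      have e3 : C * (((1 + ((2 * j : ℕ) : ℝ)) ^ 2 + d) * (4 * X) / n) ≤ X / 4 := by
        have h3 := h26 (2 * j)
        have h4 : C * (((1 + ((2 * j : ℕ) : ℝ)) ^ 2 + d) * (4 * X) / n) =
            (16 * C * ((1 + ((2 * j : ℕ) : ℝ)) ^ 2 + d)) / n * (X / 4) := by
          field_simp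
          ring
        rw [h4]
        have h5 : (16 * C * ((1 + ((2 * j : ℕ) : ℝ)) ^ 2 + d)) / n ≤ 1 := by
          rw [div_le_one hn0]
          refine le_trans ?_ hc2
          have h6 : 16 * C ≤ 64 * C ^ 2 := by
            have h7 : C * 1 ≤ C * C := by gcongr
            have h8 : C ^ 2 = C * C := sq C
            rw [h8]
            linarith
          calc 16 * C * ((1 + ((2 * j : ℕ) : ℝ)) ^ 2 + d)
              ≤ 16 * C * ((1 + ((2 * j : ℕ) : ℝ)) ^ 6 + d) := by gcongr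
            _ ≤ 64 * C ^ 2 * ((1 + ((2 * j : ℕ) : ℝ)) ^ 6 + d) := by gcongr
            _ = _ := by ring
        calc (16 * C * ((1 + ((2 * j : ℕ) : ℝ)) ^ 2 + d)) / n * (X / 4) ≤ 1 * (X / 4) := by
              gcongr
          _ = X / 4 := one_mul _
      calc C * ((1 + ((2 * j : ℕ) : ℝ)) ^ 6 * τ + (4 * X) ^ 2 +
            ((1 + ((2 * j : ℕ) : ℝ)) ^ 2 + d) * (4 * X) / n)
          = C * ((1 + ((2 * j : ℕ) : ℝ)) ^ 6 * τ) + C * (4 * X) ^ 2 +
            C * (((1 + ((2 * j : ℕ) : ℝ)) ^ 2 + d) * (4 * X) / n) := by ring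
        _ ≤ X / 4 + X / 4 + X / 4 := by gcongr
        _ ≤ X := by linarith
  have hfin := hmain k le_rfl
  rw [Nat.sub_self, mul_zero, pow_zero, mul_one] at hfin
  refine hmono _ _ _ hfin ?_
  gcongr
  have h1 := mul_pos (pow_pos hL0 2) hM0
  have h2 : A * 1 ≤ A * (16 * C) := by
    gcongr
    linarith
  linarith

end MK4

export MK4 (iterate)

end Pool.Agent.H698NC
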