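import Pool.Agent.H698NC.D3
import Pool.Agent.H698NC.K3
import Pool.Agent.H698NC.K4
import Pool.Agent.H698NC.JB
import Pool.Agent.H698NC.JC

set_option autoImplicit false

namespace Pool.Agent.H698NC

open Finset

namespace MK5

variable {n : ℕ}

theorem generic_log (X c c' eU eL : ℝ) (hX : 0 < X) (hc : 0 < c) (heU : 0 ≤ eU) (heL : 0 ≤ eL)
    (heL2 : eL ≤ 1 / 2) (h1 : c' ≤ X * c * (1 + eU)) (h2 : X * c * (1 - eL) ≤ c') :
    |Real.log c' - Real.log c - Real.log X| ≤ eU + 2 * eL := by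
  have hXc : 0 < X * c := mul_pos hX hc
  have h3 : 0 < 1 - eL := by linarith
  have hc' : 0 < c' := lt_of_lt_of_le (mul_pos hXc h3) h2
  have h4 : Real.log c' ≤ Real.log X + Real.log c + Real.log (1 + eU) := by
    rw [← Real.log_mul hX.ne' hc.ne', ← Real.log_mul hXc.ne' (by linarith : (1 : ℝ) + eU ≠ 0)]
    exact Real.log_le_log hc' h1
  have h5 : Real.log X + Real.log c + Real.log (1 - eL) ≤ Real.log c' := by
    rw [← Real.log_mul hX.ne' hc.ne', ← Real.log_mul hXc.ne' h3.ne']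
    exact Real.log_le_log (mul_pos hXc h3) h2
  have h6 : Real.log (1 + eU) ≤ eU := by
    have := Real.log_le_sub_one_of_pos (show (0 : ℝ) < 1 + eU by linarith)
    linarith
  have h7 : -(2 * eL) ≤ Real.log (1 - eL) := by
    have h8 := Real.one_sub_inv_le_log_of_pos h3
    have h9 : (1 - eL)⁻¹ ≤ 1 + 2 * eL := by
      rw [inv_le_iff_one_le_mul₀ h3]
      nlinarith
    linarith
  rw [abs_le]
  constructor <;> linarith

theorem generic_init (m : ℕ) (C0 : ℝ) (hC0 : 1 ≤ C0) : ∃ C : ℝ, 1 ≤ C ∧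
    ∀ (n d : ℕ) (L : Finset (Sym2 (Fin n)) → Finset (Sym2 (Fin n)) → ℝ) (t : ℕ),
    Even (n * d) → m + 1 ≤ d → C * ((d : ℝ) + (1 + t) ^ 6) ≤ n → HG L d m t C0 →
    PD L d m t (C * (d + (1 + t) ^ 2) / n) := by
  obtain ⟨CE, hCE, hE⟩ := EE_lower m
  obtain ⟨CU, hCU, hU⟩ := ap_upper m
  obtain ⟨CL, hCL, hL⟩ := ap_lower m
  obtain ⟨CP, hCP, hP⟩ := cnt_pos m
  refine ⟨CE + CU + 2 * CL + CP + C0, by linarith, ?_⟩
  intro n d L t hev hmd hn hHG A B x y hA hB hAB hV
  have hs0 : (0 : ℝ) ≤ (d : ℝ) + (1 + t) ^ 6 := by positivity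
  have hcond : ∀ c : ℝ, c ≤ CE + CU + 2 * CL + CP + C0 → c * ((d : ℝ) + (1 + t) ^ 6) ≤ n :=
    fun c hc => le_trans (mul_le_mul_of_nonneg_right hc hs0) hn
  have hE' := hE n d t A hmd (hcond CE (by linarith)) hA
  have hU' := hU n d t A B x y hmd (hcond CU (by linarith)) hA hB hAB hV
  have hL' := hL n d t A B x y hmd (hcond CL (by linarith)) hA hB hAB hV
  have hP' := hP n d t A B hev hmd (hcond CP (by linarith)) hA hB hAB
  have hn0 : (0 : ℝ) < n := by
    have : 0 < n := lt_of_le_of_lt (Nat.zero_le _) x.isLt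
    exact_mod_cast this
  have hd0 : (0 : ℝ) < d := by
    have : 0 < d := by omega
    exact_mod_cast this
  have hm0 : (0 : ℝ) < (m : ℝ) + 2 := by positivity
  have hEE : 0 < EE d A := lt_of_lt_of_le (by positivity) hE'
  have hrx : 0 < rd d A x := by
    have := hV.hx
    have h : (dg A x : ℝ) < d := by exact_mod_cast this
    unfold rd; linarith
  have hry : 0 < rd d A y := by
    have := hV.hy
    have h : (dg A y : ℝ) < d := by exact_mod_cast this
    unfold rd; linarith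
  have hX : 0 < rd d A x * rd d A y / EE d A := by positivity
  have hc : (0 : ℝ) < cnt d A B := by exact_mod_cast hP'
  have ht : (0 : ℝ) ≤ t := Nat.cast_nonneg t
  have ht6 : (1 : ℝ) + t ≤ (1 + t) ^ 6 := by
    calc (1 : ℝ) + t = (1 + t) ^ 1 := (pow_one _).symm
      _ ≤ (1 + t) ^ 6 := pow_le_pow_right₀ (by linarith) (by norm_num)
  have ht2 : (1 : ℝ) + t ≤ (1 + t) ^ 2 := by
    calc (1 : ℝ) + t = (1 + t) ^ 1 := (pow_one _).symm
      _ ≤ (1 + t) ^ 2 := pow_le_pow_right₀ (by linarith) (by norm_num)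
  have heL2 : CL * (d + t + 1) / n ≤ 1 / 2 := by
    rw [div_le_iff₀ hn0]
    have h1 := hcond (2 * CL) (by linarith)
    have h2 : CL * (d + t + 1) ≤ CL * ((d : ℝ) + (1 + t) ^ 6) :=
      mul_le_mul_of_nonneg_left (by linarith) (by linarith)
    linarith
  have hlog := generic_log (rd d A x * rd d A y / EE d A) (cnt d A B)
    (cnt d (insert s(x, y) A) B) (CU * (d + t + 1) / n) (CL * (d + t + 1) / n) hX hc
    (by positivity) (by positivity) heL2 hU' hL'
  have hg := hHG A B x y hA hB hAB hV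
  have hDL : DL L d A B x y = (Real.log (cnt d (insert s(x, y) A) B) - Real.log (cnt d A B)
      - Real.log (rd d A x * rd d A y / EE d A)) - gL L d A B x y := by
    unfold DL gL; ring
  rw [hDL]
  refine (abs_sub _ _).trans ((add_le_add hlog hg).trans ?_)
  rw [← mul_div_assoc, ← add_div, ← add_div]
  apply div_le_div_of_nonneg_right _ hn0.le
  have e1 : CU * ((d : ℝ) + t + 1) ≤ CU * ((d : ℝ) + (1 + t) ^ 2) :=
    mul_le_mul_of_nonneg_left (by linarith) (by linarith)
  have e2 : CL * ((d : ℝ) + t + 1) ≤ CL * ((d : ℝ) + (1 + t) ^ 2) :=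
    mul_le_mul_of_nonneg_left (by linarith) (by linarith)
  have e3 : C0 * ((1 : ℝ) + t) ^ 2 ≤ C0 * ((d : ℝ) + (1 + t) ^ 2) :=
    mul_le_mul_of_nonneg_left (by linarith) (by linarith)
  have e4 : 0 ≤ CE * ((d : ℝ) + (1 + t) ^ 2) := by positivity
  have e5 : 0 ≤ CP * ((d : ℝ) + (1 + t) ^ 2) := by positivity
  linarith

/-- TARGET 1: any approximation `L` which satisfies the two identities up to `τ` has increments correct up to `C τ` -/
theorem generic (m : ℕ) (C0 : ℝ) (hC0 : 1 ≤ C0) : ∃ C : ℝ, 1 ≤ C ∧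
    ∀ (n d : ℕ) (L : Finset (Sym2 (Fin n)) → Finset (Sym2 (Fin n)) → ℝ) (τ : ℝ),
    Even (n * d) → m + 1 ≤ d → C * d ≤ n → 1 / (n : ℝ) ^ 4 ≤ τ → τ ≤ 1 / (n : ℝ) ^ 2 →
    (∀ t : ℕ, C0 * ((d : ℝ) + (1 + t) ^ 6) ≤ n → HG L d m t C0 ∧ HS L d m t C0 τ ∧ HF L d m t C0 τ) →
    PosAll n d m 0 ∧ PD L d m 0 (C * τ) := by
  obtain ⟨C1, hC1, hI⟩ := generic_init m C0 hC0
  obtain ⟨CP, hCP, hP⟩ := cnt_pos m
  obtain ⟨CS, hCS, hSt⟩ := step_D m C0 hC0
  obtain ⟨C', hC', hIt⟩ := iterate (C1 + CS + 4096 * CP + 4096 * C0) (by linarith)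
  refine ⟨C' + 2 * CP, by linarith, ?_⟩
  intro n d L τ hev hmd hn hτ1 hτ2 hyp
  have hd1 : 1 ≤ d := by omega
  have hd1' : (1 : ℝ) ≤ d := by exact_mod_cast hd1
  have hnd : (C' + 2 * CP) * 1 ≤ n :=
    le_trans (mul_le_mul_of_nonneg_left hd1' (by linarith)) hn
  have hn1 : (1 : ℝ) ≤ n := by linarith
  have hn0 : (0 : ℝ) < n := by linarith
  have hτ0 : 0 ≤ τ := le_trans (by positivity) hτ1
  have hτle : τ ≤ 1 := by
    refine hτ2.trans ?_
    rw [div_le_one (by positivity)]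
    exact one_le_pow₀ hn1
  have hPos : PosAll n d m 0 := by
    intro A B hA hB hAB
    refine hP n d 0 A B hev hmd ?_ hA hB hAB
    have h1 : CP * ((d : ℝ) + (1 + ((0 : ℕ) : ℝ)) ^ 6) ≤ 2 * CP * d := by
      push_cast
      nlinarith
    have h2 : 0 ≤ C' * (d : ℝ) := by positivity
    linarith
  refine ⟨hPos, ?_⟩
  have hmono : ∀ (t : ℕ) (δ δ' : ℝ), PD L d m t δ → δ ≤ δ' → PD L d m t δ' :=
    fun t δ δ' h hδ A B x y h1 h2 h3 h4 => (h A B x y h1 h2 h3 h4).trans hδ
  have hkey : PD L d m 0 (C' * τ) := by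
    refine hIt n d τ (fun t δ => PD L d m t δ) hd1 ?_ hτ1 hτ2 hmono ?_ ?_
    · have h2 : 0 ≤ 2 * CP * (d : ℝ) := by positivity
      linarith
    · intro t ht
      have hs0 : (0 : ℝ) ≤ (d : ℝ) + (1 + t) ^ 6 := by positivity
      have hcond : ∀ c : ℝ, c ≤ C1 + CS + 4096 * CP + 4096 * C0 →
          c * ((d : ℝ) + (1 + t) ^ 6) ≤ n :=
        fun c hc => le_trans (mul_le_mul_of_nonneg_right hc hs0) ht
      have h1 := hI n d L t hev hmd (hcond C1 (by linarith)) (hyp t (hcond C0 (by linarith))).1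
      refine hmono t _ _ h1 ?_
      apply div_le_div_of_nonneg_right _ hn0.le
      exact mul_le_mul_of_nonneg_right (by linarith) (by positivity)
    · intro t δ ht hδ0 hδ1 hPD
      have hs0 : (0 : ℝ) ≤ (d : ℝ) + (1 + t) ^ 6 := by positivity
      have hcond : ∀ c : ℝ, c ≤ C1 + CS + 4096 * CP + 4096 * C0 →
          c * ((d : ℝ) + (1 + t) ^ 6) ≤ n :=
        fun c hc => le_trans (mul_le_mul_of_nonneg_right hc hs0) ht
      have ht0 : (0 : ℝ) ≤ t := Nat.cast_nonneg t
      -- levels t + j with j ≤ 3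
      have hlev : ∀ (c : ℝ) (j : ℕ), 0 ≤ c → j ≤ 3 → 4096 * c ≤ C1 + CS + 4096 * CP + 4096 * C0 →
          c * ((d : ℝ) + (1 + ((t + j : ℕ) : ℝ)) ^ 6) ≤ n := by
        intro c j hc0 hj hc
        have hj' : (j : ℝ) ≤ 3 := by exact_mod_cast hj
        have hj0 : (0 : ℝ) ≤ j := Nat.cast_nonneg j
        have h1 : (1 + ((t + j : ℕ) : ℝ)) ^ 6 ≤ 4096 * (1 + (t : ℝ)) ^ 6 := by
          have h2 : (1 + ((t + j : ℕ) : ℝ)) ≤ 4 * (1 + (t : ℝ)) := by
            push_cast
            linarith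
          calc (1 + ((t + j : ℕ) : ℝ)) ^ 6 ≤ (4 * (1 + (t : ℝ))) ^ 6 :=
                pow_le_pow_left₀ (by positivity) h2 6
            _ = 4096 * (1 + (t : ℝ)) ^ 6 := by rw [mul_pow]; norm_num
        have h3 : (d : ℝ) + (1 + ((t + j : ℕ) : ℝ)) ^ 6 ≤ 4096 * ((d : ℝ) + (1 + t) ^ 6) := by
          linarith
        calc c * ((d : ℝ) + (1 + ((t + j : ℕ) : ℝ)) ^ 6)
            ≤ c * (4096 * ((d : ℝ) + (1 + t) ^ 6)) := mul_le_mul_of_nonneg_left h3 hc0
          _ = (4096 * c) * ((d : ℝ) + (1 + t) ^ 6) := by ring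
          _ ≤ n := hcond _ hc
      have hPos3 : PosAll n d m (t + 3) := by
        intro A B hA hB hAB
        exact hP n d (t + 3) A B hev hmd (hlev CP 3 (by linarith) le_rfl (by linarith)) hA hB hAB
      obtain ⟨g0, s0, f0⟩ := hyp t (hcond C0 (by linarith))
      obtain ⟨g1, s1, f1⟩ := hyp (t + 1) (hlev C0 1 (by linarith) (by norm_num) (by linarith))
      obtain ⟨g2, s2, f2⟩ := hyp (t + 2) (hlev C0 2 (by linarith) (by norm_num) (by linarith))
      have h1 := hSt n d t L τ δ hmd (hcond CS (by linarith)) hτ0 hτle hδ0 hδ1 hPos3 g0 g1 g2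
        s0 s1 f0 hPD
      refine hmono t _ _ h1 ?_
      exact mul_le_mul_of_nonneg_right (by linarith) (by positivity)
  refine hmono 0 _ _ hkey ?_
  exact mul_le_mul_of_nonneg_right (by linarith) hτ0

/-- TARGET 2 -/
theorem structure_ell (m : ℕ) : ∃ C : ℝ, 1 ≤ C ∧ ∀ (n d : ℕ), Even (n * d) → m + 1 ≤ d → C * d ≤ n →
    PosAll n d m 0 ∧ PD (n := n) (ell d) d m 0 (C * (1 / (n : ℝ) ^ 2)) := by
  obtain ⟨Cg, hCg, hg⟩ := gg_bound m
  obtain ⟨Cs, hCs, hs⟩ := gg_sum m
  obtain ⟨Cf, hCf, hf⟩ := ell_four m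
  obtain ⟨C, hC, hG⟩ := generic m (Cg + Cs + Cf) (by linarith)
  refine ⟨C, hC, ?_⟩
  intro n d hev hmd hn
  have hd1' : (1 : ℝ) ≤ d := by
    have : 1 ≤ d := by omega
    exact_mod_cast this
  have hn1 : (1 : ℝ) ≤ n := by nlinarith
  have hn0 : (0 : ℝ) < n := by linarith
  refine hG n d (ell d) (1 / (n : ℝ) ^ 2) hev hmd hn ?_ le_rfl ?_
  · exact one_div_le_one_div_of_le (by positivity) (pow_le_pow_right₀ hn1 (by norm_num))
  · intro t ht
    have hs0 : (0 : ℝ) ≤ (d : ℝ) + (1 + t) ^ 6 := by positivity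
    have hcond : ∀ c : ℝ, c ≤ Cg + Cs + Cf → c * ((d : ℝ) + (1 + t) ^ 6) ≤ n :=
      fun c hc => le_trans (mul_le_mul_of_nonneg_right hc hs0) ht
    refine ⟨?_, ?_, ?_⟩
    · intro A B x y hA hB hAB hV
      refine (hg n d t A B x y hev hmd (hcond Cg (by linarith)) hA hB hV).2.2.2.trans ?_
      apply div_le_div_of_nonneg_right _ hn0.le
      exact mul_le_mul_of_nonneg_right (by linarith) (by positivity)
    · intro A B x hA hB hAB hx
      have h1 := hs n d t A B x hev hmd (hcond Cs (by linarith)) hA hB hx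
      refine h1.trans ?_
      by_cases hEE : 0 ≤ EE d A
      · apply mul_le_mul_of_nonneg_left _ hEE
        apply mul_le_mul_of_nonneg_right _ (by positivity)
        exact mul_le_mul_of_nonneg_right (by linarith) (by positivity)
      · exfalso
        have h2 : EE d A * (Cs * (1 + (t : ℝ)) ^ 6 * (1 / (n : ℝ) ^ 2)) < 0 :=
          mul_neg_of_neg_of_pos (not_le.1 hEE) (by positivity)
        have h3 := (abs_nonneg _).trans h1
        linarith
    · intro A B x y z w hA hB hAB h1 h2 h3 h4 h5 h6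
      refine (hf n d t A B x y z w hev hmd (hcond Cf (by linarith)) hA hB hAB h1 h2 h3 h4 h5 h6).trans
        ?_
      apply mul_le_mul_of_nonneg_right _ (by positivity)
      exact mul_le_mul_of_nonneg_right (by linarith) (by positivity)

theorem structure_sum_nbr_mono {A A' : Finset (Sym2 (Fin n))} (h : A' ⊆ A) (v : Fin n) :
    dg A' v ≤ dg A v := by
  unfold dg nbr
  apply Finset.card_le_card
  intro w hw
  rw [Finset.mem_filter] at hw ⊢
  exact ⟨hw.1, h hw.2⟩

theorem structure_sum_cls_mono {d m t : ℕ} {A A' : Finset (Sym2 (Fin n))} (h : A' ⊆ A)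
    (hA : Cls d m t A) : Cls d m t A' where
  nd := fun e he => hA.nd e (h he)
  led := fun v => (structure_sum_nbr_mono h v).trans (hA.led v)
  lem := fun v => (structure_sum_nbr_mono h v).trans (hA.lem v)
  card := by
    have := Finset.card_le_card h
    have := hA.card
    omega

theorem structure_sum_ind {d m : ℕ} (B : Finset (Sym2 (Fin n))) (hB : BCls m B) (δ : ℝ)
    (hPD : PD (n := n) (ell d) d m 0 δ) (A : Finset (Sym2 (Fin n))) :
    Cls d m 0 A → Disjoint A B →
    |Real.log (cnt d A B) - Real.log (cnt d ∅ B) - (ell d A B - ell d ∅ B)| ≤ A.card * δ := by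
  classical
  induction A using Finset.induction_on with
  | empty =>
    intro _ _
    simp
  | insert e A he ih =>
    intro hA hAB
    have hsub : A ⊆ insert e A := Finset.subset_insert e A
    have hA' := structure_sum_cls_mono hsub hA
    have hAB' : Disjoint A B := Finset.disjoint_of_subset_left hsub hAB
    have h1 := ih hA' hAB'
    induction e using Sym2.ind with
    | _ x y =>
    have hxy : x ≠ y := by
      intro h
      exact hA.nd s(x, y) (Finset.mem_insert_self _ _) (by simpa using h)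
    have hV : Val d A B x y := by
      refine ⟨hxy, he, ?_, ?_, ?_⟩
      · exact Finset.disjoint_left.1 hAB (Finset.mem_insert_self _ _)
      · have h2 := dg_insert A x y x hxy he
        have h3 := hA.led x
        rw [if_pos (Or.inl rfl)] at h2
        omega
      · have h2 := dg_insert A x y y hxy he
        have h3 := hA.led y
        rw [if_pos (Or.inr rfl)] at h2
        omega
    have h2 := hPD A B x y hA' hB hAB' hV
    rw [Finset.card_insert_of_notMem he]
    have h3 : Real.log (cnt d (insert s(x, y) A) B) - Real.log (cnt d ∅ B)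
        - (ell d (insert s(x, y) A) B - ell d ∅ B)
        = DL (ell d) d A B x y
          + (Real.log (cnt d A B) - Real.log (cnt d ∅ B) - (ell d A B - ell d ∅ B)) := by
      unfold DL; ring
    rw [h3]
    refine (abs_add_le _ _).trans ((add_le_add h2 h1).trans ?_)
    push_cast
    linarith

/-- TARGET 3 -/
theorem structure_sum (m : ℕ) : ∃ C : ℝ, 1 ≤ C ∧ ∀ (n d : ℕ) (A B : Finset (Sym2 (Fin n))), Even (n * d) → m + 1 ≤ d →
    C * d ≤ n → Cls d m 0 A → BCls m B → Disjoint A B →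
    0 < cnt d A B ∧ 0 < cnt d ∅ B ∧
      |Real.log (cnt d A B) - Real.log (cnt d ∅ B) - (ell d A B - ell d ∅ B)| ≤ C / n := by
  obtain ⟨C, hC, hS⟩ := structure_ell m
  refine ⟨C * (m + 1), ?_, ?_⟩
  · have : (0 : ℝ) ≤ m := Nat.cast_nonneg m
    nlinarith
  intro n d A B hev hmd hn hA hB hAB
  have hm0 : (0 : ℝ) ≤ m := Nat.cast_nonneg m
  have hd1' : (1 : ℝ) ≤ d := by
    have : 1 ≤ d := by omega
    exact_mod_cast this
  have hn' : C * d ≤ n := by
    refine le_trans ?_ hn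
    have h1 : C * 1 ≤ C * (m + 1) := mul_le_mul_of_nonneg_left (by linarith) (by linarith)
    rw [mul_one] at h1
    exact mul_le_mul_of_nonneg_right h1 (by linarith)
  have hn1 : (1 : ℝ) ≤ n := by nlinarith
  have hn0 : (0 : ℝ) < n := by linarith
  obtain ⟨hPos, hPD⟩ := hS n d hev hmd hn'
  refine ⟨hPos A B hA hB hAB, hPos ∅ B (structure_sum_cls_mono (Finset.empty_subset A) hA) hB
    (Finset.disjoint_empty_left B), ?_⟩
  refine (structure_sum_ind B hB _ hPD A hA hAB).trans ?_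
  have hcard : (A.card : ℝ) ≤ (m + 1) * n := by
    have h1 := hA.card
    have h2 : A.card ≤ (m + 1) * n := by nlinarith
    exact_mod_cast h2
  calc (A.card : ℝ) * (C * (1 / (n : ℝ) ^ 2)) ≤ ((m + 1) * n) * (C * (1 / (n : ℝ) ^ 2)) :=
        mul_le_mul_of_nonneg_right hcard (by positivity)
    _ = C * (m + 1) / n := by
        field_simp

end MK5

export MK5 (generic structure_ell structure_sum)

end Pool.Agent.H698NC
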