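import Pool.Agent.H698NC.DefsP
import Pool.Agent.H698NC.J0

set_option autoImplicit false

namespace Pool.Agent.H698NC

open Finset

namespace MP0

variable {n : ℕ}

-- all 5 targets done

theorem sum_nbr_insert (C : Finset (Sym2 (Fin n))) {x y : Fin n} (hxy : x ≠ y) (h : s(x, y) ∉ C)
    (g : Fin n → ℝ) (v : Fin n) : ∑ w ∈ nbr (insert s(x, y) C) v, g w =
      ∑ w ∈ nbr C v, g w + (if v = x then g y else 0) + (if v = y then g x else 0) := by
  by_cases hx : v = x
  · subst hx
    have e : nbr (insert s(v, y) C) v = insert y (nbr C v) := by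
      ext w
      simp only [nbr, mem_filter, mem_univ, true_and, mem_insert, Sym2.congr_right]
    have hy : y ∉ nbr C v := by
      simp only [nbr, mem_filter, mem_univ, true_and]
      exact h
    rw [e, sum_insert hy, if_pos rfl, if_neg hxy]
    ring
  · by_cases hy : v = y
    · subst hy
      have e : nbr (insert s(x, v) C) v = insert x (nbr C v) := by
        ext w
        simp only [nbr, mem_filter, mem_univ, true_and, mem_insert, Sym2.eq_swap (a := x) (b := v),
          Sym2.congr_right]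
      have hx' : x ∉ nbr C v := by
        simp only [nbr, mem_filter, mem_univ, true_and]
        rw [Sym2.eq_swap]
        exact h
      rw [e, sum_insert hx', if_pos rfl, if_neg hx]
      ring
    · have e : nbr (insert s(x, y) C) v = nbr C v := by
        ext w
        simp only [nbr, mem_filter, mem_univ, true_and, mem_insert]
        constructor
        · rintro (h1 | h1)
          · rw [Sym2.eq_iff] at h1
            rcases h1 with h1 | h1
            · exact absurd h1.1 hx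
            · exact absurd h1.1 hy
          · exact h1
        · exact Or.inr
      rw [e, if_neg hx, if_neg hy]
      ring

theorem dg_sum (C : Finset (Sym2 (Fin n))) (v : Fin n) : (dg C v : ℝ) = ∑ _w ∈ nbr C v, (1 : ℝ) := by
  simp [dg]

theorem dg_insert (C : Finset (Sym2 (Fin n))) {x y : Fin n} (hxy : x ≠ y) (h : s(x, y) ∉ C)
    (v : Fin n) : (dg (insert s(x, y) C) v : ℝ) =
      dg C v + (if v = x then 1 else 0) + (if v = y then 1 else 0) := by
  rw [dg_sum, dg_sum, sum_nbr_insert C hxy h (fun _ => 1)]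

/-- the bilinear form of an edge set -/
noncomputable def Qf (C : Finset (Sym2 (Fin n))) (f g : Fin n → ℝ) : ℝ :=
  ∑ v, f v * ∑ w ∈ nbr C v, g w

theorem Qf_insert (C : Finset (Sym2 (Fin n))) {x y : Fin n} (hxy : x ≠ y) (h : s(x, y) ∉ C)
    (f g : Fin n → ℝ) : Qf (insert s(x, y) C) f g = Qf C f g + f x * g y + f y * g x := by
  unfold Qf
  simp only [sum_nbr_insert C hxy h, mul_add, sum_add_distrib, mul_ite, mul_zero, sum_ite_eq',
    mem_univ, if_true]

theorem Qf_symm (C : Finset (Sym2 (Fin n))) (f g : Fin n → ℝ) : Qf C f g = Qf C g f := by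
  have e : ∀ f g : Fin n → ℝ, Qf C f g = ∑ v, ∑ w, if s(v, w) ∈ C then f v * g w else 0 := by
    intro f g
    unfold Qf nbr
    refine sum_congr rfl fun v _ => ?_
    rw [mul_sum, sum_filter]
  rw [e, e, sum_comm]
  refine sum_congr rfl fun v _ => sum_congr rfl fun w _ => ?_
  rw [Sym2.eq_swap, mul_comm]

theorem Qf_add_left (C : Finset (Sym2 (Fin n))) (f f' g : Fin n → ℝ) :
    Qf C (fun v => f v + f' v) g = Qf C f g + Qf C f' g := by
  unfold Qf
  rw [← sum_add_distrib]
  exact sum_congr rfl fun v _ => by ring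

theorem Qf_add_right (C : Finset (Sym2 (Fin n))) (f g g' : Fin n → ℝ) :
    Qf C f (fun v => g v + g' v) = Qf C f g + Qf C f g' := by
  rw [Qf_symm, Qf_add_left, Qf_symm C g, Qf_symm C g']

/-- indicator of two points -/
noncomputable def del (x y v : Fin n) : ℝ := (if v = x then 1 else 0) + (if v = y then 1 else 0)

theorem Qf_del (C : Finset (Sym2 (Fin n))) (x y : Fin n) (g : Fin n → ℝ) :
    Qf C (del x y) g = ∑ w ∈ nbr C x, g w + ∑ w ∈ nbr C y, g w := by
  unfold Qf del
  simp only [add_mul, sum_add_distrib, ite_mul, one_mul, zero_mul, sum_ite_eq', mem_univ, if_true]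

theorem sum_nbr_del (C : Finset (Sym2 (Fin n))) (x y v : Fin n) (h1 : s(v, x) ∉ C)
    (h2 : s(v, y) ∉ C) : ∑ w ∈ nbr C v, del x y w = 0 := by
  refine sum_eq_zero fun w hw => ?_
  simp only [nbr, mem_filter, mem_univ, true_and] at hw
  unfold del
  have n1 : w ≠ x := by
    rintro rfl
    exact h1 hw
  have n2 : w ≠ y := by
    rintro rfl
    exact h2 hw
  rw [if_neg n1, if_neg n2]
  ring

theorem W2_insert (C : Finset (Sym2 (Fin n))) {x y : Fin n} (hC : ND C) (hxy : x ≠ y)
    (h : s(x, y) ∉ C) : W2 (insert s(x, y) C) = W2 C + ∑ w ∈ nbr C x, (dg C w : ℝ) +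
      ∑ w ∈ nbr C y, (dg C w : ℝ) + (dg C x + 1) * (dg C y + 1) := by
  have hd : (fun v => (dg (insert s(x, y) C) v : ℝ)) = fun v => (dg C v : ℝ) + del x y v := by
    funext v
    rw [dg_insert C hxy h, del]
    ring
  have e1 : W2 (insert s(x, y) C) = Qf (insert s(x, y) C) (fun v => (dg C v : ℝ) + del x y v)
      (fun v => (dg C v : ℝ) + del x y v) / 2 := by
    rw [← hd]; rfl
  have e2 : W2 C = Qf C (fun v => (dg C v : ℝ)) (fun v => (dg C v : ℝ)) / 2 := rfl
  have hx : s(x, x) ∉ C := fun h => hC _ h rfl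
  have hy : s(y, y) ∉ C := fun h => hC _ h rfl
  have hyx : s(y, x) ∉ C := by rw [Sym2.eq_swap]; exact h
  have e3 : Qf C (del x y) (del x y) = 0 := by
    rw [Qf_del, sum_nbr_del C x y x hx h, sum_nbr_del C x y y hyx hy, add_zero]
  have e4 : Qf C (fun v => (dg C v : ℝ)) (del x y) = ∑ w ∈ nbr C x, (dg C w : ℝ) +
      ∑ w ∈ nbr C y, (dg C w : ℝ) := by rw [Qf_symm, Qf_del]
  have d1 : del x y x = 1 := by unfold del; rw [if_pos rfl, if_neg hxy, add_zero]
  have d2 : del x y y = 1 := by unfold del; rw [if_pos rfl, if_neg hxy.symm, zero_add]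
  rw [e1, e2, Qf_insert C hxy h, Qf_add_left, Qf_add_right, Qf_add_right, e3, e4,
    Qf_del, d1, d2]
  ring

theorem sum_pow_insert (C : Finset (Sym2 (Fin n))) {x y : Fin n} (hxy : x ≠ y) (h : s(x, y) ∉ C)
    (F : ℝ → ℝ) : ∑ v, F (dg (insert s(x, y) C) v) = ∑ v, F (dg C v) +
      (F (dg C x + 1) - F (dg C x)) + (F (dg C y + 1) - F (dg C y)) := by
  have e : ∑ v, (F (dg (insert s(x, y) C) v) - F (dg C v)) =
      (F (dg C x + 1) - F (dg C x)) + (F (dg C y + 1) - F (dg C y)) := by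
    rw [Fintype.sum_eq_add x y hxy]
    · rw [dg_insert C hxy h, dg_insert C hxy h, if_pos rfl, if_neg hxy, if_neg hxy.symm, if_pos rfl,
        add_zero, add_zero]
    · rintro v ⟨hx, hy⟩
      rw [dg_insert C hxy h, if_neg hx, if_neg hy, add_zero, add_zero, sub_self]
  rw [sum_sub_distrib] at e
  linarith

theorem W0_insert (C : Finset (Sym2 (Fin n))) {x y : Fin n} (hxy : x ≠ y) (h : s(x, y) ∉ C) :
    W0 (insert s(x, y) C) = W0 C + 2 := by
  have := sum_pow_insert C hxy h (fun t => t)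
  unfold W0
  rw [this]
  ring

theorem W1_insert (C : Finset (Sym2 (Fin n))) {x y : Fin n} (hxy : x ≠ y) (h : s(x, y) ∉ C) :
    W1 (insert s(x, y) C) = W1 C + 2 * dg C x + 2 * dg C y + 2 := by
  have := sum_pow_insert C hxy h (fun t => t ^ 2)
  unfold W1
  rw [this]
  ring

theorem W3_insert (C : Finset (Sym2 (Fin n))) {x y : Fin n} (hxy : x ≠ y) (h : s(x, y) ∉ C) :
    W3 (insert s(x, y) C) = W3 C + 3 * ((dg C x : ℝ) ^ 2 + (dg C y : ℝ) ^ 2) +
      3 * (dg C x + dg C y) + 2 := by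
  have := sum_pow_insert C hxy h (fun t => t ^ 3)
  unfold W3
  rw [this]
  ring

theorem sum_nbr_sub (C : Finset (Sym2 (Fin n))) (x : Fin n) (c : ℝ) :
    ∑ w ∈ nbr C x, ((dg C w : ℝ) - c) = ∑ w ∈ nbr C x, (dg C w : ℝ) - dg C x * c := by
  rw [sum_sub_distrib, sum_const, nsmul_eq_mul]
  rfl

theorem ne_edges {x y z w : Fin n} (hxz : x ≠ z) (hyz : y ≠ z) : s(z, w) ≠ s(x, y) := by
  intro h
  rw [Sym2.eq_iff] at h
  rcases h with h | h
  · exact hxz h.1.symm
  · exact hyz h.1.symm

/-- TARGET 1 -/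
theorem WW_insert (C : Finset (Sym2 (Fin n))) (x y : Fin n) (hC : ND C) (hxy : x ≠ y) (h : s(x, y) ∉ C) :
    WW (insert s(x, y) C) - WW C
      = gam C x y + (5 * (W0 C / n) - 4 * dg C x - 4 * dg C y - 5) / n + 10 / (3 * (n : ℝ) ^ 2) := by
  have hn : (n : ℝ) ≠ 0 := by
    have : 0 < n := Fin.pos x
    positivity
  unfold WW gam
  rw [W2_insert C hC hxy h, W0_insert C hxy h, W1_insert C hxy h, W3_insert C hxy h,
    sum_nbr_sub, sum_nbr_sub]
  field_simp
  ring

/-- TARGET 2 -/
theorem WW_four (C : Finset (Sym2 (Fin n))) (x y z w : Fin n) (hC : ND C)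
    (hxy : x ≠ y) (hxz : x ≠ z) (hxw : x ≠ w) (hyz : y ≠ z) (hyw : y ≠ w) (hzw : z ≠ w)
    (c1 : s(x, y) ∉ C) (c2 : s(z, w) ∉ C) (c3 : s(x, z) ∉ C) (c4 : s(y, w) ∉ C) :
    WW (insert s(z, w) (insert s(x, y) C)) - WW (insert s(y, w) (insert s(x, z) C))
      = ((dg C x : ℝ) - dg C w) * ((dg C y : ℝ) - dg C z) := by
  have hzw' : s(z, w) ∉ insert s(x, y) C := by
    rw [mem_insert]
    rintro (h | h)
    · exact ne_edges hxz hyz h
    · exact c2 h
  have hyw' : s(y, w) ∉ insert s(x, z) C := by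
    rw [mem_insert]
    rintro (h | h)
    · exact ne_edges hxy hyz.symm h
    · exact c4 h
  have hdg : ∀ v, (dg (insert s(z, w) (insert s(x, y) C)) v : ℝ) =
      dg (insert s(y, w) (insert s(x, z) C)) v := by
    intro v
    rw [dg_insert _ hzw hzw', dg_insert _ hxy c1, dg_insert _ hyw hyw', dg_insert _ hxz c3]
    ring
  have e0 : W0 (insert s(z, w) (insert s(x, y) C)) = W0 (insert s(y, w) (insert s(x, z) C)) :=
    sum_congr rfl fun v _ => hdg v
  have e1 : W1 (insert s(z, w) (insert s(x, y) C)) = W1 (insert s(y, w) (insert s(x, z) C)) :=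
    sum_congr rfl fun v _ => by rw [hdg v]
  have e3 : W3 (insert s(z, w) (insert s(x, y) C)) = W3 (insert s(y, w) (insert s(x, z) C)) :=
    sum_congr rfl fun v _ => by rw [hdg v]
  set f : Fin n → ℝ := fun v => (dg (insert s(z, w) (insert s(x, y) C)) v : ℝ) with hf
  have hf2 : f = fun v => (dg (insert s(y, w) (insert s(x, z) C)) v : ℝ) := funext hdg
  have e2 : W2 (insert s(z, w) (insert s(x, y) C)) = (Qf C f f + f x * f y + f y * f x +
      f z * f w + f w * f z) / 2 := by
    rw [← Qf_insert C hxy c1, ← Qf_insert _ hzw hzw']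
    rfl
  have e2' : W2 (insert s(y, w) (insert s(x, z) C)) = (Qf C f f + f x * f z + f z * f x +
      f y * f w + f w * f y) / 2 := by
    rw [← Qf_insert C hxz c3, ← Qf_insert _ hyw hyw', hf2]
    rfl
  have f1 : f x - f w = dg C x - dg C w := by
    simp only [hf]
    rw [dg_insert _ hzw hzw', dg_insert _ hxy c1, dg_insert _ hzw hzw', dg_insert _ hxy c1,
      if_neg hxz, if_neg hxw, if_pos rfl, if_neg hxy, if_neg hzw.symm, if_pos rfl,
      if_neg hxw.symm, if_neg hyw.symm]
    ring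
  have f2 : f y - f z = dg C y - dg C z := by
    simp only [hf]
    rw [dg_insert _ hzw hzw', dg_insert _ hxy c1, dg_insert _ hzw hzw', dg_insert _ hxy c1,
      if_neg hyz, if_neg hyw, if_neg hxy.symm, if_pos rfl, if_pos rfl, if_neg hzw,
      if_neg hxz.symm, if_neg hyz.symm]
    ring
  unfold WW
  rw [e0, e1, e3, e2, e2', ← f1, ← f2]
  ring

/-- TARGET 3 -/
theorem SB_insert (A B : Finset (Sym2 (Fin n))) (x y : Fin n) (hA : ND A) (hxy : x ≠ y) (h : s(x, y) ∉ A) :
    SB (insert s(x, y) A) B - SB A B = bt B x * bt B y := by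
  have e1 : SB (insert s(x, y) A) B = Qf (insert s(x, y) A) (bt B) (bt B) / 2 := rfl
  have e2 : SB A B = Qf A (bt B) (bt B) / 2 := rfl
  rw [e1, e2, Qf_insert A hxy h]
  ring

/-- TARGET 4 -/
theorem Gam_insert (d : ℕ) (A B : Finset (Sym2 (Fin n))) (x y : Fin n) (hA : ND A) (hB : ND B) (hxy : x ≠ y)
    (h : s(x, y) ∉ A) (h' : s(x, y) ∉ B) :
    Gam d (insert s(x, y) A) B - Gam d A B
      = gam (A ∪ B) x y - bt B x * bt B y / (1 - (d : ℝ) / n)
        + (5 * (W0 (A ∪ B) / n) - 4 * dg (A ∪ B) x - 4 * dg (A ∪ B) y - 5) / n + 10 / (3 * (n : ℝ) ^ 2) := by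
  have hAB : ND (A ∪ B) := by
    intro e he
    rcases mem_union.1 he with he | he
    · exact hA e he
    · exact hB e he
  have h2 : s(x, y) ∉ A ∪ B := by
    rw [mem_union]
    rintro (he | he)
    · exact h he
    · exact h' he
  have e1 := WW_insert (A ∪ B) x y hAB hxy h2
  have e2 := SB_insert A B x y hA hxy h
  unfold Gam
  rw [insert_union]
  have e3 : SB (insert s(x, y) A) B = SB A B + bt B x * bt B y := by linarith
  rw [e3, add_div]
  linarith

/-- TARGET 5 -/
theorem Gam_four (d : ℕ) (A B : Finset (Sym2 (Fin n))) (x y z w : Fin n) (hA : ND A) (hB : ND B)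
    (hxy : x ≠ y) (hxz : x ≠ z) (hxw : x ≠ w) (hyz : y ≠ z) (hyw : y ≠ w) (hzw : z ≠ w)
    (a1 : s(x, y) ∉ A) (a2 : s(z, w) ∉ A) (a3 : s(x, z) ∉ A) (a4 : s(y, w) ∉ A)
    (b1 : s(x, y) ∉ B) (b2 : s(z, w) ∉ B) (b3 : s(x, z) ∉ B) (b4 : s(y, w) ∉ B) :
    Gam d (insert s(z, w) (insert s(x, y) A)) B - Gam d (insert s(y, w) (insert s(x, z) A)) B
      = ((dg (A ∪ B) x : ℝ) - dg (A ∪ B) w) * ((dg (A ∪ B) y : ℝ) - dg (A ∪ B) z)
        - ((dg B x : ℝ) - dg B w) * ((dg B y : ℝ) - dg B z) / (1 - (d : ℝ) / n) := by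
  have hAB : ND (A ∪ B) := by
    intro e he
    rcases mem_union.1 he with he | he
    · exact hA e he
    · exact hB e he
  have hm : ∀ e, e ∉ A → e ∉ B → e ∉ A ∪ B := by
    intro e h1 h2
    rw [mem_union]
    rintro (he | he)
    · exact h1 he
    · exact h2 he
  have hzw' : s(z, w) ∉ insert s(x, y) A := by
    rw [mem_insert]
    rintro (h | h)
    · exact ne_edges hxz hyz h
    · exact a2 h
  have hyw' : s(y, w) ∉ insert s(x, z) A := by
    rw [mem_insert]
    rintro (h | h)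
    · exact ne_edges hxy hyz.symm h
    · exact a4 h
  have e1 := WW_four (A ∪ B) x y z w hAB hxy hxz hxw hyz hyw hzw (hm _ a1 b1) (hm _ a2 b2)
    (hm _ a3 b3) (hm _ a4 b4)
  have s1 : SB (insert s(z, w) (insert s(x, y) A)) B = SB A B + bt B x * bt B y +
      bt B z * bt B w := by
    have e2 : SB (insert s(z, w) (insert s(x, y) A)) B =
      Qf (insert s(z, w) (insert s(x, y) A)) (bt B) (bt B) / 2 := rfl
    have e3 : SB A B = Qf A (bt B) (bt B) / 2 := rfl
    rw [e2, e3, Qf_insert _ hzw hzw', Qf_insert A hxy a1]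
    ring
  have s2 : SB (insert s(y, w) (insert s(x, z) A)) B = SB A B + bt B x * bt B z +
      bt B y * bt B w := by
    have e2 : SB (insert s(y, w) (insert s(x, z) A)) B =
      Qf (insert s(y, w) (insert s(x, z) A)) (bt B) (bt B) / 2 := rfl
    have e3 : SB A B = Qf A (bt B) (bt B) / 2 := rfl
    rw [e2, e3, Qf_insert _ hyw hyw', Qf_insert A hxz a3]
    ring
  have hb : ((dg B x : ℝ) - dg B w) * ((dg B y : ℝ) - dg B z) =
      (bt B x - bt B w) * (bt B y - bt B z) := by
    unfold bt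
    ring
  unfold Gam
  rw [insert_union, insert_union, insert_union, insert_union, s1, s2, hb]
  linear_combination e1

end MP0

export MP0 (WW_insert WW_four SB_insert Gam_insert Gam_four)

end Pool.Agent.H698NC
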