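import Pool.Agent.H698NC.P0
import Pool.Agent.H698NC.JA

set_option autoImplicit false

namespace Pool.Agent.H698NC

open Finset

namespace MPA

variable {n : ℕ}

theorem sum_dg (d : ℕ) (A : Finset (Sym2 (Fin n))) (hA : ND A) : ∑ v, (dg A v : ℝ) = 2 * A.card := by
  have h := sum_rd d A hA
  unfold rd EE at h
  rw [Finset.sum_sub_distrib] at h
  simp only [Finset.sum_const, Finset.card_univ, Fintype.card_fin, nsmul_eq_mul] at h
  linarith

theorem nbr_union (A B : Finset (Sym2 (Fin n))) (v : Fin n) : nbr (A ∪ B) v = nbr A v ∪ nbr B v := by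
  ext w
  simp [nbr]

theorem nbr_disj (A B : Finset (Sym2 (Fin n))) (v : Fin n) (h : Disjoint A B) : Disjoint (nbr A v) (nbr B v) := by
  rw [Finset.disjoint_left] at h ⊢
  intro w hw hw'
  simp only [nbr, Finset.mem_filter, Finset.mem_univ, true_and] at hw hw'
  exact h hw hw'

theorem dg_union (A B : Finset (Sym2 (Fin n))) (v : Fin n) (h : Disjoint A B) :
    (dg (A ∪ B) v : ℝ) = dg A v + dg B v := by
  unfold dg
  rw [nbr_union, Finset.card_union_of_disjoint (nbr_disj A B v h)]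
  push_cast
  rfl

theorem W0_nonneg (C : Finset (Sym2 (Fin n))) : 0 ≤ W0 C := Finset.sum_nonneg (fun v _ => Nat.cast_nonneg _)

theorem W1_nonneg (C : Finset (Sym2 (Fin n))) : 0 ≤ W1 C := Finset.sum_nonneg (fun v _ => by positivity)

/-- the basic estimates with explicit constants -/
theorem k_bounds_aux (m n d t : ℕ) (A B : Finset (Sym2 (Fin n)))
    (hd : m + 1 ≤ d) (hn : (2 * (m : ℝ) + 2) * ((d : ℝ) + (1 + t) ^ 6) ≤ n) (hA : Cls d m t A) (hB : BCls m B)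
    (hAB : Disjoint A B) :
    (∀ v, (dg (A ∪ B) v : ℝ) = dg A v + dg B v) ∧ (∀ v, (dg (A ∪ B) v : ℝ) ≤ (2 * (m : ℝ) + 2) * (1 + t)) ∧
      0 ≤ W0 (A ∪ B) / n ∧ W0 (A ∪ B) / n ≤ (2 * (m : ℝ) + 2) ∧ 0 ≤ W1 (A ∪ B) / n ∧
      W1 (A ∪ B) / n ≤ (2 * (m : ℝ) + 2) ^ 2 * (1 + t) ∧ (∀ v, |bt B v| ≤ (2 * (m : ℝ) + 2)) ∧
      (1 / 2 : ℝ) ≤ 1 - (d : ℝ) / n ∧ |EE d A - n * d| ≤ (2 * (m : ℝ) + 2) * n := by
  have hm0 : (0 : ℝ) ≤ m := Nat.cast_nonneg m
  have ht0 : (0 : ℝ) ≤ t := Nat.cast_nonneg t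
  have hd1 : (1 : ℝ) ≤ d := by
    have : (1 : ℕ) ≤ d := by omega
    exact_mod_cast this
  have hT : (1 + t : ℝ) ≤ (1 + t) ^ 6 := le_self_pow₀ (by linarith) (by norm_num)
  have hn2 : 2 * ((d : ℝ) + (1 + t)) ≤ n := by
    have : (d : ℝ) + (1 + t) ≤ (d : ℝ) + (1 + t) ^ 6 := by linarith
    have h3 : 2 * ((d : ℝ) + (1 + t) ^ 6) ≤ (2 * (m : ℝ) + 2) * ((d : ℝ) + (1 + t) ^ 6) := by
      have : (0 : ℝ) ≤ (d : ℝ) + (1 + t) ^ 6 := by positivity
      nlinarith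
    linarith
  have hnpos : (0 : ℝ) < n := by linarith
  have h1 := fun v => dg_union A B v hAB
  have hcard : (2 : ℝ) * A.card ≤ m * n + 2 * t := by exact_mod_cast hA.card
  have hAle : ∀ v, (dg A v : ℝ) ≤ m + t := fun v => by exact_mod_cast hA.lem v
  have hBle : ∀ v, (dg B v : ℝ) ≤ m := fun v => by exact_mod_cast hB.lem v
  have hsA := sum_dg d A hA.nd
  have hsB : ∑ v, (dg B v : ℝ) ≤ n * m := by
    calc ∑ v, (dg B v : ℝ) ≤ ∑ v : Fin n, (m : ℝ) := Finset.sum_le_sum (fun v _ => hBle v)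
      _ = n * m := by simp
  have hW0 : W0 (A ∪ B) ≤ (2 * (m : ℝ) + 1) * n := by
    unfold W0
    simp_rw [h1]
    rw [Finset.sum_add_distrib]
    nlinarith
  have h2 : ∀ v, (dg (A ∪ B) v : ℝ) ≤ (2 * (m : ℝ) + 2) * (1 + t) := by
    intro v
    rw [h1]
    have := hAle v
    have := hBle v
    nlinarith [mul_nonneg hm0 ht0]
  have h0 := W0_nonneg (A ∪ B)
  have h4 : W0 (A ∪ B) / n ≤ (2 * (m : ℝ) + 2) := by
    rw [div_le_iff₀ hnpos]
    nlinarith
  refine ⟨h1, h2, div_nonneg h0 hnpos.le, h4, div_nonneg (W1_nonneg _) hnpos.le, ?_, ?_, ?_, ?_⟩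
  · rw [div_le_iff₀ hnpos]
    have : W1 (A ∪ B) ≤ (2 * (m : ℝ) + 2) * (1 + t) * W0 (A ∪ B) := by
      unfold W1 W0
      rw [Finset.mul_sum]
      refine Finset.sum_le_sum (fun v _ => ?_)
      rw [sq]
      exact mul_le_mul_of_nonneg_right (h2 v) (Nat.cast_nonneg _)
    calc W1 (A ∪ B) ≤ (2 * (m : ℝ) + 2) * (1 + t) * W0 (A ∪ B) := this
      _ ≤ (2 * (m : ℝ) + 2) * (1 + t) * ((2 * (m : ℝ) + 2) * n) := by
        refine mul_le_mul_of_nonneg_left ?_ (by positivity)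
        nlinarith
      _ = (2 * (m : ℝ) + 2) ^ 2 * (1 + t) * n := by ring
  · intro v
    unfold bt
    have hb1 : W0 B / n ≤ m := by
      rw [div_le_iff₀ hnpos]
      unfold W0
      linarith
    have hb0 : 0 ≤ W0 B / n := div_nonneg (W0_nonneg B) hnpos.le
    have := hBle v
    have h00 : (0 : ℝ) ≤ dg B v := Nat.cast_nonneg _
    rw [abs_le]
    constructor <;> linarith
  · have : (d : ℝ) / n ≤ 1 / 2 := by
      rw [div_le_iff₀ hnpos]
      linarith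
    linarith
  · unfold EE
    have : (n : ℝ) * d - 2 * A.card - n * d = - (2 * A.card) := by ring
    rw [this, abs_neg, abs_of_nonneg (by positivity)]
    nlinarith

/-- TARGET 1: the basic sizes -/
theorem k_bounds (m : ℕ) : ∃ C : ℝ, 1 ≤ C ∧ ∀ (n d t : ℕ) (A B : Finset (Sym2 (Fin n))),
    m + 1 ≤ d → C * ((d : ℝ) + (1 + t) ^ 6) ≤ n → Cls d m t A → BCls m B → Disjoint A B →
    (∀ v, (dg (A ∪ B) v : ℝ) = dg A v + dg B v) ∧ (∀ v, (dg (A ∪ B) v : ℝ) ≤ C * (1 + t)) ∧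
      0 ≤ W0 (A ∪ B) / n ∧ W0 (A ∪ B) / n ≤ C ∧ 0 ≤ W1 (A ∪ B) / n ∧ W1 (A ∪ B) / n ≤ C * (1 + t) ∧ (∀ v, |bt B v| ≤ C) ∧
      (1 / 2 : ℝ) ≤ 1 - (d : ℝ) / n ∧ |EE d A - n * d| ≤ C * n := by
  refine ⟨(2 * (m : ℝ) + 2) ^ 2, ?_, ?_⟩
  · have : (0 : ℝ) ≤ m := Nat.cast_nonneg m
    nlinarith
  · intro n d t A B hd hn hA hB hAB
    have hm0 : (0 : ℝ) ≤ m := Nat.cast_nonneg m
    have ht0 : (0 : ℝ) ≤ t := Nat.cast_nonneg t
    have hc : (2 * (m : ℝ) + 2) ≤ (2 * (m : ℝ) + 2) ^ 2 := by nlinarith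
    have hn' : (2 * (m : ℝ) + 2) * ((d : ℝ) + (1 + t) ^ 6) ≤ n := by
      refine le_trans (mul_le_mul_of_nonneg_right hc (by positivity)) hn
    obtain ⟨h1, h2, h3, h4, h5, h6, h7, h8, h9⟩ := k_bounds_aux m n d t A B hd hn' hA hB hAB
    refine ⟨h1, fun v => (h2 v).trans ?_, h3, h4.trans hc, h5, h6, fun v => (h7 v).trans hc, h8, h9.trans ?_⟩
    · exact mul_le_mul_of_nonneg_right hc (by positivity)
    · exact mul_le_mul_of_nonneg_right hc (by positivity)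

/-- all the basic sizes with one constant -/
structure Bas (K T : ℝ) (n d : ℕ) (A B : Finset (Sym2 (Fin n))) : Prop where
  K1 : 1 ≤ K
  T1 : 1 ≤ T
  d1 : (1 : ℝ) ≤ d
  dn : 2 * (d : ℝ) ≤ n
  Tn : T ^ 6 ≤ n
  Elo : (n : ℝ) * d ≤ K * EE d A
  Ehi : EE d A ≤ n * d
  End : |EE d A - n * d| ≤ K * n
  rΔ : ∀ v, |rd d A v - 1 - D2 d A / EE d A| ≤ K * T
  r0 : ∀ v, 0 ≤ rd d A v
  a1 : ∀ v, (dg A v : ℝ) ≤ K * T
  k1 : ∀ v, (dg (A ∪ B) v : ℝ) ≤ K * T
  κ0 : 0 ≤ W0 (A ∪ B) / n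
  κ1 : W0 (A ∪ B) / n ≤ K
  w0 : 0 ≤ W1 (A ∪ B) / n
  w1 : W1 (A ∪ B) / n ≤ K * T
  b1 : ∀ v, |bt B v| ≤ K
  q1 : (1 / 2 : ℝ) ≤ 1 - (d : ℝ) / n
  nA : ND A

theorem bas_exists (m : ℕ) : ∃ K : ℝ, 1 ≤ K ∧ ∀ (n d t : ℕ) (A B : Finset (Sym2 (Fin n))),
    m + 1 ≤ d → K * ((d : ℝ) + (1 + t) ^ 6) ≤ n → Cls d m t A → BCls m B → Disjoint A B →
    Bas K (1 + t) n d A B := by
  obtain ⟨C1, hC1, h1⟩ := k_bounds m
  obtain ⟨C2, hC2, h2⟩ := stat_bounds m
  obtain ⟨C3, hC3, h3⟩ := EE_lower m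
  have hm0 : (0 : ℝ) ≤ m := Nat.cast_nonneg m
  refine ⟨C1 + C2 + C3 + m + 2, by linarith, ?_⟩
  intro n d t A B hd hn hA hB hAB
  set K := C1 + C2 + C3 + m + 2 with hK
  have ht0 : (0 : ℝ) ≤ t := Nat.cast_nonneg t
  have hd1 : (1 : ℝ) ≤ d := by
    have : (1 : ℕ) ≤ d := by omega
    exact_mod_cast this
  have hpos : (0 : ℝ) ≤ (d : ℝ) + (1 + t) ^ 6 := by positivity
  have hn1 : C1 * ((d : ℝ) + (1 + t) ^ 6) ≤ n := le_trans (mul_le_mul_of_nonneg_right (by linarith) hpos) hn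
  have hn2 : C2 * ((d : ℝ) + (1 + t) ^ 6) ≤ n := le_trans (mul_le_mul_of_nonneg_right (by linarith) hpos) hn
  have hn3 : C3 * ((d : ℝ) + (1 + t) ^ 6) ≤ n := le_trans (mul_le_mul_of_nonneg_right (by linarith) hpos) hn
  obtain ⟨e1, e2, e3, e4, e5, e6, e7, e8, e9⟩ := h1 n d t A B hd hn1 hA hB hAB
  obtain ⟨f1, f2, f3, f4, f5, f6⟩ := h2 n d t A B hd hn2 hA hB
  have g1 := h3 n d t A hd hn3 hA
  have hnpos : (0 : ℝ) < n := by
    have : (1 : ℝ) * (1 : ℝ) ≤ K * ((d : ℝ) + (1 + t) ^ 6) := by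
      have : (1 : ℝ) ≤ (d : ℝ) + (1 + t) ^ 6 := by
        have : (0 : ℝ) ≤ (1 + (t : ℝ)) ^ 6 := by positivity
        linarith
      exact mul_le_mul (by linarith) this (by norm_num) (by linarith)
    linarith
  have hCK1 : C1 ≤ K := by linarith
  have hKpos : (0 : ℝ) ≤ K := by linarith
  have hmT : (m : ℝ) + t ≤ K * (1 + t) := by nlinarith [mul_nonneg hm0 ht0]
  refine ⟨by linarith, by linarith, hd1, ?_, ?_, ?_, ?_, ?_, ?_, fun v => (f3 v).1, ?_, ?_, e3, e4.trans hCK1, e5, ?_, ?_, e8, hA.nd⟩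
  · have hP : (0 : ℝ) ≤ (1 + (t : ℝ)) ^ 6 := by positivity
    have h2K : 2 ≤ K := by linarith
    have := mul_le_mul_of_nonneg_right h2K hpos
    linarith
  · have h2K : 1 ≤ K := by linarith
    have := mul_le_mul_of_nonneg_right h2K hpos
    linarith
  · rw [div_le_iff₀ (by linarith)] at g1
    have hE : 0 ≤ EE d A := by
      by_contra hcon
      push Not at hcon
      have h5 : (n : ℝ) * d ≤ 0 := by
        refine g1.trans ?_
        exact mul_nonpos_of_nonpos_of_nonneg hcon.le (by linarith)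
      have h6 : 0 < (n : ℝ) * d := mul_pos hnpos (by linarith)
      linarith
    refine g1.trans ?_
    rw [mul_comm]
    exact mul_le_mul_of_nonneg_right (by linarith) hE
  · unfold EE
    have : (0 : ℝ) ≤ 2 * (A.card : ℝ) := by positivity
    linarith
  · exact e9.trans (mul_le_mul_of_nonneg_right hCK1 hnpos.le)
  · intro v
    exact (f3 v).2.2.trans hmT
  · intro v
    have : (dg A v : ℝ) ≤ m + t := by exact_mod_cast hA.lem v
    linarith
  · intro v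
    refine (e2 v).trans (mul_le_mul_of_nonneg_right hCK1 (by linarith))
  · refine e6.trans (mul_le_mul_of_nonneg_right hCK1 (by linarith))
  · intro v
    exact (e7 v).trans hCK1

namespace Bas

variable {K T : ℝ} {d : ℕ} {A B : Finset (Sym2 (Fin n))}

theorem npos (h : Bas K T n d A B) : (0 : ℝ) < n := by
  have := h.d1
  have := h.dn
  linarith

theorem Epos (h : Bas K T n d A B) : 0 < EE d A := by
  have h1 := h.Elo
  have h2 := h.npos
  have h3 := h.d1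
  have h4 := h.K1
  by_contra hcon
  push Not at hcon
  nlinarith [mul_pos h2 (by linarith : (0 : ℝ) < d)]

theorem TT_near (h : Bas K T n d A B) (v : Fin n) :
    |TT d A B v - d * dg (A ∪ B) v| ≤ K ^ 2 * T ^ 2 := by
  have hKT : 0 ≤ K * T := mul_nonneg (by linarith [h.K1]) (by linarith [h.T1])
  have e : TT d A B v - d * dg (A ∪ B) v = - ∑ w ∈ nbr (A ∪ B) v, (dg A w : ℝ) := by
    unfold TT rd
    rw [Finset.sum_sub_distrib]
    simp only [Finset.sum_const, nsmul_eq_mul]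
    unfold dg
    ring
  rw [e, abs_neg, abs_of_nonneg (Finset.sum_nonneg (fun w _ => Nat.cast_nonneg _))]
  calc ∑ w ∈ nbr (A ∪ B) v, (dg A w : ℝ) ≤ ∑ w ∈ nbr (A ∪ B) v, K * T := Finset.sum_le_sum (fun w _ => h.a1 w)
    _ = dg (A ∪ B) v * (K * T) := by simp [dg]
    _ ≤ (K * T) * (K * T) := mul_le_mul_of_nonneg_right (h.k1 v) hKT
    _ = K ^ 2 * T ^ 2 := by ring

theorem sum_r (h : Bas K T n d A B) : ∑ v, rd d A v = EE d A := sum_rd d A h.nA

theorem QQ_near (h : Bas K T n d A B) :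
    |QQ d A B / EE d A - d * (W0 (A ∪ B) / n)| ≤ 3 * K ^ 3 * T ^ 2 := by
  have hK := h.K1
  have hT := h.T1
  have hE := h.Epos
  have hn := h.npos
  have hd := h.d1
  have hKT : 0 ≤ K * T := mul_nonneg (by linarith [h.K1]) (by linarith [h.T1])
  have e : QQ d A B / EE d A - d * (W0 (A ∪ B) / n) =
      (∑ v, rd d A v * (TT d A B v - d * dg (A ∪ B) v)) / EE d A
        + d / (n * EE d A) * ∑ v, (n * rd d A v - EE d A) * dg (A ∪ B) v := by
    have e1 : ∑ v, rd d A v * (TT d A B v - d * dg (A ∪ B) v) = QQ d A B - d * ∑ v, rd d A v * dg (A ∪ B) v := by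
      unfold QQ
      rw [Finset.mul_sum, ← Finset.sum_sub_distrib]
      exact Finset.sum_congr rfl (fun v _ => by ring)
    have e2 : ∑ v, (n * rd d A v - EE d A) * dg (A ∪ B) v
        = n * ∑ v, rd d A v * dg (A ∪ B) v - EE d A * W0 (A ∪ B) := by
      unfold W0
      rw [Finset.mul_sum, Finset.mul_sum, ← Finset.sum_sub_distrib]
      exact Finset.sum_congr rfl (fun v _ => by ring)
    rw [e1, e2]
    field_simp
    ring
  rw [e]
  have p1 : |(∑ v, rd d A v * (TT d A B v - d * dg (A ∪ B) v)) / EE d A| ≤ K ^ 2 * T ^ 2 := by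
    rw [abs_div, abs_of_pos hE, div_le_iff₀ hE]
    calc |∑ v, rd d A v * (TT d A B v - d * dg (A ∪ B) v)|
        ≤ ∑ v, |rd d A v * (TT d A B v - d * dg (A ∪ B) v)| := Finset.abs_sum_le_sum_abs _ _
      _ ≤ ∑ v, rd d A v * (K ^ 2 * T ^ 2) := by
          refine Finset.sum_le_sum (fun v _ => ?_)
          rw [abs_mul, abs_of_nonneg (h.r0 v)]
          exact mul_le_mul_of_nonneg_left (h.TT_near v) (h.r0 v)
      _ = K ^ 2 * T ^ 2 * EE d A := by rw [← Finset.sum_mul, h.sum_r]; ring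
  have p2 : |∑ v, (n * rd d A v - EE d A) * dg (A ∪ B) v| ≤ 2 * K * T * n * (K * n) := by
    calc |∑ v, (n * rd d A v - EE d A) * dg (A ∪ B) v|
        ≤ ∑ v, |(n * rd d A v - EE d A) * dg (A ∪ B) v| := Finset.abs_sum_le_sum_abs _ _
      _ ≤ ∑ v, (2 * K * T * n) * dg (A ∪ B) v := by
          refine Finset.sum_le_sum (fun v _ => ?_)
          rw [abs_mul, abs_of_nonneg (Nat.cast_nonneg (α := ℝ) (dg (A ∪ B) v))]
          refine mul_le_mul_of_nonneg_right ?_ (Nat.cast_nonneg _)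
          have q1 := abs_le.mp h.End
          have q2 := h.a1 v
          have q3 : (0 : ℝ) ≤ dg A v := Nat.cast_nonneg _
          have q4 : K * n ≤ K * T * n := by
            have : K * 1 ≤ K * T := mul_le_mul_of_nonneg_left hT (by linarith)
            nlinarith
          have q5 : (n : ℝ) * dg A v ≤ K * T * n := by nlinarith
          have q6 : (0 : ℝ) ≤ (n : ℝ) * dg A v := by positivity
          unfold rd
          rw [abs_le]
          constructor <;> nlinarith [q1.1, q1.2]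
      _ = 2 * K * T * n * W0 (A ∪ B) := by rw [← Finset.mul_sum]; rfl
      _ ≤ 2 * K * T * n * (K * n) := by
          refine mul_le_mul_of_nonneg_left ?_ (by positivity)
          have := h.κ1
          rwa [div_le_iff₀ hn] at this
  have p3 : |d / (n * EE d A) * ∑ v, (n * rd d A v - EE d A) * dg (A ∪ B) v| ≤ 2 * K ^ 3 * T := by
    rw [abs_mul, abs_of_nonneg (by positivity : (0 : ℝ) ≤ d / (n * EE d A))]
    calc d / (n * EE d A) * |∑ v, (n * rd d A v - EE d A) * dg (A ∪ B) v|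
        ≤ d / (n * EE d A) * (2 * K * T * n * (K * n)) := mul_le_mul_of_nonneg_left p2 (by positivity)
      _ = (2 * K ^ 2 * T) * ((n * d) / EE d A) := by field_simp
      _ ≤ (2 * K ^ 2 * T) * K := by
          refine mul_le_mul_of_nonneg_left ?_ (by positivity)
          rw [div_le_iff₀ hE]
          exact h.Elo
      _ = 2 * K ^ 3 * T := by ring
  have p4 : K ^ 2 * T ^ 2 ≤ K ^ 3 * T ^ 2 := by
    refine mul_le_mul_of_nonneg_right ?_ (by positivity)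
    exact pow_le_pow_right₀ hK (by norm_num)
  have p5 : 2 * K ^ 3 * T ≤ 2 * K ^ 3 * T ^ 2 := by
    refine mul_le_mul_of_nonneg_left ?_ (by positivity)
    nlinarith
  refine (abs_add_le _ _).trans ?_
  linarith

theorem bet_near' (h : Bas K T n d A B) (x z : Fin n) :
    |bet d A B x z - d * sg (A ∪ B) x z| ≤ 8 * K ^ 3 * T ^ 2 := by
  have hK := h.K1
  have hT := h.T1
  have hKT : 0 ≤ K * T := mul_nonneg (by linarith [h.K1]) (by linarith [h.T1])
  have hx := h.TT_near x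
  have hz := h.TT_near z
  have hq := h.QQ_near
  have h1 := h.rΔ x
  have h2 := h.rΔ z
  have h3 : |rd d A z - d| ≤ K * T := by
    unfold rd
    have := h.a1 z
    have h0 : (0 : ℝ) ≤ dg A z := Nat.cast_nonneg _
    rw [abs_le]
    constructor <;> linarith
  have h4 : |(rd d A x - 1 - D2 d A / EE d A) * (rd d A z - 1 - D2 d A / EE d A)| ≤ K ^ 2 * T ^ 2 := by
    rw [abs_mul]
    calc _ ≤ (K * T) * (K * T) := mul_le_mul h1 h2 (abs_nonneg _) hKT
      _ = _ := by ring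
  have e : bet d A B x z - d * sg (A ∪ B) x z = (rd d A x - 1 - D2 d A / EE d A) + (rd d A z - d)
      - (rd d A x - 1 - D2 d A / EE d A) * (rd d A z - 1 - D2 d A / EE d A)
      + (TT d A B x - d * dg (A ∪ B) x) + (TT d A B z - d * dg (A ∪ B) z)
      - (QQ d A B / EE d A - d * (W0 (A ∪ B) / n)) := by
    unfold bet sg
    ring
  rw [e]
  have p4 : K ^ 2 * T ^ 2 ≤ K ^ 3 * T ^ 2 := by
    refine mul_le_mul_of_nonneg_right ?_ (by positivity)
    exact pow_le_pow_right₀ hK (by norm_num)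
  have p5 : K * T ≤ K ^ 3 * T ^ 2 := by
    refine mul_le_mul (le_self_pow₀ hK (by norm_num)) (le_self_pow₀ hT (by norm_num)) (by linarith) (by positivity)
  rw [abs_le] at *
  constructor <;> linarith [hx.1, hx.2, hz.1, hz.2, hq.1, hq.2, h1.1, h1.2, h3.1, h3.2, h4.1, h4.2]

theorem sg_le (h : Bas K T n d A B) (x z : Fin n) : |sg (A ∪ B) x z| ≤ 4 * K * T := by
  have hK := h.K1
  have hT := h.T1
  have h1 := h.k1 x
  have h2 := h.k1 z
  have h3 := h.κ0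
  have h4 := h.κ1
  have h5 : K ≤ K * T := by nlinarith
  have h6 : 1 ≤ K * T := by nlinarith
  have h7 : (0 : ℝ) ≤ dg (A ∪ B) x := Nat.cast_nonneg _
  have h8 : (0 : ℝ) ≤ dg (A ∪ B) z := Nat.cast_nonneg _
  unfold sg
  rw [abs_le]
  constructor <;> linarith

theorem nbr_sum_le (h : Bas K T n d A B) (x : Fin n) :
    |∑ w ∈ nbr (A ∪ B) x, ((dg (A ∪ B) w : ℝ) - W0 (A ∪ B) / n)| ≤ K ^ 2 * T ^ 2 := by
  have hK := h.K1
  have hT := h.T1
  have hKT : 0 ≤ K * T := mul_nonneg (by linarith [h.K1]) (by linarith [h.T1])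
  have h5 : K ≤ K * T := by nlinarith
  calc |∑ w ∈ nbr (A ∪ B) x, ((dg (A ∪ B) w : ℝ) - W0 (A ∪ B) / n)|
      ≤ ∑ w ∈ nbr (A ∪ B) x, |(dg (A ∪ B) w : ℝ) - W0 (A ∪ B) / n| := Finset.abs_sum_le_sum_abs _ _
    _ ≤ ∑ w ∈ nbr (A ∪ B) x, K * T := by
        refine Finset.sum_le_sum (fun w _ => ?_)
        have h1 := h.k1 w
        have h3 := h.κ0
        have h4 := h.κ1
        have h7 : (0 : ℝ) ≤ dg (A ∪ B) w := Nat.cast_nonneg _
        rw [abs_le]
        constructor <;> linarith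
    _ = dg (A ∪ B) x * (K * T) := by simp [dg]
    _ ≤ (K * T) * (K * T) := mul_le_mul_of_nonneg_right (h.k1 x) hKT
    _ = K ^ 2 * T ^ 2 := by ring

theorem gam_le (h : Bas K T n d A B) (x z : Fin n) : |gam (A ∪ B) x z| ≤ 30 * K ^ 2 * T ^ 2 := by
  have hK := h.K1
  have hT := h.T1
  have hn := h.npos
  have hKT : 0 ≤ K * T := mul_nonneg (by linarith [h.K1]) (by linarith [h.T1])
  have h5 : K ≤ K * T := by nlinarith
  have h6 : 1 ≤ K * T := by nlinarith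
  have s1 := abs_le.mp (h.nbr_sum_le x)
  have s2 := abs_le.mp (h.nbr_sum_le z)
  have k1 := h.k1 x
  have k2 := h.k1 z
  have k3 := h.κ0
  have k4 := h.κ1
  have k7 : (0 : ℝ) ≤ dg (A ∪ B) x := Nat.cast_nonneg _
  have k8 : (0 : ℝ) ≤ dg (A ∪ B) z := Nat.cast_nonneg _
  have w0 := h.w0
  have w1 := h.w1
  have e : gam (A ∪ B) x z = ((1 + (dg (A ∪ B) x : ℝ)) ^ 2 + (1 + (dg (A ∪ B) z : ℝ)) ^ 2 - (1 + W0 (A ∪ B) / n) ^ 2) / 2
    + ∑ w ∈ nbr (A ∪ B) x, ((dg (A ∪ B) w : ℝ) - W0 (A ∪ B) / n)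
    + ∑ w ∈ nbr (A ∪ B) z, ((dg (A ∪ B) w : ℝ) - W0 (A ∪ B) / n)
    - 2 * (W1 (A ∪ B) / n - (W0 (A ∪ B) / n) ^ 2)
    + (1 + (dg (A ∪ B) x : ℝ) - W0 (A ∪ B) / n) * (1 + (dg (A ∪ B) z : ℝ) - W0 (A ∪ B) / n) := by
    unfold gam
    ring
  rw [e]
  have q0 : K ^ 2 * T ^ 2 = (K * T) ^ 2 := by ring
  have q1 : (1 + (dg (A ∪ B) x : ℝ)) ^ 2 ≤ 4 * (K * T) ^ 2 := by
    have : (1 + (dg (A ∪ B) x : ℝ)) ^ 2 ≤ (2 * (K * T)) ^ 2 := pow_le_pow_left₀ (by linarith) (by linarith) 2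
    linarith
  have q2 : (1 + (dg (A ∪ B) z : ℝ)) ^ 2 ≤ 4 * (K * T) ^ 2 := by
    have : (1 + (dg (A ∪ B) z : ℝ)) ^ 2 ≤ (2 * (K * T)) ^ 2 := pow_le_pow_left₀ (by linarith) (by linarith) 2
    linarith
  have q3 : (1 + W0 (A ∪ B) / n) ^ 2 ≤ 4 * (K * T) ^ 2 := by
    have : (1 + W0 (A ∪ B) / n) ^ 2 ≤ (2 * (K * T)) ^ 2 := pow_le_pow_left₀ (by linarith) (by linarith) 2
    linarith
  have q4 : (W0 (A ∪ B) / n) ^ 2 ≤ (K * T) ^ 2 := pow_le_pow_left₀ k3 (by linarith) 2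
  have q5 : K * T ≤ (K * T) ^ 2 := le_self_pow₀ h6 (by norm_num)
  have q6 : |(1 + (dg (A ∪ B) x : ℝ) - W0 (A ∪ B) / n) * (1 + (dg (A ∪ B) z : ℝ) - W0 (A ∪ B) / n)| ≤ 4 * (K * T) ^ 2 := by
    rw [abs_mul]
    calc _ ≤ (2 * (K * T)) * (2 * (K * T)) := by
          refine mul_le_mul ?_ ?_ (abs_nonneg _) (by linarith)
          · rw [abs_le]; constructor <;> linarith
          · rw [abs_le]; constructor <;> linarith
      _ = _ := by ring
  have q7 := abs_le.mp q6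
  have q8 : 0 ≤ (1 + (dg (A ∪ B) x : ℝ)) ^ 2 := by positivity
  have q9 : 0 ≤ (1 + (dg (A ∪ B) z : ℝ)) ^ 2 := by positivity
  have q10 : 0 ≤ (1 + W0 (A ∪ B) / n) ^ 2 := by positivity
  have q11 : 0 ≤ (W0 (A ∪ B) / n) ^ 2 := by positivity
  have e30 : 30 * K ^ 2 * T ^ 2 = 30 * (K * T) ^ 2 := by ring
  rw [e30]
  rw [q0] at s1 s2
  obtain ⟨s11, s12⟩ := s1
  obtain ⟨s21, s22⟩ := s2
  obtain ⟨q71, q72⟩ := q7
  rw [abs_le]
  constructor <;> linarith

end Bas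

/-- TARGET 2 -/
theorem bet_near (m : ℕ) : ∃ C : ℝ, 1 ≤ C ∧ ∀ (n d t : ℕ) (A B : Finset (Sym2 (Fin n))) (x z : Fin n),
    m + 1 ≤ d → C * ((d : ℝ) + (1 + t) ^ 6) ≤ n → Cls d m t A → BCls m B → Disjoint A B →
    |bet d A B x z - d * sg (A ∪ B) x z| ≤ C * (1 + t) ^ 2 ∧ |sg (A ∪ B) x z| ≤ C * (1 + t) ∧
      |gam (A ∪ B) x z| ≤ C * (1 + t) ^ 2 := by
  obtain ⟨K, hK, h⟩ := bas_exists m
  refine ⟨30 * K ^ 3, ?_, ?_⟩
  · have : 1 ≤ K ^ 3 := one_le_pow₀ hK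
    linarith
  · intro n d t A B x z hd hn hA hB hAB
    have ht0 : (0 : ℝ) ≤ t := Nat.cast_nonneg t
    have hK3 : K ≤ K ^ 3 := le_self_pow₀ hK (by norm_num)
    have hK2 : K ^ 2 ≤ K ^ 3 := pow_le_pow_right₀ hK (by norm_num)
    have hb := h n d t A B hd (le_trans (mul_le_mul_of_nonneg_right (by linarith) (by positivity)) hn) hA hB hAB
    refine ⟨(hb.bet_near' x z).trans ?_, (hb.sg_le x z).trans ?_, (hb.gam_le x z).trans ?_⟩
    · refine mul_le_mul_of_nonneg_right ?_ (by positivity)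
      linarith
    · refine mul_le_mul_of_nonneg_right ?_ (by positivity)
      linarith
    · refine mul_le_mul_of_nonneg_right ?_ (by positivity)
      linarith

theorem log_one_sub_near (y : ℝ) (h0 : 0 ≤ y) (h1 : y ≤ 1 / 2) : |-Real.log (1 - y) - y| ≤ 2 * y ^ 2 := by
  have h := Real.abs_log_sub_add_sum_range_le (x := y) (by rw [abs_of_nonneg h0]; linarith) 1
  simp only [Finset.range_one, Finset.sum_singleton, zero_add, pow_one, Nat.cast_zero, div_one] at h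
  rw [abs_of_nonneg h0] at h
  have e : |-Real.log (1 - y) - y| = |y + Real.log (1 - y)| := by
    rw [← abs_neg]; congr 1; ring
  rw [e]
  refine h.trans ?_
  rw [div_le_iff₀ (by linarith)]
  have : 0 ≤ y ^ 2 := by positivity
  norm_num
  nlinarith

namespace Bas

variable {K T : ℝ} {d : ℕ} {A B : Finset (Sym2 (Fin n))}

theorem bet_le (h : Bas K T n d A B) (x z : Fin n) : |bet d A B x z| ≤ 12 * K ^ 3 * T ^ 2 * d := by
  have hK := h.K1
  have hT := h.T1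
  have hd := h.d1
  have h1 := h.bet_near' x z
  have h2 := h.sg_le x z
  have h3 : |(d : ℝ) * sg (A ∪ B) x z| ≤ 4 * K ^ 3 * T ^ 2 * d := by
    rw [abs_mul, abs_of_nonneg (by linarith : (0 : ℝ) ≤ d)]
    calc d * |sg (A ∪ B) x z| ≤ d * (4 * K * T) := mul_le_mul_of_nonneg_left h2 (by linarith)
      _ = 4 * (K * T) * d := by ring
      _ ≤ 4 * (K ^ 3 * T ^ 2) * d := by
        have p5 : K * T ≤ K ^ 3 * T ^ 2 := by
          refine mul_le_mul (le_self_pow₀ hK (by norm_num)) (le_self_pow₀ hT (by norm_num)) (by linarith) (by positivity)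
        nlinarith
      _ = _ := by ring
  have h4 : 8 * K ^ 3 * T ^ 2 ≤ 8 * K ^ 3 * T ^ 2 * d := le_mul_of_one_le_right (by positivity) hd
  have h5 : bet d A B x z = (bet d A B x z - d * sg (A ∪ B) x z) + d * sg (A ∪ B) x z := by ring
  rw [h5]
  refine (abs_add_le _ _).trans ?_
  linarith

theorem E8 (h : Bas K T n d A B) (hn8 : 8 * K ≤ n) : 8 ≤ EE d A := by
  have hK := h.K1
  have hd := h.d1
  have hE := h.Epos
  have h1 := h.Elo
  have h2 : (n : ℝ) * 1 ≤ n * d := mul_le_mul_of_nonneg_left hd (by linarith)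
  have h3 : K * 8 ≤ K * EE d A := by linarith
  exact le_of_mul_le_mul_left h3 (by linarith)

/-- `1 / E^2` -/
theorem invE2 (h : Bas K T n d A B) : (d : ℝ) / EE d A ^ 2 ≤ K ^ 2 / ((n : ℝ) ^ 2 * d) := by
  have hE := h.Epos
  have hn := h.npos
  have hd := h.d1
  rw [div_le_div_iff₀ (by positivity) (by positivity)]
  have h1 := h.Elo
  have : ((n : ℝ) * d) ^ 2 ≤ (K * EE d A) ^ 2 := pow_le_pow_left₀ (by positivity) h1 2
  calc (d : ℝ) * ((n : ℝ) ^ 2 * d) = ((n : ℝ) * d) ^ 2 := by ring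
    _ ≤ (K * EE d A) ^ 2 := this
    _ = _ := by ring

theorem term2 (h : Bas K T n d A B) (hn8 : 8 * K ≤ n) (x z : Fin n) :
    |(bet d A B x z - 1) / (EE d A - 2) - (bet d A B x z - 1) / EE d A| ≤ 52 * K ^ 5 * T ^ 2 / ((n : ℝ) ^ 2 * d) := by
  have hK := h.K1
  have hT := h.T1
  have hE8 := h.E8 hn8
  have hE := h.Epos
  have hn := h.npos
  have hd := h.d1
  have hb := h.bet_le x z
  have hb1 : |bet d A B x z - 1| ≤ 13 * K ^ 3 * T ^ 2 * d := by
    have : 1 ≤ K ^ 3 * T ^ 2 * d := by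
      have a1 : 1 ≤ K ^ 3 := one_le_pow₀ hK
      have a2 : 1 ≤ T ^ 2 := one_le_pow₀ hT
      have a3 : 1 ≤ K ^ 3 * T ^ 2 := one_le_mul_of_one_le_of_one_le a1 a2
      exact one_le_mul_of_one_le_of_one_le a3 hd
    rw [abs_le] at *
    constructor <;> linarith [hb.1, hb.2]
  have e : (bet d A B x z - 1) / (EE d A - 2) - (bet d A B x z - 1) / EE d A
      = (bet d A B x z - 1) * (2 / (EE d A * (EE d A - 2))) := by
    have : EE d A - 2 ≠ 0 := by linarith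
    field_simp
    ring
  rw [e, abs_mul, abs_of_nonneg (by
    have : 0 < EE d A - 2 := by linarith
    positivity : (0 : ℝ) ≤ 2 / (EE d A * (EE d A - 2)))]
  have e2 : 2 / (EE d A * (EE d A - 2)) ≤ 4 / EE d A ^ 2 := by
    have h2 : 0 < EE d A - 2 := by linarith
    rw [div_le_div_iff₀ (by positivity) (by positivity)]
    nlinarith
  calc |bet d A B x z - 1| * (2 / (EE d A * (EE d A - 2)))
      ≤ (13 * K ^ 3 * T ^ 2 * d) * (4 / EE d A ^ 2) := by
        refine mul_le_mul hb1 e2 ?_ (by positivity)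
        have : 0 < EE d A - 2 := by linarith
        positivity
    _ = 52 * K ^ 3 * T ^ 2 * (d / EE d A ^ 2) := by ring
    _ ≤ 52 * K ^ 3 * T ^ 2 * (K ^ 2 / ((n : ℝ) ^ 2 * d)) := mul_le_mul_of_nonneg_left h.invE2 (by positivity)
    _ = _ := by ring

theorem term3 (h : Bas K T n d A B) (hn8 : 8 * K ≤ n) (x z : Fin n) :
    |(rd d A x - 1 + (rd d A z - 1) - D2 d A / EE d A) ^ 2 / (EE d A - 2) ^ 2 - 1 / (n : ℝ) ^ 2|
      ≤ 120 * K ^ 4 * T ^ 2 / ((n : ℝ) ^ 2 * d) := by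
  have hK := h.K1
  have hT := h.T1
  have hE8 := h.E8 hn8
  have hE := h.Epos
  have hn := h.npos
  have hd := h.d1
  have hKT : 1 ≤ K * T := one_le_mul_of_one_le_of_one_le hK hT
  have hKKT : K ≤ K * T := le_mul_of_one_le_right (by linarith) hT
  set P := rd d A x - 1 + (rd d A z - 1) - D2 d A / EE d A with hP
  have hPd : |P - d| ≤ 3 * (K * T) := by
    have h1 := abs_le.mp (h.rΔ x)
    have h3 := h.a1 z
    have h0 : (0 : ℝ) ≤ dg A z := Nat.cast_nonneg _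
    have h4 : rd d A z = d - dg A z := rfl
    rw [hP, abs_le]
    constructor <;> linarith [h1.1, h1.2]
  have hPd' := abs_le.mp hPd
  have hEn := abs_le.mp h.End
  have hKn : K * n ≤ K * T * n := mul_le_mul_of_nonneg_right hKKT hn.le
  have h1n : 1 * (n : ℝ) ≤ K * T * n := mul_le_mul_of_nonneg_right hKT hn.le
  have hn8' : 8 ≤ (n : ℝ) := by linarith
  have i1 : |n * P - (EE d A - 2)| ≤ 6 * (K * T) * n := by
    have j1 : n * (P - d) ≤ n * (3 * (K * T)) := mul_le_mul_of_nonneg_left hPd'.2 hn.le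
    have j2 : n * (-(3 * (K * T))) ≤ n * (P - d) := mul_le_mul_of_nonneg_left hPd'.1 hn.le
    rw [abs_le]
    constructor <;> nlinarith [hEn.1, hEn.2]
  have i2 : |n * P + (EE d A - 2)| ≤ 5 * (K * T) * (n * d) := by
    have j1 : n * (P - d) ≤ n * (3 * (K * T)) := mul_le_mul_of_nonneg_left hPd'.2 hn.le
    have j2 : n * (-(3 * (K * T))) ≤ n * (P - d) := mul_le_mul_of_nonneg_left hPd'.1 hn.le
    have j3 : n * (3 * (K * T)) ≤ 3 * (K * T) * (n * d) := by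
      have : n * 1 ≤ (n : ℝ) * d := mul_le_mul_of_nonneg_left hd hn.le
      have : (3 * (K * T)) * (n * 1) ≤ (3 * (K * T)) * (n * d) := mul_le_mul_of_nonneg_left this (by linarith)
      linarith
    have j4 : 1 * ((n : ℝ) * d) ≤ (K * T) * (n * d) := mul_le_mul_of_nonneg_right hKT (by positivity)
    have j5 := h.Ehi
    have j6 : 0 ≤ (n : ℝ) * d := by positivity
    rw [abs_le]
    constructor <;> linarith
  have hE2 : 0 < EE d A - 2 := by linarith
  have e : P ^ 2 / (EE d A - 2) ^ 2 - 1 / (n : ℝ) ^ 2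
      = ((n * P - (EE d A - 2)) * (n * P + (EE d A - 2))) / ((n : ℝ) ^ 2 * (EE d A - 2) ^ 2) := by
    field_simp
    ring
  rw [e, abs_div, abs_mul, abs_of_nonneg (by positivity : (0 : ℝ) ≤ (n : ℝ) ^ 2 * (EE d A - 2) ^ 2)]
  have i3 : |n * P - (EE d A - 2)| * |n * P + (EE d A - 2)| ≤ (6 * (K * T) * n) * (5 * (K * T) * (n * d)) :=
    mul_le_mul i1 i2 (abs_nonneg _) (by positivity)
  have i4 : (EE d A / 2) ^ 2 ≤ (EE d A - 2) ^ 2 := pow_le_pow_left₀ (by linarith) (by linarith) 2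
  calc |n * P - (EE d A - 2)| * |n * P + (EE d A - 2)| / ((n : ℝ) ^ 2 * (EE d A - 2) ^ 2)
      ≤ ((6 * (K * T) * n) * (5 * (K * T) * (n * d))) / ((n : ℝ) ^ 2 * (EE d A / 2) ^ 2) := by
        refine div_le_div₀ (by positivity) i3 (by positivity) ?_
        exact mul_le_mul_of_nonneg_left i4 (by positivity)
    _ = 120 * K ^ 2 * T ^ 2 * (d / EE d A ^ 2) := by
        field_simp
        ring
    _ ≤ 120 * K ^ 2 * T ^ 2 * (K ^ 2 / ((n : ℝ) ^ 2 * d)) := mul_le_mul_of_nonneg_left h.invE2 (by positivity)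
    _ = _ := by ring

theorem gL_eq (h : Bas K T n d A B) (hn8 : 8 * K ≤ n) (hev : Even (n * d)) (hB : ND B) (x z : Fin n)
    (hV : Val d A B x z) :
    gL (ellp d) d A B x z - (bet d A B x z / EE d A
        + (gam (A ∪ B) x z - bt B x * bt B z / (1 - (d : ℝ) / n) - 1) / (n : ℝ) ^ 2)
      = (-Real.log (1 - 1 / EE d A) - 1 / EE d A)
        + ((bet d A B x z - 1) / (EE d A - 2) - (bet d A B x z - 1) / EE d A)
        - ((rd d A x - 1 + (rd d A z - 1) - D2 d A / EE d A) ^ 2 / (EE d A - 2) ^ 2 - 1 / (n : ℝ) ^ 2)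
        + ((5 * (W0 (A ∪ B) / n) - 4 * dg (A ∪ B) x - 4 * dg (A ∪ B) z - 5) / n + 10 / (3 * (n : ℝ) ^ 2)) / (n : ℝ) ^ 2 := by
  have hE8 := h.E8 hn8
  have g1 := gg_exact d A B x z hev h.nA hB (by linarith) hV
  have g2 := Gam_insert d A B x z h.nA hB hV.ne hV.nA hV.nB
  have hE := h.Epos
  have hn := h.npos
  have e : gL (ellp d) d A B x z = gL (ell d) d A B x z + (Gam d (insert s(x, z) A) B - Gam d A B) / (n : ℝ) ^ 2 := by
    unfold gL ellp
    ring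
  rw [e, g1, g2]
  ring

theorem gL_near (h : Bas K T n d A B) (hn8 : 8 * K ≤ n) (hev : Even (n * d)) (hB : ND B) (x z : Fin n)
    (hV : Val d A B x z) :
    |gL (ellp d) d A B x z - (bet d A B x z / EE d A
        + (gam (A ∪ B) x z - bt B x * bt B z / (1 - (d : ℝ) / n) - 1) / (n : ℝ) ^ 2)|
      ≤ 200 * K ^ 5 * T ^ 2 / ((n : ℝ) ^ 2 * d) := by
  have hK := h.K1
  have hT := h.T1
  have hE8 := h.E8 hn8
  have hE := h.Epos
  have hn := h.npos
  have hd := h.d1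
  have hKT : 1 ≤ K * T := one_le_mul_of_one_le_of_one_le hK hT
  have hKKT : K ≤ K * T := le_mul_of_one_le_right (by linarith) hT
  have hn8' : 8 ≤ (n : ℝ) := by linarith
  have hnd : (d : ℝ) ≤ n := by linarith [h.dn]
  rw [h.gL_eq hn8 hev hB x z hV]
  set D : ℝ := (n : ℝ) ^ 2 * d with hD
  have hDpos : 0 < D := by positivity
  have hA5 : K * T ≤ K ^ 5 * T ^ 2 :=
    mul_le_mul (le_self_pow₀ hK (by norm_num)) (le_self_pow₀ hT (by norm_num)) (by linarith) (by positivity)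
  have hK4 : K ^ 4 * T ^ 2 ≤ K ^ 5 * T ^ 2 :=
    mul_le_mul_of_nonneg_right (pow_le_pow_right₀ hK (by norm_num)) (by positivity)
  have hK2 : K ^ 2 ≤ K ^ 5 * T ^ 2 := by
    calc K ^ 2 ≤ K ^ 5 := pow_le_pow_right₀ hK (by norm_num)
      _ ≤ K ^ 5 * T ^ 2 := le_mul_of_one_le_right (by positivity) (one_le_pow₀ hT)
  have t1 : |-Real.log (1 - 1 / EE d A) - 1 / EE d A| ≤ 2 * (K ^ 5 * T ^ 2) / D := by
    refine (log_one_sub_near (1 / EE d A) (by positivity) ?_).trans ?_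
    · rw [div_le_div_iff₀ hE (by norm_num)]; linarith
    · have : 2 * (1 / EE d A) ^ 2 ≤ 2 * (d / EE d A ^ 2) := by
        refine mul_le_mul_of_nonneg_left ?_ (by norm_num)
        rw [div_pow, one_pow]
        exact div_le_div_of_nonneg_right hd (by positivity)
      refine this.trans ?_
      have h2 := h.invE2
      calc 2 * ((d : ℝ) / EE d A ^ 2) ≤ 2 * (K ^ 2 / D) := mul_le_mul_of_nonneg_left h2 (by norm_num)
        _ ≤ 2 * ((K ^ 5 * T ^ 2) / D) := by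
          refine mul_le_mul_of_nonneg_left ?_ (by norm_num)
          exact div_le_div_of_nonneg_right hK2 hDpos.le
        _ = _ := by ring
  have t2 : |(bet d A B x z - 1) / (EE d A - 2) - (bet d A B x z - 1) / EE d A| ≤ 52 * (K ^ 5 * T ^ 2) / D := by
    refine (h.term2 hn8 x z).trans (le_of_eq ?_)
    ring
  have t3 : |(rd d A x - 1 + (rd d A z - 1) - D2 d A / EE d A) ^ 2 / (EE d A - 2) ^ 2 - 1 / (n : ℝ) ^ 2|
      ≤ 120 * (K ^ 5 * T ^ 2) / D := by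
    refine (h.term3 hn8 x z).trans ?_
    refine div_le_div_of_nonneg_right ?_ hDpos.le
    linarith
  have t4 : |((5 * (W0 (A ∪ B) / n) - 4 * dg (A ∪ B) x - 4 * dg (A ∪ B) z - 5) / n + 10 / (3 * (n : ℝ) ^ 2)) / (n : ℝ) ^ 2|
      ≤ 22 * (K ^ 5 * T ^ 2) / D := by
    have k1 := h.k1 x
    have k2 := h.k1 z
    have k3 := h.κ0
    have k4 := h.κ1
    have k7 : (0 : ℝ) ≤ dg (A ∪ B) x := Nat.cast_nonneg _
    have k8 : (0 : ℝ) ≤ dg (A ∪ B) z := Nat.cast_nonneg _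
    have a1 : |(5 * (W0 (A ∪ B) / n) - 4 * dg (A ∪ B) x - 4 * dg (A ∪ B) z - 5)| ≤ 18 * (K * T) := by
      rw [abs_le]
      constructor <;> linarith
    have a2 : |(5 * (W0 (A ∪ B) / n) - 4 * dg (A ∪ B) x - 4 * dg (A ∪ B) z - 5) / n| ≤ 18 * (K * T) / d := by
      rw [abs_div, abs_of_pos hn]
      calc _ ≤ 18 * (K * T) / n := div_le_div_of_nonneg_right a1 hn.le
        _ ≤ 18 * (K * T) / d := div_le_div_of_nonneg_left (by positivity) (by linarith) hnd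
    have a3 : |10 / (3 * (n : ℝ) ^ 2)| ≤ 4 * (K * T) / d := by
      rw [abs_of_nonneg (by positivity), div_le_div_iff₀ (by positivity) (by linarith)]
      have b1 : (n : ℝ) * 1 ≤ (n : ℝ) ^ 2 := by nlinarith
      have b2 : 1 * (n : ℝ) ^ 2 ≤ (K * T) * (n : ℝ) ^ 2 := mul_le_mul_of_nonneg_right hKT (by positivity)
      nlinarith
    rw [abs_div, abs_of_nonneg (by positivity : (0 : ℝ) ≤ (n : ℝ) ^ 2)]
    have a4 := (abs_add_le ((5 * (W0 (A ∪ B) / n) - 4 * dg (A ∪ B) x - 4 * dg (A ∪ B) z - 5) / n) (10 / (3 * (n : ℝ) ^ 2))).trans (add_le_add a2 a3)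
    calc _ ≤ (18 * (K * T) / d + 4 * (K * T) / d) / (n : ℝ) ^ 2 := div_le_div_of_nonneg_right a4 (by positivity)
      _ = 22 * (K * T) / D := by
        rw [hD]
        field_simp
        ring
      _ ≤ 22 * (K ^ 5 * T ^ 2) / D := div_le_div_of_nonneg_right (by linarith) hDpos.le
  have e200 : 200 * K ^ 5 * T ^ 2 / D = 200 * (K ^ 5 * T ^ 2) / D := by ring
  rw [e200]
  have hpos : 0 ≤ (K ^ 5 * T ^ 2) / D := by positivity
  have f1 : 2 * (K ^ 5 * T ^ 2) / D = 2 * ((K ^ 5 * T ^ 2) / D) := by ring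
  have f2 : 52 * (K ^ 5 * T ^ 2) / D = 52 * ((K ^ 5 * T ^ 2) / D) := by ring
  have f3 : 120 * (K ^ 5 * T ^ 2) / D = 120 * ((K ^ 5 * T ^ 2) / D) := by ring
  have f4 : 22 * (K ^ 5 * T ^ 2) / D = 22 * ((K ^ 5 * T ^ 2) / D) := by ring
  have f5 : 200 * (K ^ 5 * T ^ 2) / D = 200 * ((K ^ 5 * T ^ 2) / D) := by ring
  rw [f1] at t1
  rw [f2] at t2
  rw [f3] at t3
  rw [f4] at t4
  rw [f5]
  rw [abs_le] at *
  obtain ⟨t11, t12⟩ := t1
  obtain ⟨t21, t22⟩ := t2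
  obtain ⟨t31, t32⟩ := t3
  obtain ⟨t41, t42⟩ := t4
  constructor <;> linarith

theorem bb_le (h : Bas K T n d A B) (x z : Fin n) : |bt B x * bt B z / (1 - (d : ℝ) / n)| ≤ 2 * K ^ 2 := by
  have hK := h.K1
  have h1 := h.b1 x
  have h2 := h.b1 z
  have hq := h.q1
  rw [abs_div, abs_mul, abs_of_pos (by linarith : (0 : ℝ) < 1 - (d : ℝ) / n), div_le_iff₀ (by linarith)]
  calc |bt B x| * |bt B z| ≤ K * K := mul_le_mul h1 h2 (abs_nonneg _) (by linarith)
    _ = 2 * K ^ 2 * (1 / 2) := by ring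
    _ ≤ 2 * K ^ 2 * (1 - (d : ℝ) / n) := mul_le_mul_of_nonneg_left hq (by positivity)

theorem betE_le (h : Bas K T n d A B) (x z : Fin n) : |bet d A B x z / EE d A| ≤ 12 * K ^ 4 * T ^ 2 / n := by
  have hK := h.K1
  have hE := h.Epos
  have hn := h.npos
  have hd := h.d1
  rw [abs_div, abs_of_pos hE, div_le_div_iff₀ hE hn]
  calc |bet d A B x z| * n ≤ (12 * K ^ 3 * T ^ 2 * d) * n := mul_le_mul_of_nonneg_right (h.bet_le x z) hn.le
    _ = 12 * K ^ 3 * T ^ 2 * (n * d) := by ring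
    _ ≤ 12 * K ^ 3 * T ^ 2 * (K * EE d A) := mul_le_mul_of_nonneg_left h.Elo (by positivity)
    _ = _ := by ring

/-- the middle coefficient -/
theorem mid_le (h : Bas K T n d A B) (x z : Fin n) :
    |gam (A ∪ B) x z - bt B x * bt B z / (1 - (d : ℝ) / n) - 1| ≤ 33 * K ^ 5 * T ^ 2 := by
  have hK := h.K1
  have hT := h.T1
  have h1 := abs_le.mp (h.gam_le x z)
  have h2 := abs_le.mp (h.bb_le x z)
  have hK2 : K ^ 2 ≤ K ^ 5 * T ^ 2 := by
    calc K ^ 2 ≤ K ^ 5 := pow_le_pow_right₀ hK (by norm_num)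
      _ ≤ K ^ 5 * T ^ 2 := le_mul_of_one_le_right (by positivity) (one_le_pow₀ hT)
  have hK2' : K ^ 2 * T ^ 2 ≤ K ^ 5 * T ^ 2 :=
    mul_le_mul_of_nonneg_right (pow_le_pow_right₀ hK (by norm_num)) (by positivity)
  have h3 : 1 ≤ K ^ 5 * T ^ 2 := one_le_mul_of_one_le_of_one_le (one_le_pow₀ hK) (one_le_pow₀ hT)
  obtain ⟨h11, h12⟩ := h1
  obtain ⟨h21, h22⟩ := h2
  rw [abs_le]
  constructor <;> linarith

theorem gL_le (h : Bas K T n d A B) (hn8 : 8 * K ≤ n) (hev : Even (n * d)) (hB : ND B) (x z : Fin n)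
    (hV : Val d A B x z) :
    |gL (ellp d) d A B x z - bet d A B x z / EE d A| ≤ 233 * K ^ 5 * T ^ 2 / (n : ℝ) ^ 2 ∧
    |gL (ellp d) d A B x z| ≤ 245 * K ^ 5 * T ^ 2 / n := by
  have hK := h.K1
  have hT := h.T1
  have hE := h.Epos
  have hn := h.npos
  have hd := h.d1
  have h1 := h.gL_near hn8 hev hB x z hV
  have h2 : |(gam (A ∪ B) x z - bt B x * bt B z / (1 - (d : ℝ) / n) - 1) / (n : ℝ) ^ 2| ≤ 33 * K ^ 5 * T ^ 2 / (n : ℝ) ^ 2 := by
    rw [abs_div, abs_of_nonneg (by positivity : (0 : ℝ) ≤ (n : ℝ) ^ 2)]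
    exact div_le_div_of_nonneg_right (h.mid_le x z) (by positivity)
  have h3 : 200 * K ^ 5 * T ^ 2 / ((n : ℝ) ^ 2 * d) ≤ 200 * K ^ 5 * T ^ 2 / (n : ℝ) ^ 2 := by
    refine div_le_div_of_nonneg_left (by positivity) (by positivity) ?_
    exact le_mul_of_one_le_right (by positivity) hd
  have h4 : |gL (ellp d) d A B x z - bet d A B x z / EE d A| ≤ 233 * K ^ 5 * T ^ 2 / (n : ℝ) ^ 2 := by
    have e : 233 * K ^ 5 * T ^ 2 / (n : ℝ) ^ 2 = 200 * K ^ 5 * T ^ 2 / (n : ℝ) ^ 2 + 33 * K ^ 5 * T ^ 2 / (n : ℝ) ^ 2 := by ring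
    have e2 : gL (ellp d) d A B x z - bet d A B x z / EE d A = (gL (ellp d) d A B x z - (bet d A B x z / EE d A
        + (gam (A ∪ B) x z - bt B x * bt B z / (1 - (d : ℝ) / n) - 1) / (n : ℝ) ^ 2))
        + (gam (A ∪ B) x z - bt B x * bt B z / (1 - (d : ℝ) / n) - 1) / (n : ℝ) ^ 2 := by ring
    rw [e, e2]
    exact (abs_add_le _ _).trans (add_le_add (h1.trans h3) h2)
  refine ⟨h4, ?_⟩
  have h5 := h.betE_le x z
  have hn1 : 1 ≤ (n : ℝ) := by linarith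
  have h6 : 233 * K ^ 5 * T ^ 2 / (n : ℝ) ^ 2 ≤ 233 * K ^ 5 * T ^ 2 / n := by
    refine div_le_div_of_nonneg_left (by positivity) (by positivity) ?_
    exact le_self_pow₀ hn1 (by norm_num)
  have h7 : 12 * K ^ 4 * T ^ 2 / n ≤ 12 * K ^ 5 * T ^ 2 / n := by
    refine div_le_div_of_nonneg_right ?_ hn.le
    refine mul_le_mul_of_nonneg_right ?_ (by positivity)
    have : K ^ 4 ≤ K ^ 5 := pow_le_pow_right₀ hK (by norm_num)
    linarith
  have e : 245 * K ^ 5 * T ^ 2 / (n : ℝ) = 233 * K ^ 5 * T ^ 2 / n + 12 * K ^ 5 * T ^ 2 / n := by ring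
  have e2 : gL (ellp d) d A B x z = (gL (ellp d) d A B x z - bet d A B x z / EE d A) + bet d A B x z / EE d A := by ring
  rw [e, e2]
  exact (abs_add_le _ _).trans (add_le_add (h4.trans h6) (h5.trans h7))

end Bas

/-- TARGET 3 -/
theorem ggp (m : ℕ) : ∃ C : ℝ, 1 ≤ C ∧ ∀ (n d t : ℕ) (A B : Finset (Sym2 (Fin n))) (x z : Fin n),
    Even (n * d) → m + 1 ≤ d → C * ((d : ℝ) + (1 + t) ^ 6) ≤ n → Cls d m t A → BCls m B → Disjoint A B → Val d A B x z →
    |gL (ellp d) d A B x z - (bet d A B x z / EE d A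
        + (gam (A ∪ B) x z - bt B x * bt B z / (1 - (d : ℝ) / n) - 1) / (n : ℝ) ^ 2)| ≤ C * (1 + t) ^ 2 / ((n : ℝ) ^ 2 * d) ∧
      |gL (ellp d) d A B x z| ≤ C * (1 + t) ^ 2 / n := by
  obtain ⟨K, hK, h⟩ := bas_exists m
  refine ⟨245 * K ^ 5, ?_, ?_⟩
  · have : 1 ≤ K ^ 5 := one_le_pow₀ hK
    linarith
  · intro n d t A B x z hev hd hn hA hB hAB hV
    have ht0 : (0 : ℝ) ≤ t := Nat.cast_nonneg t
    have hd0 : (1 : ℝ) ≤ d := by
      have : (1 : ℕ) ≤ d := by omega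
      exact_mod_cast this
    have hK5 : K ≤ K ^ 5 := le_self_pow₀ hK (by norm_num)
    have hP : (0 : ℝ) ≤ (d : ℝ) + (1 + t) ^ 6 := by positivity
    have hb := h n d t A B hd (le_trans (mul_le_mul_of_nonneg_right (by linarith) hP) hn) hA hB hAB
    have hn8 : 8 * K ≤ n := by
      have h1 : (1 : ℝ) ≤ (d : ℝ) + (1 + t) ^ 6 := by
        have : (0 : ℝ) ≤ (1 + (t : ℝ)) ^ 6 := by positivity
        linarith
      have h2 : 245 * K ^ 5 * 1 ≤ 245 * K ^ 5 * ((d : ℝ) + (1 + t) ^ 6) := mul_le_mul_of_nonneg_left h1 (by positivity)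
      linarith
    refine ⟨(hb.gL_near hn8 hev hB.nd x z hV).trans ?_, (hb.gL_le hn8 hev hB.nd x z hV).2⟩
    refine div_le_div_of_nonneg_right ?_ (by positivity)
    refine mul_le_mul_of_nonneg_right ?_ (by positivity)
    have : 0 ≤ K ^ 5 := by positivity
    linarith

theorem exp_near (g : ℝ) (hg : |g| ≤ 1) : |Real.exp g - 1 - g - g ^ 2 / 2| ≤ |g| ^ 3 := by
  have h := Real.exp_bound hg (n := 3) (by norm_num)
  simp only [Finset.sum_range_succ, Finset.range_zero, Finset.sum_empty, Nat.factorial] at h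
  norm_num at h
  have e : Real.exp g - 1 - g - g ^ 2 / 2 = Real.exp g - (1 + g + g ^ 2 / 2) := by ring
  rw [e]
  refine h.trans ?_
  have : 0 ≤ |g| ^ 3 := by positivity
  linarith

namespace Bas

variable {K T : ℝ} {d : ℕ} {A B : Finset (Sym2 (Fin n))}

theorem bet_s (h : Bas K T n d A B) (x z : Fin n) :
    |(bet d A B x z / EE d A) ^ 2 - sg (A ∪ B) x z ^ 2 / (n : ℝ) ^ 2| ≤ 192 * K ^ 8 * T ^ 4 / ((n : ℝ) ^ 2 * d) := by
  have hK := h.K1
  have hT := h.T1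
  have hE := h.Epos
  have hn := h.npos
  have hd := h.d1
  have hs := h.sg_le x z
  have hb := h.bet_near' x z
  have p5 : K * T ≤ K ^ 3 * T ^ 2 :=
    mul_le_mul (le_self_pow₀ hK (by norm_num)) (le_self_pow₀ hT (by norm_num)) (by linarith) (by positivity)
  have h1 : |bet d A B x z / EE d A - sg (A ∪ B) x z / n| ≤ 12 * K ^ 4 * T ^ 2 / (n * d) := by
    have e : bet d A B x z / EE d A - sg (A ∪ B) x z / n
        = (n * (bet d A B x z - d * sg (A ∪ B) x z) - sg (A ∪ B) x z * (EE d A - n * d)) / (n * EE d A) := by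
      field_simp
      ring
    have h2 : |n * (bet d A B x z - d * sg (A ∪ B) x z) - sg (A ∪ B) x z * (EE d A - n * d)| ≤ 12 * K ^ 3 * T ^ 2 * n := by
      have a1 : |(n : ℝ) * (bet d A B x z - d * sg (A ∪ B) x z)| ≤ 8 * K ^ 3 * T ^ 2 * n := by
        rw [abs_mul, abs_of_pos hn]
        calc _ ≤ n * (8 * K ^ 3 * T ^ 2) := mul_le_mul_of_nonneg_left hb hn.le
          _ = _ := by ring
      have a2 : |sg (A ∪ B) x z * (EE d A - n * d)| ≤ 4 * K ^ 3 * T ^ 2 * n := by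
        rw [abs_mul]
        calc _ ≤ (4 * K * T) * (K * n) := mul_le_mul hs h.End (abs_nonneg _) (by positivity)
          _ = 4 * (K ^ 2 * T) * n := by ring
          _ ≤ 4 * (K ^ 3 * T ^ 2) * n := by
            refine mul_le_mul_of_nonneg_right ?_ hn.le
            refine mul_le_mul_of_nonneg_left ?_ (by norm_num)
            exact mul_le_mul (pow_le_pow_right₀ hK (by norm_num)) (le_self_pow₀ hT (by norm_num)) (by linarith) (by positivity)
          _ = _ := by ring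
      refine (abs_sub _ _).trans ?_
      linarith
    rw [e, abs_div, abs_of_pos (by positivity : (0 : ℝ) < n * EE d A)]
    calc _ ≤ 12 * K ^ 3 * T ^ 2 * n / (n * EE d A) := div_le_div_of_nonneg_right h2 (by positivity)
      _ = 12 * K ^ 3 * T ^ 2 / EE d A := by field_simp
      _ ≤ 12 * K ^ 4 * T ^ 2 / (n * d) := by
        rw [div_le_div_iff₀ hE (by positivity)]
        calc 12 * K ^ 3 * T ^ 2 * (n * d) ≤ 12 * K ^ 3 * T ^ 2 * (K * EE d A) := mul_le_mul_of_nonneg_left h.Elo (by positivity)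
          _ = _ := by ring
  have h2 : |bet d A B x z / EE d A + sg (A ∪ B) x z / n| ≤ 16 * K ^ 4 * T ^ 2 / n := by
    have a1 := h.betE_le x z
    have a2 : |sg (A ∪ B) x z / n| ≤ 4 * K ^ 4 * T ^ 2 / n := by
      rw [abs_div, abs_of_pos hn]
      refine div_le_div_of_nonneg_right ?_ hn.le
      refine hs.trans ?_
      have : K * T ≤ K ^ 4 * T ^ 2 :=
        mul_le_mul (le_self_pow₀ hK (by norm_num)) (le_self_pow₀ hT (by norm_num)) (by linarith) (by positivity)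
      linarith
    have e : 16 * K ^ 4 * T ^ 2 / (n : ℝ) = 12 * K ^ 4 * T ^ 2 / n + 4 * K ^ 4 * T ^ 2 / n := by ring
    rw [e]
    exact (abs_add_le _ _).trans (add_le_add a1 a2)
  have e : (bet d A B x z / EE d A) ^ 2 - sg (A ∪ B) x z ^ 2 / (n : ℝ) ^ 2
      = (bet d A B x z / EE d A - sg (A ∪ B) x z / n) * (bet d A B x z / EE d A + sg (A ∪ B) x z / n) := by ring
  rw [e, abs_mul]
  calc _ ≤ (12 * K ^ 4 * T ^ 2 / (n * d)) * (16 * K ^ 4 * T ^ 2 / n) := mul_le_mul h1 h2 (abs_nonneg _) (by positivity)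
    _ = _ := by
      field_simp
      ring

theorem exp_gL (h : Bas K T n d A B) (hn8 : 8 * K ≤ n) (hn9 : 245 * K ^ 5 * T ^ 6 ≤ n) (hev : Even (n * d)) (hB : ND B)
    (x z : Fin n) (hV : Val d A B x z) :
    |Real.exp (gL (ellp d) d A B x z) - (1 + bet d A B x z / EE d A
        + (gam (A ∪ B) x z - bt B x * bt B z / (1 - (d : ℝ) / n) - 1 + sg (A ∪ B) x z ^ 2 / 2) / (n : ℝ) ^ 2)|
      ≤ 15000000 * K ^ 15 * T ^ 6 / ((n : ℝ) ^ 2 * d) := by
  have hK := h.K1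
  have hT := h.T1
  have hE := h.Epos
  have hn := h.npos
  have hd := h.d1
  have hnd : (d : ℝ) ≤ n := by linarith [h.dn]
  obtain ⟨g1, g2⟩ := h.gL_le hn8 hev hB x z hV
  have g3 := h.gL_near hn8 hev hB x z hV
  have g4 := h.bet_s x z
  have g5 := h.betE_le x z
  set g := gL (ellp d) d A B x z with hg
  set b := bet d A B x z / EE d A with hb
  set s := sg (A ∪ B) x z with hs
  set u := gam (A ∪ B) x z - bt B x * bt B z / (1 - (d : ℝ) / n) - 1 with hu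
  set D : ℝ := (n : ℝ) ^ 2 * d with hD
  have hDpos : 0 < D := by positivity
  have hg1 : |g| ≤ 1 := by
    refine g2.trans ?_
    rw [div_le_one hn]
    refine le_trans ?_ hn9
    exact mul_le_mul_of_nonneg_left (pow_le_pow_right₀ hT (by norm_num)) (by positivity)
  have e1 := exp_near g hg1
  have n3 : D ≤ (n : ℝ) ^ 3 := by
    rw [hD]
    calc (n : ℝ) ^ 2 * d ≤ (n : ℝ) ^ 2 * n := mul_le_mul_of_nonneg_left hnd (by positivity)
      _ = _ := by ring
  set X := K ^ 15 * T ^ 6 / D with hX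
  have hX0 : 0 ≤ X := by positivity
  have t1 : |g| ^ 3 ≤ 14706125 * X := by
    calc |g| ^ 3 ≤ (245 * K ^ 5 * T ^ 2 / n) ^ 3 := pow_le_pow_left₀ (abs_nonneg _) g2 3
      _ = 14706125 * (K ^ 15 * T ^ 6) / (n : ℝ) ^ 3 := by
        rw [div_pow]
        congr 1
        ring
      _ ≤ 14706125 * (K ^ 15 * T ^ 6) / D := div_le_div_of_nonneg_left (by positivity) hDpos n3
      _ = _ := by rw [hX]; ring
  have t2 : |g - (b + u / (n : ℝ) ^ 2)| ≤ 200 * X := by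
    refine g3.trans ?_
    rw [hX]
    have : 200 * (K ^ 15 * T ^ 6 / D) = (200 * (K ^ 15 * T ^ 6)) / D := by ring
    rw [this]
    refine div_le_div_of_nonneg_right ?_ hDpos.le
    have : K ^ 5 * T ^ 2 ≤ K ^ 15 * T ^ 6 :=
      mul_le_mul (pow_le_pow_right₀ hK (by norm_num)) (pow_le_pow_right₀ hT (by norm_num)) (by positivity) (by positivity)
    linarith
  have t3 : |g ^ 2 - b ^ 2| ≤ 59881 * X := by
    have a1 : |g + b| ≤ 257 * K ^ 5 * T ^ 2 / n := by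
      have a2 : |b| ≤ 12 * K ^ 5 * T ^ 2 / n := by
        refine g5.trans ?_
        refine div_le_div_of_nonneg_right ?_ hn.le
        refine mul_le_mul_of_nonneg_right ?_ (by positivity)
        have : K ^ 4 ≤ K ^ 5 := pow_le_pow_right₀ hK (by norm_num)
        linarith
      have e : 257 * K ^ 5 * T ^ 2 / (n : ℝ) = 245 * K ^ 5 * T ^ 2 / n + 12 * K ^ 5 * T ^ 2 / n := by ring
      rw [e]
      exact (abs_add_le _ _).trans (add_le_add g2 a2)
    have e : g ^ 2 - b ^ 2 = (g - b) * (g + b) := by ring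
    rw [e, abs_mul]
    calc _ ≤ (233 * K ^ 5 * T ^ 2 / (n : ℝ) ^ 2) * (257 * K ^ 5 * T ^ 2 / n) := mul_le_mul g1 a1 (abs_nonneg _) (by positivity)
      _ = 59881 * (K ^ 10 * T ^ 4) / (n : ℝ) ^ 3 := by
        field_simp
        ring
      _ ≤ 59881 * (K ^ 15 * T ^ 6) / D := by
        refine div_le_div₀ (by positivity) ?_ hDpos n3
        refine mul_le_mul_of_nonneg_left ?_ (by norm_num)
        exact mul_le_mul (pow_le_pow_right₀ hK (by norm_num)) (pow_le_pow_right₀ hT (by norm_num)) (by positivity) (by positivity)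
      _ = _ := by rw [hX]; ring
  have t4 : |b ^ 2 - s ^ 2 / (n : ℝ) ^ 2| ≤ 192 * X := by
    refine g4.trans ?_
    rw [hX]
    have : 192 * (K ^ 15 * T ^ 6 / D) = (192 * (K ^ 15 * T ^ 6)) / D := by ring
    rw [this]
    refine div_le_div_of_nonneg_right ?_ hDpos.le
    have : K ^ 8 * T ^ 4 ≤ K ^ 15 * T ^ 6 :=
      mul_le_mul (pow_le_pow_right₀ hK (by norm_num)) (pow_le_pow_right₀ hT (by norm_num)) (by positivity) (by positivity)
    linarith
  have eX : 15000000 * K ^ 15 * T ^ 6 / D = 15000000 * X := by rw [hX]; ring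
  have eM : Real.exp g - (1 + b + (u + s ^ 2 / 2) / (n : ℝ) ^ 2)
      = (Real.exp g - 1 - g - g ^ 2 / 2) + (g - (b + u / (n : ℝ) ^ 2)) + (g ^ 2 - b ^ 2) / 2 + (b ^ 2 - s ^ 2 / (n : ℝ) ^ 2) / 2 := by
    ring
  rw [eX, eM]
  have e2 := e1.trans t1
  rw [abs_le] at *
  obtain ⟨t21, t22⟩ := t2
  obtain ⟨t31, t32⟩ := t3
  obtain ⟨t41, t42⟩ := t4
  obtain ⟨t51, t52⟩ := e2
  constructor <;> linarith

end Bas

/-- TARGET 4 -/
theorem ggp_exp (m : ℕ) : ∃ C : ℝ, 1 ≤ C ∧ ∀ (n d t : ℕ) (A B : Finset (Sym2 (Fin n))) (x z : Fin n),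
    Even (n * d) → m + 1 ≤ d → C * ((d : ℝ) + (1 + t) ^ 6) ≤ n → Cls d m t A → BCls m B → Disjoint A B → Val d A B x z →
    |Real.exp (gL (ellp d) d A B x z) - (1 + bet d A B x z / EE d A
        + (gam (A ∪ B) x z - bt B x * bt B z / (1 - (d : ℝ) / n) - 1 + sg (A ∪ B) x z ^ 2 / 2) / (n : ℝ) ^ 2)|
      ≤ C * (1 + t) ^ 6 / ((n : ℝ) ^ 2 * d) := by
  obtain ⟨K, hK, h⟩ := bas_exists m
  refine ⟨15000000 * K ^ 15, ?_, ?_⟩
  · have : 1 ≤ K ^ 15 := one_le_pow₀ hK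
    linarith
  · intro n d t A B x z hev hd hn hA hB hAB hV
    have ht0 : (0 : ℝ) ≤ t := Nat.cast_nonneg t
    have hd0 : (1 : ℝ) ≤ d := by
      have : (1 : ℕ) ≤ d := by omega
      exact_mod_cast this
    have hK5 : K ≤ K ^ 15 := le_self_pow₀ hK (by norm_num)
    have hK6 : K ^ 5 ≤ K ^ 15 := pow_le_pow_right₀ hK (by norm_num)
    have hP : (0 : ℝ) ≤ (d : ℝ) + (1 + t) ^ 6 := by positivity
    have hT6 : (1 : ℝ) ≤ (1 + (t : ℝ)) ^ 6 := one_le_pow₀ (by linarith)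
    have hb := h n d t A B hd (le_trans (mul_le_mul_of_nonneg_right (by linarith) hP) hn) hA hB hAB
    have hn8 : 8 * K ≤ n := by
      have h1 : (1 : ℝ) ≤ (d : ℝ) + (1 + t) ^ 6 := by linarith
      have h2 : 15000000 * K ^ 15 * 1 ≤ 15000000 * K ^ 15 * ((d : ℝ) + (1 + t) ^ 6) := mul_le_mul_of_nonneg_left h1 (by positivity)
      linarith
    have hn9 : 245 * K ^ 5 * (1 + (t : ℝ)) ^ 6 ≤ n := by
      refine le_trans ?_ hn
      refine mul_le_mul (by linarith) (by linarith) (by positivity) (by positivity)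
    exact hb.exp_gL hn8 hn9 hev hB.nd x z hV

end MPA

export MPA (k_bounds bet_near ggp ggp_exp)

end Pool.Agent.H698NC
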