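import Pool.Agent.H698NC.PA

set_option autoImplicit false

namespace Pool.Agent.H698NC

open Finset

namespace MPB

variable {n : ℕ}

theorem gam_avg_mem (C : Finset (Sym2 (Fin n))) (v w : Fin n) : w ∈ nbr C v ↔ v ∈ nbr C w := by
  simp only [nbr, mem_filter, mem_univ, true_and]
  rw [Sym2.eq_swap]

theorem gam_avg_swap (C : Finset (Sym2 (Fin n))) (f : Fin n → ℝ) :
    ∑ z, ∑ w ∈ nbr C z, f w = ∑ w, (dg C w : ℝ) * f w := by
  have h1 : ∀ z, ∑ w ∈ nbr C z, f w = ∑ w, if w ∈ nbr C z then f w else 0 := by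
    intro z
    rw [← sum_filter]
    congr 1
    ext w
    simp
  simp only [h1]
  rw [sum_comm]
  refine sum_congr rfl fun w _ => ?_
  have h2 : ∀ z, (if w ∈ nbr C z then f w else 0) = if z ∈ nbr C w then f w else 0 := by
    intro z
    simp only [gam_avg_mem C z w]
  simp only [h2]
  rw [← sum_filter, sum_const, nsmul_eq_mul]
  congr 2
  unfold dg
  congr 1
  ext z
  simp

/-- TARGET 1 -/
theorem gam_avg (C : Finset (Sym2 (Fin n))) (B : Finset (Sym2 (Fin n))) (x : Fin n) (q : ℝ) (hC : ND C) :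
    (∑ z, (gam C x z - bt B x * bt B z / q - 1 + sg C x z ^ 2 / 2)) / n
      = sg C x x + ∑ z ∈ nbr C x, sg C x z := by
  have hn : (n : ℝ) ≠ 0 := by
    have := x.pos
    positivity
  have hcard : ∑ _z : Fin n, (1 : ℝ) = n := by simp
  have hbt : ∑ z, bt B z = 0 := by
    unfold bt
    rw [sum_sub_distrib, sum_const, card_univ, Fintype.card_fin, nsmul_eq_mul]
    have : (∑ v, (dg B v : ℝ)) = W0 B := rfl
    rw [this]
    field_simp
    ring
  have hW0 : (∑ v, (dg C v : ℝ)) = W0 C := rfl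
  have hW1 : (∑ v, (dg C v : ℝ) ^ 2) = W1 C := rfl
  have hsw := gam_avg_swap C (fun w => (dg C w : ℝ) - W0 C / n)
  have hsw2 : ∑ w, (dg C w : ℝ) * ((dg C w : ℝ) - W0 C / n) = W1 C - W0 C / n * W0 C := by
    rw [← hW1]
    have : ∀ w, (dg C w : ℝ) * ((dg C w : ℝ) - W0 C / n) =
        (dg C w : ℝ) ^ 2 - W0 C / n * (dg C w : ℝ) := fun w => by ring
    simp only [this]
    rw [sum_sub_distrib, ← mul_sum, hW0]
  rw [hsw2] at hsw
  have hN : ∑ z ∈ nbr C x, ((dg C z : ℝ) - W0 C / n) =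
      (∑ z ∈ nbr C x, (dg C z : ℝ)) - (dg C x : ℝ) * (W0 C / n) := by
    rw [sum_sub_distrib, sum_const, nsmul_eq_mul]
    rfl
  have hsN : ∑ z ∈ nbr C x, sg C x z = (dg C x : ℝ) * (1 + (dg C x : ℝ) - W0 C / n) +
      ∑ z ∈ nbr C x, (dg C z : ℝ) := by
    unfold sg
    have : ∀ z, 1 + (dg C x : ℝ) + (dg C z : ℝ) - W0 C / n =
        (1 + (dg C x : ℝ) - W0 C / n) + (dg C z : ℝ) := fun z => by ring
    simp only [this]
    rw [sum_add_distrib, sum_const, nsmul_eq_mul]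
    rfl
  have hexp : ∀ z, (gam C x z - bt B x * bt B z / q - 1 + sg C x z ^ 2 / 2) =
      (((1 + (dg C x : ℝ)) ^ 2 - (1 + W0 C / n) ^ 2) / 2
        + ∑ w ∈ nbr C x, ((dg C w : ℝ) - W0 C / n)
        - 2 / n * (W1 C - W0 C / n * W0 C)
        + (1 + (dg C x : ℝ) - W0 C / n) * (1 - W0 C / n) - 1 + 1 / 2
        + (1 + (dg C x : ℝ) - W0 C / n) ^ 2 / 2) * 1
      + (1 + (1 + (dg C x : ℝ) - W0 C / n) + (1 + (dg C x : ℝ) - W0 C / n)) * (dg C z : ℝ)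
      + 1 * (dg C z : ℝ) ^ 2
      + ∑ w ∈ nbr C z, ((dg C w : ℝ) - W0 C / n)
      - bt B x / q * bt B z := by
    intro z
    unfold gam sg
    ring
  simp only [hexp]
  rw [sum_sub_distrib, sum_add_distrib, sum_add_distrib, sum_add_distrib, ← mul_sum, ← mul_sum,
    ← mul_sum, ← mul_sum, hcard, hbt, hW0, hW1, hsw, hN, hsN]
  unfold sg
  field_simp
  ring

open scoped Classical in
theorem ggp_sum_split (d : ℕ) (A B : Finset (Sym2 (Fin n))) (x : Fin n) (hA : ND A) (hB : ND B)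
    (hled : ∀ v, dg A v ≤ d) (hx : dg A x < d) (h : Fin n → ℝ) :
    ∑ z ∈ univ.filter (fun z => Val d A B x z), rd d A z * h z =
      ∑ z, rd d A z * h z - (rd d A x * h x + ∑ z ∈ nbr (A ∪ B) x, rd d A z * h z) := by
  have hxN : x ∉ nbr (A ∪ B) x := by
    intro hmem
    simp only [nbr, mem_filter, mem_univ, true_and, mem_union] at hmem
    rcases hmem with h1 | h1
    · exact hA _ h1 (by simp)
    · exact hB _ h1 (by simp)
  have h1 : rd d A x * h x + ∑ z ∈ nbr (A ∪ B) x, rd d A z * h z =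
      ∑ z ∈ insert x (nbr (A ∪ B) x), rd d A z * h z := by
    rw [sum_insert hxN]
  rw [h1, eq_sub_iff_add_eq,
    ← sum_add_sum_compl (insert x (nbr (A ∪ B) x)) (fun z => rd d A z * h z), add_comm]
  congr 1
  refine sum_subset ?_ ?_
  · intro z hz
    have hv : Val d A B x z := (mem_filter.1 hz).2
    rw [mem_compl, mem_insert, not_or]
    refine ⟨fun he => hv.ne he.symm, ?_⟩
    intro hmem
    simp only [nbr, mem_filter, mem_univ, true_and, mem_union] at hmem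
    rcases hmem with h1 | h1
    · exact hv.nA h1
    · exact hv.nB h1
  · intro z hz hz2
    rw [mem_compl, mem_insert, not_or] at hz
    have hnN : ¬ (s(x, z) ∈ A ∨ s(x, z) ∈ B) := by
      intro hh
      apply hz.2
      simp only [nbr, mem_filter, mem_univ, true_and, mem_union]
      exact hh
    rw [not_or] at hnN
    have hdz : ¬ dg A z < d := by
      intro hlt
      apply hz2
      rw [mem_filter]
      exact ⟨mem_univ _, ⟨fun he => hz.1 he.symm, hnN.1, hnN.2, hx, hlt⟩⟩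
    have hdz2 : dg A z = d := le_antisymm (hled z) (not_lt.1 hdz)
    unfold rd
    rw [hdz2, sub_self, zero_mul]

theorem ggp_sum_bet (d : ℕ) (A B : Finset (Sym2 (Fin n))) (x : Fin n) (hA : ND A)
    (hE : EE d A ≠ 0) :
    ∑ z, rd d A z * bet d A B x z = EE d A * (rd d A x + TT d A B x) := by
  have hs := sum_rd d A hA
  have hD : ∑ z, rd d A z * (rd d A z - 1) = D2 d A := rfl
  have hQ : ∑ z, rd d A z * TT d A B z = QQ d A B := rfl
  have h1 : ∀ z, rd d A z * bet d A B x z =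
      (rd d A x - D2 d A / EE d A + (rd d A x - 1 - D2 d A / EE d A) * (D2 d A / EE d A)
        + TT d A B x - QQ d A B / EE d A) * rd d A z
      + (1 - (rd d A x - 1 - D2 d A / EE d A)) * (rd d A z * (rd d A z - 1))
      + 1 * (rd d A z * TT d A B z) := by
    intro z
    unfold bet
    ring
  simp only [h1]
  rw [sum_add_distrib, sum_add_distrib, ← mul_sum, ← mul_sum, ← mul_sum, hs, hD, hQ]
  field_simp
  ring

theorem ggp_sum_term (E n d s r b K T : ℝ) (hn : 0 < n) (hd : 0 < d) (hK : 1 ≤ K) (hT : 1 ≤ T)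
    (hE : 0 < E) (hE1 : n * d / K ≤ E) (hE2 : |E - n * d| ≤ K * n)
    (hs : |s| ≤ K * T) (hr : |r - d| ≤ K * T) (hb : |b - d * s| ≤ K * T ^ 2) (hrd : |r| ≤ d) :
    |E * s / n ^ 2 - r * b / E| ≤ 4 * K ^ 3 * T ^ 2 / n := by
  have hK0 : 0 < K := by linarith
  have hT0 : 0 < T := by linarith
  have e1 : E * s / n ^ 2 - r * b / E =
      s * (E - n * d) / n ^ 2 + (d * s * (E - n * d) / n - (r - d) * (d * s) - r * (b - d * s)) / E := by
    field_simp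
    ring
  have b1 : |s * (E - n * d) / n ^ 2| ≤ K ^ 2 * T / n := by
    rw [abs_div, abs_mul, abs_of_pos (by positivity : 0 < n ^ 2), div_le_div_iff₀ (by positivity) hn]
    have := mul_le_mul hs hE2 (abs_nonneg _) (by positivity)
    nlinarith [mul_le_mul_of_nonneg_right this hn.le]
  have b2 : |d * s * (E - n * d) / n| ≤ d * (K ^ 2 * T) := by
    rw [abs_div, abs_mul, abs_mul, abs_of_pos hn, abs_of_pos hd, div_le_iff₀ hn]
    have := mul_le_mul hs hE2 (abs_nonneg _) (by positivity)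
    nlinarith [mul_le_mul_of_nonneg_left this hd.le]
  have b3 : |(r - d) * (d * s)| ≤ d * (K ^ 2 * T ^ 2) := by
    rw [abs_mul, abs_mul, abs_of_pos hd]
    have := mul_le_mul hr hs (abs_nonneg _) (by positivity)
    nlinarith [mul_le_mul_of_nonneg_left this hd.le]
  have b4 : |r * (b - d * s)| ≤ d * (K * T ^ 2) := by
    rw [abs_mul]
    exact mul_le_mul hrd hb (abs_nonneg _) hd.le
  have hTT : T ≤ T ^ 2 := by nlinarith
  have hKK : K ≤ K ^ 2 := by nlinarith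
  have b5 : |d * s * (E - n * d) / n - (r - d) * (d * s) - r * (b - d * s)| ≤
      d * (3 * K ^ 2 * T ^ 2) := by
    have h1 := abs_sub (d * s * (E - n * d) / n - (r - d) * (d * s)) (r * (b - d * s))
    have h2 := abs_sub (d * s * (E - n * d) / n) ((r - d) * (d * s))
    have h3 : d * (K ^ 2 * T) ≤ d * (K ^ 2 * T ^ 2) := by
      apply mul_le_mul_of_nonneg_left _ hd.le
      exact mul_le_mul_of_nonneg_left hTT (by positivity)
    have h4 : d * (K * T ^ 2) ≤ d * (K ^ 2 * T ^ 2) := by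
      apply mul_le_mul_of_nonneg_left _ hd.le
      exact mul_le_mul_of_nonneg_right hKK (by positivity)
    linarith
  have b6 : |(d * s * (E - n * d) / n - (r - d) * (d * s) - r * (b - d * s)) / E| ≤
      3 * K ^ 3 * T ^ 2 / n := by
    rw [abs_div, abs_of_pos hE, div_le_div_iff₀ hE hn]
    have h1 : n * d ≤ E * K := by
      rw [div_le_iff₀ hK0] at hE1
      exact hE1
    calc _ ≤ d * (3 * K ^ 2 * T ^ 2) * n := mul_le_mul_of_nonneg_right b5 hn.le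
      _ = (3 * K ^ 2 * T ^ 2) * (n * d) := by ring
      _ ≤ (3 * K ^ 2 * T ^ 2) * (E * K) := mul_le_mul_of_nonneg_left h1 (by positivity)
      _ = 3 * K ^ 3 * T ^ 2 * E := by ring
  rw [e1]
  refine (abs_add_le _ _).trans ?_
  have h5 : K ^ 2 * T / n ≤ K ^ 3 * T ^ 2 / n := by
    apply div_le_div_of_nonneg_right _ hn.le
    have : K ^ 2 ≤ K ^ 3 := by nlinarith [mul_pos hK0 hK0]
    exact mul_le_mul this hTT hT0.le (by positivity)
  have h6 : 4 * K ^ 3 * T ^ 2 / n = K ^ 3 * T ^ 2 / n + 3 * K ^ 3 * T ^ 2 / n := by ring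
  linarith

theorem ggp_sum_phi (g b1 b2 q s K T : ℝ) (hK : 1 ≤ K) (hT : 1 ≤ T) (hg : |g| ≤ K * T ^ 2)
    (h1 : |b1| ≤ K) (h2 : |b2| ≤ K) (hq : 1 / 2 ≤ q) (hs : |s| ≤ K * T) :
    |g - b1 * b2 / q - 1 + s ^ 2 / 2| ≤ 5 * K ^ 2 * T ^ 2 := by
  have hK0 : 0 < K := by linarith
  have hT0 : 0 < T := by linarith
  have hq0 : 0 < q := by linarith
  have hTT : 1 ≤ T ^ 2 := by nlinarith
  have hKK : K ≤ K ^ 2 := by nlinarith
  have hb : |b1 * b2 / q| ≤ 2 * K ^ 2 * T ^ 2 := by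
    rw [abs_div, abs_mul, abs_of_pos hq0, div_le_iff₀ hq0]
    have h3 := mul_le_mul h1 h2 (abs_nonneg _) hK0.le
    have h4 : 2 * K ^ 2 * 1 * (1 / 2) ≤ 2 * K ^ 2 * T ^ 2 * q :=
      mul_le_mul (mul_le_mul_of_nonneg_left hTT (by positivity)) hq (by norm_num) (by positivity)
    nlinarith
  have hs2 : s ^ 2 ≤ K ^ 2 * T ^ 2 := by
    have := mul_le_mul hs hs (abs_nonneg _) (by positivity)
    rw [abs_mul_abs_self] at this
    nlinarith
  have hg2 : |g| ≤ K ^ 2 * T ^ 2 := hg.trans (mul_le_mul_of_nonneg_right hKK (by positivity))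
  have h1KT : 1 ≤ K ^ 2 * T ^ 2 := by nlinarith
  rw [abs_le] at *
  constructor
  · nlinarith [hg2.1, hb.2, sq_nonneg s]
  · nlinarith [hg2.2, hb.1]

theorem ggp_sum_key (x : Fin n) (N S : Finset (Fin n)) (E TTx : ℝ) (r β φ s G : Fin n → ℝ)
    (hn0 : (n : ℝ) ≠ 0) (hE0 : E ≠ 0)
    (hsplit : ∀ h : Fin n → ℝ, ∑ z ∈ S, r z * h z = ∑ z, r z * h z - (r x * h x + ∑ z ∈ N, r z * h z))
    (hsumr : ∑ z, r z = E) (hsumb : ∑ z, r z * β z = E * (r x + TTx))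
    (hTT : ∑ z ∈ N, r z = TTx) (hsumφ : ∑ z, φ z = n * (s x + ∑ z ∈ N, s z)) :
    ∑ z ∈ S, r z * G z - E =
      ∑ z ∈ S, r z * (G z - (1 + β z / E + φ z / (n : ℝ) ^ 2))
      + ((E * s x / (n : ℝ) ^ 2 - r x * β x / E) + ∑ z ∈ N, (E * s z / (n : ℝ) ^ 2 - r z * β z / E))
      + (∑ z, (r z - E / n) * φ z) / (n : ℝ) ^ 2
      - (r x * φ x + ∑ z ∈ N, r z * φ z) / (n : ℝ) ^ 2 := by
  have e1 : ∑ z ∈ S, r z * G z =
      ∑ z ∈ S, r z * (G z - (1 + β z / E + φ z / (n : ℝ) ^ 2))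
        + ∑ z ∈ S, r z * (1 + β z / E + φ z / (n : ℝ) ^ 2) := by
    rw [← sum_add_distrib]
    refine sum_congr rfl fun z _ => ?_
    ring
  have e3 : ∑ z, r z * (1 + β z / E + φ z / (n : ℝ) ^ 2) =
      E + (r x + TTx) + (∑ z, r z * φ z) / (n : ℝ) ^ 2 := by
    have : ∀ z, r z * (1 + β z / E + φ z / (n : ℝ) ^ 2) =
        r z + (r z * β z) / E + (r z * φ z) / (n : ℝ) ^ 2 := fun z => by ring
    simp only [this]
    rw [sum_add_distrib, sum_add_distrib, ← sum_div, ← sum_div, hsumr, hsumb]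
    congr 2
    field_simp
  have e4 : ∑ z ∈ N, r z * (1 + β z / E + φ z / (n : ℝ) ^ 2) =
      TTx + ∑ z ∈ N, r z * β z / E + (∑ z ∈ N, r z * φ z) / (n : ℝ) ^ 2 := by
    have : ∀ z, r z * (1 + β z / E + φ z / (n : ℝ) ^ 2) =
        r z + (r z * β z) / E + (r z * φ z) / (n : ℝ) ^ 2 := fun z => by ring
    simp only [this]
    rw [sum_add_distrib, sum_add_distrib, ← sum_div _ _ ((n : ℝ) ^ 2), hTT]
  have e5 : ∑ z, r z * φ z = ∑ z, (r z - E / n) * φ z + E * (s x + ∑ z ∈ N, s z) := by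
    have : ∀ z, (r z - E / n) * φ z = r z * φ z - E / n * φ z := fun z => by ring
    simp only [this]
    rw [sum_sub_distrib, ← mul_sum, hsumφ]
    field_simp
    ring
  have e6 : ∑ z ∈ N, (E * s z / (n : ℝ) ^ 2 - r z * β z / E) =
      E * (∑ z ∈ N, s z) / (n : ℝ) ^ 2 - ∑ z ∈ N, r z * β z / E := by
    rw [sum_sub_distrib, ← sum_div, ← mul_sum]
  rw [e1, hsplit (fun z => 1 + β z / E + φ z / (n : ℝ) ^ 2), e3, e4, e5, e6]
  ring

theorem ggp_sum_core (x : Fin n) (N S : Finset (Fin n)) (E D K T : ℝ) (r β φ s G : Fin n → ℝ)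
    (hn0 : (0 : ℝ) < n) (hd0 : 0 < D) (hnd : D ≤ n) (hK1 : 1 ≤ K) (hT1 : 1 ≤ T) (hE0 : 0 < E)
    (hndE : n * D ≤ E * K) (hE2 : |E - n * D| ≤ K * n) (hr0 : ∀ z, 0 ≤ r z) (hrd : ∀ z, r z ≤ D)
    (hrd2 : ∀ z, |r z - D| ≤ K * T) (hsb : ∀ z, |s z| ≤ K * T)
    (hbb : ∀ z, |β z - D * s z| ≤ K * T ^ 2) (hφb : ∀ z, |φ z| ≤ 5 * K ^ 2 * T ^ 2)
    (hNcard : (N.card : ℝ) ≤ K * T) (hsumr : ∑ z, r z = E)
    (he : ∀ z ∈ S, |G z - (1 + β z / E + φ z / (n : ℝ) ^ 2)| ≤ K * T ^ 6 / ((n : ℝ) ^ 2 * D))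
    (key : ∑ z ∈ S, r z * G z - E =
      ∑ z ∈ S, r z * (G z - (1 + β z / E + φ z / (n : ℝ) ^ 2))
      + ((E * s x / (n : ℝ) ^ 2 - r x * β x / E) + ∑ z ∈ N, (E * s z / (n : ℝ) ^ 2 - r z * β z / E))
      + (∑ z, (r z - E / n) * φ z) / (n : ℝ) ^ 2
      - (r x * φ x + ∑ z ∈ N, r z * φ z) / (n : ℝ) ^ 2) :
    |∑ z ∈ S, r z * G z - E| ≤ E * (40 * K ^ 5 * T ^ 6 * (1 / ((n : ℝ) ^ 2 * D))) := by
  have hK0 : 0 < K := by linarith
  have hT0 : 0 < T := by linarith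
  have hrabs : ∀ z, |r z| ≤ D := fun z => by rw [abs_of_nonneg (hr0 z)]; exact hrd z
  have hE1' : (n : ℝ) * D / K ≤ E := by
    rw [div_le_iff₀ hK0]
    exact hndE
  have p1 : |∑ z ∈ S, r z * (G z - (1 + β z / E + φ z / (n : ℝ) ^ 2))| ≤
      E * (K * T ^ 6 / ((n : ℝ) ^ 2 * D)) := by
    calc |∑ z ∈ S, r z * (G z - (1 + β z / E + φ z / (n : ℝ) ^ 2))|
        ≤ ∑ z ∈ S, |r z * (G z - (1 + β z / E + φ z / (n : ℝ) ^ 2))| := abs_sum_le_sum_abs _ _
      _ ≤ ∑ z ∈ S, r z * (K * T ^ 6 / ((n : ℝ) ^ 2 * D)) := by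
          refine sum_le_sum fun z hz => ?_
          rw [abs_mul, abs_of_nonneg (hr0 z)]
          exact mul_le_mul_of_nonneg_left (he z hz) (hr0 z)
      _ ≤ ∑ z, r z * (K * T ^ 6 / ((n : ℝ) ^ 2 * D)) := by
          refine sum_le_sum_of_subset_of_nonneg (subset_univ _) fun z _ _ => ?_
          exact mul_nonneg (hr0 z) (by positivity)
      _ = E * (K * T ^ 6 / ((n : ℝ) ^ 2 * D)) := by rw [← sum_mul, hsumr]
  have hterm : ∀ z, |E * s z / (n : ℝ) ^ 2 - r z * β z / E| ≤ 4 * K ^ 3 * T ^ 2 / n := fun z =>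
    ggp_sum_term E n D (s z) (r z) (β z) K T hn0 hd0 hK1 hT1 hE0 hE1' hE2 (hsb z) (hrd2 z)
      (hbb z) (hrabs z)
  have hKT1 : 1 ≤ K * T := by
    have h1 : 1 * 1 ≤ K * T := mul_le_mul hK1 hT1 zero_le_one hK0.le
    linarith
  have hK34 : K ^ 3 ≤ K ^ 4 := pow_le_pow_right₀ hK1 (by norm_num)
  have hsumN : ∀ (f : Fin n → ℝ) (c : ℝ), 0 ≤ c → (∀ z, |f z| ≤ c) →
      |f x + ∑ z ∈ N, f z| ≤ 2 * (K * T) * c := by
    intro f c hc hf
    refine (abs_add_le _ _).trans ?_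
    have h1 : |∑ z ∈ N, f z| ≤ N.card * c := by
      refine (abs_sum_le_sum_abs _ _).trans ?_
      rw [← nsmul_eq_mul]
      exact sum_le_card_nsmul _ _ _ fun z _ => hf z
    have h2 : (N.card : ℝ) * c ≤ K * T * c := mul_le_mul_of_nonneg_right hNcard hc
    have h3 : 1 * c ≤ K * T * c := mul_le_mul_of_nonneg_right hKT1 hc
    have := hf x
    linarith
  have p2 : |(E * s x / (n : ℝ) ^ 2 - r x * β x / E) +
      ∑ z ∈ N, (E * s z / (n : ℝ) ^ 2 - r z * β z / E)| ≤ 8 * K ^ 4 * T ^ 3 / n := by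
    refine (hsumN (fun z => E * s z / (n : ℝ) ^ 2 - r z * β z / E) _ (by positivity) hterm).trans ?_
    apply le_of_eq
    ring
  have p3 : |(∑ z, (r z - E / n) * φ z) / (n : ℝ) ^ 2| ≤ 10 * K ^ 4 * T ^ 3 / n := by
    have h1 : ∀ z, |(r z - E / n) * φ z| ≤ 2 * (K * T) * (5 * K ^ 2 * T ^ 2) := by
      intro z
      rw [abs_mul]
      refine mul_le_mul ?_ (hφb z) (abs_nonneg _) (by positivity)
      have h2 : r z - E / n = (r z - D) + (-(E - n * D) / n) := by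
        field_simp
        ring
      rw [h2]
      refine (abs_add_le _ _).trans ?_
      have h3 : |-(E - n * D) / n| ≤ K := by
        rw [abs_div, abs_neg, abs_of_pos hn0, div_le_iff₀ hn0]
        exact hE2
      have h4 : K * 1 ≤ K * T := mul_le_mul_of_nonneg_left hT1 hK0.le
      have := hrd2 z
      linarith
    have h2 : |∑ z, (r z - E / n) * φ z| ≤ n * (2 * (K * T) * (5 * K ^ 2 * T ^ 2)) := by
      refine (abs_sum_le_sum_abs _ _).trans ?_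
      have h3 := sum_le_card_nsmul (univ : Finset (Fin n)) (fun z => |(r z - E / n) * φ z|) _
        fun z _ => h1 z
      rwa [card_univ, Fintype.card_fin, nsmul_eq_mul] at h3
    rw [abs_div, abs_of_pos (by positivity : (0 : ℝ) < (n : ℝ) ^ 2),
      div_le_div_iff₀ (by positivity) hn0]
    calc _ ≤ n * (2 * (K * T) * (5 * K ^ 2 * T ^ 2)) * n := mul_le_mul_of_nonneg_right h2 hn0.le
      _ = 10 * K ^ 3 * (T ^ 3 * (n : ℝ) ^ 2) := by ring
      _ ≤ 10 * K ^ 4 * (T ^ 3 * (n : ℝ) ^ 2) := by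
          apply mul_le_mul_of_nonneg_right _ (by positivity)
          linarith
      _ = 10 * K ^ 4 * T ^ 3 * (n : ℝ) ^ 2 := by ring
  have p4 : |(r x * φ x + ∑ z ∈ N, r z * φ z) / (n : ℝ) ^ 2| ≤ 10 * K ^ 4 * T ^ 3 / n := by
    have h1 : |r x * φ x + ∑ z ∈ N, r z * φ z| ≤ 2 * (K * T) * (D * (5 * K ^ 2 * T ^ 2)) := by
      refine hsumN (fun z => r z * φ z) _ (by positivity) fun z => ?_
      rw [abs_mul]
      exact mul_le_mul (hrabs z) (hφb z) (abs_nonneg _) hd0.le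
    rw [abs_div, abs_of_pos (by positivity : (0 : ℝ) < (n : ℝ) ^ 2),
      div_le_div_iff₀ (by positivity) hn0]
    calc _ ≤ 2 * (K * T) * (D * (5 * K ^ 2 * T ^ 2)) * n := mul_le_mul_of_nonneg_right h1 hn0.le
      _ = 10 * K ^ 3 * T ^ 3 * n * D := by ring
      _ ≤ 10 * K ^ 3 * T ^ 3 * n * n := mul_le_mul_of_nonneg_left hnd (by positivity)
      _ = 10 * K ^ 3 * (T ^ 3 * (n : ℝ) ^ 2) := by ring
      _ ≤ 10 * K ^ 4 * (T ^ 3 * (n : ℝ) ^ 2) := by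
          apply mul_le_mul_of_nonneg_right _ (by positivity)
          linarith
      _ = 10 * K ^ 4 * T ^ 3 * (n : ℝ) ^ 2 := by ring
  have hconv : 28 * K ^ 4 * T ^ 3 / n ≤ E * (28 * K ^ 5 * T ^ 6 / ((n : ℝ) ^ 2 * D)) := by
    have hTp : T ^ 3 ≤ T ^ 6 := pow_le_pow_right₀ hT1 (by norm_num)
    rw [mul_div_assoc', div_le_div_iff₀ hn0 (by positivity)]
    calc 28 * K ^ 4 * T ^ 3 * ((n : ℝ) ^ 2 * D) = 28 * K ^ 4 * T ^ 3 * n * (n * D) := by ring
      _ ≤ 28 * K ^ 4 * T ^ 3 * n * (E * K) := mul_le_mul_of_nonneg_left hndE (by positivity)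
      _ = 28 * K ^ 5 * n * E * T ^ 3 := by ring
      _ ≤ 28 * K ^ 5 * n * E * T ^ 6 := mul_le_mul_of_nonneg_left hTp (by positivity)
      _ = E * (28 * K ^ 5 * T ^ 6) * n := by ring
  have hfin : E * (K * T ^ 6 / ((n : ℝ) ^ 2 * D)) + 28 * K ^ 4 * T ^ 3 / n ≤
      E * (40 * K ^ 5 * T ^ 6 * (1 / ((n : ℝ) ^ 2 * D))) := by
    have h1 : E * (K * T ^ 6 / ((n : ℝ) ^ 2 * D)) ≤ E * (K ^ 5 * T ^ 6 / ((n : ℝ) ^ 2 * D)) := by
      apply mul_le_mul_of_nonneg_left _ hE0.le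
      apply div_le_div_of_nonneg_right _ (by positivity)
      apply mul_le_mul_of_nonneg_right _ (by positivity)
      have h1 : K * 1 ≤ K * K ^ 4 := mul_le_mul_of_nonneg_left (one_le_pow₀ hK1) hK0.le
      calc K = K * 1 := by ring
        _ ≤ K * K ^ 4 := h1
        _ = K ^ 5 := by ring
    have h2 : 0 ≤ E * (11 * K ^ 5 * T ^ 6 / ((n : ℝ) ^ 2 * D)) := by positivity
    have h3 : E * (40 * K ^ 5 * T ^ 6 * (1 / ((n : ℝ) ^ 2 * D))) =
        E * (K ^ 5 * T ^ 6 / ((n : ℝ) ^ 2 * D)) + E * (28 * K ^ 5 * T ^ 6 / ((n : ℝ) ^ 2 * D))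
        + E * (11 * K ^ 5 * T ^ 6 / ((n : ℝ) ^ 2 * D)) := by ring
    rw [h3]
    linarith
  rw [key]
  refine le_trans ?_ hfin
  have q1 := abs_sub (∑ z ∈ S, r z * (G z - (1 + β z / E + φ z / (n : ℝ) ^ 2))
    + ((E * s x / (n : ℝ) ^ 2 - r x * β x / E) + ∑ z ∈ N, (E * s z / (n : ℝ) ^ 2 - r z * β z / E))
    + (∑ z, (r z - E / n) * φ z) / (n : ℝ) ^ 2) ((r x * φ x + ∑ z ∈ N, r z * φ z) / (n : ℝ) ^ 2)
  have q2 := abs_add_le (∑ z ∈ S, r z * (G z - (1 + β z / E + φ z / (n : ℝ) ^ 2))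
    + ((E * s x / (n : ℝ) ^ 2 - r x * β x / E) + ∑ z ∈ N, (E * s z / (n : ℝ) ^ 2 - r z * β z / E)))
    ((∑ z, (r z - E / n) * φ z) / (n : ℝ) ^ 2)
  have q3 := abs_add_le (∑ z ∈ S, r z * (G z - (1 + β z / E + φ z / (n : ℝ) ^ 2)))
    ((E * s x / (n : ℝ) ^ 2 - r x * β x / E) + ∑ z ∈ N, (E * s z / (n : ℝ) ^ 2 - r z * β z / E))
  have q4 : 8 * K ^ 4 * T ^ 3 / n + 10 * K ^ 4 * T ^ 3 / n + 10 * K ^ 4 * T ^ 3 / n =
    28 * K ^ 4 * T ^ 3 / n := by ring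
  linarith

open scoped Classical in
/-- TARGET 2 -/
theorem ggp_sum (m : ℕ) : ∃ C : ℝ, 1 ≤ C ∧ ∀ (n d t : ℕ) (A B : Finset (Sym2 (Fin n))) (x : Fin n),
    Even (n * d) → m + 1 ≤ d → C * ((d : ℝ) + (1 + t) ^ 6) ≤ n → Cls d m t A → BCls m B → Disjoint A B → dg A x < d →
    |∑ z ∈ univ.filter (fun z => Val d A B x z), rd d A z * Real.exp (gL (ellp d) d A B x z) - EE d A|
      ≤ EE d A * (C * (1 + t) ^ 6 * (1 / ((n : ℝ) ^ 2 * d))) := by
  obtain ⟨C1, hC1, H1⟩ := EE_lower m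
  obtain ⟨C3, hC3, H3⟩ := k_bounds m
  obtain ⟨C4, hC4, H4⟩ := bet_near m
  obtain ⟨C6, hC6, H6⟩ := ggp_exp m
  have hm0 : (0 : ℝ) ≤ m := by positivity
  obtain ⟨K, hKm, hKC1, hKC3, hKC4, hKC6, hK1⟩ : ∃ K : ℝ, (m : ℝ) + 2 ≤ K ∧ C1 ≤ K ∧ C3 ≤ K ∧
      C4 ≤ K ∧ C6 ≤ K ∧ 1 ≤ K :=
    ⟨C1 + C3 + C4 + C6 + (m + 2), by linarith, by linarith, by linarith, by linarith, by linarith,
      by linarith⟩
  have hK0 : 0 < K := by linarith
  have hK5 : 1 ≤ K ^ 5 := one_le_pow₀ hK1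
  refine ⟨40 * K ^ 5, by linarith, ?_⟩
  intro n d t A B x hev hmd hn hA hB hAB hx
  have hd1 : (1 : ℝ) ≤ d := by
    have : 1 ≤ d := by omega
    exact_mod_cast this
  have hd0 : (0 : ℝ) < d := by linarith
  have ht0 : (0 : ℝ) ≤ t := by positivity
  obtain ⟨T, hT⟩ : ∃ T : ℝ, 1 + (t : ℝ) = T := ⟨_, rfl⟩
  rw [hT] at hn ⊢
  have hT1 : 1 ≤ T := by linarith
  have hT0 : 0 < T := by linarith
  have hT6 : 0 < T ^ 6 := by positivity
  have hdT : 0 < (d : ℝ) + T ^ 6 := by linarith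
  have hKle : K ≤ 40 * K ^ 5 := by
    have h1 : K * 1 ≤ K * K ^ 4 := mul_le_mul_of_nonneg_left (one_le_pow₀ hK1) hK0.le
    have h2 : K * K ^ 4 = K ^ 5 := by ring
    linarith
  have hnK : K * ((d : ℝ) + T ^ 6) ≤ n := (mul_le_mul_of_nonneg_right hKle hdT.le).trans hn
  have hnd : (d : ℝ) ≤ n := by
    have h1 : 1 * ((d : ℝ) + T ^ 6) ≤ K * ((d : ℝ) + T ^ 6) :=
      mul_le_mul_of_nonneg_right hK1 hdT.le
    linarith
  have hn0 : (0 : ℝ) < n := by linarith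
  have hle : ∀ c : ℝ, c ≤ K → c * ((d : ℝ) + (1 + (t : ℝ)) ^ 6) ≤ n := by
    intro c hc
    rw [hT]
    exact (mul_le_mul_of_nonneg_right hc hdT.le).trans hnK
  have hE1 := H1 n d t A hmd (hle _ hKC1) hA
  obtain ⟨k1, k2, k3, k4, k5, k6, k7, k8, k9⟩ := H3 n d t A B hmd (hle _ hKC3) hA hB hAB
  have h4 := fun z => H4 n d t A B x z hmd (hle _ hKC4) hA hB hAB
  have h6 := fun z => H6 n d t A B x z hev hmd (hle _ hKC6) hA hB hAB
  rw [hT] at h4 h6 k2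
  have hmpos : (0 : ℝ) < (m : ℝ) + 2 := by positivity
  have hE0 : 0 < EE d A := lt_of_lt_of_le (by positivity) hE1
  have hndE : (n : ℝ) * d ≤ EE d A * K := by
    rw [div_le_iff₀ hmpos] at hE1
    exact hE1.trans (mul_le_mul_of_nonneg_left hKm hE0.le)
  have hE2 : |EE d A - n * d| ≤ K * n := k9.trans (mul_le_mul_of_nonneg_right hKC3 hn0.le)
  have hr0 : ∀ z, 0 ≤ rd d A z := by
    intro z
    have : (dg A z : ℝ) ≤ d := by exact_mod_cast hA.led z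
    unfold rd
    linarith
  have hrd : ∀ z, rd d A z ≤ d := by
    intro z
    have : (0 : ℝ) ≤ dg A z := by positivity
    unfold rd
    linarith
  have hmt : (m : ℝ) + t ≤ K * T := by
    have h1 : ((m : ℝ) + 2) * T ≤ K * T := mul_le_mul_of_nonneg_right hKm hT0.le
    have h3 : (0 : ℝ) ≤ m * t := by positivity
    have h4 : ((m : ℝ) + 2) * T = m + 2 + m * t + 2 * t := by
      rw [← hT]
      ring
    linarith
  have hrd2 : ∀ z, |rd d A z - d| ≤ K * T := by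
    intro z
    have h1 : (dg A z : ℝ) ≤ m + t := by exact_mod_cast hA.lem z
    have h2 : (0 : ℝ) ≤ dg A z := by positivity
    have h3 : rd d A z - d = -(dg A z : ℝ) := by
      unfold rd
      ring
    rw [h3, abs_neg, abs_of_nonneg h2]
    linarith
  have hsb : ∀ z, |sg (A ∪ B) x z| ≤ K * T := fun z =>
    (h4 z).2.1.trans (mul_le_mul_of_nonneg_right hKC4 hT0.le)
  have hbb : ∀ z, |bet d A B x z - d * sg (A ∪ B) x z| ≤ K * T ^ 2 := fun z =>
    (h4 z).1.trans (mul_le_mul_of_nonneg_right hKC4 (by positivity))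
  have hgb : ∀ z, |gam (A ∪ B) x z| ≤ K * T ^ 2 := fun z =>
    (h4 z).2.2.trans (mul_le_mul_of_nonneg_right hKC4 (by positivity))
  have hφb : ∀ z, |gam (A ∪ B) x z - bt B x * bt B z / (1 - (d : ℝ) / n) - 1
      + sg (A ∪ B) x z ^ 2 / 2| ≤ 5 * K ^ 2 * T ^ 2 := fun z =>
    ggp_sum_phi _ _ _ _ _ K T hK1 hT1 (hgb z) ((k7 x).trans hKC3) ((k7 z).trans hKC3) k8 (hsb z)
  have hNcard : ((nbr (A ∪ B) x).card : ℝ) ≤ K * T :=
    (k2 x).trans (mul_le_mul_of_nonneg_right hKC3 hT0.le)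
  have hsumr : ∑ z, rd d A z = EE d A := sum_rd d A hA.nd
  have hnd3 : ND (A ∪ B) := by
    intro f hf
    rcases mem_union.1 hf with h | h
    · exact hA.nd f h
    · exact hB.nd f h
  have havg := gam_avg (A ∪ B) B x (1 - (d : ℝ) / n) hnd3
  have hsumφ : ∑ z, (gam (A ∪ B) x z - bt B x * bt B z / (1 - (d : ℝ) / n) - 1
      + sg (A ∪ B) x z ^ 2 / 2) =
      n * (sg (A ∪ B) x x + ∑ z ∈ nbr (A ∪ B) x, sg (A ∪ B) x z) := by
    rw [← havg, mul_div_cancel₀ _ hn0.ne']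
  refine ggp_sum_core x (nbr (A ∪ B) x) (univ.filter (fun z => Val d A B x z)) (EE d A) d K T
    (rd d A) (fun z => bet d A B x z)
    (fun z => gam (A ∪ B) x z - bt B x * bt B z / (1 - (d : ℝ) / n) - 1 + sg (A ∪ B) x z ^ 2 / 2)
    (fun z => sg (A ∪ B) x z) (fun z => Real.exp (gL (ellp d) d A B x z))
    hn0 hd0 hnd hK1 hT1 hE0 hndE hE2 hr0 hrd hrd2 hsb hbb hφb hNcard hsumr ?_ ?_
  · intro z hz
    refine (h6 z (mem_filter.1 hz).2).trans ?_
    apply div_le_div_of_nonneg_right _ (by positivity)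
    exact mul_le_mul_of_nonneg_right hKC6 (by positivity)
  · exact ggp_sum_key x _ _ (EE d A) (TT d A B x) (rd d A) _ _ _ _ hn0.ne' hE0.ne'
      (ggp_sum_split d A B x hA.nd hB.nd hA.led hx) hsumr (ggp_sum_bet d A B x hA.nd hE0.ne')
      rfl hsumφ

end MPB

export MPB (gam_avg ggp_sum)

end Pool.Agent.H698NC
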