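import Pool.Agent.H698NC.PA

set_option autoImplicit false

namespace Pool.Agent.H698NC

open Finset

namespace MPC

variable {n : ℕ}

theorem pc_prod (d Q a b : ℝ) (ha0 : 0 ≤ a) (had : a ≤ d) (haK : a ≤ Q) (hb0 : 0 ≤ b) (hbd : b ≤ d)
    (hbK : b ≤ Q) :
    0 ≤ (d - a) * (d - b) ∧ (d - a) * (d - b) ≤ d ^ 2 ∧ |(d - a) * (d - b) - d ^ 2| ≤ 2 * d * Q := by
  have hd0 : 0 ≤ d := ha0.trans had
  have h1 := mul_nonneg ha0 hb0
  have h2 := mul_nonneg hd0 (sub_nonneg.2 haK)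
  have h3 := mul_nonneg hd0 (sub_nonneg.2 hbK)
  have h4 := mul_nonneg hb0 (sub_nonneg.2 had)
  have h5 := mul_nonneg hd0 hb0
  have h6 := mul_nonneg hd0 ha0
  refine ⟨mul_nonneg (by linarith) (by linarith), by nlinarith, ?_⟩
  rw [abs_le]
  constructor <;> nlinarith

theorem pc_sub (Q a b : ℝ) (ha0 : 0 ≤ a) (haK : a ≤ Q) (hb0 : 0 ≤ b) (hbK : b ≤ Q) : |a - b| ≤ Q := by
  rw [abs_le]
  constructor <;> linarith

theorem pc_mul (a b A B : ℝ) (ha : |a| ≤ A) (hb : |b| ≤ B) : |a * b| ≤ A * B := by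
  rw [abs_mul]
  exact mul_le_mul ha hb (abs_nonneg _) ((abs_nonneg _).trans ha)

theorem pc_four (a b c e A : ℝ) (ha : |a| ≤ A) (hb : |b| ≤ A) (hc : |c| ≤ A) (he : |e| ≤ A) :
    |a + b - c - e| ≤ 4 * A := by
  rw [abs_le] at ha hb hc he ⊢
  constructor <;> linarith [ha.1, ha.2, hb.1, hb.2, hc.1, hc.2, he.1, he.2]

theorem pc_dN (n d K N : ℝ) (hd : 1 ≤ d) (hK : 1 ≤ K) (hn0 : 0 < n) (hN0 : 0 < N)
    (hN : n * d ≤ K * N) (hNn : |N - n * d| ≤ K * n) :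
    |d ^ 2 / N ^ 2 - 1 / n ^ 2| ≤ 2 * K ^ 3 / (n ^ 2 * d) := by
  have e : d ^ 2 / N ^ 2 - 1 / n ^ 2 = (n * d - N) * (n * d + N) / (N ^ 2 * n ^ 2) := by
    field_simp
    ring
  have hd0 : 0 < d := by linarith
  rw [e, abs_div, abs_of_pos (by positivity : (0 : ℝ) < N ^ 2 * n ^ 2),
    div_le_div_iff₀ (by positivity) (by positivity), abs_mul, abs_of_pos (by positivity : 0 < n * d + N)]
  rw [abs_sub_comm] at hNn
  have h1 : n * d + N ≤ 2 * K * N := by linarith [le_mul_of_one_le_left hN0.le hK]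
  have h2 : |n * d - N| * (n * d + N) ≤ (K * n) * (2 * K * N) :=
    mul_le_mul hNn h1 (by positivity) (by positivity)
  calc |n * d - N| * (n * d + N) * (n ^ 2 * d) ≤ (K * n) * (2 * K * N) * (n ^ 2 * d) :=
        mul_le_mul_of_nonneg_right h2 (by positivity)
    _ = 2 * K ^ 2 * N * n ^ 2 * (n * d) := by ring
    _ ≤ 2 * K ^ 2 * N * n ^ 2 * (K * N) := mul_le_mul_of_nonneg_left hN (by positivity)
    _ = 2 * K ^ 3 * (N ^ 2 * n ^ 2) := by ring

theorem pc_d2N (n d K N : ℝ) (hd : 1 ≤ d) (hK : 1 ≤ K) (hKd : K * d ≤ n)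
    (hN : n * d ≤ K * N) : d ^ 2 ≤ N := by
  have h1 : K * d ^ 2 ≤ K * N := by
    calc K * d ^ 2 = (K * d) * d := by ring
      _ ≤ n * d := mul_le_mul_of_nonneg_right hKd (by linarith)
      _ ≤ K * N := hN
  exact le_of_mul_le_mul_left h1 (by linarith)

theorem pc_S2 (n d T K N rx ry rz rw kx ky kz kw κ β1 β2 β3 β4 : ℝ)
    (hT : 1 ≤ T) (hd : 1 ≤ d) (hK : 1 ≤ K) (hn0 : 0 < n) (hKd : K * d ≤ n) (hN0 : 0 < N)
    (hN : n * d ≤ K * N) (hNn : |N - n * d| ≤ K * n)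
    (hrx0 : 0 ≤ rx) (hrx : rx ≤ K * T) (hry0 : 0 ≤ ry) (hry : ry ≤ K * T)
    (hrz0 : 0 ≤ rz) (hrz : rz ≤ K * T) (hrw0 : 0 ≤ rw) (hrw : rw ≤ K * T)
    (hkx0 : 0 ≤ kx) (hkx : kx ≤ K * T) (hky0 : 0 ≤ ky) (hky : ky ≤ K * T)
    (hkz0 : 0 ≤ kz) (hkz : kz ≤ K * T) (hkw0 : 0 ≤ kw) (hkw : kw ≤ K * T)
    (h1 : |β1 - d * (1 + kx + kz - κ)| ≤ K * T ^ 2) (h1' : |1 + kx + kz - κ| ≤ K * T)
    (h2 : |β2 - d * (1 + ky + kw - κ)| ≤ K * T ^ 2) (h2' : |1 + ky + kw - κ| ≤ K * T)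
    (h3 : |β3 - d * (1 + kx + ky - κ)| ≤ K * T ^ 2) (h3' : |1 + kx + ky - κ| ≤ K * T)
    (h4 : |β4 - d * (1 + kz + kw - κ)| ≤ K * T ^ 2) (h4' : |1 + kz + kw - κ| ≤ K * T)
    (hS : β1 + β2 - β3 - β4 = (rx - rw) * (ry - rz) * (1 - 4 / N)) :
    |((d - rx) * (d - rz) * β1 + (d - ry) * (d - rw) * β2 - (d - rx) * (d - ry) * β3
        - (d - rz) * (d - rw) * β4) / N ^ 2
      - ((rx - rw) * (ky - kz) + (ry - rz) * (kx - kw) + (rx - rw) * (ry - rz)) / n ^ 2|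
      ≤ 26 * K ^ 5 * T ^ 6 / (n ^ 2 * d) := by
  have hd0 : 0 < d := by linarith
  have hKT0 : 0 ≤ K * T := by positivity
  obtain ⟨E1, hE1⟩ : ∃ E1, E1 = β1 - d * (1 + kx + kz - κ) := ⟨_, rfl⟩
  obtain ⟨E2, hE2⟩ : ∃ E2, E2 = β2 - d * (1 + ky + kw - κ) := ⟨_, rfl⟩
  obtain ⟨E3, hE3⟩ : ∃ E3, E3 = β3 - d * (1 + kx + ky - κ) := ⟨_, rfl⟩
  obtain ⟨E4, hE4⟩ : ∃ E4, E4 = β4 - d * (1 + kz + kw - κ) := ⟨_, rfl⟩
  rw [← hE1] at h1
  rw [← hE2] at h2
  rw [← hE3] at h3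
  rw [← hE4] at h4
  obtain ⟨M, hM⟩ : ∃ M, M = (rx - rw) * (ky - kz) + (ry - rz) * (kx - kw) + (rx - rw) * (ry - rz) :=
    ⟨_, rfl⟩
  obtain ⟨R, hR⟩ : ∃ R, R = -(4 * (d ^ 2 * ((rx - rw) * (ry - rz)) / N))
      - d * ((rx + rz) * E1 + (ry + rw) * E2 - (rx + ry) * E3 - (rz + rw) * E4)
      + (rx * rz * β1 + ry * rw * β2 - rx * ry * β3 - rz * rw * β4) := ⟨_, rfl⟩
  have hid : (d - rx) * (d - rz) * β1 + (d - ry) * (d - rw) * β2 - (d - rx) * (d - ry) * β3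
        - (d - rz) * (d - rw) * β4 = d ^ 2 * M + R := by
    rw [hR, hM, hE1, hE2, hE3, hE4]
    linear_combination d ^ 2 * hS
  rw [hid, ← hM]
  have e0 : (d ^ 2 * M + R) / N ^ 2 - M / n ^ 2 = R / N ^ 2 + M * (d ^ 2 / N ^ 2 - 1 / n ^ 2) := by
    ring
  rw [e0]
  have dr := pc_sub _ _ _ hrx0 hrx hrw0 hrw
  have dr' := pc_sub _ _ _ hry0 hry hrz0 hrz
  have dk := pc_sub _ _ _ hkx0 hkx hkw0 hkw
  have dk' := pc_sub _ _ _ hky0 hky hkz0 hkz
  have m1 := pc_mul _ _ _ _ dr dk'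
  have m2 := pc_mul _ _ _ _ dr' dk
  have m3 := pc_mul _ _ _ _ dr dr'
  have hMb : |M| ≤ 3 * K ^ 2 * T ^ 2 := by
    rw [hM]
    have e : 3 * K ^ 2 * T ^ 2 = K * T * (K * T) + K * T * (K * T) + K * T * (K * T) := by ring
    rw [e]
    exact (abs_add_le _ _).trans (add_le_add ((abs_add_le _ _).trans (add_le_add m1 m2)) m3)
  have hd2 := pc_d2N n d K N hd hK hKd hN
  have hT2 : 1 ≤ T ^ 2 := one_le_pow₀ hT
  have hbb : ∀ β s E : ℝ, E = β - d * s → |s| ≤ K * T → |E| ≤ K * T ^ 2 → |β| ≤ 2 * K * T ^ 2 * d := by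
    intro β s E hE hs hEb
    have e : β = d * s + E := by rw [hE]; ring
    have h5 : |d * s| ≤ d * (K * T) := by
      rw [abs_mul, abs_of_pos hd0]
      exact mul_le_mul_of_nonneg_left hs hd0.le
    have h6 : d * (K * T) ≤ K * T ^ 2 * d := by
      calc d * (K * T) = K * T * d := by ring
        _ ≤ K * T ^ 2 * d := mul_le_mul_of_nonneg_right
            (mul_le_mul_of_nonneg_left (le_self_pow₀ hT (by norm_num)) (by linarith)) hd0.le
    have h7 : K * T ^ 2 ≤ K * T ^ 2 * d := le_mul_of_one_le_right (by positivity) hd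
    rw [e]
    refine (abs_add_le _ _).trans ?_
    linarith
  have b1 := hbb β1 _ E1 hE1 h1' h1
  have b2 := hbb β2 _ E2 hE2 h2' h2
  have b3 := hbb β3 _ E3 hE3 h3' h3
  have b4 := hbb β4 _ E4 hE4 h4' h4
  have hRb : |R| ≤ 20 * K ^ 3 * T ^ 4 * d := by
    have r1 : |-(4 * (d ^ 2 * ((rx - rw) * (ry - rz)) / N))| ≤ 4 * (K * T * (K * T)) := by
      rw [abs_neg, abs_mul, abs_div, abs_of_pos hN0, abs_of_pos (by norm_num : (0 : ℝ) < 4)]
      apply mul_le_mul_of_nonneg_left _ (by norm_num)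
      rw [div_le_iff₀ hN0, abs_mul, abs_of_nonneg (by positivity : 0 ≤ d ^ 2), mul_comm]
      exact mul_le_mul m3 hd2 (by positivity) (by positivity)
    have s : ∀ a b E : ℝ, 0 ≤ a → a ≤ K * T → 0 ≤ b → b ≤ K * T → |E| ≤ K * T ^ 2 →
        |(a + b) * E| ≤ 2 * (K * T) * (K * T ^ 2) := by
      intro a b E ha0 ha hb0 hb hE
      apply pc_mul _ _ _ _ _ hE
      rw [abs_of_nonneg (by linarith)]
      linarith
    have r2 := pc_four _ _ _ _ _ (s rx rz E1 hrx0 hrx hrz0 hrz h1) (s ry rw E2 hry0 hry hrw0 hrw h2)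
      (s rx ry E3 hrx0 hrx hry0 hry h3) (s rz rw E4 hrz0 hrz hrw0 hrw h4)
    have s' : ∀ a b E : ℝ, 0 ≤ a → a ≤ K * T → 0 ≤ b → b ≤ K * T → |E| ≤ 2 * K * T ^ 2 * d →
        |a * b * E| ≤ (K * T * (K * T)) * (2 * K * T ^ 2 * d) := by
      intro a b E ha0 ha hb0 hb hE
      apply pc_mul _ _ _ _ _ hE
      rw [abs_of_nonneg (mul_nonneg ha0 hb0)]
      exact mul_le_mul ha hb hb0 hKT0
    have r3 := pc_four _ _ _ _ _ (s' rx rz β1 hrx0 hrx hrz0 hrz b1) (s' ry rw β2 hry0 hry hrw0 hrw b2)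
      (s' rx ry β3 hrx0 hrx hry0 hry b3) (s' rz rw β4 hrz0 hrz hrw0 hrw b4)
    have r2' : |d * ((rx + rz) * E1 + (ry + rw) * E2 - (rx + ry) * E3 - (rz + rw) * E4)|
        ≤ d * (4 * (2 * (K * T) * (K * T ^ 2))) := by
      rw [abs_mul, abs_of_pos hd0]
      exact mul_le_mul_of_nonneg_left r2 hd0.le
    rw [hR]
    refine (abs_add_le _ _).trans ?_
    refine (add_le_add_left (abs_sub _ _) _).trans ?_
    have g1 : K * T * (K * T) ≤ K ^ 3 * T ^ 4 * d := by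
      calc K * T * (K * T) = K ^ 2 * T ^ 2 * 1 := by ring
        _ ≤ K ^ 3 * T ^ 4 * d := mul_le_mul (mul_le_mul (pow_le_pow_right₀ hK (by norm_num))
            (pow_le_pow_right₀ hT (by norm_num)) (by positivity) (by positivity)) hd (by norm_num) (by positivity)
    have g2 : d * (K * T * (K * T ^ 2)) ≤ K ^ 3 * T ^ 4 * d := by
      calc d * (K * T * (K * T ^ 2)) = K ^ 2 * T ^ 3 * d := by ring
        _ ≤ K ^ 3 * T ^ 4 * d := mul_le_mul_of_nonneg_right (mul_le_mul (pow_le_pow_right₀ hK (by norm_num))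
            (pow_le_pow_right₀ hT (by norm_num)) (by positivity) (by positivity)) hd0.le
    have g3 : K * T * (K * T) * (2 * K * T ^ 2 * d) = 2 * (K ^ 3 * T ^ 4 * d) := by ring
    rw [g3] at r3
    have g4 : d * (4 * (2 * (K * T) * (K * T ^ 2))) = 8 * (d * (K * T * (K * T ^ 2))) := by ring
    rw [g4] at r2'
    linarith
  have hR2 : |R / N ^ 2| ≤ 20 * K ^ 5 * T ^ 6 / (n ^ 2 * d) := by
    rw [abs_div, abs_of_pos (by positivity : (0 : ℝ) < N ^ 2), div_le_div_iff₀ (by positivity) (by positivity)]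
    calc |R| * (n ^ 2 * d) ≤ (20 * K ^ 3 * T ^ 4 * d) * (n ^ 2 * d) := mul_le_mul_of_nonneg_right hRb (by positivity)
      _ = 20 * K ^ 3 * T ^ 4 * (n * d) ^ 2 := by ring
      _ ≤ 20 * K ^ 3 * T ^ 6 * (K * N) ^ 2 := by
          apply mul_le_mul _ (pow_le_pow_left₀ (by positivity) hN 2) (by positivity) (by positivity)
          exact mul_le_mul_of_nonneg_left (pow_le_pow_right₀ hT (by norm_num)) (by positivity)
      _ = 20 * K ^ 5 * T ^ 6 * N ^ 2 := by ring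
  have hM2 : |M * (d ^ 2 / N ^ 2 - 1 / n ^ 2)| ≤ 6 * K ^ 5 * T ^ 6 / (n ^ 2 * d) := by
    have := pc_mul _ _ _ _ hMb (pc_dN n d K N hd hK hn0 hN0 hN hNn)
    refine this.trans ?_
    have e : 3 * K ^ 2 * T ^ 2 * (2 * K ^ 3 / (n ^ 2 * d)) = 6 * K ^ 5 * T ^ 2 / (n ^ 2 * d) := by ring
    rw [e]
    apply div_le_div_of_nonneg_right _ (by positivity)
    exact mul_le_mul_of_nonneg_left (pow_le_pow_right₀ hT (by norm_num)) (by positivity)
  calc _ ≤ |R / N ^ 2| + |M * (d ^ 2 / N ^ 2 - 1 / n ^ 2)| := abs_add_le _ _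
    _ ≤ 20 * K ^ 5 * T ^ 6 / (n ^ 2 * d) + 6 * K ^ 5 * T ^ 6 / (n ^ 2 * d) := add_le_add hR2 hM2
    _ = _ := by ring

theorem pc_rho (n d T K N a b : ℝ) (hT : 1 ≤ T) (hd : 1 ≤ d) (hK : 1 ≤ K) (hn0 : 0 < n) (hN0 : 0 < N)
    (hN : n * d ≤ K * N) (hNn : |N - n * d| ≤ K * n) (ha0 : 0 ≤ a) (had : a ≤ d) (haK : a ≤ K * T)
    (hb0 : 0 ≤ b) (hbd : b ≤ d) (hbK : b ≤ K * T) :
    |(d - a) * (d - b) / N - d / n| ≤ 3 * K ^ 2 * T / n := by
  have hd0 : 0 < d := by linarith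
  have hT0 : 0 < T := by linarith
  have h := (pc_prod d (K * T) a b ha0 had haK hb0 hbd hbK).2.2
  have e : (d - a) * (d - b) / N - d / n = (n * ((d - a) * (d - b) - d ^ 2) - d * (N - n * d)) / (n * N) := by
    field_simp
    ring
  rw [e, abs_div, abs_of_pos (by positivity : 0 < n * N), div_le_div_iff₀ (by positivity) hn0]
  have h1 : |n * ((d - a) * (d - b) - d ^ 2) - d * (N - n * d)| ≤ 3 * K * T * (n * d) := by
    refine (abs_sub _ _).trans ?_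
    rw [abs_mul, abs_mul, abs_of_pos hn0, abs_of_pos hd0]
    have h2 : n * |(d - a) * (d - b) - d ^ 2| ≤ n * (2 * d * (K * T)) := mul_le_mul_of_nonneg_left h hn0.le
    have h3 : d * |N - n * d| ≤ d * (K * n) := mul_le_mul_of_nonneg_left hNn hd0.le
    have h4 : d * (K * n) ≤ d * (K * n) * T := le_mul_of_one_le_right (by positivity) hT
    linarith
  calc _ ≤ (3 * K * T * (n * d)) * n := mul_le_mul_of_nonneg_right h1 hn0.le
    _ ≤ (3 * K * T * (K * N)) * n := by gcongr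
    _ = 3 * K ^ 2 * T * (n * N) := by ring

theorem pc_S3 (n d T K N rx ry rz rw p1 p2 p3 p4 : ℝ)
    (hT : 1 ≤ T) (hd : 1 ≤ d) (hK : 1 ≤ K) (hn0 : 0 < n) (hKd : K * d ≤ n) (hN0 : 0 < N)
    (hN : n * d ≤ K * N) (hNn : |N - n * d| ≤ K * n)
    (hrx0 : 0 ≤ rx) (hrx : rx ≤ K * T) (hry0 : 0 ≤ ry) (hry : ry ≤ K * T)
    (hrz0 : 0 ≤ rz) (hrz : rz ≤ K * T) (hrw0 : 0 ≤ rw) (hrw : rw ≤ K * T)
    (hrxd : rx ≤ d) (hryd : ry ≤ d) (hrzd : rz ≤ d) (hrwd : rw ≤ d)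
    (h1 : |p1| ≤ K * T ^ 2) (h2 : |p2| ≤ K * T ^ 2) (h3 : |p3| ≤ K * T ^ 2) (h4 : |p4| ≤ K * T ^ 2) :
    |((d - rx) * (d - rz) * p1 + (d - ry) * (d - rw) * p2 - (d - rx) * (d - ry) * p3
        - (d - rz) * (d - rw) * p4) / (N * n ^ 2)
      - d / n * (p1 + p2 - p3 - p4) / n ^ 2|
      ≤ 12 * K ^ 5 * T ^ 6 / (n ^ 2 * d) := by
  have hd0 : 0 < d := by linarith
  have hT0 : 0 < T := by linarith
  have q1 := pc_rho n d T K N rx rz hT hd hK hn0 hN0 hN hNn hrx0 hrxd hrx hrz0 hrzd hrz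
  have q2 := pc_rho n d T K N ry rw hT hd hK hn0 hN0 hN hNn hry0 hryd hry hrw0 hrwd hrw
  have q3 := pc_rho n d T K N rx ry hT hd hK hn0 hN0 hN hNn hrx0 hrxd hrx hry0 hryd hry
  have q4 := pc_rho n d T K N rz rw hT hd hK hn0 hN0 hN hNn hrz0 hrzd hrz hrw0 hrwd hrw
  have s := pc_four _ _ _ _ _ (pc_mul _ _ _ _ q1 h1) (pc_mul _ _ _ _ q2 h2) (pc_mul _ _ _ _ q3 h3)
    (pc_mul _ _ _ _ q4 h4)
  have e : ((d - rx) * (d - rz) * p1 + (d - ry) * (d - rw) * p2 - (d - rx) * (d - ry) * p3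
        - (d - rz) * (d - rw) * p4) / (N * n ^ 2)
      - d / n * (p1 + p2 - p3 - p4) / n ^ 2
      = (((d - rx) * (d - rz) / N - d / n) * p1 + ((d - ry) * (d - rw) / N - d / n) * p2
        - ((d - rx) * (d - ry) / N - d / n) * p3 - ((d - rz) * (d - rw) / N - d / n) * p4) / n ^ 2 := by
    field_simp
    ring
  rw [e, abs_div, abs_of_pos (by positivity : 0 < n ^ 2)]
  have hdn : d ≤ n := (le_mul_of_one_le_left hd0.le hK).trans hKd
  calc _ ≤ (4 * (3 * K ^ 2 * T / n * (K * T ^ 2))) / n ^ 2 := div_le_div_of_nonneg_right s (by positivity)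
    _ = 12 * K ^ 3 * T ^ 3 / (n ^ 2 * n) := by
        field_simp
        ring
    _ ≤ 12 * K ^ 5 * T ^ 6 / (n ^ 2 * d) := by
        apply div_le_div₀ (by positivity) _ (by positivity) (mul_le_mul_of_nonneg_left hdn (by positivity))
        apply mul_le_mul (mul_le_mul_of_nonneg_left (pow_le_pow_right₀ hK (by norm_num)) (by norm_num))
          (pow_le_pow_right₀ hT (by norm_num)) (by positivity) (by positivity)

theorem pc_SR (n d T K N R1 R2 R3 R4 : ℝ)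
    (hT : 1 ≤ T) (hd : 1 ≤ d) (hK : 1 ≤ K) (hn0 : 0 < n) (hKd : K * d ≤ n) (hN0 : 0 < N)
    (hN : n * d ≤ K * N)
    (h1 : |R1| ≤ d ^ 2 * (K * T ^ 6 / (n ^ 2 * d))) (h2 : |R2| ≤ d ^ 2 * (K * T ^ 6 / (n ^ 2 * d)))
    (h3 : |R3| ≤ d ^ 2 * (K * T ^ 6 / (n ^ 2 * d))) (h4 : |R4| ≤ d ^ 2 * (K * T ^ 6 / (n ^ 2 * d))) :
    |(R1 + R2 - R3 - R4) / N| ≤ 4 * K ^ 5 * T ^ 6 / (n ^ 2 * d) := by
  have hd0 : 0 < d := by linarith
  have hT0 : 0 < T := by linarith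
  have hd2 := pc_d2N n d K N hd hK hKd hN
  have s := pc_four _ _ _ _ _ h1 h2 h3 h4
  rw [abs_div, abs_of_pos hN0, div_le_iff₀ hN0]
  calc _ ≤ 4 * (d ^ 2 * (K * T ^ 6 / (n ^ 2 * d))) := s
    _ ≤ 4 * (N * (K ^ 5 * T ^ 6 / (n ^ 2 * d))) := by
        apply mul_le_mul_of_nonneg_left _ (by norm_num)
        apply mul_le_mul hd2 _ (by positivity) hN0.le
        apply div_le_div_of_nonneg_right _ (by positivity)
        apply mul_le_mul_of_nonneg_right _ (by positivity)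
        exact le_self_pow₀ hK (by norm_num)
    _ = _ := by ring

theorem pc_log (u v : ℝ) (hv : |v| ≤ 1 / 4) (huv : |u - v| ≤ 1 / 4) :
    |Real.log (1 - u) - Real.log (1 - v) + (u - v) / (1 - v)| ≤ 3 * (u - v) ^ 2 := by
  have hv1 : 3 / 4 ≤ 1 - v := by linarith [(abs_le.1 hv).2]
  have hv0 : 0 < 1 - v := by linarith
  obtain ⟨y, hy⟩ : ∃ y, y = (u - v) / (1 - v) := ⟨_, rfl⟩
  have hyb : |y| ≤ 4 / 3 * |u - v| := by
    rw [hy, abs_div, abs_of_pos hv0, div_le_iff₀ hv0]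
    linarith [mul_le_mul_of_nonneg_left hv1 (abs_nonneg (u - v))]
  have hy1 : |y| ≤ 1 / 3 := by linarith
  have h1 := Real.abs_log_sub_add_sum_range_le (x := y) (by linarith) 1
  have e : 1 - u = (1 - v) * (1 - y) := by
    rw [hy]
    field_simp
    ring
  have hy0 : 0 < 1 - y := by linarith [(abs_le.1 hy1).2]
  rw [← hy, e, Real.log_mul hv0.ne' hy0.ne']
  simp only [Finset.range_one, Finset.sum_singleton, zero_add, pow_one, Nat.cast_zero, div_one] at h1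
  have h2 : |y| ^ (1 + 1) / (1 - |y|) ≤ 3 / 2 * y ^ 2 := by
    rw [div_le_iff₀ (by linarith)]
    norm_num
    linarith [mul_le_mul_of_nonneg_left hy1 (sq_nonneg y)]
  have h3 : y ^ 2 ≤ 16 / 9 * (u - v) ^ 2 := by
    have := pow_le_pow_left₀ (abs_nonneg y) hyb 2
    rw [mul_pow, sq_abs, sq_abs] at this
    linarith
  have e2 : Real.log (1 - v) + Real.log (1 - y) - Real.log (1 - v) + y = y + Real.log (1 - y) := by ring
  rw [e2]
  linarith [sq_nonneg (u - v)]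

/-- TARGET 1 (the identity in step (7), to fix the algebra; `u,v` stand for the two factors) -/
theorem pc_algebra (a a' b b' p : ℝ) (hp : p < 1 / 2) (hp0 : 0 < p) :
    (a + b) * (a' + b') - b * b' / (1 - p) + 2 * (a * a') / (1 - 2 * p)
      - 1 / (1 - 2 * p) * ((a * (a' + b') + a' * (a + b) + a * a')
        + p * (-2 * ((a + b) * (a' + b')) + b * b' / (1 - p))) = 0 := by
  have h1 : 1 - p ≠ 0 := by linarith
  have h2 : 1 - 2 * p ≠ 0 := by linarith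
  have hi : (1 - p)⁻¹ * (1 - p) = 1 := inv_mul_cancel₀ h1
  have hj : (1 - 2 * p)⁻¹ * (1 - 2 * p) = 1 := inv_mul_cancel₀ h2
  simp only [div_eq_mul_inv]
  linear_combination (-((a + b) * (a' + b') - b * b' * (1 - p)⁻¹)) * hj - (1 - 2 * p)⁻¹ * b * b' * hi

/-- the value of one term -/
theorem pc_F (n d T K N a b e F : ℝ) (hT : 1 ≤ T) (hd : 1 ≤ d) (hK : 1 ≤ K) (hn0 : 0 < n)
    (hKd : K * d ≤ n) (hN0 : 0 < N)
    (hN : n * d ≤ K * N) (hNn : |N - n * d| ≤ K * n) (ha0 : 0 ≤ a) (had : a ≤ d) (haK : a ≤ K * T)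
    (hb0 : 0 ≤ b) (hbd : b ≤ d) (hbK : b ≤ K * T) (he : |(d - a) * (d - b) * (e - 1)| ≤ d ^ 2 * (K * T ^ 2 / n))
    (hF : F = (d - a) * (d - b) / N * e) : |F - d / n| ≤ 4 * K ^ 2 * T ^ 2 / n := by
  have h1 := pc_rho n d T K N a b hT hd hK hn0 hN0 hN hNn ha0 had haK hb0 hbd hbK
  have hd2 := pc_d2N n d K N hd hK hKd hN
  have e1 : F - d / n = ((d - a) * (d - b) / N - d / n) + (d - a) * (d - b) * (e - 1) / N := by
    rw [hF]; ring
  have h2 : |(d - a) * (d - b) * (e - 1) / N| ≤ K * T ^ 2 / n := by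
    rw [abs_div, abs_of_pos hN0, div_le_iff₀ hN0]
    calc _ ≤ d ^ 2 * (K * T ^ 2 / n) := he
      _ ≤ N * (K * T ^ 2 / n) := mul_le_mul_of_nonneg_right hd2 (by positivity)
      _ = _ := by ring
  rw [e1]
  calc _ ≤ 3 * K ^ 2 * T / n + K * T ^ 2 / n := (abs_add_le _ _).trans (add_le_add h1 h2)
    _ = (3 * K ^ 2 * T + K * T ^ 2) / n := by ring
    _ ≤ 4 * K ^ 2 * T ^ 2 / n := by
        apply div_le_div_of_nonneg_right _ hn0.le
        have g1 : K ^ 2 * T ≤ K ^ 2 * T ^ 2 := mul_le_mul_of_nonneg_left (le_self_pow₀ hT (by norm_num)) (by positivity)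
        have g2 : K * T ^ 2 ≤ K ^ 2 * T ^ 2 := mul_le_mul_of_nonneg_right (le_self_pow₀ hK (by norm_num)) (by positivity)
        linarith

theorem pc_l1 (n d T K N A δ M Ψ p : ℝ) (hT : 1 ≤ T) (hd0 : 0 < d) (hK : 1 ≤ K) (hn0 : 0 < n)
    (hN0 : 0 < N) (hN : n * d ≤ K * N) (hdn : d ≤ n) (h6 : T ^ 6 ≤ n) (hp0 : 0 < p) (hp1 : p ≤ 1)
    (maa : |A| ≤ K ^ 2 * T ^ 2) (hMb : |M| ≤ 3 * (K ^ 2 * T ^ 2)) (hΨb : |Ψ| ≤ 4 * (K ^ 2 * T ^ 2))
    (hδ : |δ + A / N - M / n ^ 2 - p * Ψ / n ^ 2| ≤ 42 * K ^ 5 * T ^ 6 / (n ^ 2 * d)) :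
    |δ| ≤ 50 * K ^ 5 * T ^ 2 / (n * d) := by
  have hnd : 0 < n * d := mul_pos hn0 hd0
  have hn2 : 0 < n ^ 2 := pow_pos hn0 2
  have hK0 : 0 < K := lt_of_lt_of_le one_pos hK
  have hT0 : 0 < T := lt_of_lt_of_le one_pos hT
  have hX0 : 0 < K ^ 2 * T ^ 2 := mul_pos (pow_pos hK0 2) (pow_pos hT0 2)
  have hndn : n * d ≤ n ^ 2 := by
    rw [sq]
    exact mul_le_mul_of_nonneg_left hdn hn0.le
  have s1 : |A / N| ≤ K ^ 3 * T ^ 2 / (n * d) := by
    rw [abs_div, abs_of_pos hN0, div_le_div_iff₀ hN0 hnd]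
    calc |A| * (n * d) ≤ (K ^ 2 * T ^ 2) * (K * N) := mul_le_mul maa hN hnd.le hX0.le
      _ = _ := by ring
  have s2 : |M / n ^ 2| ≤ 3 * (K ^ 2 * T ^ 2) / (n * d) := by
    rw [abs_div, abs_of_pos hn2]
    exact div_le_div₀ (mul_nonneg (by norm_num) hX0.le) hMb hnd hndn
  have s3 : |p * Ψ / n ^ 2| ≤ 4 * (K ^ 2 * T ^ 2) / (n * d) := by
    rw [abs_div, abs_of_pos hn2]
    refine div_le_div₀ (mul_nonneg (by norm_num) hX0.le) ?_ hnd hndn
    rw [abs_mul, abs_of_pos hp0]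
    exact (mul_le_of_le_one_left (abs_nonneg _) hp1).trans hΨb
  have s4 : 42 * K ^ 5 * T ^ 6 / (n ^ 2 * d) ≤ 42 * K ^ 5 / (n * d) := by
    rw [div_le_div_iff₀ (mul_pos hn2 hd0) hnd]
    calc 42 * K ^ 5 * T ^ 6 * (n * d) ≤ 42 * K ^ 5 * n * (n * d) :=
          mul_le_mul_of_nonneg_right (mul_le_mul_of_nonneg_left h6
            (mul_nonneg (by norm_num) (pow_pos hK0 5).le)) hnd.le
      _ = _ := by ring
  have e : δ = (δ + A / N - M / n ^ 2 - p * Ψ / n ^ 2) - A / N + M / n ^ 2 + p * Ψ / n ^ 2 := by ring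
  have hsum : |δ| ≤ 42 * K ^ 5 * T ^ 6 / (n ^ 2 * d) + K ^ 3 * T ^ 2 / (n * d)
      + 3 * (K ^ 2 * T ^ 2) / (n * d) + 4 * (K ^ 2 * T ^ 2) / (n * d) := by
    rw [e]
    exact (abs_add_le _ _).trans (add_le_add ((abs_add_le _ _).trans (add_le_add
      ((abs_sub _ _).trans (add_le_add hδ s1)) s2)) s3)
  have hK5 : 0 ≤ K ^ 5 := (pow_pos hK0 5).le
  have hT2 : 0 ≤ T ^ 2 := (pow_pos hT0 2).le
  have g1 : K ^ 5 ≤ K ^ 5 * T ^ 2 := le_mul_of_one_le_right hK5 (one_le_pow₀ hT)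
  have g2 : K ^ 3 * T ^ 2 ≤ K ^ 5 * T ^ 2 := mul_le_mul_of_nonneg_right (pow_le_pow_right₀ hK (by norm_num)) hT2
  have g3 : K ^ 2 * T ^ 2 ≤ K ^ 5 * T ^ 2 := mul_le_mul_of_nonneg_right (pow_le_pow_right₀ hK (by norm_num)) hT2
  calc |δ| ≤ 42 * K ^ 5 / (n * d) + K ^ 3 * T ^ 2 / (n * d) + 3 * (K ^ 2 * T ^ 2) / (n * d)
        + 4 * (K ^ 2 * T ^ 2) / (n * d) :=
        hsum.trans (add_le_add_left (add_le_add_left (add_le_add_left s4 _) _) _)
    _ = (42 * K ^ 5 + K ^ 3 * T ^ 2 + 3 * (K ^ 2 * T ^ 2) + 4 * (K ^ 2 * T ^ 2)) / (n * d) := by ring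
    _ ≤ _ := by
        apply div_le_div_of_nonneg_right _ hnd.le
        clear s1 s2 s3 s4 e hsum hδ hN hMb hΨb maa hndn hdn h6
        linarith

theorem pc_l2 (n d T K δ : ℝ) (hT : 1 ≤ T) (hd : 1 ≤ d) (hK0 : 0 < K) (hn0 : 0 < n)
    (hδb : |δ| ≤ 50 * K ^ 5 * T ^ 2 / (n * d)) :
    3 * δ ^ 2 ≤ 7500 * K ^ 10 * T ^ 6 / (n ^ 2 * d) := by
  have hd0 : 0 < d := lt_of_lt_of_le one_pos hd
  have hT0 : 0 < T := lt_of_lt_of_le one_pos hT
  have hn2d : 0 < n ^ 2 * d := mul_pos (pow_pos hn0 2) hd0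
  have hK10 : 0 ≤ K ^ 10 := (pow_pos hK0 10).le
  have h1 : δ ^ 2 ≤ (50 * K ^ 5 * T ^ 2 / (n * d)) ^ 2 := by
    rw [← sq_abs]
    exact pow_le_pow_left₀ (abs_nonneg _) hδb 2
  have h2 : (50 * K ^ 5 * T ^ 2 / (n * d)) ^ 2 ≤ 2500 * K ^ 10 * T ^ 6 / (n ^ 2 * d) := by
    rw [div_pow]
    have e : (50 * K ^ 5 * T ^ 2) ^ 2 = 2500 * K ^ 10 * T ^ 4 := by ring
    rw [e]
    have hq0 : 0 ≤ 2500 * K ^ 10 := mul_nonneg (by norm_num) hK10
    refine div_le_div₀ (mul_nonneg hq0 (pow_pos hT0 6).le) ?_ hn2d ?_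
    · exact mul_le_mul_of_nonneg_left (pow_le_pow_right₀ hT (by norm_num)) hq0
    · calc n ^ 2 * d = n ^ 2 * d * 1 := by ring
        _ ≤ n ^ 2 * d * d := mul_le_mul_of_nonneg_left hd hn2d.le
        _ = (n * d) ^ 2 := by ring
  calc 3 * δ ^ 2 ≤ 3 * (2500 * K ^ 10 * T ^ 6 / (n ^ 2 * d)) :=
        mul_le_mul_of_nonneg_left (h1.trans h2) (by norm_num)
    _ = _ := by ring

theorem pc_l3 (n d T K δ p v : ℝ) (hT : 1 ≤ T) (hd0 : 0 < d) (hK : 1 ≤ K) (hn0 : 0 < n)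
    (hp2 : 3 / 4 ≤ 1 - 2 * p) (hv1 : 3 / 4 ≤ 1 - v)
    (hδb : |δ| ≤ 50 * K ^ 5 * T ^ 2 / (n * d)) (hv : |2 * p - v| ≤ 8 * K ^ 2 * T ^ 2 / n) :
    |δ / (1 - 2 * p) - δ / (1 - v)| ≤ 800 * K ^ 10 * T ^ 6 / (n ^ 2 * d) := by
  have hK0 : 0 < K := lt_of_lt_of_le one_pos hK
  have hT0 : 0 < T := lt_of_lt_of_le one_pos hT
  have hn2d : 0 < n ^ 2 * d := mul_pos (pow_pos hn0 2) hd0
  have hp0 : 1 - 2 * p ≠ 0 := by linarith
  have hv0 : 1 - v ≠ 0 := by linarith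
  have e : δ / (1 - 2 * p) - δ / (1 - v) = δ * (2 * p - v) / ((1 - 2 * p) * (1 - v)) := by
    rw [div_sub_div _ _ hp0 hv0]
    ring
  have h1 := pc_mul _ _ _ _ hδb hv
  have h2 : (1 : ℝ) / 2 ≤ (1 - 2 * p) * (1 - v) := by
    linarith [mul_le_mul hp2 hv1 (by norm_num) (by linarith)]
  have h2' : 0 < (1 - 2 * p) * (1 - v) := by linarith
  rw [e, abs_div, abs_of_pos h2', div_le_iff₀ h2']
  have e3 : 50 * K ^ 5 * T ^ 2 / (n * d) * (8 * K ^ 2 * T ^ 2 / n) = 400 * K ^ 7 * T ^ 4 / (n ^ 2 * d) := by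
    rw [div_mul_div_comm]
    congr 1 <;> ring
  rw [e3] at h1
  have h3 : 400 * K ^ 7 * T ^ 4 / (n ^ 2 * d) ≤ 400 * K ^ 10 * T ^ 6 / (n ^ 2 * d) := by
    apply div_le_div_of_nonneg_right _ hn2d.le
    exact mul_le_mul (mul_le_mul_of_nonneg_left (pow_le_pow_right₀ hK (by norm_num)) (by norm_num))
      (pow_le_pow_right₀ hT (by norm_num)) (pow_pos hT0 4).le (mul_nonneg (by norm_num) (pow_pos hK0 10).le)
  have h4 : 0 ≤ 800 * K ^ 10 * T ^ 6 / (n ^ 2 * d) :=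
    div_nonneg (mul_nonneg (mul_nonneg (by norm_num) (pow_pos hK0 10).le) (pow_pos hT0 6).le) hn2d.le
  calc |δ * (2 * p - v)| ≤ 400 * K ^ 10 * T ^ 6 / (n ^ 2 * d) := h1.trans h3
    _ = 800 * K ^ 10 * T ^ 6 / (n ^ 2 * d) * (1 / 2) := by ring
    _ ≤ _ := mul_le_mul_of_nonneg_left h2 h4

theorem pc_l4 (n d T K N a a' b b' δ M Ψ L p : ℝ) (hT : 1 ≤ T) (hd0 : 0 < d) (hK : 1 ≤ K)
    (hn0 : 0 < n) (hN0 : 0 < N) (hN : n * d ≤ K * N) (hNn : |N - n * d| ≤ K * n)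
    (hp : p = d / n) (hp2 : 3 / 4 ≤ 1 - 2 * p)
    (maa : |a * a'| ≤ K ^ 2 * T ^ 2)
    (halg : (a + b) * (a' + b') - b * b' / (1 - p) + 2 * (a * a') / (1 - 2 * p)
      - 1 / (1 - 2 * p) * (M + p * Ψ) = 0)
    (hδ : |δ + a * a' / N - M / n ^ 2 - p * Ψ / n ^ 2| ≤ 42 * K ^ 5 * T ^ 6 / (n ^ 2 * d))
    (hL : L = -(a * a' / N) + ((a + b) * (a' + b') - b * b' / (1 - p)) / n ^ 2) :
    |L - δ / (1 - 2 * p)| ≤ 92 * K ^ 10 * T ^ 6 / (n ^ 2 * d) := by
  have hK0 : 0 < K := lt_of_lt_of_le one_pos hK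
  have hT0 : 0 < T := lt_of_lt_of_le one_pos hT
  have hn2 : 0 < n ^ 2 := pow_pos hn0 2
  have hn2d : 0 < n ^ 2 * d := mul_pos hn2 hd0
  have hq0 : 0 < 1 - 2 * p := by linarith
  obtain ⟨Eδ, hEδ⟩ : ∃ Eδ, Eδ = δ + a * a' / N - M / n ^ 2 - p * Ψ / n ^ 2 := ⟨_, rfl⟩
  rw [← hEδ] at hδ
  have e : L - δ / (1 - 2 * p) = 2 / (1 - 2 * p) * (a * a' * (p / N - 1 / n ^ 2)) - Eδ / (1 - 2 * p) := by
    have e1 : δ = Eδ - a * a' / N + M / n ^ 2 + p * Ψ / n ^ 2 := by rw [hEδ]; ring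
    have e2 : (a + b) * (a' + b') - b * b' / (1 - p) = 1 / (1 - 2 * p) * (M + p * Ψ) - 2 * (a * a') / (1 - 2 * p) := by
      linear_combination halg
    rw [hL, e2, e1]
    have hi : (1 - 2 * p)⁻¹ * (1 - 2 * p) = 1 := inv_mul_cancel₀ hq0.ne'
    simp only [div_eq_mul_inv]
    linear_combination (a * a' * N⁻¹) * hi
  have h1 : |p / N - 1 / n ^ 2| ≤ K ^ 2 / (n ^ 2 * d) := by
    have e1 : p / N - 1 / n ^ 2 = (n * d - N) / (N * n ^ 2) := by
      rw [hp]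
      field_simp
    rw [e1, abs_div, abs_of_pos (mul_pos hN0 hn2), div_le_div_iff₀ (mul_pos hN0 hn2) hn2d]
    rw [abs_sub_comm] at hNn
    calc |n * d - N| * (n ^ 2 * d) ≤ (K * n) * (n ^ 2 * d) := mul_le_mul_of_nonneg_right hNn hn2d.le
      _ = K * n ^ 2 * (n * d) := by ring
      _ ≤ K * n ^ 2 * (K * N) := mul_le_mul_of_nonneg_left hN (mul_pos hK0 hn2).le
      _ = K ^ 2 * (N * n ^ 2) := by ring
  have h2 := pc_mul _ _ _ _ maa h1
  have h3 : |(2 : ℝ) / (1 - 2 * p)| ≤ 4 := by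
    rw [abs_div, abs_two, abs_of_pos hq0, div_le_iff₀ hq0]
    linarith
  have h4 := pc_mul _ _ _ _ h3 h2
  obtain ⟨X, hX⟩ : ∃ X, X = K ^ 10 * T ^ 6 / (n ^ 2 * d) := ⟨_, rfl⟩
  have g3 : 0 ≤ X := by
    rw [hX]
    exact div_nonneg (mul_nonneg (pow_pos hK0 10).le (pow_pos hT0 6).le) hn2d.le
  have g1 : K ^ 2 * T ^ 2 * (K ^ 2 / (n ^ 2 * d)) ≤ X := by
    have e5 : K ^ 2 * T ^ 2 * (K ^ 2 / (n ^ 2 * d)) = K ^ 4 * T ^ 2 / (n ^ 2 * d) := by ring
    rw [e5, hX]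
    apply div_le_div_of_nonneg_right _ hn2d.le
    exact mul_le_mul (pow_le_pow_right₀ hK (by norm_num)) (pow_le_pow_right₀ hT (by norm_num))
      (pow_pos hT0 2).le (pow_pos hK0 10).le
  have g2 : 42 * K ^ 5 * T ^ 6 / (n ^ 2 * d) ≤ 42 * X := by
    have e5 : 42 * X = 42 * K ^ 10 * T ^ 6 / (n ^ 2 * d) := by rw [hX]; ring
    rw [e5]
    apply div_le_div_of_nonneg_right _ hn2d.le
    exact mul_le_mul_of_nonneg_right (mul_le_mul_of_nonneg_left (pow_le_pow_right₀ hK (by norm_num)) (by norm_num))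
      (pow_pos hT0 6).le
  have h5 : |Eδ / (1 - 2 * p)| ≤ 84 * X := by
    rw [abs_div, abs_of_pos hq0, div_le_iff₀ hq0]
    have h7 := mul_le_mul_of_nonneg_left hp2 g3
    calc |Eδ| ≤ 42 * X := hδ.trans g2
      _ ≤ 84 * (X * (1 - 2 * p)) := by linarith
      _ = _ := by ring
  have e6 : 92 * K ^ 10 * T ^ 6 / (n ^ 2 * d) = 92 * X := by rw [hX]; ring
  rw [e, e6]
  refine (abs_sub _ _).trans ?_
  linarith

/-- the last step: the logarithms and the cancellation -/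
theorem pc_last (n d T K N a a' b b' δ v M Ψ L u : ℝ)
    (hT : 1 ≤ T) (hd : 1 ≤ d) (hK : 1 ≤ K) (hn0 : 0 < n) (hn : 100 * K ^ 2 * (d + T ^ 6) ≤ n) (hN0 : 0 < N)
    (hN : n * d ≤ K * N) (hNn : |N - n * d| ≤ K * n)
    (ha : |a| ≤ K * T) (ha' : |a'| ≤ K * T) (hb : |b| ≤ K * T) (hb' : |b'| ≤ K * T)
    (hk : |a + b| ≤ K * T) (hk' : |a' + b'| ≤ K * T)
    (hM : M = a * (a' + b') + a' * (a + b) + a * a')
    (hΨ : Ψ = -2 * ((a + b) * (a' + b')) + b * b' / (1 - d / n))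
    (hδ : |δ + a * a' / N - M / n ^ 2 - d / n * Ψ / n ^ 2| ≤ 42 * K ^ 5 * T ^ 6 / (n ^ 2 * d))
    (hu : |u - 2 * (d / n)| ≤ 8 * K ^ 2 * T ^ 2 / n) (hv : |v - 2 * (d / n)| ≤ 8 * K ^ 2 * T ^ 2 / n)
    (huv : u - v = δ)
    (hL : L = -(a * a' / N) + ((a + b) * (a' + b') - b * b' / (1 - d / n)) / n ^ 2) :
    |L + Real.log (1 - u) - Real.log (1 - v)| ≤ 9000 * K ^ 10 * T ^ 6 * (1 / (n ^ 2 * d)) := by
  have hd0 : 0 < d := lt_of_lt_of_le one_pos hd
  have hT0 : 0 < T := lt_of_lt_of_le one_pos hT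
  have hK0 : 0 < K := lt_of_lt_of_le one_pos hK
  have hK2 : 1 ≤ K ^ 2 := one_le_pow₀ hK
  have hT6 : 0 < T ^ 6 := pow_pos hT0 6
  have hA0 : 0 ≤ K ^ 2 * T ^ 6 := mul_nonneg (by linarith) hT6.le
  have hA1 : T ^ 6 ≤ K ^ 2 * T ^ 6 := le_mul_of_one_le_left hT6.le hK2
  have hA2 : d ≤ K ^ 2 * d := le_mul_of_one_le_left hd0.le hK2
  have hn' : 100 * (K ^ 2 * d) + 100 * (K ^ 2 * T ^ 6) ≤ n := by
    have e : 100 * (K ^ 2 * d) + 100 * (K ^ 2 * T ^ 6) = 100 * K ^ 2 * (d + T ^ 6) := by ring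
    rw [e]
    exact hn
  clear hn
  have h6 : T ^ 6 ≤ n := by linarith only [hn', hA1, hA2, hT6, hd0]
  have hdn : d ≤ n := by linarith only [hn', hA1, hA2, hT6, hd0]
  have hdn100 : 100 * d ≤ n := by linarith only [hn', hA1, hA2, hT6, hd0]
  have hAn : 100 * (K ^ 2 * T ^ 6) ≤ n := by linarith only [hn', hA1, hA2, hT6, hd0]
  obtain ⟨p, hp⟩ : ∃ p, p = d / n := ⟨_, rfl⟩
  rw [← hp] at hΨ hδ hu hv hL
  have hp0 : 0 < p := by rw [hp]; exact div_pos hd0 hn0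
  have hp1 : p ≤ 1 / 100 := by
    rw [hp, div_le_div_iff₀ hn0 (by norm_num)]
    linarith only [hdn100]
  have hq : 8 * K ^ 2 * T ^ 2 / n ≤ 8 / 100 := by
    rw [div_le_div_iff₀ hn0 (by norm_num)]
    have : K ^ 2 * T ^ 2 ≤ K ^ 2 * T ^ 6 :=
      mul_le_mul_of_nonneg_left (pow_le_pow_right₀ hT (by norm_num)) (by linarith only [hK2])
    linarith only [this, hAn]
  have hv4 : |v| ≤ 1 / 4 := by
    rw [abs_le] at hv ⊢
    constructor <;> linarith only [hv.1, hv.2, hq, hp1, hp0]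
  have hδ16 : |δ| ≤ 1 / 4 := by
    rw [← huv]
    rw [abs_le] at hu hv ⊢
    constructor <;> linarith only [hv.1, hv.2, hu.1, hu.2, hq]
  have hlog := pc_log u v hv4 (by rw [huv]; exact hδ16)
  rw [huv] at hlog
  have hv1 : 3 / 4 ≤ 1 - v := by linarith only [(abs_le.1 hv4).2]
  have hp2 : 3 / 4 ≤ 1 - 2 * p := by linarith only [hp1]
  -- size of the pieces
  have maa := pc_mul _ _ _ _ ha ha'
  have mak := pc_mul _ _ _ _ ha hk'
  have mka := pc_mul _ _ _ _ ha' hk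
  have mkk := pc_mul _ _ _ _ hk hk'
  have mbb := pc_mul _ _ _ _ hb hb'
  have hKT2 : K * T * (K * T) = K ^ 2 * T ^ 2 := by ring
  rw [hKT2] at maa mak mka mkk mbb
  obtain ⟨X, hX⟩ : ∃ X, X = K ^ 2 * T ^ 2 := ⟨_, rfl⟩
  have hX0 : 0 ≤ X := by rw [hX]; exact mul_nonneg (by linarith only [hK2]) (pow_pos hT0 2).le
  have hMb : |M| ≤ 3 * X := by
    rw [hM, hX]
    refine (abs_add_le _ _).trans ?_
    have := abs_add_le (a * (a' + b')) (a' * (a + b))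
    linarith only [this, mak, mka, maa]
  have hbq : |b * b' / (1 - p)| ≤ 2 * X := by
    have h1p : 0 < 1 - p := by linarith only [hp1]
    rw [abs_div, abs_of_pos h1p, div_le_iff₀ h1p]
    rw [← hX] at mbb
    linarith only [mbb, mul_nonneg hX0 (by linarith only [hp1] : (0 : ℝ) ≤ 1 - 2 * p)]
  have hΨb : |Ψ| ≤ 4 * X := by
    rw [hΨ]
    refine (abs_add_le _ _).trans ?_
    have : |-2 * ((a + b) * (a' + b'))| = 2 * |(a + b) * (a' + b')| := by
      rw [abs_mul, abs_neg, abs_two]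
    rw [this]
    rw [← hX] at mkk
    linarith only [mkk, hbq]
  rw [hX] at hMb hΨb
  have hδb := pc_l1 n d T K N (a * a') δ M Ψ p hT hd0 hK hn0 hN0 hN hdn h6 hp0
    (by linarith only [hp1]) maa hMb hΨb hδ
  have hsq := pc_l2 n d T K δ hT hd hK0 hn0 hδb
  rw [abs_sub_comm] at hv
  have hdiff := pc_l3 n d T K δ p v hT hd0 hK hn0 hp2 hv1 hδb hv
  -- the main cancellation
  have halg := pc_algebra a a' b b' p (by linarith only [hp1]) hp0
  rw [← hM, ← hΨ] at halg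
  have hmain := pc_l4 n d T K N a a' b b' δ M Ψ L p hT hd0 hK hn0 hN0 hN hNn hp hp2 maa halg hδ hL
  have efin : L + Real.log (1 - u) - Real.log (1 - v) = (L - δ / (1 - 2 * p))
      + (Real.log (1 - u) - Real.log (1 - v) + δ / (1 - v)) + (δ / (1 - 2 * p) - δ / (1 - v)) := by ring
  rw [efin]
  refine (abs_add_le _ _).trans ?_
  have t1 := abs_add_le (L - δ / (1 - 2 * p)) (Real.log (1 - u) - Real.log (1 - v) + δ / (1 - v))
  obtain ⟨Y, hY⟩ : ∃ Y, Y = K ^ 10 * T ^ 6 / (n ^ 2 * d) := ⟨_, rfl⟩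
  have e7 : 9000 * K ^ 10 * T ^ 6 * (1 / (n ^ 2 * d)) = 9000 * Y := by rw [hY]; ring
  have e8 : 92 * K ^ 10 * T ^ 6 / (n ^ 2 * d) = 92 * Y := by rw [hY]; ring
  have e9 : 800 * K ^ 10 * T ^ 6 / (n ^ 2 * d) = 800 * Y := by rw [hY]; ring
  have e10 : 7500 * K ^ 10 * T ^ 6 / (n ^ 2 * d) = 7500 * Y := by rw [hY]; ring
  rw [e8] at hmain
  rw [e9] at hdiff
  rw [e10] at hsq
  rw [e7]
  have g3 : 0 ≤ Y := by
    rw [hY]
    exact div_nonneg (mul_nonneg (pow_pos hK0 10).le hT6.le) (mul_pos (pow_pos hn0 2) hd0).le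
  linarith only [t1, hmain, hdiff, hsq, hlog, g3]

theorem pc_assemble (n d T K N rx ry rz rw bx by' bz bw kx ky kz kw κ be1 be2 be3 be4 p1 p2 p3 p4
    ex1 ex2 ex3 ex4 F1 F2 F3 F4 L1 L2 : ℝ)
    (hT : 1 ≤ T) (hd : 1 ≤ d) (hK : 1 ≤ K) (hn0 : 0 < n) (hn : 100 * K ^ 2 * (d + T ^ 6) ≤ n) (hN0 : 0 < N)
    (hN : n * d ≤ K * N) (hNn : |N - n * d| ≤ K * n)
    (hrx0 : 0 ≤ rx) (hrx : rx ≤ K * T) (hry0 : 0 ≤ ry) (hry : ry ≤ K * T)
    (hrz0 : 0 ≤ rz) (hrz : rz ≤ K * T) (hrw0 : 0 ≤ rw) (hrw : rw ≤ K * T)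
    (hrxd : rx ≤ d) (hryd : ry ≤ d) (hrzd : rz ≤ d) (hrwd : rw ≤ d)
    (hbx0 : 0 ≤ bx) (hbx : bx ≤ K * T) (hby0 : 0 ≤ by') (hby : by' ≤ K * T)
    (hbz0 : 0 ≤ bz) (hbz : bz ≤ K * T) (hbw0 : 0 ≤ bw) (hbw : bw ≤ K * T)
    (ekx : kx = rx + bx) (eky : ky = ry + by') (ekz : kz = rz + bz) (ekw : kw = rw + bw)
    (hkx : kx ≤ K * T) (hky : ky ≤ K * T) (hkz : kz ≤ K * T) (hkw : kw ≤ K * T)
    (h1 : |be1 - d * (1 + kx + kz - κ)| ≤ K * T ^ 2) (h1' : |1 + kx + kz - κ| ≤ K * T)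
    (h2 : |be2 - d * (1 + ky + kw - κ)| ≤ K * T ^ 2) (h2' : |1 + ky + kw - κ| ≤ K * T)
    (h3 : |be3 - d * (1 + kx + ky - κ)| ≤ K * T ^ 2) (h3' : |1 + kx + ky - κ| ≤ K * T)
    (h4 : |be4 - d * (1 + kz + kw - κ)| ≤ K * T ^ 2) (h4' : |1 + kz + kw - κ| ≤ K * T)
    (hS : be1 + be2 - be3 - be4 = (rx - rw) * (ry - rz) * (1 - 4 / N))
    (hp1 : |p1| ≤ K * T ^ 2) (hp2 : |p2| ≤ K * T ^ 2) (hp3 : |p3| ≤ K * T ^ 2) (hp4 : |p4| ≤ K * T ^ 2)
    (hΨ : p1 + p2 - p3 - p4 = -2 * ((kx - kw) * (ky - kz)) + (bx - bw) * (by' - bz) / (1 - d / n))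
    (he1 : |(d - rx) * (d - rz) * (ex1 - 1 - (be1 / N + p1 / n ^ 2))| ≤ d ^ 2 * (K * T ^ 6 / (n ^ 2 * d)))
    (he2 : |(d - ry) * (d - rw) * (ex2 - 1 - (be2 / N + p2 / n ^ 2))| ≤ d ^ 2 * (K * T ^ 6 / (n ^ 2 * d)))
    (he3 : |(d - rx) * (d - ry) * (ex3 - 1 - (be3 / N + p3 / n ^ 2))| ≤ d ^ 2 * (K * T ^ 6 / (n ^ 2 * d)))
    (he4 : |(d - rz) * (d - rw) * (ex4 - 1 - (be4 / N + p4 / n ^ 2))| ≤ d ^ 2 * (K * T ^ 6 / (n ^ 2 * d)))
    (he1' : |(d - rx) * (d - rz) * (ex1 - 1)| ≤ d ^ 2 * (K * T ^ 2 / n))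
    (he2' : |(d - ry) * (d - rw) * (ex2 - 1)| ≤ d ^ 2 * (K * T ^ 2 / n))
    (he3' : |(d - rx) * (d - ry) * (ex3 - 1)| ≤ d ^ 2 * (K * T ^ 2 / n))
    (he4' : |(d - rz) * (d - rw) * (ex4 - 1)| ≤ d ^ 2 * (K * T ^ 2 / n))
    (hF1 : F1 = (d - rx) * (d - rz) / N * ex1) (hF2 : F2 = (d - ry) * (d - rw) / N * ex2)
    (hF3 : F3 = (d - rx) * (d - ry) / N * ex3) (hF4 : F4 = (d - rz) * (d - rw) / N * ex4)
    (hL : L1 - L2 = -((rx - rw) * (ry - rz) / N)
      + ((kx - kw) * (ky - kz) - (bx - bw) * (by' - bz) / (1 - d / n)) / n ^ 2) :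
    |L1 - L2 + Real.log (1 - F1 - F2) - Real.log (1 - F3 - F4)| ≤ 9000 * K ^ 10 * T ^ 6 * (1 / (n ^ 2 * d)) := by
  have hd0 : 0 < d := by linarith
  have hT0 : 0 < T := by linarith
  have hK0 : 0 < K := by linarith
  have hKd : K * d ≤ n := by
    have g1 : 0 ≤ 100 * K ^ 2 * T ^ 6 := by positivity
    have g2 : K * d ≤ K ^ 2 * d := mul_le_mul_of_nonneg_right (le_self_pow₀ hK (by norm_num)) hd0.le
    have g3 : 0 ≤ K ^ 2 * d := by positivity
    linarith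
  have hkx0 : 0 ≤ kx := by rw [ekx]; positivity
  have hky0 : 0 ≤ ky := by rw [eky]; positivity
  have hkz0 : 0 ≤ kz := by rw [ekz]; positivity
  have hkw0 : 0 ≤ kw := by rw [ekw]; positivity
  have s2 := pc_S2 n d T K N rx ry rz rw kx ky kz kw κ be1 be2 be3 be4 hT hd hK hn0 hKd hN0 hN hNn
    hrx0 hrx hry0 hry hrz0 hrz hrw0 hrw hkx0 hkx hky0 hky hkz0 hkz hkw0 hkw h1 h1' h2 h2' h3 h3' h4 h4' hS
  have s3 := pc_S3 n d T K N rx ry rz rw p1 p2 p3 p4 hT hd hK hn0 hKd hN0 hN hNn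
    hrx0 hrx hry0 hry hrz0 hrz hrw0 hrw hrxd hryd hrzd hrwd hp1 hp2 hp3 hp4
  have sr := pc_SR n d T K N _ _ _ _ hT hd hK hn0 hKd hN0 hN he1 he2 he3 he4
  have f1 := pc_F n d T K N rx rz ex1 F1 hT hd hK hn0 hKd hN0 hN hNn hrx0 hrxd hrx hrz0 hrzd hrz he1' hF1
  have f2 := pc_F n d T K N ry rw ex2 F2 hT hd hK hn0 hKd hN0 hN hNn hry0 hryd hry hrw0 hrwd hrw he2' hF2
  have f3 := pc_F n d T K N rx ry ex3 F3 hT hd hK hn0 hKd hN0 hN hNn hrx0 hrxd hrx hry0 hryd hry he3' hF3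
  have f4 := pc_F n d T K N rz rw ex4 F4 hT hd hK hn0 hKd hN0 hN hNn hrz0 hrzd hrz hrw0 hrwd hrw he4' hF4
  have e1 : 1 - F1 - F2 = 1 - (F1 + F2) := by ring
  have e2 : 1 - F3 - F4 = 1 - (F3 + F4) := by ring
  have e8 : 8 * K ^ 2 * T ^ 2 / n = 4 * K ^ 2 * T ^ 2 / n + 4 * K ^ 2 * T ^ 2 / n := by ring
  rw [e1, e2]
  refine pc_last n d T K N (rx - rw) (ry - rz) (bx - bw) (by' - bz) (F1 + F2 - (F3 + F4)) (F3 + F4)
    ((rx - rw) * (ky - kz) + (ry - rz) * (kx - kw) + (rx - rw) * (ry - rz)) (p1 + p2 - p3 - p4) (L1 - L2)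
    (F1 + F2) hT hd hK hn0 hn hN0 hN hNn (pc_sub _ _ _ hrx0 hrx hrw0 hrw) (pc_sub _ _ _ hry0 hry hrz0 hrz)
    (pc_sub _ _ _ hbx0 hbx hbw0 hbw) (pc_sub _ _ _ hby0 hby hbz0 hbz) ?_ ?_ ?_ ?_ ?_ ?_ ?_ rfl ?_
  · have e : rx - rw + (bx - bw) = kx - kw := by rw [ekx, ekw]; ring
    rw [e]
    exact pc_sub _ _ _ hkx0 hkx hkw0 hkw
  · have e : ry - rz + (by' - bz) = ky - kz := by rw [eky, ekz]; ring
    rw [e]
    exact pc_sub _ _ _ hky0 hky hkz0 hkz
  · rw [ekx, eky, ekz, ekw]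
    ring
  · rw [hΨ, ekx, eky, ekz, ekw]
    ring
  · have e : F1 + F2 - (F3 + F4) + (rx - rw) * (ry - rz) / N
        - ((rx - rw) * (ky - kz) + (ry - rz) * (kx - kw) + (rx - rw) * (ry - rz)) / n ^ 2
        - d / n * (p1 + p2 - p3 - p4) / n ^ 2
        = (((d - rx) * (d - rz) * be1 + (d - ry) * (d - rw) * be2 - (d - rx) * (d - ry) * be3
            - (d - rz) * (d - rw) * be4) / N ^ 2
          - ((rx - rw) * (ky - kz) + (ry - rz) * (kx - kw) + (rx - rw) * (ry - rz)) / n ^ 2)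
        + (((d - rx) * (d - rz) * p1 + (d - ry) * (d - rw) * p2 - (d - rx) * (d - ry) * p3
            - (d - rz) * (d - rw) * p4) / (N * n ^ 2) - d / n * (p1 + p2 - p3 - p4) / n ^ 2)
        + ((d - rx) * (d - rz) * (ex1 - 1 - (be1 / N + p1 / n ^ 2))
          + (d - ry) * (d - rw) * (ex2 - 1 - (be2 / N + p2 / n ^ 2))
          - (d - rx) * (d - ry) * (ex3 - 1 - (be3 / N + p3 / n ^ 2))
          - (d - rz) * (d - rw) * (ex4 - 1 - (be4 / N + p4 / n ^ 2))) / N := by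
      rw [hF1, hF2, hF3, hF4]
      field_simp
      ring
    rw [e]
    refine (abs_add_le _ _).trans ((add_le_add ((abs_add_le _ _).trans (add_le_add s2 s3)) sr).trans ?_)
    apply le_of_eq
    ring
  · have e : F1 + F2 - 2 * (d / n) = (F1 - d / n) + (F2 - d / n) := by ring
    rw [e, e8]
    exact (abs_add_le _ _).trans (add_le_add f1 f2)
  · have e : F3 + F4 - 2 * (d / n) = (F3 - d / n) + (F4 - d / n) := by ring
    rw [e, e8]
    exact (abs_add_le _ _).trans (add_le_add f3 f4)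
  · rw [hL, ekx, eky, ekz, ekw]
    ring

/-- two insertions -/
structure PTwo (d m t : ℕ) (A B : Finset (Sym2 (Fin n))) (a b c e : Fin n) : Prop where
  h1 : s(a, b) ∉ A
  h1' : s(a, b) ∉ B
  h2 : s(c, e) ∉ insert s(a, b) A
  h2' : s(c, e) ∉ B
  ab : a ≠ b
  ac : a ≠ c
  ae : a ≠ e
  bc : b ≠ c
  be : b ≠ e
  ce : c ≠ e
  h3 : s(c, e) ∉ A

theorem pcj_two (d m t : ℕ) (A B : Finset (Sym2 (Fin n))) (a b c e : Fin n)
    (hab : Val d A B a b) (hce : Val d A B c e) (ac : a ≠ c) (ae : a ≠ e) (bc : b ≠ c) (be : b ≠ e) :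
    PTwo d m t A B a b c e := by
  refine ⟨hab.nA, hab.nB, ?_, hce.nB, hab.ne, ac, ae, bc, be, hce.ne, hce.nA⟩
  rw [Finset.mem_insert]
  rintro (h | h)
  · rw [Sym2.eq_iff] at h
    rcases h with h | h
    · exact ac h.1.symm
    · exact bc h.1.symm
  · exact hce.nA h

theorem pcj_dg (A : Finset (Sym2 (Fin n))) (a b c e v : Fin n) (ab : a ≠ b) (ce : c ≠ e)
    (h1 : s(a, b) ∉ A) (h2 : s(c, e) ∉ insert s(a, b) A) :
    dg (insert s(c, e) (insert s(a, b) A)) v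
      = dg A v + (if v = a ∨ v = b then 1 else 0) + (if v = c ∨ v = e then 1 else 0) := by
  rw [dg_insert _ c e v ce h2, dg_insert _ a b v ab h1]

theorem pcj_rd (d : ℕ) (A : Finset (Sym2 (Fin n))) (a b c e v : Fin n) (ab : a ≠ b) (ce : c ≠ e)
    (h1 : s(a, b) ∉ A) (h2 : s(c, e) ∉ insert s(a, b) A) :
    rd d (insert s(c, e) (insert s(a, b) A)) v
      = rd d A v - (if v = a ∨ v = b then 1 else 0) - (if v = c ∨ v = e then 1 else 0) := by
  rw [rd_insert d _ c e v ce h2, rd_insert d _ a b v ab h1]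

theorem pcj_card (A : Finset (Sym2 (Fin n))) (a b c e : Fin n)
    (h1 : s(a, b) ∉ A) (h2 : s(c, e) ∉ insert s(a, b) A) :
    (insert s(c, e) (insert s(a, b) A)).card = A.card + 2 := by
  rw [Finset.card_insert_of_notMem h2, Finset.card_insert_of_notMem h1]

theorem pcj_cls (d m t : ℕ) (A B : Finset (Sym2 (Fin n))) (a b c e : Fin n)
    (hA : Cls d m t A) (hab : Val d A B a b) (hce : Val d A B c e) (T : PTwo d m t A B a b c e) :
    Cls d m (t + 2) (insert s(c, e) (insert s(a, b) A)) := by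
  have hdg := fun v => pcj_dg A a b c e v T.ab T.ce T.h1 T.h2
  refine ⟨?_, ?_, ?_, ?_⟩
  · intro f hf
    rw [Finset.mem_insert, Finset.mem_insert] at hf
    rcases hf with rfl | rfl | hf
    · simpa using T.ce
    · simpa using T.ab
    · exact hA.nd f hf
  · intro v
    rw [hdg v]
    have h0 := hA.led v
    by_cases hv1 : v = a ∨ v = b
    · have hv2 : ¬ (v = c ∨ v = e) := by
        rcases hv1 with rfl | rfl
        · push Not; exact ⟨T.ac, T.ae⟩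
        · push Not; exact ⟨T.bc, T.be⟩
      have h3 : dg A v < d := by
        rcases hv1 with rfl | rfl
        · exact hab.hx
        · exact hab.hy
      simp only [hv1, hv2, if_true, if_false]
      omega
    · by_cases hv2 : v = c ∨ v = e
      · have h3 : dg A v < d := by
          rcases hv2 with rfl | rfl
          · exact hce.hx
          · exact hce.hy
        simp only [hv1, hv2, if_true, if_false]
        omega
      · simp only [hv1, hv2, if_false]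
        omega
  · intro v
    rw [hdg v]
    have h0 := hA.lem v
    split_ifs <;> omega
  · rw [pcj_card A a b c e T.h1 T.h2]
    have := hA.card
    omega

theorem pcj_EE2 (d : ℕ) (A : Finset (Sym2 (Fin n))) (a b c e : Fin n)
    (h1 : s(a, b) ∉ A) (h2 : s(c, e) ∉ insert s(a, b) A) :
    EE d (insert s(c, e) (insert s(a, b) A)) = EE d A - 4 := by
  rw [EE_insert d _ c e h2, EE_insert d _ a b h1]
  ring

theorem pcj_QQ2 (d m t : ℕ) (A B : Finset (Sym2 (Fin n))) (a b c e : Fin n)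
    (hA : ND A) (hB : ND B) (T : PTwo d m t A B a b c e) :
    QQ d (insert s(c, e) (insert s(a, b) A)) B
      = QQ d A B - 2 * (TT d A B a + TT d A B b + TT d A B c + TT d A B e)
        + 2 * ((if s(c, a) ∈ A ∪ B then 1 else 0) + (if s(c, b) ∈ A ∪ B then 1 else 0)
          + (if s(e, a) ∈ A ∪ B then 1 else 0) + (if s(e, b) ∈ A ∪ B then 1 else 0))
        + 2 * (rd d A a - 1) * (rd d A b - 1) + 2 * (rd d A c - 1) * (rd d A e - 1) := by
  have hA' : ND (insert s(a, b) A) := by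
    intro f hf
    rw [Finset.mem_insert] at hf
    rcases hf with rfl | hf
    · simpa using T.ab
    · exact hA f hf
  have r1 : rd d (insert s(a, b) A) c = rd d A c := by
    rw [rd_insert d A a b c T.ab T.h1, if_neg (by push Not; exact ⟨T.ac.symm, T.bc.symm⟩)]
    ring
  have r2 : rd d (insert s(a, b) A) e = rd d A e := by
    rw [rd_insert d A a b e T.ab T.h1, if_neg (by push Not; exact ⟨T.ae.symm, T.be.symm⟩)]
    ring
  rw [QQ_insert d _ B c e hA' hB T.ce T.h2 T.h2', QQ_insert d A B a b hA hB T.ab T.h1 T.h1', r1, r2,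
    TT_insert_other d A B a b c T.ab T.h1 T.h1' T.ac.symm T.bc.symm,
    TT_insert_other d A B a b e T.ab T.h1 T.h1' T.ae.symm T.be.symm]
  ring

theorem pc_sum_nbr_insert (C : Finset (Sym2 (Fin n))) {x y : Fin n} (hxy : x ≠ y) (h : s(x, y) ∉ C)
    (g : Fin n → ℝ) (v : Fin n) : ∑ w ∈ nbr (insert s(x, y) C) v, g w =
      ∑ w ∈ nbr C v, g w + (if v = x then g y else 0) + (if v = y then g x else 0) := by
  by_cases hx : v = x
  · subst hx
    have e : nbr (insert s(v, y) C) v = insert y (nbr C v) := by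
      ext w
      simp only [nbr, mem_filter, mem_univ, true_and, mem_insert, Sym2.congr_right]
    have hy : y ∉ nbr C v := by
      simp only [nbr, mem_filter, mem_univ, true_and]
      exact h
    rw [e, sum_insert hy, if_pos rfl, if_neg hxy]
    ring
  · by_cases hy : v = y
    · subst hy
      have e : nbr (insert s(x, v) C) v = insert x (nbr C v) := by
        ext w
        simp only [nbr, mem_filter, mem_univ, true_and, mem_insert, Sym2.eq_swap (a := x) (b := v),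
          Sym2.congr_right]
      have hx' : x ∉ nbr C v := by
        simp only [nbr, mem_filter, mem_univ, true_and]
        rw [Sym2.eq_swap]
        exact h
      rw [e, sum_insert hx', if_pos rfl, if_neg hx]
      ring
    · have e : nbr (insert s(x, y) C) v = nbr C v := by
        ext w
        simp only [nbr, mem_filter, mem_univ, true_and, mem_insert]
        constructor
        · rintro (h1 | h1)
          · rw [Sym2.eq_iff] at h1
            rcases h1 with h1 | h1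
            · exact absurd h1.1 hx
            · exact absurd h1.1 hy
          · exact h1
        · exact Or.inr
      rw [e, if_neg hx, if_neg hy]
      ring

theorem pc_nbr_four (C : Finset (Sym2 (Fin n))) (x y z w : Fin n) (hxy : x ≠ y) (hxz : x ≠ z) (hxw : x ≠ w)
    (hyz : y ≠ z) (hyw : y ≠ w) (hzw : z ≠ w)
    (c1 : s(x, y) ∉ C) (c2 : s(z, w) ∉ insert s(x, y) C) (c3 : s(x, z) ∉ C) (c4 : s(y, w) ∉ insert s(x, z) C)
    (g : Fin n → ℝ) :
    ∑ v ∈ nbr (insert s(z, w) (insert s(x, y) C)) x, g v + ∑ v ∈ nbr (insert s(z, w) (insert s(x, y) C)) z, g v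
      + ∑ v ∈ nbr (insert s(z, w) (insert s(x, y) C)) y, g v + ∑ v ∈ nbr (insert s(z, w) (insert s(x, y) C)) w, g v
      = ∑ v ∈ nbr (insert s(y, w) (insert s(x, z) C)) x, g v + ∑ v ∈ nbr (insert s(y, w) (insert s(x, z) C)) y, g v
      + ∑ v ∈ nbr (insert s(y, w) (insert s(x, z) C)) z, g v + ∑ v ∈ nbr (insert s(y, w) (insert s(x, z) C)) w, g v := by
  simp only [pc_sum_nbr_insert _ hzw c2, pc_sum_nbr_insert _ hxy c1, pc_sum_nbr_insert _ hyw c4,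
    pc_sum_nbr_insert _ hxz c3, if_pos, if_neg hxy, if_neg hxz, if_neg hxw, if_neg hyz, if_neg hyw, if_neg hzw,
    if_neg hxy.symm, if_neg hxz.symm, if_neg hxw.symm, if_neg hyz.symm, if_neg hyw.symm, if_neg hzw.symm]
  ring

theorem pc_exp1 (g C T K n : ℝ) (hC : 1 ≤ C) (hT : 1 ≤ T) (hn0 : 0 < n) (hn : 9 * C * T ^ 2 ≤ n)
    (hK : 18 * C ≤ K) (h2 : |g| ≤ 9 * C * T ^ 2 / n) : |Real.exp g - 1| ≤ K * T ^ 2 / n := by
  have h3 : 9 * C * T ^ 2 / n ≤ 1 := by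
    rw [div_le_one hn0]
    exact hn
  have h4 := Real.abs_exp_sub_one_le (x := g) (by linarith)
  refine h4.trans ?_
  calc 2 * |g| ≤ 2 * (9 * C * T ^ 2 / n) := by linarith
    _ = 18 * C * T ^ 2 / n := by ring
    _ ≤ K * T ^ 2 / n := by
      apply div_le_div_of_nonneg_right _ hn0.le
      exact mul_le_mul_of_nonneg_right hK (by positivity)

theorem pc_pair (d m t : ℕ) (A B : Finset (Sym2 (Fin n))) (x z : Fin n) (T K ps : ℝ)
    (hA : Cls d m t A) (hxz : x ≠ z) (hxA : s(x, z) ∉ A) (hxB : s(x, z) ∉ B)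
    (hT0 : 0 < T) (hK0 : 0 < K) (hn0 : (0 : ℝ) < n) (hd0 : (0 : ℝ) < d)
    (hg : Val d A B x z → |Real.exp (gL (ellp d) d A B x z) - (1 + bet d A B x z / EE d A + ps / (n : ℝ) ^ 2)|
        ≤ K * T ^ 6 / ((n : ℝ) ^ 2 * d) ∧ |Real.exp (gL (ellp d) d A B x z) - 1| ≤ K * T ^ 2 / n) :
    |rd d A x * rd d A z * (Real.exp (gL (ellp d) d A B x z) - 1 - (bet d A B x z / EE d A + ps / (n : ℝ) ^ 2))|
        ≤ (d : ℝ) ^ 2 * (K * T ^ 6 / ((n : ℝ) ^ 2 * d)) ∧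
      |rd d A x * rd d A z * (Real.exp (gL (ellp d) d A B x z) - 1)| ≤ (d : ℝ) ^ 2 * (K * T ^ 2 / n) := by
  have hrd : ∀ v, 0 ≤ rd d A v ∧ rd d A v ≤ d := by
    intro v
    have h1 : (dg A v : ℝ) ≤ d := by exact_mod_cast hA.led v
    have h2 : (0 : ℝ) ≤ dg A v := Nat.cast_nonneg _
    unfold rd
    constructor <;> linarith
  by_cases h0 : rd d A x * rd d A z = 0
  · rw [h0]
    simp only [zero_mul, abs_zero]
    refine ⟨by positivity, by positivity⟩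
  · have hx0 : rd d A x ≠ 0 := left_ne_zero_of_mul h0
    have hz0 : rd d A z ≠ 0 := right_ne_zero_of_mul h0
    have hlt : ∀ v, rd d A v ≠ 0 → dg A v < d := by
      intro v hv
      rcases (hA.led v).lt_or_eq with h | h
      · exact h
      · exfalso
        apply hv
        unfold rd
        rw [h]
        ring
    obtain ⟨g1, g2⟩ := hg ⟨hxz, hxA, hxB, hlt x hx0, hlt z hz0⟩
    have hp0 : 0 ≤ rd d A x * rd d A z := mul_nonneg (hrd x).1 (hrd z).1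
    have hp : rd d A x * rd d A z ≤ (d : ℝ) ^ 2 := by
      rw [sq]
      exact mul_le_mul (hrd x).2 (hrd z).2 (hrd z).1 (Nat.cast_nonneg _)
    refine ⟨?_, ?_⟩
    · rw [abs_mul, abs_of_nonneg hp0]
      have e : Real.exp (gL (ellp d) d A B x z) - 1 - (bet d A B x z / EE d A + ps / (n : ℝ) ^ 2)
          = Real.exp (gL (ellp d) d A B x z) - (1 + bet d A B x z / EE d A + ps / (n : ℝ) ^ 2) := by ring
      rw [e]
      exact mul_le_mul hp g1 (abs_nonneg _) (by positivity)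
    · rw [abs_mul, abs_of_nonneg hp0]
      exact mul_le_mul hp g2 (abs_nonneg _) (by positivity)

/-- the bound for `ψ` -/
theorem pc_psi (g s b1 b2 q C1 C2 T K : ℝ) (hT : 1 ≤ T) (hC1 : 1 ≤ C1) (hC2 : 1 ≤ C2)
    (hg : |g| ≤ 9 * C2 * T ^ 2) (hs : |s| ≤ 3 * C2 * T) (hb1 : |b1| ≤ C1) (hb2 : |b2| ≤ C1) (hq : 1 / 2 ≤ q)
    (hK : 9 * C2 + 2 * C1 ^ 2 + 1 + 5 * C2 ^ 2 ≤ K) : |g - b1 * b2 / q - 1 + s ^ 2 / 2| ≤ K * T ^ 2 := by
  have h1 : |b1 * b2 / q| ≤ 2 * C1 ^ 2 := by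
    have hq0 : 0 < q := by linarith
    rw [abs_div, abs_of_pos hq0, div_le_iff₀ hq0, abs_mul]
    have : |b1| * |b2| ≤ C1 * C1 := mul_le_mul hb1 hb2 (abs_nonneg _) (by linarith)
    have h0 : 0 ≤ C1 ^ 2 := by positivity
    linarith [mul_le_mul_of_nonneg_left hq h0]
  have h2 : s ^ 2 ≤ 9 * C2 ^ 2 * T ^ 2 := by
    rw [← sq_abs]
    calc |s| ^ 2 ≤ (3 * C2 * T) ^ 2 := pow_le_pow_left₀ (abs_nonneg _) hs 2
      _ = _ := by ring
  have hT2 : 1 ≤ T ^ 2 := one_le_pow₀ hT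
  have h3 : (9 * C2 + 2 * C1 ^ 2 + 1 + 5 * C2 ^ 2) * T ^ 2 ≤ K * T ^ 2 := mul_le_mul_of_nonneg_right hK (by positivity)
  have h4 : C1 ^ 2 ≤ C1 ^ 2 * T ^ 2 := le_mul_of_one_le_right (by positivity) hT2
  have h5 : 0 ≤ s ^ 2 := sq_nonneg s
  have h6 : 0 ≤ C2 ^ 2 * T ^ 2 := by positivity
  rw [abs_le] at hg h1 ⊢
  constructor <;> linarith [hg.1, hg.2, h1.1, h1.2]

/-- TARGET 2 -/
theorem ellp_four (m : ℕ) : ∃ C : ℝ, 1 ≤ C ∧ ∀ (n d t : ℕ) (A B : Finset (Sym2 (Fin n))) (x y z w : Fin n),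
    Even (n * d) → m + 1 ≤ d → C * ((d : ℝ) + (1 + t) ^ 6) ≤ n → Cls d m t A → BCls m B → Disjoint A B →
    Val d A B x y → Val d A B z w → Val d A B x z → Val d A B y w → x ≠ w → y ≠ z →
    |ellp d (insert s(z, w) (insert s(x, y) A)) B - ellp d (insert s(y, w) (insert s(x, z) A)) B
      + Real.log (1 - fL (ellp d) d (insert s(z, w) (insert s(x, y) A)) B x z
          - fL (ellp d) d (insert s(z, w) (insert s(x, y) A)) B y w)
      - Real.log (1 - fL (ellp d) d (insert s(y, w) (insert s(x, z) A)) B x y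
          - fL (ellp d) d (insert s(y, w) (insert s(x, z) A)) B z w)|
      ≤ C * (1 + t) ^ 6 * (1 / ((n : ℝ) ^ 2 * d)) := by
  obtain ⟨Ce, hCe, he⟩ := EE_lower m
  obtain ⟨Ck, hCk, hk⟩ := k_bounds m
  obtain ⟨Cb, hCb, hb⟩ := bet_near m
  obtain ⟨Cg, hCg, hg⟩ := ggp m
  obtain ⟨Cx, hCx, hx⟩ := ggp_exp m
  obtain ⟨K, hKdef⟩ : ∃ K : ℝ, K = m + 3 + Ce + 9 * Ck + 2 * Ck ^ 2 + 9 * Cb + 5 * Cb ^ 2 + 18 * Cg + 729 * Cx := ⟨_, rfl⟩
  have hm0 : (0 : ℝ) ≤ m := Nat.cast_nonneg _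
  have sq1 : 0 ≤ Ck ^ 2 := sq_nonneg _
  have sq2 : 0 ≤ Cb ^ 2 := sq_nonneg _
  have hK1 : 1 ≤ K := by linarith
  have hKm : (m : ℝ) + 2 ≤ K := by linarith
  have hKe : Ce ≤ K := by linarith
  have hKk : 9 * Ck ≤ K := by linarith
  have hKb : 9 * Cb ≤ K := by linarith
  have hKg : 18 * Cg ≤ K := by linarith
  have hKx : 729 * Cx ≤ K := by linarith
  have hKψ : 9 * Cb + 2 * Ck ^ 2 + 1 + 5 * Cb ^ 2 ≤ K := by linarith
  clear hKdef sq1 sq2
  have hK10 : 1 ≤ K ^ 10 := one_le_pow₀ hK1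
  refine ⟨9000 * K ^ 10 + 100 * K ^ 2 + 729 * K, by
    have : 0 ≤ 100 * K ^ 2 := by positivity
    linarith, ?_⟩
  intro n d t A B x y z w heven hmd hn hA hB hAB vxy vzw vxz vyw hxw hyz
  obtain ⟨T, hTdef⟩ : ∃ T : ℝ, T = 1 + (t : ℝ) := ⟨_, rfl⟩
  have ht0 : (0 : ℝ) ≤ t := Nat.cast_nonneg _
  have hT : 1 ≤ T := by linarith
  have hT0 : 0 < T := by linarith
  have hK0 : 0 < K := by linarith
  have hd1 : (1 : ℝ) ≤ d := by
    have : (1 : ℕ) ≤ d := by omega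
    exact_mod_cast this
  have hd0 : (0 : ℝ) < d := by linarith
  have hT6 : 1 ≤ T ^ 6 := one_le_pow₀ hT
  have hTT2 : T ^ 2 ≤ T ^ 6 := pow_le_pow_right₀ hT (by norm_num)
  have hTT1 : T ≤ T ^ 6 := le_self_pow₀ hT (by norm_num)
  rw [← hTdef] at hn ⊢
  have hsum0 : 0 ≤ (d : ℝ) + T ^ 6 := by positivity
  have hn1 : 729 * K * (d + T ^ 6) ≤ n := by
    have g1 : 0 ≤ 9000 * K ^ 10 * (d + T ^ 6) := by positivity
    have g2 : 0 ≤ 100 * K ^ 2 * (d + T ^ 6) := by positivity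
    linarith
  have hn100 : 100 * K ^ 2 * (d + T ^ 6) ≤ n := by
    have g1 : 0 ≤ 9000 * K ^ 10 * (d + T ^ 6) := by positivity
    have g2 : 0 ≤ 729 * K * (d + T ^ 6) := by positivity
    linarith
  have hn2 : 729 * K * T ^ 6 ≤ n := by
    have : 0 ≤ 729 * K * (d : ℝ) := by positivity
    linarith
  have hn3 : 729 * K * d ≤ n := by
    have : 0 ≤ 729 * K * T ^ 6 := by positivity
    linarith
  have hn0 : (0 : ℝ) < n := lt_of_lt_of_le (by positivity) hn3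
  have hmt : ((m + (t + 2) : ℕ) : ℝ) ≤ K * T := by
    have h3 : ((m + (t + 2) : ℕ) : ℝ) ≤ (m + 2) * T := by
      have h5 : ((m : ℝ) + 2) * T = m + 2 + m * t + 2 * t := by rw [hTdef]; ring
      have h6 : 0 ≤ (m : ℝ) * t := mul_nonneg hm0 ht0
      rw [h5]
      push_cast
      linarith
    exact h3.trans (mul_le_mul_of_nonneg_right hKm hT0.le)
  have hmKT : (m : ℝ) ≤ K * T := by
    have h2 : K * 1 ≤ K * T := mul_le_mul_of_nonneg_left hT hK0.le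
    linarith
  have hCkKT : Ck * (1 + ((t + 2 : ℕ) : ℝ)) ≤ K * T := by
    have h2 : (1 + ((t + 2 : ℕ) : ℝ)) ≤ 3 * T := by push_cast; linarith
    calc Ck * (1 + ((t + 2 : ℕ) : ℝ)) ≤ Ck * (3 * T) := mul_le_mul_of_nonneg_left h2 (by linarith)
      _ = (3 * Ck) * T := by ring
      _ ≤ K * T := mul_le_mul_of_nonneg_right (by linarith) hT0.le
  -- the two pairs of insertions
  have T1 : PTwo d m t A B x y z w := pcj_two d m t A B x y z w vxy vzw vxz.ne hxw hyz vyw.ne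
  have T2 : PTwo d m t A B x z y w := pcj_two d m t A B x z y w vxz vyw vxy.ne hxw hyz.symm vzw.ne
  have c1 := pcj_cls d m t A B x y z w hA vxy vzw T1
  have c2 := pcj_cls d m t A B x z y w hA vxz vyw T2
  -- bounds for t + 2
  have ht2 : (1 + ((t + 2 : ℕ) : ℝ)) ≤ 3 * T := by push_cast; linarith
  have ht2' : (0 : ℝ) ≤ 1 + ((t + 2 : ℕ) : ℝ) := by positivity
  have ht6 : (1 + ((t + 2 : ℕ) : ℝ)) ^ 6 ≤ 729 * T ^ 6 := by
    calc _ ≤ (3 * T) ^ 6 := pow_le_pow_left₀ ht2' ht2 6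
      _ = 729 * T ^ 6 := by ring
  have ht22 : (1 + ((t + 2 : ℕ) : ℝ)) ^ 2 ≤ 9 * T ^ 2 := by
    calc _ ≤ (3 * T) ^ 2 := pow_le_pow_left₀ ht2' ht2 2
      _ = 9 * T ^ 2 := by ring
  have hbig : ∀ C : ℝ, 1 ≤ C → C ≤ K → C * ((d : ℝ) + (1 + ((t + 2 : ℕ) : ℝ)) ^ 6) ≤ n := by
    intro C hC hCK
    calc C * ((d : ℝ) + (1 + ((t + 2 : ℕ) : ℝ)) ^ 6) ≤ K * (729 * d + 729 * T ^ 6) := by
          apply mul_le_mul hCK _ (by positivity) (by linarith)
          linarith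
      _ = 729 * K * (d + T ^ 6) := by ring
      _ ≤ n := hn1
  have hD1 : Disjoint (insert s(z, w) (insert s(x, y) A)) B := by
    rw [Finset.disjoint_insert_left, Finset.disjoint_insert_left]
    exact ⟨vzw.nB, vxy.nB, hAB⟩
  have hD2 : Disjoint (insert s(y, w) (insert s(x, z) A)) B := by
    rw [Finset.disjoint_insert_left, Finset.disjoint_insert_left]
    exact ⟨vyw.nB, vxz.nB, hAB⟩
  have bigk := hbig Ck hCk (by linarith)
  have bigb := hbig Cb hCb (by linarith)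
  have bigg := hbig Cg hCg (by linarith)
  have bigx := hbig Cx hCx (by linarith)
  obtain ⟨kk1, kk2, kW0, kWC, -, -, kbt, kq, kE⟩ := hk n d (t + 2) _ B hmd bigk c1 hB hD1
  have kkEE := he n d (t + 2) _ hmd (hbig Ce hCe hKe) c1
  have bb1 := fun p q => hb n d (t + 2) _ B p q hmd bigb c1 hB hD1
  have bb2 := fun p q => hb n d (t + 2) _ B p q hmd bigb c2 hB hD2
  have gg1 := fun p q => hg n d (t + 2) _ B p q heven hmd bigg c1 hB hD1
  have gg2 := fun p q => hg n d (t + 2) _ B p q heven hmd bigg c2 hB hD2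
  have xx1 := fun p q => hx n d (t + 2) _ B p q heven hmd bigx c1 hB hD1
  have xx2 := fun p q => hx n d (t + 2) _ B p q heven hmd bigx c2 hB hD2
  -- degrees
  have dg1 := fun v => pcj_dg A x y z w v T1.ab T1.ce T1.h1 T1.h2
  have dg2 := fun v => pcj_dg A x z y w v T2.ab T2.ce T2.h1 T2.h2
  have rd1 := fun v => pcj_rd d A x y z w v T1.ab T1.ce T1.h1 T1.h2
  have hdgeq : ∀ v, dg (insert s(y, w) (insert s(x, z) A)) v = dg (insert s(z, w) (insert s(x, y) A)) v := by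
    intro v
    rw [dg1 v, dg2 v]
    have a1 := T1.ab
    have a2 := T1.ac
    have a3 := T1.ae
    have a4 := T1.bc
    have a5 := T1.be
    have a6 := T1.ce
    by_cases h1 : v = x
    · subst h1; simp [a1, a2, a3]
    · by_cases h2 : v = y
      · subst h2; simp [a1.symm, a4, a5]
      · by_cases h3 : v = z
        · subst h3; simp [a2.symm, a4.symm, a6]
        · by_cases h4 : v = w
          · subst h4; simp [a3.symm, a5.symm, a6.symm]
          · simp [h1, h2, h3, h4]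
  have hrdeq : ∀ v, rd d (insert s(y, w) (insert s(x, z) A)) v = rd d (insert s(z, w) (insert s(x, y) A)) v := by
    intro v
    unfold rd
    rw [hdgeq v]
  have hEE1 := pcj_EE2 d A x y z w T1.h1 T1.h2
  have hEE2 := pcj_EE2 d A x z y w T2.h1 T2.h2
  have hEEeq : EE d (insert s(y, w) (insert s(x, z) A)) = EE d (insert s(z, w) (insert s(x, y) A)) := by
    rw [hEE1, hEE2]
  have hD2eq : D2 d (insert s(y, w) (insert s(x, z) A)) = D2 d (insert s(z, w) (insert s(x, y) A)) := by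
    unfold D2
    exact Finset.sum_congr rfl (fun v _ => by rw [hrdeq v])
  have hQQ1 := pcj_QQ2 d m t A B x y z w hA.nd hB.nd T1
  have hQQ2 := pcj_QQ2 d m t A B x z y w hA.nd hB.nd T2
  have nxz : s(x, z) ∉ A ∪ B := by
    rw [Finset.mem_union]; push Not; exact ⟨vxz.nA, vxz.nB⟩
  have nxy : s(x, y) ∉ A ∪ B := by
    rw [Finset.mem_union]; push Not; exact ⟨vxy.nA, vxy.nB⟩
  have nyw : s(y, w) ∉ A ∪ B := by
    rw [Finset.mem_union]; push Not; exact ⟨vyw.nA, vyw.nB⟩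
  have nzw : s(z, w) ∉ A ∪ B := by
    rw [Finset.mem_union]; push Not; exact ⟨vzw.nA, vzw.nB⟩
  rw [Sym2.eq_swap (a := z) (b := x), if_neg nxz, Sym2.eq_swap (a := w) (b := y), if_neg nyw] at hQQ1
  rw [Sym2.eq_swap (a := y) (b := x), if_neg nxy, Sym2.eq_swap (a := w) (b := z), if_neg nzw,
    Sym2.eq_swap (a := y) (b := z)] at hQQ2
  -- values at the four vertices
  have rx : rd d (insert s(z, w) (insert s(x, y) A)) x = rd d A x - 1 := by
    rw [rd1 x]; simp [T1.ac, T1.ae]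
  have ry : rd d (insert s(z, w) (insert s(x, y) A)) y = rd d A y - 1 := by
    rw [rd1 y]; simp [T1.bc, T1.be]
  have rz : rd d (insert s(z, w) (insert s(x, y) A)) z = rd d A z - 1 := by
    rw [rd1 z]; simp [T1.ac.symm, T1.bc.symm]
  have rw' : rd d (insert s(z, w) (insert s(x, y) A)) w = rd d A w - 1 := by
    rw [rd1 w]; simp [T1.ae.symm, T1.be.symm]
  have hQQd : QQ d (insert s(z, w) (insert s(x, y) A)) B - QQ d (insert s(y, w) (insert s(x, z) A)) B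
      = 2 * ((rd d (insert s(z, w) (insert s(x, y) A)) x - rd d (insert s(z, w) (insert s(x, y) A)) w)
          * (rd d (insert s(z, w) (insert s(x, y) A)) y - rd d (insert s(z, w) (insert s(x, y) A)) z)) := by
    rw [hQQ1, hQQ2, rx, ry, rz, rw']
    ring
  -- EE
  have hm2 : (0 : ℝ) < m + 2 := by positivity
  have hE0 : 0 < EE d (insert s(z, w) (insert s(x, y) A)) := lt_of_lt_of_le (by positivity) kkEE
  have hEK : (n : ℝ) * d ≤ K * EE d (insert s(z, w) (insert s(x, y) A)) := by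
    rw [div_le_iff₀ hm2] at kkEE
    calc (n : ℝ) * d ≤ EE d (insert s(z, w) (insert s(x, y) A)) * (m + 2) := kkEE
      _ ≤ EE d (insert s(z, w) (insert s(x, y) A)) * K := mul_le_mul_of_nonneg_left hKm hE0.le
      _ = _ := by ring
  have hEn : |EE d (insert s(z, w) (insert s(x, y) A)) - n * d| ≤ K * n :=
    kE.trans (mul_le_mul_of_nonneg_right (by linarith) hn0.le)
  have hn9 : 9 * Cg * T ^ 2 ≤ (n : ℝ) := by
    calc 9 * Cg * T ^ 2 ≤ 729 * K * T ^ 6 := by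
          apply mul_le_mul (by linarith) hTT2 (by positivity) (by positivity)
      _ ≤ (n : ℝ) := hn2
  have convg : ∀ g : ℝ, (|g| ≤ Cg * (1 + ((t + 2 : ℕ) : ℝ)) ^ 2 / n) → |Real.exp g - 1| ≤ K * T ^ 2 / n := by
    intro g h2
    have h3 : Cg * (1 + ((t + 2 : ℕ) : ℝ)) ^ 2 ≤ 9 * Cg * T ^ 2 := by
      calc _ ≤ Cg * (9 * T ^ 2) := mul_le_mul_of_nonneg_left ht22 (by linarith)
        _ = _ := by ring
    exact pc_exp1 g Cg T K n hCg hT hn0 hn9 hKg (h2.trans (div_le_div_of_nonneg_right h3 hn0.le))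
  have convx : ∀ e : ℝ, |e| ≤ Cx * (1 + ((t + 2 : ℕ) : ℝ)) ^ 6 / ((n : ℝ) ^ 2 * d) →
      |e| ≤ K * T ^ 6 / ((n : ℝ) ^ 2 * d) := by
    intro e h
    refine h.trans (div_le_div_of_nonneg_right ?_ (by positivity))
    calc Cx * (1 + ((t + 2 : ℕ) : ℝ)) ^ 6 ≤ Cx * (729 * T ^ 6) := mul_le_mul_of_nonneg_left ht6 (by linarith)
      _ = (729 * Cx) * T ^ 6 := by ring
      _ ≤ K * T ^ 6 := mul_le_mul_of_nonneg_right hKx (by positivity)
  have convb : ∀ e : ℝ, |e| ≤ Cb * (1 + ((t + 2 : ℕ) : ℝ)) ^ 2 → |e| ≤ 9 * Cb * T ^ 2 := by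
    intro e h
    refine h.trans ?_
    calc Cb * (1 + ((t + 2 : ℕ) : ℝ)) ^ 2 ≤ Cb * (9 * T ^ 2) := mul_le_mul_of_nonneg_left ht22 (by linarith)
      _ = _ := by ring
  have convs : ∀ e : ℝ, |e| ≤ Cb * (1 + ((t + 2 : ℕ) : ℝ)) → |e| ≤ 3 * Cb * T := by
    intro e h
    refine h.trans ?_
    calc Cb * (1 + ((t + 2 : ℕ) : ℝ)) ≤ Cb * (3 * T) := mul_le_mul_of_nonneg_left ht2 (by linarith)
      _ = _ := by ring
  have hbT2 : 9 * Cb * T ^ 2 ≤ K * T ^ 2 := mul_le_mul_of_nonneg_right hKb (by positivity)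
  have hbT : 3 * Cb * T ≤ K * T := mul_le_mul_of_nonneg_right (by linarith) hT0.le
  -- the four pairs
  have ne1 : s(x, z) ∉ insert s(z, w) (insert s(x, y) A) := by
    rw [Finset.mem_insert, Finset.mem_insert]
    push Not
    refine ⟨?_, ?_, vxz.nA⟩
    · intro h
      rw [Sym2.eq_iff] at h
      rcases h with h | h
      · exact vxz.ne h.1
      · exact hxw h.1
    · intro h
      rw [Sym2.eq_iff] at h
      rcases h with h | h
      · exact hyz h.2.symm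
      · exact vxy.ne h.1
  have ne2 : s(y, w) ∉ insert s(z, w) (insert s(x, y) A) := by
    rw [Finset.mem_insert, Finset.mem_insert]
    push Not
    refine ⟨?_, ?_, vyw.nA⟩
    · intro h
      rw [Sym2.eq_iff] at h
      rcases h with h | h
      · exact hyz h.1
      · exact vyw.ne h.1
    · intro h
      rw [Sym2.eq_iff] at h
      rcases h with h | h
      · exact vyw.ne h.2.symm
      · exact hxw h.2.symm
  have ne3 : s(x, y) ∉ insert s(y, w) (insert s(x, z) A) := by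
    rw [Finset.mem_insert, Finset.mem_insert]
    push Not
    refine ⟨?_, ?_, vxy.nA⟩
    · intro h
      rw [Sym2.eq_iff] at h
      rcases h with h | h
      · exact vxy.ne h.1
      · exact hxw h.1
    · intro h
      rw [Sym2.eq_iff] at h
      rcases h with h | h
      · exact hyz h.2
      · exact vxz.ne h.1
  have ne4 : s(z, w) ∉ insert s(y, w) (insert s(x, z) A) := by
    rw [Finset.mem_insert, Finset.mem_insert]
    push Not
    refine ⟨?_, ?_, vzw.nA⟩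
    · intro h
      rw [Sym2.eq_iff] at h
      rcases h with h | h
      · exact hyz h.1.symm
      · exact vzw.ne h.1
    · intro h
      rw [Sym2.eq_iff] at h
      rcases h with h | h
      · exact vzw.ne h.2.symm
      · exact hxw h.2.symm
  obtain ⟨p1, q1⟩ := pc_pair d m (t + 2) _ B x z T K _ c1 vxz.ne ne1 vxz.nB hT0 hK0 hn0 hd0
    (fun v => ⟨convx _ (xx1 x z v), convg _ (gg1 x z v).2⟩)
  obtain ⟨p2, q2⟩ := pc_pair d m (t + 2) _ B y w T K _ c1 vyw.ne ne2 vyw.nB hT0 hK0 hn0 hd0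
    (fun v => ⟨convx _ (xx1 y w v), convg _ (gg1 y w v).2⟩)
  obtain ⟨p3, q3⟩ := pc_pair d m (t + 2) _ B x y T K _ c2 vxy.ne ne3 vxy.nB hT0 hK0 hn0 hd0
    (fun v => ⟨convx _ (xx2 x y v), convg _ (gg2 x y v).2⟩)
  obtain ⟨p4, q4⟩ := pc_pair d m (t + 2) _ B z w T K _ c2 vzw.ne ne4 vzw.nB hT0 hK0 hn0 hd0
    (fun v => ⟨convx _ (xx2 z w v), convg _ (gg2 z w v).2⟩)
  -- degrees in the union
  have hu1 : insert s(z, w) (insert s(x, y) A) ∪ B = insert s(z, w) (insert s(x, y) (A ∪ B)) := by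
    rw [Finset.insert_union, Finset.insert_union]
  have hu2 : insert s(y, w) (insert s(x, z) A) ∪ B = insert s(y, w) (insert s(x, z) (A ∪ B)) := by
    rw [Finset.insert_union, Finset.insert_union]
  have hu1' : s(z, w) ∉ insert s(x, y) (A ∪ B) := by
    rw [Finset.mem_insert]
    rintro (h | h)
    · exact T1.h2 (by rw [h]; exact Finset.mem_insert_self _ _)
    · exact nzw h
  have hu2' : s(y, w) ∉ insert s(x, z) (A ∪ B) := by
    rw [Finset.mem_insert]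
    rintro (h | h)
    · exact T2.h2 (by rw [h]; exact Finset.mem_insert_self _ _)
    · exact nyw h
  have hkeq : ∀ v, dg (insert s(y, w) (insert s(x, z) A) ∪ B) v = dg (insert s(z, w) (insert s(x, y) A) ∪ B) v := by
    intro v
    rw [hu1, hu2, pcj_dg (A ∪ B) x y z w v T1.ab T1.ce nxy hu1', pcj_dg (A ∪ B) x z y w v T2.ab T2.ce nxz hu2']
    have e1 := dg1 v
    have e2 := dg2 v
    have e3 := hdgeq v
    omega
  have hW0eq : W0 (insert s(y, w) (insert s(x, z) A) ∪ B) = W0 (insert s(z, w) (insert s(x, y) A) ∪ B) := by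
    unfold W0
    exact Finset.sum_congr rfl (fun v _ => by rw [hkeq v])
  have hW1eq : W1 (insert s(y, w) (insert s(x, z) A) ∪ B) = W1 (insert s(z, w) (insert s(x, y) A) ∪ B) := by
    unfold W1
    exact Finset.sum_congr rfl (fun v _ => by rw [hkeq v])
  -- sums over neighbours
  have hTTs : TT d (insert s(z, w) (insert s(x, y) A)) B x + TT d (insert s(z, w) (insert s(x, y) A)) B z
      + TT d (insert s(z, w) (insert s(x, y) A)) B y + TT d (insert s(z, w) (insert s(x, y) A)) B w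
      = TT d (insert s(y, w) (insert s(x, z) A)) B x + TT d (insert s(y, w) (insert s(x, z) A)) B y
      + TT d (insert s(y, w) (insert s(x, z) A)) B z + TT d (insert s(y, w) (insert s(x, z) A)) B w := by
    have h := pc_nbr_four (A ∪ B) x y z w vxy.ne vxz.ne hxw hyz vyw.ne vzw.ne nxy hu1' nxz hu2'
      (fun v => rd d (insert s(z, w) (insert s(x, y) A)) v)
    unfold TT
    simp only [hrdeq]
    rw [hu1, hu2]
    exact h
  have hNS : ∀ c : ℝ,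
      ∑ v ∈ nbr (insert s(z, w) (insert s(x, y) A) ∪ B) x, ((dg (insert s(z, w) (insert s(x, y) A) ∪ B) v : ℝ) - c)
      + ∑ v ∈ nbr (insert s(z, w) (insert s(x, y) A) ∪ B) z, ((dg (insert s(z, w) (insert s(x, y) A) ∪ B) v : ℝ) - c)
      + ∑ v ∈ nbr (insert s(z, w) (insert s(x, y) A) ∪ B) y, ((dg (insert s(z, w) (insert s(x, y) A) ∪ B) v : ℝ) - c)
      + ∑ v ∈ nbr (insert s(z, w) (insert s(x, y) A) ∪ B) w, ((dg (insert s(z, w) (insert s(x, y) A) ∪ B) v : ℝ) - c)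
      = ∑ v ∈ nbr (insert s(y, w) (insert s(x, z) A) ∪ B) x, ((dg (insert s(z, w) (insert s(x, y) A) ∪ B) v : ℝ) - c)
      + ∑ v ∈ nbr (insert s(y, w) (insert s(x, z) A) ∪ B) y, ((dg (insert s(z, w) (insert s(x, y) A) ∪ B) v : ℝ) - c)
      + ∑ v ∈ nbr (insert s(y, w) (insert s(x, z) A) ∪ B) z, ((dg (insert s(z, w) (insert s(x, y) A) ∪ B) v : ℝ) - c)
      + ∑ v ∈ nbr (insert s(y, w) (insert s(x, z) A) ∪ B) w, ((dg (insert s(z, w) (insert s(x, y) A) ∪ B) v : ℝ) - c) := by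
    intro c
    have h := pc_nbr_four (A ∪ B) x y z w vxy.ne vxz.ne hxw hyz vyw.ne vzw.ne nxy hu1' nxz hu2'
      (fun v => (dg (insert s(z, w) (insert s(x, y) A) ∪ B) v : ℝ) - c)
    rw [← hu1, ← hu2] at h
    exact h
  have hrdd : ∀ v, rd d (insert s(z, w) (insert s(x, y) A)) v = d - dg (insert s(z, w) (insert s(x, y) A)) v :=
    fun v => rfl
  -- sum of the second order terms
  have hS : bet d (insert s(z, w) (insert s(x, y) A)) B x z + bet d (insert s(z, w) (insert s(x, y) A)) B y w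
      - bet d (insert s(y, w) (insert s(x, z) A)) B x y - bet d (insert s(y, w) (insert s(x, z) A)) B z w
      = ((dg (insert s(z, w) (insert s(x, y) A)) x : ℝ) - dg (insert s(z, w) (insert s(x, y) A)) w)
        * ((dg (insert s(z, w) (insert s(x, y) A)) y : ℝ) - dg (insert s(z, w) (insert s(x, y) A)) z)
        * (1 - 4 / EE d (insert s(z, w) (insert s(x, y) A))) := by
    unfold bet
    rw [hD2eq, hEEeq, hrdeq x, hrdeq y, hrdeq z, hrdeq w]
    rw [hrdd x, hrdd y, hrdd z, hrdd w] at hQQd ⊢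
    have e1 : QQ d (insert s(y, w) (insert s(x, z) A)) B = QQ d (insert s(z, w) (insert s(x, y) A)) B
        - 2 * (((d : ℝ) - dg (insert s(z, w) (insert s(x, y) A)) x - (d - dg (insert s(z, w) (insert s(x, y) A)) w))
          * ((d : ℝ) - dg (insert s(z, w) (insert s(x, y) A)) y - (d - dg (insert s(z, w) (insert s(x, y) A)) z))) := by
      linarith
    rw [e1]
    linear_combination hTTs
  -- the third order terms
  have hΨ : (gam (insert s(z, w) (insert s(x, y) A) ∪ B) x z - bt B x * bt B z / (1 - (d : ℝ) / n) - 1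
        + sg (insert s(z, w) (insert s(x, y) A) ∪ B) x z ^ 2 / 2)
      + (gam (insert s(z, w) (insert s(x, y) A) ∪ B) y w - bt B y * bt B w / (1 - (d : ℝ) / n) - 1
        + sg (insert s(z, w) (insert s(x, y) A) ∪ B) y w ^ 2 / 2)
      - (gam (insert s(y, w) (insert s(x, z) A) ∪ B) x y - bt B x * bt B y / (1 - (d : ℝ) / n) - 1
        + sg (insert s(y, w) (insert s(x, z) A) ∪ B) x y ^ 2 / 2)
      - (gam (insert s(y, w) (insert s(x, z) A) ∪ B) z w - bt B z * bt B w / (1 - (d : ℝ) / n) - 1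
        + sg (insert s(y, w) (insert s(x, z) A) ∪ B) z w ^ 2 / 2)
      = -2 * (((dg (insert s(z, w) (insert s(x, y) A) ∪ B) x : ℝ) - dg (insert s(z, w) (insert s(x, y) A) ∪ B) w)
          * ((dg (insert s(z, w) (insert s(x, y) A) ∪ B) y : ℝ) - dg (insert s(z, w) (insert s(x, y) A) ∪ B) z))
        + ((dg B x : ℝ) - dg B w) * ((dg B y : ℝ) - dg B z) / (1 - (d : ℝ) / n) := by
    unfold gam sg bt
    simp only [hkeq]
    rw [hW0eq, hW1eq]
    have h := hNS (W0 (insert s(z, w) (insert s(x, y) A) ∪ B) / n)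
    linear_combination h
  have hGam := Gam_four d A B x y z w hA.nd hB.nd vxy.ne vxz.ne hxw hyz vyw.ne vzw.ne vxy.nA vzw.nA vxz.nA vyw.nA
    vxy.nB vzw.nB vxz.nB vyw.nB
  have hkdiff : ∀ p q : Fin n, (p = x ∨ p = y ∨ p = z ∨ p = w) → (q = x ∨ q = y ∨ q = z ∨ q = w) →
      (dg (A ∪ B) p : ℝ) - dg (A ∪ B) q = (dg (insert s(z, w) (insert s(x, y) A) ∪ B) p : ℝ)
        - dg (insert s(z, w) (insert s(x, y) A) ∪ B) q := by
    have key : ∀ p : Fin n, (p = x ∨ p = y ∨ p = z ∨ p = w) →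
        dg (insert s(z, w) (insert s(x, y) A) ∪ B) p = dg (A ∪ B) p + 1 := by
      intro p hp
      rw [hu1, pcj_dg (A ∪ B) x y z w p T1.ab T1.ce nxy hu1']
      have a1 := T1.ab
      have a2 := T1.ac
      have a3 := T1.ae
      have a4 := T1.bc
      have a5 := T1.be
      have a6 := T1.ce
      rcases hp with rfl | rfl | rfl | rfl
      · simp [a2, a3]
      · simp [a4, a5]
      · simp [a2.symm, a4.symm]
      · simp [a3.symm, a5.symm]
    intro p q hp hq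
    rw [key p hp, key q hq]
    push_cast
    ring
  rw [hkdiff x w (by simp) (by simp), hkdiff y z (by simp) (by simp)] at hGam
  -- the leading terms
  have hell : ellp d (insert s(z, w) (insert s(x, y) A)) B - ellp d (insert s(y, w) (insert s(x, z) A)) B
      = -(((dg (insert s(z, w) (insert s(x, y) A)) x : ℝ) - dg (insert s(z, w) (insert s(x, y) A)) w)
          * ((dg (insert s(z, w) (insert s(x, y) A)) y : ℝ) - dg (insert s(z, w) (insert s(x, y) A)) z)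
          / EE d (insert s(z, w) (insert s(x, y) A)))
        + (((dg (insert s(z, w) (insert s(x, y) A) ∪ B) x : ℝ) - dg (insert s(z, w) (insert s(x, y) A) ∪ B) w)
          * ((dg (insert s(z, w) (insert s(x, y) A) ∪ B) y : ℝ) - dg (insert s(z, w) (insert s(x, y) A) ∪ B) z)
          - ((dg B x : ℝ) - dg B w) * ((dg B y : ℝ) - dg B z) / (1 - (d : ℝ) / n)) / (n : ℝ) ^ 2 := by
    have hcard : (insert s(y, w) (insert s(x, z) A)).card = (insert s(z, w) (insert s(x, y) A)).card := by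
      rw [pcj_card A x y z w T1.h1 T1.h2, pcj_card A x z y w T2.h1 T2.h2]
    have hfac : ∑ v, Real.log ((d - dg (insert s(y, w) (insert s(x, z) A)) v).factorial)
        = ∑ v, Real.log ((d - dg (insert s(z, w) (insert s(x, y) A)) v).factorial) :=
      Finset.sum_congr rfl (fun v _ => by rw [hdgeq v])
    rw [← hGam]
    unfold ellp ell
    rw [hcard, hfac, hD2eq, hEEeq]
    have e : ((dg (insert s(z, w) (insert s(x, y) A)) x : ℝ) - dg (insert s(z, w) (insert s(x, y) A)) w)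
          * ((dg (insert s(z, w) (insert s(x, y) A)) y : ℝ) - dg (insert s(z, w) (insert s(x, y) A)) z)
        = (QQ d (insert s(z, w) (insert s(x, y) A)) B - QQ d (insert s(y, w) (insert s(x, z) A)) B) / 2 := by
      rw [hQQd, hrdd x, hrdd y, hrdd z, hrdd w]; ring
    rw [e]
    field_simp
    ring
  -- bounds for the individual numbers
  have bt1 := fun v => kbt v
  have ψ1 := pc_psi _ _ _ _ _ Ck Cb T K hT hCk hCb (convb _ (bb1 x z).2.2) (convs _ (bb1 x z).2.1) (kbt x) (kbt z) kq hKψ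
  have ψ2 := pc_psi _ _ _ _ _ Ck Cb T K hT hCk hCb (convb _ (bb1 y w).2.2) (convs _ (bb1 y w).2.1) (kbt y) (kbt w) kq hKψ
  have ψ3 := pc_psi _ _ _ _ _ Ck Cb T K hT hCk hCb (convb _ (bb2 x y).2.2) (convs _ (bb2 x y).2.1) (kbt x) (kbt y) kq hKψ
  have ψ4 := pc_psi _ _ _ _ _ Ck Cb T K hT hCk hCb (convb _ (bb2 z w).2.2) (convs _ (bb2 z w).2.1) (kbt z) (kbt w) kq hKψ
  have be1 := (convb _ (bb1 x z).1).trans hbT2
  have be2 := (convb _ (bb1 y w).1).trans hbT2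
  have be3 := (convb _ (bb2 x y).1).trans hbT2
  have be4 := (convb _ (bb2 z w).1).trans hbT2
  have sg1 := (convs _ (bb1 x z).2.1).trans hbT
  have sg2 := (convs _ (bb1 y w).2.1).trans hbT
  have sg3 := (convs _ (bb2 x y).2.1).trans hbT
  have sg4 := (convs _ (bb2 z w).2.1).trans hbT
  have usg1 : sg (insert s(z, w) (insert s(x, y) A) ∪ B) x z
    = 1 + (dg (insert s(z, w) (insert s(x, y) A) ∪ B) x : ℝ) + dg (insert s(z, w) (insert s(x, y) A) ∪ B) z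
      - W0 (insert s(z, w) (insert s(x, y) A) ∪ B) / n := rfl
  have usg2 : sg (insert s(z, w) (insert s(x, y) A) ∪ B) y w
    = 1 + (dg (insert s(z, w) (insert s(x, y) A) ∪ B) y : ℝ) + dg (insert s(z, w) (insert s(x, y) A) ∪ B) w
      - W0 (insert s(z, w) (insert s(x, y) A) ∪ B) / n := rfl
  have usg3 : sg (insert s(y, w) (insert s(x, z) A) ∪ B) x y
    = 1 + (dg (insert s(z, w) (insert s(x, y) A) ∪ B) x : ℝ) + dg (insert s(z, w) (insert s(x, y) A) ∪ B) y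
      - W0 (insert s(z, w) (insert s(x, y) A) ∪ B) / n := by
    unfold sg
    rw [hkeq x, hkeq y, hW0eq]
  have usg4 : sg (insert s(y, w) (insert s(x, z) A) ∪ B) z w
    = 1 + (dg (insert s(z, w) (insert s(x, y) A) ∪ B) z : ℝ) + dg (insert s(z, w) (insert s(x, y) A) ∪ B) w
      - W0 (insert s(z, w) (insert s(x, y) A) ∪ B) / n := by
    unfold sg
    rw [hkeq z, hkeq w, hW0eq]
  rw [usg1] at be1 sg1
  rw [usg2] at be2 sg2
  rw [usg3] at be3 sg3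
  rw [usg4] at be4 sg4
  have hrb : ∀ v, (dg (insert s(z, w) (insert s(x, y) A)) v : ℝ) ≤ K * T := by
    intro v
    have h1 : ((dg (insert s(z, w) (insert s(x, y) A)) v : ℕ) : ℝ) ≤ ((m + (t + 2) : ℕ) : ℝ) :=
      Nat.cast_le.2 (c1.lem v)
    exact h1.trans hmt
  have hrd' : ∀ v, (dg (insert s(z, w) (insert s(x, y) A)) v : ℝ) ≤ d := fun v => by exact_mod_cast c1.led v
  have hr0 : ∀ v, (0 : ℝ) ≤ (dg (insert s(z, w) (insert s(x, y) A)) v : ℝ) := fun v => Nat.cast_nonneg _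
  have hb0 : ∀ v, (0 : ℝ) ≤ (dg B v : ℝ) := fun v => Nat.cast_nonneg _
  have hbb : ∀ v, (dg B v : ℝ) ≤ K * T := by
    intro v
    have h1 : ((dg B v : ℕ) : ℝ) ≤ m := Nat.cast_le.2 (hB.lem v)
    exact h1.trans hmKT
  have hkb : ∀ v, (dg (insert s(z, w) (insert s(x, y) A) ∪ B) v : ℝ) ≤ K * T := by
    intro v
    refine (kk2 v).trans ?_
    exact hCkKT
  rw [hEEeq, hrdeq x, hrdeq y] at p3
  rw [hrdeq x, hrdeq y] at q3
  rw [hEEeq, hrdeq z, hrdeq w] at p4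
  rw [hrdeq z, hrdeq w] at q4
  rw [hrdd x, hrdd z] at p1 q1
  rw [hrdd y, hrdd w] at p2 q2
  rw [hrdd x, hrdd y] at p3 q3
  rw [hrdd z, hrdd w] at p4 q4
  have fe1 : fL (ellp d) d (insert s(z, w) (insert s(x, y) A)) B x z
      = ((d : ℝ) - dg (insert s(z, w) (insert s(x, y) A)) x) * (d - dg (insert s(z, w) (insert s(x, y) A)) z)
        / EE d (insert s(z, w) (insert s(x, y) A))
        * Real.exp (gL (ellp d) d (insert s(z, w) (insert s(x, y) A)) B x z) := rfl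
  have fe2 : fL (ellp d) d (insert s(z, w) (insert s(x, y) A)) B y w
      = ((d : ℝ) - dg (insert s(z, w) (insert s(x, y) A)) y) * (d - dg (insert s(z, w) (insert s(x, y) A)) w)
        / EE d (insert s(z, w) (insert s(x, y) A))
        * Real.exp (gL (ellp d) d (insert s(z, w) (insert s(x, y) A)) B y w) := rfl
  have fe3 : fL (ellp d) d (insert s(y, w) (insert s(x, z) A)) B x y
      = ((d : ℝ) - dg (insert s(z, w) (insert s(x, y) A)) x) * (d - dg (insert s(z, w) (insert s(x, y) A)) y)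
        / EE d (insert s(z, w) (insert s(x, y) A))
        * Real.exp (gL (ellp d) d (insert s(y, w) (insert s(x, z) A)) B x y) := by
    unfold fL
    rw [hEEeq, hrdeq x, hrdeq y]
    rfl
  have fe4 : fL (ellp d) d (insert s(y, w) (insert s(x, z) A)) B z w
      = ((d : ℝ) - dg (insert s(z, w) (insert s(x, y) A)) z) * (d - dg (insert s(z, w) (insert s(x, y) A)) w)
        / EE d (insert s(z, w) (insert s(x, y) A))
        * Real.exp (gL (ellp d) d (insert s(y, w) (insert s(x, z) A)) B z w) := by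
    unfold fL
    rw [hEEeq, hrdeq z, hrdeq w]
    rfl
  have fin := pc_assemble n d T K (EE d (insert s(z, w) (insert s(x, y) A)))
    (dg (insert s(z, w) (insert s(x, y) A)) x) (dg (insert s(z, w) (insert s(x, y) A)) y)
    (dg (insert s(z, w) (insert s(x, y) A)) z) (dg (insert s(z, w) (insert s(x, y) A)) w)
    (dg B x) (dg B y) (dg B z) (dg B w)
    (dg (insert s(z, w) (insert s(x, y) A) ∪ B) x) (dg (insert s(z, w) (insert s(x, y) A) ∪ B) y)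
    (dg (insert s(z, w) (insert s(x, y) A) ∪ B) z) (dg (insert s(z, w) (insert s(x, y) A) ∪ B) w)
    (W0 (insert s(z, w) (insert s(x, y) A) ∪ B) / n) _ _ _ _ _ _ _ _ _ _ _ _ _ _ _ _ _ _
    hT hd1 hK1 hn0 hn100 hE0 hEK hEn (hr0 x) (hrb x) (hr0 y) (hrb y) (hr0 z) (hrb z) (hr0 w) (hrb w)
    (hrd' x) (hrd' y) (hrd' z) (hrd' w) (hb0 x) (hbb x) (hb0 y) (hbb y) (hb0 z) (hbb z) (hb0 w) (hbb w)
    (kk1 x) (kk1 y) (kk1 z) (kk1 w) (hkb x) (hkb y) (hkb z) (hkb w)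
    be1 sg1 be2 sg2 be3 sg3 be4 sg4 hS ψ1 ψ2 ψ3 ψ4 hΨ p1 p2 p3 p4 q1 q2 q3 q4 fe1 fe2 fe3 fe4 hell
  refine fin.trans ?_
  apply mul_le_mul_of_nonneg_right _ (by positivity)
  apply mul_le_mul_of_nonneg_right _ (by positivity)
  have : 0 ≤ 100 * K ^ 2 + 729 * K := by positivity
  linarith

end MPC

export MPC (pc_algebra ellp_four)

end Pool.Agent.H698NC
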