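import Pool.Agent.H698NC.PB
import Pool.Agent.H698NC.PC
import Pool.Agent.H698NC.K5

set_option autoImplicit false

namespace Pool.Agent.H698NC

open Finset

namespace MPD

variable {n : ℕ}

theorem nbr_mono' {A A' : Finset (Sym2 (Fin n))} (h : A ⊆ A') (v : Fin n) : nbr A v ⊆ nbr A' v := by
  intro w hw
  simp only [nbr, mem_filter, mem_univ, true_and] at hw ⊢
  exact h hw

theorem dg_mono' {A A' : Finset (Sym2 (Fin n))} (h : A ⊆ A') (v : Fin n) : dg A v ≤ dg A' v :=
  Finset.card_le_card (nbr_mono' h v)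

theorem Cls.subset' {d m t : ℕ} {A A' : Finset (Sym2 (Fin n))} (hA : Cls d m t A') (h : A ⊆ A') :
    Cls d m t A :=
  ⟨fun e he => hA.nd e (h he), fun v => (dg_mono' h v).trans (hA.led v),
    fun v => (dg_mono' h v).trans (hA.lem v),
    (Nat.mul_le_mul_left 2 (Finset.card_le_card h)).trans hA.card⟩

/-- TARGET 1 -/
theorem structure_ellp (m : ℕ) : ∃ C : ℝ, 1 ≤ C ∧ ∀ (n d : ℕ), Even (n * d) → m + 1 ≤ d → C * d ≤ n →
    PosAll n d m 0 ∧ PD (n := n) (ellp d) d m 0 (C * (1 / ((n : ℝ) ^ 2 * d))) := by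
  obtain ⟨C1, hC1, h1⟩ := ggp m
  obtain ⟨C2, hC2, h2⟩ := ggp_sum m
  obtain ⟨C3, hC3, h3⟩ := ellp_four m
  set C0 : ℝ := max C1 (max C2 C3) with hC0
  have h01 : C1 ≤ C0 := le_max_left _ _
  have h02 : C2 ≤ C0 := (le_max_left _ _).trans (le_max_right _ _)
  have h03 : C3 ≤ C0 := (le_max_right _ _).trans (le_max_right _ _)
  obtain ⟨C, hC, hg⟩ := generic m C0 (hC1.trans h01)
  refine ⟨C, hC, ?_⟩
  intro n d he hm hCd
  have hd1 : (1 : ℝ) ≤ d := by
    have : 1 ≤ d := by omega
    exact_mod_cast this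
  have hdn : (d : ℝ) ≤ n := by nlinarith
  have hn1 : (1 : ℝ) ≤ n := hd1.trans hdn
  have hτ0 : 0 ≤ 1 / ((n : ℝ) ^ 2 * d) := by positivity
  refine hg n d (ellp d) (1 / ((n : ℝ) ^ 2 * d)) he hm hCd ?_ ?_ ?_
  · apply one_div_le_one_div_of_le (by positivity)
    have h4 : (n : ℝ) ^ 4 = (n : ℝ) ^ 2 * (n : ℝ) ^ 2 := by ring
    rw [h4]
    refine mul_le_mul_of_nonneg_left ?_ (by positivity)
    nlinarith
  · apply one_div_le_one_div_of_le (by positivity)
    nlinarith [sq_nonneg (n : ℝ)]
  · intro t ht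
    have hP : (0 : ℝ) ≤ (d : ℝ) + (1 + t) ^ 6 := by positivity
    refine ⟨?_, ?_, ?_⟩
    · intro A B x y hA hB hD hV
      have h := (h1 n d t A B x y he hm ((mul_le_mul_of_nonneg_right h01 hP).trans ht) hA hB hD hV).2
      refine h.trans ?_
      exact div_le_div_of_nonneg_right (mul_le_mul_of_nonneg_right h01 (by positivity)) (by positivity)
    · intro A B x hA hB hD hx
      have h := h2 n d t A B x he hm ((mul_le_mul_of_nonneg_right h02 hP).trans ht) hA hB hD hx
      refine h.trans ?_
      have hE : 0 ≤ EE d A := by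
        by_contra hneg
        push Not at hneg
        have h7 := (abs_nonneg _).trans h
        have h8 : EE d A * (C2 * (1 + (t : ℝ)) ^ 6 * (1 / ((n : ℝ) ^ 2 * d))) < 0 := by
          apply mul_neg_of_neg_of_pos hneg
          have : 0 < C2 := by linarith
          positivity
        linarith
      refine mul_le_mul_of_nonneg_left ?_ hE
      refine mul_le_mul_of_nonneg_right ?_ hτ0
      exact mul_le_mul_of_nonneg_right h02 (by positivity)
    · intro A B x y z w hA hB hD hv1 hv2 hv3 hv4 hxw hyz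
      have h := h3 n d t A B x y z w he hm ((mul_le_mul_of_nonneg_right h03 hP).trans ht) hA hB hD
        hv1 hv2 hv3 hv4 hxw hyz
      refine h.trans ?_
      refine mul_le_mul_of_nonneg_right ?_ hτ0
      exact mul_le_mul_of_nonneg_right h03 (by positivity)

/-- TARGET 2 -/
theorem structure_sump (m : ℕ) : ∃ C : ℝ, 1 ≤ C ∧ ∀ (n d : ℕ) (A B : Finset (Sym2 (Fin n))), Even (n * d) → m + 1 ≤ d →
    C * d ≤ n → Cls d m 0 A → BCls m B → Disjoint A B →
    0 < cnt d A B ∧ 0 < cnt d ∅ B ∧
      |Real.log (cnt d A B) - Real.log (cnt d ∅ B) - (ellp d A B - ellp d ∅ B)| ≤ C / (n * d) := by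
  obtain ⟨C, hC, hs⟩ := structure_ellp m
  have hm1 : (1 : ℝ) ≤ (m : ℝ) + 1 := by
    have : (0 : ℝ) ≤ m := Nat.cast_nonneg m
    linarith
  refine ⟨C * (m + 1), by nlinarith, ?_⟩
  intro n d A B he hm hCd hA hB hD
  have hd1 : (1 : ℝ) ≤ d := by
    have : 1 ≤ d := by omega
    exact_mod_cast this
  have hCd' : C * d ≤ n := by
    refine le_trans ?_ hCd
    have : 0 ≤ C * d := by positivity
    nlinarith
  have hn1 : (1 : ℝ) ≤ n := by nlinarith
  obtain ⟨hpos, hpd⟩ := hs n d he hm hCd'
  have hE0 : Cls d m 0 (∅ : Finset (Sym2 (Fin n))) := Cls.subset' hA (Finset.empty_subset A)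
  refine ⟨hpos A B hA hB hD, hpos ∅ B hE0 hB (Finset.disjoint_empty_left B), ?_⟩
  set δ : ℝ := C * (1 / ((n : ℝ) ^ 2 * d)) with hδ
  have key : ∀ A' : Finset (Sym2 (Fin n)), A' ⊆ A →
      |Real.log (cnt d A' B) - Real.log (cnt d ∅ B) - (ellp d A' B - ellp d ∅ B)| ≤
        A'.card * δ := by
    intro A'
    induction A' using Finset.induction_on with
    | empty => intro _; simp
    | insert e A'' he' ih =>
      intro hsub
      have hsub' : A'' ⊆ A := (Finset.subset_insert e A'').trans hsub
      have ih' := ih hsub'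
      have heA : e ∈ A := hsub (Finset.mem_insert_self e A'')
      induction e using Sym2.ind with
      | _ x y =>
      have hxy : x ≠ y := by
        have := hA.nd _ heA
        simpa using this
      have hle : ∀ v, dg (insert s(x, y) A'') v ≤ d := (Cls.subset' hA hsub).led
      have hV : Val d A'' B x y := by
        refine ⟨hxy, he', Finset.disjoint_left.1 hD heA, ?_, ?_⟩
        · have h1 := hle x
          rw [dg_insert A'' x y x hxy he'] at h1
          simp at h1
          omega
        · have h1 := hle y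
          rw [dg_insert A'' x y y hxy he'] at h1
          simp at h1
          omega
      have h2 := hpd A'' B x y (Cls.subset' hA hsub') hB (Finset.disjoint_of_subset_left hsub' hD) hV
      rw [Finset.card_insert_of_notMem he']
      unfold DL at h2
      push_cast
      have h3 := abs_add_le (Real.log (cnt d A'' B) - Real.log (cnt d ∅ B) - (ellp d A'' B - ellp d ∅ B))
        (Real.log (cnt d (insert s(x, y) A'') B) - Real.log (cnt d A'' B)
          - (ellp d (insert s(x, y) A'') B - ellp d A'' B))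
      have h4 : Real.log (cnt d (insert s(x, y) A'') B) - Real.log (cnt d ∅ B)
          - (ellp d (insert s(x, y) A'') B - ellp d ∅ B) =
          (Real.log (cnt d A'' B) - Real.log (cnt d ∅ B) - (ellp d A'' B - ellp d ∅ B)) +
        (Real.log (cnt d (insert s(x, y) A'') B) - Real.log (cnt d A'' B)
          - (ellp d (insert s(x, y) A'') B - ellp d A'' B)) := by ring
      rw [h4]
      linarith
  have h5 := key A (Finset.Subset.refl A)
  refine h5.trans ?_
  have hcard : (A.card : ℝ) ≤ m * n := by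
    have := hA.card
    have h6 : A.card ≤ m * n := by omega
    exact_mod_cast h6
  have hδ0 : 0 ≤ δ := by positivity
  calc (A.card : ℝ) * δ ≤ (m * n) * δ := mul_le_mul_of_nonneg_right hcard hδ0
    _ = C * m / (n * d) := by
        rw [hδ]
        field_simp
    _ ≤ C * (m + 1) / (n * d) := by
        refine div_le_div_of_nonneg_right ?_ (by positivity)
        nlinarith

end MPD

export MPD (structure_ellp structure_sump)

end Pool.Agent.H698NC
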