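import Pool.Agent.H698NC.DefsE

set_option autoImplicit false

namespace Pool.Agent.H698NC

open Finset

namespace MQ1



/-- the `i`-th term, divided by the leading one -/
noncomputable def tt (k i : ℕ) : ℝ :=
  ((k.choose i : ℝ) * ((2 * (k - i) - 1).doubleFactorial : ℝ)) / ((2 * k - 1).doubleFactorial : ℝ)

/-- the normalised product -/
noncomputable def PP (k i : ℕ) : ℝ := tt k i * (2 ^ i * (i.factorial : ℝ))

lemma df_pos (n : ℕ) : (0 : ℝ) < (n.doubleFactorial : ℝ) := by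
  exact_mod_cast Nat.doubleFactorial_pos n

lemma PP_zero (k : ℕ) : PP k 0 = 1 := by
  have h := df_pos (2 * k - 1)
  simp [PP, tt, h.ne']

lemma PP_succ {k i : ℕ} (h : i < k) :
    PP k (i + 1) = PP k i * (1 + 1 / (2 * ((k : ℝ) - i) - 1)) := by
  obtain ⟨d, rfl⟩ := Nat.exists_eq_add_of_lt h
  have h1 : (2 * (i + d + 1 - i) - 1).doubleFactorial
      = (2 * d + 1) * (2 * (i + d + 1 - (i + 1)) - 1).doubleFactorial := by
    have e1 : 2 * (i + d + 1 - i) - 1 = 2 * d + 1 := by omega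
    have e2 : 2 * (i + d + 1 - (i + 1)) - 1 = 2 * d - 1 := by omega
    rw [e1, e2, Nat.doubleFactorial_add_one]
  have h2 : (i + d + 1).choose (i + 1) * (i + 1) = (i + d + 1).choose i * (d + 1) := by
    rw [Nat.choose_succ_right_eq]
    congr 1
    omega
  have h2' : ((i + d + 1).choose (i + 1) : ℝ) * (i + 1) = ((i + d + 1).choose i : ℝ) * (d + 1) := by
    exact_mod_cast h2
  have h3 := df_pos (2 * (i + d + 1) - 1)
  have h4 : (0 : ℝ) < 2 * d + 1 := by positivity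
  have h5 : (2 * (((i + d + 1 : ℕ) : ℝ) - i) - 1) = 2 * d + 1 := by
    push_cast; ring
  rw [h5]
  unfold PP tt
  rw [h1, Nat.factorial_succ]
  push_cast
  field_simp
  linear_combination (2 : ℝ) ^ (i + 1) * h2'

lemma key_den {k i : ℕ} (h : i < k) : 1 / (2 * ((k : ℝ) - i) - 1) ≤ ((i : ℝ) + 1) / k := by
  obtain ⟨d, rfl⟩ := Nat.exists_eq_add_of_lt h
  have h5 : (2 * (((i + d + 1 : ℕ) : ℝ) - i) - 1) = 2 * d + 1 := by
    push_cast; ring
  rw [h5, div_le_div_iff₀ (by positivity) (by positivity)]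
  push_cast
  have : (0 : ℝ) ≤ (i : ℝ) * d := by positivity
  have : (0 : ℝ) ≤ (d : ℝ) := by positivity
  nlinarith

lemma den_pos {k i : ℕ} (h : i < k) : 1 ≤ (2 * ((k : ℝ) - i) - 1) := by
  have : (i : ℝ) + 1 ≤ k := by exact_mod_cast h
  linarith

lemma PP_ge_one {k i : ℕ} (h : i ≤ k) : 1 ≤ PP k i := by
  induction i with
  | zero => rw [PP_zero]
  | succ i ih =>
    have h1 := ih (by omega)
    have h2 := den_pos (show i < k by omega)
    rw [PP_succ (by omega)]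
    have h3 : 0 ≤ 1 / (2 * ((k : ℝ) - i) - 1) := by positivity
    nlinarith

lemma PP_le_pow {k i : ℕ} (h : i ≤ k) : PP k i ≤ 2 ^ i := by
  induction i with
  | zero => rw [PP_zero]; simp
  | succ i ih =>
    have h1 := ih (by omega)
    have h0 := PP_ge_one (show i ≤ k by omega)
    have h2 := den_pos (show i < k by omega)
    rw [PP_succ (by omega), pow_succ]
    have h3 : 1 / (2 * ((k : ℝ) - i) - 1) ≤ 1 := by
      rw [div_le_one (by linarith)]; exact h2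
    have h4 : 0 ≤ 1 / (2 * ((k : ℝ) - i) - 1) := by positivity
    exact mul_le_mul h1 (by linarith) (by linarith) (by positivity)

lemma PP_sub_one {k i : ℕ} (h : i ≤ k) : PP k i - 1 ≤ (i : ℝ) * 2 ^ i / k := by
  induction i with
  | zero => rw [PP_zero]; simp
  | succ i ih =>
    have h1 := ih (by omega)
    have h0 := PP_le_pow (show i ≤ k by omega)
    have h00 := PP_ge_one (show i ≤ k by omega)
    have h2 := den_pos (show i < k by omega)
    have h3 := key_den (show i < k by omega)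
    have hk : (0 : ℝ) < k := by
      have : 0 < k := by omega
      exact_mod_cast this
    rw [PP_succ (by omega)]
    have h4 : 0 ≤ 1 / (2 * ((k : ℝ) - i) - 1) := by positivity
    have h5 : PP k i * (1 / (2 * ((k : ℝ) - i) - 1)) ≤ 2 ^ i * (((i : ℝ) + 1) / k) :=
      mul_le_mul h0 h3 h4 (by positivity)
    have h6 : ((i + 1 : ℕ) : ℝ) * 2 ^ (i + 1) / k
        = (i : ℝ) * 2 ^ i / k + 2 ^ i * (((i : ℝ) + 1) / k) + 2 ^ i / k := by
      push_cast
      rw [pow_succ]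
      field_simp
      ring
    have h7 : 0 ≤ (2 : ℝ) ^ i / k := by positivity
    rw [h6]
    linarith

lemma e_bd {k i : ℕ} (hk1 : 1 ≤ k) (h : i ≤ k) :
    0 ≤ PP k i - (1 + (i : ℝ) / (2 * k)) ∧
      PP k i - (1 + (i : ℝ) / (2 * k)) ≤ 8 ^ i / (k : ℝ) ^ 2 := by
  have hk : (0 : ℝ) < k := by exact_mod_cast hk1
  induction i with
  | zero =>
    rw [PP_zero]
    simp
  | succ i ih =>
    obtain ⟨h1, h1'⟩ := ih (by omega)
    have h0 := PP_ge_one (show i ≤ k by omega)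
    have hs := PP_sub_one (show i ≤ k by omega)
    have h2 := den_pos (show i < k by omega)
    have h3 := key_den (show i < k by omega)
    set r : ℝ := 1 / (2 * ((k : ℝ) - i) - 1) with hr
    have h4 : 0 ≤ r := by positivity
    rw [PP_succ (by omega)]
    have hrr : r - 1 / (2 * k) = (2 * i + 1) * r / (2 * k) := by
      have : (2 * ((k : ℝ) - i) - 1) ≠ 0 := by linarith
      rw [hr]
      field_simp
      ring
    have hid : PP k i * (1 + r) - (1 + ((i + 1 : ℕ) : ℝ) / (2 * k))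
        = (PP k i - (1 + (i : ℝ) / (2 * k))) + (PP k i - 1) * r + (2 * i + 1) * r / (2 * k) := by
      rw [← hrr]
      push_cast
      field_simp
      ring
    rw [hid]
    have hA : 0 ≤ (PP k i - 1) * r := mul_nonneg (by linarith) h4
    have hB : 0 ≤ (2 * (i : ℝ) + 1) * r / (2 * k) := by positivity
    refine ⟨by linarith, ?_⟩
    have hA' : (PP k i - 1) * r ≤ ((i : ℝ) * 2 ^ i / k) * (((i : ℝ) + 1) / k) :=
      mul_le_mul hs h3 h4 (by positivity)
    have hB' : (2 * (i : ℝ) + 1) * r / (2 * k) ≤ (2 * (i : ℝ) + 1) * (((i : ℝ) + 1) / k) / (2 * k) := by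
      gcongr
    have hC : ((i : ℝ) * 2 ^ i / k) * (((i : ℝ) + 1) / k) = (i : ℝ) * (i + 1) * 2 ^ i / (k : ℝ) ^ 2 := by
      field_simp
    have hD : (2 * (i : ℝ) + 1) * (((i : ℝ) + 1) / k) / (2 * k)
        = (2 * (i : ℝ) + 1) * ((i : ℝ) + 1) / 2 / (k : ℝ) ^ 2 := by
      field_simp
    rw [hC] at hA'
    rw [hD] at hB'
    have hi2 : (i : ℝ) ≤ 2 ^ i := by exact_mod_cast (Nat.lt_two_pow_self (n := i)).le
    have hi3 : (i : ℝ) + 1 ≤ 2 ^ i := by
      exact_mod_cast (Nat.lt_two_pow_self (n := i))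
    have h8 : (8 : ℝ) ^ i = 2 ^ i * 2 ^ i * 2 ^ i := by
      rw [← mul_pow, ← mul_pow]; norm_num
    have h1p : (1 : ℝ) ≤ 2 ^ i := one_le_pow₀ (by norm_num)
    have hE : (i : ℝ) * (i + 1) * 2 ^ i ≤ 8 ^ i := by
      rw [h8]
      gcongr
    have hF : (2 * (i : ℝ) + 1) * ((i : ℝ) + 1) / 2 ≤ 2 * 8 ^ i := by
      have e1 : (2 * (i : ℝ) + 1) * ((i : ℝ) + 1) ≤ (2 * 2 ^ i) * 2 ^ i := by
        apply mul_le_mul _ hi3 (by positivity) (by positivity)
        linarith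
      have e2 : (2 : ℝ) ^ i * 2 ^ i ≤ 2 ^ i * 2 ^ i * 2 ^ i := le_mul_of_one_le_right (by positivity) h1p
      rw [h8]
      nlinarith
    have hE' : (i : ℝ) * (i + 1) * 2 ^ i / (k : ℝ) ^ 2 ≤ 8 ^ i / (k : ℝ) ^ 2 := by gcongr
    have hF' : (2 * (i : ℝ) + 1) * ((i : ℝ) + 1) / 2 / (k : ℝ) ^ 2 ≤ 2 * 8 ^ i / (k : ℝ) ^ 2 := by gcongr
    have hG : (8 : ℝ) ^ (i + 1) / (k : ℝ) ^ 2
        = 8 ^ i / (k : ℝ) ^ 2 + 8 ^ i / (k : ℝ) ^ 2 + 2 * 8 ^ i / (k : ℝ) ^ 2 + 4 * (8 ^ i / (k : ℝ) ^ 2) := by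
      rw [pow_succ]; ring
    have hH : 0 ≤ (8 : ℝ) ^ i / (k : ℝ) ^ 2 := by positivity
    rw [hG]
    linarith

/-- the approximating term -/
noncomputable def ss (k i : ℕ) : ℝ := 1 / (2 ^ i * (i.factorial : ℝ)) * (1 + (i : ℝ) / (2 * k))

lemma ts_bd {k i : ℕ} (hk1 : 1 ≤ k) : |tt k i - ss k i| ≤ (4 ^ i / (i.factorial : ℝ)) / (k : ℝ) ^ 2 := by
  have hk : (0 : ℝ) < k := by exact_mod_cast hk1
  have hf : (0 : ℝ) < (i.factorial : ℝ) := by exact_mod_cast i.factorial_pos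
  have h8 : (8 : ℝ) ^ i = 4 ^ i * 2 ^ i := by rw [← mul_pow]; norm_num
  rcases le_or_gt i k with h | h
  · obtain ⟨h1, h2⟩ := e_bd hk1 h
    have e1 : tt k i - ss k i = (PP k i - (1 + (i : ℝ) / (2 * k))) / (2 ^ i * (i.factorial : ℝ)) := by
      unfold PP ss
      field_simp
    rw [e1, abs_of_nonneg (by positivity)]
    calc (PP k i - (1 + (i : ℝ) / (2 * k))) / (2 ^ i * (i.factorial : ℝ))
        ≤ (8 ^ i / (k : ℝ) ^ 2) / (2 ^ i * (i.factorial : ℝ)) := by gcongr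
      _ = (4 ^ i / (i.factorial : ℝ)) / (k : ℝ) ^ 2 := by
        rw [h8]; field_simp
  · have e1 : tt k i = 0 := by
      unfold tt
      rw [Nat.choose_eq_zero_of_lt h]; simp
    have hik : (k : ℝ) ≤ i := by exact_mod_cast h.le
    have hss : 0 ≤ ss k i := by unfold ss; positivity
    rw [e1, zero_sub, abs_neg, abs_of_nonneg hss]
    unfold ss
    have hi3 : (i : ℝ) + 1 ≤ 2 ^ i := by
      exact_mod_cast (Nat.lt_two_pow_self (n := i))
    have hi2 : (i : ℝ) ≤ 2 ^ i := by linarith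
    have a1 : 1 + (i : ℝ) / (2 * k) ≤ (i : ℝ) + 1 := by
      have : (i : ℝ) / (2 * k) ≤ i := by
        rw [div_le_iff₀ (by positivity)]
        have : (1 : ℝ) ≤ k := by exact_mod_cast hk1
        nlinarith [(Nat.cast_nonneg i : (0 : ℝ) ≤ i)]
      linarith
    have a2 : (1 : ℝ) ≤ (i : ℝ) ^ 2 / (k : ℝ) ^ 2 := by
      rw [one_le_div (by positivity)]
      gcongr
    have a3 : (i : ℝ) ^ 2 ≤ 2 ^ i * 2 ^ i := by
      rw [sq]; gcongr
    have a4 : (1 + (i : ℝ) / (2 * k)) ≤ 8 ^ i / (k : ℝ) ^ 2 := by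
      calc (1 + (i : ℝ) / (2 * k)) ≤ (2 ^ i) * 1 := by linarith
        _ ≤ 2 ^ i * ((i : ℝ) ^ 2 / (k : ℝ) ^ 2) := by gcongr
        _ ≤ 2 ^ i * ((2 ^ i * 2 ^ i) / (k : ℝ) ^ 2) := by gcongr
        _ = 8 ^ i / (k : ℝ) ^ 2 := by
          have : (8 : ℝ) ^ i = 2 ^ i * 2 ^ i * 2 ^ i := by
            rw [← mul_pow, ← mul_pow]; norm_num
          rw [this]; ring
    calc 1 / (2 ^ i * (i.factorial : ℝ)) * (1 + (i : ℝ) / (2 * k))
        ≤ 1 / (2 ^ i * (i.factorial : ℝ)) * (8 ^ i / (k : ℝ) ^ 2) := by gcongr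
      _ = (4 ^ i / (i.factorial : ℝ)) / (k : ℝ) ^ 2 := by
        rw [h8]; field_simp

lemma hasSum_exp' (x : ℝ) : HasSum (fun i : ℕ => x ^ i / (i.factorial : ℝ)) (Real.exp x) := by
  rw [Real.exp_eq_exp_ℝ]
  exact NormedSpace.expSeries_div_hasSum_exp x

lemma hasSum_nexp (x : ℝ) :
    HasSum (fun i : ℕ => (i : ℝ) * (x ^ i / (i.factorial : ℝ))) (x * Real.exp x) := by
  rw [← hasSum_nat_add_iff' 1]
  simp only [range_one, sum_singleton, Nat.cast_zero, zero_mul, sub_zero]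
  have h := (hasSum_exp' x).mul_left x
  refine h.congr_fun ?_
  intro i
  rw [Nat.factorial_succ, pow_succ]
  have hf : (0 : ℝ) < (i.factorial : ℝ) := by exact_mod_cast i.factorial_pos
  push_cast
  field_simp

lemma hasSum_ss (k : ℕ) : HasSum (fun i : ℕ => (-1) ^ i * ss k i)
    (Real.exp (-1 / 2) * (1 - 1 / (4 * k))) := by
  have h1 := hasSum_exp' (-1 / 2)
  have h2 := (hasSum_nexp (-1 / 2)).mul_left (1 / (2 * (k : ℝ)))
  have h3 := h1.add h2
  have e1 : Real.exp (-1 / 2) + 1 / (2 * (k : ℝ)) * (-1 / 2 * Real.exp (-1 / 2))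
      = Real.exp (-1 / 2) * (1 - 1 / (4 * k)) := by
    ring
  rw [e1] at h3
  refine h3.congr_fun ?_
  intro i
  unfold ss
  have e2 : (-1 / 2 : ℝ) ^ i = (-1) ^ i / 2 ^ i := by rw [div_pow]
  rw [e2]
  ring

lemma sum_tt {k : ℕ} : (Dn k : ℝ) = ((2 * k - 1).doubleFactorial : ℝ) *
    ∑ i ∈ range (k + 1), (-1) ^ i * tt k i := by
  have h := df_pos (2 * k - 1)
  unfold Dn tt
  push_cast
  rw [mul_sum]
  refine sum_congr rfl fun i _ => ?_
  field_simp

/-- TARGET -/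
theorem Dn_le2 : ∃ C : ℝ, 0 ≤ C ∧ ∀ k : ℕ, 1 ≤ k →
    (Dn k : ℝ) ≤ ((2 * k - 1).doubleFactorial : ℝ) * (Real.exp (-1 / 2) * (1 - 1 / (4 * k)) + C / (k : ℝ) ^ 2) := by
  refine ⟨Real.exp 4, (Real.exp_pos 4).le, fun k hk1 => ?_⟩
  have hk : (0 : ℝ) < k := by exact_mod_cast hk1
  rw [sum_tt]
  refine mul_le_mul_of_nonneg_left ?_ (df_pos _).le
  have hT : HasSum (fun i : ℕ => (-1) ^ i * tt k i) (∑ i ∈ range (k + 1), (-1) ^ i * tt k i) := by
    apply hasSum_sum_of_ne_finset_zero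
    intro i hi
    rw [mem_range, not_lt] at hi
    unfold tt
    rw [Nat.choose_eq_zero_of_lt (by omega)]; simp
  have hD := hT.sub (hasSum_ss k)
  have hE : HasSum (fun i : ℕ => ((4 : ℝ) ^ i / (i.factorial : ℝ)) / (k : ℝ) ^ 2)
      (Real.exp 4 / (k : ℝ) ^ 2) := (hasSum_exp' 4).div_const _
  have hle := hasSum_le (f := fun i : ℕ => (-1) ^ i * tt k i - (-1) ^ i * ss k i) (fun i => ?_) hD hE
  · linarith
  · show (-1) ^ i * tt k i - (-1) ^ i * ss k i ≤ _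
    rw [← mul_sub]
    refine le_trans (le_abs_self _) ?_
    rw [abs_mul, abs_pow, abs_neg, abs_one, one_pow, one_mul]
    exact ts_bd hk1

end MQ1

export MQ1 (Dn_le2)

end Pool.Agent.H698NC
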