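import Pool.Agent.H698NC.I3

set_option autoImplicit false

namespace Pool.Agent.H698NC

open Finset

namespace MU1

variable {n : ℕ}

theorem u1_nbr_union (A B : Finset (Sym2 (Fin n))) (v : Fin n) :
    nbr (A ∪ B) v = nbr A v ∪ nbr B v := by
  ext w
  simp [nbr]

theorem u1_nbr_inter (A B : Finset (Sym2 (Fin n))) (v : Fin n) :
    nbr (A ∩ B) v = nbr A v ∩ nbr B v := by
  ext w
  simp [nbr]

theorem u1_dg (A B : Finset (Sym2 (Fin n))) (v : Fin n) :
    dg (A ∪ B) v + dg (A ∩ B) v = dg A v + dg B v := by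
  unfold dg
  rw [u1_nbr_union, u1_nbr_inter]
  exact Finset.card_union_add_card_inter _ _

theorem u1_hand {C : Finset (Sym2 (Fin n))} (hC : ND C) : ∑ v, dg C v = 2 * C.card := by
  classical
  have h1 : ∑ v, dg C v = ((univ : Finset (Fin n × Fin n)).filter (fun p => s(p.1, p.2) ∈ C)).card := by
    rw [Finset.card_filter, Fintype.sum_prod_type]
    refine Finset.sum_congr rfl fun v _ => ?_
    unfold dg nbr
    rw [Finset.card_filter]
  have h0 : ∀ p ∈ ((univ : Finset (Fin n × Fin n)).filter (fun p => s(p.1, p.2) ∈ C)),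
      (fun p : Fin n × Fin n => s(p.1, p.2)) p ∈ C := fun p hp => (Finset.mem_filter.1 hp).2
  rw [h1, Finset.card_eq_sum_card_fiberwise h0]
  have h2 : ∀ e ∈ C, (((univ : Finset (Fin n × Fin n)).filter (fun p => s(p.1, p.2) ∈ C)).filter
      (fun p => s(p.1, p.2) = e)).card = 2 := by
    intro e he
    have hd := hC e he
    induction e using Sym2.ind with
    | _ a b =>
      have hab : a ≠ b := fun h => hd (by rw [h]; exact Sym2.mk_isDiag_iff.2 rfl)
      have h3 : (((univ : Finset (Fin n × Fin n)).filter (fun p => s(p.1, p.2) ∈ C)).filter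
        (fun p => s(p.1, p.2) = s(a, b))) = {(a, b), (b, a)} := by
        ext ⟨x, y⟩
        simp only [mem_filter, mem_univ, true_and, mem_insert, mem_singleton, Prod.mk.injEq,
          Sym2.eq_iff]
        constructor
        · rintro ⟨-, h⟩
          exact h
        · intro h
          refine ⟨?_, h⟩
          rcases h with ⟨rfl, rfl⟩ | ⟨rfl, rfl⟩
          · exact he
          · rw [Sym2.eq_swap]; exact he
      rw [h3, Finset.card_pair]
      intro h
      exact hab (Prod.mk.inj h).1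
  rw [Finset.sum_congr rfl h2, Finset.sum_const, smul_eq_mul, mul_comm]

theorem u1_iff {A C : Finset (Sym2 (Fin n))} (hA : ∀ v, dg A v = 1) (hCA : C ⊆ A) {v w : Fin n}
    (h : s(v, w) ∈ A) : dg C v = 1 ↔ s(v, w) ∈ C := by
  have hsub : nbr C v ⊆ nbr A v := by
    intro x hx
    simp only [nbr, mem_filter, mem_univ, true_and] at hx ⊢
    exact hCA hx
  have hw : w ∈ nbr A v := by simpa [nbr] using h
  obtain ⟨w', hw'⟩ := Finset.card_eq_one.1 (hA v)
  rw [hw', mem_singleton] at hw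
  subst hw
  rw [hw'] at hsub
  constructor
  · intro h1
    obtain ⟨x, hx⟩ := Finset.card_eq_one.1 h1
    have : x ∈ ({w} : Finset (Fin n)) := hsub (by rw [hx]; exact mem_singleton_self x)
    rw [mem_singleton] at this
    subst this
    have h2 : x ∈ nbr C v := by rw [hx]; exact mem_singleton_self x
    simpa [nbr] using h2
  · intro h1
    have h2 : w ∈ nbr C v := by simpa [nbr] using h1
    unfold dg
    rw [Finset.card_eq_one]
    exact ⟨w, Finset.Subset.antisymm hsub (Finset.singleton_subset_iff.2 h2)⟩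

/-- the data of the union of two perfect matchings -/
theorem u1_data {A1 A2 : Finset (Sym2 (Fin n))} (h1 : ∀ v, dg A1 v = 1)
    (h2 : ∀ v, dg A2 v = 1) (n1 : ND A1) :
    ∃ c : Fin n → ℕ, (∀ v, c v ≤ 1) ∧ (∀ v, dg (A1 ∪ A2) v = 2 - c v) ∧
      ∑ v, c v = 2 * (A1 ∩ A2).card ∧ (∀ v, ∀ w ∈ nbr (A1 ∪ A2) v, c w = c v) := by
  have hle : ∀ v, dg (A1 ∩ A2) v ≤ 1 := by
    intro v
    rw [← h1 v]
    unfold dg
    apply Finset.card_le_card
    rw [u1_nbr_inter]
    exact Finset.inter_subset_left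
  refine ⟨dg (A1 ∩ A2), hle, ?_, ?_, ?_⟩
  · intro v
    have := u1_dg A1 A2 v
    rw [h1, h2] at this
    omega
  · exact u1_hand (fun e he => n1 e (Finset.mem_inter.1 he).1)
  · intro v w hw
    have hw' : s(v, w) ∈ A1 ∪ A2 := by simpa [nbr] using hw
    have key : dg (A1 ∩ A2) v = 1 ↔ dg (A1 ∩ A2) w = 1 := by
      rcases Finset.mem_union.1 hw' with h | h
      · have e1 := u1_iff h1 (Finset.inter_subset_left (s₂ := A2)) h
        have h' : s(w, v) ∈ A1 := by rw [Sym2.eq_swap]; exact h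
        have e2 := u1_iff h1 (Finset.inter_subset_left (s₂ := A2)) h'
        rw [e1, e2, Sym2.eq_swap]
      · have e1 := u1_iff h2 (Finset.inter_subset_right (s₁ := A1)) h
        have h' : s(w, v) ∈ A2 := by rw [Sym2.eq_swap]; exact h
        have e2 := u1_iff h2 (Finset.inter_subset_right (s₁ := A1)) h'
        rw [e1, e2, Sym2.eq_swap]
    have hv := hle v
    have hw := hle w
    omega

theorem u1_log {d : ℕ} (hd : 3 ≤ d) :
    Real.log ((d - 1).factorial : ℝ) = Real.log ((d - 2).factorial : ℝ) + Real.log ((d : ℝ) - 1) ∧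
    Real.log (d.factorial : ℝ) =
      Real.log ((d - 2).factorial : ℝ) + Real.log ((d : ℝ) - 1) + Real.log d := by
  obtain ⟨e, rfl⟩ : ∃ e, d = e + 3 := ⟨d - 3, by omega⟩
  have h1 : (e + 3 - 1).factorial = (e + 2) * (e + 1).factorial := by
    rw [show e + 3 - 1 = (e + 1) + 1 by omega, Nat.factorial_succ]
  have h2 : (e + 3 - 2) = e + 1 := by omega
  have h3 : (e + 3).factorial = (e + 3) * ((e + 2) * (e + 1).factorial) := by
    rw [show e + 3 = (e + 2) + 1 by omega, Nat.factorial_succ,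
      show e + 2 = (e + 1) + 1 by omega, Nat.factorial_succ]
  have hf : ((e + 1).factorial : ℝ) ≠ 0 := by exact_mod_cast Nat.factorial_ne_zero _
  have h4 : ((e : ℝ) + 2) ≠ 0 := by positivity
  have h5 : ((e : ℝ) + 3) ≠ 0 := by positivity
  have e1 : (((e + 3 : ℕ) : ℝ) - 1) = (e : ℝ) + 2 := by push_cast; ring
  rw [h1, h2, h3, e1]
  push_cast
  rw [Real.log_mul h5 (mul_ne_zero h4 hf), Real.log_mul h4 hf]
  constructor <;> ring

theorem u1_union {d : ℕ} (hd : 3 ≤ d) {A : Finset (Sym2 (Fin n))} {c : Fin n → ℕ}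
    (hc : ∀ v, c v ≤ 1) (hA : ∀ v, dg A v = 2 - c v) (hw : ∀ v, ∀ w ∈ nbr A v, c w = c v) {J : ℕ}
    (hJ : ∑ v, c v = 2 * J) :
    (∑ v, Real.log ((d - dg A v).factorial : ℝ) =
      n * Real.log ((d - 2).factorial : ℝ) + 2 * J * Real.log ((d : ℝ) - 1)) ∧
    D2 d A = n * ((d - 2) * (d - 3)) + 4 * J * (d - 2) ∧
    QQ d A ∅ = 2 * (J * (d - 1) ^ 2 + (n - 2 * J) * (d - 2) ^ 2) := by
  have hJ' : ∑ v, (c v : ℝ) = 2 * J := by exact_mod_cast hJ
  have hn : ∑ _v : Fin n, (1 : ℝ) = n := by simp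
  have hrd : ∀ v, rd d A v = (d : ℝ) - 2 + c v := by
    intro v
    unfold rd
    rw [hA, Nat.cast_sub ((hc v).trans (by norm_num))]
    push_cast
    ring
  have hcc : ∀ v, (c v : ℝ) * c v = c v := by
    intro v
    have : c v = 0 ∨ c v = 1 := by have := hc v; omega
    rcases this with h | h <;> rw [h] <;> simp
  refine ⟨?_, ?_, ?_⟩
  · have : ∀ v, Real.log ((d - dg A v).factorial : ℝ) =
        Real.log ((d - 2).factorial : ℝ) * 1 + c v * Real.log ((d : ℝ) - 1) := by
      intro v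
      rw [hA]
      have h01 : c v = 0 ∨ c v = 1 := by have := hc v; omega
      rcases h01 with h | h
      · rw [h]
        simp
      · rw [h, show d - (2 - 1) = d - 1 by omega, (u1_log hd).1]
        simp
    rw [Finset.sum_congr rfl fun v _ => this v, Finset.sum_add_distrib, ← Finset.mul_sum,
      ← Finset.sum_mul, hJ', hn]
    ring
  · unfold D2
    have : ∀ v, rd d A v * (rd d A v - 1) =
        ((d : ℝ) - 2) * (d - 3) * 1 + 2 * ((d : ℝ) - 2) * c v := by
      intro v
      rw [hrd]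
      linear_combination hcc v
    rw [Finset.sum_congr rfl fun v _ => this v, Finset.sum_add_distrib, ← Finset.mul_sum,
      ← Finset.mul_sum, hJ', hn]
    ring
  · unfold QQ
    have hT : ∀ v, TT d A ∅ v = (2 - (c v : ℝ)) * ((d : ℝ) - 2 + c v) := by
      intro v
      unfold TT
      rw [Finset.union_empty]
      have : ∀ w ∈ nbr A v, rd d A w = (d : ℝ) - 2 + c v := by
        intro w hwv
        rw [hrd, hw v w hwv]
      rw [Finset.sum_congr rfl this, Finset.sum_const, nsmul_eq_mul]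
      congr 1
      have := hA v
      unfold dg at this
      rw [this, Nat.cast_sub ((hc v).trans (by norm_num))]
      norm_num
    have : ∀ v, rd d A v * TT d A ∅ v = 2 * ((d : ℝ) - 2) ^ 2 * 1 +
        (((d : ℝ) - 1) ^ 2 - 2 * ((d : ℝ) - 2) ^ 2) * c v := by
      intro v
      rw [hrd, hT]
      have h1 := hcc v
      have h2 : (c v : ℝ) * c v * c v = c v := by rw [h1, h1]
      linear_combination (2 - 2 * ((d : ℝ) - 2)) * h1 - h2
    rw [Finset.sum_congr rfl fun v _ => this v, Finset.sum_add_distrib, ← Finset.mul_sum,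
      ← Finset.mul_sum, hJ', hn]
    ring

theorem u1_one {d : ℕ} (hd : 3 ≤ d) {A : Finset (Sym2 (Fin n))} (hA : ∀ v, dg A v = 1) :
    (∑ v, Real.log ((d - dg A v).factorial : ℝ) =
      n * (Real.log ((d - 2).factorial : ℝ) + Real.log ((d : ℝ) - 1))) ∧
    D2 d A = n * ((d - 1) * (d - 2)) ∧ QQ d A ∅ = n * (d - 1) ^ 2 := by
  have hrd : ∀ v, rd d A v = (d : ℝ) - 1 := by
    intro v
    unfold rd
    rw [hA]
    norm_num
  refine ⟨?_, ?_, ?_⟩
  · simp only [hA]
    rw [Finset.sum_const, Finset.card_univ, Fintype.card_fin, nsmul_eq_mul, (u1_log hd).1]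
  · unfold D2
    simp only [hrd]
    rw [Finset.sum_const, Finset.card_univ, Fintype.card_fin, nsmul_eq_mul]
    ring
  · unfold QQ TT
    have : ∀ v, rd d A v * ∑ w ∈ nbr (A ∪ ∅) v, rd d A w = ((d : ℝ) - 1) ^ 2 := by
      intro v
      rw [Finset.union_empty]
      simp only [hrd]
      rw [Finset.sum_const, nsmul_eq_mul]
      have := hA v
      unfold dg at this
      rw [this]
      ring
    rw [Finset.sum_congr rfl fun v _ => this v, Finset.sum_const, Finset.card_univ,
      Fintype.card_fin, nsmul_eq_mul]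

theorem u1_zero {d : ℕ} (hd : 3 ≤ d) :
    (∑ v : Fin n, Real.log ((d - dg (∅ : Finset (Sym2 (Fin n))) v).factorial : ℝ) =
      n * (Real.log ((d - 2).factorial : ℝ) + Real.log ((d : ℝ) - 1) + Real.log d)) ∧
    D2 d (∅ : Finset (Sym2 (Fin n))) = n * (d * (d - 1)) ∧ QQ d (∅ : Finset (Sym2 (Fin n))) ∅ = 0 := by
  have hA : ∀ v : Fin n, dg (∅ : Finset (Sym2 (Fin n))) v = 0 := by
    intro v
    simp [dg, nbr]
  have hrd : ∀ v : Fin n, rd d (∅ : Finset (Sym2 (Fin n))) v = (d : ℝ) := by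
    intro v
    unfold rd
    rw [hA]
    norm_num
  refine ⟨?_, ?_, ?_⟩
  · simp only [hA, Nat.sub_zero]
    rw [Finset.sum_const, Finset.card_univ, Fintype.card_fin, nsmul_eq_mul, (u1_log hd).2]
  · unfold D2
    simp only [hrd]
    rw [Finset.sum_const, Finset.card_univ, Fintype.card_fin, nsmul_eq_mul]
  · unfold QQ TT
    simp [nbr]

/-- the rational identity -/
theorem u1_rat {n d J : ℝ} (hn : 0 < n) (hd : 3 ≤ d) (hJ : 0 ≤ J) :
    -((n * ((d - 2) * (d - 3)) + 4 * J * (d - 2)) / (2 * (n * (d - 2) + 2 * J)))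
      - (n * ((d - 2) * (d - 3)) + 4 * J * (d - 2)) ^ 2 / (4 * (n * (d - 2) + 2 * J) ^ 2)
      - (2 * (J * (d - 1) ^ 2 + (n - 2 * J) * (d - 2) ^ 2)) / (2 * (n * (d - 2) + 2 * J))
      + 2 * ((n * ((d - 1) * (d - 2))) / (2 * (n * (d - 1)))
        + (n * ((d - 1) * (d - 2))) ^ 2 / (4 * (n * (d - 1)) ^ 2)
        + (n * (d - 1) ^ 2) / (2 * (n * (d - 1))))
      - (n * (d * (d - 1))) / (2 * (n * d)) - (n * (d * (d - 1))) ^ 2 / (4 * (n * d) ^ 2)
      = Lam d (2 * J / n) := by
  have h1 : 0 < d - 2 := by linarith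
  have h2 : 0 < d - 1 := by linarith
  have h3 : 0 < d := by linarith
  have h4 : 0 < n * (d - 2) + 2 * J := by positivity
  have h5 : d - 2 + 2 * J / n = (n * (d - 2) + 2 * J) / n := by field_simp
  unfold Lam
  rw [h5]
  field_simp
  ring

/-- TARGET -/
theorem ell_pm (n d : ℕ) (hn : Even n) (h2 : 2 ≤ n) (hd : 3 ≤ d) (M M' : SimpleGraph (Fin n)) (hM : M ∈ RG n 1) (hM' : M' ∈ RG n 1) :
    ell d (es M ∪ es M') ∅ - ell d (es M) ∅ - ell d (es M') ∅ + ell d (∅ : Finset (Sym2 (Fin n))) ∅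
      = phi n d (es M ∩ es M').card := by
  classical
  obtain ⟨n1, r1, c1⟩ := es_pm M hM
  obtain ⟨n2, r2, c2⟩ := es_pm M' hM'
  obtain ⟨J, hJdef⟩ : ∃ J, J = (es M ∩ es M').card := ⟨_, rfl⟩
  obtain ⟨c, hc, hdg, hsum, hnb⟩ := u1_data r1 r2 n1
  rw [← hJdef] at hsum
  have hcard : (es M ∪ es M').card = n - J := by
    have h1 := Finset.card_union_add_card_inter (es M) (es M')
    rw [← hJdef] at h1
    omega
  have hJn : J ≤ n / 2 := by
    have h1 : (es M ∩ es M').card ≤ (es M).card := Finset.card_le_card Finset.inter_subset_left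
    omega
  obtain ⟨a1, a2, a3⟩ := u1_union (A := es M ∪ es M') hd hc hdg hnb hsum
  obtain ⟨b1, b2, b3⟩ := u1_one (A := es M) hd r1
  obtain ⟨e1, e2, e3⟩ := u1_one (A := es M') hd r2
  obtain ⟨z1, z2, z3⟩ := u1_zero (n := n) (d := d) hd
  have hEA : EE d (es M ∪ es M') = (n : ℝ) * (d - 2) + 2 * J := by
    unfold EE
    rw [hcard, Nat.cast_sub (by omega)]
    ring
  have hc1 : (2 : ℝ) * (es M).card = n := by exact_mod_cast c1
  have hc2 : (2 : ℝ) * (es M').card = n := by exact_mod_cast c2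
  have hE1 : EE d (es M) = (n : ℝ) * (d - 1) := by
    unfold EE
    rw [hc1]
    ring
  have hE2 : EE d (es M') = (n : ℝ) * (d - 1) := by
    unfold EE
    rw [hc2]
    ring
  have hE0 : EE d (∅ : Finset (Sym2 (Fin n))) = (n : ℝ) * d := by
    unfold EE
    simp
  have hk1 : (es M).card = n / 2 := by omega
  have hk2 : (es M').card = n / 2 := by omega
  have hn0 : (0 : ℝ) < n := by
    have : 0 < n := by omega
    exact_mod_cast this
  have hd3 : (3 : ℝ) ≤ d := by exact_mod_cast hd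
  have hrat := u1_rat (n := n) (d := d) (J := J) hn0 hd3 (by positivity)
  rw [← hJdef]
  unfold phi
  rw [← hrat]
  unfold ell
  rw [a1, a2, a3, b1, b2, b3, e1, e2, e3, z1, z2, z3, hEA, hE1, hE2, hE0, hcard, hk1, hk2,
    Finset.card_empty, Nat.sub_zero]
  have hlog : Real.log (((d : ℝ) - 1) / d) = Real.log ((d : ℝ) - 1) - Real.log d :=
    Real.log_div (by linarith) (by linarith)
  rw [hlog]
  ring

end MU1

export MU1 (ell_pm)

end Pool.Agent.H698NC
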