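import Pool.Agent.H698NC.U1
import Pool.Agent.H698NC.E
import Pool.Agent.H698NC.F5

set_option autoImplicit false

namespace Pool.Agent.H698NC

open Finset

namespace MU2

variable {n : ℕ}

section H58aux

theorem h58_nbr_empty (v : Fin n) : nbr (∅ : Finset (Sym2 (Fin n))) v = ∅ := by
  simp [nbr]

theorem h58_cnt_empty (d : ℕ) : cnt d (∅ : Finset (Sym2 (Fin n))) ∅ = (RG n d).card := by
  classical
  unfold cnt
  congr 1
  exact Finset.filter_true_of_mem fun G _ => by simp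

theorem h58_dg_union (A A' : Finset (Sym2 (Fin n))) (v : Fin n) :
    dg (A ∪ A') v ≤ dg A v + dg A' v := by
  unfold dg
  refine le_trans (Finset.card_le_card ?_) (Finset.card_union_le _ _)
  intro w hw
  simp only [nbr, Finset.mem_filter, Finset.mem_univ, true_and, Finset.mem_union] at hw ⊢
  exact hw

theorem h58_BCls : BCls 2 (∅ : Finset (Sym2 (Fin n))) := by
  refine ⟨fun e he => by simp at he, fun v => ?_⟩
  unfold dg
  rw [h58_nbr_empty]
  simp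

theorem h58_Cls_one (d : ℕ) (hd : 3 ≤ d) (M : SimpleGraph (Fin n)) (hM : M ∈ RG n 1) :
    Cls d 2 0 (es M) := by
  obtain ⟨h1, h2, h3⟩ := es_pm M hM
  refine ⟨h1, fun v => ?_, fun v => ?_, ?_⟩
  · rw [h2 v]; omega
  · rw [h2 v]; omega
  · omega

theorem h58_Cls_two (d : ℕ) (hd : 3 ≤ d) (M M' : SimpleGraph (Fin n)) (hM : M ∈ RG n 1)
    (hM' : M' ∈ RG n 1) : Cls d 2 0 (es M ∪ es M') := by
  obtain ⟨h1, h2, h3⟩ := es_pm M hM
  obtain ⟨h1', h2', h3'⟩ := es_pm M' hM'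
  have hdg : ∀ v, dg (es M ∪ es M') v ≤ 2 := fun v => by
    have := h58_dg_union (es M) (es M') v
    rw [h2 v, h2' v] at this
    omega
  refine ⟨fun e he => ?_, fun v => ?_, fun v => ?_, ?_⟩
  · rcases Finset.mem_union.1 he with h | h
    · exact h1 e h
    · exact h1' e h
  · have := hdg v; omega
  · have := hdg v; omega
  · have := Finset.card_union_le (es M) (es M')
    omega

theorem h58_ell_val (d : ℕ) (hd : 3 ≤ d) (M : SimpleGraph (Fin n)) (hM : M ∈ RG n 1) :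
    ell d (es M) ∅ = LF (n * d / 2 - n / 2) - ∑ _v : Fin n, Real.log ((d - 1).factorial)
      - (∑ _v : Fin n, ((d : ℝ) - 1) * ((d : ℝ) - 1 - 1)) / (2 * ((n : ℝ) * d - n))
      - (∑ _v : Fin n, ((d : ℝ) - 1) * ((d : ℝ) - 1 - 1)) ^ 2 / (4 * ((n : ℝ) * d - n) ^ 2)
      - (∑ _v : Fin n, ((d : ℝ) - 1) * ((d : ℝ) - 1)) / (2 * ((n : ℝ) * d - n)) := by
  obtain ⟨h1, h2, h3⟩ := es_pm M hM
  have hc : (es M).card = n / 2 := by omega
  have hrd : ∀ v, rd d (es M) v = (d : ℝ) - 1 := fun v => by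
    unfold rd; rw [h2 v]; simp
  have hEE : EE d (es M) = (n : ℝ) * d - n := by
    unfold EE
    have : (2 : ℝ) * (es M).card = n := by exact_mod_cast h3
    rw [this]
  have hD2 : D2 d (es M) = ∑ _v : Fin n, ((d : ℝ) - 1) * ((d : ℝ) - 1 - 1) := by
    unfold D2
    exact Finset.sum_congr rfl fun v _ => by rw [hrd v]
  have hTT : ∀ v, TT d (es M) ∅ v = (d : ℝ) - 1 := fun v => by
    unfold TT
    rw [Finset.union_empty, Finset.sum_congr rfl fun w _ => hrd w, Finset.sum_const]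
    have := h2 v
    unfold dg at this
    rw [this, one_smul]
  have hQQ : QQ d (es M) ∅ = ∑ _v : Fin n, ((d : ℝ) - 1) * ((d : ℝ) - 1) := by
    unfold QQ
    exact Finset.sum_congr rfl fun v _ => by rw [hrd v, hTT v]
  unfold ell
  rw [hc, hEE, hD2, hQQ]
  simp only [h2]

end H58aux

/-- TARGET 1 -/
theorem ell_one (n d : ℕ) (hn : Even n) (hd : 3 ≤ d) (M M' : SimpleGraph (Fin n)) (hM : M ∈ RG n 1) (hM' : M' ∈ RG n 1) :
    ell d (es M) ∅ = ell d (es M') ∅ := by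
  rw [h58_ell_val d hd M hM, h58_ell_val d hd M' hM']

section H58aux2

theorem h58_const (C0 C1 C2 : ℝ) (h0 : 1 ≤ C0) (h1 : 0 ≤ C1) (h2 : 0 ≤ C2) (n d : ℕ) (hd : 3 ≤ d)
    (hn : (1 + 7 * C0 + (14 * C0 + C1 + 14 * C0 * C1) * (1 + C2) + C2) * d ≤ n) :
    Real.exp (7 * C0 / n) * (1 + C2 / (d : ℝ) ^ 3) * (1 + C1 / n) ≤
      1 + ((1 + 7 * C0 + (14 * C0 + C1 + 14 * C0 * C1) * (1 + C2) + C2) / (d : ℝ) ^ 3 +
        (1 + 7 * C0 + (14 * C0 + C1 + 14 * C0 * C1) * (1 + C2) + C2) / n) := by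
  have hdr : (3 : ℝ) ≤ d := by exact_mod_cast hd
  have hK0 : 0 ≤ 14 * C0 + C1 + 14 * C0 * C1 := by positivity
  have hnK : 7 * C0 * d ≤ n := by
    refine le_trans (mul_le_mul_of_nonneg_right ?_ (by linarith)) hn
    have : 0 ≤ (14 * C0 + C1 + 14 * C0 * C1) * (1 + C2) := by positivity
    linarith
  have hn1 : 7 * C0 ≤ n := by nlinarith
  have hnpos : (0 : ℝ) < n := by linarith
  have hn1' : (1 : ℝ) ≤ n := by linarith
  have hx : 7 * C0 / (n : ℝ) ≤ 1 := by rw [div_le_one hnpos]; exact hn1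
  have hx0 : 0 ≤ 7 * C0 / (n : ℝ) := by positivity
  have hexp : Real.exp (7 * C0 / n) ≤ 1 + 14 * C0 / n := by
    have h := Real.abs_exp_sub_one_sub_id_le (x := 7 * C0 / (n : ℝ)) (by rw [abs_of_nonneg hx0]; exact hx)
    have h' := (abs_le.1 h).2
    have h3 : (7 * C0 / (n : ℝ)) ^ 2 ≤ 7 * C0 / (n : ℝ) := by nlinarith
    have h4 : 14 * C0 / (n : ℝ) = 2 * (7 * C0 / (n : ℝ)) := by ring
    rw [h4]
    linarith
  have hu : 0 ≤ 1 / (n : ℝ) := by positivity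
  have hu1 : 1 / (n : ℝ) ≤ 1 := by rw [div_le_one hnpos]; exact hn1'
  have hv : 0 ≤ 1 / (d : ℝ) ^ 3 := by positivity
  have hv1 : 1 / (d : ℝ) ^ 3 ≤ 1 := by
    rw [div_le_one (by positivity)]
    exact one_le_pow₀ (by linarith)
  have e1 : (1 + 14 * C0 / (n : ℝ)) * (1 + C1 / n) ≤ 1 + (14 * C0 + C1 + 14 * C0 * C1) * (1 / (n : ℝ)) := by
    have : (1 + 14 * C0 / (n : ℝ)) * (1 + C1 / n) =
        1 + (14 * C0 + C1) * (1 / (n : ℝ)) + 14 * C0 * C1 * (1 / (n : ℝ) * (1 / (n : ℝ))) := by ring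
    rw [this]
    have h5 : 1 / (n : ℝ) * (1 / (n : ℝ)) ≤ 1 / (n : ℝ) := by nlinarith
    have h6 : 14 * C0 * C1 * (1 / (n : ℝ) * (1 / (n : ℝ))) ≤ 14 * C0 * C1 * (1 / (n : ℝ)) :=
      mul_le_mul_of_nonneg_left h5 (by positivity)
    linarith
  calc Real.exp (7 * C0 / n) * (1 + C2 / (d : ℝ) ^ 3) * (1 + C1 / n)
      ≤ (1 + 14 * C0 / n) * (1 + C2 / (d : ℝ) ^ 3) * (1 + C1 / n) := by
        refine mul_le_mul_of_nonneg_right (mul_le_mul_of_nonneg_right hexp (by positivity)) (by positivity)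
    _ = ((1 + 14 * C0 / n) * (1 + C1 / n)) * (1 + C2 * (1 / (d : ℝ) ^ 3)) := by ring
    _ ≤ (1 + (14 * C0 + C1 + 14 * C0 * C1) * (1 / (n : ℝ))) * (1 + C2 * (1 / (d : ℝ) ^ 3)) :=
        mul_le_mul_of_nonneg_right e1 (by positivity)
    _ = 1 + (14 * C0 + C1 + 14 * C0 * C1) * (1 / (n : ℝ)) + C2 * (1 / (d : ℝ) ^ 3) +
          (14 * C0 + C1 + 14 * C0 * C1) * C2 * (1 / (n : ℝ) * (1 / (d : ℝ) ^ 3)) := by ring
    _ ≤ 1 + (14 * C0 + C1 + 14 * C0 * C1) * (1 / (n : ℝ)) + C2 * (1 / (d : ℝ) ^ 3) +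
          (14 * C0 + C1 + 14 * C0 * C1) * C2 * (1 / (n : ℝ)) := by
        have h7 : 1 / (n : ℝ) * (1 / (d : ℝ) ^ 3) ≤ 1 / (n : ℝ) := by nlinarith
        have h8 := mul_le_mul_of_nonneg_left h7
          (show 0 ≤ (14 * C0 + C1 + 14 * C0 * C1) * C2 by positivity)
        linarith
    _ ≤ _ := by
        have h9 : (1 + 7 * C0 + (14 * C0 + C1 + 14 * C0 * C1) * (1 + C2) + C2) / (d : ℝ) ^ 3 +
            (1 + 7 * C0 + (14 * C0 + C1 + 14 * C0 * C1) * (1 + C2) + C2) / n =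
            (1 + 7 * C0 + (14 * C0 + C1 + 14 * C0 * C1) * (1 + C2) + C2) * (1 / (d : ℝ) ^ 3) +
            (1 + 7 * C0 + (14 * C0 + C1 + 14 * C0 * C1) * (1 + C2) + C2) * (1 / (n : ℝ)) := by ring
        rw [h9]
        have h10 : 0 ≤ (1 + 7 * C0 + (14 * C0 + C1 + 14 * C0 * C1) * (1 + C2)) * (1 / (d : ℝ) ^ 3) := by
          positivity
        have h11 : 0 ≤ (1 + 7 * C0 + C2) * (1 / (n : ℝ)) := by positivity
        linarith

theorem h58_fiber (hn : Even n) (d : ℕ) (M : SimpleGraph (Fin n)) (hM : M ∈ RG n 1) :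
    ∑ M' ∈ RG n 1, Real.exp (phi n d (es M ∩ es M').card) =
      ∑ J ∈ range (n / 2 + 1), ((n / 2).choose J : ℝ) * (Dn (n / 2 - J) : ℝ) * Real.exp (phi n d J) := by
  classical
  obtain ⟨h1, h2, h3⟩ := es_pm M hM
  have hmaps : ∀ M' ∈ RG n 1, (es M ∩ es M').card ∈ range (n / 2 + 1) := by
    intro M' _
    rw [mem_range]
    have : (es M ∩ es M').card ≤ (es M).card := card_le_card inter_subset_left
    omega
  rw [← sum_fiberwise_of_maps_to hmaps]
  refine sum_congr rfl fun J _ => ?_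
  have h4 : ∑ M' ∈ RG n 1 with (es M ∩ es M').card = J, Real.exp (phi n d (es M ∩ es M').card) =
      ∑ M' ∈ RG n 1 with (es M ∩ es M').card = J, Real.exp (phi n d J) := by
    refine sum_congr rfl fun M' hM' => ?_
    rw [(mem_filter.1 hM').2]
  rw [h4, sum_const, nsmul_eq_mul]
  congr 1
  have h5 := pm_inter hn M hM J
  have h6 : ((((RG n 1).filter (fun M' => (es M ∩ es M').card = J)).card : ℤ) : ℝ) =
      (((n / 2).choose J : ℤ) * Dn (n / 2 - J) : ℤ) := by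
    rw [← h5]
  push_cast at h6
  convert h6 using 1

end H58aux2

/-- TARGET 2 -/
theorem R2_le : ∃ C : ℝ, 1 ≤ C ∧ ∀ n d : ℕ, Even n → 3 ≤ d → C * d ≤ n →
    ((RG n d).card : ℝ) * ∑ M ∈ RG n 1, ∑ M' ∈ RG n 1, (cnt d (es M ∪ es M') ∅ : ℝ)
      ≤ (1 + (C / d ^ 3 + C / n)) * (∑ M ∈ RG n 1, (cnt d (es M) ∅ : ℝ)) ^ 2 := by
  classical
  obtain ⟨C0, hC0, hs⟩ := structure_sum 2
  obtain ⟨C1, hC1, hR⟩ := Rstar_le
  obtain ⟨C2, hC2, hρ⟩ := rho_le
  have hK0 : 0 ≤ (14 * C0 + C1 + 14 * C0 * C1) * (1 + C2) := by positivity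
  refine ⟨1 + 7 * C0 + (14 * C0 + C1 + 14 * C0 * C1) * (1 + C2) + C2, by linarith, ?_⟩
  intro n d hn hd hCd
  have hdr : (3 : ℝ) ≤ d := by exact_mod_cast hd
  have hC0d : C0 * d ≤ n := by
    refine le_trans (mul_le_mul_of_nonneg_right ?_ (by linarith)) hCd
    linarith
  have hnr : (3 : ℝ) ≤ n := by nlinarith
  have hn2 : 2 ≤ n := by
    have : 3 ≤ n := by exact_mod_cast hnr
    omega
  have hnpos : (0 : ℝ) < n := by linarith
  have hev : Even (n * d) := hn.mul_right d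
  -- the estimates of the counts
  have hst : ∀ A : Finset (Sym2 (Fin n)), Cls d 2 0 A → 0 < cnt d A ∅ ∧ 0 < cnt d (∅ : Finset (Sym2 (Fin n))) ∅ ∧
      |Real.log (cnt d A ∅) - Real.log (cnt d (∅ : Finset (Sym2 (Fin n))) ∅) -
        (ell d A ∅ - ell d (∅ : Finset (Sym2 (Fin n))) ∅)| ≤ C0 / n := fun A hA =>
    hs n d A ∅ hev (by omega) hC0d hA h58_BCls (disjoint_empty_right _)
  have hpos : ∀ M ∈ RG n 1, (0 : ℝ) < cnt d (es M) ∅ := fun M hM => by
    exact_mod_cast (hst _ (h58_Cls_one d hd M hM)).1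
  have hcomp : ∀ M ∈ RG n 1, ∀ M' ∈ RG n 1,
      (cnt d (es M) ∅ : ℝ) ≤ Real.exp (2 * C0 / n) * cnt d (es M') ∅ := by
    intro M hM M' hM'
    have e1 := (abs_le.1 (hst _ (h58_Cls_one d hd M hM)).2.2).2
    have e2 := (abs_le.1 (hst _ (h58_Cls_one d hd M' hM')).2.2).1
    have e3 := ell_one n d hn hd M M' hM hM'
    rw [← Real.exp_log (hpos M hM), ← Real.exp_log (hpos M' hM'), ← Real.exp_add]
    refine Real.exp_le_exp.2 ?_
    have e4 : 2 * C0 / (n : ℝ) = C0 / n + C0 / n := by ring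
    rw [e4]
    linarith
  have hpair : ∀ M ∈ RG n 1, ∀ M' ∈ RG n 1,
      ((RG n d).card : ℝ) * cnt d (es M ∪ es M') ∅ ≤
        cnt d (es M) ∅ * (cnt d (es M') ∅ : ℝ) *
          (Real.exp (3 * C0 / n) * Real.exp (phi n d (es M ∩ es M').card)) := by
    intro M hM M' hM'
    obtain ⟨p2, p0, q2⟩ := hst _ (h58_Cls_two d hd M M' hM hM')
    have p2' : (0 : ℝ) < cnt d (es M ∪ es M') ∅ := by exact_mod_cast p2
    have p0' : (0 : ℝ) < cnt d (∅ : Finset (Sym2 (Fin n))) ∅ := by exact_mod_cast p0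
    have e0 := (abs_le.1 q2).2
    have e1 := (abs_le.1 (hst _ (h58_Cls_one d hd M hM)).2.2).1
    have e2 := (abs_le.1 (hst _ (h58_Cls_one d hd M' hM')).2.2).1
    have e3 := ell_pm n d hn hn2 hd M M' hM hM'
    rw [← h58_cnt_empty (n := n) d]
    have l1 : (cnt d (∅ : Finset (Sym2 (Fin n))) ∅ : ℝ) * cnt d (es M ∪ es M') ∅ =
        Real.exp (Real.log (cnt d (∅ : Finset (Sym2 (Fin n))) ∅) + Real.log (cnt d (es M ∪ es M') ∅)) := by
      rw [Real.exp_add, Real.exp_log p0', Real.exp_log p2']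
    have l2 : (cnt d (es M) ∅ : ℝ) * (cnt d (es M') ∅ : ℝ) *
        (Real.exp (3 * C0 / n) * Real.exp (phi n d (es M ∩ es M').card)) =
        Real.exp (Real.log (cnt d (es M) ∅) + Real.log (cnt d (es M') ∅) +
          (3 * C0 / n + phi n d (es M ∩ es M').card)) := by
      rw [Real.exp_add, Real.exp_add, Real.exp_add, Real.exp_log (hpos M hM), Real.exp_log (hpos M' hM')]
    rw [l1, l2]
    refine Real.exp_le_exp.2 ?_
    have e4 : 3 * C0 / (n : ℝ) = C0 / n + C0 / n + C0 / n := by ring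
    rw [e4]
    linarith
  -- the sum over the second matching
  have hρ' := hρ d hdr
  have hfib : ∀ M ∈ RG n 1, ∑ M' ∈ RG n 1, Real.exp (phi n d (es M ∩ es M').card) ≤
      ((n - 1).doubleFactorial : ℝ) * (1 + C2 / (d : ℝ) ^ 3) * (1 + C1 / n) := by
    intro M hM
    rw [h58_fiber hn d M hM]
    refine (hR n d hn hn2 hd).trans ?_
    refine mul_le_mul_of_nonneg_right (mul_le_mul_of_nonneg_left hρ' (by positivity)) (by positivity)
  have hcard : ((RG n 1).card : ℝ) = ((n - 1).doubleFactorial : ℝ) := by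
    have h := pm_cnt (n := n) hn ∅ (fun e he => by simp at he) (fun v => by
      unfold dg
      rw [h58_nbr_empty]
      simp)
    have h' : (RG n 1).filter (fun M => (∅ : Finset (Sym2 (Fin n))) ⊆ es M) = RG n 1 :=
      filter_true_of_mem fun M _ => empty_subset _
    have h'' : (RG n 1).card = (n - 1).doubleFactorial := by
      rw [card_empty, mul_zero, Nat.sub_zero] at h
      rw [← h]
      congr 1
      ext M
      simp
    exact_mod_cast h''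
  have hsq : ((n - 1).doubleFactorial : ℝ) * ∑ M ∈ RG n 1, (cnt d (es M) ∅ : ℝ) ^ 2 ≤
      Real.exp (2 * C0 / n) * (∑ M ∈ RG n 1, (cnt d (es M) ∅ : ℝ)) ^ 2 := by
    rw [mul_sum]
    have : Real.exp (2 * C0 / n) * (∑ M ∈ RG n 1, (cnt d (es M) ∅ : ℝ)) ^ 2 =
        ∑ M ∈ RG n 1, (cnt d (es M) ∅ : ℝ) *
          (Real.exp (2 * C0 / n) * ∑ M' ∈ RG n 1, (cnt d (es M') ∅ : ℝ)) := by
      rw [← sum_mul]; ring
    rw [this]
    refine sum_le_sum fun M hM => ?_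
    have h1 : ((n - 1).doubleFactorial : ℝ) * (cnt d (es M) ∅ : ℝ) ≤
        Real.exp (2 * C0 / n) * ∑ M' ∈ RG n 1, (cnt d (es M') ∅ : ℝ) := by
      rw [← hcard, ← nsmul_eq_mul, ← sum_const, mul_sum]
      exact sum_le_sum fun M' hM' => hcomp M hM M' hM'
    calc ((n - 1).doubleFactorial : ℝ) * (cnt d (es M) ∅ : ℝ) ^ 2
        = (cnt d (es M) ∅ : ℝ) * (((n - 1).doubleFactorial : ℝ) * (cnt d (es M) ∅ : ℝ)) := by ring
      _ ≤ _ := mul_le_mul_of_nonneg_left h1 (by positivity)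
  have hexp7 : Real.exp (3 * C0 / n) * Real.exp (2 * C0 / n) * Real.exp (2 * C0 / n) =
      Real.exp (7 * C0 / n) := by
    rw [← Real.exp_add, ← Real.exp_add]
    congr 1
    ring
  have hX : 0 ≤ (1 + C2 / (d : ℝ) ^ 3) * (1 + C1 / n) := by positivity
  calc ((RG n d).card : ℝ) * ∑ M ∈ RG n 1, ∑ M' ∈ RG n 1, (cnt d (es M ∪ es M') ∅ : ℝ)
      = ∑ M ∈ RG n 1, ∑ M' ∈ RG n 1, ((RG n d).card : ℝ) * (cnt d (es M ∪ es M') ∅ : ℝ) := by
        rw [mul_sum]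
        exact sum_congr rfl fun M _ => mul_sum _ _ _
    _ ≤ ∑ M ∈ RG n 1, ∑ M' ∈ RG n 1, (cnt d (es M) ∅ : ℝ) ^ 2 *
          (Real.exp (3 * C0 / n) * Real.exp (2 * C0 / n)) *
            Real.exp (phi n d (es M ∩ es M').card) := by
        refine sum_le_sum fun M hM => sum_le_sum fun M' hM' => (hpair M hM M' hM').trans ?_
        have h1 := hcomp M' hM' M hM
        have h2 : (0 : ℝ) ≤ cnt d (es M) ∅ := (hpos M hM).le
        calc (cnt d (es M) ∅ : ℝ) * (cnt d (es M') ∅ : ℝ) *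
              (Real.exp (3 * C0 / n) * Real.exp (phi n d (es M ∩ es M').card))
            ≤ (cnt d (es M) ∅ : ℝ) * (Real.exp (2 * C0 / n) * cnt d (es M) ∅) *
              (Real.exp (3 * C0 / n) * Real.exp (phi n d (es M ∩ es M').card)) :=
              mul_le_mul_of_nonneg_right (mul_le_mul_of_nonneg_left h1 h2) (by positivity)
          _ = _ := by ring
    _ = ∑ M ∈ RG n 1, (cnt d (es M) ∅ : ℝ) ^ 2 *
          (Real.exp (3 * C0 / n) * Real.exp (2 * C0 / n)) *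
            ∑ M' ∈ RG n 1, Real.exp (phi n d (es M ∩ es M').card) :=
        sum_congr rfl fun M _ => (mul_sum _ _ _).symm
    _ ≤ ∑ M ∈ RG n 1, (cnt d (es M) ∅ : ℝ) ^ 2 *
          (Real.exp (3 * C0 / n) * Real.exp (2 * C0 / n)) *
            (((n - 1).doubleFactorial : ℝ) * (1 + C2 / (d : ℝ) ^ 3) * (1 + C1 / n)) :=
        sum_le_sum fun M hM => mul_le_mul_of_nonneg_left (hfib M hM) (by positivity)
    _ = (((n - 1).doubleFactorial : ℝ) * ∑ M ∈ RG n 1, (cnt d (es M) ∅ : ℝ) ^ 2) *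
          ((Real.exp (3 * C0 / n) * Real.exp (2 * C0 / n)) *
            ((1 + C2 / (d : ℝ) ^ 3) * (1 + C1 / n))) := by
        rw [← sum_mul, ← sum_mul]; ring
    _ ≤ (Real.exp (2 * C0 / n) * (∑ M ∈ RG n 1, (cnt d (es M) ∅ : ℝ)) ^ 2) *
          ((Real.exp (3 * C0 / n) * Real.exp (2 * C0 / n)) *
            ((1 + C2 / (d : ℝ) ^ 3) * (1 + C1 / n))) :=
        mul_le_mul_of_nonneg_right hsq (by positivity)
    _ = (Real.exp (7 * C0 / n) * (1 + C2 / (d : ℝ) ^ 3) * (1 + C1 / n)) *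
          (∑ M ∈ RG n 1, (cnt d (es M) ∅ : ℝ)) ^ 2 := by
        rw [← hexp7]; ring
    _ ≤ _ := mul_le_mul_of_nonneg_right (h58_const C0 C1 C2 hC0 hC1 hC2 n d hd hCd) (sq_nonneg _)

end MU2

export MU2 (ell_one R2_le)

end Pool.Agent.H698NC
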