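import Pool.Agent.H698NC.PD
import Pool.Agent.H698NC.U1
import Pool.Agent.H698NC.U2
import Pool.Agent.H698NC.Q5
import Pool.Agent.H698NC.E

set_option autoImplicit false

namespace Pool.Agent.H698NC

open Finset

namespace MQ2

variable {n : ℕ}

theorem q2_nbr_union (A B : Finset (Sym2 (Fin n))) (v : Fin n) :
    nbr (A ∪ B) v = nbr A v ∪ nbr B v := by
  ext w
  simp [nbr]

theorem q2_nbr_inter (A B : Finset (Sym2 (Fin n))) (v : Fin n) :
    nbr (A ∩ B) v = nbr A v ∩ nbr B v := by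
  ext w
  simp [nbr]

theorem q2_dg (A B : Finset (Sym2 (Fin n))) (v : Fin n) :
    dg (A ∪ B) v + dg (A ∩ B) v = dg A v + dg B v := by
  unfold dg
  rw [q2_nbr_union, q2_nbr_inter]
  exact Finset.card_union_add_card_inter _ _

theorem q2_hand {C : Finset (Sym2 (Fin n))} (hC : ND C) : ∑ v, dg C v = 2 * C.card := by
  classical
  have h1 : ∑ v, dg C v = ((univ : Finset (Fin n × Fin n)).filter (fun p => s(p.1, p.2) ∈ C)).card := by
    rw [Finset.card_filter, Fintype.sum_prod_type]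
    refine Finset.sum_congr rfl fun v _ => ?_
    unfold dg nbr
    rw [Finset.card_filter]
  have h0 : ∀ p ∈ ((univ : Finset (Fin n × Fin n)).filter (fun p => s(p.1, p.2) ∈ C)),
      (fun p : Fin n × Fin n => s(p.1, p.2)) p ∈ C := fun p hp => (Finset.mem_filter.1 hp).2
  rw [h1, Finset.card_eq_sum_card_fiberwise h0]
  have h2 : ∀ e ∈ C, (((univ : Finset (Fin n × Fin n)).filter (fun p => s(p.1, p.2) ∈ C)).filter
      (fun p => s(p.1, p.2) = e)).card = 2 := by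
    intro e he
    have hd := hC e he
    induction e using Sym2.ind with
    | _ a b =>
      have hab : a ≠ b := fun h => hd (by rw [h]; exact Sym2.mk_isDiag_iff.2 rfl)
      have h3 : (((univ : Finset (Fin n × Fin n)).filter (fun p => s(p.1, p.2) ∈ C)).filter
        (fun p => s(p.1, p.2) = s(a, b))) = {(a, b), (b, a)} := by
        ext ⟨x, y⟩
        simp only [mem_filter, mem_univ, true_and, mem_insert, mem_singleton, Prod.mk.injEq,
          Sym2.eq_iff]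
        constructor
        · rintro ⟨-, h⟩
          exact h
        · intro h
          refine ⟨?_, h⟩
          rcases h with ⟨rfl, rfl⟩ | ⟨rfl, rfl⟩
          · exact he
          · rw [Sym2.eq_swap]; exact he
      rw [h3, Finset.card_pair]
      intro h
      exact hab (Prod.mk.inj h).1
  rw [Finset.sum_congr rfl h2, Finset.sum_const, smul_eq_mul, mul_comm]

theorem q2_iff {A C : Finset (Sym2 (Fin n))} (hA : ∀ v, dg A v = 1) (hCA : C ⊆ A) {v w : Fin n}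
    (h : s(v, w) ∈ A) : dg C v = 1 ↔ s(v, w) ∈ C := by
  have hsub : nbr C v ⊆ nbr A v := by
    intro x hx
    simp only [nbr, mem_filter, mem_univ, true_and] at hx ⊢
    exact hCA hx
  have hw : w ∈ nbr A v := by simpa [nbr] using h
  obtain ⟨w', hw'⟩ := Finset.card_eq_one.1 (hA v)
  rw [hw', mem_singleton] at hw
  subst hw
  rw [hw'] at hsub
  constructor
  · intro h1
    obtain ⟨x, hx⟩ := Finset.card_eq_one.1 h1
    have : x ∈ ({w} : Finset (Fin n)) := hsub (by rw [hx]; exact mem_singleton_self x)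
    rw [mem_singleton] at this
    subst this
    have h2 : x ∈ nbr C v := by rw [hx]; exact mem_singleton_self x
    simpa [nbr] using h2
  · intro h1
    have h2 : w ∈ nbr C v := by simpa [nbr] using h1
    unfold dg
    rw [Finset.card_eq_one]
    exact ⟨w, Finset.Subset.antisymm hsub (Finset.singleton_subset_iff.2 h2)⟩

/-- the data of the union of two perfect matchings -/
theorem q2_data {A1 A2 : Finset (Sym2 (Fin n))} (h1 : ∀ v, dg A1 v = 1)
    (h2 : ∀ v, dg A2 v = 1) (n1 : ND A1) :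
    ∃ c : Fin n → ℕ, (∀ v, c v ≤ 1) ∧ (∀ v, dg (A1 ∪ A2) v = 2 - c v) ∧
      ∑ v, c v = 2 * (A1 ∩ A2).card ∧ (∀ v, ∀ w ∈ nbr (A1 ∪ A2) v, c w = c v) := by
  have hle : ∀ v, dg (A1 ∩ A2) v ≤ 1 := by
    intro v
    rw [← h1 v]
    unfold dg
    apply Finset.card_le_card
    rw [q2_nbr_inter]
    exact Finset.inter_subset_left
  refine ⟨dg (A1 ∩ A2), hle, ?_, ?_, ?_⟩
  · intro v
    have := q2_dg A1 A2 v
    rw [h1, h2] at this
    omega
  · exact q2_hand (fun e he => n1 e (Finset.mem_inter.1 he).1)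
  · intro v w hw
    have hw' : s(v, w) ∈ A1 ∪ A2 := by simpa [nbr] using hw
    have key : dg (A1 ∩ A2) v = 1 ↔ dg (A1 ∩ A2) w = 1 := by
      rcases Finset.mem_union.1 hw' with h | h
      · have e1 := q2_iff h1 (Finset.inter_subset_left (s₂ := A2)) h
        have h' : s(w, v) ∈ A1 := by rw [Sym2.eq_swap]; exact h
        have e2 := q2_iff h1 (Finset.inter_subset_left (s₂ := A2)) h'
        rw [e1, e2, Sym2.eq_swap]
      · have e1 := q2_iff h2 (Finset.inter_subset_right (s₁ := A1)) h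
        have h' : s(w, v) ∈ A2 := by rw [Sym2.eq_swap]; exact h
        have e2 := q2_iff h2 (Finset.inter_subset_right (s₁ := A1)) h'
        rw [e1, e2, Sym2.eq_swap]
    have hv := hle v
    have hw := hle w
    omega

theorem q2_nbr_empty (v : Fin n) : nbr (∅ : Finset (Sym2 (Fin n))) v = ∅ := by
  simp [nbr]

theorem q2_cnt_empty (d : ℕ) : cnt d (∅ : Finset (Sym2 (Fin n))) ∅ = (RG n d).card := by
  classical
  unfold cnt
  congr 1
  exact Finset.filter_true_of_mem fun G _ => by simp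

theorem q2_dg_union (A A' : Finset (Sym2 (Fin n))) (v : Fin n) :
    dg (A ∪ A') v ≤ dg A v + dg A' v := by
  unfold dg
  refine le_trans (Finset.card_le_card ?_) (Finset.card_union_le _ _)
  intro w hw
  simp only [nbr, Finset.mem_filter, Finset.mem_univ, true_and, Finset.mem_union] at hw ⊢
  exact hw

theorem q2_BCls : BCls 2 (∅ : Finset (Sym2 (Fin n))) := by
  refine ⟨fun e he => by simp at he, fun v => ?_⟩
  unfold dg
  rw [q2_nbr_empty]
  simp

theorem q2_Cls_one (d : ℕ) (hd : 3 ≤ d) (M : SimpleGraph (Fin n)) (hM : M ∈ RG n 1) :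
    Cls d 2 0 (es M) := by
  obtain ⟨h1, h2, h3⟩ := es_pm M hM
  refine ⟨h1, fun v => ?_, fun v => ?_, ?_⟩
  · rw [h2 v]; omega
  · rw [h2 v]; omega
  · omega

theorem q2_Cls_two (d : ℕ) (hd : 3 ≤ d) (M M' : SimpleGraph (Fin n)) (hM : M ∈ RG n 1)
    (hM' : M' ∈ RG n 1) : Cls d 2 0 (es M ∪ es M') := by
  obtain ⟨h1, h2, h3⟩ := es_pm M hM
  obtain ⟨h1', h2', h3'⟩ := es_pm M' hM'
  have hdg : ∀ v, dg (es M ∪ es M') v ≤ 2 := fun v => by
    have := q2_dg_union (es M) (es M') v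
    rw [h2 v, h2' v] at this
    omega
  refine ⟨fun e he => ?_, fun v => ?_, fun v => ?_, ?_⟩
  · rcases Finset.mem_union.1 he with h | h
    · exact h1 e h
    · exact h1' e h
  · have := hdg v; omega
  · have := hdg v; omega
  · have := Finset.card_union_le (es M) (es M')
    omega

theorem q2_const (C0 C1 C2 : ℝ) (h0 : 1 ≤ C0) (h1 : 0 ≤ C1) (h2 : 0 ≤ C2) (n d : ℕ) (hd : 3 ≤ d)
    (hn : (1 + 7 * C0 + (14 * C0 + C1 + 14 * C0 * C1) * (1 + C2) + C2) * d ≤ n) :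
    Real.exp (7 * C0 / n) * (1 + C2 / (d : ℝ) ^ 3) * (1 + C1 / n) ≤
      1 + ((1 + 7 * C0 + (14 * C0 + C1 + 14 * C0 * C1) * (1 + C2) + C2) / (d : ℝ) ^ 3 +
        (1 + 7 * C0 + (14 * C0 + C1 + 14 * C0 * C1) * (1 + C2) + C2) / n) := by
  have hdr : (3 : ℝ) ≤ d := by exact_mod_cast hd
  have hK0 : 0 ≤ 14 * C0 + C1 + 14 * C0 * C1 := by positivity
  have hnK : 7 * C0 * d ≤ n := by
    refine le_trans (mul_le_mul_of_nonneg_right ?_ (by linarith)) hn
    have : 0 ≤ (14 * C0 + C1 + 14 * C0 * C1) * (1 + C2) := by positivity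
    linarith
  have hn1 : 7 * C0 ≤ n := by nlinarith
  have hnpos : (0 : ℝ) < n := by linarith
  have hn1' : (1 : ℝ) ≤ n := by linarith
  have hx : 7 * C0 / (n : ℝ) ≤ 1 := by rw [div_le_one hnpos]; exact hn1
  have hx0 : 0 ≤ 7 * C0 / (n : ℝ) := by positivity
  have hexp : Real.exp (7 * C0 / n) ≤ 1 + 14 * C0 / n := by
    have h := Real.abs_exp_sub_one_sub_id_le (x := 7 * C0 / (n : ℝ)) (by rw [abs_of_nonneg hx0]; exact hx)
    have h' := (abs_le.1 h).2
    have h3 : (7 * C0 / (n : ℝ)) ^ 2 ≤ 7 * C0 / (n : ℝ) := by nlinarith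
    have h4 : 14 * C0 / (n : ℝ) = 2 * (7 * C0 / (n : ℝ)) := by ring
    rw [h4]
    linarith
  have hu : 0 ≤ 1 / (n : ℝ) := by positivity
  have hu1 : 1 / (n : ℝ) ≤ 1 := by rw [div_le_one hnpos]; exact hn1'
  have hv : 0 ≤ 1 / (d : ℝ) ^ 3 := by positivity
  have hv1 : 1 / (d : ℝ) ^ 3 ≤ 1 := by
    rw [div_le_one (by positivity)]
    exact one_le_pow₀ (by linarith)
  have e1 : (1 + 14 * C0 / (n : ℝ)) * (1 + C1 / n) ≤ 1 + (14 * C0 + C1 + 14 * C0 * C1) * (1 / (n : ℝ)) := by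
    have : (1 + 14 * C0 / (n : ℝ)) * (1 + C1 / n) =
        1 + (14 * C0 + C1) * (1 / (n : ℝ)) + 14 * C0 * C1 * (1 / (n : ℝ) * (1 / (n : ℝ))) := by ring
    rw [this]
    have h5 : 1 / (n : ℝ) * (1 / (n : ℝ)) ≤ 1 / (n : ℝ) := by nlinarith
    have h6 : 14 * C0 * C1 * (1 / (n : ℝ) * (1 / (n : ℝ))) ≤ 14 * C0 * C1 * (1 / (n : ℝ)) :=
      mul_le_mul_of_nonneg_left h5 (by positivity)
    linarith
  calc Real.exp (7 * C0 / n) * (1 + C2 / (d : ℝ) ^ 3) * (1 + C1 / n)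
      ≤ (1 + 14 * C0 / n) * (1 + C2 / (d : ℝ) ^ 3) * (1 + C1 / n) := by
        refine mul_le_mul_of_nonneg_right (mul_le_mul_of_nonneg_right hexp (by positivity)) (by positivity)
    _ = ((1 + 14 * C0 / n) * (1 + C1 / n)) * (1 + C2 * (1 / (d : ℝ) ^ 3)) := by ring
    _ ≤ (1 + (14 * C0 + C1 + 14 * C0 * C1) * (1 / (n : ℝ))) * (1 + C2 * (1 / (d : ℝ) ^ 3)) :=
        mul_le_mul_of_nonneg_right e1 (by positivity)
    _ = 1 + (14 * C0 + C1 + 14 * C0 * C1) * (1 / (n : ℝ)) + C2 * (1 / (d : ℝ) ^ 3) +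
          (14 * C0 + C1 + 14 * C0 * C1) * C2 * (1 / (n : ℝ) * (1 / (d : ℝ) ^ 3)) := by ring
    _ ≤ 1 + (14 * C0 + C1 + 14 * C0 * C1) * (1 / (n : ℝ)) + C2 * (1 / (d : ℝ) ^ 3) +
          (14 * C0 + C1 + 14 * C0 * C1) * C2 * (1 / (n : ℝ)) := by
        have h7 : 1 / (n : ℝ) * (1 / (d : ℝ) ^ 3) ≤ 1 / (n : ℝ) := by nlinarith
        have h8 := mul_le_mul_of_nonneg_left h7
          (show 0 ≤ (14 * C0 + C1 + 14 * C0 * C1) * C2 by positivity)
        linarith
    _ ≤ _ := by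
        have h9 : (1 + 7 * C0 + (14 * C0 + C1 + 14 * C0 * C1) * (1 + C2) + C2) / (d : ℝ) ^ 3 +
            (1 + 7 * C0 + (14 * C0 + C1 + 14 * C0 * C1) * (1 + C2) + C2) / n =
            (1 + 7 * C0 + (14 * C0 + C1 + 14 * C0 * C1) * (1 + C2) + C2) * (1 / (d : ℝ) ^ 3) +
            (1 + 7 * C0 + (14 * C0 + C1 + 14 * C0 * C1) * (1 + C2) + C2) * (1 / (n : ℝ)) := by ring
        rw [h9]
        have h10 : 0 ≤ (1 + 7 * C0 + (14 * C0 + C1 + 14 * C0 * C1) * (1 + C2)) * (1 / (d : ℝ) ^ 3) := by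
          positivity
        have h11 : 0 ≤ (1 + 7 * C0 + C2) * (1 / (n : ℝ)) := by positivity
        linarith

/-- the sums for the union of two perfect matchings -/
theorem q2_sums {A : Finset (Sym2 (Fin n))} {c : Fin n → ℕ}
    (hc : ∀ v, c v ≤ 1) (hA : ∀ v, dg A v = 2 - c v) (hw : ∀ v, ∀ w ∈ nbr A v, c w = c v) {J : ℕ}
    (hJ : ∑ v, c v = 2 * J) :
    W0 A = 2 * n - 2 * J ∧ W1 A = 4 * n - 6 * J ∧ W3 A = 8 * n - 14 * J ∧ W2 A = 4 * n - 7 * J := by
  have hJ' : ∑ v, (c v : ℝ) = 2 * J := by exact_mod_cast hJ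
  have hn : ∑ _v : Fin n, (1 : ℝ) = n := by simp
  have hdg : ∀ v, (dg A v : ℝ) = 2 - c v := by
    intro v
    rw [hA, Nat.cast_sub ((hc v).trans (by norm_num))]
    norm_num
  have hcc : ∀ v, (c v : ℝ) * c v = c v := by
    intro v
    have : c v = 0 ∨ c v = 1 := by have := hc v; omega
    rcases this with h | h <;> rw [h] <;> simp
  have hN : ∀ v, ∑ w ∈ nbr A v, (dg A w : ℝ) = (2 - c v) * (2 - c v) := by
    intro v
    have h1 : ∀ w ∈ nbr A v, (dg A w : ℝ) = 2 - c v := by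
      intro w hwv
      rw [hdg, hw v w hwv]
    rw [Finset.sum_congr rfl h1, Finset.sum_const, nsmul_eq_mul]
    congr 1
    exact hdg v
  refine ⟨?_, ?_, ?_, ?_⟩
  · unfold W0
    rw [Finset.sum_congr rfl fun v _ => hdg v, Finset.sum_sub_distrib, hJ']
    simp [mul_comm]
  · unfold W1
    have : ∀ v, (dg A v : ℝ) ^ 2 = 4 * 1 - 3 * c v := by
      intro v
      rw [hdg]
      linear_combination hcc v
    rw [Finset.sum_congr rfl fun v _ => this v, Finset.sum_sub_distrib, ← Finset.mul_sum,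
      ← Finset.mul_sum, hJ', hn]
    ring
  · unfold W3
    have : ∀ v, (dg A v : ℝ) ^ 3 = 8 * 1 - 7 * c v := by
      intro v
      rw [hdg]
      have h1 := hcc v
      have h2 : (c v : ℝ) * c v * c v = c v := by rw [h1, h1]
      linear_combination 6 * h1 - h2
    rw [Finset.sum_congr rfl fun v _ => this v, Finset.sum_sub_distrib, ← Finset.mul_sum,
      ← Finset.mul_sum, hJ', hn]
    ring
  · unfold W2
    have : ∀ v, (dg A v : ℝ) * ∑ w ∈ nbr A v, (dg A w : ℝ) = 8 * 1 - 7 * c v := by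
      intro v
      rw [hN, hdg]
      have h1 := hcc v
      have h2 : (c v : ℝ) * c v * c v = c v := by rw [h1, h1]
      linear_combination 6 * h1 - h2
    rw [Finset.sum_congr rfl fun v _ => this v, Finset.sum_sub_distrib, ← Finset.mul_sum,
      ← Finset.mul_sum, hJ', hn]
    ring

/-- the sums for a perfect matching -/
theorem q2_sum1 {A : Finset (Sym2 (Fin n))} (hA : ∀ v, dg A v = 1) :
    W0 A = n ∧ W1 A = n ∧ W3 A = n ∧ W2 A = n / 2 := by
  have hn : ∑ _v : Fin n, (1 : ℝ) = n := by simp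
  have hdg : ∀ v, (dg A v : ℝ) = 1 := by intro v; rw [hA]; norm_num
  refine ⟨?_, ?_, ?_, ?_⟩
  · unfold W0
    rw [Finset.sum_congr rfl fun v _ => hdg v, hn]
  · unfold W1
    rw [Finset.sum_congr rfl fun v _ => (by rw [hdg]; norm_num : (dg A v : ℝ) ^ 2 = 1), hn]
  · unfold W3
    rw [Finset.sum_congr rfl fun v _ => (by rw [hdg]; norm_num : (dg A v : ℝ) ^ 3 = 1), hn]
  · unfold W2
    have : ∀ v, (dg A v : ℝ) * ∑ w ∈ nbr A v, (dg A w : ℝ) = 1 := by
      intro v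
      rw [Finset.sum_congr rfl fun w _ => hdg w, hdg, Finset.sum_const, nsmul_eq_mul, mul_one, one_mul]
      exact hdg v
    rw [Finset.sum_congr rfl fun v _ => this v, hn]

theorem q2_bt (v : Fin n) : bt (∅ : Finset (Sym2 (Fin n))) v = 0 := by
  unfold bt W0 dg
  simp [q2_nbr_empty]

theorem q2_Gam (d : ℕ) (A : Finset (Sym2 (Fin n))) : Gam d A ∅ = WW A := by
  unfold Gam SB
  simp [q2_bt]

theorem q2_WW0 : WW (∅ : Finset (Sym2 (Fin n))) = 0 := by
  unfold WW W0 W1 W2 W3 dg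
  simp [q2_nbr_empty]

/-- TARGET 1 -/
theorem WW_pm (hn : Even n) (M M' : SimpleGraph (Fin n)) (hM : M ∈ RG n 1) (hM' : M' ∈ RG n 1) :
    WW (es M) = -(n : ℝ) / 12 ∧ WW (es M ∪ es M') = n * (gp (2 * ((es M ∩ es M').card : ℝ) / n) - 1 / 6) := by
  obtain ⟨a1, a2, a3⟩ := es_pm M hM
  obtain ⟨b1, b2, b3⟩ := es_pm M' hM'
  rcases Nat.eq_zero_or_pos n with h0 | h0
  · subst h0
    constructor <;> simp [WW, W0, W1, W2, W3]
  have hn0 : (n : ℝ) ≠ 0 := by exact_mod_cast h0.ne'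
  obtain ⟨e0, e1, e3, e2⟩ := q2_sum1 a2
  obtain ⟨c, hc, hA, hJ, hw⟩ := q2_data a2 b2 a1
  obtain ⟨f0, f1, f3, f2⟩ := q2_sums hc hA hw hJ
  constructor
  · unfold WW
    rw [e0, e1, e2, e3]
    field_simp
    ring
  · unfold WW gp
    rw [f0, f1, f2, f3]
    field_simp
    ring

/-- TARGET 2 -/
theorem ellp_pm (n d : ℕ) (hn : Even n) (h2 : 2 ≤ n) (hd : 3 ≤ d) (M M' : SimpleGraph (Fin n)) (hM : M ∈ RG n 1) (hM' : M' ∈ RG n 1) :
    ellp d (es M ∪ es M') ∅ - ellp d (es M) ∅ - ellp d (es M') ∅ + ellp d (∅ : Finset (Sym2 (Fin n))) ∅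
      = phi n d (es M ∩ es M').card + gp (2 * ((es M ∩ es M').card : ℝ) / n) / n := by
  have h := ell_pm n d hn h2 hd M M' hM hM'
  obtain ⟨w1, w2⟩ := WW_pm hn M M' hM hM'
  have w3 := (WW_pm hn M' M hM' hM).1
  have hn0 : (n : ℝ) ≠ 0 := by
    have : n ≠ 0 := by omega
    exact_mod_cast this
  unfold ellp
  rw [q2_Gam, q2_Gam, q2_Gam, q2_Gam, q2_WW0, w1, w2, w3]
  have e : (n * (gp (2 * ((es M ∩ es M').card : ℝ) / n) - 1 / 6)) / (n : ℝ) ^ 2
      - (-(n : ℝ) / 12) / (n : ℝ) ^ 2 - (-(n : ℝ) / 12) / (n : ℝ) ^ 2 + 0 / (n : ℝ) ^ 2 =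
      gp (2 * ((es M ∩ es M').card : ℝ) / n) / n := by
    generalize gp (2 * ((es M ∩ es M').card : ℝ) / n) = g
    field_simp
    ring
  linear_combination h + e

theorem q2_ellp_one (n d : ℕ) (hn : Even n) (hd : 3 ≤ d) (M M' : SimpleGraph (Fin n))
    (hM : M ∈ RG n 1) (hM' : M' ∈ RG n 1) : ellp d (es M) ∅ = ellp d (es M') ∅ := by
  unfold ellp
  rw [q2_Gam, q2_Gam, (WW_pm hn M M' hM hM').1, (WW_pm hn M' M hM' hM).1, ell_one n d hn hd M M' hM hM']

theorem q2_fiber (hn : Even n) (f : ℕ → ℝ) (M : SimpleGraph (Fin n)) (hM : M ∈ RG n 1) :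
    ∑ M' ∈ RG n 1, f (es M ∩ es M').card =
      ∑ J ∈ range (n / 2 + 1), ((n / 2).choose J : ℝ) * (Dn (n / 2 - J) : ℝ) * f J := by
  classical
  obtain ⟨h1, h2, h3⟩ := es_pm M hM
  have hmaps : ∀ M' ∈ RG n 1, (es M ∩ es M').card ∈ range (n / 2 + 1) := by
    intro M' _
    rw [mem_range]
    have : (es M ∩ es M').card ≤ (es M).card := card_le_card inter_subset_left
    omega
  rw [← sum_fiberwise_of_maps_to hmaps]
  refine sum_congr rfl fun J _ => ?_
  have h4 : ∑ M' ∈ RG n 1 with (es M ∩ es M').card = J, f (es M ∩ es M').card =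
      ∑ M' ∈ RG n 1 with (es M ∩ es M').card = J, f J := by
    refine sum_congr rfl fun M' hM' => ?_
    rw [(mem_filter.1 hM').2]
  rw [h4, sum_const, nsmul_eq_mul]
  congr 1
  have h5 := pm_inter hn M hM J
  have h6 : ((((RG n 1).filter (fun M' => (es M ∩ es M').card = J)).card : ℤ) : ℝ) =
      (((n / 2).choose J : ℤ) * Dn (n / 2 - J) : ℤ) := by
    rw [← h5]
  push_cast at h6
  convert h6 using 1

/-- TARGET 3 -/
theorem R2p_le : ∃ C : ℝ, 1 ≤ C ∧ ∀ n d : ℕ, Even n → 3 ≤ d → C * d ≤ n →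
    ((RG n d).card : ℝ) * ∑ M ∈ RG n 1, ∑ M' ∈ RG n 1, (cnt d (es M ∪ es M') ∅ : ℝ)
      ≤ (1 + (C / d ^ 3 + C / (n * d))) * (∑ M ∈ RG n 1, (cnt d (es M) ∅ : ℝ)) ^ 2 := by
  classical
  obtain ⟨C0, hC0, hs⟩ := structure_sump 2
  obtain ⟨C1, hC1, hR⟩ := Rstarp_le
  obtain ⟨C2, hC2, hρ⟩ := rho_le
  have hC1' : 0 ≤ C1 := by linarith
  have hK0 : 0 ≤ (14 * C0 + C1 + 14 * C0 * C1) * (1 + C2) := by positivity
  refine ⟨1 + 7 * C0 + (14 * C0 + C1 + 14 * C0 * C1) * (1 + C2) + C2, by linarith, ?_⟩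
  intro n d hn hd hCd
  have hdr : (3 : ℝ) ≤ d := by exact_mod_cast hd
  have hC0d : C0 * d ≤ n := by
    refine le_trans (mul_le_mul_of_nonneg_right ?_ (by linarith)) hCd
    linarith
  have hnr : (3 : ℝ) ≤ n := by nlinarith
  have hn2 : 2 ≤ n := by
    have : 3 ≤ n := by exact_mod_cast hnr
    omega
  have hnpos : (0 : ℝ) < n := by linarith
  have hev : Even (n * d) := hn.mul_right d
  have hdn : d ≤ n := by
    have : (d : ℝ) ≤ n := by nlinarith
    exact_mod_cast this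
  have hKK : C1 ≤ 1 + 7 * C0 + (14 * C0 + C1 + 14 * C0 * C1) * (1 + C2) + C2 := by
    have h1 : 0 ≤ (14 * C0 + C1 + 14 * C0 * C1) * C2 := by positivity
    have h2 : 0 ≤ 14 * C0 * C1 := by positivity
    nlinarith
  have hC1n : C1 ≤ n := by
    have h1 : C1 * d ≤ n := le_trans (mul_le_mul_of_nonneg_right hKK (by linarith)) hCd
    nlinarith
  obtain ⟨F, hF⟩ : ∃ F : ℕ → ℝ, F = fun J : ℕ => phi n d J + gp (2 * (J : ℝ) / n) / n := ⟨_, rfl⟩
  -- the estimates of the counts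
  have hst : ∀ A : Finset (Sym2 (Fin n)), Cls d 2 0 A → 0 < cnt d A ∅ ∧ 0 < cnt d (∅ : Finset (Sym2 (Fin n))) ∅ ∧
      |Real.log (cnt d A ∅) - Real.log (cnt d (∅ : Finset (Sym2 (Fin n))) ∅) -
        (ellp d A ∅ - ellp d (∅ : Finset (Sym2 (Fin n))) ∅)| ≤ C0 / (n * d) := fun A hA =>
    hs n d A ∅ hev (by omega) hC0d hA q2_BCls (disjoint_empty_right _)
  have hpos : ∀ M ∈ RG n 1, (0 : ℝ) < cnt d (es M) ∅ := fun M hM => by
    exact_mod_cast (hst _ (q2_Cls_one d hd M hM)).1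
  have hcomp : ∀ M ∈ RG n 1, ∀ M' ∈ RG n 1,
      (cnt d (es M) ∅ : ℝ) ≤ Real.exp (2 * C0 / (n * d)) * cnt d (es M') ∅ := by
    intro M hM M' hM'
    have e1 := (abs_le.1 (hst _ (q2_Cls_one d hd M hM)).2.2).2
    have e2 := (abs_le.1 (hst _ (q2_Cls_one d hd M' hM')).2.2).1
    have e3 := q2_ellp_one n d hn hd M M' hM hM'
    rw [← Real.exp_log (hpos M hM), ← Real.exp_log (hpos M' hM'), ← Real.exp_add]
    refine Real.exp_le_exp.2 ?_
    have e4 : 2 * C0 / ((n : ℝ) * d) = C0 / (n * d) + C0 / (n * d) := by ring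
    rw [e4]
    linarith
  have hpair : ∀ M ∈ RG n 1, ∀ M' ∈ RG n 1,
      ((RG n d).card : ℝ) * cnt d (es M ∪ es M') ∅ ≤
        cnt d (es M) ∅ * (cnt d (es M') ∅ : ℝ) *
          (Real.exp (3 * C0 / (n * d)) * Real.exp (F (es M ∩ es M').card)) := by
    intro M hM M' hM'
    obtain ⟨p2, p0, q2⟩ := hst _ (q2_Cls_two d hd M M' hM hM')
    have p2' : (0 : ℝ) < cnt d (es M ∪ es M') ∅ := by exact_mod_cast p2
    have p0' : (0 : ℝ) < cnt d (∅ : Finset (Sym2 (Fin n))) ∅ := by exact_mod_cast p0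
    have e0 := (abs_le.1 q2).2
    have e1 := (abs_le.1 (hst _ (q2_Cls_one d hd M hM)).2.2).1
    have e2 := (abs_le.1 (hst _ (q2_Cls_one d hd M' hM')).2.2).1
    have e3 := ellp_pm n d hn hn2 hd M M' hM hM'
    have e3' : F (es M ∩ es M').card = phi n d (es M ∩ es M').card +
        gp (2 * ((es M ∩ es M').card : ℝ) / n) / n := by rw [hF]
    rw [← e3'] at e3
    rw [← q2_cnt_empty (n := n) d]
    have l1 : (cnt d (∅ : Finset (Sym2 (Fin n))) ∅ : ℝ) * cnt d (es M ∪ es M') ∅ =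
        Real.exp (Real.log (cnt d (∅ : Finset (Sym2 (Fin n))) ∅) + Real.log (cnt d (es M ∪ es M') ∅)) := by
      rw [Real.exp_add, Real.exp_log p0', Real.exp_log p2']
    have l2 : (cnt d (es M) ∅ : ℝ) * (cnt d (es M') ∅ : ℝ) *
        (Real.exp (3 * C0 / (n * d)) * Real.exp (F (es M ∩ es M').card)) =
        Real.exp (Real.log (cnt d (es M) ∅) + Real.log (cnt d (es M') ∅) +
          (3 * C0 / (n * d) + F (es M ∩ es M').card)) := by
      rw [Real.exp_add, Real.exp_add, Real.exp_add, Real.exp_log (hpos M hM), Real.exp_log (hpos M' hM')]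
    rw [l1, l2]
    refine Real.exp_le_exp.2 ?_
    have e4 : 3 * C0 / ((n : ℝ) * d) = C0 / (n * d) + C0 / (n * d) + C0 / (n * d) := by ring
    rw [e4]
    linarith
  -- the sum over the second matching
  have hρ' := hρ d hdr
  have hfib : ∀ M ∈ RG n 1, ∑ M' ∈ RG n 1, Real.exp (F (es M ∩ es M').card) ≤
      ((n - 1).doubleFactorial : ℝ) * (1 + C2 / (d : ℝ) ^ 3) * (1 + C1 / (n * d)) := by
    intro M hM
    rw [q2_fiber hn (fun J => Real.exp (F J)) M hM, hF]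
    refine (hR n d hn hC1n hd hdn).trans ?_
    refine mul_le_mul_of_nonneg_right (mul_le_mul_of_nonneg_left hρ' (by positivity)) (by positivity)
  have hcard : ((RG n 1).card : ℝ) = ((n - 1).doubleFactorial : ℝ) := by
    have h := pm_cnt (n := n) hn ∅ (fun e he => by simp at he) (fun v => by
      unfold dg
      rw [q2_nbr_empty]
      simp)
    have h' : (RG n 1).filter (fun M => (∅ : Finset (Sym2 (Fin n))) ⊆ es M) = RG n 1 :=
      filter_true_of_mem fun M _ => empty_subset _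
    have h'' : (RG n 1).card = (n - 1).doubleFactorial := by
      rw [card_empty, mul_zero, Nat.sub_zero] at h
      rw [← h]
      congr 1
      ext M
      simp
    exact_mod_cast h''
  have hsq : ((n - 1).doubleFactorial : ℝ) * ∑ M ∈ RG n 1, (cnt d (es M) ∅ : ℝ) ^ 2 ≤
      Real.exp (2 * C0 / (n * d)) * (∑ M ∈ RG n 1, (cnt d (es M) ∅ : ℝ)) ^ 2 := by
    rw [mul_sum]
    have : Real.exp (2 * C0 / (n * d)) * (∑ M ∈ RG n 1, (cnt d (es M) ∅ : ℝ)) ^ 2 =
        ∑ M ∈ RG n 1, (cnt d (es M) ∅ : ℝ) *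
          (Real.exp (2 * C0 / (n * d)) * ∑ M' ∈ RG n 1, (cnt d (es M') ∅ : ℝ)) := by
      rw [← sum_mul]; ring
    rw [this]
    refine sum_le_sum fun M hM => ?_
    have h1 : ((n - 1).doubleFactorial : ℝ) * (cnt d (es M) ∅ : ℝ) ≤
        Real.exp (2 * C0 / (n * d)) * ∑ M' ∈ RG n 1, (cnt d (es M') ∅ : ℝ) := by
      rw [← hcard, ← nsmul_eq_mul, ← sum_const, mul_sum]
      exact sum_le_sum fun M' hM' => hcomp M hM M' hM'
    calc ((n - 1).doubleFactorial : ℝ) * (cnt d (es M) ∅ : ℝ) ^ 2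
        = (cnt d (es M) ∅ : ℝ) * (((n - 1).doubleFactorial : ℝ) * (cnt d (es M) ∅ : ℝ)) := by ring
      _ ≤ _ := mul_le_mul_of_nonneg_left h1 (by positivity)
  have hexp7 : Real.exp (3 * C0 / (n * d)) * Real.exp (2 * C0 / (n * d)) * Real.exp (2 * C0 / (n * d)) =
      Real.exp (7 * C0 / (n * d)) := by
    rw [← Real.exp_add, ← Real.exp_add]
    congr 1
    ring
  have hcst := q2_const C0 C1 C2 hC0 hC1' hC2 (n * d) d hd (hCd.trans (by
    push_cast; nlinarith))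
  push_cast at hcst
  have hX : 0 ≤ (1 + C2 / (d : ℝ) ^ 3) * (1 + C1 / (n * d)) := by positivity
  calc ((RG n d).card : ℝ) * ∑ M ∈ RG n 1, ∑ M' ∈ RG n 1, (cnt d (es M ∪ es M') ∅ : ℝ)
      = ∑ M ∈ RG n 1, ∑ M' ∈ RG n 1, ((RG n d).card : ℝ) * (cnt d (es M ∪ es M') ∅ : ℝ) := by
        rw [mul_sum]
        exact sum_congr rfl fun M _ => mul_sum _ _ _
    _ ≤ ∑ M ∈ RG n 1, ∑ M' ∈ RG n 1, (cnt d (es M) ∅ : ℝ) ^ 2 *
          (Real.exp (3 * C0 / (n * d)) * Real.exp (2 * C0 / (n * d))) *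
            Real.exp (F (es M ∩ es M').card) := by
        refine sum_le_sum fun M hM => sum_le_sum fun M' hM' => (hpair M hM M' hM').trans ?_
        have h1 := hcomp M' hM' M hM
        have h2 : (0 : ℝ) ≤ cnt d (es M) ∅ := (hpos M hM).le
        calc (cnt d (es M) ∅ : ℝ) * (cnt d (es M') ∅ : ℝ) *
              (Real.exp (3 * C0 / (n * d)) * Real.exp (F (es M ∩ es M').card))
            ≤ (cnt d (es M) ∅ : ℝ) * (Real.exp (2 * C0 / (n * d)) * cnt d (es M) ∅) *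
              (Real.exp (3 * C0 / (n * d)) * Real.exp (F (es M ∩ es M').card)) :=
              mul_le_mul_of_nonneg_right (mul_le_mul_of_nonneg_left h1 h2) (by positivity)
          _ = _ := by ring
    _ = ∑ M ∈ RG n 1, (cnt d (es M) ∅ : ℝ) ^ 2 *
          (Real.exp (3 * C0 / (n * d)) * Real.exp (2 * C0 / (n * d))) *
            ∑ M' ∈ RG n 1, Real.exp (F (es M ∩ es M').card) :=
        sum_congr rfl fun M _ => (mul_sum _ _ _).symm
    _ ≤ ∑ M ∈ RG n 1, (cnt d (es M) ∅ : ℝ) ^ 2 *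
          (Real.exp (3 * C0 / (n * d)) * Real.exp (2 * C0 / (n * d))) *
            (((n - 1).doubleFactorial : ℝ) * (1 + C2 / (d : ℝ) ^ 3) * (1 + C1 / (n * d))) :=
        sum_le_sum fun M hM => mul_le_mul_of_nonneg_left (hfib M hM) (by positivity)
    _ = (((n - 1).doubleFactorial : ℝ) * ∑ M ∈ RG n 1, (cnt d (es M) ∅ : ℝ) ^ 2) *
          ((Real.exp (3 * C0 / (n * d)) * Real.exp (2 * C0 / (n * d))) *
            ((1 + C2 / (d : ℝ) ^ 3) * (1 + C1 / (n * d)))) := by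
        rw [← sum_mul, ← sum_mul]; ring
    _ ≤ (Real.exp (2 * C0 / (n * d)) * (∑ M ∈ RG n 1, (cnt d (es M) ∅ : ℝ)) ^ 2) *
          ((Real.exp (3 * C0 / (n * d)) * Real.exp (2 * C0 / (n * d))) *
            ((1 + C2 / (d : ℝ) ^ 3) * (1 + C1 / (n * d)))) :=
        mul_le_mul_of_nonneg_right hsq (by positivity)
    _ = (Real.exp (7 * C0 / (n * d)) * (1 + C2 / (d : ℝ) ^ 3) * (1 + C1 / (n * d))) *
          (∑ M ∈ RG n 1, (cnt d (es M) ∅ : ℝ)) ^ 2 := by
        rw [← hexp7]; ring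
    _ ≤ _ := mul_le_mul_of_nonneg_right hcst (sq_nonneg _)

end MQ2

export MQ2 (WW_pm ellp_pm R2p_le)

end Pool.Agent.H698NC
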