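import Pool.Agent.H698NC.J0

set_option autoImplicit false

namespace Pool.Agent.H698NC

open Finset

namespace MS

variable {n : ℕ}

open scoped Classical in
theorem cnt_sum (d : ℕ) (A B : Finset (Sym2 (Fin n))) : cnt d A B =
    ∑ G ∈ RG n d, if (∀ e ∈ A, e ∈ G.edgeSet) ∧ (∀ e ∈ B, e ∉ G.edgeSet) then 1 else 0 := by
  rw [cnt, Finset.card_filter]

open scoped Classical in
theorem nf_card {d : ℕ} {G : SimpleGraph (Fin n)} (h : Reg G d) (x : Fin n) :
    (univ.filter (fun z => G.Adj x z)).card = d := by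
  have h1 : G.neighborSet x = ((univ.filter (fun z => G.Adj x z) : Finset (Fin n)) : Set (Fin n)) := by
    ext z; simp
  rw [← h x, h1, Set.ncard_coe_finset]

open scoped Classical in
theorem nbr_sub {A : Finset (Sym2 (Fin n))} {G : SimpleGraph (Fin n)}
    (h : ∀ e ∈ A, e ∈ G.edgeSet) (x : Fin n) : nbr A x ⊆ univ.filter (fun z => G.Adj x z) := by
  intro z hz
  rw [nbr, Finset.mem_filter] at hz
  rw [Finset.mem_filter]
  exact ⟨Finset.mem_univ _, (SimpleGraph.mem_edgeSet G).1 (h _ hz.2)⟩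

/-- TARGET 1 -/
theorem cnt_zero (d : ℕ) (A B : Finset (Sym2 (Fin n))) (v : Fin n) (h : d < dg A v) : cnt d A B = 0 := by
  classical
  rw [cnt_sum]
  refine Finset.sum_eq_zero fun G hG => if_neg ?_
  rintro ⟨h1, -⟩
  have hr : Reg G d := (Finset.mem_filter.1 hG).2
  have h2 := Finset.card_le_card (nbr_sub h1 v)
  rw [nf_card hr v] at h2
  exact absurd h2 (not_le.2 h)

open scoped Classical in
/-- TARGET 2 -/
theorem sum_rule (d : ℕ) (A B : Finset (Sym2 (Fin n))) (x : Fin n) :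
    ∑ z ∈ univ.filter (fun z => z ≠ x ∧ s(x, z) ∉ A ∧ s(x, z) ∉ B), (cnt d (insert s(x, z) A) B : ℝ)
      = rd d A x * cnt d A B := by
  simp only [cnt_sum, Nat.cast_sum]
  rw [Finset.sum_comm, Finset.mul_sum]
  refine Finset.sum_congr rfl fun G hG => ?_
  have hr : Reg G d := (Finset.mem_filter.1 hG).2
  by_cases hP : (∀ e ∈ A, e ∈ G.edgeSet) ∧ (∀ e ∈ B, e ∉ G.edgeSet)
  · rw [if_pos hP, Nat.cast_one, mul_one]
    have h1 : ∀ z, ((∀ e ∈ insert s(x, z) A, e ∈ G.edgeSet) ∧ (∀ e ∈ B, e ∉ G.edgeSet)) ↔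
        G.Adj x z := by
      intro z
      rw [Finset.forall_mem_insert, SimpleGraph.mem_edgeSet]
      exact ⟨fun h => h.1.1, fun h => ⟨⟨h, hP.1⟩, hP.2⟩⟩
    simp only [h1]
    rw [← Nat.cast_sum, ← Finset.card_filter, Finset.filter_filter]
    have h2 : (univ.filter (fun z => (z ≠ x ∧ s(x, z) ∉ A ∧ s(x, z) ∉ B) ∧ G.Adj x z)) =
        univ.filter (fun z => G.Adj x z) \ nbr A x := by
      ext z
      simp only [Finset.mem_filter, Finset.mem_univ, true_and, Finset.mem_sdiff, nbr]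
      constructor
      · rintro ⟨⟨_, h3, _⟩, h4⟩
        exact ⟨h4, h3⟩
      · rintro ⟨h4, h3⟩
        exact ⟨⟨h4.ne', h3, fun h5 => hP.2 _ h5 ((SimpleGraph.mem_edgeSet G).2 h4)⟩, h4⟩
    rw [h2, Finset.card_sdiff_of_subset (nbr_sub hP.1 x), nf_card hr x, rd, dg]
    have h3 := Finset.card_le_card (nbr_sub hP.1 x)
    rw [nf_card hr x] at h3
    rw [Nat.cast_sub h3]
  · rw [if_neg hP, Nat.cast_zero, mul_zero]
    refine Finset.sum_eq_zero fun z _ => ?_
    rw [if_neg, Nat.cast_zero]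
    intro h
    exact hP ⟨fun e he => h.1 e (Finset.mem_insert_of_mem he), h.2⟩

theorem dg_insert (A : Finset (Sym2 (Fin n))) (x z : Fin n) (h : s(x, z) ∉ A) :
    dg A z < dg (insert s(x, z) A) z := by
  classical
  unfold dg
  refine Finset.card_lt_card ⟨?_, ?_⟩
  · intro w hw
    rw [nbr, Finset.mem_filter] at hw ⊢
    exact ⟨hw.1, Finset.mem_insert_of_mem hw.2⟩
  · intro h1
    have h2 : x ∈ nbr (insert s(x, z) A) z := by
      rw [nbr, Finset.mem_filter]
      refine ⟨Finset.mem_univ _, ?_⟩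
      rw [Sym2.eq_swap]
      exact Finset.mem_insert_self _ _
    have h3 := h1 h2
    rw [nbr, Finset.mem_filter, Sym2.eq_swap] at h3
    exact h h3.2

open scoped Classical in
/-- TARGET 3 -/
theorem sum_rule_val (d : ℕ) (A B : Finset (Sym2 (Fin n))) (x : Fin n) (hx : dg A x < d) :
    ∑ z ∈ univ.filter (fun z => Val d A B x z), (cnt d (insert s(x, z) A) B : ℝ) = rd d A x * cnt d A B := by
  rw [← sum_rule]
  refine Finset.sum_subset ?_ ?_
  · intro z hz
    rw [Finset.mem_filter] at hz ⊢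
    exact ⟨hz.1, hz.2.ne.symm, hz.2.nA, hz.2.nB⟩
  · intro z hz hz'
    rw [Finset.mem_filter] at hz hz'
    have h1 : d ≤ dg A z := by
      by_contra h
      exact hz' ⟨hz.1, ⟨hz.2.1.symm, hz.2.2.1, hz.2.2.2, hx, not_le.1 h⟩⟩
    have h2 := dg_insert A x z hz.2.2.1
    rw [cnt_zero d (insert s(x, z) A) B z (by omega), Nat.cast_zero]

/-- switching -/
def swi (x y z w : Fin n) (G : SimpleGraph (Fin n)) : SimpleGraph (Fin n) :=
  SimpleGraph.fromEdgeSet (symmDiff G.edgeSet {s(x, y), s(z, w), s(x, z), s(y, w)})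

theorem swi_edge {x y z w : Fin n} (hxy : x ≠ y) (hxz : x ≠ z) (hyw : y ≠ w) (hzw : z ≠ w)
    (G : SimpleGraph (Fin n)) : (swi x y z w G).edgeSet =
      symmDiff G.edgeSet {s(x, y), s(z, w), s(x, z), s(y, w)} := by
  rw [swi, SimpleGraph.edgeSet_fromEdgeSet]
  ext e
  rw [Set.mem_sdiff]
  constructor
  · exact fun h => h.1
  · intro h
    refine ⟨h, ?_⟩
    rcases h with ⟨h1, _⟩ | ⟨h1, _⟩
    · exact SimpleGraph.not_isDiag_of_mem_edgeSet G h1
    · rcases h1 with rfl | rfl | rfl | rfl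
      · exact hxy
      · exact hzw
      · exact hxz
      · exact hyw

theorem swi_swi {x y z w : Fin n} (hxy : x ≠ y) (hxz : x ≠ z) (hyw : y ≠ w) (hzw : z ≠ w)
    (G : SimpleGraph (Fin n)) : swi x y z w (swi x y z w G) = G := by
  apply SimpleGraph.edgeSet_injective
  rw [swi_edge hxy hxz hyw hzw, swi_edge hxy hxz hyw hzw, symmDiff_symmDiff_cancel_right]

theorem swi_comm (x y z w : Fin n) : swi x z y w = swi x y z w := by
  funext G
  unfold swi
  congr 2
  ext e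
  simp only [Set.mem_insert_iff, Set.mem_singleton_iff]
  tauto

theorem swi_nbr {x y z w : Fin n} (hxy : x ≠ y) (hxz : x ≠ z) (hxw : x ≠ w) (hyz : y ≠ z)
    (hyw : y ≠ w) (hzw : z ≠ w) {G : SimpleGraph (Fin n)} (g1 : s(x, y) ∈ G.edgeSet)
    (g3 : s(x, z) ∉ G.edgeSet) :
    (swi x y z w G).neighborSet x = insert z (G.neighborSet x \ {y}) := by
  ext u
  have h1 : s(x, u) ∈ ({s(x, y), s(z, w), s(x, z), s(y, w)} : Set (Sym2 (Fin n))) ↔
      u = y ∨ u = z := by
    simp only [Set.mem_insert_iff, Set.mem_singleton_iff, Sym2.eq_iff]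
    constructor
    · rintro ((⟨_, h⟩ | ⟨h, _⟩) | (⟨h, _⟩ | ⟨h, _⟩) | (⟨_, h⟩ | ⟨h, _⟩) | (⟨h, _⟩ | ⟨h, _⟩))
      · exact Or.inl h
      · exact absurd h hxy
      · exact absurd h hxz
      · exact absurd h hxw
      · exact Or.inr h
      · exact absurd h hxz
      · exact absurd h hxy
      · exact absurd h hxw
    · rintro (h | h)
      · left; left; exact ⟨by trivial, h⟩
      · right; right; left; left; exact ⟨by trivial, h⟩
  rw [SimpleGraph.mem_neighborSet, ← SimpleGraph.mem_edgeSet, swi_edge hxy hxz hyw hzw,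
    Set.mem_symmDiff, h1]
  change _ ↔ u = z ∨ (s(x, u) ∈ G.edgeSet ∧ ¬ u = y)
  constructor
  · rintro (⟨h2, h3⟩ | ⟨h2 | h2, h3⟩)
    · exact Or.inr ⟨h2, fun h4 => h3 (Or.inl h4)⟩
    · rw [h2] at h3
      exact absurd g1 h3
    · exact Or.inl h2
  · rintro (h2 | ⟨h2, h3⟩)
    · refine Or.inr ⟨Or.inr h2, ?_⟩
      rw [h2]
      exact g3
    · refine Or.inl ⟨h2, ?_⟩
      rintro (h4 | h4)
      · exact h3 h4
      · rw [h4] at h2
        exact g3 h2

theorem swi_vertex (x y z w : Fin n) :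
    swi y x w z = swi x y z w ∧ swi z w x y = swi x y z w ∧ swi w z y x = swi x y z w := by
  refine ⟨?_, ?_, ?_⟩ <;>
  · funext G
    unfold swi
    congr 2
    ext e
    simp only [Set.mem_insert_iff, Set.mem_singleton_iff]
    constructor
    · rintro (rfl | rfl | rfl | rfl) <;> simp [Sym2.eq_iff]
    · rintro (rfl | rfl | rfl | rfl) <;> simp [Sym2.eq_iff]

theorem swi_reg {x y z w : Fin n} (hxy : x ≠ y) (hxz : x ≠ z) (hxw : x ≠ w) (hyz : y ≠ z)
    (hyw : y ≠ w) (hzw : z ≠ w) {G : SimpleGraph (Fin n)} (g1 : s(x, y) ∈ G.edgeSet)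
    (g2 : s(z, w) ∈ G.edgeSet) (g3 : s(x, z) ∉ G.edgeSet) (g4 : s(y, w) ∉ G.edgeSet) {d : ℕ}
    (hG : Reg G d) : Reg (swi x y z w G) d := by
  have key : ∀ {x y z w : Fin n}, x ≠ y → x ≠ z → x ≠ w → y ≠ z → y ≠ w → z ≠ w →
      s(x, y) ∈ G.edgeSet → s(x, z) ∉ G.edgeSet →
      ((swi x y z w G).neighborSet x).ncard = d := by
    intro x y z w hxy hxz hxw hyz hyw hzw g1 g3
    rw [swi_nbr hxy hxz hxw hyz hyw hzw g1 g3, Set.ncard_exchange _ _]
    · exact hG x
    · exact g3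
    · exact g1
  intro v
  by_cases h1 : v = x
  · rw [h1]
    exact key hxy hxz hxw hyz hyw hzw g1 g3
  · by_cases h2 : v = y
    · rw [h2, ← (swi_vertex x y z w).1]
      exact key hxy.symm hyw hyz hxw hxz hzw.symm (by rwa [Sym2.eq_swap]) g4
    · by_cases h3 : v = z
      · rw [h3, ← (swi_vertex x y z w).2.1]
        exact key hzw hxz.symm hyz.symm hxw.symm hyw.symm hxy g2 (by rwa [Sym2.eq_swap])
      · by_cases h4 : v = w
        · rw [h4, ← (swi_vertex x y z w).2.2]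
          exact key hzw.symm hyw.symm hxw.symm hyz.symm hxz.symm hxy.symm
            (by rwa [Sym2.eq_swap]) (by rwa [Sym2.eq_swap])
        · have : (swi x y z w G).neighborSet v = G.neighborSet v := by
            ext u
            rw [SimpleGraph.mem_neighborSet, ← SimpleGraph.mem_edgeSet,
              swi_edge hxy hxz hyw hzw, Set.mem_symmDiff, SimpleGraph.mem_neighborSet,
              ← SimpleGraph.mem_edgeSet]
            have h5 : s(v, u) ∉ ({s(x, y), s(z, w), s(x, z), s(y, w)} : Set (Sym2 (Fin n))) := by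
              simp only [Set.mem_insert_iff, Set.mem_singleton_iff, Sym2.eq_iff]
              tauto
            tauto
          rw [this]
          exact hG v

theorem swi_mem {x y z w : Fin n} (hxy : x ≠ y) (hxz : x ≠ z) (hyw : y ≠ w) (hzw : z ≠ w)
    {G : SimpleGraph (Fin n)} {e : Sym2 (Fin n)} (h1 : e ≠ s(x, y)) (h2 : e ≠ s(z, w))
    (h3 : e ≠ s(x, z)) (h4 : e ≠ s(y, w)) : e ∈ (swi x y z w G).edgeSet ↔ e ∈ G.edgeSet := by
  rw [swi_edge hxy hxz hyw hzw, Set.mem_symmDiff]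
  have h5 : e ∉ ({s(x, y), s(z, w), s(x, z), s(y, w)} : Set (Sym2 (Fin n))) := by
    simp only [Set.mem_insert_iff, Set.mem_singleton_iff]
    tauto
  tauto

theorem swi_flip {x y z w : Fin n} (hxy : x ≠ y) (hxz : x ≠ z) (hyw : y ≠ w) (hzw : z ≠ w)
    {G : SimpleGraph (Fin n)} {e : Sym2 (Fin n)}
    (h : e ∈ ({s(x, y), s(z, w), s(x, z), s(y, w)} : Set (Sym2 (Fin n)))) :
    e ∈ (swi x y z w G).edgeSet ↔ e ∉ G.edgeSet := by
  rw [swi_edge hxy hxz hyw hzw, Set.mem_symmDiff]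
  tauto

theorem four_bool (P Q p1 p2 p3 p4 : Prop) [Decidable P] [Decidable Q] [Decidable p1]
    [Decidable p2] [Decidable p3] [Decidable p4] :
    ((if (p2 ∧ p1 ∧ P) ∧ Q then 1 else 0) + (if (p1 ∧ p4 ∧ p3 ∧ P) ∧ Q then 1 else 0) +
      (if (p2 ∧ p4 ∧ p3 ∧ P) ∧ Q then 1 else 0)) +
      (if (P ∧ Q) ∧ p3 ∧ p4 ∧ ¬ p1 ∧ ¬ p2 then 1 else 0) =
    ((if (p4 ∧ p3 ∧ P) ∧ Q then 1 else 0) + (if (p3 ∧ p2 ∧ p1 ∧ P) ∧ Q then 1 else 0) +
      (if (p4 ∧ p2 ∧ p1 ∧ P) ∧ Q then 1 else 0)) +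
      (if (P ∧ Q) ∧ p1 ∧ p2 ∧ ¬ p3 ∧ ¬ p4 then (1 : ℕ) else 0) := by
  by_cases hP : P
  · by_cases hQ : Q
    · by_cases h1 : p1 <;> by_cases h2 : p2 <;> by_cases h3 : p3 <;> by_cases h4 : p4 <;>
        simp [hP, hQ, h1, h2, h3, h4]
    · simp [hQ]
  · simp [hP]

/-- TARGET 4 -/
theorem four_point (d : ℕ) (A B : Finset (Sym2 (Fin n))) (x y z w : Fin n)
    (hxy : x ≠ y) (hxz : x ≠ z) (hxw : x ≠ w) (hyz : y ≠ z) (hyw : y ≠ w) (hzw : z ≠ w)
    (a1 : s(x, y) ∉ A) (a2 : s(z, w) ∉ A) (a3 : s(x, z) ∉ A) (a4 : s(y, w) ∉ A)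
    (b1 : s(x, y) ∉ B) (b2 : s(z, w) ∉ B) (b3 : s(x, z) ∉ B) (b4 : s(y, w) ∉ B) :
    cnt d (insert s(z, w) (insert s(x, y) A)) B
        + cnt d (insert s(x, y) (insert s(y, w) (insert s(x, z) A))) B
        + cnt d (insert s(z, w) (insert s(y, w) (insert s(x, z) A))) B
      = cnt d (insert s(y, w) (insert s(x, z) A)) B
        + cnt d (insert s(x, z) (insert s(z, w) (insert s(x, y) A))) B
        + cnt d (insert s(y, w) (insert s(z, w) (insert s(x, y) A))) B := by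
  classical
  let P : SimpleGraph (Fin n) → Prop := fun G =>
    (∀ e ∈ A, e ∈ G.edgeSet) ∧ (∀ e ∈ B, e ∉ G.edgeSet)
  let C1 : SimpleGraph (Fin n) → Prop := fun G => P G ∧ s(x, y) ∈ G.edgeSet ∧
    s(z, w) ∈ G.edgeSet ∧ s(x, z) ∉ G.edgeSet ∧ s(y, w) ∉ G.edgeSet
  let C2 : SimpleGraph (Fin n) → Prop := fun G => P G ∧ s(x, z) ∈ G.edgeSet ∧
    s(y, w) ∈ G.edgeSet ∧ s(x, y) ∉ G.edgeSet ∧ s(z, w) ∉ G.edgeSet
  have hPs : ∀ G, P G → P (swi x y z w G) := by
    intro G hG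
    constructor
    · intro e he
      rw [swi_mem hxy hxz hyw hzw (by rintro rfl; exact a1 he) (by rintro rfl; exact a2 he)
        (by rintro rfl; exact a3 he) (by rintro rfl; exact a4 he)]
      exact hG.1 e he
    · intro e he
      rw [swi_mem hxy hxz hyw hzw (by rintro rfl; exact b1 he) (by rintro rfl; exact b2 he)
        (by rintro rfl; exact b3 he) (by rintro rfl; exact b4 he)]
      exact hG.2 e he
  have hf : ∀ (G : SimpleGraph (Fin n)) (e : Sym2 (Fin n)),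
      (e = s(x, y) ∨ e = s(z, w) ∨ e = s(x, z) ∨ e = s(y, w)) →
      (e ∈ (swi x y z w G).edgeSet ↔ e ∉ G.edgeSet) := fun G e he =>
    swi_flip hxy hxz hyw hzw he
  have hcard : ((RG n d).filter C1).card = ((RG n d).filter C2).card := by
    refine Finset.card_nbij' (swi x y z w) (swi x y z w) ?_ ?_
      (fun G _ => swi_swi hxy hxz hyw hzw G) (fun G _ => swi_swi hxy hxz hyw hzw G)
    · intro G hG
      obtain ⟨hG1, hG2, g1, g2, g3, g4⟩ := Finset.mem_filter.1 hG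
      have hr : Reg G d := (Finset.mem_filter.1 hG1).2
      refine Finset.mem_filter.2 ⟨Finset.mem_filter.2 ⟨Finset.mem_univ _,
        swi_reg hxy hxz hxw hyz hyw hzw g1 g2 g3 g4 hr⟩, hPs G hG2, ?_, ?_, ?_, ?_⟩
      · rw [hf G _ (Or.inr (Or.inr (Or.inl rfl)))]; exact g3
      · rw [hf G _ (Or.inr (Or.inr (Or.inr rfl)))]; exact g4
      · rw [hf G _ (Or.inl rfl)]; exact fun h => h g1
      · rw [hf G _ (Or.inr (Or.inl rfl))]; exact fun h => h g2
    · intro G hG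
      obtain ⟨hG1, hG2, g1, g2, g3, g4⟩ := Finset.mem_filter.1 hG
      have hr : Reg G d := (Finset.mem_filter.1 hG1).2
      have hr' : Reg (swi x y z w G) d := by
        rw [← swi_comm]
        exact swi_reg hxz hxy hxw hyz.symm hzw hyw g1 g2 g3 g4 hr
      refine Finset.mem_filter.2 ⟨Finset.mem_filter.2 ⟨Finset.mem_univ _, hr'⟩,
        hPs G hG2, ?_, ?_, ?_, ?_⟩
      · rw [hf G _ (Or.inl rfl)]; exact g3
      · rw [hf G _ (Or.inr (Or.inl rfl))]; exact g4
      · rw [hf G _ (Or.inr (Or.inr (Or.inl rfl)))]; exact fun h => h g1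
      · rw [hf G _ (Or.inr (Or.inr (Or.inr rfl)))]; exact fun h => h g2
  rw [Finset.card_filter, Finset.card_filter] at hcard
  simp only [cnt_sum]
  refine Nat.add_right_cancel (m := ∑ G ∈ RG n d, if C2 G then 1 else 0) ?_
  conv_rhs => rw [← hcard]
  simp only [← Finset.sum_add_distrib]
  refine Finset.sum_congr rfl fun G _ => ?_
  simp only [Finset.forall_mem_insert, C1, C2, P]
  exact four_bool _ _ _ _ _ _

/-- TARGET 5 -/
theorem cnt_forbid (d : ℕ) (A B : Finset (Sym2 (Fin n))) (e : Sym2 (Fin n)) :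
    cnt d A (insert e B) + cnt d (insert e A) B = cnt d A B := by
  classical
  simp only [cnt_sum, ← Finset.sum_add_distrib]
  refine Finset.sum_congr rfl fun G _ => ?_
  simp only [Finset.forall_mem_insert]
  by_cases h1 : ∀ e ∈ A, e ∈ G.edgeSet
  · by_cases h2 : ∀ e ∈ B, e ∉ G.edgeSet
    · by_cases h3 : e ∈ G.edgeSet
      · rw [if_neg (by tauto), if_pos (by tauto), if_pos (by tauto)]
      · rw [if_pos (by tauto), if_neg (by tauto), if_pos (by tauto)]
    · rw [if_neg (by tauto), if_neg (by tauto), if_neg (by tauto)]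
  · rw [if_neg (by tauto), if_neg (by tauto), if_neg (by tauto)]

end MS

export MS (cnt_zero sum_rule sum_rule_val four_point cnt_forbid)

end Pool.Agent.H698NC
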