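import Pool.Agent.H698NC.PD

set_option autoImplicit false

namespace Pool.Agent.H698NC

open Finset

namespace MT1

variable {n : ℕ}

/-! own lemmas -/

lemma dg_empty (v : Fin n) : dg (∅ : Finset (Sym2 (Fin n))) v = 0 := by
  simp [dg, nbr]

lemma rd_empty (d : ℕ) (v : Fin n) : rd d (∅ : Finset (Sym2 (Fin n))) v = d := by
  simp [rd, dg_empty]

lemma EE_empty (d : ℕ) : EE d (∅ : Finset (Sym2 (Fin n))) = n * d := by
  simp [EE]

lemma D2_empty (d : ℕ) : D2 d (∅ : Finset (Sym2 (Fin n))) = n * (d * (d - 1)) := by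
  simp [D2, rd_empty]

lemma TT_empty (d : ℕ) (B : Finset (Sym2 (Fin n))) (v : Fin n) : TT d ∅ B v = d * dg B v := by
  unfold TT
  rw [Finset.empty_union]
  simp only [rd_empty, Finset.sum_const, nsmul_eq_mul]
  rw [dg]; ring

lemma QQ_empty (d : ℕ) (B : Finset (Sym2 (Fin n))) : QQ d ∅ B = d * d * W0 B := by
  unfold QQ
  simp only [rd_empty, TT_empty]
  rw [W0, Finset.mul_sum]
  apply Finset.sum_congr rfl
  intro v _; ring

lemma bet_empty (d : ℕ) (B : Finset (Sym2 (Fin n))) (x y : Fin n) (hn : 0 < n) (hd : 0 < d) :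
    bet d ∅ B x y / EE d (∅ : Finset (Sym2 (Fin n))) = sg B x y / n := by
  have hn' : (n:ℝ) ≠ 0 := by positivity
  have hd' : (d:ℝ) ≠ 0 := by positivity
  unfold bet sg
  rw [rd_empty, rd_empty, D2_empty, EE_empty, TT_empty, TT_empty, QQ_empty d B]
  field_simp
  ring

lemma cls_empty (d : ℕ) : Cls d 2 0 (∅ : Finset (Sym2 (Fin n))) where
  nd := by intro e he; simp at he
  led := by intro v; rw [dg_empty]; omega
  lem := by intro v; rw [dg_empty]; omega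
  card := by simp

lemma dg_single (x y : Fin n) (hxy : x ≠ y) (v : Fin n) : dg ({s(x, y)} : Finset (Sym2 (Fin n))) v ≤ 1 := by
  unfold dg nbr
  rw [Finset.card_le_one]
  intro a ha b hb
  simp only [Finset.mem_filter, Finset.mem_univ, true_and, Finset.mem_singleton, Sym2.eq_iff] at ha hb
  rcases ha with ⟨h1, h2⟩ | ⟨h1, h2⟩ <;> rcases hb with ⟨h3, h4⟩ | ⟨h3, h4⟩
  · rw [h2, h4]
  · exact absurd (h1.symm.trans h3) hxy
  · exact absurd (h3.symm.trans h1) hxy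
  · rw [h2, h4]

lemma cls_single (d : ℕ) (x y : Fin n) (hxy : x ≠ y) (hd : 3 ≤ d) : Cls d 2 0 ({s(x, y)} : Finset (Sym2 (Fin n))) where
  nd := by
    intro e he
    rw [Finset.mem_singleton] at he
    rw [he]; simpa using hxy
  led := by intro v; have := dg_single x y hxy v; omega
  lem := by intro v; have := dg_single x y hxy v; omega
  card := by
    have : 0 < n := x.pos
    simp; omega

lemma abs_log_two (w : ℝ) (hw : |w| ≤ 1/2) : |Real.log (1 - w) + w + w ^ 2 / 2| ≤ 2 * |w| ^ 3 := by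
  have h := Real.abs_log_sub_add_sum_range_le (x := w) (by linarith) 2
  simp only [Finset.sum_range_succ, Finset.sum_range_zero] at h
  norm_num at h
  have h2 : |w| ^ 3 / (1 - |w|) ≤ 2 * |w| ^ 3 := by
    rw [div_le_iff₀ (by linarith)]
    have : 0 ≤ |w| ^ 3 := by positivity
    nlinarith
  have h3 : |Real.log (1 - w) + w + w ^ 2 / 2| = |w + w ^ 2 / 2 + Real.log (1 - w)| := by
    congr 1; ring
  rw [h3]
  exact h.trans h2

lemma exp_two (u : ℝ) (hu : |u| ≤ 1/4) : |Real.exp u - 1 - u - u ^ 2 / 2| ≤ |u| ^ 3 := by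
  have h := Real.exp_bound (x := u) (by linarith) (n := 3) (by norm_num)
  simp only [Finset.sum_range_succ, Finset.sum_range_zero] at h
  norm_num [Nat.factorial] at h
  have h1 : Real.exp u - 1 - u - u ^ 2 / 2 = Real.exp u - (1 + u + u ^ 2 / 2) := by ring
  rw [h1]
  refine h.trans ?_
  have : 0 ≤ |u| ^ 3 := by positivity
  linarith

/-- the analytic step -/
lemma phi_bound2 (p u : ℝ) (hp : 0 < p) (hp2 : p ≤ 1/2) (hu : |u| ≤ 1/4) :
    0 < 1 - p * Real.exp u ∧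
    |Real.log (1 - p * Real.exp u) - (Real.log (1 - p) - p / (1 - p) * u
      - p / (1 - p) * (u ^ 2 / (2 * (1 - p))))| ≤ 100 * p * |u| ^ 3 := by
  have hq : 0 < 1 - p := by linarith
  set q : ℝ := p / (1 - p) with hqd
  have hq0 : 0 < q := by positivity
  have hq2 : q ≤ 2 * p := by
    rw [hqd, div_le_iff₀ hq]; nlinarith
  have hu0 : 0 ≤ |u| := abs_nonneg u
  have hu2 : u ^ 2 = |u| ^ 2 := (sq_abs u).symm
  have he := exp_two u hu
  set e : ℝ := Real.exp u - 1 with hed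
  have he1 : |e - u| ≤ |u| ^ 2 := by
    have h1 : e - u = (e - u - u ^ 2 / 2) + u ^ 2 / 2 := by ring
    rw [h1]
    calc |(e - u - u ^ 2 / 2) + u ^ 2 / 2| ≤ |e - u - u ^ 2 / 2| + |u ^ 2 / 2| := abs_add_le _ _
      _ ≤ |u| ^ 3 + |u| ^ 2 / 2 := by
          rw [abs_of_nonneg (by positivity : 0 ≤ u ^ 2 / 2), ← hu2]
          rw [hu2] at he ⊢
          linarith
      _ ≤ |u| ^ 2 := by nlinarith [sq_nonneg |u|]
  have he2 : |e| ≤ 2 * |u| := by
    have h1 : e = (e - u) + u := by ring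
    calc |e| = |(e - u) + u| := by rw [← h1]
      _ ≤ |e - u| + |u| := abs_add_le _ _
      _ ≤ |u| ^ 2 + |u| := by linarith
      _ ≤ 2 * |u| := by nlinarith
  set w : ℝ := q * e with hw
  have hwabs : |w| ≤ 4 * p * |u| := by
    rw [hw, abs_mul, abs_of_pos hq0]
    calc q * |e| ≤ (2 * p) * (2 * |u|) := mul_le_mul hq2 he2 (abs_nonneg _) (by linarith)
      _ = 4 * p * |u| := by ring
  have hw2 : |w| ≤ 1/2 := by nlinarith
  have hfac : 1 - p * Real.exp u = (1 - p) * (1 - w) := by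
    rw [hw, hed, hqd]; field_simp; ring
  have h1w : 0 < 1 - w := by
    have := le_abs_self w; linarith
  refine ⟨by rw [hfac]; positivity, ?_⟩
  rw [hfac, Real.log_mul hq.ne' h1w.ne']
  have hL := abs_log_two w hw2
  have hinv : u ^ 2 / (2 * (1 - p)) = (1 + q) * u ^ 2 / 2 := by
    rw [hqd]; field_simp; ring
  have e1 : Real.log (1 - p) + Real.log (1 - w) - (Real.log (1 - p) - q * u - q * (u ^ 2 / (2 * (1 - p))))
      = (Real.log (1 - w) + w + w ^ 2 / 2) - q * (e - u - u ^ 2 / 2)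
        - q ^ 2 * ((e - u) * (e + u)) / 2 := by rw [hinv, hw]; ring
  rw [e1]
  have h3 : |q * (e - u - u ^ 2 / 2)| ≤ 2 * p * |u| ^ 3 := by
    rw [abs_mul, abs_of_pos hq0]
    exact mul_le_mul hq2 he (abs_nonneg _) (by linarith)
  have h4 : |w| ^ 3 ≤ 16 * p * |u| ^ 3 := by
    calc |w|^3 ≤ (4 * p * |u|)^3 := by gcongr
      _ = (64 * p ^ 2) * (p * |u| ^ 3) := by ring
      _ ≤ 16 * (p * |u| ^ 3) := by
          gcongr
          nlinarith
      _ = 16 * p * |u| ^ 3 := by ring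
  have h5 : |q ^ 2 * ((e - u) * (e + u)) / 2| ≤ 4 * p * |u| ^ 3 := by
    rw [abs_div, abs_mul, abs_mul, abs_of_pos (by positivity : 0 < q ^ 2), abs_of_pos (by norm_num : (0:ℝ) < 2)]
    have h6 : |e + u| ≤ 3 * |u| := by
      calc |e + u| ≤ |e| + |u| := abs_add_le _ _
        _ ≤ 3 * |u| := by linarith
    have h7 : q ^ 2 ≤ 2 * p := by
      calc q ^ 2 ≤ (2 * p) ^ 2 := by gcongr
        _ = 4 * p * p := by ring
        _ ≤ 4 * p * (1/2) := by gcongr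
        _ = 2 * p := by ring
    calc q ^ 2 * (|e - u| * |e + u|) / 2 ≤ (2 * p) * (|u| ^ 2 * (3 * |u|)) / 2 := by gcongr
      _ = 3 * p * |u| ^ 3 := by ring
      _ ≤ 4 * p * |u| ^ 3 := by gcongr; norm_num
  calc |Real.log (1 - w) + w + w ^ 2 / 2 - q * (e - u - u ^ 2 / 2) - q ^ 2 * ((e - u) * (e + u)) / 2|
      ≤ |Real.log (1 - w) + w + w ^ 2 / 2 - q * (e - u - u ^ 2 / 2)|
          + |q ^ 2 * ((e - u) * (e + u)) / 2| := abs_sub _ _
    _ ≤ (|Real.log (1 - w) + w + w ^ 2 / 2| + |q * (e - u - u ^ 2 / 2)|)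
          + |q ^ 2 * ((e - u) * (e + u)) / 2| := by gcongr; exact abs_sub _ _
    _ ≤ (2 * |w| ^ 3 + 2 * p * |u| ^ 3) + 4 * p * |u| ^ 3 := by gcongr
    _ ≤ (2 * (16 * p * |u| ^ 3) + 2 * p * |u| ^ 3) + 4 * p * |u| ^ 3 := by gcongr
    _ = 38 * (p * |u| ^ 3) := by ring
    _ ≤ 100 * (p * |u| ^ 3) := by
        have : 0 ≤ p * |u| ^ 3 := by positivity
        linarith
    _ = 100 * p * |u| ^ 3 := by ring

/-- the sizes of the error terms -/
lemma tail_bound (N d L s θ q r u X : ℝ) (hN : 1 ≤ N) (hd : 0 < d) (hL : 1 ≤ L) (hp : d / N ≤ 1/2)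
    (hq : 1/2 ≤ q) (hr0 : 0 < r) (hr2 : r ≤ 2 * (d / N)) (hX : |X| ≤ 100 * (d / N) * |u| ^ 3)
    (hu : |u| ≤ 3 * L / N) (hus : |u - s / N| ≤ 2 * L / N ^ 2) (hup : |u + s / N| ≤ 4 * L / N)
    (hθ : |θ| ≤ L / (N ^ 2 * d)) :
    |X - r * θ - r * ((u - s / N) * (u + s / N)) / (2 * q)| ≤ 3000 * L ^ 3 / N ^ 3 := by
  have hN0 : 0 < N := by linarith
  have t1 : |X| ≤ 1350 * (L ^ 3 / N ^ 3) := by
    calc |X| ≤ 100 * (d / N) * |u| ^ 3 := hX
      _ ≤ 100 * (1 / 2) * (3 * L / N) ^ 3 := by gcongr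
      _ = 1350 * (L ^ 3 / N ^ 3) := by rw [div_pow]; ring
  have t2 : |r * θ| ≤ 2 * (L ^ 3 / N ^ 3) := by
    rw [abs_mul, abs_of_pos hr0]
    calc r * |θ| ≤ (2 * (d / N)) * (L / (N ^ 2 * d)) := by gcongr
      _ = 2 * (L / N ^ 3) := by field_simp
      _ ≤ 2 * (L ^ 3 / N ^ 3) := by
          gcongr
          exact le_self_pow₀ hL (by norm_num)
  have t3 : |r * ((u - s / N) * (u + s / N)) / (2 * q)| ≤ 8 * (L ^ 3 / N ^ 3) := by
    rw [abs_div, abs_mul, abs_mul, abs_of_pos hr0, abs_of_pos (by linarith : 0 < 2 * q)]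
    have h1 : r ≤ 1 := by linarith
    calc r * (|u - s / N| * |u + s / N|) / (2 * q) ≤ 1 * ((2 * L / N ^ 2) * (4 * L / N)) / 1 := by
          gcongr
          linarith
      _ = 8 * (L ^ 2 / N ^ 3) := by field_simp; ring
      _ ≤ 8 * (L ^ 3 / N ^ 3) := by
          gcongr 8 * (?_ / N ^ 3)
          exact pow_le_pow_right₀ hL (by norm_num)
  have t4 : 0 ≤ L ^ 3 / N ^ 3 := by positivity
  calc |X - r * θ - r * ((u - s / N) * (u + s / N)) / (2 * q)|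
      ≤ |X - r * θ| + |r * ((u - s / N) * (u + s / N)) / (2 * q)| := abs_sub _ _
    _ ≤ (|X| + |r * θ|) + |r * ((u - s / N) * (u + s / N)) / (2 * q)| := by gcongr; exact abs_sub _ _
    _ ≤ (1350 * (L ^ 3 / N ^ 3) + 2 * (L ^ 3 / N ^ 3)) + 8 * (L ^ 3 / N ^ 3) := by gcongr
    _ ≤ 3000 * (L ^ 3 / N ^ 3) := by linarith
    _ = 3000 * L ^ 3 / N ^ 3 := by ring

lemma g_bound (K gm bb q : ℝ) (hK : 4 ≤ K) (hq : 1/2 ≤ q) (hg : |gm| ≤ K) (hb : |bb| ≤ K ^ 2) :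
    |gm - bb / q - 1| ≤ 4 * K ^ 2 := by
  have hq0 : 0 < q := by linarith
  have e1 : |bb / q| ≤ 2 * K ^ 2 := by
    rw [abs_div, abs_of_pos hq0, div_le_iff₀ hq0]
    nlinarith [abs_nonneg bb, sq_nonneg K]
  calc |gm - bb / q - 1| ≤ |gm - bb / q| + |(1:ℝ)| := abs_sub _ _
    _ ≤ (|gm| + |bb / q|) + |(1:ℝ)| := by gcongr; exact abs_sub _ _
    _ ≤ (K + 2 * K ^ 2) + 1 := by
        rw [abs_one]
        gcongr
    _ ≤ 4 * K ^ 2 := by nlinarith

lemma sizes (N d L s g' θ u : ℝ) (hN : 1 ≤ N) (hd : 1 ≤ d) (hL : 1 ≤ L) (hLN : 16 * L ≤ N) (hs : |s| ≤ L)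
    (hg : |g'| ≤ L) (hθ : |θ| ≤ L / (N ^ 2 * d)) (hu : u = s / N + g' / N ^ 2 + θ) :
    |u - s / N| ≤ 2 * L / N ^ 2 ∧ |u| ≤ 3 * L / N ∧ |u| ≤ 1/4 ∧ |u + s / N| ≤ 4 * L / N := by
  have hN0 : 0 < N := by linarith
  have hθ2 : |θ| ≤ L / N ^ 2 := by
    refine hθ.trans ?_
    gcongr
    nlinarith [sq_nonneg N]
  have hus : |u - s / N| ≤ 2 * L / N ^ 2 := by
    have e1 : u - s / N = g' / N ^ 2 + θ := by rw [hu]; ring
    rw [e1]
    calc |g' / N ^ 2 + θ| ≤ |g' / N ^ 2| + |θ| := abs_add_le _ _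
      _ ≤ L / N ^ 2 + L / N ^ 2 := by
          gcongr
          rw [abs_div, abs_of_pos (by positivity : (0:ℝ) < N ^ 2)]
          gcongr
      _ = 2 * L / N ^ 2 := by ring
  have hsn : |s / N| ≤ L / N := by
    rw [abs_div, abs_of_pos hN0]
    gcongr
  have husn : |u - s / N| ≤ 2 * L / N := by
    refine hus.trans ?_
    gcongr
    nlinarith
  have huL : |u| ≤ 3 * L / N := by
    have e1 : u = (u - s / N) + s / N := by ring
    calc |u| = |(u - s / N) + s / N| := by rw [← e1]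
      _ ≤ |u - s / N| + |s / N| := abs_add_le _ _
      _ ≤ 2 * L / N + L / N := by gcongr
      _ = 3 * L / N := by ring
  refine ⟨hus, huL, ?_, ?_⟩
  · refine huL.trans ?_
    rw [div_le_div_iff₀ hN0 (by norm_num)]
    nlinarith
  · calc |u + s / N| ≤ |u| + |s / N| := abs_add_le _ _
      _ ≤ 3 * L / N + L / N := by gcongr
      _ = 4 * L / N := by ring

lemma ratio (N d : ℝ) (hN : 0 < N) (hd : 0 < d) (h : d / N ≤ 1/2) :
    d / N / (1 - d / N) = d / (N - d) ∧ 0 < d / (N - d) ∧ d / (N - d) ≤ 2 * (d / N) := by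
  have hnd : 0 < N - d := by
    rw [div_le_iff₀ hN] at h
    linarith
  refine ⟨by field_simp, by positivity, ?_⟩
  rw [div_le_iff₀ hnd]
  have : 2 * (d/N) * (N - d) = 2 * d * (1 - d/N) := by field_simp
  rw [this]; nlinarith

/-- the identity behind the expansion -/
lemma exp_identity (c l ph q r s g' θ u N T : ℝ) (hN : N ≠ 0) (hq : q ≠ 0)
    (hu : u = s / N + g' / N ^ 2 + θ) (hT : T = g' + s ^ 2 / (2 * q)) :
    c + l - c - (ph - r * (s / N) - r / N ^ 2 * T)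
      = (l - (ph - r * u - r * (u ^ 2 / (2 * q))))
        - r * θ - r * ((u - s / N) * (u + s / N)) / (2 * q) := by
  subst hT
  have e3 : g' / N ^ 2 = u - s / N - θ := by rw [hu]; ring
  have e5 : r / N ^ 2 * (g' + s ^ 2 / (2 * q)) = r * (g' / N ^ 2) + r * ((s / N) ^ 2 / (2 * q)) := by
    field_simp
  rw [e5, e3]
  field_simp
  ring

/-- the ratio of the counts -/
theorem f_emptyp : ∃ L : ℝ, 1 ≤ L ∧ ∀ (n d : ℕ) (B : Finset (Sym2 (Fin n))) (x y : Fin n),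
    Even (n * d) → 3 ≤ d → 16 * L * d ≤ n → BCls 2 B → x ≠ y → s(x, y) ∉ B →
    0 < cnt d ∅ B ∧ |sg B x y| ≤ L ∧ |gam B x y| ≤ L ∧ |bt B x * bt B y| ≤ L ∧
    |gam B x y - bt B x * bt B y / (1 - (d : ℝ) / n) - 1| ≤ L ∧ 1 / 2 ≤ 1 - (d : ℝ) / n ∧
      ∃ θ : ℝ, |θ| ≤ L / ((n : ℝ) ^ 2 * d) ∧
      (cnt d {s(x, y)} B : ℝ) = cnt d ∅ B * ((d : ℝ) / n * Real.exp (sg B x y / n
        + (gam B x y - bt B x * bt B y / (1 - (d : ℝ) / n) - 1) / (n : ℝ) ^ 2 + θ)) := by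
  obtain ⟨C₁, h1, H1⟩ := structure_ellp 2
  obtain ⟨C₂, h2, H2⟩ := ggp 2
  obtain ⟨C₃, h3, H3⟩ := bet_near 2
  obtain ⟨C₄, h4, H4⟩ := k_bounds 2
  obtain ⟨K, hKdef⟩ : ∃ K : ℝ, K = C₁ + C₂ + C₃ + C₄ := ⟨_, rfl⟩
  have hK1 : C₁ ≤ K := by linarith
  have hK2 : C₂ ≤ K := by linarith
  have hK3 : C₃ ≤ K := by linarith
  have hK4 : C₄ ≤ K := by linarith
  have hK : 4 ≤ K := by linarith
  have hL4 : 4 * K ≤ 4 * K ^ 2 := by nlinarith
  have h12 : C₁ + C₂ ≤ 4 * K ^ 2 := by linarith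
  refine ⟨4 * K ^ 2, by linarith, ?_⟩
  intro n d B x y hev hd hC hB hxy hnB
  have hn : 0 < n := x.pos
  have hnR : (0:ℝ) < n := by positivity
  have hdR : (3:ℝ) ≤ d := by exact_mod_cast hd
  have hd0 : (0:ℝ) < d := by linarith
  have hKd : 4 * K * d ≤ n := by
    refine le_trans ?_ hC
    have : 4 * K ≤ 16 * (4 * K ^ 2) := by linarith
    gcongr
  have c1d : C₁ * d ≤ n := by
    refine le_trans ?_ hKd
    have : C₁ ≤ 4 * K := by linarith
    gcongr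
  have hgen : ∀ c : ℝ, 1 ≤ c → c ≤ K → c * ((d : ℝ) + (1 + ((0 : ℕ) : ℝ)) ^ 6) ≤ n := by
    intro c hc0 hc
    refine le_trans ?_ hKd
    push_cast
    have e1 : c * ((d : ℝ) + (1 + 0) ^ 6) = c * (d + 1) := by norm_num
    rw [e1]
    calc c * ((d:ℝ) + 1) ≤ K * (d + 1) := by gcongr
      _ ≤ K * (4 * d) := by gcongr; linarith
      _ = 4 * K * d := by ring
  obtain ⟨P1, P2⟩ := H1 n d hev hd c1d
  have hval : Val d ∅ B x y := ⟨hxy, by simp, hnB, by rw [dg_empty]; omega, by rw [dg_empty]; omega⟩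
  have hdisj : Disjoint (∅ : Finset (Sym2 (Fin n))) B := Finset.disjoint_empty_left _
  obtain ⟨G1, -⟩ := H2 n d 0 ∅ B x y hev hd (hgen C₂ h2 hK2) (cls_empty d) hB hdisj hval
  obtain ⟨-, S1, S2⟩ := H3 n d 0 ∅ B x y hd (hgen C₃ h3 hK3) (cls_empty d) hB hdisj
  obtain ⟨-, -, -, -, -, -, T1, T2, -⟩ := H4 n d 0 ∅ B hd (hgen C₄ h4 hK4) (cls_empty d) hB hdisj
  rw [Finset.empty_union] at G1 S1 S2
  rw [bet_empty d B x y hn (by omega)] at G1
  have D := P2 ∅ B x y (cls_empty d) hB hdisj hval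
  have c0 := P1 ∅ B (cls_empty d) hB hdisj
  have c1 := P1 {s(x, y)} B (cls_single d x y hxy hd) hB (by simpa using hnB)
  have c0R : (0:ℝ) < cnt d ∅ B := by exact_mod_cast c0
  have c1R : (0:ℝ) < cnt d {s(x, y)} B := by exact_mod_cast c1
  clear H1 H2 H3 H4 P1 P2
  have hsabs : |sg B x y| ≤ K := by
    refine S1.trans ?_
    push_cast
    linarith
  have hgabs : |gam B x y| ≤ K := by
    refine S2.trans ?_
    push_cast
    linarith
  have hbabs : |bt B x * bt B y| ≤ K ^ 2 := by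
    rw [abs_mul, sq]
    exact mul_le_mul ((T1 x).trans hK4) ((T1 y).trans hK4) (abs_nonneg _) (by linarith)
  have hg'abs := g_bound K (gam B x y) (bt B x * bt B y) _ hK T2 hgabs hbabs
  have hK20 : 0 ≤ K ^ 2 := sq_nonneg K
  refine ⟨c0, by linarith, by linarith, by linarith, hg'abs, T2, ?_⟩
  generalize hg' : gam B x y - bt B x * bt B y / (1 - (d : ℝ) / n) - 1 = g' at *
  generalize hs : sg B x y = s at *
  refine ⟨DL (ellp d) d ∅ B x y + (gL (ellp d) d ∅ B x y - (s / n + g' / (n : ℝ) ^ 2)), ?_, ?_⟩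
  · calc |DL (ellp d) d ∅ B x y + (gL (ellp d) d ∅ B x y - (s / n + g' / (n : ℝ) ^ 2))|
        ≤ |DL (ellp d) d ∅ B x y| + |gL (ellp d) d ∅ B x y - (s / n + g' / (n : ℝ) ^ 2)| := abs_add_le _ _
      _ ≤ C₁ * (1 / ((n : ℝ) ^ 2 * d)) + C₂ * (1 + ((0:ℕ):ℝ)) ^ 2 / ((n : ℝ) ^ 2 * d) := add_le_add D G1
      _ = (C₁ + C₂) / ((n : ℝ) ^ 2 * d) := by push_cast; ring
      _ ≤ 4 * K ^ 2 / ((n : ℝ) ^ 2 * d) := by gcongr
  · have hp : 0 < (d:ℝ)/n := by positivity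
    have e1 : s / n + g' / (n : ℝ) ^ 2 + (DL (ellp d) d ∅ B x y + (gL (ellp d) d ∅ B x y
        - (s / n + g' / (n : ℝ) ^ 2))) = Real.log (cnt d {s(x, y)} B) - Real.log (cnt d ∅ B) - Real.log ((d:ℝ)/n) := by
      unfold DL gL
      rw [rd_empty, rd_empty, EE_empty]
      have e2 : (d:ℝ) * d / (n * d) = d / n := by field_simp
      have e3 : (insert s(x, y) (∅ : Finset (Sym2 (Fin n)))) = {s(x, y)} := rfl
      rw [e2, e3]
      ring
    rw [e1, Real.exp_sub, Real.exp_sub, Real.exp_log c1R, Real.exp_log c0R, Real.exp_log hp]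
    field_simp

/-- TARGET -/
theorem forbid_onep : ∃ C : ℝ, 1 ≤ C ∧ ∀ (n d : ℕ) (B : Finset (Sym2 (Fin n))) (x y : Fin n),
    Even (n * d) → 3 ≤ d → C * d ≤ n → BCls 2 B → x ≠ y → s(x, y) ∉ B →
    0 < cnt d ∅ B ∧ 0 < cnt d ∅ (insert s(x, y) B) ∧ |sg B x y| ≤ C ∧ |gam B x y| ≤ C ∧ |bt B x * bt B y| ≤ C ∧
      |Real.log (cnt d ∅ (insert s(x, y) B)) - Real.log (cnt d ∅ B)
        - (Real.log (1 - (d : ℝ) / n) - (d : ℝ) / (n - d) * (sg B x y / n)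
          - (d : ℝ) / (n - d) / n ^ 2 * (gam B x y - bt B x * bt B y / (1 - (d : ℝ) / n) - 1
              + sg B x y ^ 2 / (2 * (1 - (d : ℝ) / n))))|
        ≤ C / n ^ 3 := by
  obtain ⟨L, hL1, H⟩ := f_emptyp
  have hL3 : L ≤ L ^ 3 := le_self_pow₀ hL1 (by norm_num)
  refine ⟨3000 * L ^ 3, by linarith, ?_⟩
  intro n d B x y hev hd hC hB hxy hnB
  have hn : 0 < n := x.pos
  have hnR : (0:ℝ) < n := by positivity
  have hn1 : (1:ℝ) ≤ n := by exact_mod_cast hn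
  have hdR : (3:ℝ) ≤ d := by exact_mod_cast hd
  have hd0 : (0:ℝ) < d := by linarith
  have hd1 : (1:ℝ) ≤ d := by linarith
  have hbig : 16 * L * d ≤ n := by
    refine le_trans ?_ hC
    have : 16 * L ≤ 3000 * L ^ 3 := by linarith
    gcongr
  have hLN : 16 * L ≤ n := by
    refine le_trans ?_ hbig
    exact le_mul_of_one_le_right (by linarith) hd1
  obtain ⟨c0, hs, hg, hb', hg', hq, θ, hθ, hcu⟩ := H n d B x y hev hd hbig hB hxy hnB
  clear H
  have hKL : L ≤ 3000 * L ^ 3 := by linarith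
  have c0R : (0:ℝ) < cnt d ∅ B := by exact_mod_cast c0
  have hcf0 := cnt_forbid d ∅ B s(x, y)
  have e3 : (insert s(x, y) (∅ : Finset (Sym2 (Fin n)))) = {s(x, y)} := rfl
  rw [e3] at hcf0
  have hcf1 : (cnt d ∅ (insert s(x, y) B) : ℝ) + cnt d {s(x, y)} B = cnt d ∅ B := by exact_mod_cast hcf0
  have key : ∀ s g' gm bb a b c : ℝ, 0 < a → b + c = a → |s| ≤ L → |g'| ≤ L →
      g' = gm - bb / (1 - (d : ℝ) / n) - 1 → c = a * ((d : ℝ) / n * Real.exp (s / n + g' / (n : ℝ) ^ 2 + θ)) →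
      0 < b ∧ |Real.log b - Real.log a
        - (Real.log (1 - (d : ℝ) / n) - (d : ℝ) / (n - d) * (s / n)
          - (d : ℝ) / (n - d) / n ^ 2 * (gm - bb / (1 - (d : ℝ) / n) - 1
              + s ^ 2 / (2 * (1 - (d : ℝ) / n))))| ≤ 3000 * L ^ 3 / n ^ 3 := by
    intro s g' gm bb a b c ha hbc hs hg' hg'e hc
    obtain ⟨u, hu⟩ : ∃ u : ℝ, u = s / n + g' / (n : ℝ) ^ 2 + θ := ⟨_, rfl⟩
    obtain ⟨hus, huL, hu4, hup⟩ := sizes n d L s g' θ u hn1 hd1 hL1 hLN hs hg' hθ hu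
    have hp : 0 < (d:ℝ)/n := by positivity
    have hp2 : (d:ℝ)/n ≤ 1/2 := by linarith
    obtain ⟨hpos, hb⟩ := phi_bound2 ((d:ℝ)/n) u hp hp2 hu4
    rw [← hu] at hc
    have hbb : b = a * (1 - (d:ℝ)/n * Real.exp u) := by
      rw [hc] at hbc
      linear_combination hbc
    refine ⟨by rw [hbb]; exact mul_pos ha hpos, ?_⟩
    rw [hbb, Real.log_mul ha.ne' hpos.ne']
    obtain ⟨e1, hr0, hr2⟩ := ratio n d hnR hd0 hp2
    have hq0 : 1 - (d:ℝ) / n ≠ 0 := by linarith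
    rw [e1] at hb
    rw [exp_identity (Real.log a) (Real.log (1 - (d:ℝ)/n * Real.exp u)) (Real.log (1 - (d:ℝ)/n))
      (1 - (d:ℝ)/n) _ s g' θ u n _ hnR.ne' hq0 hu (by rw [hg'e])]
    exact tail_bound n d L s θ _ _ u _ hn1 hd0 hL1 hp2 hq hr0 hr2 hb huL hus hup hθ
  obtain ⟨k1, k2⟩ := key _ _ _ _ _ _ _ c0R hcf1 hs hg' rfl hcu
  exact ⟨c0, by exact_mod_cast k1, hs.trans hKL, hg.trans hKL, hb'.trans hKL, k2⟩

end MT1

export MT1 (forbid_onep)

end Pool.Agent.H698NC
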