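import Pool.Agent.H698NC.T1
import Pool.Agent.H698NC.Q2

set_option autoImplicit false

namespace Pool.Agent.H698NC

open Finset

namespace MT3

variable {n : ℕ}

/-! ### own lemmas -/

private lemma mem_nbr (A : Finset (Sym2 (Fin n))) (v w : Fin n) : w ∈ nbr A v ↔ s(v, w) ∈ A := by
  simp [nbr]

private lemma dg_insert (C : Finset (Sym2 (Fin n))) (x y : Fin n) (hxy : x ≠ y) (h : s(x, y) ∉ C)
    (v : Fin n) : dg (insert s(x, y) C) v = dg C v + (if v = x then 1 else 0) + (if v = y then 1 else 0) := by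
  unfold dg
  by_cases hvx : v = x
  · subst hvx
    have : nbr (insert s(v, y) C) v = insert y (nbr C v) := by
      ext w
      simp only [mem_nbr, Finset.mem_insert, Sym2.eq_iff]
      constructor
      · rintro ((⟨_, h2⟩ | ⟨h1, _⟩) | h3)
        · exact Or.inl h2
        · exact absurd h1 hxy
        · exact Or.inr h3
      · rintro (h1 | h2)
        · exact Or.inl (Or.inl ⟨trivial, h1⟩)
        · exact Or.inr h2
    rw [this, Finset.card_insert_of_notMem (by rw [mem_nbr]; exact h), if_pos rfl, if_neg hxy]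
  · by_cases hvy : v = y
    · subst hvy
      have : nbr (insert s(x, v) C) v = insert x (nbr C v) := by
        ext w
        simp only [mem_nbr, Finset.mem_insert, Sym2.eq_iff]
        constructor
        · rintro ((⟨h1, _⟩ | ⟨_, h2⟩) | h3)
          · exact absurd h1.symm hxy
          · exact Or.inl h2
          · exact Or.inr h3
        · rintro (h1 | h2)
          · exact Or.inl (Or.inr ⟨trivial, h1⟩)
          · exact Or.inr h2
      rw [this, Finset.card_insert_of_notMem (by rw [mem_nbr, Sym2.eq_swap]; exact h), if_neg hvx, if_pos rfl]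
    · have : nbr (insert s(x, y) C) v = nbr C v := by
        ext w
        simp only [mem_nbr, Finset.mem_insert, Sym2.eq_iff]
        constructor
        · rintro ((⟨h1, _⟩ | ⟨h1, _⟩) | h3)
          · exact absurd h1 hvx
          · exact absurd h1 hvy
          · exact h3
        · intro h3; exact Or.inr h3
      rw [this, if_neg hvx, if_neg hvy, add_zero, add_zero]

private lemma W0_insert (C : Finset (Sym2 (Fin n))) (x y : Fin n) (hxy : x ≠ y) (h : s(x, y) ∉ C) :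
    W0 (insert s(x, y) C) = W0 C + 2 := by
  unfold W0
  have : ∀ v, ((dg (insert s(x, y) C) v : ℕ) : ℝ)
      = dg C v + (if v = x then 1 else 0) + (if v = y then 1 else 0) := by
    intro v
    rw [dg_insert C x y hxy h v]
    push_cast
    ring
  simp only [this, Finset.sum_add_distrib, Finset.sum_ite_eq', Finset.mem_univ, if_true]
  ring

private lemma W0_union (A0 : Finset (Sym2 (Fin n))) (S : Finset (Sym2 (Fin n))) (hS : ND S)
    (hd : ∀ e ∈ S, e ∉ A0) : W0 (A0 ∪ S) = W0 A0 + 2 * S.card := by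
  classical
  induction S using Finset.induction_on with
  | empty => simp
  | insert e S he ih =>
    have ih' := ih (fun f hf => hS f (Finset.mem_insert_of_mem hf))
      (fun f hf => hd f (Finset.mem_insert_of_mem hf))
    induction e using Sym2.ind with
    | _ x y =>
      have hxy : x ≠ y := fun h => hS s(x, y) (Finset.mem_insert_self _ _) (by rw [h]; simp)
      have hn : s(x, y) ∉ A0 ∪ S := by
        rw [Finset.mem_union]
        push Not
        exact ⟨hd _ (Finset.mem_insert_self _ _), he⟩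
      rw [Finset.union_insert, W0_insert _ _ _ hxy hn, ih', Finset.card_insert_of_notMem he]
      push_cast
      ring

private lemma nbr_union (A B : Finset (Sym2 (Fin n))) (v : Fin n) : nbr (A ∪ B) v = nbr A v ∪ nbr B v := by
  ext w; simp [mem_nbr]

private lemma nbr_mono {A B : Finset (Sym2 (Fin n))} (h : A ⊆ B) (v : Fin n) : nbr A v ⊆ nbr B v := by
  intro w; rw [mem_nbr, mem_nbr]; exact fun hw => h hw

private lemma dg_mono {A B : Finset (Sym2 (Fin n))} (h : A ⊆ B) (v : Fin n) : dg A v ≤ dg B v :=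
  Finset.card_le_card (nbr_mono h v)

private lemma nbr_empty_of (E S : Finset (Sym2 (Fin n))) (hE : ∀ v, dg E v = 1) (hS : S ⊆ E) (x y : Fin n)
    (he : s(x, y) ∈ E) (hn : s(x, y) ∉ S) : nbr S x = ∅ := by
  obtain ⟨z, hz⟩ := Finset.card_eq_one.1 (hE x)
  have hy : y = z := by
    have : y ∈ nbr E x := by rw [mem_nbr]; exact he
    rw [hz] at this
    exact Finset.mem_singleton.1 this
  rw [Finset.eq_empty_iff_forall_notMem]
  intro w hw
  have h1 := nbr_mono hS x hw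
  rw [hz, Finset.mem_singleton] at h1
  rw [mem_nbr, h1, ← hy] at hw
  exact hn hw

private noncomputable def mainT (L c q n a i w : ℝ) : ℝ :=
  i * L - c / n * ((1 + a) * i - i * (i - 1) / n)
    - c / n ^ 2 * (w - (i * (-3 * a - 5) / n + 5 * i * (i - 1) / n ^ 2 + 10 * i / (3 * n ^ 2))
      - (2 / 3 * (i - 1) * i * (2 * i - 1) / n ^ 2) / q - i
      + ((1 + a) ^ 2 * i - 2 * (1 + a) * i * (i - 1) / n + 2 / 3 * (i - 1) * i * (2 * i - 1) / n ^ 2) / (2 * q))

private lemma mainT_step (L c q n a i w w' : ℝ) (hn : n ≠ 0) (hq : q ≠ 0) :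
    mainT L c q n a (i + 1) w' - mainT L c q n a i w
      = L - c * ((1 + a - 2 * i / n) / n) - c / n ^ 2 * ((w' - w - ((10 * i / n - 3 * a - 5) / n + 10 / (3 * n ^ 2)))
        - (2 * i / n) ^ 2 / q - 1 + (1 + a - 2 * i / n) ^ 2 / (2 * q)) := by
  unfold mainT
  field_simp
  ring

/-- the statement of `forbid_onep` for a given constant -/
private def FO (C : ℝ) : Prop := ∀ (n d : ℕ) (B : Finset (Sym2 (Fin n))) (x y : Fin n),
    Even (n * d) → 3 ≤ d → C * d ≤ n → BCls 2 B → x ≠ y → s(x, y) ∉ B →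
    0 < cnt d ∅ B ∧ 0 < cnt d ∅ (insert s(x, y) B) ∧ |sg B x y| ≤ C ∧ |gam B x y| ≤ C ∧ |bt B x * bt B y| ≤ C ∧
      |Real.log (cnt d ∅ (insert s(x, y) B)) - Real.log (cnt d ∅ B)
        - (Real.log (1 - (d : ℝ) / n) - (d : ℝ) / (n - d) * (sg B x y / n)
          - (d : ℝ) / (n - d) / n ^ 2 * (gam B x y - bt B x * bt B y / (1 - (d : ℝ) / n) - 1
              + sg B x y ^ 2 / (2 * (1 - (d : ℝ) / n))))|
        ≤ C / n ^ 3

private lemma chain (C : ℝ) (hFO : FO C) (n d : ℕ) (hev : Even (n * d)) (hd : 3 ≤ d)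
    (hCd : C * d ≤ n) (h2d : 2 * (d : ℝ) ≤ n) (a : ℕ) (A0 E : Finset (Sym2 (Fin n)))
    (hB : ∀ S ⊆ E, BCls 2 (A0 ∪ S)) (hdj : ∀ e ∈ E, e ∉ A0) (hE : ND E)
    (hdg : ∀ S ⊆ E, ∀ x y, s(x, y) ∈ E → s(x, y) ∉ S → dg (A0 ∪ S) x = a)
    (hW : W0 A0 = a * n) (S : Finset (Sym2 (Fin n))) (hS : S ⊆ E) :
    |Real.log (cnt d ∅ (A0 ∪ S)) - Real.log (cnt d ∅ A0)
      - mainT (Real.log (1 - (d : ℝ) / n)) ((d : ℝ) / (n - d)) (1 - (d : ℝ) / n) n a S.card
          (WW (A0 ∪ S) - WW A0)| ≤ C * S.card / n ^ 3 := by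
  classical
  have hd0 : (3 : ℝ) ≤ d := by exact_mod_cast hd
  have hn0 : (0 : ℝ) < n := by linarith
  have hq : (0 : ℝ) < 1 - (d : ℝ) / n := by
    rw [sub_pos, div_lt_one hn0]; linarith
  induction S using Finset.induction_on with
  | empty =>
    simp [mainT]
  | insert e S he ih =>
    have hSE : S ⊆ E := fun f hf => hS (Finset.mem_insert_of_mem hf)
    have heE : e ∈ E := hS (Finset.mem_insert_self _ _)
    have ih' := ih hSE
    induction e using Sym2.ind with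
    | _ x y =>
      have hxy : x ≠ y := fun h => hE s(x, y) heE (by rw [h]; simp)
      have hn : s(x, y) ∉ A0 ∪ S := by
        rw [Finset.mem_union]
        push Not
        exact ⟨hdj _ heE, he⟩
      have hx := hdg S hSE x y heE he
      have hy := hdg S hSE y x (by rw [Sym2.eq_swap]; exact heE) (by rw [Sym2.eq_swap]; exact he)
      have hW0 : W0 (A0 ∪ S) = a * n + 2 * S.card := by
        rw [W0_union A0 S (fun f hf => hE f (hSE hf)) (fun f hf => hdj f (hSE hf)), hW]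
      have hst := (hFO n d (A0 ∪ S) x y hev hd hCd (hB S hSE) hxy hn).2.2.2.2.2
      have hWI := WW_insert (A0 ∪ S) x y (hB S hSE).nd hxy hn
      have hsg : sg (A0 ∪ S) x y = 1 + a - 2 * S.card / n := by
        unfold sg
        rw [hx, hy, hW0]
        field_simp
        ring
      have hbx : bt (A0 ∪ S) x = - (2 * S.card / n) := by
        unfold bt
        rw [hx, hW0]
        field_simp
        ring
      have hby : bt (A0 ∪ S) y = - (2 * S.card / n) := by
        unfold bt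
        rw [hy, hW0]
        field_simp
        ring
      have hgam : gam (A0 ∪ S) x y = (WW (insert s(x, y) (A0 ∪ S)) - WW A0) - (WW (A0 ∪ S) - WW A0)
          - ((10 * (S.card : ℝ) / n - 3 * a - 5) / n + 10 / (3 * (n : ℝ) ^ 2)) := by
        rw [hx, hy, hW0] at hWI
        have h3 : (5 * ((a * n + 2 * (S.card : ℝ)) / n) - 4 * (a : ℝ) - 4 * (a : ℝ) - 5) / n
            = (10 * (S.card : ℝ) / n - 3 * a - 5) / n := by
          field_simp
          ring
        rw [h3] at hWI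
        linarith
      have hms := mainT_step (Real.log (1 - (d : ℝ) / n)) ((d : ℝ) / (n - d)) (1 - (d : ℝ) / n) n a
        S.card (WW (A0 ∪ S) - WW A0) (WW (insert s(x, y) (A0 ∪ S)) - WW A0) hn0.ne' hq.ne'
      rw [hsg, hbx, hby, hgam, neg_mul_neg, ← sq, ← hms] at hst
      rw [Finset.union_insert, Finset.card_insert_of_notMem he]
      push_cast
      have h4 := (abs_add_le _ _).trans (add_le_add hst ih')
      have e1 : C / (n : ℝ) ^ 3 + C * S.card / (n : ℝ) ^ 3 = C * (S.card + 1) / (n : ℝ) ^ 3 := by ring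
      rw [e1] at h4
      refine le_trans (le_of_eq ?_) h4
      congr 1
      ring

private lemma pos_cnt (C : ℝ) (hFO : FO C) (n d : ℕ) (hev : Even (n * d)) (hd : 3 ≤ d)
    (hCd : C * d ≤ n) (h2d : 2 * (d : ℝ) ≤ n) (B : Finset (Sym2 (Fin n))) (hB : BCls 2 B) :
    0 < cnt d ∅ B := by
  classical
  have hn6 : 6 ≤ n := by
    have h1 : (3 : ℝ) ≤ d := by exact_mod_cast hd
    have h2 : (6 : ℝ) ≤ n := by linarith
    exact_mod_cast h2
  let x : Fin n := ⟨0, by omega⟩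
  have hcard : (insert x (nbr B x)).card < (Finset.univ : Finset (Fin n)).card := by
    rw [Finset.card_univ, Fintype.card_fin]
    have h1 := Finset.card_insert_le x (nbr B x)
    have h2 : (nbr B x).card ≤ 2 := hB.lem x
    omega
  obtain ⟨y, _, hy⟩ := Finset.exists_mem_notMem_of_card_lt_card hcard
  rw [Finset.mem_insert] at hy
  push Not at hy
  exact (hFO n d B x y hev hd hCd hB (Ne.symm hy.1) (by rw [← mem_nbr]; exact hy.2)).1

private lemma dg_empty (v : Fin n) : dg (∅ : Finset (Sym2 (Fin n))) v = 0 := by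
  simp [dg, nbr]

private lemma WW_empty : WW (∅ : Finset (Sym2 (Fin n))) = 0 := by
  simp [WW, W0, W1, W2, W3, dg_empty]

private lemma W0_empty : W0 (∅ : Finset (Sym2 (Fin n))) = 0 := by
  simp [W0, dg_empty]

private lemma cnt_empty (n d : ℕ) : cnt d (∅ : Finset (Sym2 (Fin n))) ∅ = (RG n d).card := by
  classical
  unfold cnt
  congr 1
  ext G
  simp

private lemma alg1 (L c q N : ℝ) (hN : N ≠ 0) (hq : q ≠ 0) :
    mainT L c q N 0 (N / 2) (-N / 12 - 0) - (N / 2 * L - c * (1 / 4 + 1 / (2 * N)) + c / N * (7 / 12 + 1 / (12 * q)))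
      = -(c / N ^ 2) * (5 / 4 + 5 / (6 * N) + 1 / q * (3 / 4 - 1 / (6 * N))) := by
  unfold mainT
  field_simp
  ring

private lemma alg2 (L c q N r : ℝ) (hN : N ≠ 0) (hq : q ≠ 0) :
    mainT L c q N 1 (N / 2 - r * N) (N * (gp (2 * (r * N) / N) - 1 / 6) - -N / 12)
      - ((N / 2 - r * N) * L - c * (3 / 4 + 1 / (2 * N) - (r * N) / N - (r * N) ^ 2 / N ^ 2)
        - c / N * (-1 / 12 + 5 / (12 * q)))
      = c * (r * N) / N ^ 2 - c / N ^ 2 * ((r * N) * (3 / 2 - 3 * r - 10 / 3 * r ^ 2) + r * N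
        - (-8 * (1 / 2 - r) + 5 * (1 / 2 - r) ^ 2 - 5 * (1 / 2 - r) / N + 10 / 3 * (1 / 2 - r) / N)
        + 1 / q * ((r * N) / 2 - 3 * (r * N) * r + 2 / 3 * (r * N) * r ^ 2 + 1 - 2 * r + (1 / 2 - r) ^ 2
          - (1 / 2 - r) / (3 * N))) := by
  have h : 2 * (r * N) / N = 2 * r := by field_simp
  rw [h]
  unfold mainT gp
  field_simp
  ring

private lemma bounds (n d : ℕ) (hd : 3 ≤ d) (h2d : 2 * (d : ℝ) ≤ n) :
    6 ≤ (n : ℝ) ∧ 0 ≤ (d : ℝ) / (n - d) ∧ (d : ℝ) / (n - d) ≤ 1 ∧ 1 / 2 ≤ 1 - (d : ℝ) / n := by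
  have h1 : (3 : ℝ) ≤ d := by exact_mod_cast hd
  have h3 : (0 : ℝ) < n - d := by linarith
  have hn : (0 : ℝ) < n := by linarith
  refine ⟨by linarith, by positivity, ?_, ?_⟩
  · rw [div_le_one h3]; linarith
  · have : (d : ℝ) / n ≤ 1 / 2 := by
      rw [div_le_div_iff₀ hn (by norm_num)]; linarith
    linarith

private lemma num2 (c q N J r : ℝ) (hN : 6 ≤ N) (hc0 : 0 ≤ c) (hc1 : c ≤ 1) (hq : 1 / 2 ≤ q) (hJ0 : 0 ≤ J)
    (hr0 : 0 ≤ r) (hr1 : r ≤ 1 / 2) :
    |c * J / N ^ 2 - c / N ^ 2 * (J * (3 / 2 - 3 * r - 10 / 3 * r ^ 2) + J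
        - (-8 * (1 / 2 - r) + 5 * (1 / 2 - r) ^ 2 - 5 * (1 / 2 - r) / N + 10 / 3 * (1 / 2 - r) / N)
        + 1 / q * (J / 2 - 3 * J * r + 2 / 3 * J * r ^ 2 + 1 - 2 * r + (1 / 2 - r) ^ 2
          - (1 / 2 - r) / (3 * N)))| ≤ (13 * J + 16) / N ^ 2 := by
  have hN0 : 0 < N := by linarith
  have hqi : 1 / q ≤ 2 := by
    rw [div_le_iff₀ (by linarith)]; linarith
  have hqi0 : 0 ≤ 1 / q := by
    apply div_nonneg <;> linarith
  have hni : 1 / N ≤ 1 := by
    rw [div_le_one (by linarith)]; linarith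
  have hni0 : 0 ≤ 1 / N := by positivity
  have hJr : J * r ≤ J * (1 / 2) := mul_le_mul_of_nonneg_left hr1 hJ0
  have hJr0 : 0 ≤ J * r := mul_nonneg hJ0 hr0
  have hr2 : r ^ 2 ≤ 1 / 4 := by nlinarith
  have hr20 : 0 ≤ r ^ 2 := sq_nonneg r
  have hJr2 : J * r ^ 2 ≤ J * (1 / 4) := mul_le_mul_of_nonneg_left hr2 hJ0
  have hJr20 : 0 ≤ J * r ^ 2 := mul_nonneg hJ0 hr20
  have ht0 : 0 ≤ (1 / 2 - r) := by linarith
  have ht2 : (1 / 2 - r) ^ 2 ≤ 1 / 4 := by nlinarith
  have ht20 : 0 ≤ (1 / 2 - r) ^ 2 := sq_nonneg _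
  have htn : (1 / 2 - r) * (1 / N) ≤ (1 / 2) * 1 := mul_le_mul (by linarith) hni hni0 (by norm_num)
  have htn0 : 0 ≤ (1 / 2 - r) * (1 / N) := mul_nonneg ht0 hni0
  have e1 : 5 * (1 / 2 - r) / N = 5 * ((1 / 2 - r) * (1 / N)) := by ring
  have e2 : 10 / 3 * (1 / 2 - r) / N = 10 / 3 * ((1 / 2 - r) * (1 / N)) := by ring
  have e4 : (1 / 2 - r) / (3 * N) = 1 / 3 * ((1 / 2 - r) * (1 / N)) := by field_simp
  have e5 : 3 * J * r = 3 * (J * r) := by ring
  have e6 : 2 / 3 * J * r ^ 2 = 2 / 3 * (J * r ^ 2) := by ring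
  have e7 : J * (3 / 2 - 3 * r - 10 / 3 * r ^ 2) = 3 / 2 * J - 3 * (J * r) - 10 / 3 * (J * r ^ 2) := by ring
  rw [e1, e2, e4, e5, e6, e7]
  generalize (1 / 2 - r) * (1 / N) = tn at *
  generalize (1 / 2 - r) ^ 2 = t2 at *
  generalize J * r ^ 2 = a2 at *
  generalize J * r = a1 at *
  obtain ⟨X, hX⟩ : ∃ X, X = J / 2 - 3 * a1 + 2 / 3 * a2 + 1 - 2 * r + t2 - 1 / 3 * tn := ⟨_, rfl⟩
  rw [← hX]
  have hXa : |X| ≤ 3 * J + 3 := by
    rw [abs_le, hX]
    constructor <;> linarith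
  have hqX : |1 / q * X| ≤ 6 * J + 6 := by
    rw [abs_mul, abs_of_nonneg hqi0]
    calc 1 / q * |X| ≤ 2 * (3 * J + 3) := mul_le_mul hqi hXa (abs_nonneg _) (by norm_num)
      _ = 6 * J + 6 := by ring
  obtain ⟨hq1, hq2⟩ := abs_le.1 hqX
  generalize 1 / q * X = Z at *
  obtain ⟨Y, hY⟩ : ∃ Y, Y = 3 / 2 * J - 3 * a1 - 10 / 3 * a2 + J
        - (-8 * (1 / 2 - r) + 5 * t2 - 5 * tn + 10 / 3 * tn) + Z := ⟨_, rfl⟩
  rw [← hY]
  have hJY : |J - Y| ≤ 13 * J + 16 := by
    rw [abs_le, hY]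
    constructor <;> linarith
  have e8 : c * J / N ^ 2 - c / N ^ 2 * Y = c * (J - Y) / N ^ 2 := by ring
  rw [e8, abs_div, abs_mul, abs_of_nonneg hc0, abs_of_nonneg (by positivity : (0 : ℝ) ≤ N ^ 2)]
  apply div_le_div_of_nonneg_right _ (by positivity)
  calc c * |J - Y| ≤ 1 * (13 * J + 16) := mul_le_mul hc1 hJY (abs_nonneg _) (by norm_num)
    _ = 13 * J + 16 := by ring

private lemma num3 (C N J : ℝ) (hC : 1 ≤ C) (hN : 6 ≤ N) (hJ0 : 0 ≤ J) :
    C * (N / 2 - J) / N ^ 3 + (13 * J + 16) / N ^ 2 ≤ (C + 20) * (1 + J) / N ^ 2 := by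
  have hN0 : 0 < N := by linarith
  have hCJ : 0 ≤ C * J := mul_nonneg (by linarith) hJ0
  have h9 : C * (N / 2 - J) / N ^ 3 ≤ C / N ^ 2 := by
    rw [div_le_div_iff₀ (by positivity) (by positivity)]
    have hCN : 0 ≤ C * N := mul_nonneg (by linarith) hN0.le
    have : C * (N / 2 - J) ≤ C * N := by linarith
    calc C * (N / 2 - J) * N ^ 2 ≤ C * N * N ^ 2 := by
          apply mul_le_mul_of_nonneg_right this (by positivity)
      _ = C * N ^ 3 := by ring
  have h10 : C / N ^ 2 + (13 * J + 16) / N ^ 2 ≤ (C + 20) * (1 + J) / N ^ 2 := by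
    rw [← add_div]
    apply div_le_div_of_nonneg_right _ (by positivity)
    linarith
  linarith

/-- TARGET 1 -/
theorem forbid_pmp : ∃ C : ℝ, 1 ≤ C ∧ ∀ (n d : ℕ) (M : SimpleGraph (Fin n)),
    Even n → 3 ≤ d → C * d ≤ n → M ∈ RG n 1 →
    0 < cnt d ∅ (es M) ∧ 0 < (RG n d).card ∧
      |Real.log (cnt d ∅ (es M)) - Real.log ((RG n d).card)
        - ((n : ℝ) / 2 * Real.log (1 - (d : ℝ) / n) - (d : ℝ) / (n - d) * (1 / 4 + 1 / (2 * n))
          + (d : ℝ) / (n - d) / n * (7 / 12 + 1 / (12 * (1 - (d : ℝ) / n))))| ≤ C / n ^ 2 := by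
  classical
  obtain ⟨C, hC1, hC⟩ := forbid_onep
  have hFO : FO C := hC
  refine ⟨C + 20, by linarith, ?_⟩
  intro n d M hn hd hCd' hM
  obtain ⟨hND, hdeg, hcard⟩ := es_pm M hM
  have hd0 : (3 : ℝ) ≤ d := by exact_mod_cast hd
  have hCd : C * d ≤ n := by nlinarith
  have h2d : 2 * (d : ℝ) ≤ n := by nlinarith
  have hev : Even (n * d) := hn.mul_right d
  obtain ⟨hn6, hc0, hc1, hq⟩ := bounds n d hd h2d
  have hB : ∀ S ⊆ es M, BCls 2 (∅ ∪ S) := by
    intro S hS
    rw [Finset.empty_union]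
    exact ⟨fun e he => hND e (hS he), fun v => (dg_mono hS v).trans (by rw [hdeg v]; norm_num)⟩
  have hch := chain C hFO n d hev hd hCd h2d 0 ∅ (es M) hB (fun e _ => by simp) hND
    (fun S hS x y he hne => by
      rw [Finset.empty_union]
      unfold dg
      rw [nbr_empty_of (es M) S hdeg hS x y he hne, Finset.card_empty])
    (by rw [W0_empty]; simp) (es M) (Finset.Subset.refl _)
  have hcr : ((es M).card : ℝ) = (n : ℝ) / 2 := by
    have : (2 : ℝ) * (es M).card = n := by exact_mod_cast hcard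
    linarith
  rw [Finset.empty_union, cnt_empty, (WW_pm hn M M hM hM).1, WW_empty, hcr] at hch
  simp only [Nat.cast_zero] at hch
  have hp1 := pos_cnt C hFO n d hev hd hCd h2d (es M) (by simpa using hB (es M) (Finset.Subset.refl _))
  have hp2 := pos_cnt C hFO n d hev hd hCd h2d (∅ ∪ ∅) (hB ∅ (Finset.empty_subset _))
  rw [Finset.empty_union, cnt_empty] at hp2
  refine ⟨hp1, hp2, ?_⟩
  have hn0 : (n : ℝ) ≠ 0 := by linarith
  have hq0 : (1 - (d : ℝ) / n) ≠ 0 := by linarith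
  have halg := alg1 (Real.log (1 - (d : ℝ) / n)) ((d : ℝ) / (n - d)) (1 - (d : ℝ) / n) n hn0 hq0
  set c : ℝ := (d : ℝ) / (n - d) with hcdef
  set q : ℝ := 1 - (d : ℝ) / n with hqdef
  have hqi : 1 / q ≤ 2 := by
    rw [div_le_iff₀ (by linarith)]; linarith
  have hqi0 : 0 ≤ 1 / q := by
    apply div_nonneg <;> linarith
  have hni : 1 / (n : ℝ) ≤ 1 := by
    rw [div_le_one (by linarith)]; linarith
  have hni0 : 0 ≤ 1 / (n : ℝ) := by positivity
  have hP0 : 0 ≤ 5 / 4 + 5 / (6 * (n : ℝ)) + 1 / q * (3 / 4 - 1 / (6 * n)) := by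
    have e1 : 5 / (6 * (n : ℝ)) = 5 / 6 * (1 / n) := by field_simp
    have e2 : 1 / (6 * (n : ℝ)) = 1 / 6 * (1 / n) := by field_simp
    rw [e1, e2]
    have : 0 ≤ 3 / 4 - 1 / 6 * (1 / (n : ℝ)) := by linarith
    positivity
  have hP4 : 5 / 4 + 5 / (6 * (n : ℝ)) + 1 / q * (3 / 4 - 1 / (6 * n)) ≤ 4 := by
    have e1 : 5 / (6 * (n : ℝ)) = 5 / 6 * (1 / n) := by field_simp
    have e2 : 1 / (6 * (n : ℝ)) = 1 / 6 * (1 / n) := by field_simp
    rw [e1, e2]
    have h5 : 1 / q * (3 / 4 - 1 / 6 * (1 / (n : ℝ))) ≤ 2 * (3 / 4) := by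
      apply mul_le_mul hqi (by linarith) (by linarith) (by norm_num)
    linarith
  set P : ℝ := 5 / 4 + 5 / (6 * (n : ℝ)) + 1 / q * (3 / 4 - 1 / (6 * n)) with hP
  have h6 : |-(c / (n : ℝ) ^ 2) * P| ≤ 4 / n ^ 2 := by
    rw [abs_mul, abs_neg, abs_of_nonneg (by positivity), abs_of_nonneg hP0, div_mul_eq_mul_div]
    apply div_le_div_of_nonneg_right _ (by positivity)
    nlinarith
  rw [← halg] at h6
  have h7 := (abs_add_le _ _).trans (add_le_add hch h6)
  have e3 : C * ((n : ℝ) / 2) / n ^ 3 + 4 / n ^ 2 = (C / 2 + 4) / n ^ 2 := by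
    field_simp
  rw [e3] at h7
  have h8 : (C / 2 + 4) / (n : ℝ) ^ 2 ≤ (C + 20) / n ^ 2 := by
    apply div_le_div_of_nonneg_right _ (by positivity)
    linarith
  refine le_trans (le_of_eq ?_) (h7.trans h8)
  congr 1
  ring

/-- TARGET 2 -/
theorem forbid_twop : ∃ C : ℝ, 1 ≤ C ∧ ∀ (n d : ℕ) (M M' : SimpleGraph (Fin n)),
    Even n → 3 ≤ d → C * d ≤ n → M ∈ RG n 1 → M' ∈ RG n 1 →
    0 < cnt d ∅ (es M) ∧ 0 < cnt d ∅ (es M ∪ es M') ∧
      |Real.log (cnt d ∅ (es M ∪ es M')) - Real.log (cnt d ∅ (es M))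
        - (((n : ℝ) / 2 - (es M ∩ es M').card) * Real.log (1 - (d : ℝ) / n)
          - (d : ℝ) / (n - d) * (3 / 4 + 1 / (2 * n) - ((es M ∩ es M').card : ℝ) / n - ((es M ∩ es M').card : ℝ) ^ 2 / n ^ 2)
          - (d : ℝ) / (n - d) / n * (-1 / 12 + 5 / (12 * (1 - (d : ℝ) / n))))|
        ≤ C * (1 + (es M ∩ es M').card) / n ^ 2 := by
  classical
  obtain ⟨C, hC1, hC⟩ := forbid_onep
  have hFO : FO C := hC
  refine ⟨C + 20, by linarith, ?_⟩
  intro n d M M' hn hd hCd' hM hM'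
  obtain ⟨hND, hdeg, hcard⟩ := es_pm M hM
  obtain ⟨hND', hdeg', hcard'⟩ := es_pm M' hM'
  have hd0 : (3 : ℝ) ≤ d := by exact_mod_cast hd
  have hCd : C * d ≤ n := by nlinarith
  have h2d : 2 * (d : ℝ) ≤ n := by nlinarith
  have hev : Even (n * d) := hn.mul_right d
  obtain ⟨hn6, hc0, hc1, hq⟩ := bounds n d hd h2d
  have hsub : es M' \ es M ⊆ es M' := Finset.sdiff_subset
  have hB : ∀ S ⊆ es M' \ es M, BCls 2 (es M ∪ S) := by
    intro S hS
    refine ⟨?_, ?_⟩
    · intro e he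
      rcases Finset.mem_union.1 he with h | h
      · exact hND e h
      · exact hND' e (hsub (hS h))
    · intro v
      have h1 : dg (es M ∪ S) v ≤ dg (es M) v + dg S v := by
        unfold dg
        rw [nbr_union]
        exact Finset.card_union_le _ _
      have h2 := dg_mono (hS.trans hsub) v
      rw [hdeg] at h1
      rw [hdeg'] at h2
      omega
  have hch := chain C hFO n d hev hd hCd h2d 1 (es M) (es M' \ es M) hB
    (fun e he => (Finset.mem_sdiff.1 he).2) (fun e he => hND' e (hsub he))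
    (fun S hS x y he hne => by
      have h1 := nbr_empty_of (es M') S hdeg' (hS.trans hsub) x y (hsub he) hne
      have h2 : dg (es M ∪ S) x = dg (es M) x := by
        unfold dg
        rw [nbr_union, h1, Finset.union_empty]
      rw [h2, hdeg])
    (by unfold W0; simp [hdeg]) (es M' \ es M) (Finset.Subset.refl _)
  set J : ℕ := (es M ∩ es M').card with hJ
  have hJc : ((es M' \ es M).card : ℝ) = (n : ℝ) / 2 - J := by
    have h1 := Finset.card_sdiff_add_card_inter (es M') (es M)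
    rw [Finset.inter_comm, ← hJ] at h1
    have h2 : ((es M' \ es M).card : ℝ) + J = (es M').card := by exact_mod_cast h1
    have h3 : (2 : ℝ) * (es M').card = n := by exact_mod_cast hcard'
    linarith
  have hJn : (J : ℝ) ≤ n / 2 := by
    have : (0 : ℝ) ≤ ((es M' \ es M).card : ℝ) := by positivity
    linarith
  rw [Finset.union_sdiff_self_eq_union, (WW_pm hn M M' hM hM').1, (WW_pm hn M M' hM hM').2, hJc, ← hJ] at hch
  simp only [Nat.cast_one] at hch
  have hp1 := pos_cnt C hFO n d hev hd hCd h2d (es M) (by simpa using hB ∅ (Finset.empty_subset _))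
  have hp2 := pos_cnt C hFO n d hev hd hCd h2d (es M ∪ es M')
    (by simpa using hB (es M' \ es M) (Finset.Subset.refl _))
  refine ⟨hp1, hp2, ?_⟩
  have hn0 : (n : ℝ) ≠ 0 := by linarith
  have hq0 : (1 - (d : ℝ) / n) ≠ 0 := by linarith
  set r : ℝ := (J : ℝ) / n with hr
  have hrN : (J : ℝ) = r * n := by rw [hr]; field_simp
  have hr0 : 0 ≤ r := div_nonneg (Nat.cast_nonneg J) (by linarith)
  have hr1 : r ≤ 1 / 2 := by
    rw [hr, div_le_iff₀ (by linarith)]; linarith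
  have halg := alg2 (Real.log (1 - (d : ℝ) / n)) ((d : ℝ) / (n - d)) (1 - (d : ℝ) / n) n r hn0 hq0
  rw [← hrN] at halg
  have h6 := num2 ((d : ℝ) / (n - d)) (1 - (d : ℝ) / n) n J r hn6 hc0 hc1 hq (Nat.cast_nonneg J) hr0 hr1
  rw [← halg] at h6
  have h7 := (abs_add_le _ _).trans (add_le_add hch h6)
  have h8 := num3 C n J hC1 hn6 (Nat.cast_nonneg J)
  refine le_trans (le_of_eq ?_) (h7.trans h8)
  congr 1
  ring

end MT3

export MT3 (forbid_pmp forbid_twop)

end Pool.Agent.H698NC
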