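import Mathlib

set_option autoImplicit false

namespace Pool.Agent.H698NC

open Finset

namespace MT5



theorem t5_df (s : ℕ) : (2 * (s + 1) - 1).doubleFactorial = (2 * s + 1) * (2 * s - 1).doubleFactorial := by
  cases s with
  | zero => rfl
  | succ s =>
    have e1 : 2 * (s + 1 + 1) - 1 = (2 * (s + 1) - 1) + 2 := by omega
    rw [e1, Nat.doubleFactorial_add_two]
    congr 1

/-- the product -/
noncomputable def t5p (m i : ℕ) : ℝ := ∏ t ∈ range i, (2 * (m : ℝ) - 2 * t) / (2 * m - 2 * t - 1)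

theorem t5_eq (m i : ℕ) (hi : i ≤ m) :
    (m.choose i : ℝ) * ((2 * m - 2 * i - 1).doubleFactorial : ℝ) * (2 ^ i * (i.factorial : ℝ)) =
      ((2 * m - 1).doubleFactorial : ℝ) * t5p m i := by
  induction i with
  | zero => simp [t5p]
  | succ i ih =>
    have ih' := ih (by omega)
    obtain ⟨s, hs⟩ : ∃ s, m = i + 1 + s := ⟨m - (i + 1), by omega⟩
    have e1 : 2 * m - 2 * i - 1 = 2 * (s + 1) - 1 := by omega
    have e2 : 2 * m - 2 * (i + 1) - 1 = 2 * s - 1 := by omega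
    rw [e1, t5_df] at ih'
    rw [e2]
    have e3 : (m.choose (i + 1) : ℝ) * (i + 1) = (m.choose i : ℝ) * (s + 1) := by
      have h1 := Nat.choose_succ_right_eq m i
      have h2 : m - i = s + 1 := by omega
      rw [h2] at h1
      exact_mod_cast h1
    have e4 : t5p m (i + 1) = t5p m i * ((2 * (s : ℝ) + 2) / (2 * s + 1)) := by
      unfold t5p
      rw [prod_range_succ]
      congr 1
      rw [hs]
      push_cast
      congr 1 <;> ring
    rw [e4, ← mul_assoc (((2 * m - 1).doubleFactorial : ℕ) : ℝ), ← ih', pow_succ, Nat.factorial_succ]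
    push_cast
    have h5 : (0 : ℝ) < 2 * s + 1 := by positivity
    field_simp
    linear_combination e3

theorem t5_pow (u : ℝ) (h0 : 0 ≤ u) (h1 : u ≤ 1) (i : ℕ) : (1 + u) ^ i ≤ 1 + i * u + 3 ^ i * u ^ 2 := by
  induction i with
  | zero => simp; positivity
  | succ i ih =>
    have h2 : (i : ℝ) ≤ 3 ^ i := by
      exact_mod_cast (Nat.lt_pow_self (show 1 < 3 by norm_num)).le
    have h3 : (0 : ℝ) ≤ 3 ^ i := by positivity
    calc (1 + u) ^ (i + 1) = (1 + u) ^ i * (1 + u) := pow_succ _ _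
      _ ≤ (1 + i * u + 3 ^ i * u ^ 2) * (1 + u) := by gcongr
      _ = 1 + (i + 1) * u + (i + 3 ^ i + 3 ^ i * u) * u ^ 2 := by ring
      _ ≤ 1 + (i + 1) * u + (3 ^ (i + 1)) * u ^ 2 := by
          have h4 : (i : ℝ) + 3 ^ i + 3 ^ i * u ≤ 3 ^ (i + 1) := by
            rw [pow_succ]; nlinarith
          gcongr
      _ = _ := by push_cast; ring

theorem t5_sq4 (i : ℕ) : i ^ 2 ≤ 4 ^ i := by
  have h1 : i ≤ 2 ^ i := (Nat.lt_pow_self (show 1 < 2 by norm_num)).le
  calc i ^ 2 ≤ (2 ^ i) ^ 2 := Nat.pow_le_pow_left h1 2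
    _ = 4 ^ i := by rw [← pow_mul, mul_comm, pow_mul]; norm_num

theorem t5_sq2 (i : ℕ) : i ^ 2 ≤ 2 * 2 ^ i := by
  induction i with
  | zero => norm_num
  | succ i ih =>
    rcases Nat.lt_or_ge i 3 with h | h
    · interval_cases i <;> norm_num
    · have e : 2 ^ (i + 1) = 2 * 2 ^ i := by ring
      rw [e]; nlinarith

theorem t5_p_le (m i : ℕ) (hm : 1 ≤ m) (hi : i ≤ m) :
    t5p m i ≤ 1 + i / ((2 * m : ℕ) : ℝ) + 32 * 4 ^ i / ((2 * m : ℕ) : ℝ) ^ 2 := by
  have hm1 : (1 : ℝ) ≤ m := by exact_mod_cast hm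
  have him : (i : ℝ) ≤ m := by exact_mod_cast hi
  push_cast
  have hfac : ∀ t ∈ range i, (t : ℝ) ≤ i - 1 := by
    intro t ht
    have : t + 1 ≤ i := Finset.mem_range.1 ht
    have h2 : ((t : ℝ) + 1) ≤ i := by exact_mod_cast this
    linarith
  have hpos : ∀ t ∈ range i, 0 ≤ (2 * (m : ℝ) - 2 * t) / (2 * m - 2 * t - 1) := by
    intro t ht
    have := hfac t ht
    apply div_nonneg <;> linarith
  rcases le_or_gt (4 * i) (2 * m) with h4 | h4
  · -- small `i`
    have h4' : 4 * (i : ℝ) ≤ 2 * m := by exact_mod_cast h4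
    set u : ℝ := 1 / (2 * m + 1 - 2 * i) with hu
    have hden : (0 : ℝ) < 2 * m + 1 - 2 * i := by linarith
    have hu0 : 0 ≤ u := by positivity
    have hu1 : u ≤ 1 := by
      rw [hu, div_le_one hden]; linarith
    have hu2 : u ≤ 1 / m := by
      rw [hu]
      apply div_le_div_of_nonneg_left (by norm_num) (by linarith) (by linarith)
    have hu3 : u ≤ 1 / (2 * m) + 4 * i / (2 * m) ^ 2 := by
      rw [hu]
      have e : 1 / (2 * (m : ℝ)) + 4 * i / (2 * m) ^ 2 = (2 * m + 4 * i) / (2 * m) ^ 2 := by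
        field_simp
      rw [e, div_le_div_iff₀ hden (by positivity)]
      have hi0 : (0 : ℝ) ≤ i := Nat.cast_nonneg i
      nlinarith
    have h1 : t5p m i ≤ (1 + u) ^ i := by
      unfold t5p
      calc _ ≤ ∏ _t ∈ range i, (1 + u) := by
            refine prod_le_prod hpos fun t ht => ?_
            have h2 := hfac t ht
            have h3 : (0 : ℝ) < 2 * m - 2 * t - 1 := by linarith
            have e : (2 * (m : ℝ) - 2 * t) / (2 * m - 2 * t - 1) = 1 + 1 / (2 * m - 2 * t - 1) := by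
              have e1 : (2 * (m : ℝ) - 2 * t) = (2 * m - 2 * t - 1) + 1 := by ring
              rw [e1, add_sub_cancel_right, add_div, div_self h3.ne']
            rw [e]
            have : 1 / (2 * (m : ℝ) - 2 * t - 1) ≤ u := by
              rw [hu]
              apply div_le_div_of_nonneg_left (by norm_num) hden (by linarith)
            linarith
        _ = _ := by simp
    refine h1.trans ((t5_pow u hu0 hu1 i).trans ?_)
    have hi0 : (0 : ℝ) ≤ i := Nat.cast_nonneg i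
    have h5 : (i : ℝ) * u ≤ i / (2 * m) + 4 * i ^ 2 / (2 * m) ^ 2 := by
      calc (i : ℝ) * u ≤ i * (1 / (2 * m) + 4 * i / (2 * m) ^ 2) := by gcongr
        _ = _ := by ring
    have h6 : (3 : ℝ) ^ i * u ^ 2 ≤ 4 * 4 ^ i / (2 * m) ^ 2 := by
      have h7 : u ^ 2 ≤ (1 / (m : ℝ)) ^ 2 := pow_le_pow_left₀ hu0 hu2 2
      have h8 : (3 : ℝ) ^ i ≤ 4 ^ i := pow_le_pow_left₀ (by norm_num) (by norm_num) i
      calc (3 : ℝ) ^ i * u ^ 2 ≤ 4 ^ i * (1 / (m : ℝ)) ^ 2 := by gcongr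
        _ = _ := by field_simp; norm_num
    have h9 : (i : ℝ) ^ 2 ≤ 4 ^ i := by exact_mod_cast t5_sq4 i
    have h10 : 4 * (i : ℝ) ^ 2 / (2 * m) ^ 2 ≤ 4 * 4 ^ i / (2 * m) ^ 2 := by gcongr
    have h11 : 4 * (4 : ℝ) ^ i / (2 * m) ^ 2 + 4 * 4 ^ i / (2 * m) ^ 2 ≤ 32 * 4 ^ i / (2 * m) ^ 2 := by
      rw [← add_div]
      gcongr
      have : (0 : ℝ) ≤ 4 ^ i := by positivity
      linarith
    linarith
  · -- large `i`
    have h1 : t5p m i ≤ 2 ^ i := by
      unfold t5p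
      calc _ ≤ ∏ _t ∈ range i, (2 : ℝ) := by
            refine prod_le_prod hpos fun t ht => ?_
            have h2 := hfac t ht
            rw [div_le_iff₀ (by linarith)]
            linarith
        _ = _ := by simp
    have h2 : (2 : ℝ) ^ i ≤ 32 * 4 ^ i / (2 * m) ^ 2 := by
      rw [le_div_iff₀ (by positivity)]
      have h3 : (2 * m) ^ 2 ≤ 32 * 2 ^ i := by
        have := t5_sq2 i
        nlinarith
      have h3' : (2 * (m : ℝ)) ^ 2 ≤ 32 * 2 ^ i := by exact_mod_cast h3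
      have e : (4 : ℝ) ^ i = 2 ^ i * 2 ^ i := by rw [← mul_pow]; norm_num
      rw [e]
      have : (0 : ℝ) ≤ 2 ^ i := by positivity
      nlinarith
    have h3 : (0 : ℝ) ≤ i / (2 * m) := by positivity
    linarith

theorem t5_sum1 (y : ℝ) (hy : 0 ≤ y) (k : ℕ) :
    ∑ i ∈ range (k + 1), y ^ i / (i.factorial : ℝ) * i ≤ y * Real.exp y := by
  rw [sum_range_succ']
  simp only [Nat.cast_zero, mul_zero, add_zero]
  have e : ∀ i ∈ range k, y ^ (i + 1) / ((i + 1).factorial : ℝ) * ((i + 1 : ℕ) : ℝ) =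
      y * (y ^ i / (i.factorial : ℝ)) := by
    intro i _
    rw [Nat.factorial_succ]
    push_cast
    have h1 : (0 : ℝ) < i.factorial := by exact_mod_cast Nat.factorial_pos i
    field_simp
    ring
  rw [sum_congr rfl e, ← mul_sum]
  exact mul_le_mul_of_nonneg_left (Real.sum_le_exp_of_nonneg hy k) hy

/-- TARGET -/
theorem gf_le2 : ∃ C : ℝ, 1 ≤ C ∧ ∀ (n : ℕ), Even n → 2 ≤ n → ∀ X : ℝ, 1 ≤ X → X ≤ 3 →
    ∑ i ∈ range (n / 2 + 1), ((n / 2).choose i : ℝ) * ((n - 2 * i - 1).doubleFactorial : ℝ) * (X - 1) ^ i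
      ≤ ((n - 1).doubleFactorial : ℝ) * (Real.exp ((X - 1) / 2) * (1 + (X - 1) / 2 / n) + C / (n : ℝ) ^ 2) := by
  refine ⟨32 * Real.exp 4, ?_, ?_⟩
  · have := Real.add_one_le_exp (4 : ℝ)
    linarith
  intro n hn h2 X hX1 hX3
  obtain ⟨m, hm⟩ := hn
  have hnm : n = 2 * m := by omega
  subst hnm
  clear hm
  have hm1 : 1 ≤ m := by omega
  have e0 : 2 * m / 2 = m := by omega
  rw [e0]
  set y : ℝ := (X - 1) / 2 with hy
  have hy0 : 0 ≤ y := by rw [hy]; linarith
  have hy1 : y ≤ 1 := by rw [hy]; linarith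
  have hX : X - 1 = 2 * y := by rw [hy]; ring
  have hD : (0 : ℝ) ≤ ((2 * m - 1).doubleFactorial : ℝ) := Nat.cast_nonneg _
  have hmR : (1 : ℝ) ≤ m := by exact_mod_cast hm1
  have key : ∀ i ∈ range (m + 1), (m.choose i : ℝ) * ((2 * m - 2 * i - 1).doubleFactorial : ℝ) *
      (X - 1) ^ i ≤ ((2 * m - 1).doubleFactorial : ℝ) * (y ^ i / (i.factorial : ℝ) *
        (1 + i / ((2 * m : ℕ) : ℝ) + 32 * 4 ^ i / ((2 * m : ℕ) : ℝ) ^ 2)) := by
    intro i hi
    have hi' : i ≤ m := by have := Finset.mem_range.1 hi; omega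
    have h1 := t5_eq m i hi'
    have h3 := t5_p_le m i hm1 hi'
    have hf : (0 : ℝ) < i.factorial := by exact_mod_cast Nat.factorial_pos i
    calc (m.choose i : ℝ) * ((2 * m - 2 * i - 1).doubleFactorial : ℝ) * (X - 1) ^ i
        = ((m.choose i : ℝ) * ((2 * m - 2 * i - 1).doubleFactorial : ℝ) *
          (2 ^ i * (i.factorial : ℝ))) * (y ^ i / (i.factorial : ℝ)) := by
          rw [hX, mul_pow]; field_simp
      _ = ((2 * m - 1).doubleFactorial : ℝ) * (y ^ i / (i.factorial : ℝ) * t5p m i) := by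
          rw [h1]; ring
      _ ≤ _ := by gcongr
  refine (sum_le_sum key).trans ?_
  rw [← mul_sum]
  refine mul_le_mul_of_nonneg_left ?_ hD
  have e1 : ∀ i ∈ range (m + 1), y ^ i / (i.factorial : ℝ) *
        (1 + i / ((2 * m : ℕ) : ℝ) + 32 * 4 ^ i / ((2 * m : ℕ) : ℝ) ^ 2) =
      y ^ i / (i.factorial : ℝ) + 1 / ((2 * m : ℕ) : ℝ) * (y ^ i / (i.factorial : ℝ) * i) +
        32 / ((2 * m : ℕ) : ℝ) ^ 2 * ((4 * y) ^ i / (i.factorial : ℝ)) := by
    intro i _
    rw [mul_pow]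
    ring
  rw [sum_congr rfl e1, sum_add_distrib, sum_add_distrib, ← mul_sum, ← mul_sum]
  have s1 := Real.sum_le_exp_of_nonneg hy0 (m + 1)
  have s2 := t5_sum1 y hy0 m
  have s3 := Real.sum_le_exp_of_nonneg (show 0 ≤ 4 * y by linarith) (m + 1)
  have s4 : Real.exp (4 * y) ≤ Real.exp 4 := Real.exp_le_exp.2 (by linarith)
  have hn0 : (0 : ℝ) < ((2 * m : ℕ) : ℝ) := by push_cast; linarith
  calc _ ≤ Real.exp y + 1 / ((2 * m : ℕ) : ℝ) * (y * Real.exp y) +
        32 / ((2 * m : ℕ) : ℝ) ^ 2 * Real.exp 4 := by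
        gcongr
        exact s3.trans s4
    _ = _ := by ring

end MT5

export MT5 (gf_le2)

end Pool.Agent.H698NC
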