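import Pool.Agent.H698NC.T3
import Pool.Agent.H698NC.T5
import Pool.Agent.H698NC.E

set_option autoImplicit false

namespace Pool.Agent.H698NC

open Finset

namespace MT6

variable {n : ℕ}

theorem R1p_exp2 (x : ℝ) (h0 : 0 ≤ x) (h1 : x ≤ 1) : Real.exp x ≤ 1 + x + x ^ 2 := by
  have := Real.abs_exp_sub_one_sub_id_le (x := x) (by rw [abs_of_nonneg h0]; exact h1)
  have h2 := (abs_le.1 this).2
  linarith

theorem R1p_exp3 (x : ℝ) (h0 : 0 ≤ x) (h1 : x ≤ 1) : Real.exp x ≤ 1 + 2 * x := by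
  have := R1p_exp2 x h0 h1
  nlinarith

theorem R1p_sq (J : ℕ) : (J : ℝ) ^ 2 ≤ 8 * (3 / 2) ^ J := by
  by_cases h : J < 5
  · interval_cases J <;> norm_num
  · push Not at h
    induction J, h using Nat.le_induction with
    | base => norm_num
    | succ k hk ih =>
      have hk' : (5 : ℝ) ≤ k := by exact_mod_cast hk
      rw [pow_succ (3 / 2 : ℝ) k]
      push_cast
      have h1 : ((k : ℝ) + 1) ^ 2 ≤ (k : ℝ) ^ 2 * (3 / 2) := by nlinarith
      linarith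

/-- numerical estimate -/
theorem R1p_num (n c A : ℝ) (hA : 1 ≤ A) (hn : 3 * (1 + A) ≤ n) (hc0 : 0 ≤ c) (hc1 : c ≤ 1 / 9)
    (X : ℝ) (hX : X = (1 + c) * Real.exp (c / n + A / n ^ 2)) :
    1 ≤ X ∧ X ≤ 2 ∧
    Real.exp (-(c / 2) - c / n * (1 + c / 2) + A / n ^ 2) *
      (Real.exp ((X - 1) / 2) * (1 + (X - 1) / 2 / n)) ≤
      Real.exp ((A + (2 * (A + (1 + A) ^ 2) + 1)) / n ^ 2) := by
  have hn0 : 0 < n := by linarith
  have hn1 : 1 ≤ n := by linarith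
  obtain ⟨u, hu⟩ : ∃ u, u = 1 / n := ⟨_, rfl⟩
  have hu0 : 0 < u := by rw [hu]; positivity
  have hu1 : u * (3 * (1 + A)) ≤ 1 := by
    rw [hu, one_div, ← div_eq_inv_mul, div_le_one hn0]
    exact hn
  have e1 : ∀ z : ℝ, z / n = z * u := fun z => by rw [hu]; ring
  have e2 : ∀ z : ℝ, z / n ^ 2 = z * u ^ 2 := fun z => by rw [hu]; ring
  obtain ⟨t, ht⟩ : ∃ t, t = c * u + A * u ^ 2 := ⟨_, rfl⟩
  have hu2 : u ≤ 1 / 6 := by nlinarith
  have ht0 : 0 ≤ t := by rw [ht]; positivity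
  have hAu : (1 + A) * u ≤ 1 / 3 := by nlinarith
  have ht1 : t ≤ (1 + A) * u := by
    rw [ht]
    have h1 : c * u ≤ 1 * u := mul_le_mul_of_nonneg_right (by linarith) hu0.le
    have h2 : A * u ^ 2 ≤ A * u := by
      have : u ^ 2 ≤ u := by nlinarith
      exact mul_le_mul_of_nonneg_left this (by linarith)
    linarith
  have ht2 : t ≤ 1 / 3 := ht1.trans hAu
  have hX' : X = (1 + c) * Real.exp t := by rw [hX, e1, e2, ht]
  have hexp1 : 1 ≤ Real.exp t := Real.one_le_exp ht0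
  have hexp2 : Real.exp t ≤ 1 + t + t ^ 2 := R1p_exp2 t ht0 (by linarith)
  have hX1 : 1 ≤ X := by rw [hX']; nlinarith
  have hX2 : X ≤ 2 := by
    rw [hX']
    have h1 : Real.exp t ≤ 13 / 9 := by nlinarith
    have h2 : (1 + c) * Real.exp t ≤ (10 / 9) * (13 / 9) :=
      mul_le_mul (by linarith) h1 (by positivity) (by norm_num)
    linarith
  refine ⟨hX1, hX2, ?_⟩
  obtain ⟨y, hy⟩ : ∃ y, y = (X - 1) / 2 := ⟨_, rfl⟩
  rw [← hy]
  have hy0 : 0 ≤ y := by rw [hy]; linarith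
  obtain ⟨B, hB⟩ : ∃ B, B = A + (1 + A) ^ 2 := ⟨_, rfl⟩
  have hB0 : 0 ≤ B := by rw [hB]; nlinarith
  have hy1 : y ≤ c / 2 + (c + c ^ 2) / 2 * u + B * u ^ 2 := by
    have h1 : X ≤ (1 + c) * (1 + t + t ^ 2) := by
      rw [hX']; exact mul_le_mul_of_nonneg_left hexp2 (by linarith)
    have h2 : t ^ 2 ≤ (1 + A) ^ 2 * u ^ 2 := by
      rw [← mul_pow]; exact pow_le_pow_left₀ ht0 ht1 2
    have h3 : (1 + c) * (1 + t + t ^ 2) = 1 + c + (1 + c) * t + (1 + c) * t ^ 2 := by ring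
    have h4 : (1 + c) * t ^ 2 ≤ 2 * ((1 + A) ^ 2 * u ^ 2) :=
      mul_le_mul (by linarith) h2 (by positivity) (by norm_num)
    have h5 : (1 + c) * t ≤ (c + c ^ 2) * u + 2 * (A * u ^ 2) := by
      rw [ht]
      have : (1 + c) * (A * u ^ 2) ≤ 2 * (A * u ^ 2) :=
        mul_le_mul_of_nonneg_right (by linarith) (by positivity)
      nlinarith
    rw [hy, hB]
    nlinarith
  have hy2 : Real.exp y * (1 + y / n) ≤ Real.exp (y + y * u) := by
    rw [Real.exp_add, e1]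
    apply mul_le_mul_of_nonneg_left _ (Real.exp_pos _).le
    have := Real.add_one_le_exp (y * u)
    linarith
  refine (mul_le_mul_of_nonneg_left hy2 (Real.exp_pos _).le).trans ?_
  rw [← Real.exp_add]
  apply Real.exp_le_exp.2
  rw [e1, e2, e2, ← hB]
  have h6 : y * u ≤ (c / 2 + (c + c ^ 2) / 2 * u + B * u ^ 2) * u :=
    mul_le_mul_of_nonneg_right hy1 hu0.le
  have h7 : (c + c ^ 2) / 2 * u * u ≤ 1 * u ^ 2 := by
    have : (c + c ^ 2) / 2 ≤ 1 := by nlinarith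
    have h8 := mul_le_mul_of_nonneg_right this (sq_nonneg u)
    linarith
  have h9 : B * u ^ 2 * u ≤ B * u ^ 2 * 1 :=
    mul_le_mul_of_nonneg_left (by linarith) (by positivity)
  nlinarith

theorem R1p_aux1 (n C1 C2 J : ℝ) (hn : 0 < n) (hC1 : 0 ≤ C1) (hJ : 0 ≤ J) :
    C1 / n ^ 2 + C2 * (1 + J) / n ^ 2 ≤ (C1 + C2) / n ^ 2 + J * ((C1 + C2) / n ^ 2) := by
  have e1 : C1 / n ^ 2 + C2 * (1 + J) / n ^ 2 = (C1 + C2 * (1 + J)) / n ^ 2 := by ring
  have e2 : (C1 + C2) / n ^ 2 + J * ((C1 + C2) / n ^ 2) = ((C1 + C2) + J * (C1 + C2)) / n ^ 2 := by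
    ring
  rw [e1, e2]
  apply div_le_div_of_nonneg_right _ (by positivity)
  have : 0 ≤ J * C1 := by positivity
  nlinarith

theorem R1p_aux2 (n c J : ℝ) (hn : 0 < n) (hc0 : 0 ≤ c) (hc9 : c ≤ 1 / 9) (hJ : 0 ≤ J)
    (hJ2 : 2 * J ≤ n) : Real.exp (c * J ^ 2 / n ^ 2) ≤ 1 + 2 * J ^ 2 / n ^ 2 := by
  have k0 : J ^ 2 ≤ n ^ 2 := pow_le_pow_left₀ hJ (by linarith) 2
  have k00 : c * J ^ 2 ≤ 1 * J ^ 2 := mul_le_mul_of_nonneg_right (by linarith) (sq_nonneg J)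
  have k1 : c * J ^ 2 / n ^ 2 ≤ 1 := by
    rw [div_le_one (by positivity)]
    linarith
  have k2 : c * J ^ 2 / n ^ 2 ≤ J ^ 2 / n ^ 2 := by
    apply div_le_div_of_nonneg_right _ (by positivity)
    linarith
  have k3 := R1p_exp3 _ (by positivity) k1
  have k4 : 2 * J ^ 2 / n ^ 2 = 2 * (J ^ 2 / n ^ 2) := by ring
  rw [k4]
  linarith

theorem R1p_aux3 (n C10 D : ℝ) (hn : 1 ≤ n) (h0 : 0 ≤ C10) (h1 : C10 ≤ n) (h2 : 2 * C10 ≤ D) :
    Real.exp (C10 / n ^ 2) ≤ 1 + D / n ^ 2 := by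
  have hn2 : n ≤ n ^ 2 := by nlinarith
  have k1 : C10 / n ^ 2 ≤ 1 := by
    rw [div_le_one (by positivity)]
    linarith
  refine (R1p_exp3 _ (by positivity) k1).trans ?_
  have e : 2 * (C10 / n ^ 2) = 2 * C10 / n ^ 2 := by ring
  rw [e]
  have := div_le_div_of_nonneg_right h2 (show 0 ≤ n ^ 2 by positivity)
  linarith

set_option maxHeartbeats 4000000 in
/-- TARGET -/
theorem R1p_le : ∃ C : ℝ, 1 ≤ C ∧ ∀ n d : ℕ, Even n → 3 ≤ d → C * d ≤ n →
    ((RG n d).card : ℝ) * ∑ M ∈ RG n 1, ∑ M' ∈ RG n 1, (cnt d ∅ (es M ∪ es M') : ℝ)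
      ≤ (1 + C / n ^ 2) * (∑ M ∈ RG n 1, (cnt d ∅ (es M) : ℝ)) ^ 2 := by
  classical
  obtain ⟨C1, hC1, f1⟩ := forbid_pmp
  obtain ⟨C2, hC2, f2⟩ := forbid_twop
  obtain ⟨C3, hC3, f3⟩ := gf_le2
  obtain ⟨A, hA⟩ : ∃ A, A = C1 + C2 := ⟨_, rfl⟩
  have hA1 : 1 ≤ A := by linarith
  obtain ⟨C8, hC8⟩ : ∃ C8, C8 = 2 * (A + (1 + A) ^ 2) + 1 := ⟨_, rfl⟩
  have hC8' : 0 ≤ C8 := by rw [hC8]; positivity
  obtain ⟨C5, hC5⟩ : ∃ C5, C5 = 8 * (6 + C3) := ⟨_, rfl⟩
  have hC5' : 0 ≤ C5 := by rw [hC5]; positivity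
  obtain ⟨C9, hC9⟩ : ∃ C9, C9 = (A + C8) + (C3 + 2 * C5) := ⟨_, rfl⟩
  have hC9' : 0 ≤ C9 := by rw [hC9]; positivity
  obtain ⟨C10, hC10⟩ : ∃ C10, C10 = 2 * C1 + C9 := ⟨_, rfl⟩
  have hC10' : 0 ≤ C10 := by rw [hC10]; positivity
  refine ⟨C1 + C2 + 2 * C10 + 2 * A + 10, by linarith, ?_⟩
  intro n d hn hd hCd
  have hd' : (3 : ℝ) ≤ d := by exact_mod_cast hd
  have hdpos : (0 : ℝ) < d := by linarith
  have hn3 : 3 * (C1 + C2 + 2 * C10 + 2 * A + 10) ≤ n := by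
    refine le_trans ?_ hCd
    rw [mul_comm]
    exact mul_le_mul_of_nonneg_left hd' (by linarith)
  have hnpos : (0 : ℝ) < n := by linarith
  have hn1 : (1 : ℝ) ≤ n := by linarith
  have hn2 : 2 ≤ n := by
    have : (2 : ℝ) ≤ n := by linarith
    exact_mod_cast this
  have hc1d : C1 * d ≤ n := (mul_le_mul_of_nonneg_right (by linarith) hdpos.le).trans hCd
  have hc2d : C2 * d ≤ n := (mul_le_mul_of_nonneg_right (by linarith) hdpos.le).trans hCd
  have h10d : 10 * (d : ℝ) ≤ n := (mul_le_mul_of_nonneg_right (by linarith) hdpos.le).trans hCd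
  have hnd : (0 : ℝ) < n - d := by linarith
  -- parameters
  obtain ⟨c, hc⟩ : ∃ c : ℝ, c = (d : ℝ) / (n - d) := ⟨_, rfl⟩
  have hc0 : 0 ≤ c := by rw [hc]; positivity
  have hc9 : c ≤ 1 / 9 := by
    rw [hc, div_le_iff₀ hnd]; linarith
  obtain ⟨q, hq⟩ : ∃ q : ℝ, q = 1 - (d : ℝ) / n := ⟨_, rfl⟩
  have hq0 : 0 < q := by
    rw [hq, sub_pos, div_lt_one hnpos]; linarith
  have hqc : q⁻¹ = 1 + c := by
    rw [hq, hc]
    field_simp
    ring
  have hq12 : 1 / (12 * q) = (1 + c) / 12 := by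
    rw [← hqc]; field_simp
  have hq5 : 5 / (12 * q) = 5 * (1 + c) / 12 := by
    rw [← hqc]; field_simp
  rcases (RG n 1).eq_empty_or_nonempty with hemp | ⟨M0, hM0⟩
  · rw [hemp]; simp
  -- the number of perfect matchings
  have hcardM : ((RG n 1).card : ℝ) = ((n - 1).doubleFactorial : ℝ) := by
    have h := pm_gf hn M0 hM0 1
    simp only [one_pow, Finset.sum_const, nsmul_eq_mul, mul_one, sub_self] at h
    rw [h, Finset.sum_eq_single 0]
    · simp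
    · intro b _ hb
      rw [zero_pow hb, mul_zero]
    · intro hh
      exact absurd (Finset.mem_range.2 (by omega)) hh
  obtain ⟨R, hR⟩ : ∃ R : ℝ, R = ((RG n 1).card : ℝ) := ⟨_, rfl⟩
  have hRpos : 0 < R := by
    rw [hR]
    exact_mod_cast Finset.card_pos.2 ⟨M0, hM0⟩
  obtain ⟨N, hN⟩ : ∃ N : ℝ, N = ((RG n d).card : ℝ) := ⟨_, rfl⟩
  have hNpos : 0 < N := by
    rw [hN]
    exact_mod_cast (f1 n d M0 hn hd hc1d hM0).2.1
  obtain ⟨K, hK⟩ : ∃ K : ℝ, K = (n : ℝ) / 2 * Real.log q - c * (1 / 4 + 1 / (2 * n))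
          + c / n * (7 / 12 + 1 / (12 * q)) := ⟨_, rfl⟩
  obtain ⟨ab, hab⟩ : ∃ ab : ℝ, ab = N * Real.exp K := ⟨_, rfl⟩
  have habpos : 0 < ab := by rw [hab]; positivity
  have hlogab : Real.log ab = Real.log N + K := by
    rw [hab, Real.log_mul hNpos.ne' (Real.exp_pos _).ne', Real.log_exp]
  -- lower and upper bounds for `cnt ∅ (es M)`
  have ha : ∀ M ∈ RG n 1, (0 : ℝ) < cnt d ∅ (es M) ∧
      |Real.log (cnt d ∅ (es M)) - Real.log ab| ≤ C1 / n ^ 2 := by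
    intro M hM
    obtain ⟨h1, _, h3⟩ := f1 n d M hn hd hc1d hM
    refine ⟨by exact_mod_cast h1, ?_⟩
    rw [hlogab, hK, hN]
    rw [← hq, ← hc] at h3
    have e : Real.log (cnt d ∅ (es M)) - (Real.log ((RG n d).card) + ((n : ℝ) / 2 * Real.log q -
        c * (1 / 4 + 1 / (2 * n)) + c / n * (7 / 12 + 1 / (12 * q)))) =
        Real.log (cnt d ∅ (es M)) - Real.log ((RG n d).card) - ((n : ℝ) / 2 * Real.log q -
        c * (1 / 4 + 1 / (2 * n)) + c / n * (7 / 12 + 1 / (12 * q))) := by ring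
    rw [e]
    exact h3
  have ha_lo : ∀ M ∈ RG n 1, ab * Real.exp (-(C1 / n ^ 2)) ≤ (cnt d ∅ (es M) : ℝ) := by
    intro M hM
    obtain ⟨h1, h2⟩ := ha M hM
    rw [← Real.exp_log habpos, ← Real.exp_add, ← Real.exp_log h1]
    apply Real.exp_le_exp.2
    have := (abs_le.1 h2).1
    linarith
  -- the weight
  obtain ⟨X, hX⟩ : ∃ X : ℝ, X = Real.exp (-Real.log q + (c / n + A / n ^ 2)) := ⟨_, rfl⟩
  have hX' : X = (1 + c) * Real.exp (c / n + A / n ^ 2) := by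
    rw [hX, Real.exp_add, Real.exp_neg, Real.exp_log hq0, hqc]
  obtain ⟨hX1, hX2, hX3⟩ := R1p_num (n : ℝ) c A hA1 (by linarith) hc0 hc9 X hX'
  obtain ⟨Pf, hPf⟩ : ∃ Pf : ℝ, Pf = Real.exp (-(c / 2) - c / n * (1 + c / 2) + A / n ^ 2) := ⟨_, rfl⟩
  have hPfpos : 0 < Pf := by rw [hPf]; positivity
  have hpair : ∀ M ∈ RG n 1, ∀ M' ∈ RG n 1, N * (cnt d ∅ (es M ∪ es M') : ℝ) ≤
      ab ^ 2 * (Pf * (X ^ (es M ∩ es M').card *
        (1 + 2 * ((es M ∩ es M').card : ℝ) ^ 2 / n ^ 2))) := by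
    intro M hM M' hM'
    obtain ⟨h1, h2⟩ := ha M hM
    obtain ⟨_, g1, g2⟩ := f2 n d M M' hn hd hc2d hM hM'
    have hJn : (es M ∩ es M').card ≤ (es M).card := Finset.card_le_card Finset.inter_subset_left
    have hMn := (es_pm M hM).2.2
    obtain ⟨J, hJ⟩ : ∃ J : ℕ, J = (es M ∩ es M').card := ⟨_, rfl⟩
    rw [← hJ] at g2 hJn ⊢
    have hJ2 : 2 * (J : ℝ) ≤ n := by
      have : 2 * J ≤ n := by omega
      exact_mod_cast this
    obtain ⟨bb, hbb⟩ : ∃ bb : ℝ, bb = (cnt d ∅ (es M ∪ es M') : ℝ) := ⟨_, rfl⟩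
    have hbpos : 0 < bb := by rw [hbb]; exact_mod_cast g1
    rw [← hbb] at g2 ⊢
    rw [← hq, ← hc] at g2
    have hlogb : Real.log bb ≤ Real.log N + K + C1 / n ^ 2 +
        (((n : ℝ) / 2 - J) * Real.log q - c * (3 / 4 + 1 / (2 * n) - (J : ℝ) / n - (J : ℝ) ^ 2 / n ^ 2)
          - c / n * (-1 / 12 + 5 / (12 * q))) + C2 * (1 + J) / n ^ 2 := by
      have k1 := (abs_le.1 g2).2
      have k2 := (abs_le.1 h2).2
      rw [hlogab] at k2
      linarith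
    have hexpand : Real.log N + Real.log bb ≤ 2 * (Real.log N + K) +
        ((-(c / 2) - c / n * (1 + c / 2) + A / n ^ 2) + ((J : ℝ) * (-Real.log q + (c / n + A / n ^ 2)) +
          c * (J : ℝ) ^ 2 / n ^ 2)) := by
      have e1 : -K + (((n : ℝ) / 2 - J) * Real.log q -
          c * (3 / 4 + 1 / (2 * n) - (J : ℝ) / n - (J : ℝ) ^ 2 / n ^ 2)
          - c / n * (-1 / 12 + 5 / (12 * q))) =
          -(c / 2) - c / n * (1 + c / 2) + ((J : ℝ) * (-Real.log q + c / n) +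
          c * (J : ℝ) ^ 2 / n ^ 2) := by
        rw [hK, hq12, hq5]
        ring
      have e2 : C1 / (n : ℝ) ^ 2 + C2 * (1 + J) / n ^ 2 ≤ A / n ^ 2 + J * (A / n ^ 2) := by
        rw [hA]
        exact R1p_aux1 n C1 C2 J hnpos (by linarith) (Nat.cast_nonneg J)
      have e3 : (J : ℝ) * (-Real.log q + (c / n + A / n ^ 2)) =
          (J : ℝ) * (-Real.log q + c / n) + J * (A / n ^ 2) := by ring
      rw [e3]
      linarith
    have hX4 : X ^ J = Real.exp ((J : ℝ) * (-Real.log q + (c / n + A / n ^ 2))) := by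
      rw [hX, ← Real.exp_nat_mul]
    have hcJ : Real.exp (c * (J : ℝ) ^ 2 / n ^ 2) ≤ 1 + 2 * (J : ℝ) ^ 2 / n ^ 2 :=
      R1p_aux2 n c J hnpos hc0 hc9 (Nat.cast_nonneg J) hJ2
    have hfin : N * bb ≤ ab ^ 2 * (Pf * (X ^ J * Real.exp (c * (J : ℝ) ^ 2 / n ^ 2))) := by
      rw [hX4, hPf, ← Real.exp_add, ← Real.exp_add]
      have e1 : N * bb = Real.exp (Real.log N + Real.log bb) := by
        rw [Real.exp_add, Real.exp_log hNpos, Real.exp_log hbpos]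
      have e2 : ab ^ 2 = Real.exp (2 * (Real.log N + K)) := by
        rw [← hlogab, two_mul, Real.exp_add, Real.exp_log habpos, sq]
      rw [e1, e2, ← Real.exp_add]
      exact Real.exp_le_exp.2 hexpand
    refine hfin.trans ?_
    apply mul_le_mul_of_nonneg_left _ (by positivity)
    apply mul_le_mul_of_nonneg_left _ hPfpos.le
    exact mul_le_mul_of_nonneg_left hcJ (by positivity)
  -- the inner sum
  have hinner : ∀ M ∈ RG n 1, ∑ M' ∈ RG n 1, (X ^ (es M ∩ es M').card *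
        (1 + 2 * ((es M ∩ es M').card : ℝ) ^ 2 / n ^ 2)) ≤
      R * (Real.exp ((X - 1) / 2) * (1 + (X - 1) / 2 / n) + (C3 + 2 * C5) / n ^ 2) := by
    intro M hM
    have e1 : ∑ M' ∈ RG n 1, (X ^ (es M ∩ es M').card *
        (1 + 2 * ((es M ∩ es M').card : ℝ) ^ 2 / n ^ 2)) =
        ∑ M' ∈ RG n 1, X ^ (es M ∩ es M').card +
        2 / n ^ 2 * ∑ M' ∈ RG n 1, X ^ (es M ∩ es M').card * ((es M ∩ es M').card : ℝ) ^ 2 := by
      rw [Finset.mul_sum, ← Finset.sum_add_distrib]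
      apply Finset.sum_congr rfl
      intro M' _
      ring
    have s1 : ∑ M' ∈ RG n 1, X ^ (es M ∩ es M').card ≤
        R * (Real.exp ((X - 1) / 2) * (1 + (X - 1) / 2 / n) + C3 / n ^ 2) := by
      rw [pm_gf hn M hM X, hR, hcardM]
      exact f3 n hn hn2 X hX1 (by linarith)
    have s2 : ∑ M' ∈ RG n 1, X ^ (es M ∩ es M').card * ((es M ∩ es M').card : ℝ) ^ 2 ≤ R * C5 := by
      have k1 : ∑ M' ∈ RG n 1, X ^ (es M ∩ es M').card * ((es M ∩ es M').card : ℝ) ^ 2 ≤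
          8 * ∑ M' ∈ RG n 1, (3 / 2 * X) ^ (es M ∩ es M').card := by
        rw [Finset.mul_sum]
        apply Finset.sum_le_sum
        intro M' _
        rw [mul_pow]
        have := mul_le_mul_of_nonneg_left (R1p_sq (es M ∩ es M').card)
          (show 0 ≤ X ^ (es M ∩ es M').card by positivity)
        linarith
      refine k1.trans ?_
      rw [pm_gf hn M hM (3 / 2 * X)]
      have k2 := f3 n hn hn2 (3 / 2 * X) (by linarith) (by linarith)
      have k3 : Real.exp ((3 / 2 * X - 1) / 2) * (1 + (3 / 2 * X - 1) / 2 / n) ≤ 6 := by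
        have j1 : Real.exp ((3 / 2 * X - 1) / 2) ≤ 3 := by
          have : Real.exp ((3 / 2 * X - 1) / 2) ≤ Real.exp 1 := Real.exp_le_exp.2 (by linarith)
          have := Real.exp_one_lt_d9
          linarith
        have j2 : (3 / 2 * X - 1) / 2 / n ≤ 1 := by
          rw [div_le_one hnpos]; linarith
        have := mul_le_mul j1 (show 1 + (3 / 2 * X - 1) / 2 / n ≤ 2 by linarith)
          (by
            have : 0 ≤ (3 / 2 * X - 1) / 2 / n := by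
              apply div_nonneg _ hnpos.le
              linarith
            linarith) (by norm_num)
        linarith
      have k4 : C3 / (n : ℝ) ^ 2 ≤ C3 := by
        apply div_le_self (by linarith)
        exact one_le_pow₀ hn1
      rw [hR, hcardM, hC5]
      have k5 : ((n - 1).doubleFactorial : ℝ) * (Real.exp ((3 / 2 * X - 1) / 2) *
          (1 + (3 / 2 * X - 1) / 2 / n) + C3 / n ^ 2) ≤ ((n - 1).doubleFactorial : ℝ) * (6 + C3) :=
        mul_le_mul_of_nonneg_left (by linarith) (by positivity)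
      have k6 := k2.trans k5
      linarith
    rw [e1]
    have s3 : 2 / (n : ℝ) ^ 2 * ∑ M' ∈ RG n 1, X ^ (es M ∩ es M').card *
        ((es M ∩ es M').card : ℝ) ^ 2 ≤ 2 / (n : ℝ) ^ 2 * (R * C5) :=
      mul_le_mul_of_nonneg_left s2 (by positivity)
    refine (add_le_add s1 s3).trans (le_of_eq ?_)
    ring
  -- the weight
  have hW : Pf * (Real.exp ((X - 1) / 2) * (1 + (X - 1) / 2 / n) + (C3 + 2 * C5) / n ^ 2) ≤
      Real.exp (C9 / n ^ 2) := by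
    rw [mul_add]
    have w1 : Pf * (Real.exp ((X - 1) / 2) * (1 + (X - 1) / 2 / n)) ≤ Real.exp ((A + C8) / n ^ 2) := by
      rw [hPf, hC8]; exact hX3
    have w2 : Pf ≤ Real.exp ((A + C8) / n ^ 2) := by
      rw [hPf]
      apply Real.exp_le_exp.2
      have v1 : 0 ≤ c / n * (1 + c / 2) := by positivity
      have v2 : A / (n : ℝ) ^ 2 ≤ (A + C8) / n ^ 2 :=
        div_le_div_of_nonneg_right (by linarith) (by positivity)
      linarith
    have w3 : Pf * ((C3 + 2 * C5) / n ^ 2) ≤ Real.exp ((A + C8) / n ^ 2) * ((C3 + 2 * C5) / n ^ 2) :=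
      mul_le_mul_of_nonneg_right w2 (by positivity)
    have w4 : Real.exp (C9 / n ^ 2) = Real.exp ((A + C8) / n ^ 2) * Real.exp ((C3 + 2 * C5) / n ^ 2) := by
      rw [← Real.exp_add, hC9]; congr 1; ring
    rw [w4]
    have w5 := Real.add_one_le_exp ((C3 + 2 * C5) / (n : ℝ) ^ 2)
    have w6 := mul_le_mul_of_nonneg_left w5 (Real.exp_pos ((A + C8) / (n : ℝ) ^ 2)).le
    linarith
  -- upper bound for the left side
  have hleft : N * ∑ M ∈ RG n 1, ∑ M' ∈ RG n 1, (cnt d ∅ (es M ∪ es M') : ℝ) ≤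
      ab ^ 2 * R ^ 2 * Real.exp (C9 / n ^ 2) := by
    have l1 : N * ∑ M ∈ RG n 1, ∑ M' ∈ RG n 1, (cnt d ∅ (es M ∪ es M') : ℝ) ≤
        ∑ M ∈ RG n 1, ab ^ 2 * (R * Real.exp (C9 / n ^ 2)) := by
      rw [Finset.mul_sum]
      apply Finset.sum_le_sum
      intro M hM
      rw [Finset.mul_sum]
      refine (Finset.sum_le_sum (fun M' hM' => hpair M hM M' hM')).trans ?_
      rw [← Finset.mul_sum, ← Finset.mul_sum]
      apply mul_le_mul_of_nonneg_left _ (by positivity)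
      have l2 := mul_le_mul_of_nonneg_left (hinner M hM) hPfpos.le
      refine l2.trans ?_
      have l3 := mul_le_mul_of_nonneg_left hW hRpos.le
      refine le_trans (le_of_eq ?_) l3
      ring
    refine l1.trans (le_of_eq ?_)
    rw [Finset.sum_const, nsmul_eq_mul, ← hR]
    ring
  -- lower bound for the right side
  have hright : ab ^ 2 * R ^ 2 * Real.exp (-(2 * C1 / n ^ 2)) ≤
      (∑ M ∈ RG n 1, (cnt d ∅ (es M) : ℝ)) ^ 2 := by
    have r1 : R * (ab * Real.exp (-(C1 / n ^ 2))) ≤ ∑ M ∈ RG n 1, (cnt d ∅ (es M) : ℝ) := by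
      rw [hR, ← nsmul_eq_mul]
      exact Finset.card_nsmul_le_sum _ _ _ ha_lo
    have r2 := pow_le_pow_left₀ (by positivity) r1 2
    refine le_trans (le_of_eq ?_) r2
    have e : Real.exp (-(2 * C1 / (n : ℝ) ^ 2)) = Real.exp (-(C1 / (n : ℝ) ^ 2)) ^ 2 := by
      rw [← Real.exp_nat_mul]; congr 1; push_cast; ring
    rw [e]
    ring
  -- conclusion
  rw [← hN]
  refine hleft.trans ?_
  have c1 : Real.exp (C9 / (n : ℝ) ^ 2) = Real.exp (C10 / n ^ 2) * Real.exp (-(2 * C1 / n ^ 2)) := by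
    rw [← Real.exp_add, hC10]; congr 1; ring
  have c2 : Real.exp (C10 / (n : ℝ) ^ 2) ≤ 1 + (C1 + C2 + 2 * C10 + 2 * A + 10) / n ^ 2 :=
    R1p_aux3 n C10 _ hn1 hC10' (by linarith) (by linarith)
  rw [c1]
  calc ab ^ 2 * R ^ 2 * (Real.exp (C10 / (n : ℝ) ^ 2) * Real.exp (-(2 * C1 / n ^ 2))) =
      Real.exp (C10 / (n : ℝ) ^ 2) * (ab ^ 2 * R ^ 2 * Real.exp (-(2 * C1 / n ^ 2))) := by ring
    _ ≤ (1 + (C1 + C2 + 2 * C10 + 2 * A + 10) / n ^ 2) *
        (∑ M ∈ RG n 1, (cnt d ∅ (es M) : ℝ)) ^ 2 :=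
      mul_le_mul c2 hright (by positivity) (by positivity)

end MT6

export MT6 (R1p_le)

end Pool.Agent.H698NC
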