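import Pool.Agent.H698NC.T6
import Pool.Agent.H698NC.Q2
import Pool.Agent.H698NC.G
import Pool.Agent.H698NC.H
import Pool.Agent.H698NC.Exist0

set_option autoImplicit false

namespace Pool.Agent.H698NC

open Finset

namespace MV2

variable {n : ℕ}

/-! ### Auxiliary lemmas -/

/-- the relation -/
def Rl (G H : SimpleGraph (Fin n)) : Prop := G ≤ H

/-- `M` and `G` have no common edge -/
def PN (G M : SimpleGraph (Fin n)) : Prop := ∀ e ∈ es M, e ∉ G.edgeSet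

/-- all edges of `M` are edges of `G` -/
def PY (G M : SimpleGraph (Fin n)) : Prop := ∀ e ∈ es M, e ∈ G.edgeSet

theorem v1_mem_RG {G : SimpleGraph (Fin n)} {d : ℕ} : G ∈ RG n d ↔ Reg G d := by
  unfold RG
  simp

theorem v1_mem_es {G : SimpleGraph (Fin n)} {e : Sym2 (Fin n)} : e ∈ es G ↔ e ∈ G.edgeSet := by
  unfold es
  simp

theorem v1_le_iff {M G : SimpleGraph (Fin n)} : (∀ e ∈ es M, e ∈ G.edgeSet) ↔ M ≤ G := by
  rw [← SimpleGraph.edgeSet_subset_edgeSet]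
  constructor
  · intro h e he
    exact h e (v1_mem_es.mpr he)
  · intro h e he
    exact h (v1_mem_es.mp he)

theorem v1_dj_iff {M G : SimpleGraph (Fin n)} :
    (∀ e ∈ es M, e ∉ G.edgeSet) ↔ ∀ v w, M.Adj v w → ¬ G.Adj v w := by
  constructor
  · intro h v w hvw
    have := h s(v, w) (v1_mem_es.mpr hvw)
    exact this
  · intro h e he
    have he' := v1_mem_es.mp he
    induction e using Sym2.ind with
    | _ v w => exact h v w he'

theorem v1_reg_sdiff {G H : SimpleGraph (Fin n)} {a b : ℕ} (h : H ≤ G) (hG : Reg G (a + b))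
    (hH : Reg H b) : Reg (G \ H) a := by
  intro v
  have h1 : (G \ H).neighborSet v = G.neighborSet v \ H.neighborSet v := by
    ext w
    simp [SimpleGraph.sdiff_adj]
  have h2 : H.neighborSet v ⊆ G.neighborSet v := fun w hw => h hw
  rw [h1, Set.ncard_sdiff h2 (Set.toFinite _), hG v, hH v]
  omega

theorem v1_reg_sup {G H : SimpleGraph (Fin n)} {a b : ℕ} (hd : ∀ v w, H.Adj v w → ¬ G.Adj v w)
    (hG : Reg G a) (hH : Reg H b) : Reg (G ⊔ H) (a + b) := by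
  intro v
  have h1 : (G ⊔ H).neighborSet v = G.neighborSet v ∪ H.neighborSet v := by
    ext w
    simp
  have h2 : Disjoint (G.neighborSet v) (H.neighborSet v) := by
    rw [Set.disjoint_left]
    intro w hw hw'
    exact hd v w hw' hw
  rw [h1, Set.ncard_union_eq h2 (Set.toFinite _) (Set.toFinite _), hG v, hH v]

open scoped Classical in
theorem v1_up {d : ℕ} {G : SimpleGraph (Fin n)} (hG : G ∈ RG n d) :
    ((RG n (d + 1)).filter (fun H => Rl G H)).card =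
      ((RG n 1).filter (fun M => PN G M)).card := by
  rw [v1_mem_RG] at hG
  refine Finset.card_bij' (fun H _ => H \ G) (fun M _ => G ⊔ M) ?_ ?_ ?_ ?_
  · intro H hH
    rw [mem_filter, v1_mem_RG] at hH ⊢
    obtain ⟨h1, h2⟩ := hH
    refine ⟨v1_reg_sdiff h2 (by rw [add_comm 1 d]; exact h1) hG, ?_⟩
    rw [PN, v1_dj_iff]
    intro v w h
    rw [SimpleGraph.sdiff_adj] at h
    exact h.2
  · intro M hM
    rw [mem_filter, v1_mem_RG] at hM ⊢
    obtain ⟨h1, h2⟩ := hM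
    rw [PN, v1_dj_iff] at h2
    exact ⟨v1_reg_sup h2 hG h1, (le_sup_left : G ≤ G ⊔ M)⟩
  · intro H hH
    rw [mem_filter] at hH
    exact sup_sdiff_cancel_right hH.2
  · intro M hM
    rw [mem_filter, PN, v1_dj_iff] at hM
    ext v w
    have := hM.2 v w
    simp only [SimpleGraph.sdiff_adj, SimpleGraph.sup_adj]
    tauto

open scoped Classical in
theorem v1_down {d : ℕ} {H : SimpleGraph (Fin n)} (hH : H ∈ RG n (d + 1)) :
    ((RG n d).filter (fun G => Rl G H)).card =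
      ((RG n 1).filter (fun M => PY H M)).card := by
  rw [v1_mem_RG] at hH
  refine Finset.card_bij' (fun G _ => H \ G) (fun M _ => H \ M) ?_ ?_ ?_ ?_
  · intro G hG
    rw [mem_filter, v1_mem_RG] at hG ⊢
    obtain ⟨h1, h2⟩ := hG
    refine ⟨v1_reg_sdiff h2 (by rw [add_comm 1 d]; exact hH) h1, ?_⟩
    rw [PY, v1_le_iff]
    exact sdiff_le
  · intro M hM
    rw [mem_filter, v1_mem_RG] at hM ⊢
    obtain ⟨h1, h2⟩ := hM
    rw [PY, v1_le_iff] at h2
    exact ⟨v1_reg_sdiff h2 hH h1, (sdiff_le : H \ M ≤ H)⟩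
  · intro G hG
    rw [mem_filter] at hG
    exact sdiff_sdiff_eq_self hG.2
  · intro M hM
    rw [mem_filter, PY, v1_le_iff] at hM
    exact sdiff_sdiff_eq_self hM.2

open scoped Classical in
theorem v1_sum {α β : Type} (S : Finset α) (T : Finset β) (P : α → β → Prop) :
    ∑ x ∈ S, ((T.filter (fun y => P x y)).card : ℝ) = ∑ y ∈ T, ((S.filter (fun x => P x y)).card : ℝ) := by
  simp only [card_filter]
  push_cast
  rw [sum_comm]

open scoped Classical in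
theorem v1_sum_sq {α β : Type} (S : Finset α) (T : Finset β) (P : α → β → Prop) :
    ∑ x ∈ S, ((T.filter (fun y => P x y)).card : ℝ) ^ 2
      = ∑ y ∈ T, ∑ y' ∈ T, ((S.filter (fun x => P x y ∧ P x y')).card : ℝ) := by
  have h1 : ∀ x, ((T.filter (fun y => P x y)).card : ℝ) ^ 2
      = ∑ y ∈ T, ∑ y' ∈ T, if P x y ∧ P x y' then (1 : ℝ) else 0 := by
    intro x
    rw [sq, card_filter]
    push_cast
    rw [sum_mul_sum]
    refine sum_congr rfl fun y _ => sum_congr rfl fun y' _ => ?_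
    by_cases h1 : P x y <;> by_cases h2 : P x y' <;> simp [h1, h2]
  rw [sum_congr rfl fun x _ => h1 x, sum_comm]
  refine sum_congr rfl fun y _ => ?_
  rw [sum_comm]
  refine sum_congr rfl fun y' _ => ?_
  rw [card_filter]
  push_cast
  rfl

open scoped Classical in
theorem v1_cnt_B (d : ℕ) (M : SimpleGraph (Fin n)) :
    cnt d ∅ (es M) = ((RG n d).filter (fun G => PN G M)).card := by
  unfold cnt
  congr 1
  ext G
  rw [mem_filter, mem_filter]
  exact ⟨fun h => ⟨h.1, h.2.2⟩, fun h => ⟨h.1, fun e he => absurd he (notMem_empty e), h.2⟩⟩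

open scoped Classical in
theorem v1_cnt_A (d : ℕ) (M : SimpleGraph (Fin n)) :
    cnt d (es M) ∅ = ((RG n d).filter (fun G => PY G M)).card := by
  unfold cnt
  congr 1
  ext G
  rw [mem_filter, mem_filter]
  exact ⟨fun h => ⟨h.1, h.2.1⟩, fun h => ⟨h.1, h.2, fun e he => absurd he (notMem_empty e)⟩⟩

open scoped Classical in
theorem v1_cnt_B2 (d : ℕ) (M M' : SimpleGraph (Fin n)) :
    cnt d ∅ (es M ∪ es M') = ((RG n d).filter (fun G => PN G M ∧ PN G M')).card := by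
  unfold cnt
  congr 1
  ext G
  rw [mem_filter, mem_filter]
  constructor
  · rintro ⟨h0, -, h1⟩
    exact ⟨h0, fun e he => h1 e (mem_union_left _ he), fun e he => h1 e (mem_union_right _ he)⟩
  · rintro ⟨h0, h1, h2⟩
    exact ⟨h0, fun e he => absurd he (notMem_empty e),
      fun e he => (mem_union.mp he).elim (h1 e) (h2 e)⟩

open scoped Classical in
theorem v1_cnt_A2 (d : ℕ) (M M' : SimpleGraph (Fin n)) :
    cnt d (es M ∪ es M') ∅ = ((RG n d).filter (fun G => PY G M ∧ PY G M')).card := by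
  unfold cnt
  congr 1
  ext G
  rw [mem_filter, mem_filter]
  constructor
  · rintro ⟨h0, h1, -⟩
    exact ⟨h0, fun e he => h1 e (mem_union_left _ he), fun e he => h1 e (mem_union_right _ he)⟩
  · rintro ⟨h0, h1, h2⟩
    exact ⟨h0, fun e he => (mem_union.mp he).elim (h1 e) (h2 e),
      fun e he => absurd he (notMem_empty e)⟩

open scoped Classical in
/-- first moment, upwards -/
theorem v1_m1 (d : ℕ) :
    ∑ G ∈ RG n d, (((RG n (d + 1)).filter (fun H => Rl G H)).card : ℝ)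
      = ∑ M ∈ RG n 1, (cnt d ∅ (es M) : ℝ) := by
  rw [sum_congr rfl fun G hG => by rw [v1_up hG]]
  rw [v1_sum (RG n d) (RG n 1) PN]
  refine sum_congr rfl fun M _ => ?_
  rw [v1_cnt_B]

open scoped Classical in
/-- first moment, downwards -/
theorem v1_m2 (d : ℕ) :
    ∑ H ∈ RG n (d + 1), (((RG n d).filter (fun G => Rl G H)).card : ℝ)
      = ∑ M ∈ RG n 1, (cnt (d + 1) (es M) ∅ : ℝ) := by
  rw [sum_congr rfl fun G hG => by rw [v1_down hG]]
  rw [v1_sum (RG n (d + 1)) (RG n 1) PY]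
  refine sum_congr rfl fun M _ => ?_
  rw [v1_cnt_A]

open scoped Classical in
/-- second moment, upwards -/
theorem v1_s1 (d : ℕ) :
    ∑ G ∈ RG n d, (((RG n (d + 1)).filter (fun H => Rl G H)).card : ℝ) ^ 2
      = ∑ M ∈ RG n 1, ∑ M' ∈ RG n 1, (cnt d ∅ (es M ∪ es M') : ℝ) := by
  rw [sum_congr rfl fun G hG => by rw [v1_up hG]]
  rw [v1_sum_sq (RG n d) (RG n 1) PN]
  refine sum_congr rfl fun M _ => sum_congr rfl fun M' _ => ?_
  rw [v1_cnt_B2]

open scoped Classical in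
/-- second moment, downwards -/
theorem v1_s2 (d : ℕ) :
    ∑ H ∈ RG n (d + 1), (((RG n d).filter (fun G => Rl G H)).card : ℝ) ^ 2
      = ∑ M ∈ RG n 1, ∑ M' ∈ RG n 1, (cnt (d + 1) (es M ∪ es M') ∅ : ℝ) := by
  rw [sum_congr rfl fun G hG => by rw [v1_down hG]]
  rw [v1_sum_sq (RG n (d + 1)) (RG n 1) PY]
  refine sum_congr rfl fun M _ => sum_congr rfl fun M' _ => ?_
  rw [v1_cnt_A2]

open scoped Classical in
theorem v1_m12 (d : ℕ) :
    ∑ G ∈ RG n d, (((RG n (d + 1)).filter (fun H => Rl G H)).card : ℝ)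
      = ∑ M ∈ RG n 1, (cnt (d + 1) (es M) ∅ : ℝ) := by
  rw [v1_sum (RG n d) (RG n (d + 1)) Rl, v1_m2]

open scoped Classical in
/-- TARGET 1 -/
theorem step_couplingp : ∃ C : ℝ, 1 ≤ C ∧ ∀ n d : ℕ, Even n → 4 ≤ d → C * d ≤ n →
    ∃ (h1 : (RG n (d - 1)).Nonempty) (h2 : (RG n d).Nonempty) (μ : PMF (SimpleGraph (Fin n) × SimpleGraph (Fin n))),
      μ.map Prod.fst = PMF.uniformOfFinset (RG n (d - 1)) h1 ∧ μ.map Prod.snd = PMF.uniformOfFinset (RG n d) h2 ∧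
        ENNReal.ofReal (1 - (√(C / n ^ 2) + √(C / d ^ 3 + C / (n * d))) / 2) ≤ μ.toOuterMeasure {p | p.1 ≤ p.2} := by
  obtain ⟨C1, hC1, H1⟩ := R1p_le
  obtain ⟨C2, hC2, H2⟩ := R2p_le
  obtain ⟨C3, hC3, H3⟩ := structure_sum 1
  refine ⟨C1 + C2 + C3, by linarith, ?_⟩
  intro n d hn hd hCd
  obtain ⟨e, rfl⟩ : ∃ e, d = e + 1 := ⟨d - 1, by omega⟩
  rw [Nat.add_sub_cancel]
  set C := C1 + C2 + C3 with hC
  have hdR : (4 : ℝ) ≤ ((e + 1 : ℕ) : ℝ) := by exact_mod_cast hd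
  have hd0 : (0 : ℝ) < ((e + 1 : ℕ) : ℝ) := by linarith
  have k1 : C1 * ((e + 1 : ℕ) : ℝ) ≤ n :=
    (mul_le_mul_of_nonneg_right (by linarith) hd0.le).trans hCd
  have k2 : C2 * ((e + 1 : ℕ) : ℝ) ≤ n :=
    (mul_le_mul_of_nonneg_right (by linarith) hd0.le).trans hCd
  have k3 : C3 * ((e + 1 : ℕ) : ℝ) ≤ n :=
    (mul_le_mul_of_nonneg_right (by linarith) hd0.le).trans hCd
  have k1' : C1 * ((e : ℕ) : ℝ) ≤ n := by
    refine le_trans ?_ k1
    refine mul_le_mul_of_nonneg_left ?_ (by linarith)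
    push_cast
    linarith
  have k4 : 3 * ((e + 1 : ℕ) : ℝ) ≤ n :=
    (mul_le_mul_of_nonneg_right (by linarith) hd0.le).trans hCd
  have k5 : 3 * (e + 1) ≤ n := by exact_mod_cast k4
  have hn0 : (0 : ℝ) < n := by linarith
  have ne1 : (RG n e).Nonempty := RG_nonempty (by omega) (hn.mul_right e)
  have ne2 : (RG n (e + 1)).Nonempty := RG_nonempty (by omega) (hn.mul_right _)
  have ne3 : (RG n 1).Nonempty := RG_nonempty (by omega) (hn.mul_right _)
  have hpos : 0 < ∑ G ∈ RG n e, ((RG n (e + 1)).filter (fun H => Rl G H)).card := by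
    have : (0 : ℝ) < ∑ G ∈ RG n e, (((RG n (e + 1)).filter (fun H => Rl G H)).card : ℝ) := by
      rw [v1_m12]
      refine sum_pos (fun M hM => ?_) ne3
      obtain ⟨p1, p2, p3⟩ := es_pm M hM
      have := (H3 n (e + 1) (es M) ∅ (hn.mul_right _) (by omega) k3
        ⟨p1, fun v => by rw [p2 v]; omega, fun v => by rw [p2 v], by omega⟩
        ⟨by intro e he; simp at he, fun v => by simp [dg, nbr]⟩ (by simp)).1
      exact_mod_cast this
    exact_mod_cast this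
  have a0 : 0 ≤ C / (n : ℝ) ^ 2 := by positivity
  have b0 : 0 ≤ C / ((e + 1 : ℕ) : ℝ) ^ 3 + C / ((n : ℝ) * ((e + 1 : ℕ) : ℝ)) := by positivity
  have q1 := H1 n e hn (by omega) k1'
  have q2 := H2 n (e + 1) hn (by omega) k2
  obtain ⟨μ, m1, m2, m3⟩ := coupling_of_moments (RG n e) (RG n (e + 1)) ne1 ne2 Rl _ _ a0 b0 hpos
    (by
      rw [v1_s1, v1_m1]
      refine q1.trans (mul_le_mul_of_nonneg_right ?_ (sq_nonneg _))
      gcongr
      linarith)
    (by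
      rw [v1_s2, v1_m12]
      refine q2.trans (mul_le_mul_of_nonneg_right ?_ (sq_nonneg _))
      gcongr <;> linarith)
  exact ⟨ne1, ne2, μ, m1, m2, m3⟩

theorem v1_sqrt_add {x y : ℝ} (hx : 0 ≤ x) (hy : 0 ≤ y) : √(x + y) ≤ √x + √y := by
  rw [Real.sqrt_le_iff]
  refine ⟨by positivity, ?_⟩
  have h1 := Real.sq_sqrt hx
  have h2 := Real.sq_sqrt hy
  have h3 := mul_nonneg (Real.sqrt_nonneg x) (Real.sqrt_nonneg y)
  nlinarith

theorem v1_tele (x : ℝ) (hx : 1 ≤ x) :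
    √(1 / (x + 1) ^ 3) ≤ 2 * (1 / √x - 1 / √(x + 1)) := by
  have hx0 : 0 < x := by linarith
  set a := √x with ha
  set b := √(x + 1) with hb
  have ha0 : 0 < a := Real.sqrt_pos.mpr hx0
  have hb0 : 0 < b := Real.sqrt_pos.mpr (by linarith)
  have ha2 : a ^ 2 = x := Real.sq_sqrt hx0.le
  have hb2 : b ^ 2 = x + 1 := Real.sq_sqrt (by linarith)
  have hab : a ≤ b := Real.sqrt_le_sqrt (by linarith)
  have h1 : √(1 / (x + 1) ^ 3) = 1 / b ^ 3 := by
    rw [← hb2]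
    have : 1 / (b ^ 2) ^ 3 = (1 / b ^ 3) ^ 2 := by
      field_simp
    rw [this]
    exact Real.sqrt_sq (by positivity)
  rw [h1]
  have h2 : 2 * (1 / a - 1 / b) = 2 / (a * b * (a + b)) := by
    have : (b - a) * (a + b) = 1 := by nlinarith
    field_simp
    nlinarith
  rw [h2, div_le_div_iff₀ (by positivity) (by positivity)]
  have h3 : a * b * (a + b) ≤ b * b * (b + b) := by gcongr
  nlinarith

theorem v2_sqrt_tele (x : ℝ) (hx : 1 ≤ x) : 1 / √(x + 1) ≤ 2 * (√(x + 1) - √x) := by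
  have hx0 : 0 < x := by linarith
  set a := √x with ha
  set b := √(x + 1) with hb
  have ha0 : 0 < a := Real.sqrt_pos.mpr hx0
  have hb0 : 0 < b := Real.sqrt_pos.mpr (by linarith)
  have ha2 : a ^ 2 = x := Real.sq_sqrt hx0.le
  have hb2 : b ^ 2 = x + 1 := Real.sq_sqrt (by linarith)
  have hab : a ≤ b := Real.sqrt_le_sqrt (by linarith)
  rw [div_le_iff₀ hb0]
  nlinarith [mul_nonneg (sub_nonneg.mpr hab) (sub_nonneg.mpr hab)]

theorem coupling_chainp_aux {C : ℝ} (hC : 1 ≤ C) {n d : ℕ} (hd : 3 ≤ d) (h : C * ((d + 1 : ℕ) : ℝ) ≤ n) :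
    (√(C / n ^ 2) + √(C / ((d + 1 : ℕ) : ℝ) ^ 3 + C / (n * ((d + 1 : ℕ) : ℝ)))) / 2 ≤
      C * ((1 / √(d : ℝ) - 1 / √((d : ℝ) + 1)) + 1 / (n : ℝ) + (√((d : ℝ) + 1) - √(d : ℝ)) * (1 / √(n : ℝ))) := by
  have hd3 : (3 : ℝ) ≤ d := by exact_mod_cast hd
  have hn : (0 : ℝ) < n := by
    have : 0 < C * ((d + 1 : ℕ) : ℝ) := by positivity
    linarith
  have hC2 : √C ≤ C := by
    rw [Real.sqrt_le_left (by linarith)]
    nlinarith
  have h1 : √(C / (n : ℝ) ^ 2) = √C * (1 / n) := by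
    rw [Real.sqrt_div (by linarith), Real.sqrt_sq hn.le]
    ring
  have h2 : √(C / ((d + 1 : ℕ) : ℝ) ^ 3 + C / (n * ((d + 1 : ℕ) : ℝ))) ≤
      √C * (2 * (1 / √(d : ℝ) - 1 / √((d : ℝ) + 1))) + √C * ((2 * (√((d : ℝ) + 1) - √(d : ℝ))) * (1 / √(n : ℝ))) := by
    refine (v1_sqrt_add (by positivity) (by positivity)).trans ?_
    refine add_le_add ?_ ?_
    · have : C / ((d + 1 : ℕ) : ℝ) ^ 3 = C * (1 / ((d : ℝ) + 1) ^ 3) := by
        push_cast
        ring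
      rw [this, Real.sqrt_mul (by linarith)]
      exact mul_le_mul_of_nonneg_left (v1_tele _ (by linarith)) (Real.sqrt_nonneg _)
    · have e1 : C / (n * ((d + 1 : ℕ) : ℝ)) = C * ((1 / ((d : ℝ) + 1)) * (1 / n)) := by
        push_cast
        field_simp
      rw [e1, Real.sqrt_mul (by linarith), Real.sqrt_mul (by positivity)]
      refine mul_le_mul_of_nonneg_left ?_ (Real.sqrt_nonneg _)
      have e2 : √(1 / (n : ℝ)) = 1 / √(n : ℝ) := by rw [Real.sqrt_div zero_le_one, Real.sqrt_one]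
      have e3 : √(1 / ((d : ℝ) + 1)) = 1 / √((d : ℝ) + 1) := by rw [Real.sqrt_div zero_le_one, Real.sqrt_one]
      rw [e2, e3]
      exact mul_le_mul_of_nonneg_right (v2_sqrt_tele _ (by linarith)) (by positivity)
  have h3 : 0 ≤ 1 / √(d : ℝ) - 1 / √((d : ℝ) + 1) := by
    rw [sub_nonneg]
    refine one_div_le_one_div_of_le (Real.sqrt_pos.mpr (by linarith)) (Real.sqrt_le_sqrt (by linarith))
  have h4 : 0 ≤ 1 / (n : ℝ) := by positivity
  have h5 : 0 ≤ (√((d : ℝ) + 1) - √(d : ℝ)) * (1 / √(n : ℝ)) :=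
    mul_nonneg (sub_nonneg.mpr (Real.sqrt_le_sqrt (by linarith))) (by positivity)
  have h6 : 0 ≤ √C := Real.sqrt_nonneg _
  rw [h1]
  nlinarith [mul_nonneg (sub_nonneg.mpr hC2) h3, mul_nonneg (sub_nonneg.mpr hC2) h4,
    mul_nonneg (sub_nonneg.mpr hC2) h5, mul_nonneg (sub_nonneg.mpr hC) h4, mul_nonneg h6 h4]

open scoped Classical in
/-- TARGET 2 -/
theorem coupling_chainp : ∃ C : ℝ, 1 ≤ C ∧ ∀ n d₁ d₂ : ℕ, Even n → 3 ≤ d₁ → d₁ ≤ d₂ → C * d₂ ≤ n →
    ∃ (h1 : (RG n d₁).Nonempty) (h2 : (RG n d₂).Nonempty) (μ : PMF (SimpleGraph (Fin n) × SimpleGraph (Fin n))),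
      μ.map Prod.fst = PMF.uniformOfFinset (RG n d₁) h1 ∧ μ.map Prod.snd = PMF.uniformOfFinset (RG n d₂) h2 ∧
        ENNReal.ofReal (1 - C * (1 / √(d₁ : ℝ) + ((d₂ : ℝ) - d₁) / √((n : ℝ) * d₂))) ≤ μ.toOuterMeasure {p | p.1 ≤ p.2} := by
  obtain ⟨C₀, hC₀, H⟩ := step_couplingp
  refine ⟨2 * C₀, by linarith, ?_⟩
  intro n d₁ d₂ hn h3 h12 hCd
  obtain ⟨k, rfl⟩ := Nat.exists_eq_add_of_le h12
  have hne : ∀ i, i ≤ k → (RG n (d₁ + i)).Nonempty := by
    intro i hi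
    have h4 : 2 * ((d₁ + k : ℕ) : ℝ) ≤ n :=
      (mul_le_mul_of_nonneg_right (by linarith) (by positivity)).trans hCd
    have h5 : 2 * (d₁ + k) ≤ n := by exact_mod_cast h4
    exact RG_nonempty (by omega) (hn.mul_right _)
  let P : ℕ → PMF (SimpleGraph (Fin n)) := fun i =>
    if h : (RG n (d₁ + i)).Nonempty then PMF.uniformOfFinset (RG n (d₁ + i)) h else PMF.pure ⊥
  have hP : ∀ i (hi : i ≤ k), P i = PMF.uniformOfFinset (RG n (d₁ + i)) (hne i hi) := by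
    intro i hi
    exact dif_pos (hne i hi)
  have hCi : ∀ i, i < k → C₀ * ((d₁ + i + 1 : ℕ) : ℝ) ≤ n := by
    intro i hi
    refine le_trans ?_ hCd
    have : ((d₁ + i + 1 : ℕ) : ℝ) ≤ ((d₁ + k : ℕ) : ℝ) := by exact_mod_cast (by omega)
    exact mul_le_mul (by linarith) this (by positivity) (by linarith)
  obtain ⟨μ, m1, m2, m3⟩ := chain (fun G H : SimpleGraph (Fin n) => G ≤ H) (fun x => le_refl x)
    (fun x y z hxy hyz => le_trans hxy hyz) P
    (fun i => (√(C₀ / n ^ 2) +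
      √(C₀ / ((d₁ + i + 1 : ℕ) : ℝ) ^ 3 + C₀ / (n * ((d₁ + i + 1 : ℕ) : ℝ)))) / 2) k
    (fun i _ => by positivity)
    (by
      intro i hi
      obtain ⟨e1, e2, μ, m1, m2, m3⟩ := H n (d₁ + i + 1) hn (by omega) (hCi i hi)
      refine ⟨μ, ?_, ?_, m3⟩
      · rw [m1, hP i hi.le]
        rfl
      · rw [m2, hP (i + 1) hi]
        rfl)
  refine ⟨hne 0 (Nat.zero_le _), hne k le_rfl, μ, ?_, ?_, ?_⟩
  · rw [m1, hP 0 (Nat.zero_le _)]
    rfl
  · rw [m2, hP k le_rfl]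
  · refine le_trans (ENNReal.ofReal_le_ofReal ?_) m3
    have hsum : ∑ i ∈ range k, (√(C₀ / n ^ 2) +
        √(C₀ / ((d₁ + i + 1 : ℕ) : ℝ) ^ 3 + C₀ / (n * ((d₁ + i + 1 : ℕ) : ℝ)))) / 2 ≤
        ∑ i ∈ range k, C₀ * ((1 / √((d₁ + i : ℕ) : ℝ) - 1 / √((d₁ + (i + 1) : ℕ) : ℝ)) + 1 / (n : ℝ) +
          (√((d₁ + (i + 1) : ℕ) : ℝ) - √((d₁ + i : ℕ) : ℝ)) * (1 / √(n : ℝ))) := by
      refine sum_le_sum fun i hi => ?_
      have := coupling_chainp_aux hC₀ (n := n) (d := d₁ + i) (by omega) (hCi i (mem_range.mp hi))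
      have e1 : ((d₁ + (i + 1) : ℕ) : ℝ) = ((d₁ + i : ℕ) : ℝ) + 1 := by push_cast; ring
      rw [e1]
      exact this
    have htel : ∑ i ∈ range k, C₀ * ((1 / √((d₁ + i : ℕ) : ℝ) - 1 / √((d₁ + (i + 1) : ℕ) : ℝ)) + 1 / (n : ℝ) +
          (√((d₁ + (i + 1) : ℕ) : ℝ) - √((d₁ + i : ℕ) : ℝ)) * (1 / √(n : ℝ)))
        = C₀ * ((1 / √(d₁ : ℝ) - 1 / √((d₁ + k : ℕ) : ℝ)) + k * (1 / (n : ℝ)) +
          (√((d₁ + k : ℕ) : ℝ) - √(d₁ : ℝ)) * (1 / √(n : ℝ))) := by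
      rw [← mul_sum, sum_add_distrib, sum_add_distrib, sum_const, card_range, nsmul_eq_mul,
        sum_range_sub' (fun i => 1 / √((d₁ + i : ℕ) : ℝ)) k, ← sum_mul,
        sum_range_sub (fun i => √((d₁ + i : ℕ) : ℝ)) k]
      rfl
    rw [htel] at hsum
    have hd1 : (3 : ℝ) ≤ d₁ := by exact_mod_cast h3
    have hk0 : (0 : ℝ) ≤ k := Nat.cast_nonneg k
    have hd2 : (0 : ℝ) < ((d₁ + k : ℕ) : ℝ) := by
      push_cast
      linarith
    have hdn : ((d₁ + k : ℕ) : ℝ) ≤ n := by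
      refine le_trans ?_ hCd
      nlinarith
    have hn0 : (0 : ℝ) < n := by linarith
    have p1 : 0 ≤ 1 / √((d₁ + k : ℕ) : ℝ) := by positivity
    have p2 : 0 ≤ 1 / √(d₁ : ℝ) := by positivity
    have p4 : (((d₁ + k : ℕ) : ℝ) - d₁) / √((n : ℝ) * ((d₁ + k : ℕ) : ℝ)) = k / √((n : ℝ) * ((d₁ + k : ℕ) : ℝ)) := by
      push_cast
      ring
    have hs0 : 0 < √((n : ℝ) * ((d₁ + k : ℕ) : ℝ)) := Real.sqrt_pos.mpr (by positivity)
    have hsn : √((n : ℝ) * ((d₁ + k : ℕ) : ℝ)) ≤ n := by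
      rw [Real.sqrt_le_left hn0.le]
      nlinarith
    have q1 : (k : ℝ) * (1 / (n : ℝ)) ≤ k / √((n : ℝ) * ((d₁ + k : ℕ) : ℝ)) := by
      rw [div_eq_mul_one_div (k : ℝ)]
      exact mul_le_mul_of_nonneg_left (one_div_le_one_div_of_le hs0 hsn) hk0
    have q2 : (√((d₁ + k : ℕ) : ℝ) - √(d₁ : ℝ)) * (1 / √(n : ℝ)) ≤ k / √((n : ℝ) * ((d₁ + k : ℕ) : ℝ)) := by
      rw [Real.sqrt_mul hn0.le]
      have a0 : 0 < √(n : ℝ) := Real.sqrt_pos.mpr hn0
      have b0 : 0 < √((d₁ + k : ℕ) : ℝ) := Real.sqrt_pos.mpr hd2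
      have c0 : 0 ≤ √(d₁ : ℝ) := Real.sqrt_nonneg _
      have b2 : √((d₁ + k : ℕ) : ℝ) ^ 2 = d₁ + k := by
        rw [Real.sq_sqrt hd2.le]
        push_cast
        ring
      have c2 : √(d₁ : ℝ) ^ 2 = d₁ := Real.sq_sqrt (by linarith)
      have hbc : √(d₁ : ℝ) ≤ √((d₁ + k : ℕ) : ℝ) := Real.sqrt_le_sqrt (by push_cast; linarith)
      rw [mul_one_div, div_le_div_iff₀ a0 (mul_pos a0 b0)]
      have : (√((d₁ + k : ℕ) : ℝ) - √(d₁ : ℝ)) * √((d₁ + k : ℕ) : ℝ) ≤ k := by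
        nlinarith
      nlinarith
    have q3 : 0 ≤ (k : ℝ) / √((n : ℝ) * ((d₁ + k : ℕ) : ℝ)) := by positivity
    rw [p4]
    have hC0 : 0 ≤ C₀ := by linarith
    have r1 := mul_le_mul_of_nonneg_left q1 hC0
    have r2 := mul_le_mul_of_nonneg_left q2 hC0
    have r3 := mul_nonneg hC0 p1
    have r4 := mul_nonneg hC0 p2
    nlinarith

end MV2

export MV2 (step_couplingp coupling_chainp)

end Pool.Agent.H698NC
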