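import Pool.Agent.H698NC.Defs

set_option autoImplicit false

namespace Pool.Agent.H698NC

open Finset

namespace MX1

variable {n : ℕ}

theorem h45_ncard {n : ℕ} (G : SimpleGraph (Fin n)) (v : Fin n) :
    (G.neighborSet v).ncard + (Gᶜ.neighborSet v).ncard = n - 1 := by
  rw [← Set.ncard_union_eq (SimpleGraph.compl_neighborSet_disjoint G v) (Set.toFinite _) (Set.toFinite _),
    SimpleGraph.neighborSet_union_compl_neighborSet_eq]
  have h := Set.ncard_add_ncard_compl ({v} : Set (Fin n))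
  rw [Set.ncard_singleton, Nat.card_eq_fintype_card, Fintype.card_fin] at h
  omega

theorem h45_mem {n a : ℕ} (G : SimpleGraph (Fin n)) : G ∈ RG n a ↔ Reg G a := by
  simp [RG]

/-- TARGET 1 -/
theorem compl_mem_RG {n a : ℕ} (hn : 1 ≤ n) (ha : a ≤ n - 1) (G : SimpleGraph (Fin n)) : Gᶜ ∈ RG n (n - 1 - a) ↔ G ∈ RG n a := by
  rw [h45_mem, h45_mem]
  unfold Reg
  apply forall_congr'
  intro v
  have := h45_ncard G v
  omega

theorem h45_card {n b : ℕ} (hn : 1 ≤ n) (hb : b ≤ n - 1) :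
    (RG n (n - 1 - b)).card = (RG n b).card := by
  refine Finset.card_bij' (fun G _ => Gᶜ) (fun G _ => Gᶜ) ?_ ?_ ?_ ?_
  · intro G hG
    rw [← compl_compl G, compl_mem_RG hn hb] at hG
    exact hG
  · intro G hG
    exact (compl_mem_RG hn hb G).mpr hG
  · intro G _; exact compl_compl G
  · intro G _; exact compl_compl G

theorem h45_map {n b : ℕ} (hn : 1 ≤ n) (hb : b ≤ n - 1) (h : (RG n b).Nonempty)
    (g : (RG n (n - 1 - b)).Nonempty) :
    (PMF.uniformOfFinset (RG n b) h).map (fun G => Gᶜ) = PMF.uniformOfFinset (RG n (n - 1 - b)) g := by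
  ext G
  rw [PMF.map_apply, tsum_eq_single Gᶜ]
  · rw [if_pos (compl_compl G).symm, PMF.uniformOfFinset_apply, PMF.uniformOfFinset_apply,
      h45_card hn hb]
    have : Gᶜ ∈ RG n b ↔ G ∈ RG n (n - 1 - b) := by
      have := compl_mem_RG hn hb Gᶜ
      rw [compl_compl] at this
      exact this.symm
    by_cases hG : Gᶜ ∈ RG n b
    · rw [if_pos hG, if_pos (this.mp hG)]
    · rw [if_neg hG, if_neg (fun h' => hG (this.mpr h'))]
  · intro H hH
    rw [if_neg]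
    rintro rfl
    exact hH (compl_compl H).symm

/-- TARGET 2 -/
theorem coupling_compl {n a b : ℕ} (hn : 1 ≤ n) (ha : a ≤ n - 1) (hb : b ≤ n - 1) (x : ENNReal)
    (h1 : (RG n a).Nonempty) (h2 : (RG n b).Nonempty) (μ : PMF (SimpleGraph (Fin n) × SimpleGraph (Fin n)))
    (hm1 : μ.map Prod.fst = PMF.uniformOfFinset (RG n a) h1) (hm2 : μ.map Prod.snd = PMF.uniformOfFinset (RG n b) h2)
    (hx : x ≤ μ.toOuterMeasure {p | p.1 ≤ p.2}) :
    ∃ (g1 : (RG n (n - 1 - b)).Nonempty) (g2 : (RG n (n - 1 - a)).Nonempty)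
      (ν : PMF (SimpleGraph (Fin n) × SimpleGraph (Fin n))),
      ν.map Prod.fst = PMF.uniformOfFinset (RG n (n - 1 - b)) g1 ∧
        ν.map Prod.snd = PMF.uniformOfFinset (RG n (n - 1 - a)) g2 ∧ x ≤ ν.toOuterMeasure {p | p.1 ≤ p.2} := by
  have g1 : (RG n (n - 1 - b)).Nonempty := by
    obtain ⟨G, hG⟩ := h2
    exact ⟨Gᶜ, (compl_mem_RG hn hb G).mpr hG⟩
  have g2 : (RG n (n - 1 - a)).Nonempty := by
    obtain ⟨G, hG⟩ := h1
    exact ⟨Gᶜ, (compl_mem_RG hn ha G).mpr hG⟩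
  refine ⟨g1, g2, μ.map (fun p => (p.2ᶜ, p.1ᶜ)), ?_, ?_, ?_⟩
  · rw [PMF.map_comp, ← h45_map hn hb h2 g1, ← hm2, PMF.map_comp]
    rfl
  · rw [PMF.map_comp, ← h45_map hn ha h1 g2, ← hm1, PMF.map_comp]
    rfl
  · rw [PMF.toOuterMeasure_map_apply]
    have he : (fun p : SimpleGraph (Fin n) × SimpleGraph (Fin n) => (p.2ᶜ, p.1ᶜ)) ⁻¹' {p | p.1 ≤ p.2} = {p | p.1 ≤ p.2} := by
      ext p
      show p.2ᶜ ≤ p.1ᶜ ↔ p.1 ≤ p.2
      exact compl_le_compl_iff_le
    rw [he]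
    exact hx

end MX1

export MX1 (compl_mem_RG coupling_compl)

end Pool.Agent.H698NC
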